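import Mathlib
import Pool.Agent.Work.MP_cea1f0_al.Defs
import Pool.Agent.Lib.SymRep.Virtual

-- merged part: Pool.Agent.Work.MP_cea1f0_al.Iface
section
/-! The characteristic zero data needed for the modular part (interface between the Hall algebra
files `D/*` and the files `C*`).  Elements of a group algebra over `ℂ` are functions `C → ℂ`,
permutation actions are homomorphisms to `Equiv.Perm`. -/

namespace Pool.Agent.Puig

open Classical

section
variable {C Ω ι : Type} [Group C] [Fintype C] [Fintype ι]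

/-- Product in the group algebra. -/
noncomputable def cv (x y : C → ℂ) : C → ℂ := fun g => ∑ h, x h * y (h⁻¹ * g)

/-- Permutation character of the invariant subset `S`. -/
noncomputable def pch (θ : C →* Equiv.Perm Ω) (S : Set Ω) (g : C) : ℕ :=
  Nat.card {ω // ω ∈ S ∧ θ g ω = ω}

/-- Its value on an element of the group algebra. -/
noncomputable def pev (θ : C →* Equiv.Perm Ω) (S : Set Ω) (x : C → ℂ) : ℂ :=
  ∑ g, x g * (pch θ S g : ℂ)

def ClassFn (f : C → ℂ) : Prop := ∀ g h, f (h * g * h⁻¹) = f g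

/-- Apply `e`, then truncate to the `p`-regular elements. -/
noncomputable def trn (p : ℕ) (e f : C → ℂ) : C → ℂ :=
  fun x => if (orderOf x).Coprime p then ∑ h, e h * f (h * x) else 0

/-- James type data for the group `C` acting on the invariant subset `Z` of `Ω`. -/
structure JD (p : ℕ) (O : ValuationSubring ℂ) (θ : C →* Equiv.Perm Ω) (Z : Set Ω) (e : C → ℂ)
    (ε : ι → C → ℂ) (S : ι → Set Ω) (s : ι → ℕ) (w a : ℕ) : Prop where
  e_mem : ∀ g, e g ∈ O
  e_class : ClassFn e
  e_idem : cv e e = e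
  ε_mem : ∀ μ g, ε μ g ∈ O
  ε_idem : ∀ μ, cv (ε μ) (ε μ) = ε μ
  Z_inv : ∀ g, ∀ ω ∈ Z, θ g ω ∈ Z
  S_inv : ∀ μ g, ∀ ω ∈ S μ, θ g ω ∈ S μ
  S_sub : ∀ μ, S μ ⊆ Z
  full : pev θ Z e = (Nat.card Z : ℂ)
  diag : ∀ μ, pev θ (S μ) (ε μ) = 1
  tri : ∀ κ μ, pev θ (S μ) (ε κ) ≠ 0 → κ = μ ∨ s μ < s κ
  tot : ∑ κ, ‖pev θ Z (ε κ)‖ ≤ w
  bd : ∀ μ, s μ ≤ a
  img : ∃ y : ι → C → ℂ, ∀ f, ClassFn f → trn p e f ∈ Submodule.span ℂ (Set.range y)

/-- Trace of `x ↦ a * x * b` on the group algebra. -/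
noncomputable def bitr (a b : C → ℂ) : ℂ := ∑ g, ∑ h, a h * b (g⁻¹ * h⁻¹ * g)

end

section
variable (n : ℕ) (K V : Type) [Field K] [AddCommGroup V] [Module K V]

/-- Flags of length `n`, repetitions allowed. -/
def Fl : Type :=
  {F : Fin (n + 1) → Submodule K V // Monotone F ∧ F 0 = ⊥ ∧ F (Fin.last n) = ⊤}

instance [Finite V] : Finite (Fl n K V) := by unfold Fl; infer_instance

/-- The action of the general linear group on flags. -/
noncomputable def flAct : (V ≃ₗ[K] V) →* Equiv.Perm (Fl n K V) :=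
  MonoidHom.toHomPerm
    { toFun := fun g F => ⟨fun t => (F.1 t).map (g : V →ₗ[K] V),
        fun _ _ h => Submodule.map_mono (F.2.1 h), by simp [F.2.2.1],
        by simp [F.2.2.2, LinearEquiv.range]⟩
      map_one' := by
        funext F; apply Subtype.ext; funext t
        exact Submodule.map_id _
      map_mul' := fun g h => by
        funext F; apply Subtype.ext; funext t
        exact Submodule.map_comp _ _ _ }

theorem flAct_apply (g : V ≃ₗ[K] V) (F : Fl n K V) (t : Fin (n + 1)) :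
    (flAct n K V g F).1 t = (F.1 t).map (g : V →ₗ[K] V) := rfl

/-- Partitions of `d` with at most `n` parts, all at most `n`. -/
def Ty (d : ℕ) : Type := {l : Fin n → Fin (n + 1) // Antitone l ∧ ∑ t, (l t : ℕ) = d}

noncomputable instance (d : ℕ) : Fintype (Ty n d) := by unfold Ty; infer_instance

/-- Flags of a given sorted type. -/
def flS {d : ℕ} (l : Ty n d) : Set (Fl n K V) :=
  {F | ∀ t : Fin n, Module.finrank K (F.1 t.succ) = Module.finrank K (F.1 t.castSucc) + l.1 t}

/-- Sum of the squares of the parts. -/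
def tySq {d : ℕ} (l : Ty n d) : ℕ := ∑ t, (l.1 t : ℕ) ^ 2

end

/-- The statement proved in `D/*`. -/
def GLData (p n : ℕ) : Prop :=
  ∃ (w : ℕ) (w' : ℕ → ℕ), ∀ (O : ValuationSubring ℂ), (p : ℂ) ∈ O.nonunits →
    ∀ (K V : Type) [Field K] [Finite K] [AddCommGroup V] [Module K V] [Finite V]
      [Fintype (V ≃ₗ[K] V)], (p : K) ≠ 0 → Module.finrank K V ≤ n →
      ∃ (e : (V ≃ₗ[K] V) → ℂ) (ε : Ty n (Module.finrank K V) → (V ≃ₗ[K] V) → ℂ),
        JD p O (flAct n K V) Set.univ e ε (flS n K V) (tySq n) w (n ^ 3) ∧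
        ∀ m : ℕ, (∀ a : ℕ, p ^ a ∣ Nat.card (V ≃ₗ[K] V) → p ^ a ≤ m) →
          ∀ μ ν, ‖bitr (ε ν) (cv e (ε μ))‖ ≤ w' m

end Pool.Agent.Puig
end

-- merged part: Pool.Agent.Work.MP_cea1f0_al.Mod
section
/-! Modules over a finite-dimensional algebra: the dimension `dm k x X` of `x • X`. -/

namespace Pool.Agent.Puig

open Module

/-- The dimension of `x • X`. -/
noncomputable def dm (k : Type) {A : Type} [Field k] [Ring A] [Algebra k A] (x : A) (X : Type)
    [AddCommGroup X] [Module k X] [Module A X] [IsScalarTower k A X] : ℕ :=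
  finrank k (LinearMap.range (Algebra.lsmul k k X x : X →ₗ[k] X))

/-- The subspace `x • N`. -/
noncomputable def jp (k : Type) {A X : Type} [Field k] [Ring A] [Algebra k A]
    [AddCommGroup X] [Module k X] [Module A X] [IsScalarTower k A X] (x : A) (N : Submodule A X) :
    Submodule k X :=
  (N.restrictScalars k).map (Algebra.lsmul k k X x : X →ₗ[k] X)

section
variable {k A X Y : Type} [Field k] [Ring A] [Algebra k A]
  [AddCommGroup X] [Module k X] [Module A X] [IsScalarTower k A X] [FiniteDimensional k X]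
  [AddCommGroup Y] [Module k Y] [Module A Y] [IsScalarTower k A Y]

theorem mem_jp {x : A} {N : Submodule A X} {v : X} : v ∈ jp k x N ↔ ∃ u ∈ N, x • u = v := by
  rfl

theorem dm_eq_zero {x : A} : dm k x X = 0 ↔ ∀ v : X, x • v = 0 := by
  rw [dm, Submodule.finrank_eq_zero, LinearMap.range_eq_bot]
  exact LinearMap.ext_iff

omit [FiniteDimensional k X] in
theorem mod_inj (x : A) (f : X →ₗ[A] Y) (hf : Function.Injective f) :
    dm k x X = finrank k (jp k x (LinearMap.range f)) := by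
  have e : jp k x (LinearMap.range f) =
      (LinearMap.range (Algebra.lsmul k k X x : X →ₗ[k] X)).map (f.restrictScalars k) := by
    ext v
    constructor
    · rintro ⟨_, ⟨u, rfl⟩, rfl⟩
      exact ⟨_, ⟨u, rfl⟩, f.map_smul x u⟩
    · rintro ⟨_, ⟨u, rfl⟩, rfl⟩
      exact ⟨_, ⟨u, rfl⟩, (f.map_smul x u).symm⟩
  rw [e]
  exact (Submodule.equivMapOfInjective (f.restrictScalars k) hf _).finrank_eq

theorem mod_fin (k : Type) {A X : Type} [Field k] [Ring A] [Algebra k A] [AddCommGroup X]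
    [Module k X] [Module A X] [IsScalarTower k A X] [FiniteDimensional k X] (N : Submodule A X) :
    FiniteDimensional k N := .of_injective (N.subtype.restrictScalars k) N.injective_subtype

theorem dm_congr (x : A) (e : X ≃ₗ[A] Y) : dm k x X = dm k x Y := by
  rw [mod_inj x e.toLinearMap e.injective, e.range, jp, Submodule.restrictScalars_top,
    Submodule.map_top, dm]

theorem dm_sub_eq (x : A) (N : Submodule A X) : dm k x N = finrank k (jp k x N) := by
  rw [mod_inj x N.subtype N.injective_subtype, Submodule.range_subtype]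

theorem dm_mono (x : A) {N N' : Submodule A X} (h : N ≤ N') : dm k x N ≤ dm k x N' := by
  rw [dm_sub_eq, dm_sub_eq]
  exact Submodule.finrank_mono (Submodule.map_mono h)

theorem dm_sub_le (x : A) (N : Submodule A X) : dm k x N ≤ dm k x X := by
  rw [dm_sub_eq]
  exact Submodule.finrank_mono LinearMap.map_le_range

/- PLAN: the quotient map sends `x • X` onto `x • (X ⧸ N)` with kernel `x • X ⊓ N = x • N`
(idempotent); rank-nullity. -/
theorem dm_add {x : A} (hx : IsIdempotentElem x) (N : Submodule A X) :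
    dm k x X = dm k x N + dm k x (X ⧸ N) := by
  let R := LinearMap.range (Algebra.lsmul k k X x : X →ₗ[k] X)
  let g := (N.mkQ.restrictScalars k).domRestrict R
  have h1 : LinearMap.range g =
      LinearMap.range (Algebra.lsmul k k (X ⧸ N) x : (X ⧸ N) →ₗ[k] (X ⧸ N)) := by
    ext v
    constructor
    · rintro ⟨⟨_, u, rfl⟩, rfl⟩
      exact ⟨N.mkQ u, rfl⟩
    · rintro ⟨u, rfl⟩
      obtain ⟨u, rfl⟩ := N.mkQ_surjective u
      exact ⟨⟨_, u, rfl⟩, rfl⟩
  have h2 : LinearMap.ker g = (jp k x N).comap R.subtype := by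
    ext ⟨_, u, rfl⟩
    refine (Submodule.Quotient.mk_eq_zero N).trans ?_
    show x • u ∈ N ↔ x • u ∈ jp k x N
    refine ⟨fun h => mem_jp.2 ⟨x • u, h, ?_⟩, ?_⟩
    · rw [smul_smul, hx.eq]
    · rintro ⟨w, hw, e⟩
      exact (show x • w = x • u from e) ▸ N.smul_mem x hw
  have h3 := LinearMap.finrank_range_add_finrank_ker g
  rw [h1, h2, (Submodule.comapSubtypeEquivOfLe (show jp k x N ≤ R from
    LinearMap.map_le_range)).finrank_eq] at h3
  rw [dm_sub_eq, add_comm]
  exact h3.symm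

/-- The same for a pair of submodules. -/
theorem dm_add' {x : A} (hx : IsIdempotentElem x) {N N' : Submodule A X} (h : N ≤ N') :
    dm k x N' = dm k x N + dm k x (N' ⧸ N.submoduleOf N') := by
  have := mod_fin k N'
  have := mod_fin k (N.submoduleOf N')
  rw [dm_add hx (N.submoduleOf N'), dm_congr x (Submodule.submoduleOfEquivOfLe h)]

theorem dm_iSup_le {ι : Type} (x : A) (M : ι → Submodule A X) (O : Finset ι) :
    dm k x (⨆ κ ∈ O, M κ : Submodule A X) ≤ ∑ κ ∈ O, dm k x (M κ) := by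
  classical
  simp only [dm_sub_eq]
  induction O using Finset.induction_on with
  | empty =>
    rw [show (⨆ κ ∈ (∅ : Finset ι), M κ) = ⊥ by simp, jp, Submodule.restrictScalars_bot,
      Submodule.map_bot, finrank_bot]
    exact Nat.zero_le _
  | insert a s ha ih =>
    rw [Finset.iSup_insert, Finset.sum_insert ha, jp, Submodule.restrictScalars_sup,
      Submodule.map_sup]
    exact (Submodule.finrank_add_le_finrank_add_finrank _ _).trans (Nat.add_le_add_left ih _)

end

section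
variable {k A : Type} [Field k] [Ring A] [Algebra k A]

theorem mod_ind (P : ∀ (X : Type) [AddCommGroup X] [Module k X] [Module A X]
      [IsScalarTower k A X], Prop)
    (h0 : ∀ (X : Type) [AddCommGroup X] [Module k X] [Module A X] [IsScalarTower k A X]
      [FiniteDimensional k X] [Subsingleton X], P X)
    (h1 : ∀ (X : Type) [AddCommGroup X] [Module k X] [Module A X] [IsScalarTower k A X]
      [FiniteDimensional k X] [IsSimpleModule A X], P X)
    (h2 : ∀ (X : Type) [AddCommGroup X] [Module k X] [Module A X] [IsScalarTower k A X]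
      [FiniteDimensional k X] (N : Submodule A X), P N → P (X ⧸ N) → P X)
    (X : Type) [AddCommGroup X] [Module k X] [Module A X] [IsScalarTower k A X]
    [FiniteDimensional k X] : P X := by
  induction hn : finrank k X using Nat.strong_induction_on generalizing X with
  | _ n ih =>
    rcases subsingleton_or_nontrivial X with h | h
    · exact h0 X
    by_cases hs : ∀ N : Submodule A X, N = ⊥ ∨ N = ⊤
    · have : IsSimpleModule A X := (isSimpleModule_iff A X).2 ⟨hs⟩
      exact h1 X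
    push Not at hs
    obtain ⟨N, n1, n2⟩ := hs
    have := mod_fin k N
    have e := LinearMap.finrank_range_add_finrank_ker (N.mkQ.restrictScalars k)
    rw [LinearMap.range_eq_top (f := N.mkQ.restrictScalars k).2 N.mkQ_surjective, finrank_top,
      LinearMap.ker_restrictScalars,
      Submodule.ker_mkQ, hn] at e
    have e' : finrank k (X ⧸ N) + finrank k N = n := e
    have := Submodule.nontrivial_iff_ne_bot.2 n1
    have := Submodule.Quotient.nontrivial_iff.2 n2
    have p1 : 0 < finrank k N := finrank_pos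
    have p2 : 0 < finrank k (X ⧸ N) := finrank_pos
    exact h2 X N (ih _ (by omega) N rfl) (ih _ (by omega) (X ⧸ N) rfl)

theorem mod_quot {X : Type} [AddCommGroup X] [Module A X] (N : Submodule A X) {a : A}
    (h : ∀ v : X, a • v = 0) (y : X ⧸ N) : a • y = 0 := by
  obtain ⟨u, rfl⟩ := N.mkQ_surjective y
  rw [← map_smul, h, map_zero]

/- PLAN: strong induction on `finrank k X` (generalise `X`); if `X` is non-trivial take a simple
submodule or a maximal submodule (`X` is Artinian and Noetherian over `A`: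
`IsArtinian.of_finite`-type lemma `isArtinian_of_tower k`), use `dm_add`. -/
theorem dm_len {ι : Type} [Fintype ι] (I : Set A) {j : A} (hj : IsIdempotentElem j) {ε : ι → A}
    (hε : ∀ μ, IsIdempotentElem (ε μ)) (c : ℕ)
    (h : ∀ (Y : Type) [AddCommGroup Y] [Module k Y] [Module A Y] [IsScalarTower k A Y]
      [FiniteDimensional k Y] [IsSimpleModule A Y], (∀ a ∈ I, ∀ y : Y, a • y = 0) →
        dm k j Y ≤ c * ∑ μ, dm k (ε μ) Y)
    (X : Type) [AddCommGroup X] [Module k X] [Module A X] [IsScalarTower k A X]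
    [FiniteDimensional k X] (hX : ∀ a ∈ I, ∀ v : X, a • v = 0) :
    dm k j X ≤ c * ∑ μ, dm k (ε μ) X := by
  revert hX
  refine mod_ind (k := k) (A := A) (fun X _ _ _ _ => (∀ a ∈ I, ∀ v : X, a • v = 0) →
    dm k j X ≤ c * ∑ μ, dm k (ε μ) X) (fun X _ _ _ _ _ _ _ => ?_) h (fun X _ _ _ _ _ N h1 h2 hX => ?_) X
  · rw [dm_eq_zero.2 fun _ => Subsingleton.elim _ _]
    exact Nat.zero_le _
  · simp only [dm_add hj N, fun μ => dm_add (k := k) (hε μ) N, Finset.sum_add_distrib, mul_add]
    exact add_le_add (h1 fun a ha v => Subtype.ext (hX a ha v)) (h2 fun a ha => mod_quot N (hX a ha))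

/- PLAN: same induction; `isSimpleModule_iff_quot_maximal`, `dm_congr`. -/
theorem exists_simple {ε : A} (hε : IsIdempotentElem ε) (X : Type) [AddCommGroup X] [Module k X]
    [Module A X] [IsScalarTower k A X] [FiniteDimensional k X] (h : dm k ε X ≠ 0) :
    ∃ I : Ideal A, I.IsMaximal ∧ dm k ε (A ⧸ I) ≠ 0 ∧
      (∀ x : A, IsIdempotentElem x → dm k x (A ⧸ I) ≤ dm k x X) ∧
      ∀ a : A, (∀ v : X, a • v = 0) → ∀ y : A ⧸ I, a • y = 0 := by
  revert h
  refine mod_ind (k := k) (A := A) (fun X _ _ _ _ => dm k ε X ≠ 0 →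
    ∃ I : Ideal A, I.IsMaximal ∧ dm k ε (A ⧸ I) ≠ 0 ∧
      (∀ x : A, IsIdempotentElem x → dm k x (A ⧸ I) ≤ dm k x X) ∧
      ∀ a : A, (∀ v : X, a • v = 0) → ∀ y : A ⧸ I, a • y = 0)
    (fun X _ _ _ _ _ _ h => absurd (dm_eq_zero.2 fun _ => Subsingleton.elim _ _) h)
    (fun X _ _ _ _ _ hs h => ?_) (fun X _ _ _ _ _ N h1 h2 h => ?_) X
  · obtain ⟨I, hI, ⟨e⟩⟩ := isSimpleModule_iff_quot_maximal.1 hs
    refine ⟨I, hI, dm_congr (k := k) ε e ▸ h, fun x _ => (dm_congr x e).ge, fun a ha y => ?_⟩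
    obtain ⟨u, rfl⟩ := e.surjective y
    rw [← map_smul, ha, map_zero]
  · by_cases h0 : dm k ε N = 0
    · obtain ⟨I, a1, a2, a3, a4⟩ := h2 (by rwa [dm_add hε N, h0, zero_add] at h)
      exact ⟨I, a1, a2, fun x hx => (a3 x hx).trans (by rw [dm_add hx N]; omega),
        fun a ha => a4 a (mod_quot N ha)⟩
    · obtain ⟨I, a1, a2, a3, a4⟩ := h1 h0
      exact ⟨I, a1, a2, fun x hx => (a3 x hx).trans (dm_sub_le x N),
        fun a ha => a4 a fun v => Subtype.ext (ha v)⟩

end

/-- The module given by an algebra homomorphism to the endomorphisms. -/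
def Md {k A X : Type} [Field k] [Ring A] [Algebra k A] [AddCommGroup X] [Module k X]
    (_ρ : A →ₐ[k] Module.End k X) : Type := X

section
variable {k A X : Type} [Field k] [Ring A] [Algebra k A] [AddCommGroup X] [Module k X]
  (ρ : A →ₐ[k] Module.End k X)

instance : AddCommGroup (Md ρ) := inferInstanceAs (AddCommGroup X)
instance : Module k (Md ρ) := inferInstanceAs (Module k X)
instance [FiniteDimensional k X] : FiniteDimensional k (Md ρ) :=
  inferInstanceAs (FiniteDimensional k X)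
noncomputable instance : Module A (Md ρ) := Module.compHom X ρ.toRingHom

theorem md_smul (a : A) (v : Md ρ) : a • v = ρ a v := rfl

instance : IsScalarTower k A (Md ρ) :=
  ⟨fun c a v => by
    show ρ (c • a) v = c • ρ a v
    rw [map_smul]; rfl⟩

end

/-- The abstract form of the data used in the recursion. -/
structure Pk (k : Type) {A X ι : Type} [Field k] [Ring A] [Algebra k A] [AddCommGroup X]
    [Module k X] [Module A X] [IsScalarTower k A X] [Fintype ι] (X0 : Submodule A X) (eb : A)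
    (ε : ι → A) (M : ι → Submodule A X) (s : ι → ℕ) (w a : ℕ) : Prop where
  idem : ∀ μ, IsIdempotentElem (ε μ)
  sub : ∀ μ, M μ ≤ X0
  full : ∀ v ∈ X0, eb • v = v
  diag : ∀ μ, dm k (ε μ) (M μ) = 1
  tri : ∀ κ μ, dm k (ε κ) (M μ) ≠ 0 → κ = μ ∨ s μ < s κ
  tot : ∑ κ, dm k (ε κ) X0 ≤ w
  bd : ∀ μ, s μ ≤ a
  smp : ∀ (Y : Type) [AddCommGroup Y] [Module k Y] [Module A Y] [IsScalarTower k A Y]
    [FiniteDimensional k Y] [IsSimpleModule A Y], (∀ y : Y, eb • y = y) →
      ∃ μ, dm k (ε μ) Y ≠ 0 ∧ ∀ x : A, IsIdempotentElem x → dm k x Y ≤ dm k x (M μ)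

end Pool.Agent.Puig
end

-- merged part: Pool.Agent.Work.MP_cea1f0_al.Perm
section
/-! Permutation modules. -/

namespace Pool.Agent.Puig

open Module

section
variable (k : Type) {C Ω : Type} [Field k] [Group C]

/-- The permutation representation on functions. -/
def pr (θ : C →* Equiv.Perm Ω) : Representation k C (Ω → k) where
  toFun g := LinearMap.funLeft k k (θ g⁻¹)
  map_one' := by ext v ω; simp
  map_mul' g h := by ext v ω; simp

theorem pr_apply (θ : C →* Equiv.Perm Ω) (g : C) (v : Ω → k) (ω : Ω) :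
    pr k θ g v ω = v (θ g⁻¹ ω) := rfl

/-- The action of the group algebra. -/
noncomputable def act (θ : C →* Equiv.Perm Ω) : MonoidAlgebra k C →ₐ[k] Module.End k (Ω → k) :=
  MonoidAlgebra.lift k (Module.End k (Ω → k)) C (pr k θ)

/-- The permutation module. -/
abbrev PM (θ : C →* Equiv.Perm Ω) : Type := Md (act k θ)

/-- Functions supported in `S`. -/
def spt (S : Set Ω) : Submodule k (Ω → k) where
  carrier := {v | ∀ ω, ω ∉ S → v ω = 0}
  add_mem' := fun {u v} hu hv ω h => by simp [hu ω h, hv ω h]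
  zero_mem' := fun _ _ => rfl
  smul_mem' := fun c v hv ω h => by simp [hv ω h]

theorem act_of (θ : C →* Equiv.Perm Ω) (g : C) :
    act k θ (MonoidAlgebra.of k C g) = pr k θ g := by
  simp [act]

theorem act_apply [Fintype C] (θ : C →* Equiv.Perm Ω) (x : MonoidAlgebra k C) (v : Ω → k) (ω : Ω) :
    act k θ x v ω = ∑ g, x.coeff g * v (θ g⁻¹ ω) := by
  rw [act, MonoidAlgebra.lift_apply,
    Finsupp.sum_fintype _ (fun a (b : k) => b • pr k θ a) fun _ => zero_smul _ _,
    LinearMap.sum_apply, Finset.sum_apply]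
  rfl

/-- The submodule of the functions supported in (the largest invariant subset of) `S`. -/
def sm [Fintype C] (θ : C →* Equiv.Perm Ω) (S : Set Ω) : Submodule (MonoidAlgebra k C) (PM k θ) where
  carrier := {v : Ω → k | ∀ ω, (∃ g, θ g ω ∉ S) → v ω = 0}
  add_mem' := fun {u v} hu hv ω h => by
    show (u : Ω → k) ω + (v : Ω → k) ω = 0
    rw [hu ω h, hv ω h, add_zero]
  zero_mem' := fun _ _ => rfl
  smul_mem' := fun x v hv ω h => by
    obtain ⟨g, hg⟩ := h
    show act k θ x v ω = 0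
    rw [act_apply]
    refine Finset.sum_eq_zero fun c _ => ?_
    rw [hv _ ⟨g * c, by simpa using hg⟩, mul_zero]

variable {k}

/- PLAN (mem_sm etc.): `θ g` is a permutation and `g⁻¹` also preserves `S`, so `θ g ω ∉ S → ω ∉ S`
and `ω ∉ S → θ 1 ω ∉ S`. -/
theorem mem_sm [Fintype C] {θ : C →* Equiv.Perm Ω} {S : Set Ω} (hS : ∀ g, ∀ ω ∈ S, θ g ω ∈ S)
    {v : PM k θ} : v ∈ sm k θ S ↔ (v : Ω → k) ∈ spt k S := by
  refine forall_congr' fun ω => imp_congr_left ⟨fun ⟨g, hg⟩ h => hg (hS g ω h), fun h => ⟨1, ?_⟩⟩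
  rwa [map_one]

theorem mem_jp_sm [Fintype C] {θ : C →* Equiv.Perm Ω} {S : Set Ω}
    (hS : ∀ g, ∀ ω ∈ S, θ g ω ∈ S) (x : MonoidAlgebra k C) {v : PM k θ} :
    v ∈ jp k x (sm k θ S) ↔ (v : Ω → k) ∈ (spt k S).map (act k θ x) := by
  exact exists_congr fun u => and_congr_left' (mem_sm hS)

theorem dm_sm [Fintype C] [Finite Ω] {θ : C →* Equiv.Perm Ω} {S : Set Ω}
    (hS : ∀ g, ∀ ω ∈ S, θ g ω ∈ S) (x : MonoidAlgebra k C) :
    dm k x (sm k θ S) = finrank k ((spt k S).map (act k θ x)) := by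
  rw [dm_sub_eq]
  exact congrArg (fun N : Submodule k (Ω → k) => finrank k N)
    (Submodule.ext fun v => mem_jp_sm hS x)

theorem finrank_spt [Finite Ω] (S : Set Ω) : finrank k (spt k S) = Nat.card S := by
  classical
  have := Fintype.ofFinite S
  rw [Nat.card_eq_fintype_card, ← Module.finrank_fintype_fun_eq_card k]
  refine (LinearEquiv.ofBijective (LinearMap.funLeft k k Subtype.val ∘ₗ (spt k S).subtype)
    ⟨fun u v h => Subtype.ext (funext fun ω => ?_), fun u => ?_⟩).finrank_eq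
  · by_cases hω : ω ∈ S
    · exact congrFun h ⟨ω, hω⟩
    · rw [u.2 ω hω, v.2 ω hω]
  · exact ⟨⟨fun ω => if h : ω ∈ S then u ⟨ω, h⟩ else 0, fun ω h => dif_neg h⟩,
      funext fun ω => dif_pos ω.2⟩

theorem sm_iSup [Fintype C] [Finite Ω] {ι : Type} {θ : C →* Equiv.Perm Ω} {S : ι → Set Ω}
    (hS : ∀ μ g, ∀ ω ∈ S μ, θ g ω ∈ S μ) (O : Finset ι) :
    (⨆ κ ∈ O, sm k θ (S κ)) = sm k θ (⋃ κ ∈ O, S κ) := by
  classical
  have := Fintype.ofFinite Ω
  have hU : ∀ g, ∀ ω ∈ ⋃ κ ∈ O, S κ, θ g ω ∈ ⋃ κ ∈ O, S κ := fun g ω h => by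
    obtain ⟨κ, h1, h2⟩ := Set.mem_iUnion₂.1 h
    exact Set.mem_iUnion₂.2 ⟨κ, h1, hS κ g ω h2⟩
  refine le_antisymm (iSup₂_le fun κ hκ v hv => (mem_sm hU).2 fun ω h =>
    (mem_sm (hS κ)).1 hv ω fun h' => h (Set.mem_iUnion₂.2 ⟨κ, hκ, h'⟩)) fun v hv => ?_
  have e : v = ∑ ω, (show PM k θ from Pi.single ω ((v : Ω → k) ω)) :=
    (Finset.univ_sum_single (v : Ω → k)).symm
  rw [e]
  refine Submodule.sum_mem _ fun ω _ => ?_
  by_cases h : ω ∈ ⋃ κ ∈ O, S κ
  · obtain ⟨κ, h1, h2⟩ := Set.mem_iUnion₂.1 h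
    refine le_iSup₂ (f := fun κ (_ : κ ∈ O) => sm k θ (S κ)) κ h1 ((mem_sm (hS κ)).2 fun z hz => ?_)
    exact Pi.single_eq_of_ne (fun e => hz (by rwa [e])) _
  · rw [(mem_sm hU).1 hv ω h, Pi.single_zero]
    exact Submodule.zero_mem _

theorem act_mapDomain {G : Type} [Group G] (θ : G →* Equiv.Perm Ω) (φ : C →* G)
    (x : MonoidAlgebra k C) :
    act k θ (MonoidAlgebra.mapDomainAlgHom k k φ x) = act k (θ.comp φ) x := by
  refine DFunLike.congr_fun (show (act k θ).comp (MonoidAlgebra.mapDomainAlgHom k k φ) =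
    act k (θ.comp φ) from MonoidAlgebra.algHom_ext (fun g => ?_) (Subsingleton.elim _ _)) x
  ext v ω
  simp [act, pr]

end

theorem perm_fix (p : ℕ) [Fact p.Prime] {k Γ V : Type} [Field k] [CharP k p] [Group Γ] [Finite Γ]
    (hΓ : IsPGroup p Γ) [AddCommGroup V] [Module k V] (g : Representation k Γ V)
    (N : Submodule k V) (hN : ∀ γ, ∀ v ∈ N, g γ v ∈ N) {v : V} (hv : v ∈ N) (h0 : v ≠ 0) :
    ∃ w ∈ N, w ≠ 0 ∧ ∀ γ, g γ w = w := by
  let H := AddSubgroup.closure (Set.range fun γ => g γ v)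
  have hp : ∀ x : H, p • x = 0 := fun x => Subtype.ext (show p • (x : V) = 0 by
    rw [← Nat.cast_smul_eq_nsmul k, CharP.cast_eq_zero, zero_smul])
  have hH : ∀ γ, H ≤ H.comap (g γ).toAddMonoidHom := fun γ => (AddSubgroup.closure_le _).2 (by
    rintro _ ⟨δ, rfl⟩
    exact AddSubgroup.subset_closure ⟨γ * δ, by simp⟩)
  have hN' : H ≤ N.toAddSubgroup := (AddSubgroup.closure_le _).2 (by
    rintro _ ⟨δ, rfl⟩
    exact hN δ v hv)
  let _ : MulAction Γ H :=
    { smul := fun γ x => ⟨g γ x, hH γ x.2⟩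
      one_smul := fun x => Subtype.ext (LinearMap.congr_fun (map_one g) x.1)
      mul_smul := fun γ δ x => Subtype.ext (LinearMap.congr_fun (map_mul g γ δ) x.1) }
  have : Finite H := AddCommGroup.finite_of_fg_isAddTorsion H fun x =>
    isOfFinAddOrder_iff_nsmul_eq_zero.2 ⟨p, (Fact.out : p.Prime).pos, hp x⟩
  have h1 : v ∈ H := AddSubgroup.subset_closure ⟨1, by simp⟩
  have h2 := addOrderOf_dvd_natCard (⟨v, h1⟩ : H)
  rw [addOrderOf_eq_prime (hp _) fun h => h0 (congrArg Subtype.val h)] at h2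
  obtain ⟨w, w1, w2⟩ := hΓ.exists_fixed_point_of_prime_dvd_card_of_fixed_point H h2 (a := 0)
    fun γ => Subtype.ext (map_zero (g γ))
  exact ⟨w, hN' w.2, fun h => w2 (Subtype.ext h.symm), fun γ => congrArg Subtype.val (w1 γ)⟩

/- PLAN: induction-free.  `W = U ⊓ invariants`, choose a linear retraction `f : V → W`
(`LinearMap.exists_leftInverse_of_injective` / `Submodule.exists_isCompl`), map `U → (Γ → W)`,
`v ↦ (γ ↦ f (g γ v))`; its kernel is invariant and meets the invariants trivially.  A non-zero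
invariant subspace has a non-zero fixed vector: take `v ≠ 0`, the additive subgroup generated by
its orbit is a finite `p`-group (span over `ZMod p`), `IsPGroup.exists_fixed_point_of_prime_dvd_card_of_fixed_point`;
or induct on the order of a subgroup; or use that `g γ - 1` are nilpotent. -/
theorem fix_bound (p : ℕ) [Fact p.Prime] {k Γ V : Type} [Field k] [CharP k p] [Group Γ] [Finite Γ]
    (hΓ : IsPGroup p Γ) [AddCommGroup V] [Module k V] [FiniteDimensional k V]
    (g : Representation k Γ V) (U : Submodule k V) (hU : ∀ γ, ∀ v ∈ U, g γ v ∈ U) :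
    finrank k U ≤ Nat.card Γ * finrank k (U ⊓ g.invariants : Submodule k V) := by
  have := Fintype.ofFinite Γ
  obtain ⟨f, hf⟩ := (U ⊓ g.invariants).subtype.exists_leftInverse_of_injective
    (Submodule.ker_subtype _)
  have h := LinearMap.finrank_le_finrank_of_injective
    (f := LinearMap.pi fun γ => f ∘ₗ g γ ∘ₗ U.subtype) ((injective_iff_map_eq_zero _).2 fun v hv =>
      Subtype.ext (not_not.1 fun h0 => ?_))
  · rwa [Module.finrank_pi_fintype, Finset.sum_const, Finset.card_univ, smul_eq_mul,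
      ← Nat.card_eq_fintype_card] at h
  obtain ⟨w, w1, w2, w3⟩ := perm_fix p hΓ g (U ⊓ ⨅ γ, LinearMap.ker (f ∘ₗ g γ))
    (fun γ u hu => ⟨hU γ u hu.1, (Submodule.mem_iInf _).2 fun δ => by
      simpa using (Submodule.mem_iInf _).1 hu.2 (δ * γ)⟩)
    ⟨v.2, (Submodule.mem_iInf _).2 (congrFun hv)⟩ h0
  have h1 : f (g 1 w) = 0 := (Submodule.mem_iInf _).1 w1.2 1
  rw [w3] at h1
  exact w2 (congrArg Subtype.val ((LinearMap.congr_fun hf ⟨w, w1.1, w3⟩).symm.trans h1))

/- PLAN: for every value `c` of `f` apply `IsPGroup.card_modEq_card_fixedPoints` to the fibre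
(`MulAction` on the subtype), or sum over orbits (`MulAction.compHom`, `IsPGroup.card_orbit`). -/
theorem orb_sum (p : ℕ) [Fact p.Prime] {k R Z : Type} [Field k] [CharP k p] [Group R] [Finite R]
    (hR : IsPGroup p R) [Fintype Z] (θ : R →* Equiv.Perm Z) (f : Z → k)
    (hf : ∀ r z, f (θ r z) = f z) (P : Z → Prop) [DecidablePred P] (hP : ∀ z, P z ↔ ∀ r, θ r z = z) :
    ∑ z, f z = ∑ z with P z, f z := by
  classical
  rw [← Finset.sum_fiberwise_of_maps_to (t := Finset.univ.image f) (g := f)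
      fun z _ => Finset.mem_image_of_mem f (Finset.mem_univ z),
    ← Finset.sum_fiberwise_of_maps_to (s := Finset.univ.filter P) (t := Finset.univ.image f) (g := f)
      fun z _ => Finset.mem_image_of_mem f (Finset.mem_univ z)]
  refine Finset.sum_congr rfl fun c _ => ?_
  let _ : MulAction R {z // f z = c} :=
    { smul := fun r z => ⟨θ r z, (hf r z).trans z.2⟩
      one_smul := fun z => Subtype.ext (congrArg (· z.1) (map_one θ))
      mul_smul := fun r s z => Subtype.ext (congrArg (· z.1) (map_mul θ r s)) }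
  have h := hR.card_modEq_card_fixedPoints {z // f z = c}
  rw [Nat.card_congr (α := MulAction.fixedPoints R {z // f z = c})
      ((Equiv.subtypeEquivRight (q := fun z : {z // f z = c} => P z) fun z =>
      ((hP z).trans (forall_congr' fun r => (Subtype.ext_iff (a1 := r • z)).symm)).symm).trans
      (Equiv.subtypeSubtypeEquivSubtypeInter _ P)),
    Nat.subtype_card (Finset.univ.filter fun z => f z = c) (by simp),
    Nat.subtype_card ((Finset.univ.filter P).filter fun z => f z = c) (by simp [and_comm])] at h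
  rw [Finset.sum_congr rfl fun z hz => (Finset.mem_filter.1 hz).2,
    Finset.sum_congr rfl fun z hz => (Finset.mem_filter.1 hz).2, Finset.sum_const, Finset.sum_const,
    nsmul_eq_mul, nsmul_eq_mul, (CharP.natCast_eq_natCast k p).2 h]

end Pool.Agent.Puig
end

-- merged part: Pool.Agent.Work.MP_cea1f0_al.B1a
section
/-! Augmentation, fixed elements, Brauer map, Fitting lemma. -/

namespace Pool.Agent.Puig

open MonoidAlgebra

variable {F G : Type} [Field F] [Group G]

/-- The augmentation as an algebra homomorphism. -/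
noncomputable def augH (F G : Type) [Field F] [Group G] : MonoidAlgebra F G →ₐ[F] F :=
  MonoidAlgebra.lift F F G 1

theorem aug_eq (x : MonoidAlgebra F G) : aug x = augH F G x := by
  simp [aug, augH, MonoidAlgebra.lift_apply]

theorem aug_eq_sum [Fintype G] (x : MonoidAlgebra F G) : aug x = ∑ g, x.coeff g := by
  unfold aug
  exact Finsupp.sum_fintype _ _ fun _ => rfl

theorem aug_mul (x y : MonoidAlgebra F G) : aug (x * y) = aug x * aug y := by
  simp [aug_eq]

theorem aug_one : aug (1 : MonoidAlgebra F G) = 1 := by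
  simp [aug_eq]

theorem aug_of (g : G) : aug (of F G g) = 1 := by
  simp [aug_eq, augH]

theorem fix_iff {D : Subgroup G} {x : MonoidAlgebra F G} :
    Fix D x ↔ ∀ u ∈ D, ∀ g, x.coeff (u * g * u⁻¹) = x.coeff g := by
  constructor
  · intro h u hu g
    have h1 := congrArg (fun z : MonoidAlgebra F G => z.coeff (u * g)) (h u hu)
    simpa using h1.symm
  · intro h u hu
    ext g
    have h1 := h u hu (u⁻¹ * g)
    simpa using h1.symm

theorem Fix.mono {R D : Subgroup G} {x : MonoidAlgebra F G} (h : Fix D x) (hR : R ≤ D) : Fix R x :=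
  fun u hu => h u (hR hu)

/-- The subalgebra of the fixed elements. -/
def fixAlg (F : Type) [Field F] (D : Subgroup G) : Subalgebra F (MonoidAlgebra F G) where
  carrier := {x | Fix D x}
  mul_mem' := fun {x y} hx hy u hu => by
    rw [← mul_assoc, hx u hu, mul_assoc, hy u hu, mul_assoc]
  add_mem' := fun {x y} hx hy u hu => by rw [mul_add, add_mul, hx u hu, hy u hu]
  algebraMap_mem' := fun c u _ => (Algebra.commutes c _).symm

theorem mem_fixAlg {D : Subgroup G} {x : MonoidAlgebra F G} : x ∈ fixAlg F D ↔ Fix D x := Iff.rfl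

theorem fix_top_iff {x : MonoidAlgebra F G} : Fix ⊤ x ↔ ∀ y, y * x = x * y := by
  constructor
  · intro h y
    induction y using MonoidAlgebra.induction_on with
    | of m => exact h m trivial
    | add a b ha hb => rw [add_mul, mul_add, ha, hb]
    | smul r a ha => rw [smul_mul_assoc, mul_smul_comm, ha]
  · intro h u _
    exact h _

theorem IsBlock.prim {b : MonoidAlgebra F G} (hb : IsBlock b) : Prim ⊤ b := by
  obtain ⟨h1, h2, h3, h4⟩ := hb
  refine ⟨h1, h2, fix_top_iff.2 h3, fun e he hf _ h6 => ?_⟩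
  rcases h4 e he (fix_top_iff.1 hf) with h | h
  · exact Or.inl (h6.symm.trans h)
  · exact Or.inr (h6.symm.trans h)

open Classical in
theorem coeff_Br (D : Subgroup G) (x : MonoidAlgebra F G) (g : G) :
    (Br D x).coeff g = if g ∈ Subgroup.centralizer (D : Set G) then x.coeff g else 0 := by
  simp only [Br, Finsupp.filter_apply]

/-- The Brauer map as a linear map. -/
noncomputable def BrL (F : Type) [Field F] (D : Subgroup G) :
    MonoidAlgebra F G →ₗ[F] MonoidAlgebra F G where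
  toFun := Br D
  map_add' := by
    intro x y
    ext g
    simp only [coeff_Br, coeff_add, Finsupp.add_apply]
    split_ifs <;> simp
  map_smul' := by
    intro c x
    ext g
    simp only [coeff_Br, coeff_smul_apply, RingHom.id_apply]
    split_ifs <;> simp

theorem BrL_apply (D : Subgroup G) (x : MonoidAlgebra F G) : BrL F D x = Br D x := rfl

theorem Br_bot (x : MonoidAlgebra F G) : Br ⊥ x = x := by
  ext g
  rw [coeff_Br, if_pos]
  rw [Subgroup.mem_centralizer_iff]
  intro h hh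
  have h1 : h = 1 := by simpa using hh
  simp [h1]

theorem Br_Br {R D : Subgroup G} (h : R ≤ D) (x : MonoidAlgebra F G) :
    Br D (Br R x) = Br D x := by
  ext g
  rw [coeff_Br, coeff_Br, coeff_Br]
  by_cases hg : g ∈ Subgroup.centralizer (D : Set G)
  · rw [if_pos hg, if_pos hg, if_pos (Subgroup.centralizer_le h hg)]
  · rw [if_neg hg, if_neg hg]

theorem b1a_cent1 {R : Subgroup G} {u : G} (hu : u ∈ Subgroup.normalizer (R : Set G)) {g : G}
    (hg : g ∈ Subgroup.centralizer (R : Set G)) :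
    u * g * u⁻¹ ∈ Subgroup.centralizer (R : Set G) := by
  rw [Subgroup.mem_centralizer_iff] at hg ⊢
  intro h hh
  have h1 : u⁻¹ * h * u ∈ R := by
    have h2 := (Subgroup.mem_normalizer_iff.1 hu (u⁻¹ * h * u)).2 (by simpa [mul_assoc] using hh)
    exact h2
  have h3 := hg _ h1
  calc h * (u * g * u⁻¹) = u * (u⁻¹ * h * u * g) * u⁻¹ := by group
    _ = u * (g * (u⁻¹ * h * u)) * u⁻¹ := by rw [h3]
    _ = u * g * u⁻¹ * h := by group

theorem b1a_cent {R : Subgroup G} {u : G} (hu : u ∈ Subgroup.normalizer (R : Set G)) (g : G) :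
    u * g * u⁻¹ ∈ Subgroup.centralizer (R : Set G) ↔ g ∈ Subgroup.centralizer (R : Set G) := by
  refine ⟨fun h => ?_, b1a_cent1 hu⟩
  have h1 := b1a_cent1 (inv_mem hu) h
  simpa [mul_assoc] using h1

theorem fix_Br (D : Subgroup G) (x : MonoidAlgebra F G) : Fix D (Br D x) := by
  rw [fix_iff]
  intro u hu g
  rw [coeff_Br, coeff_Br]
  have hn : u ∈ Subgroup.normalizer (D : Set G) := Subgroup.le_normalizer hu
  by_cases hg : g ∈ Subgroup.centralizer (D : Set G)
  · have h1 : u * g * u⁻¹ = g := by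
      rw [Subgroup.mem_centralizer_iff.1 hg u hu]
      simp
    rw [h1]
  · rw [if_neg hg, if_neg fun h => hg ((b1a_cent hn g).1 h)]

theorem fix_Br_norm {R D : Subgroup G} {x : MonoidAlgebra F G} (hx : Fix D x) :
    Fix (D ⊓ Subgroup.normalizer (R : Set G)) (Br R x) := by
  rw [fix_iff]
  intro u hu g
  rw [coeff_Br, coeff_Br, fix_iff.1 hx u hu.1 g]
  by_cases hg : g ∈ Subgroup.centralizer (R : Set G)
  · rw [if_pos hg, if_pos ((b1a_cent hu.2 g).2 hg)]
  · rw [if_neg hg, if_neg fun h => hg ((b1a_cent hu.2 g).1 h)]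

theorem b1a_coeff_mul [Fintype G] (x y : MonoidAlgebra F G) (c : G) :
    (x * y).coeff c = ∑ h, x.coeff h * y.coeff (h⁻¹ * c) := by
  rw [coeff_mul_apply_left]
  exact Finsupp.sum_fintype _ _ fun _ => zero_mul _

open Classical in
theorem b1a_orb (p : ℕ) [Fact p.Prime] [CharP F p] [Fintype G] {D : Subgroup G}
    (hD : IsPGroup p D) (f : G → F) (hf : ∀ u ∈ D, ∀ g, f (u * g * u⁻¹) = f g) :
    ∑ g, f g = ∑ g, if g ∈ Subgroup.centralizer (D : Set G) then f g else 0 := by
  rw [← Finset.sum_filter]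
  refine orb_sum p hD ((MulAut.toPerm G).comp (MulAut.conj.comp D.subtype)) f
    (fun r z => hf r r.2 z) _ fun z => ?_
  rw [Subgroup.mem_centralizer_iff]
  constructor
  · intro h r
    show (r : G) * z * (r : G)⁻¹ = z
    rw [h r r.2]
    simp
  · intro h r hr
    have h1 : r * z * r⁻¹ = z := h ⟨r, hr⟩
    exact mul_inv_eq_iff_eq_mul.1 h1

/- PLAN: the coefficient at `c` in the centraliser is `∑ h, x h * y (h⁻¹ * c)`
(`coeff_mul_apply_left`); apply `orb_sum` to the conjugation action of `D` on `G`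
(`MulAut.toPerm`, `MulAut.conj`); for `c` outside the centraliser the right side vanishes since
the centraliser is a subgroup. -/
theorem Br_mul (p : ℕ) [Fact p.Prime] [CharP F p] [Finite G] {D : Subgroup G} (hD : IsPGroup p D)
    {x y : MonoidAlgebra F G} (hx : Fix D x) (hy : Fix D y) : Br D (x * y) = Br D x * Br D y := by
  classical
  have := Fintype.ofFinite G
  ext c
  rw [coeff_Br, b1a_coeff_mul (Br D x)]
  by_cases hc : c ∈ Subgroup.centralizer (D : Set G)
  · rw [if_pos hc, b1a_coeff_mul, b1a_orb p hD (fun h => x.coeff h * y.coeff (h⁻¹ * c))]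
    · refine Finset.sum_congr rfl fun h _ => ?_
      rw [coeff_Br, coeff_Br]
      by_cases hh : h ∈ Subgroup.centralizer (D : Set G)
      · rw [if_pos hh, if_pos hh, if_pos (mul_mem (inv_mem hh) hc)]
      · rw [if_neg hh, if_neg hh, zero_mul]
    · intro u hu h
      have h1 : (u * h * u⁻¹)⁻¹ * c = u * (h⁻¹ * c) * u⁻¹ := by
        have h2 := Subgroup.mem_centralizer_iff.1 hc u hu
        calc (u * h * u⁻¹)⁻¹ * c = u * h⁻¹ * u⁻¹ * (c * u) * u⁻¹ := by group
          _ = u * h⁻¹ * u⁻¹ * (u * c) * u⁻¹ := by rw [h2]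
          _ = u * (h⁻¹ * c) * u⁻¹ := by group
      simp only [h1, fix_iff.1 hx u hu, fix_iff.1 hy u hu]
  · rw [if_neg hc]
    symm
    refine Finset.sum_eq_zero fun h _ => ?_
    rw [coeff_Br, coeff_Br]
    by_cases hh : h ∈ Subgroup.centralizer (D : Set G)
    · rw [if_neg (c := h⁻¹ * c ∈ Subgroup.centralizer (D : Set G)), mul_zero]
      intro h2
      exact hc (by simpa using mul_mem hh h2)
    · rw [if_neg hh, zero_mul]

theorem aug_Br (p : ℕ) [Fact p.Prime] [CharP F p] [Finite G] {D : Subgroup G} (hD : IsPGroup p D)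
    {x : MonoidAlgebra F G} (hx : Fix D x) : aug (Br D x) = aug x := by
  classical
  have := Fintype.ofFinite G
  rw [aug_eq_sum, aug_eq_sum, b1a_orb p hD (fun g => x.coeff g) (fix_iff.1 hx)]
  exact Finset.sum_congr rfl fun g _ => by rw [coeff_Br]

/-- The Brauer map with values in the group algebra of a model `C` of the centraliser. -/
noncomputable def brq {C : Type} [Finite C] (φ : C → G) (x : MonoidAlgebra F G) :
    MonoidAlgebra F C :=
  .ofCoeff (Finsupp.equivFunOnFinite.symm fun c => x.coeff (φ c))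

omit [Group G] in
theorem coeff_brq {C : Type} [Finite C] (φ : C → G) (x : MonoidAlgebra F G) (c : C) :
    (brq φ x).coeff c = x.coeff (φ c) := rfl

theorem map_brq {C : Type} [Group C] [Finite C] {φ : C →* G} (hφ : Function.Injective φ)
    {R : Subgroup G} (hr : φ.range = Subgroup.centralizer (R : Set G)) (x : MonoidAlgebra F G) :
    mapDomainAlgHom F F φ (brq φ x) = Br R x := by
  ext g
  show Finsupp.mapDomain φ (brq φ x).coeff g = _
  rw [coeff_Br]
  by_cases hg : g ∈ Subgroup.centralizer (R : Set G)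
  · rw [if_pos hg]
    rw [← hr] at hg
    obtain ⟨c, rfl⟩ := hg
    rw [Finsupp.mapDomain_apply hφ, coeff_brq]
  · rw [if_neg hg]
    rw [← hr] at hg
    exact Finsupp.mapDomain_of_notMem_range _ _ hg

theorem brq_map {C : Type} [Group C] [Finite C] {φ : C →* G} (hφ : Function.Injective φ)
    (y : MonoidAlgebra F C) : brq φ (mapDomainAlgHom F F φ y) = y := by
  ext c
  rw [coeff_brq]
  exact Finsupp.mapDomain_apply hφ _ _

theorem brq_id [Finite G] (x : MonoidAlgebra F G) : brq (MonoidHom.id G) x = x := by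
  ext c
  rfl

theorem b1a_comm {A : Type} [Ring A] [Algebra F A] {a x : A} (h : Commute a x)
    (r : Polynomial F) : Commute a (Polynomial.aeval x r) := by
  induction r using Polynomial.induction_on' with
  | add p q hp hq => rw [map_add]; exact hp.add_right hq
  | monomial k c =>
    rw [Polynomial.aeval_monomial]
    exact (Algebra.commute_algebraMap_right c a).mul_right (h.pow_right k)

theorem b1a_fit {A : Type} [Ring A] [Algebra F A] [Module.Finite F A] (x : A) :
    ∃ (n : ℕ) (r : Polynomial F), x ^ (n + 1) * Polynomial.aeval x r = x ^ n := by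
  obtain ⟨p, hp, hpx⟩ := Algebra.IsIntegral.isIntegral (R := F) x
  obtain ⟨q, hq, hnd⟩ := Polynomial.exists_eq_pow_rootMultiplicity_mul_and_not_dvd p hp.ne_zero 0
  simp only [map_zero, sub_zero] at hq hnd
  have hc : q.coeff 0 ≠ 0 := fun h => hnd (Polynomial.X_dvd_iff.2 h)
  set n := Polynomial.rootMultiplicity 0 p
  have h0 : Polynomial.aeval x p = 0 := hpx
  rw [hq, ← Polynomial.X_mul_divX_add q] at h0
  simp only [map_mul, map_pow, map_add, Polynomial.aeval_X, Polynomial.aeval_C] at h0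
  refine ⟨n, (-(q.coeff 0)⁻¹) • q.divX, ?_⟩
  rw [map_smul, mul_smul_comm]
  rw [mul_add, ← mul_assoc, ← pow_succ, ← Algebra.commutes, ← Algebra.smul_def] at h0
  rw [eq_neg_of_add_eq_zero_left h0, smul_neg, neg_smul, neg_neg, smul_smul, inv_mul_cancel₀ hc,
    one_smul]

theorem b1a_pow {A : Type} [Ring A] {x y : A} {n : ℕ} (h : x ^ (n + 1) * y = x ^ n) (k : ℕ) :
    x ^ (n + k) * y ^ k = x ^ n := by
  induction k with
  | zero => simp
  | succ k ih =>
    calc x ^ (n + (k + 1)) * y ^ (k + 1) = x ^ k * (x ^ (n + 1) * y) * y ^ k := by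
          rw [show n + (k + 1) = k + (n + 1) by ring, pow_add x k (n + 1), pow_succ' y k]
          simp only [mul_assoc]
      _ = x ^ n := by rw [h, ← pow_add, add_comm k n, ih]

/- PLAN (Fitting): in the commutative Artinian ring `Algebra.adjoin F {x}` there are `n`, `y` with
`x ^ (n + 1) * y = x ^ n` (`IsArtinian.exists_pow_succ_smul_dvd`, or the minimal polynomial); then
also for `n + 1`; `e = (x * y) ^ (n + 1)` is idempotent, lies in `fixAlg F D`, `i * e = e = e * i`
since `i * x = x = x * i`.  If `e = 0` then `x ^ (n + 1) = x ^ (n + 1) * e = 0`.  If `e = i` take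
`i * x ^ n * y ^ (n + 1) * i` (`i` commutes with the polynomials in `x`). -/
theorem Prim.fit [Finite G] {D : Subgroup G} {i x : MonoidAlgebra F G} (hi : Prim D i)
    (hx : Fix D x) (hxi : i * x * i = x) :
    IsNilpotent x ∨ ∃ y, Fix D y ∧ i * y * i = y ∧ x * y = i ∧ y * x = i := by
  obtain ⟨n, r, hr⟩ := b1a_fit (F := F) x
  set y := Polynomial.aeval x r with hy
  obtain ⟨h1, -, h3, h4⟩ := hi
  have hix : i * x = x := by rw [← hxi, ← mul_assoc, ← mul_assoc, h1.eq]
  have hxi' : x * i = x := by rw [← hxi, mul_assoc, h1.eq]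
  have cxy : Commute x y := b1a_comm (Commute.refl x) r
  have ciy : Commute i y := b1a_comm (hix.trans hxi'.symm) r
  have cix : Commute i x := hix.trans hxi'.symm
  have hyD : y ∈ fixAlg F D :=
    Algebra.adjoin_le (S := fixAlg F D) (Set.singleton_subset_iff.2 hx)
      (Polynomial.aeval_mem_adjoin_singleton F x)
  have hxD : x ∈ fixAlg F D := hx
  have hiD : i ∈ fixAlg F D := h3
  have key : x ^ (n + 1) * (x ^ (n + 1) * y ^ (n + 1)) = x ^ (n + 1) := by
    have h5 := b1a_pow hr (n + 1)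
    calc x ^ (n + 1) * (x ^ (n + 1) * y ^ (n + 1)) = x * (x ^ (n + (n + 1)) * y ^ (n + 1)) := by
          rw [pow_add x n (n + 1), pow_succ' x n]
          simp only [mul_assoc]
      _ = x ^ (n + 1) := by rw [h5, pow_succ']
  have cpw : x ^ (n + 1) * y ^ (n + 1) = y ^ (n + 1) * x ^ (n + 1) := (cxy.pow_pow _ _).eq
  have he : IsIdempotentElem (x ^ (n + 1) * y ^ (n + 1)) := by
    show _ * _ = _
    calc x ^ (n + 1) * y ^ (n + 1) * (x ^ (n + 1) * y ^ (n + 1))
        = y ^ (n + 1) * (x ^ (n + 1) * (x ^ (n + 1) * y ^ (n + 1))) := by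
          rw [← mul_assoc (y ^ (n + 1)), ← cpw]
      _ = x ^ (n + 1) * y ^ (n + 1) := by rw [key, cpw]
  have hixn : i * x ^ (n + 1) = x ^ (n + 1) := by rw [pow_succ', ← mul_assoc, hix]
  have hie : i * (x ^ (n + 1) * y ^ (n + 1)) = x ^ (n + 1) * y ^ (n + 1) := by
    rw [← mul_assoc, hixn]
  have cie : Commute i (x ^ (n + 1) * y ^ (n + 1)) := (cix.pow_right _).mul_right (ciy.pow_right _)
  rcases h4 _ he (mul_mem (pow_mem hxD _) (pow_mem hyD _) : _ ∈ fixAlg F D) hie
    (cie.eq.symm.trans hie) with h | h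
  · left
    exact ⟨n + 1, by rw [← key, h, mul_zero]⟩
  · right
    have cz : Commute x (x ^ n * y ^ (n + 1)) :=
      ((Commute.refl x).pow_right _).mul_right (cxy.pow_right _)
    have hz : x * (x ^ n * y ^ (n + 1)) = i := by rw [← mul_assoc, ← pow_succ', h]
    refine ⟨i * (x ^ n * y ^ (n + 1)) * i,
      (mul_mem (mul_mem hiD (mul_mem (pow_mem hxD _) (pow_mem hyD _))) hiD : _ ∈ fixAlg F D),
      ?_, ?_, ?_⟩
    · rw [← mul_assoc, ← mul_assoc, h1.eq, mul_assoc _ i i, h1.eq]
    · rw [← mul_assoc, ← mul_assoc, hxi', hz, h1.eq]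
    · rw [mul_assoc, hix, mul_assoc, ← cz.eq, hz, h1.eq]

end Pool.Agent.Puig
end

-- merged part: Pool.Agent.Work.MP_cea1f0_al.C0
section
/-! Reduction modulo a valuation subring of `ℂ`. -/

namespace Pool.Agent.Puig

open Module

/- PLAN: `Ideal.image_subset_nonunits_valuationSubring` for the subring `⊥` (or the range of
`Int.castRingHom ℂ`) and the ideal spanned by `p`. -/
theorem exists_val (p : ℕ) [Fact p.Prime] : ∃ O : ValuationSubring ℂ, (p : ℂ) ∈ O.nonunits := by
  have hp : p.Prime := Fact.out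
  obtain ⟨O, -, h⟩ := Ideal.image_subset_nonunits_valuationSubring
    (A := (Int.castRingHom ℂ).range) (Ideal.span {(p : (Int.castRingHom ℂ).range)}) (by
      rw [Ne, Ideal.span_singleton_eq_top]
      intro hu
      obtain ⟨⟨_, n, rfl⟩, e⟩ := hu.exists_right_inv
      have e1 : ((p : ℤ) : ℂ) * (n : ℂ) = 1 := by simpa using congrArg Subtype.val e
      have e2 : (p : ℤ) * n = 1 := by exact_mod_cast e1
      exact hp.ne_one (by exact_mod_cast Int.eq_one_of_mul_eq_one_right (by positivity) e2))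
  exact ⟨O, h ⟨_, Ideal.mem_span_singleton_self _, by simp⟩⟩

/-- The residue field. -/
abbrev kO (O : ValuationSubring ℂ) : Type := IsLocalRing.ResidueField O

/- PLAN: `IsAlgClosed.of_exists_root`; lift a monic polynomial to a monic polynomial over `O`
(`Polynomial.lifts_and_degree_eq_and_monic`), take a complex root, it is integral over `O`
so lies in `O` (valuation rings are integrally closed). -/
theorem kO_algClosed (O : ValuationSubring ℂ) : IsAlgClosed (kO O) := by
  refine IsAlgClosed.of_exists_root _ fun q hq hi => ?_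
  obtain ⟨f, rfl, hd, hf⟩ := Polynomial.lifts_and_degree_eq_and_monic
    (Polynomial.mem_lifts_of_surjective (IsLocalRing.residue_surjective (R := O)) q) hq
  obtain ⟨z, hz⟩ := IsAlgClosed.exists_aeval_eq_zero ℂ f
    (hd ▸ (Polynomial.degree_pos_of_irreducible hi).ne')
  obtain ⟨y, rfl⟩ := IsIntegrallyClosed.isIntegral_iff.mp (⟨f, hf, hz⟩ : IsIntegral O z)
  refine ⟨IsLocalRing.residue O y, ?_⟩
  rw [Polynomial.aeval_algebraMap_apply, map_eq_zero_iff _ (IsFractionRing.injective O ℂ)] at hz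
  rw [Polynomial.eval_map_apply, ← Polynomial.coe_aeval_eq_eval, hz, map_zero]

theorem kO_charP (p : ℕ) [Fact p.Prime] {O : ValuationSubring ℂ} (h : (p : ℂ) ∈ O.nonunits) :
    CharP (kO O) p := by
  refine (CharP.charP_iff_prime_eq_zero Fact.out).mpr ?_
  rw [← map_natCast (IsLocalRing.residue O), IsLocalRing.residue_eq_zero_iff,
    ← O.coe_mem_nonunits_iff]
  simpa using h

open Classical in
/-- The residue map, extended by zero. -/
noncomputable def piO (O : ValuationSubring ℂ) (z : ℂ) : kO O :=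
  if h : z ∈ O then IsLocalRing.residue O ⟨z, h⟩ else 0

section
variable {O : ValuationSubring ℂ}

theorem piO_coe (z : O) : piO O z = IsLocalRing.residue O z := by
  simp [piO]

theorem piO_add {x y : ℂ} (hx : x ∈ O) (hy : y ∈ O) : piO O (x + y) = piO O x + piO O y := by
  rw [show x + y = ((⟨x, hx⟩ + ⟨y, hy⟩ : O) : ℂ) from rfl, piO_coe, map_add, ← piO_coe, ← piO_coe]

theorem piO_mul {x y : ℂ} (hx : x ∈ O) (hy : y ∈ O) : piO O (x * y) = piO O x * piO O y := by
  rw [show x * y = ((⟨x, hx⟩ * ⟨y, hy⟩ : O) : ℂ) from rfl, piO_coe, map_mul, ← piO_coe, ← piO_coe]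

theorem piO_natCast (n : ℕ) : piO O n = n := by
  rw [show (n : ℂ) = ((n : O) : ℂ) by simp, piO_coe, map_natCast]

theorem piO_zero : piO O 0 = 0 := by
  simpa using piO_natCast (O := O) 0

theorem piO_one : piO O 1 = 1 := by
  simpa using piO_natCast (O := O) 1

theorem piO_sum {α : Type} (s : Finset α) {f : α → ℂ} (h : ∀ a ∈ s, f a ∈ O) :
    piO O (∑ a ∈ s, f a) = ∑ a ∈ s, piO O (f a) := by
  classical
  induction s using Finset.induction_on with
  | empty => simpa using piO_zero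
  | insert a s ha ih =>
    have hs : ∀ b ∈ s, f b ∈ O := fun b hb => h b (Finset.mem_insert_of_mem hb)
    rw [Finset.sum_insert ha, Finset.sum_insert ha,
      piO_add (h a (Finset.mem_insert_self ..)) (sum_mem hs), ih hs]

theorem exists_lift (O : ValuationSubring ℂ) :
    ∃ l : kO O → ℂ, ∀ x, l x ∈ O ∧ piO O (l x) = x := by
  choose l hl using IsLocalRing.residue_surjective (R := O)
  exact ⟨fun x => l x, fun x => ⟨(l x).2, by rw [piO_coe, hl]⟩⟩

/- PLAN: a non-trivial relation `∑ c a • v a = 0` can be divided by a coefficient of maximal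
valuation (`O.valuation`, `Finset.exists_max_image`, `valuation_le_one_iff`); then all the
coefficients lie in `O`, one is `1`; reduce. -/
theorem linInd_of_red {α β : Type} [Fintype α] {v : α → β → ℂ} (hv : ∀ a b, v a b ∈ O)
    (h : LinearIndependent (kO O) fun a b => piO O (v a b)) : LinearIndependent ℂ v := by
  rw [Fintype.linearIndependent_iff] at h ⊢
  intro c hc
  by_contra! hne
  obtain ⟨i, hi⟩ := hne
  obtain ⟨m, -, hm⟩ := Finset.exists_max_image Finset.univ (fun a => O.valuation (c a))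
    ⟨i, Finset.mem_univ i⟩
  have h0 : c m ≠ 0 := fun e => hi (by simpa [e] using hm i (Finset.mem_univ i))
  have hO : ∀ a, c a / c m ∈ O := fun a => by
    rw [← O.valuation_le_one_iff, map_div₀, div_le_one₀ (zero_lt_iff.mpr (by simpa using h0))]
    exact hm a (Finset.mem_univ a)
  have := h (fun a => piO O (c a / c m)) (funext fun b => by
    have e : ∑ a, c a / c m * v a b = 0 := by
      have := congrFun hc b
      simp only [Finset.sum_apply, Pi.smul_apply, smul_eq_mul, Pi.zero_apply] at this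
      simp only [div_mul_eq_mul_div, ← Finset.sum_div, this, zero_div]
    have e' := congrArg (piO O) e
    rw [piO_sum _ fun a _ => mul_mem (hO a) (hv a b), piO_zero] at e'
    simpa only [Finset.sum_apply, Pi.smul_apply, smul_eq_mul, Pi.zero_apply,
      piO_mul (hO _) (hv _ b)] using e') m
  rw [div_self h0, piO_one] at this
  exact one_ne_zero this

/- PLAN: the rank is the dimension of the span of the columns (`Matrix.rank_eq_finrank_span_cols`);
pick an independent subfamily (`exists_linearIndependent'`), `linInd_of_red`. -/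
theorem rank_red_le {α : Type} [Fintype α] [DecidableEq α] {M : Matrix α α ℂ}
    (hM : ∀ a b, M a b ∈ O) : (M.map (piO O)).rank ≤ M.rank := by
  obtain ⟨κ, a, ha, hs, hl⟩ := exists_linearIndependent' (kO O) (M.map (piO O)).col
  have : Finite κ := Finite.of_injective a ha
  have := Fintype.ofFinite κ
  have h1 := linInd_of_red (O := O) (v := fun i => M.col (a i)) (fun i b => hM b (a i)) hl
  rw [Matrix.rank_eq_finrank_span_cols, Matrix.rank_eq_finrank_span_cols, ← hs,
    finrank_span_eq_card hl, ← finrank_span_eq_card h1]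
  exact Submodule.finrank_mono (Submodule.span_mono (Set.range_comp_subset_range a M.col))

theorem c0_rank_add {K α : Type} [Field K] [Fintype α] (A B : Matrix α α K) :
    (A + B).rank ≤ A.rank + B.rank := by
  refine le_trans (Submodule.finrank_mono ?_) (Submodule.finrank_add_le_finrank_add_finrank _ _)
  rw [Matrix.mulVecLin_add]
  exact LinearMap.range_add_le _ _

/- PLAN: over any field an idempotent `M` has `rank M + rank (1 - M) = card`; `rank_red_le` for
`M` and `1 - M` gives equality of the ranks; the trace of a projection is its rank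
(`LinearMap.IsProj.trace`, `Matrix.toLin'`). -/
theorem rank_red {α : Type} [Fintype α] [DecidableEq α] {M : Matrix α α ℂ}
    (hM : ∀ a b, M a b ∈ O) (h : M * M = M) : ((M.map (piO O)).rank : ℂ) = M.trace := by
  have h1 : ∀ a b, (1 - M) a b ∈ O := fun a b => by
    rw [Matrix.sub_apply, Matrix.one_apply]
    split_ifs
    exacts [sub_mem (one_mem _) (hM a b), sub_mem (zero_mem _) (hM a b)]
  have e : M.map (piO O) + (1 - M).map (piO O) = 1 := by
    ext a b
    rw [Matrix.add_apply, Matrix.map_apply, Matrix.map_apply, ← piO_add (hM a b) (h1 a b),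
      ← Matrix.add_apply, add_sub_cancel, Matrix.one_apply, Matrix.one_apply]
    split_ifs
    exacts [piO_one, piO_zero]
  have k1 := c0_rank_add (M.map (piO O)) ((1 - M).map (piO O))
  rw [e, Matrix.rank_one] at k1
  have k2 := Matrix.rank_add_rank_le_card_of_mul_eq_zero (A := M) (B := 1 - M)
    (by rw [mul_sub, h, mul_one, sub_self])
  have k3 := rank_red_le hM
  have k4 := rank_red_le h1
  rw [show (M.map (piO O)).rank = M.rank by omega, ← Matrix.trace_toLin'_eq]
  have hp : LinearMap.IsProj (LinearMap.range (Matrix.toLin' M)) (Matrix.toLin' M) :=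
    ⟨fun x => LinearMap.mem_range_self _ x, by
      rintro _ ⟨x, rfl⟩
      rw [← Matrix.toLin'_mul_apply, h]⟩
  rw [hp.trace]
  rfl

end

/-- The reduction of an element of the group algebra. -/
noncomputable def red (O : ValuationSubring ℂ) {C : Type} [Finite C] (x : C → ℂ) :
    MonoidAlgebra (kO O) C :=
  .ofCoeff (Finsupp.equivFunOnFinite.symm fun g => piO O (x g))

section
variable {O : ValuationSubring ℂ} {C : Type} [Group C] [Fintype C]

omit [Group C] in
theorem coeff_red (x : C → ℂ) (g : C) : (red O x).coeff g = piO O (x g) := rfl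

theorem cv_mem {x y : C → ℂ} (hx : ∀ g, x g ∈ O) (hy : ∀ g, y g ∈ O) (g : C) : cv x y g ∈ O := by
  exact sum_mem fun h _ => mul_mem (hx _) (hy _)

theorem red_cv {x y : C → ℂ} (hx : ∀ g, x g ∈ O) (hy : ∀ g, y g ∈ O) :
    red O (cv x y) = red O x * red O y := by
  ext g
  rw [MonoidAlgebra.coeff_mul_apply_left, Finsupp.sum_fintype _ _ (by simp), coeff_red, cv,
    piO_sum _ fun h _ => mul_mem (hx _) (hy _)]
  exact Finset.sum_congr rfl fun h _ => piO_mul (hx _) (hy _)

theorem red_central {x : C → ℂ} (hx : ClassFn x) (y : MonoidAlgebra (kO O) C) :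
    y * red O x = red O x * y := by
  ext g
  rw [MonoidAlgebra.coeff_mul_apply_left, MonoidAlgebra.coeff_mul_apply_right]
  refine Finsupp.sum_congr fun h _ => ?_
  rw [coeff_red, coeff_red, mul_comm, ← hx (h⁻¹ * g) h, mul_inv_cancel_left]

theorem cv_assoc (x y z : C → ℂ) : cv (cv x y) z = cv x (cv y z) := by
  funext g
  simp only [cv, Finset.sum_mul, Finset.mul_sum]
  rw [Finset.sum_comm]
  refine Finset.sum_congr rfl fun a _ => ?_
  refine (Fintype.sum_equiv (Equiv.mulLeft a) _ _ fun b => ?_).symm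
  simp [mul_assoc]

theorem cv_comm {e : C → ℂ} (he : ClassFn e) (x : C → ℂ) : cv e x = cv x e := by
  funext g
  refine Fintype.sum_equiv ((Equiv.inv C).trans (Equiv.mulRight g)) _ _ fun h => ?_
  rw [mul_comm, ← he h g⁻¹]
  simp [mul_assoc]

theorem cv_inv (x y : C → ℂ) :
    (fun g => cv x y g⁻¹) = cv (fun g => y g⁻¹) (fun g => x g⁻¹) := by
  funext g
  refine Fintype.sum_equiv (Equiv.mulLeft g) _ _ fun h => ?_
  simp [mul_comm]

end

end Pool.Agent.Puig
end

-- merged part: Pool.Agent.Work.MP_cea1f0_al.C1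
section
/-! Dimensions in characteristic `p` as traces in characteristic zero. -/

namespace Pool.Agent.Puig

open Module

/-- The dimension of `a * F G * b`. -/
noncomputable def bim {F G : Type} [Field F] [Group G] (a b : MonoidAlgebra F G) : ℕ :=
  finrank F (LinearMap.range (LinearMap.mulLeftRight F (a, b)))

section
variable {F G : Type} [Field F] [Group G]

theorem c1_mat [Fintype G] [DecidableEq G] (a b : MonoidAlgebra F G) :
    LinearMap.toMatrix (MonoidAlgebra.basis G F) (MonoidAlgebra.basis G F)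
      (LinearMap.mulLeftRight F (a, b)) =
      .of fun g g' : G => ∑ h, a.coeff h * b.coeff (g'⁻¹ * h⁻¹ * g) := by
  ext g g'
  rw [LinearMap.toMatrix_apply, MonoidAlgebra.basis_apply, LinearMap.mulLeftRight_apply, mul_assoc]
  show (_ * _ : MonoidAlgebra F G).coeff g = _
  rw [MonoidAlgebra.coeff_mul_apply_left, Finsupp.sum_fintype _ _ (by simp)]
  simp [mul_assoc]

theorem c1_bim [Fintype G] [DecidableEq G] (a b : MonoidAlgebra F G) : bim a b =
    (Matrix.of fun g g' : G => ∑ h, a.coeff h * b.coeff (g'⁻¹ * h⁻¹ * g)).rank := by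
  rw [← c1_mat, Matrix.rank_eq_finrank_range_toLin _ (MonoidAlgebra.basis G F)
    (MonoidAlgebra.basis G F), Matrix.toLin_toMatrix, bim]

theorem c1_idem [Fintype G] {x : G → ℂ} (h : cv x x = x) :
    ∃ X : MonoidAlgebra ℂ G, ⇑X.coeff = x ∧ X * X = X := by
  refine ⟨.ofCoeff (Finsupp.equivFunOnFinite.symm x), rfl, ?_⟩
  ext g
  rw [MonoidAlgebra.coeff_mul_apply_left, Finsupp.sum_fintype _ _ (by simp)]
  exact congrFun h g

open Classical in
theorem c1_mulVec {Ω : Type} [Fintype G] [Fintype Ω] (θ : G →* Equiv.Perm Ω) (S : Set Ω)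
    (y : MonoidAlgebra F G) (v : Ω → F) :
    (Matrix.of fun ω ω' => ∑ g, if θ g⁻¹ ω = ω' ∧ ω' ∈ S then y.coeff g else 0).mulVec v =
      act F θ y (S.indicator v) := by
  funext ω
  simp only [Matrix.mulVec, dotProduct, Matrix.of_apply, act_apply, Finset.sum_mul]
  rw [Finset.sum_comm]
  refine Finset.sum_congr rfl fun g _ => ?_
  rw [Finset.sum_eq_single (θ g⁻¹ ω) (fun _ _ h => by rw [if_neg fun e => h e.1.symm, zero_mul])
    (by simp)]
  by_cases h : θ g⁻¹ ω ∈ S
  · rw [if_pos ⟨rfl, h⟩, Set.indicator_of_mem h]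
  · rw [if_neg fun e => h e.2, Set.indicator_of_notMem h, zero_mul, mul_zero]

theorem c1_ind {Ω : Type} {S : Set Ω} {v : Ω → F} (h : v ∈ spt F S) : S.indicator v = v :=
  Set.indicator_eq_self.2 fun ω e => not_not.1 fun n => e (h ω n)

theorem bim_comm [Finite G] (a b : MonoidAlgebra F G) : bim a b = bim b a := by
  classical
  have := Fintype.ofFinite G
  rw [c1_bim, c1_bim, ← Matrix.rank_transpose, ← Matrix.rank_submatrix _ (.inv G) (.inv G)]
  refine congrArg _ (Matrix.ext fun g g' => ?_)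
  refine Fintype.sum_equiv (((Equiv.inv G).trans (.mulLeft g)).trans (.mulRight g'⁻¹)) _ _
    fun h => ?_
  simp [mul_comm, mul_assoc]

theorem bim_le [Finite G] (a b : MonoidAlgebra F G) : bim a b ≤ Nat.card G := by
  classical
  have := Fintype.ofFinite G
  rw [c1_bim, Nat.card_eq_fintype_card]
  exact Matrix.rank_le_card_width _

/-- `bim` through the left ideal generated by `b`. -/
theorem bim_eq_dm [Finite G] (a b : MonoidAlgebra F G) :
    bim a b = dm F a (Submodule.span (MonoidAlgebra F G) {b}) := by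
  rw [dm_sub_eq, bim]
  refine congrArg (fun N : Submodule F (MonoidAlgebra F G) => finrank F N) (Submodule.ext fun v => ?_)
  simp [mem_jp, Submodule.mem_span_singleton, mul_assoc]

end

section
variable {O : ValuationSubring ℂ} {C Ω : Type} [Group C] [Fintype C]

theorem dm_red [Finite Ω] (θ : C →* Equiv.Perm Ω) {S : Set Ω} (hS : ∀ g, ∀ ω ∈ S, θ g ω ∈ S)
    {x : C → ℂ} (hx : ∀ g, x g ∈ O) (h : cv x x = x) :
    (dm (kO O) (red O x) (sm (kO O) θ S) : ℂ) = pev θ S x := by
  classical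
  have := Fintype.ofFinite Ω
  obtain ⟨X, rfl, hX⟩ := c1_idem h
  have hI {F : Type} [Field F] (v : Ω → F) : S.indicator v ∈ spt F S :=
    fun _ e => Set.indicator_of_notMem e v
  have h1 := rank_red (O := O)
    (M := .of fun ω ω' => ∑ g, if θ g⁻¹ ω = ω' ∧ ω' ∈ S then X.coeff g else 0)
    (fun _ _ => sum_mem fun g _ => by split_ifs; exacts [hx g, zero_mem _])
    (Matrix.toLin'.injective (LinearMap.ext fun v => by
      rw [Matrix.toLin'_apply, Matrix.toLin'_apply, ← Matrix.mulVec_mulVec, c1_mulVec, c1_mulVec,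
        c1_ind (v := act ℂ θ X _) ((mem_sm hS).1 ((sm ℂ θ S).smul_mem X ((mem_sm hS).2 (hI v)))),
        ← Module.End.mul_apply, ← map_mul, hX]))
  rw [show Matrix.map (.of fun ω ω' => ∑ g, if θ g⁻¹ ω = ω' ∧ ω' ∈ S then X.coeff g else 0) (piO O) =
      .of fun ω ω' => ∑ g, if θ g⁻¹ ω = ω' ∧ ω' ∈ S then (red O X.coeff).coeff g else 0 from
    Matrix.ext fun ω ω' => (piO_sum _ fun g _ => by split_ifs; exacts [hx g, zero_mem _]).trans
      (Finset.sum_congr rfl fun g _ => by split_ifs; exacts [rfl, piO_zero]), Matrix.rank] at h1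
  rw [dm_sm hS]
  refine Eq.trans (congrArg (fun N : Submodule (kO O) (Ω → kO O) => (finrank (kO O) N : ℂ))
    (le_antisymm ?_ ?_)) (h1.trans (Finset.sum_comm.trans (Finset.sum_congr rfl fun g _ => ?_)))
  · rintro _ ⟨v, hv, rfl⟩
    exact ⟨v, by rw [Matrix.mulVecLin_apply, c1_mulVec, c1_ind hv]⟩
  · rintro _ ⟨v, rfl⟩
    exact ⟨_, hI v, (c1_mulVec θ S _ v).symm⟩
  rw [pch, Nat.card_eq_fintype_card, Fintype.card_subtype, Finset.natCast_card_filter,
    Finset.mul_sum]
  refine Finset.sum_congr rfl fun ω _ => ?_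
  rw [mul_boole]
  exact if_congr (by rw [and_comm, map_inv, Equiv.Perm.inv_eq_iff_eq, eq_comm]) rfl rfl

theorem bim_red {a b : C → ℂ} (ha : ∀ g, a g ∈ O) (hb : ∀ g, b g ∈ O) (ha' : cv a a = a)
    (hb' : cv b b = b) : (bim (red O a) (red O b) : ℂ) = bitr a b := by
  classical
  obtain ⟨A, rfl, hA⟩ := c1_idem ha'
  obtain ⟨B, rfl, hB⟩ := c1_idem hb'
  have h1 := rank_red (O := O) (M := .of fun g g' : C => ∑ h, A.coeff h * B.coeff (g'⁻¹ * h⁻¹ * g))
    (fun _ _ => sum_mem fun g _ => mul_mem (ha _) (hb _)) (by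
      rw [← c1_mat, ← LinearMap.toMatrix_mul]
      refine congrArg _ (LinearMap.ext fun v => ?_)
      simp only [Module.End.mul_apply, LinearMap.mulLeftRight_apply]
      rw [mul_assoc, mul_assoc, hB, ← mul_assoc, ← mul_assoc, hA])
  rw [c1_bim]
  refine Eq.trans (congrArg (fun M : Matrix C C _ => (M.rank : ℂ)) (Matrix.ext fun g g' => ?_)) h1
  rw [Matrix.map_apply, Matrix.of_apply, Matrix.of_apply,
    piO_sum _ fun _ _ => mul_mem (ha _) (hb _)]
  exact Finset.sum_congr rfl fun h _ => (piO_mul (ha _) (hb _)).symm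

end

end Pool.Agent.Puig
end

-- merged part: Pool.Agent.Work.MP_cea1f0_al.Iface2
section
/-! The characteristic zero data for the unipotent blocks (interface between the Hall algebra
files and the modular files `G*`, `N*`, `V*`). -/

namespace Pool.Agent.Puig

open Classical Module

/-- The action of the group algebra on functions. -/
noncomputable def ap {C : Type} [Group C] [Fintype C] (e f : C → ℂ) : C → ℂ :=
  fun x => ∑ h, e h * f (h * x)

noncomputable instance instFintypeLE {K V : Type} [Field K] [AddCommGroup V] [Module K V]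
    [Finite V] : Fintype (V ≃ₗ[K] V) :=
  have : Finite (V ≃ₗ[K] V) := Finite.of_injective _ (DFunLike.coe_injective (F := V ≃ₗ[K] V))
  Fintype.ofFinite _

section
variable {K A B V : Type} [Field K] [AddCommGroup A] [Module K A] [AddCommGroup B] [Module K B]
  [AddCommGroup V] [Module K V]

/-- The Levi subgroup of a decomposition. -/
def emb (ψ : (A × B) ≃ₗ[K] V) : (A ≃ₗ[K] A) × (B ≃ₗ[K] B) →* (V ≃ₗ[K] V) where
  toFun x := ψ.symm ≪≫ₗ x.1.prodCongr x.2 ≪≫ₗ ψ
  map_one' := by ext v; simp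
  map_mul' x y := by ext v; simp

theorem emb_apply (ψ : (A × B) ≃ₗ[K] V) (h : A ≃ₗ[K] A) (x : B ≃ₗ[K] B) (a : A) (b : B) :
    emb ψ (h, x) (ψ (a, b)) = ψ (h a, x b) := by
  simp [emb]

/-- The elements that fix `A` pointwise and act on `V ⧸ A = B` through `T`. -/
def Ysub (ψ : (A × B) ≃ₗ[K] V) (T : Subgroup (B ≃ₗ[K] B)) : Subgroup (V ≃ₗ[K] V) where
  carrier := {g | (∀ a, g (ψ (a, 0)) = ψ (a, 0)) ∧
    ∃ x ∈ T, ∀ a b, (ψ.symm (g (ψ (a, b)))).2 = x b}
  one_mem' := ⟨fun _ => rfl, 1, T.one_mem, fun a b => by simp⟩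
  mul_mem' := by
    rintro g g' ⟨h1, x, hx, h2⟩ ⟨h1', x', hx', h2'⟩
    refine ⟨fun a => by simp [h1, h1'], x * x', T.mul_mem hx hx', fun a b => ?_⟩
    have := h2 (ψ.symm (g' (ψ (a, b)))).1 (ψ.symm (g' (ψ (a, b)))).2
    simp only [Prod.mk.eta, LinearEquiv.apply_symm_apply] at this
    simp [this, h2']
  inv_mem' := by
    rintro g ⟨h1, x, hx, h2⟩
    refine ⟨fun a => ?_, x⁻¹, T.inv_mem hx, fun a b => ?_⟩
    · conv_lhs => rw [← h1 a]
      exact g.symm_apply_apply _
    · have := h2 (ψ.symm (g⁻¹ (ψ (a, b)))).1 (ψ.symm (g⁻¹ (ψ (a, b)))).2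
      simp only [Prod.mk.eta, LinearEquiv.apply_symm_apply] at this
      have h3 : g (g⁻¹ (ψ (a, b))) = ψ (a, b) := g.apply_symm_apply _
      rw [h3, LinearEquiv.symm_apply_apply] at this
      exact (x.symm_apply_eq.2 this).symm

variable [Finite A] [Finite B] [Finite V]

/-- The sum of `f (h ⊕ t x)` over the `p`-regular `x` commuting with `t`, for `p`-regular `h`. -/
noncomputable def phi (p : ℕ) (ψ : (A × B) ≃ₗ[K] V) (t : B ≃ₗ[K] B) (f : (V ≃ₗ[K] V) → ℂ) :
    (A ≃ₗ[K] A) → ℂ := fun h =>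
  if (orderOf h).Coprime p then
    ∑ x, if Commute x t ∧ (orderOf x).Coprime p then f (emb ψ (h, t * x)) else 0
  else 0

/-- The element `e * a * e_Y` of the group algebra of `GL(V)`, `a` in that of `GL(A)`. -/
noncomputable def scp (ψ : (A × B) ≃ₗ[K] V) (T : Subgroup (B ≃ₗ[K] B)) (e : (V ≃ₗ[K] V) → ℂ)
    (a : (A ≃ₗ[K] A) → ℂ) : (V ≃ₗ[K] V) → ℂ :=
  cv e (cv (fun g => ∑ h, if emb ψ (h, 1) = g then a h else 0)
    fun g => if g ∈ Ysub ψ T then (Nat.card (Ysub ψ T) : ℂ)⁻¹ else 0)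

end

/-- Labels are the `d`-cores, `d = finrank K W` the order of `q` modulo `p`, `κ` their sizes,
`e V c` the central idempotent of the characters of `GL(V)` with core `c`, `t` a Coxeter element of
`p`-power order. -/
structure UD (p : ℕ) (O : ValuationSubring ℂ) (K : Type) [Field K] [Finite K] (N : ℕ → ℕ) {Lab : Type}
    (κ : Lab → ℕ) (e : ∀ (V : Type) [AddCommGroup V] [Module K V], Lab → (V ≃ₗ[K] V) → ℂ)
    {W : Type} [AddCommGroup W] [Module K W] [Finite W] (t : W ≃ₗ[K] W) : Prop where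
  t_p : ∃ r, t ^ p ^ r = 1
  t_fpf : ∀ x, t x = x → x = 0
  nt : Nontrivial W
  two : p = 2 → ∀ c, κ c = 0
  mem : ∀ (V : Type) [AddCommGroup V] [Module K V] [Finite V] c g, e V c g ∈ O
  cls : ∀ (V : Type) [AddCommGroup V] [Module K V] [Finite V] c, ClassFn (e V c)
  idem : ∀ (V : Type) [AddCommGroup V] [Module K V] [Finite V] c, cv (e V c) (e V c) = e V c
  orth : ∀ (V : Type) [AddCommGroup V] [Module K V] [Finite V] c c', c ≠ c' →
    cv (e V c) (e V c') = 0
  jd : ∀ (V : Type) [AddCommGroup V] [Module K V] [Finite V] (n : ℕ), finrank K V ≤ n →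
    ∃ (s : Finset Lab) (ε : Ty n (finrank K V) → (V ≃ₗ[K] V) → ℂ) (w a : ℕ),
      (∀ c, c ∉ s → e V c = 0) ∧
      JD p O (flAct n K V) Set.univ (∑ c ∈ s, e V c) ε (flS n K V) (tySq n) w a
  wt : ∀ (V : Type) [AddCommGroup V] [Module K V] [Finite V] c, e V c ≠ 0 →
    ∃ w, finrank K V = κ c + finrank K W * w
  core : ∀ (V : Type) [AddCommGroup V] [Module K V] [Finite V] c, finrank K V = κ c →
    e V c ≠ 0 ∧ ∀ f, ClassFn f → ∃ a : ℂ, ∀ g, ap (e V c) f g = a * e V c g⁻¹
  cox : ∀ (A V : Type) [AddCommGroup A] [Module K A] [Finite A] [AddCommGroup V] [Module K V]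
    [Finite V] (ψ : (A × W) ≃ₗ[K] V) c f, ClassFn f → ∀ h, (orderOf h).Coprime p →
      phi p ψ t (ap (e V c) f) h = ap (e A c) (phi p ψ t f) h
  mn : ∀ (A V : Type) [AddCommGroup A] [Module K A] [Finite A] [AddCommGroup V] [Module K V]
    [Finite V] (ψ : (A × W) ≃ₗ[K] V) c (n : ℕ) y, ClassFn y → cv y y = y → cv (e V c) y = y →
      pev (flAct n K V) Set.univ y ≠ 0 → finrank K V ≠ κ c →
      ∃ f, ClassFn f ∧ phi p ψ t (ap y f) ≠ 0
  scopes : ∀ w c, N w < κ c → ∃ (c' : Lab) (k : ℕ) (T : Subgroup ((Fin k → K) ≃ₗ[K] (Fin k → K)))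
    (m : ℕ), 0 < k ∧ κ c' + k = κ c ∧ ¬ p ∣ Nat.card T ∧ m ≠ 0 ∧
    ∀ (A V : Type) [AddCommGroup A] [Module K A] [Finite A] [AddCommGroup V] [Module K V]
      [Finite V] (ψ : (A × (Fin k → K)) ≃ₗ[K] V), finrank K A ≤ κ c' + finrank K W * w →
      ∀ a, cv (e A c') a = a → bitr (scp ψ T (e V c) a) (scp ψ T (e V c) a) = m * bitr a a

/-- The statement to be proved in `U/*`. -/
def UData (p : ℕ) : Prop :=
  ∃ N : ℕ → ℕ, ∀ (O : ValuationSubring ℂ), (p : ℂ) ∈ O.nonunits →
    ∀ (K : Type) [Field K] [Finite K], (p : K) ≠ 0 →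
      ∃ (Lab : Type) (κ : Lab → ℕ)
        (e : ∀ (V : Type) [AddCommGroup V] [Module K V], Lab → (V ≃ₗ[K] V) → ℂ)
        (W : Type) (_ : AddCommGroup W) (_ : Module K W) (_ : Finite W) (t : W ≃ₗ[K] W),
        UD p O K N κ e t

end Pool.Agent.Puig
end

-- merged part: Pool.Agent.Work.MP_cea1f0_al.Iface3
section
/-! The characteristic zero data for the unipotent blocks, one Harish-Chandra step (interface
between the files `U/*` and the modular files). -/

namespace Pool.Agent.Puig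

open Classical Module

section
variable {K A B V : Type} [Field K] [AddCommGroup A] [Module K A] [AddCommGroup B] [Module K B]
  [AddCommGroup V] [Module K V] [Finite A] [Finite B] [Finite V]

/-- The element `(a ⊗ a') * e_U` of the group algebra of `GL(V)`, `U` the unipotent radical of the
stabiliser of `A`. -/
noncomputable def lev (ψ : (A × B) ≃ₗ[K] V) (a : (A ≃ₗ[K] A) → ℂ) (a' : (B ≃ₗ[K] B) → ℂ) :
    (V ≃ₗ[K] V) → ℂ :=
  cv (fun g => ∑ x : (A ≃ₗ[K] A) × (B ≃ₗ[K] B), if emb ψ x = g then a x.1 * a' x.2 else 0)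
    fun g => if g ∈ Ysub ψ ⊥ then (Nat.card (Ysub ψ ⊥) : ℂ)⁻¹ else 0

end

/-- `e V` is the sum of the unipotent block idempotents of `GL(V)`. -/
structure UD3 (p : ℕ) (O : ValuationSubring ℂ) (K : Type) [Field K] [Finite K] (g : ℕ → ℕ)
    (e : ∀ (V : Type) [AddCommGroup V] [Module K V] [Finite V], (V ≃ₗ[K] V) → ℂ) : Prop where
  mem : ∀ (V : Type) [AddCommGroup V] [Module K V] [Finite V] x, e V x ∈ O
  cls : ∀ (V : Type) [AddCommGroup V] [Module K V] [Finite V], ClassFn (e V)
  idem : ∀ (V : Type) [AddCommGroup V] [Module K V] [Finite V], cv (e V) (e V) = e V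
  full : ∀ (V : Type) [AddCommGroup V] [Module K V] [Finite V] (n : ℕ),
    pev (flAct n K V) Set.univ (e V) = Nat.card (Fl n K V)
  levi : ∀ (A B V : Type) [AddCommGroup A] [Module K A] [Finite A] [AddCommGroup B] [Module K B]
    [Finite B] [AddCommGroup V] [Module K V] [Finite V] (ψ : (A × B) ≃ₗ[K] V) a a',
      cv (e B) a' = 0 → bitr (lev ψ a a') (cv (e V) (lev ψ a a')) = 0
  bm : ∀ (V : Type) [AddCommGroup V] [Module K V] [Finite V] (n : ℕ), finrank K V ≤ n →
    ∀ (m : Polynomial K) (x : V ≃ₗ[K] V) (r : ℕ), Irreducible m →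
      Polynomial.aeval (x : V →ₗ[K] V) m = 0 → x ^ p ^ r = 1 → ∀ f, ClassFn f →
      ∃ a : Ty n (finrank K V) → ℂ, ∀ y, Commute x y → (orderOf y).Coprime p →
        ap (e V) f (x * y) = ∑ μ, a μ * pch (flAct n K V) (flS n K V μ) (x * y)
  bound : ∀ (A B V : Type) [AddCommGroup A] [Module K A] [Finite A] [AddCommGroup B] [Module K B]
    [Finite B] [AddCommGroup V] [Module K V] [Finite V] (ψ : (A × B) ≃ₗ[K] V) a a',
      cv a a = a → cv a' a' = a' → ∀ (b : (V ≃ₗ[K] V) → ℂ) (D : Subgroup (V ≃ₗ[K] V)),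
      (∀ x, b x ∈ O) → ClassFn b → cv b b = b → IsBlock (red O b) → IsDefect p (red O b) D →
      ‖bitr (lev ψ a a') (cv b (lev ψ a a'))‖ ≤
        Nat.card D ^ 2 * (g (finrank K B) * ‖bitr a a‖ * ‖bitr a' a'‖) ^ 2
  twist : ∀ (V : Type) [AddCommGroup V] [Module K V] [Finite V], Nontrivial V →
    ∀ chi : Kˣ →* ℂˣ, chi ≠ 1 → (orderOf chi).Coprime p →
      cv (e V) (fun g => (chi (LinearEquiv.det g) : ℂ) * e V g) = 0

/-- The statement proved in `U/*`. -/
def UData3 (p : ℕ) : Prop :=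
  ∃ g : ℕ → ℕ, ∀ (O : ValuationSubring ℂ), (p : ℂ) ∈ O.nonunits →
    ∀ (K : Type) [Field K] [Finite K], (p : K) ≠ 0 →
      ∃ e : ∀ (V : Type) [AddCommGroup V] [Module K V] [Finite V], (V ≃ₗ[K] V) → ℂ, UD3 p O K g e

end Pool.Agent.Puig
end

-- merged part: Pool.Agent.Work.MP_cea1f0_al.D.Chr
section
/-!
# Characters of finite groups  (tasks PD ChrA, PD ChrB)

`hp` is the Hermitian scalar product; for a character `χ g⁻¹ = conj (χ g)`, so `hp f χ = ip f χ`.
* `irr_conj`: `ρ g` has finite order; average a Hermitian form, or use eigenvalues: `ρ g` is annihilated by the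
  separable polynomial `X ^ N - 1`; the trace is the sum over `ζ` of `ζ * (rank of the projector
  `N⁻¹ ∑ ζ ^ (-k) ρ g ^ k`)`, and the traces of the projectors are natural numbers (`LinearMap.IsProj.trace`).
* `irr_finite`: orthonormal families are linearly independent in `G → ℂ`.
* `eq_zero_of_hp`: the operator `∑ g, conj (f g) • ρ g` commutes with `G`, so it is a scalar on every irreducible
  representation (Schur), with trace `0`.  Hence `∑ g, conj (f g) * χ (g * x) = 0` for all `x` and irreducible `χ`,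
  hence for the regular character (`perm_char_mem_virt`), which gives `f = 0`.
* `char_mem_ch`: copy the induction of `char_mem_virt`.
* `ch_iff`, `virt_iff`: `complete`.
* `Ch.mul`: `Representation.char_tensor`; `Ch.comp`: `ρ.comp φ`; `Ch.conj`: `Representation.char_dual`.
* `push_mem_ch`: `ch_iff`; the scalar product with `χ` is `hp f (χ ∘ π)`.
* `part_mem_ch`: `ch_iff`; the scalar product with `χ` is `hp f (χ ⊗ φ)` on `G × A`.
* `avg_int`: `part_mem_ch` for the homomorphism `zpowers s × U → G` (`MonoidHom.noncommCoprod`).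
* `adams`: write `f` as the character of a matrix representation `ρ` on `ι → ℂ` (`Ch.exists_rep`).  The group
  `G × Multiplicative (ZMod l)` acts on `(ZMod l → ι) → ℂ` by the matrices
  `(g, c) ↦ fun a b => ∏ t, ρ g (a t) (b (t + c))`; the trace is `f g ^ l` for `c = 0` and `f (g ^ l)` for `c ≠ 0`
  (reindex `t = c * s`).  Apply `part_mem_ch` with a nontrivial character of `ZMod l`.
-/

namespace PD

open Pool.Agent.Lib.SymRep

variable {G H : Type} [Group G] [Fintype G] [Group H] [Fintype H]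

/-- Class functions. -/
def Cl (f : G → ℂ) : Prop := ∀ g h, f (h * g * h⁻¹) = f g

/-- The Hermitian scalar product. -/
noncomputable def hp (f g : G → ℂ) : ℂ := (Nat.card G : ℂ)⁻¹ * ∑ x, f x * star (g x)

/-- The characters. -/
def Ch (G : Type) [Group G] : AddSubmonoid (G → ℂ) := AddSubmonoid.closure (irr G)

/-- Truncation to the `p`-regular elements. -/
noncomputable def tau (p : ℕ) (f : G → ℂ) : G → ℂ :=
  fun g => if (orderOf g).Coprime p then f g else 0

/-! ### Task PD ChrA -/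

theorem hp_add_left (f f' g : G → ℂ) : hp (f + f') g = hp f g + hp f' g := by
  simp only [hp, Pi.add_apply, add_mul, Finset.sum_add_distrib, mul_add]

theorem hp_smul_left (c : ℂ) (f g : G → ℂ) : hp (c • f) g = c * hp f g := by
  simp only [hp, Pi.smul_apply, smul_eq_mul, mul_assoc, ← Finset.mul_sum]
  exact mul_left_comm _ _ _

theorem hp_star (f g : G → ℂ) : star (hp f g) = hp g f := by
  simp only [hp, star_mul', star_sum, star_star, star_inv₀, star_natCast, mul_comm (f _)]

theorem hp_self_eq_zero {f : G → ℂ} (h : hp f f = 0) : f = 0 := by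
  open ComplexOrder in
  exact dotProduct_self_star_eq_zero.1 ((mul_eq_zero.1 h).resolve_left (inv_ne_zero card_ne_zero))

theorem hp_self_nonneg (f : G → ℂ) : ∃ r : ℝ, 0 ≤ r ∧ hp f f = r := by
  refine ⟨(Nat.card G : ℝ)⁻¹ * ∑ x, Complex.normSq (f x), mul_nonneg (by positivity)
    (Finset.sum_nonneg fun x _ => Complex.normSq_nonneg _), ?_⟩
  simp only [hp, Complex.star_def, Complex.mul_conj]
  push_cast
  rfl

/-- The scalar product as a linear map of the left argument. -/
noncomputable def ChrA_L (g : G → ℂ) : (G → ℂ) →ₗ[ℂ] ℂ where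
  toFun f := hp f g
  map_add' f f' := hp_add_left f f' g
  map_smul' c f := hp_smul_left c f g

/-- The scalar product as an additive map of the right argument. -/
noncomputable def ChrA_R (f : G → ℂ) : (G → ℂ) →+ ℂ :=
  .mk' (hp f) fun g g' => by simp only [hp, Pi.add_apply, star_add, mul_add, Finset.sum_add_distrib]

/-- The space of class functions. -/
def ChrA_S (G : Type) [Group G] : Submodule ℂ (G → ℂ) where
  carrier := {f | Cl f}
  add_mem' h k g x := congrArg₂ (· + ·) (h g x) (k g x)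
  zero_mem' _ _ := rfl
  smul_mem' c _ h g x := congrArg (c • ·) (h g x)

omit [Fintype G] in
theorem ChrA_mat (V : FDRep ℂ G) :
    ∃ (d : ℕ) (ρ : G →* Matrix (Fin d) (Fin d) ℂ), ∀ g, V.character g = (ρ g).trace :=
  ⟨_, (LinearMap.toMatrixAlgEquiv (Module.finBasis ℂ V)).toMonoidHom.comp V.ρ, fun _ =>
    LinearMap.trace_eq_matrix_trace ℂ _ _⟩

omit [Fintype G] in
theorem irr_cl {χ : G → ℂ} (h : χ ∈ irr G) : Cl χ := by
  obtain ⟨V, -, rfl⟩ := h
  exact V.char_conj

theorem irr_conj {χ : G → ℂ} (h : χ ∈ irr G) (g : G) : χ g⁻¹ = star (χ g) := by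
  classical
  obtain ⟨V, -, rfl⟩ := h
  obtain ⟨d, ρ, e⟩ := ChrA_mat V
  open ComplexOrder Matrix in
  have p : (∑ x, (ρ x)ᴴ * ρ x).PosDef := by
    rw [← Finset.add_sum_erase _ _ (Finset.mem_univ 1), map_one, conjTranspose_one, mul_one]
    exact PosDef.one.add_posSemidef
      (posSemidef_sum _ fun x _ => posSemidef_conjTranspose_mul_self _)
  obtain ⟨P, hP⟩ := p.isUnit
  have k : (ρ g).conjTranspose * P = P * ρ g⁻¹ := by
    simp only [hP, Finset.mul_sum, Finset.sum_mul, mul_assoc, ← map_mul]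
    exact Fintype.sum_equiv (Equiv.mulRight g) _ _ fun x => by
      simp [Matrix.conjTranspose_mul, mul_assoc]
  rw [e, e, ← Matrix.trace_conjTranspose, ← Matrix.trace_units_conj P, ← k,
    Units.mul_inv_cancel_right]

theorem ChrA_ip (f : G → ℂ) {χ : G → ℂ} (h : ∀ g, χ g⁻¹ = star (χ g)) : hp f χ = ip f χ := by
  simp only [hp, ip, h]

open scoped Classical in
theorem hp_irr {χ χ' : G → ℂ} (h : χ ∈ irr G) (h' : χ' ∈ irr G) :
    hp χ χ' = if χ = χ' then 1 else 0 := by
  rw [ChrA_ip _ (irr_conj h'), ip_irr h h']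

theorem ChrA_coef {ι : Type} (s : Finset ι) (c : ι → ℂ) {v : ι → G → ℂ} (hv : ∀ i ∈ s, v i ∈ irr G)
    (inj : Set.InjOn v s) {i : ι} (hi : i ∈ s) : hp (∑ j ∈ s, c j • v j) (v i) = c i := by
  refine (map_sum (ChrA_L (v i)) _ _).trans ((Finset.sum_eq_single_of_mem i hi
    fun j hj k => ?_).trans ?_) <;> refine (hp_smul_left _ _ _).trans ?_
  · rw [hp_irr (hv j hj) (hv i hi), if_neg fun e => k (inj hj hi e), mul_zero]
  · rw [hp_irr (hv i hi) (hv i hi), if_pos rfl, mul_one]

theorem irr_finite (G : Type) [Group G] [Fintype G] : (irr G).Finite := by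
  refine LinearIndependent.setFinite (R := ℂ) (linearIndependent_iff'.2 fun s c e i hi => ?_)
  rw [← ChrA_coef s c (fun i _ => i.2) Subtype.val_injective.injOn hi, e]
  exact map_zero (ChrA_L _)

theorem ChrA_schur {f χ : G → ℂ} (hf : Cl f) (hχ : χ ∈ irr G) (h : ∑ g, f g * χ g = 0) (x : G) :
    ∑ g, f g * χ (g * x) = 0 := by
  have := invertibleOfNonzero (card_ne_zero (G := G))
  have h1 := ip_irr hχ hχ
  obtain ⟨V, -, rfl⟩ := hχ
  have h2 : Module.finrank ℂ (Representation.IntertwiningMap V.ρ V.ρ) = 1 := by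
    rw [if_pos rfl] at h1
    exact_mod_cast (Representation.card_inv_mul_sum_char_mul_char_eq_finrank V.ρ V.ρ).symm.trans h1
  have e : ∀ x, ∑ g, f g * V.character (g * x) =
      LinearMap.trace ℂ V ((∑ g, f g • V.ρ g) * V.ρ x) := fun x => by
    simp only [Finset.sum_mul, map_sum, smul_mul_assoc, map_smul, smul_eq_mul, ← map_mul,
      FDRep.character]
  suffices k : ∑ g, f g • V.ρ g = 0 by rw [e, k, zero_mul, map_zero]
  rcases subsingleton_or_nontrivial V with n | n
  · exact Subsingleton.elim _ _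
  obtain ⟨c, hc⟩ := (finrank_eq_one_iff_of_nonzero' (Representation.IntertwiningMap.id V.ρ)
    fun k => one_ne_zero (congrArg Representation.IntertwiningMap.toLinearMap k)).1 h2
    ⟨∑ g, f g • V.ρ g, fun y => by
      simp only [← Module.End.mul_eq_comp, Finset.sum_mul, Finset.mul_sum, smul_mul_assoc,
        mul_smul_comm, ← map_mul]
      exact Fintype.sum_equiv (MulAut.conj y⁻¹).toEquiv _ _ fun g => by
        simp [← hf g y⁻¹, mul_assoc]⟩
  have k : c • 1 = ∑ g, f g • V.ρ g := congrArg Representation.IntertwiningMap.toLinearMap hc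
  have k1 := e 1
  simp only [mul_one, h, map_one, ← k, map_smul, LinearMap.trace_one, smul_eq_mul] at k1
  rw [← k, (mul_eq_zero.1 k1.symm).resolve_right (Nat.cast_ne_zero.2 Module.finrank_pos.ne'),
    zero_smul]

theorem eq_zero_of_hp {f : G → ℂ} (hf : Cl f) (h : ∀ χ ∈ irr G, hp f χ = 0) : f = 0 := by
  classical
  have k : ∀ φ ∈ virt G, ∀ x, ∑ g, star (f g) * φ (g * x) = 0 := fun φ hφ x => by
    induction hφ using Submodule.span_induction with
    | mem χ hχ =>
      refine ChrA_schur (f := star f) (fun g y => congrArg star (hf g y)) hχ ?_ x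
      have := congrArg star ((mul_eq_zero.1 (h χ hχ)).resolve_left (inv_ne_zero card_ne_zero))
      simpa only [star_sum, star_mul', star_star, star_zero, Pi.star_apply] using this
    | zero => simp
    | add a b _ _ h1 h2 => simp only [Pi.add_apply, mul_add, Finset.sum_add_distrib, h1, h2, add_zero]
    | smul z a _ h1 => simp only [Pi.smul_apply, mul_smul_comm, ← Finset.smul_sum, h1, smul_zero]
  funext x
  have := k _ (perm_char_mem_virt (MulAction.toPermHom G G)) x⁻¹
  rw [Finset.sum_eq_single_of_mem x (Finset.mem_univ x) fun g _ n => by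
    simp [mul_inv_eq_one, n]] at this
  simpa using this

theorem complete {f : G → ℂ} (hf : Cl f) :
    f = ∑ χ ∈ (irr_finite G).toFinset, hp f χ • χ := by
  refine sub_eq_zero.1 (eq_zero_of_hp ((ChrA_S G).sub_mem hf
    (sum_mem fun χ hχ => Submodule.smul_mem _ _ (irr_cl ((Set.Finite.mem_toFinset _).1 hχ))))
    fun χ hχ => (map_sub (ChrA_L χ) _ _).trans (sub_eq_zero.2 ?_))
  exact (ChrA_coef _ (hp f) (v := id) (fun _ => (Set.Finite.mem_toFinset _).1) (Set.injOn_id _)
    ((Set.Finite.mem_toFinset _).2 hχ)).symm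

theorem ChrA_ch {f : G → ℂ} (hf : Cl f) (h : ∀ χ ∈ irr G, ∃ k : ℕ, hp f χ = k) : f ∈ Ch G := by
  rw [complete hf]
  refine sum_mem fun χ hχ => ?_
  rw [Set.Finite.mem_toFinset] at hχ
  obtain ⟨k, hk⟩ := h χ hχ
  rw [hk, Nat.cast_smul_eq_nsmul]
  exact nsmul_mem (AddSubmonoid.subset_closure hχ) k

theorem char_mem_ch {V : Type} [AddCommGroup V] [Module ℂ V] [FiniteDimensional ℂ V]
    (ρ : Representation ℂ G V) : ρ.character ∈ Ch G := by
  have := invertibleOfNonzero (card_ne_zero (G := G))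
  refine ChrA_ch ρ.char_conj fun χ hχ => ?_
  rw [ChrA_ip _ (irr_conj hχ)]
  obtain ⟨W, -, rfl⟩ := hχ
  exact ⟨_, Representation.card_inv_mul_sum_char_mul_char_eq_finrank W.ρ ρ⟩

theorem ch_iff {f : G → ℂ} : f ∈ Ch G ↔ Cl f ∧ ∀ χ ∈ irr G, ∃ k : ℕ, hp f χ = k := by
  refine ⟨fun h => ?_, fun h => ChrA_ch h.1 h.2⟩
  induction h using AddSubmonoid.closure_induction with
  | mem ψ hψ =>
    refine ⟨irr_cl hψ, fun χ hχ => ?_⟩
    rw [hp_irr hψ hχ]
    split_ifs
    exacts [⟨1, Nat.cast_one.symm⟩, ⟨0, Nat.cast_zero.symm⟩]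
  | zero => exact ⟨fun _ _ => rfl, fun χ _ => ⟨0, (map_zero (ChrA_L χ)).trans Nat.cast_zero.symm⟩⟩
  | add a b _ _ h1 h2 =>
    refine ⟨(ChrA_S G).add_mem h1.1 h2.1, fun χ hχ => ?_⟩
    obtain ⟨k, hk⟩ := h1.2 χ hχ
    obtain ⟨l, hl⟩ := h2.2 χ hχ
    exact ⟨k + l, by rw [hp_add_left, hk, hl, Nat.cast_add]⟩

theorem virt_iff {f : G → ℂ} : f ∈ virt G ↔ Cl f ∧ ∀ χ ∈ irr G, ∃ k : ℤ, hp f χ = k := by
  refine ⟨fun h => ?_, fun h => ?_⟩
  · induction h using Submodule.span_induction with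
    | mem ψ hψ =>
      refine ⟨irr_cl hψ, fun χ hχ => ?_⟩
      obtain ⟨k, hk⟩ := (ch_iff.1 (AddSubmonoid.subset_closure hψ)).2 χ hχ
      exact ⟨k, by rw [hk, Int.cast_natCast]⟩
    | zero => exact ⟨fun _ _ => rfl, fun χ _ => ⟨0, (map_zero (ChrA_L χ)).trans Int.cast_zero.symm⟩⟩
    | add a b _ _ h1 h2 =>
      refine ⟨(ChrA_S G).add_mem h1.1 h2.1, fun χ hχ => ?_⟩
      obtain ⟨k, hk⟩ := h1.2 χ hχ
      obtain ⟨l, hl⟩ := h2.2 χ hχ
      exact ⟨k + l, by rw [hp_add_left, hk, hl, Int.cast_add]⟩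
    | smul z a _ h1 =>
      refine ⟨zsmul_mem (K := ChrA_S G) h1.1 z, fun χ hχ => ?_⟩
      obtain ⟨k, hk⟩ := h1.2 χ hχ
      exact ⟨z * k, by rw [← Int.cast_smul_eq_zsmul ℂ, hp_smul_left, hk, Int.cast_mul]⟩
  · rw [complete h.1]
    refine sum_mem fun χ hχ => ?_
    rw [Set.Finite.mem_toFinset] at hχ
    obtain ⟨k, hk⟩ := h.2 χ hχ
    rw [hk, Int.cast_smul_eq_zsmul]
    exact Submodule.smul_mem _ k (Submodule.subset_span hχ)

omit [Fintype G] in
theorem virt_sub {f : G → ℂ} : f ∈ virt G ↔ ∃ a ∈ Ch G, ∃ b ∈ Ch G, f = a - b := by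
  have k : ∀ a ∈ Ch G, a ∈ virt G := fun a ha =>
    (AddSubmonoid.closure_le (S := (virt G).toAddSubmonoid)).2 Submodule.subset_span ha
  refine ⟨fun h => ?_, fun ⟨a, ha, b, hb, e⟩ => e ▸ sub_mem (k a ha) (k b hb)⟩
  rw [← Submodule.mem_toAddSubgroup, Submodule.span_int_eq_addSubgroupClosure] at h
  induction h using AddSubgroup.closure_induction with
  | mem χ hχ => exact ⟨χ, AddSubmonoid.subset_closure hχ, 0, zero_mem _, (sub_zero _).symm⟩
  | zero => exact ⟨0, zero_mem _, 0, zero_mem _, (sub_zero _).symm⟩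
  | add _ _ _ _ h1 h2 =>
    obtain ⟨a, ha, b, hb, rfl⟩ := h1
    obtain ⟨c, hc, d, hd, rfl⟩ := h2
    exact ⟨_, add_mem ha hc, _, add_mem hb hd, sub_add_sub_comm _ _ _ _⟩
  | neg _ _ h1 =>
    obtain ⟨a, ha, b, hb, rfl⟩ := h1
    exact ⟨b, hb, a, ha, neg_sub _ _⟩

theorem hp_ch {f g : G → ℂ} (hf : f ∈ Ch G) (hg : g ∈ Ch G) : ∃ k : ℕ, hp f g = k := by
  induction hg using AddSubmonoid.closure_induction with
  | mem χ hχ => exact (ch_iff.1 hf).2 χ hχ
  | zero => exact ⟨0, (map_zero (ChrA_R f)).trans Nat.cast_zero.symm⟩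
  | add a b _ _ h1 h2 =>
    obtain ⟨k, hk⟩ := h1
    obtain ⟨l, hl⟩ := h2
    exact ⟨k + l, (map_add (ChrA_R f) a b).trans
      ((congrArg₂ (· + ·) hk hl).trans (Nat.cast_add k l).symm)⟩

theorem hp_virt {f g : G → ℂ} (hf : f ∈ virt G) (hg : g ∈ virt G) : ∃ k : ℤ, hp f g = k := by
  induction hg using Submodule.span_induction with
  | mem χ hχ => exact (virt_iff.1 hf).2 χ hχ
  | zero => exact ⟨0, (map_zero (ChrA_R f)).trans Int.cast_zero.symm⟩
  | add a b _ _ h1 h2 =>
    obtain ⟨k, hk⟩ := h1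
    obtain ⟨l, hl⟩ := h2
    exact ⟨k + l, (map_add (ChrA_R f) a b).trans
      ((congrArg₂ (· + ·) hk hl).trans (Int.cast_add k l).symm)⟩
  | smul z a _ h1 =>
    obtain ⟨k, hk⟩ := h1
    exact ⟨z * k, (map_zsmul (ChrA_R f) z a).trans
      ((congrArg (z • ·) hk).trans (by simp))⟩

theorem irr_of_hp {f : G → ℂ} (hf : f ∈ virt G) (h : hp f f = 1) : f ∈ irr G ∨ -f ∈ irr G := by
  have k : ∀ g, f g⁻¹ = star (f g) := fun g => by
    clear h
    induction hf using Submodule.span_induction with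
    | mem χ hχ => exact irr_conj hχ g
    | zero => exact (star_zero _).symm
    | add a b _ _ h1 h2 => rw [Pi.add_apply, Pi.add_apply, star_add, h1, h2]
    | smul z a _ h1 => rw [Pi.smul_apply, Pi.smul_apply, star_zsmul, h1]
  obtain ⟨χ, hχ, rfl | rfl⟩ := irr_of_norm_one hf ((ChrA_ip f k).symm.trans h)
  exacts [.inl hχ, .inr (by rwa [neg_neg])]

theorem sub_mem_ch {f χ : G → ℂ} (hf : f ∈ Ch G) (hχ : χ ∈ irr G) (h : hp f χ ≠ 0) :
    f - χ ∈ Ch G := by
  obtain ⟨h1, h2⟩ := ch_iff.1 hf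
  refine ChrA_ch ((ChrA_S G).sub_mem h1 (irr_cl hχ)) fun ψ hψ => ?_
  obtain ⟨k, hk⟩ := h2 ψ hψ
  rw [show hp (f - χ) ψ = hp f ψ - hp χ ψ from map_sub (ChrA_L ψ) f χ, hp_irr hχ hψ]
  split_ifs with e
  · subst e
    cases k with
    | zero => exact (h (hk.trans Nat.cast_zero)).elim
    | succ k => exact ⟨k, by rw [hk, Nat.cast_succ, add_sub_cancel_right]⟩
  · exact ⟨k, by rw [hk, sub_zero]⟩

omit [Fintype G] in
theorem Ch.exists_rep {f : G → ℂ} (hf : f ∈ Ch G) :
    ∃ (d : ℕ) (ρ : G →* Matrix (Fin d) (Fin d) ℂ), ∀ g, f g = (ρ g).trace := by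
  suffices k : ∃ V : FDRep ℂ G, f = V.character by
    obtain ⟨V, rfl⟩ := k
    exact ChrA_mat V
  induction hf using AddSubmonoid.closure_induction with
  | mem χ hχ => exact hχ.imp fun _ k => k.2
  | zero =>
    refine ⟨FDRep.of (1 : Representation ℂ G (Fin 0 → ℂ)), funext fun g => ?_⟩
    exact (map_zero (LinearMap.trace ℂ (Fin 0 → ℂ))).symm.trans
      (congrArg _ (Subsingleton.elim _ _))
  | add _ _ _ _ h1 h2 =>
    obtain ⟨V, rfl⟩ := h1
    obtain ⟨W, rfl⟩ := h2
    exact ⟨FDRep.of (Representation.prod V.ρ W.ρ), funext fun g =>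
      (LinearMap.trace_prodMap' (V.ρ g) (W.ρ g)).symm⟩

/-! ### Task PD ChrB -/

theorem Ch.mul {f g : G → ℂ} (hf : f ∈ Ch G) (hg : g ∈ Ch G) : f * g ∈ Ch G := by
  induction hf using AddSubmonoid.closure_induction with
  | zero => rw [zero_mul]; exact zero_mem _
  | add a b _ _ ha hb => rw [add_mul]; exact add_mem ha hb
  | mem a ha =>
    induction hg using AddSubmonoid.closure_induction with
    | zero => rw [mul_zero]; exact zero_mem _
    | add c d _ _ hc hd => rw [mul_add]; exact add_mem hc hd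
    | mem b hb =>
      obtain ⟨V, -, rfl⟩ := ha
      obtain ⟨W, -, rfl⟩ := hb
      have := char_mem_ch (Representation.tprod V.ρ W.ρ)
      rw [Representation.char_tensor] at this
      exact this

omit [Fintype G] in
theorem Ch.comp {f : G → ℂ} (hf : f ∈ Ch G) (φ : H →* G) : (fun x => f (φ x)) ∈ Ch H := by
  induction hf using AddSubmonoid.closure_induction with
  | zero => exact zero_mem _
  | add a b _ _ ha hb => exact add_mem ha hb
  | mem a ha =>
    obtain ⟨V, -, rfl⟩ := ha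
    exact char_mem_ch (V := V) (MonoidHom.comp V.ρ φ)

theorem Ch.conj {f : G → ℂ} (hf : f ∈ Ch G) : star f ∈ Ch G := by
  induction hf using AddSubmonoid.closure_induction with
  | zero => rw [star_zero]; exact zero_mem _
  | add a b _ _ ha hb => rw [star_add]; exact add_mem ha hb
  | mem a ha =>
    have h1 : star a = fun g => a g⁻¹ := funext fun g => (irr_conj ha g).symm
    obtain ⟨V, -, rfl⟩ := ha
    have h2 := char_mem_ch (Representation.dual V.ρ)
    rw [funext (Representation.char_dual V.ρ)] at h2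
    rw [h1]
    exact h2

theorem virt_mul {f g : G → ℂ} (hf : f ∈ virt G) (hg : g ∈ virt G) : f * g ∈ virt G := by
  obtain ⟨a, ha, b, hb, rfl⟩ := virt_sub.1 hf
  obtain ⟨c, hc, d, hd, rfl⟩ := virt_sub.1 hg
  exact virt_sub.2 ⟨a * c + b * d, add_mem (Ch.mul ha hc) (Ch.mul hb hd), a * d + b * c,
    add_mem (Ch.mul ha hd) (Ch.mul hb hc), by ring⟩

omit [Fintype G] in
theorem virt_comp {f : G → ℂ} (hf : f ∈ virt G) (φ : H →* G) : (fun x => f (φ x)) ∈ virt H := by
  obtain ⟨a, ha, b, hb, rfl⟩ := virt_sub.1 hf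
  exact virt_sub.2 ⟨_, Ch.comp ha φ, _, Ch.comp hb φ, rfl⟩

theorem virt_star {f : G → ℂ} (hf : f ∈ virt G) : star f ∈ virt G := by
  obtain ⟨a, ha, b, hb, rfl⟩ := virt_sub.1 hf
  exact virt_sub.2 ⟨_, Ch.conj ha, _, Ch.conj hb, star_sub _ _⟩

theorem hp_equiv (e : H ≃* G) (f g : G → ℂ) :
    hp (fun x => f (e x)) (fun x => g (e x)) = hp f g := by
  rw [hp, hp, Nat.card_congr e.toEquiv]
  congr 1
  exact e.toEquiv.sum_comp fun x => f x * star (g x)

omit [Fintype G] in
theorem ChrB_virt {f : G → ℂ} (hf : f ∈ Ch G) : f ∈ virt G :=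
  virt_sub.2 ⟨f, hf, 0, zero_mem _, (sub_zero f).symm⟩

theorem ChrB_irr {f : G → ℂ} (hf : f ∈ Ch G) (h : hp f f = 1) : f ∈ irr G := by
  refine (irr_of_hp (ChrB_virt hf) h).resolve_right fun h1 => ?_
  obtain ⟨k, hk⟩ := hp_ch (AddSubmonoid.subset_closure h1) hf
  rw [← neg_one_smul ℂ f, hp_smul_left, h, mul_one] at hk
  have h2 : ((k + 1 : ℕ) : ℂ) = 0 := by
    rw [Nat.cast_succ, ← hk, neg_add_cancel]
  exact Nat.succ_ne_zero k (Nat.cast_eq_zero.1 h2)

theorem irr_equiv (e : H ≃* G) {χ : G → ℂ} (h : χ ∈ irr G) : (fun x => χ (e x)) ∈ irr H := by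
  refine ChrB_irr (Ch.comp (AddSubmonoid.subset_closure h) e.toMonoidHom) ?_
  rw [hp_equiv, hp_irr h h, if_pos rfl]

theorem lin_mem_ch (ψ : G →* ℂˣ) : (fun g => (ψ g : ℂ)) ∈ Ch G := by
  let ρ : Representation ℂ G ℂ :=
    { toFun := fun g => (ψ g : ℂ) • LinearMap.id
      map_one' := by ext; simp
      map_mul' := fun g h => by ext; simp [mul_comm] }
  convert char_mem_ch ρ using 1
  ext g
  simp [Representation.character, ρ]

theorem one_mem_irr : (fun _ => 1 : G → ℂ) ∈ irr G := by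
  refine ChrB_irr (lin_mem_ch (1 : G →* ℂˣ)) ?_
  rw [hp, star_one, mul_one, Finset.sum_const, Finset.card_univ, nsmul_eq_mul, mul_one,
    ← Nat.card_eq_fintype_card, inv_mul_cancel₀ card_ne_zero]

theorem perm_mem_ch {X : Type} [Finite X] [MulAction G X] :
    (fun g : G => (Nat.card {x : X // g • x = x} : ℂ)) ∈ Ch G := by
  classical
  have := Fintype.ofFinite X
  let ρ : Representation ℂ G (X → ℂ) :=
    { toFun := fun g => LinearMap.funLeft ℂ ℂ fun x => g⁻¹ • x
      map_one' := by ext; simp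
      map_mul' := fun g h => by ext; simp [mul_smul] }
  convert char_mem_ch ρ using 1
  ext g
  rw [Representation.character, LinearMap.trace_eq_matrix_trace ℂ (Pi.basisFun ℂ X),
    Matrix.trace, Nat.card_eq_fintype_card, Fintype.card_subtype, Finset.card_filter]
  push_cast
  refine Finset.sum_congr rfl fun x _ => ?_
  simp only [Matrix.diag, LinearMap.toMatrix_apply, Pi.basisFun_apply, Pi.basisFun_repr, ρ,
    MonoidHom.coe_mk, OneHom.coe_mk, LinearMap.funLeft_apply, Pi.single_apply]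
  congr 1
  rw [inv_smul_eq_iff]
  exact propext eq_comm

theorem virt_int {f : G → ℂ} (hf : f ∈ virt G) (g : G) : IsIntegral ℤ (f g) := by
  induction hf using Submodule.span_induction with
  | zero => exact isIntegral_zero
  | add a b _ _ ha hb => exact ha.add hb
  | smul k a _ ha => exact ha.zsmul k
  | mem a ha =>
    obtain ⟨V, -, rfl⟩ := ha
    rw [FDRep.character, Module.End.trace_eq_sum_roots_charpoly_of_splits (IsAlgClosed.splits _)]
    refine IsIntegral.multiset_sum fun μ hμ => ?_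
    have h1 := (Module.End.hasEigenvalue_iff_isRoot_charpoly (V.ρ g) μ).2
      (Polynomial.isRoot_of_mem_roots hμ)
    obtain ⟨v, hv⟩ := (h1.pow (orderOf g)).exists_hasEigenvector
    have h2 := hv.apply_eq_smul
    rw [← map_pow, pow_orderOf_eq_one, map_one, Module.End.one_apply] at h2
    have h3 : μ ^ orderOf g = 1 :=
      smul_left_injective ℂ hv.2 (h2.symm.trans (one_smul ℂ v).symm)
    exact IsIntegral.of_pow (orderOf_pos g) (h3 ▸ isIntegral_one)

open scoped Classical in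
theorem push_mem_ch {f : G → ℂ} (hf : f ∈ Ch G) (π : G →* H) (hπ : Function.Surjective π) :
    (fun y => (Nat.card H : ℂ) / (Nat.card G : ℂ) * ∑ x with π x = y, f x) ∈ Ch H := by
  refine ch_iff.2 ⟨fun y h => ?_, fun χ hχ => ?_⟩
  · obtain ⟨a, rfl⟩ := hπ h
    beta_reduce
    congr 1
    refine (Finset.sum_equiv (MulAut.conj a).toEquiv (fun x => ?_) fun x _ => ?_).symm
    · simp
    · exact ((ch_iff.1 hf).1 x a).symm
  · obtain ⟨k, hk⟩ := hp_ch hf (Ch.comp (AddSubmonoid.subset_closure hχ) π)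
    refine ⟨k, Eq.trans ?_ hk⟩
    rw [hp, hp, ← Finset.sum_fiberwise Finset.univ π, Finset.mul_sum, Finset.mul_sum]
    refine Finset.sum_congr rfl fun y _ => ?_
    have h1 : ∑ x with π x = y, f x * star (χ (π x)) = (∑ x with π x = y, f x) * star (χ y) := by
      rw [Finset.sum_mul]
      exact Finset.sum_congr rfl fun x hx => by rw [(Finset.mem_filter.1 hx).2]
    rw [h1]
    have := card_ne_zero (G := H)
    field_simp

theorem part_mem_ch {f : G × H → ℂ} (hf : f ∈ Ch (G × H)) (φ : H →* ℂˣ) :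
    (fun g => (Nat.card H : ℂ)⁻¹ * ∑ a, f (g, a) * star (φ a : ℂ)) ∈ Ch G := by
  refine ch_iff.2 ⟨fun g h => ?_, fun χ hχ => ?_⟩
  · beta_reduce
    congr 1
    refine Finset.sum_congr rfl fun a _ => ?_
    have := (ch_iff.1 hf).1 (g, a) (h, 1)
    simp only [Prod.mk_mul_mk, Prod.inv_mk, one_mul, inv_one, mul_one] at this
    rw [this]
  · obtain ⟨k, hk⟩ := hp_ch hf (Ch.mul (Ch.comp (AddSubmonoid.subset_closure hχ) (MonoidHom.fst G H))
      (lin_mem_ch (φ.comp (MonoidHom.snd G H))))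
    refine ⟨k, Eq.trans ?_ hk⟩
    rw [hp, hp, Fintype.sum_prod_type, Nat.card_prod, Nat.cast_mul, mul_inv, mul_assoc,
      Finset.mul_sum _ _ (Nat.card H : ℂ)⁻¹]
    congr 1
    refine Finset.sum_congr rfl fun g _ => ?_
    rw [mul_assoc, Finset.sum_mul]
    congr 1
    refine Finset.sum_congr rfl fun a _ => ?_
    simp only [Pi.mul_apply, star_mul', MonoidHom.coe_fst, MonoidHom.comp_apply, MonoidHom.coe_snd]
    ring

theorem avg_int {f : G → ℂ} (hf : f ∈ virt G) (s : G) (ι : H →* G) (h : ∀ u, Commute s (ι u)) :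
    IsIntegral ℤ ((Nat.card H : ℂ)⁻¹ * ∑ u, f (s * ι u)) := by
  have key : ∀ a ∈ Ch G, IsIntegral ℤ ((Nat.card H : ℂ)⁻¹ * ∑ u, a (s * ι u)) := fun a ha => by
    have := Fintype.ofFinite (Subgroup.zpowers s)
    have hc : ∀ (m : Subgroup.zpowers s) (u : H), Commute ((Subgroup.zpowers s).subtype m) (ι u) := by
      rintro ⟨_, k, rfl⟩ u
      exact (h u).zpow_left k
    have h1 := virt_int (ChrB_virt (part_mem_ch
      (Ch.comp ha ((Subgroup.zpowers s).subtype.noncommCoprod ι hc)) 1)) ⟨s, Subgroup.mem_zpowers s⟩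
    simpa using h1
  obtain ⟨a, ha, b, hb, rfl⟩ := virt_sub.1 hf
  simp only [Pi.sub_apply, Finset.sum_sub_distrib, mul_sub]
  exact (key a ha).sub (key b hb)

/-! ### Task PD ChrC -/

theorem ChrC_path {ι : Type} [Fintype ι] [DecidableEq ι] (M : Matrix ι ι ℂ) (n : ℕ)
    (w : ι → ι → ℂ) : ∑ a : Fin (n + 1) → ι, w (a 0) (a (Fin.last n)) *
      ∏ s : Fin n, M (a s.castSucc) (a s.succ) = ∑ i, ∑ j, w i j * (M ^ n) i j := by
  induction n generalizing w with
  | zero =>
    rw [← (Equiv.funUnique (Fin 1) ι).symm.sum_comp]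
    simp [Matrix.one_apply]
  | succ n ih =>
    rw [← (Fin.consEquiv fun _ => ι).sum_comp, Fintype.sum_prod_type, Finset.sum_comm]
    have e : ∀ a : Fin (n + 1) → ι, ∑ i, w (Fin.consEquiv (fun _ => ι) (i, a) 0)
        (Fin.consEquiv (fun _ => ι) (i, a) (Fin.last (n + 1))) *
        ∏ s : Fin (n + 1), M (Fin.consEquiv (fun _ => ι) (i, a) s.castSucc)
          (Fin.consEquiv (fun _ => ι) (i, a) s.succ) =
        (∑ i, w i (a (Fin.last n)) * M i (a 0)) * ∏ s : Fin n, M (a s.castSucc) (a s.succ) :=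
      fun a => by
        rw [Finset.sum_mul]
        refine Finset.sum_congr rfl fun i _ => ?_
        rw [Fin.prod_univ_succ, mul_assoc]
        rfl
    rw [Finset.sum_congr rfl fun a _ => e a, ih fun j k => ∑ i, w i k * M i j]
    simp only [pow_succ', Matrix.mul_apply, Finset.sum_mul, Finset.mul_sum, mul_assoc]
    rw [Finset.sum_comm]
    refine (Finset.sum_congr rfl fun _ _ => Finset.sum_comm).trans Finset.sum_comm

theorem ChrC_cyc {ι : Type} [Fintype ι] [DecidableEq ι] (M : Matrix ι ι ℂ) (l : ℕ) [NeZero l] :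
    ∑ a : ZMod l → ι, ∏ s, M (a s) (a (s + 1)) = (M ^ l).trace := by
  obtain ⟨n, rfl⟩ := Nat.exists_eq_succ_of_ne_zero (NeZero.ne l)
  change ∑ a : Fin (n + 1) → ι, ∏ s, M (a s) (a (s + 1)) = _
  simp only [Fin.prod_univ_castSucc, Fin.coeSucc_eq_succ, Fin.last_add_one]
  rw [Finset.sum_congr rfl fun _ _ => mul_comm _ _, ChrC_path M n fun i j => M j i, pow_succ',
    Finset.sum_comm]
  rfl

omit [Fintype G] in
/-- The action of `G × ZMod l` on the tensor power. -/
noncomputable def ChrC_rep {ι : Type} [Fintype ι] [DecidableEq ι] (ρ : G →* Matrix ι ι ℂ) (l : ℕ)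
    [NeZero l] : G × Multiplicative (ZMod l) →* Matrix (ZMod l → ι) (ZMod l → ι) ℂ where
  toFun x := Matrix.of fun a b => ∏ t, ρ x.1 (a t) (b (t + x.2.toAdd))
  map_one' := by
    ext a b
    simp [Matrix.one_apply, Finset.prod_boole, funext_iff]
  map_mul' x y := by
    ext a b
    simp only [Matrix.of_apply, Matrix.mul_apply, Prod.fst_mul, Prod.snd_mul, map_mul, toAdd_mul,
      Fintype.prod_sum]
    rw [← (Equiv.arrowCongr (Equiv.subRight x.2.toAdd) (Equiv.refl ι)).sum_comp]
    refine Finset.sum_congr rfl fun m _ => ?_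
    rw [Finset.prod_mul_distrib, ← Equiv.prod_comp (Equiv.addRight x.2.toAdd) fun t =>
      ρ y.1 (m t) (b (t + y.2.toAdd))]
    simp [add_assoc]

theorem adams {l : ℕ} (hl : l.Prime) {f : G → ℂ} (hf : f ∈ Ch G) :
    (fun g => (f g ^ l - f (g ^ l)) / l) ∈ Ch G := by
  have := Fact.mk hl
  obtain ⟨d, ρ, h⟩ := Ch.exists_rep hf
  have k := part_mem_ch (char_mem_ch (V := (ZMod l → Fin d) → ℂ)
    (Matrix.toLinAlgEquiv'.toMonoidHom.comp (ChrC_rep ρ l)))
    (ZMod.stdAddChar (N := l)).toMonoidHom.toHomUnits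
  convert k using 2 with g
  have t : ∀ c : Multiplicative (ZMod l), Representation.character
      (Matrix.toLinAlgEquiv'.toMonoidHom.comp (ChrC_rep ρ l)) (g, c) =
      f (g ^ l) + if c = 1 then f g ^ l - f (g ^ l) else 0 := fun c => by
    refine (Matrix.trace_toLin'_eq _).trans ?_
    change ∑ a : ZMod l → Fin d, ∏ t, ρ g (a t) (a (t + c.toAdd)) = _
    split_ifs with e
    · simp only [e, toAdd_one, add_zero]
      rw [← Fintype.prod_sum fun _ j => ρ g j j, Finset.prod_const, Finset.card_univ, ZMod.card,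
        add_sub_cancel, h]
      rfl
    · have c0 : c.toAdd ≠ 0 := e
      rw [add_zero, h, map_pow, ← ChrC_cyc,
        ← (Equiv.arrowCongr (Equiv.mulLeft₀ _ c0) (Equiv.refl _)).sum_comp]
      refine Finset.sum_congr rfl fun a _ => ?_
      rw [← Equiv.prod_comp (Equiv.mulLeft₀ _ c0)]
      simp [mul_add, c0]
  have s : ∑ c : Multiplicative (ZMod l), ZMod.stdAddChar c.toAdd = 0 :=
    (Multiplicative.toAdd.sum_comp _).trans (AddChar.sum_eq_zero_of_ne_one (by
      simpa using ZMod.isPrimitive_stdAddChar l one_ne_zero))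
  simp only [t, add_mul, Finset.sum_add_distrib, ← Finset.mul_sum, ← star_sum, ite_mul, zero_mul,
    Finset.sum_ite_eq', Finset.mem_univ, if_true, map_one, Units.val_one, star_one, mul_one]
  change _ = _ * (_ * star (∑ c : Multiplicative (ZMod l), ZMod.stdAddChar c.toAdd) + _)
  rw [s, star_zero, mul_zero, zero_add, Nat.card_congr Multiplicative.toAdd, Nat.card_zmod,
    div_eq_inv_mul]

end PD
end

-- merged part: Pool.Agent.Work.MP_cea1f0_al.D.Osi
section
/-!
# The theorem of Osima  (tasks PD OsiA, PD OsiB)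

* `conv_irr`: for fixed `χ` both sides of the operator identity `∑ h, χ h⁻¹ • ρ' h = scalar` (Schur), the trace gives the scalar.
* `col_orth`: `complete` applied to the class function `h ↦ #{x | g * x * h = x}`.
* `osima`: `e g = (card G)⁻¹ * ∑ χ ∈ E, χ 1 * χ g⁻¹`.  Put `Θ x y = ∑ χ ∈ E, χ x * star (χ y)`.  The numbers `hp (tau p χ) χ'` vanish for
  `χ ∈ E`, `χ' ∉ E`, and `tau p` is self adjoint, so `∑ χ ∈ E, tau p χ x * star (χ y) = ∑ χ ∈ E, χ x * star (tau p χ y)`.  So `Θ x y = 0` if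
  exactly one of `x`, `y` is `p`-regular.  For `p`-regular `x` and a Sylow subgroup `S`: `Θ x 1 = ∑ y ∈ S, Θ x y` is `card S` times an
  algebraic integer (`avg_int` with `s = 1`, `virt_int`).  Algebraic integers lie in `O` (integrally closed), and natural numbers
  prime to `p` are units of `O` (`inv_mem_O`).
-/

namespace PD

open Pool.Agent.Lib.SymRep Pool.Agent.Puig

variable {G : Type} [Group G] [Fintype G]

/-! ### Task PD OsiA -/

theorem OsA_conv {f χ : G → ℂ} (hf : Cl f) (hχ : χ ∈ irr G) (x : G) :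
    χ 1 * ∑ g, f g * χ (g * x) = (∑ g, f g * χ g) * χ x := by
  classical
  have k (y : G) : ∑ g, (χ 1 * f g - if g = 1 then ∑ g, f g * χ g else 0) * χ (g * y) =
      χ 1 * ∑ g, f g * χ (g * y) - (∑ g, f g * χ g) * χ y := by
    simp only [sub_mul, Finset.sum_sub_distrib, ite_mul, zero_mul, Finset.sum_ite_eq',
      Finset.mem_univ, if_true, one_mul, mul_assoc, ← Finset.mul_sum]
  refine sub_eq_zero.1 ((k x).symm.trans (ChrA_schur (fun g h => ?_) hχ ?_ x))
  · simp only [hf g h, conj_eq_one_iff]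
  · have := k 1
    simp only [mul_one] at this
    rw [this, mul_comm, sub_self]

open scoped Classical in
theorem conv_irr {χ χ' : G → ℂ} (h : χ ∈ irr G) (h' : χ' ∈ irr G) (x : G) :
    (Nat.card G : ℂ)⁻¹ * χ 1 * ∑ g, χ g⁻¹ * χ' (g * x) = if χ = χ' then χ x else 0 := by
  have c : Cl fun g => χ g⁻¹ := fun g k => by
    simpa only [mul_inv_rev, inv_inv, mul_assoc] using irr_cl h g⁻¹ k
  have e := ip_irr h' h
  simp only [ip, mul_comm (χ' _)] at e
  split_ifs with k
  · subst k
    rw [mul_assoc, OsA_conv c h, ← mul_assoc, e, if_pos rfl, one_mul]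
  · rw [if_neg (Ne.symm k)] at e
    rw [ChrA_schur c h' ((mul_eq_zero.1 e).resolve_left (inv_ne_zero card_ne_zero)), mul_zero]

theorem bitr_eq (a b : G → ℂ) : bitr a b =
    ∑ χ ∈ (irr_finite G).toFinset, (∑ g, a g * χ g) * ∑ g, b g * χ g := by
  have c : Cl fun h => ∑ g, b (g⁻¹ * h⁻¹ * g) := fun h k =>
    Fintype.sum_equiv (Equiv.mulLeft k⁻¹) _ _ fun g => by simp [mul_assoc]
  have e (χ) (hχ : χ ∈ irr G) : hp (fun h => ∑ g, b (g⁻¹ * h⁻¹ * g)) χ = ∑ g, b g * χ g := by
    have k (g : G) : ∑ h, b (g⁻¹ * h⁻¹ * g) * star (χ h) = ∑ h, b h * χ h :=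
      Fintype.sum_equiv ((Equiv.inv G).trans (MulAut.conj g⁻¹).toEquiv) _ _ fun h => by
        rw [← irr_conj hχ, ← irr_cl hχ h⁻¹ g⁻¹]
        simp
    simp only [hp, Finset.sum_mul]
    rw [Finset.sum_comm]
    simp only [k]
    rw [Finset.sum_const, Finset.card_univ, nsmul_eq_mul, ← Nat.card_eq_fintype_card,
      inv_mul_cancel_left₀ card_ne_zero]
  have t (h : G) : ∑ g, b (g⁻¹ * h⁻¹ * g) =
      ∑ χ ∈ (irr_finite G).toFinset, (∑ g, b g * χ g) * χ h := by
    refine (congrFun (complete c) h).trans ((Finset.sum_apply _ _ _).trans ?_)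
    exact Finset.sum_congr rfl fun χ hχ => by
      rw [e χ ((Set.Finite.mem_toFinset _).1 hχ), Pi.smul_apply, smul_eq_mul]
  rw [bitr, Finset.sum_comm]
  simp only [← Finset.mul_sum, t]
  simp only [Finset.mul_sum _ _ (a _)]
  rw [Finset.sum_comm]
  refine Finset.sum_congr rfl fun χ _ => ?_
  rw [Finset.sum_mul]
  exact Finset.sum_congr rfl fun g _ => by ring

theorem inv_mem_O {p : ℕ} (hp : p.Prime) {O : ValuationSubring ℂ} (hO : (p : ℂ) ∈ O.nonunits) {c : ℕ}
    (hc : c.Coprime p) : (c : ℂ)⁻¹ ∈ O := by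
  by_contra h
  have h1 := O.mem_nonunits_iff.1 (O.mem_nonunits_iff_or.2 (.inr h))
  have h2 := O.mem_nonunits_iff.1 hO
  obtain ⟨a, b, e⟩ := Nat.isCoprime_iff_coprime.2 hc
  have k (n : ℤ) {z : ℂ} (hz : O.valuation z < 1) : O.valuation (n * z) < 1 := by
    rw [map_mul]
    exact (mul_le_of_le_one_left' ((O.valuation_le_one_iff _).2 (intCast_mem O n))).trans_lt hz
  have e' : (a : ℂ) * c + b * p = 1 := by exact_mod_cast congrArg (Int.cast : ℤ → ℂ) e
  have := O.valuation.map_add_lt (k a h1) (k b h2)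
  rw [e', map_one] at this
  exact this.false

theorem int_mem_O (O : ValuationSubring ℂ) {z : ℂ} (hz : IsIntegral ℤ z) : z ∈ O := by
  obtain ⟨y, rfl⟩ := (IsIntegrallyClosed.isIntegral_iff (R := O)).1 hz.tower_top
  exact y.2

theorem exists_eps {p : ℕ} (hp : p.Prime) {O : ValuationSubring ℂ} (hO : (p : ℂ) ∈ O.nonunits)
    {U : Type} [Group U] [Fintype U] (ι : U →* G) (ψ : U →* ℂˣ) (hU : (Nat.card U).Coprime p) :
    ∃ ε : G → ℂ, (∀ g, ε g ∈ O) ∧ cv ε ε = ε ∧
      ∀ f : G → ℂ, ∑ g, ε g * f g = (Nat.card U : ℂ)⁻¹ * ∑ u, f (ι u) * star (ψ u : ℂ) := by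
  classical
  obtain ⟨ε, hε⟩ : ∃ ε : G → ℂ, ∀ g,
      ε g = (Nat.card U : ℂ)⁻¹ * ∑ u, if ι u = g then star (ψ u : ℂ) else 0 := ⟨_, fun _ => rfl⟩
  have h3 (f : G → ℂ) :
      ∑ g, ε g * f g = (Nat.card U : ℂ)⁻¹ * ∑ u, f (ι u) * star (ψ u : ℂ) := by
    simp only [hε, mul_assoc, ← Finset.mul_sum, Finset.sum_mul]
    rw [Finset.sum_comm]
    simp only [ite_mul, zero_mul, Finset.sum_ite_eq, Finset.mem_univ, if_true, mul_comm (f _)]
  refine ⟨ε, fun g => ?_, funext fun g => ?_, h3⟩
  · rw [hε]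
    refine mul_mem (inv_mem_O hp hO hU) (sum_mem fun u _ => ?_)
    split_ifs
    · refine int_mem_O O (IsIntegral.of_pow (Nat.card_pos (α := U)) ?_)
      rw [← star_pow, ← Units.val_pow_eq_pow_val, ← map_pow, pow_card_eq_one', map_one,
        Units.val_one, star_one]
      exact isIntegral_one
    · exact zero_mem _
  · have k (u : U) : ε ((ι u)⁻¹ * g) * star (ψ u : ℂ) = ε g := by
      rw [hε, hε, mul_assoc, Finset.sum_mul]
      refine congrArg _ (Fintype.sum_equiv (Equiv.mulLeft u) _ _ fun v => ?_)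
      simp only [Equiv.coe_mulLeft, map_mul, eq_inv_mul_iff_mul_eq, ite_mul, zero_mul,
        Units.val_mul, star_mul]
    refine (h3 fun h => ε (h⁻¹ * g)).trans ?_
    simp only [k]
    rw [Finset.sum_const, Finset.card_univ, nsmul_eq_mul, ← Nat.card_eq_fintype_card,
      inv_mul_cancel_left₀ card_ne_zero]

/-! ### Task PD OsiB -/

theorem OsB_adj (p : ℕ) (f g : G → ℂ) : hp (tau p f) g = star (hp (tau p g) f) := by
  rw [hp_star, hp, hp]
  congr 1
  refine Finset.sum_congr rfl fun x _ => ?_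
  simp only [tau]
  split_ifs <;> simp

theorem OsB_sym {p : ℕ} {E : Finset (G → ℂ)} (hE : ∀ χ ∈ E, χ ∈ irr G)
    (ht : ∀ χ ∈ E, tau p χ ∈ Submodule.span ℂ (E : Set (G → ℂ))) (x y : G) :
    ∑ χ ∈ E, tau p χ x * star (χ y) = ∑ χ ∈ E, χ x * star (tau p χ y) := by
  have k : ∀ χ ∈ E, ∀ z, tau p χ z = ∑ ψ ∈ E, hp (tau p χ) ψ * ψ z := fun χ hχ z => by
    obtain ⟨c, -, e⟩ := Submodule.mem_span_finset.1 (ht χ hχ)
    have e1 : ∀ ψ ∈ E, hp (tau p χ) ψ = c ψ := fun ψ hψ => by
      rw [← e]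
      exact ChrA_coef E c (v := id) hE (Set.injOn_id _) hψ
    rw [Finset.sum_congr rfl fun ψ hψ => by rw [e1 ψ hψ], ← e, Finset.sum_apply]
    rfl
  rw [Finset.sum_congr rfl fun χ hχ => by rw [k χ hχ x, Finset.sum_mul], Finset.sum_comm]
  refine Finset.sum_congr rfl fun χ hχ => ?_
  rw [k χ hχ y, star_sum, Finset.mul_sum]
  refine Finset.sum_congr rfl fun ψ _ => ?_
  rw [star_mul', ← OsB_adj]
  ring

theorem OsB_mem {p : ℕ} (hp : p.Prime) {O : ValuationSubring ℂ} (hO : (p : ℂ) ∈ O.nonunits)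
    {E : Finset (G → ℂ)} (hE : ∀ χ ∈ E, χ ∈ irr G)
    (ht : ∀ χ ∈ E, tau p χ ∈ Submodule.span ℂ (E : Set (G → ℂ))) (g : G) :
    (Nat.card G : ℂ)⁻¹ * ∑ χ ∈ E, χ 1 * star (χ g) ∈ O := by
  have := Fact.mk hp
  by_cases hg : (orderOf g).Coprime p
  · obtain ⟨S⟩ : Nonempty (Sylow p G) := inferInstance
    have := Fintype.ofFinite (S : Subgroup G)
    have e : ∑ χ ∈ E, χ 1 * star (χ g) =
        ∑ y : (S : Subgroup G), ∑ χ ∈ E, χ y * star (χ g) := by
      refine (Finset.sum_eq_single_of_mem (f := fun y : (S : Subgroup G) =>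
        ∑ χ ∈ E, χ y * star (χ g)) 1 (Finset.mem_univ _) fun y _ n => ?_).symm
      have h1 := OsB_sym hE ht y g
      have h2 : ¬ (orderOf (y : G)).Coprime p := fun c => by
        obtain ⟨k, hk⟩ := IsPGroup.iff_orderOf.1 S.isPGroup' y
        rw [Subgroup.orderOf_coe, hk] at c
        cases k with
        | zero => exact n (orderOf_eq_one_iff.1 hk)
        | succ k => exact hp.one_lt.ne' (Nat.Coprime.eq_one_of_dvd c.symm (dvd_pow_self p k.succ_ne_zero))
      simp only [tau, if_pos hg, if_neg h2, zero_mul, Finset.sum_const_zero] at h1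
      exact h1.symm
    have c0 : (Nat.card (S : Subgroup G) : ℂ) ≠ 0 := card_ne_zero
    rw [e, Finset.sum_comm, ← (S : Subgroup G).index_mul_card, Nat.cast_mul, mul_inv, mul_assoc,
      Finset.mul_sum]
    refine O.mul_mem _ _ (inv_mem_O hp hO ((Nat.coprime_comm.1
      ((Nat.Prime.coprime_iff_not_dvd hp).2 S.not_dvd_index)))) (int_mem_O O
      (IsIntegral.sum _ fun χ hχ => ?_))
    have hv : χ ∈ virt G := Submodule.subset_span (hE χ hχ)
    rw [← Finset.sum_mul, ← mul_assoc, ← irr_conj (hE χ hχ)]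
    refine IsIntegral.mul ?_ (virt_int hv _)
    simpa using avg_int hv 1 (S : Subgroup G).subtype fun u => Commute.one_left _
  · have h1 := OsB_sym hE ht 1 g
    simp only [tau, if_neg hg, orderOf_one, Nat.coprime_one_left_iff, if_true, star_zero, mul_zero,
      Finset.sum_const_zero] at h1
    rw [h1, mul_zero]
    exact O.zero_mem

theorem OsB_act {E : Finset (G → ℂ)} (hE : ∀ χ ∈ E, χ ∈ irr G) {f : G → ℂ} (hf : Cl f) (x : G) :
    ∑ g, ((Nat.card G : ℂ)⁻¹ * ∑ χ ∈ E, χ 1 * χ g⁻¹) * f (g * x) = ∑ χ ∈ E, hp f χ * χ x := by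
  classical
  have k : ∀ χ ∈ E, hp f χ * χ x = ∑ g, (Nat.card G : ℂ)⁻¹ * (χ 1 * χ g⁻¹) * f (g * x) :=
    fun χ hχ => by
      have e : ∀ y, f y = ∑ ψ ∈ (irr_finite G).toFinset, hp f ψ * ψ y := fun y => by
        conv_lhs => rw [complete hf, Finset.sum_apply]
        rfl
      have e1 : ∀ ψ ∈ (irr_finite G).toFinset, ∑ g, (Nat.card G : ℂ)⁻¹ * (χ 1 * χ g⁻¹) *
          (hp f ψ * ψ (g * x)) = if χ = ψ then hp f ψ * χ x else 0 := fun ψ hψ => by
        have := conv_irr (hE χ hχ) ((Set.Finite.mem_toFinset _).1 hψ) x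
        rw [← mul_zero (hp f ψ), ← apply_ite (hp f ψ * ·), ← this, Finset.mul_sum, Finset.mul_sum]
        exact Finset.sum_congr rfl fun g _ => by ring
      simp only [e (_ * x), Finset.mul_sum]
      rw [Finset.sum_comm, Finset.sum_congr rfl e1, Finset.sum_ite_eq,
        if_pos ((Set.Finite.mem_toFinset _).2 (hE χ hχ))]
  rw [Finset.sum_congr rfl k, Finset.sum_comm]
  simp only [Finset.mul_sum, Finset.sum_mul]

theorem osima {p : ℕ} (hp : p.Prime) {O : ValuationSubring ℂ} (hO : (p : ℂ) ∈ O.nonunits)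
    (E : Finset (G → ℂ)) (hE : ∀ χ ∈ E, χ ∈ irr G)
    (ht : ∀ χ ∈ E, tau p χ ∈ Submodule.span ℂ (E : Set (G → ℂ))) : ∃ e : G → ℂ, (∀ g, e g ∈ O) ∧
      ClassFn e ∧ cv e e = e ∧
      (∀ f, Cl f → ∀ x, ∑ g, e g * f (g * x) = ∑ χ ∈ E, PD.hp f χ * χ x) ∧
      ∀ a b, bitr a (cv e b) = ∑ χ ∈ E, (∑ g, a g * χ g) * ∑ g, b g * χ g := by
  classical
  have cl : ∀ g h : G, (Nat.card G : ℂ)⁻¹ * ∑ χ ∈ E, χ 1 * χ (h * g * h⁻¹) =
      (Nat.card G : ℂ)⁻¹ * ∑ χ ∈ E, χ 1 * χ g := fun g h =>
    congrArg _ (Finset.sum_congr rfl fun χ hχ => by rw [irr_cl (hE χ hχ)])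
  refine ⟨fun g => (Nat.card G : ℂ)⁻¹ * ∑ χ ∈ E, χ 1 * χ g⁻¹, fun g => ?_, fun g h => ?_,
    funext fun g => ?_, fun f hf x => OsB_act hE hf x, fun a b => ?_⟩
  · beta_reduce
    rw [Finset.sum_congr rfl fun χ hχ => by rw [irr_conj (hE χ hχ)]]
    exact OsB_mem hp hO hE ht g
  · beta_reduce
    rw [← cl g⁻¹ h, conj_inv]
  · have e := OsB_act hE (f := fun y => (Nat.card G : ℂ)⁻¹ * ∑ χ ∈ E, χ 1 * χ y) cl g⁻¹
    have e1 : (fun y => (Nat.card G : ℂ)⁻¹ * ∑ χ ∈ E, χ 1 * χ y) =
        ∑ χ ∈ E, ((Nat.card G : ℂ)⁻¹ * χ 1) • χ := funext fun y => by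
      simp only [Finset.sum_apply, Finset.mul_sum, Pi.smul_apply, smul_eq_mul, mul_assoc]
    refine (Finset.sum_congr rfl fun h _ => ?_).trans (e.trans ?_)
    · beta_reduce
      rw [← cl (h * g⁻¹) h⁻¹]
      simp [mul_assoc]
    · rw [e1, Finset.mul_sum]
      refine Finset.sum_congr rfl fun χ hχ => ?_
      rw [← mul_assoc]
      exact congrArg (· * _) (ChrA_coef E (fun χ => (Nat.card G : ℂ)⁻¹ * χ 1) (v := id) hE
        (Set.injOn_id _) hχ)
  · rw [bitr_eq, ← Finset.sum_subset (s₁ := E) fun χ hχ => (Set.Finite.mem_toFinset _).2 (hE χ hχ)]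
    all_goals
      have k : ∀ χ ∈ irr G, ∑ g, cv (fun g => (Nat.card G : ℂ)⁻¹ * ∑ χ ∈ E, χ 1 * χ g⁻¹) b g * χ g =
          if χ ∈ E then ∑ g, b g * χ g else 0 := fun χ hχ => by
        have e : ∀ y, ∑ h, ((Nat.card G : ℂ)⁻¹ * ∑ χ ∈ E, χ 1 * χ h⁻¹) * χ (h * y) =
            if χ ∈ E then χ y else 0 := fun y => by
          rw [OsB_act hE (irr_cl hχ), Finset.sum_congr rfl fun ψ hψ => by rw [hp_irr hχ (hE ψ hψ)]]
          simp only [ite_mul, one_mul, zero_mul, Finset.sum_ite_eq]
        have e1 : ∑ y, b y * (if χ ∈ E then χ y else 0) = if χ ∈ E then ∑ g, b g * χ g else 0 := by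
          split_ifs <;> simp
        simp only [← e1, ← e, cv, Finset.sum_mul, Finset.mul_sum _ _ (b _)]
        rw [Finset.sum_comm, Finset.sum_comm (f := fun y h => b y * _)]
        refine Finset.sum_congr rfl fun h _ => ?_
        rw [← Equiv.sum_comp (Equiv.mulLeft h)]
        refine Finset.sum_congr rfl fun y _ => ?_
        simp only [Equiv.coe_mulLeft, inv_mul_cancel_left]
        ring
    · exact Finset.sum_congr rfl fun χ hχ => by rw [k χ (hE χ hχ), if_pos hχ]
    · exact fun χ hχ n => by rw [k χ ((Set.Finite.mem_toFinset _).1 hχ), if_neg n, mul_zero]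

end PD
end
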