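import Pool.Agent.Work.MP_cea1f0_al.D.Flag
import Mathlib
import Pool.Agent.Work.MP_cea1f0_al.D.Osi
import Pool.Agent.Lib.SymRep.JacobiTrudi

-- merged part: Pool.Agent.Work.MP_cea1f0_al.D.Cls
section
/-!
# Primitive elements are determined by their values on indecomposable objects  (tasks PD ClsA, PD ClsB, PD ClsC)

* `homd_lt`: put `X = ext M₁ M₂ B`.  Left exactness gives `homd X N ≤ homd M₁ N + homd M₂ N` and
  `homd N X ≤ homd N M₁ + homd N M₂`, with equality for `B = 0`.  If `homd M₂ X = homd M₂ M₁ + homd M₂ M₂` then the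
  identity of `M₂` lifts to a morphism `y ↦ (S y, y)`, and `(x, y) ↦ (x + S y, y)` is an isomorphism from
  `ext M₁ M₂ 0` to `X`.
* `prim_ext`: strong induction on `homd M M`.  For `M = ext M₁ M₂ 0` with nonzero `M₁`, `M₂` the vanishing of
  `del0 y M₁ M₂` says that a positive multiple of `y M` is zero.
* `indec_iso`: `Module.equiv_directSum_of_isTorsion` for `Module.AEval' M.φ` (see the proof of
  `LinearMap.exists_isNilpotent_isSemisimple` or `Module.End.isSemisimple_iff` for the interface).  If two summands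
  are nonzero, split off one of them: an invariant subspace `N` with an invariant complement `N'` gives
  `Iso M (ext (sub N) (sub N') 0)` (`iso_of_isCompl`).
* `log_uni`: the invariant subspaces are the ideals.  `EE_nil` with `r = f` kills those that are not contained in
  `S = ker (f φ)`, the ideal generated by `f ^ (k - 1)`, which is simple of dimension `deg f` with characteristic
  polynomial `f` (a monic divisor of `f ^ k` of degree `deg f`); `EE_simple`, `cp_sub_quo`.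
* `prim_eq_mf`: put `A u = y (uni f k) / deg f` for `u = f ^ k`; `prim_ext`.
-/

namespace PD

open Ob CF Polynomial

variable {K : Type} [Field K]

/-- Indecomposable objects. -/
def Indec (M : Ob K) : Prop :=
  M.dim ≠ 0 ∧ ∀ M₁ M₂ : Ob K, Iso M (ext M₁ M₂ 0) → M₁.dim = 0 ∨ M₂.dim = 0

/-- Morphisms. -/
def homS (M N : Ob K) : Submodule K (M.V →ₗ[K] N.V) where
  carrier := {f | f ∘ₗ M.φ = N.φ ∘ₗ f}
  add_mem' hf hg := by
    change _ = _
    rw [LinearMap.add_comp, LinearMap.comp_add, hf, hg]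
  zero_mem' := by simp
  smul_mem' c f hf := by
    change _ = _
    rw [LinearMap.smul_comp, LinearMap.comp_smul, hf]

/-- The dimension of the space of morphisms. -/
noncomputable def homd (M N : Ob K) : ℕ := Module.finrank K (homS M N)

theorem uni_inj {u : K[X]} (h0 : u.eval 0 ≠ 0) :
    Function.Injective (LinearMap.mulLeft K (AdjoinRoot.root u)) := by
  refine (injective_iff_map_eq_zero _).2 fun x hx => ?_
  have h := congrArg (AdjoinRoot.mk u · * x) (X_mul_divX_add u)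
  simp only [map_add, map_mul, AdjoinRoot.mk_X, AdjoinRoot.mk_C, AdjoinRoot.mk_self, add_mul,
    mul_right_comm _ _ x, show AdjoinRoot.root u * x = 0 from hx, zero_mul, zero_add] at h
  exact (smul_eq_zero_iff_right (coeff_zero_eq_eval_zero u ▸ h0)).1
    ((Algebra.smul_def _ x).trans h)

/-- The cyclic objects. -/
noncomputable def cyc (u : K[X]) (hu : u.Monic) (h0 : u.eval 0 ≠ 0) : Ob K :=
  haveI := hu.finite_adjoinRoot
  { V := AdjoinRoot u, φ := LinearMap.mulLeft K (AdjoinRoot.root u), inj := uni_inj h0 }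

/-- The uniserial objects. -/
noncomputable def uni (f : K[X]) (k : ℕ) (hf : f.Monic) (h0 : f.eval 0 ≠ 0) : Ob K :=
  cyc (f ^ k) (hf.pow k) (by rw [eval_pow]; exact pow_ne_zero _ h0)

/-! ### Task PD ClsA -/

/-- Composition with morphisms on both sides. -/
def ClA_cmp {M M' N N' : Ob K} (p : homS M' M) (q : homS N N') : homS M N →ₗ[K] homS M' N' where
  toFun f := ⟨q.1 ∘ₗ f.1 ∘ₗ p.1, LinearMap.ext fun x =>
    (congrArg (fun z => q.1 (f.1 z)) (LinearMap.congr_fun p.2 x)).trans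
      ((congrArg q.1 (LinearMap.congr_fun f.2 _)).trans (LinearMap.congr_fun q.2 _))⟩
  map_add' _ _ := Subtype.ext (LinearMap.ext fun _ => map_add q.1 _ _)
  map_smul' c _ := Subtype.ext (LinearMap.ext fun _ => map_smul q.1 c _)

theorem ClA_le {M M' N N' : Ob K} (h : Iso M M') (h' : Iso N N') : homd M' N ≤ homd M N' := by
  obtain ⟨e, h⟩ := h
  obtain ⟨e', h'⟩ := h'
  refine LinearMap.finrank_le_finrank_of_injective (f := ClA_cmp ⟨e.toLinearMap, LinearMap.ext h⟩
    ⟨e'.toLinearMap, LinearMap.ext h'⟩) fun f g k => Subtype.ext (LinearMap.ext fun x => ?_)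
  obtain ⟨x, rfl⟩ := e.surjective x
  exact e'.injective (LinearMap.congr_fun (congrArg Subtype.val k) x)

theorem homd_iso {M M' N N' : Ob K} (h : Iso M M') (h' : Iso N N') : homd M N = homd M' N' :=
  (ClA_le h.symm h').antisymm (ClA_le h h'.symm)

theorem ClA_ex {A B C : Type} [AddCommGroup A] [Module K A] [AddCommGroup B] [Module K B]
    [FiniteDimensional K B] [AddCommGroup C] [Module K C] (a : A →ₗ[K] B) (b : B →ₗ[K] C)
    (ha : Function.Injective a) (h : LinearMap.ker b = LinearMap.range a) :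
    Module.finrank K B = Module.finrank K A + Module.finrank K (LinearMap.range b) := by
  rw [← b.finrank_range_add_finrank_ker, h, LinearMap.finrank_range_of_inj ha, add_comm]

/-- The identity. -/
def ClA_id (M : Ob K) : homS M M := ⟨LinearMap.id, rfl⟩

/-- The inclusion. -/
def ClA_in (M₁ M₂ : Ob K) (B : M₂.V →ₗ[K] M₁.V) : homS M₁ (ext M₁ M₂ B) :=
  ⟨LinearMap.inl K M₁.V M₂.V, LinearMap.ext fun x => Prod.ext
    (show M₁.φ x = M₁.φ x + B 0 by rw [map_zero, add_zero]) (map_zero M₂.φ).symm⟩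

/-- The projection. -/
def ClA_pr (M₁ M₂ : Ob K) (B : M₂.V →ₗ[K] M₁.V) : homS (ext M₁ M₂ B) M₂ :=
  ⟨LinearMap.snd K M₁.V M₂.V, rfl⟩

theorem ClA_left (M₁ M₂ : Ob K) (B : M₂.V →ₗ[K] M₁.V) (N : Ob K) : homd (ext M₁ M₂ B) N =
    homd M₂ N + Module.finrank K (LinearMap.range (ClA_cmp (ClA_in M₁ M₂ B) (ClA_id N))) := by
  refine ClA_ex (ClA_cmp (ClA_pr M₁ M₂ B) (ClA_id N)) _ (fun f g k => Subtype.ext
    (LinearMap.ext fun y => LinearMap.congr_fun (congrArg Subtype.val k) (0, y))) ?_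
  refine Submodule.ext fun f => ⟨fun k => ?_, ?_⟩
  · have k1 : ∀ x, f.1 (x, 0) = 0 := LinearMap.congr_fun (congrArg Subtype.val k)
    have k2 : ∀ x y, f.1 (x, y) = f.1 (0, y) := fun x y =>
      (congrArg f.1 (Prod.ext (add_zero x).symm (zero_add y).symm)).trans
        ((map_add f.1 (x, 0) (0, y)).trans ((congrArg (· + _) (k1 x)).trans (zero_add _)))
    exact ⟨⟨f.1 ∘ₗ LinearMap.inr K M₁.V M₂.V, LinearMap.ext fun y =>
      (k2 _ _).symm.trans (LinearMap.congr_fun f.2 (0, y))⟩,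
      Subtype.ext (LinearMap.ext fun z => (k2 z.1 z.2).symm)⟩
  · rintro ⟨g, rfl⟩
    exact Subtype.ext (LinearMap.ext fun _ => map_zero g.1)

theorem ClA_right (M₁ M₂ : Ob K) (B : M₂.V →ₗ[K] M₁.V) (N : Ob K) : homd N (ext M₁ M₂ B) =
    homd N M₁ + Module.finrank K (LinearMap.range (ClA_cmp (ClA_id N) (ClA_pr M₁ M₂ B))) := by
  refine ClA_ex (ClA_cmp (ClA_id N) (ClA_in M₁ M₂ B)) _ (fun f g k => Subtype.ext
    (LinearMap.ext fun y => congrArg Prod.fst (LinearMap.congr_fun (congrArg Subtype.val k) y))) ?_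
  refine Submodule.ext fun f => ⟨fun k => ?_, ?_⟩
  · have k1 : ∀ x, (f.1 x).2 = 0 := LinearMap.congr_fun (congrArg Subtype.val k)
    refine ⟨⟨LinearMap.fst K M₁.V M₂.V ∘ₗ f.1, LinearMap.ext fun y =>
      (congrArg Prod.fst (LinearMap.congr_fun f.2 y)).trans ?_⟩,
      Subtype.ext (LinearMap.ext fun z => Prod.ext rfl (k1 z).symm)⟩
    change M₁.φ (f.1 y).1 + B (f.1 y).2 = M₁.φ (f.1 y).1
    rw [k1, map_zero, add_zero]
  · rintro ⟨g, rfl⟩
    rfl

theorem ClA_left0 (M₁ M₂ N : Ob K) : homd (ext M₁ M₂ 0) N = homd M₂ N + homd M₁ N := by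
  rw [ClA_left, LinearMap.range_eq_top.2, finrank_top]
  · rfl
  · exact fun f => ⟨ClA_cmp ⟨LinearMap.fst K M₁.V M₂.V, LinearMap.ext fun _ => add_zero _⟩
      (ClA_id N) f, rfl⟩

theorem ClA_right0 (M₁ M₂ N : Ob K) : homd N (ext M₁ M₂ 0) = homd N M₁ + homd N M₂ := by
  rw [ClA_right, LinearMap.range_eq_top.2, finrank_top]
  · rfl
  · exact fun f => ⟨ClA_cmp (ClA_id N) ⟨LinearMap.inr K M₁.V M₂.V, LinearMap.ext fun y =>
      congrArg (·, M₂.φ y) ((add_zero _).trans (map_zero M₁.φ)).symm⟩ f, rfl⟩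

theorem homd_lt {M₁ M₂ : Ob K} {B : M₂.V →ₗ[K] M₁.V} (h : ¬ Iso (ext M₁ M₂ B) (ext M₁ M₂ 0)) :
    homd (ext M₁ M₂ B) (ext M₁ M₂ B) < homd (ext M₁ M₂ 0) (ext M₁ M₂ 0) := by
  have h1 : homd (ext M₁ M₂ B) (ext M₁ M₂ B) ≤ homd M₂ (ext M₁ M₂ B) + homd M₁ (ext M₁ M₂ B) :=
    (ClA_left ..).trans_le (Nat.add_le_add_left (Submodule.finrank_le _) _)
  have h2 : homd M₁ (ext M₁ M₂ B) ≤ homd M₁ M₁ + homd M₁ M₂ :=
    (ClA_right ..).trans_le (Nat.add_le_add_left (Submodule.finrank_le _) _)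
  have h3 : homd M₂ (ext M₁ M₂ B) < homd M₂ M₁ + homd M₂ M₂ := by
    refine (ClA_right ..).trans_lt (Nat.add_lt_add_left (Submodule.finrank_lt fun k => h ?_) _)
    obtain ⟨s, hs⟩ := LinearMap.range_eq_top.1 k (ClA_id M₂)
    have k1 : ∀ y, (s.1 y).2 = y := LinearMap.congr_fun (congrArg Subtype.val hs)
    have k2 : ∀ y, (s.1 (M₂.φ y)).1 = M₁.φ (s.1 y).1 + B (s.1 y).2 := fun y =>
      congrArg Prod.fst (LinearMap.congr_fun s.2 y)
    have k3 : Function.Surjective ((LinearMap.fst K M₁.V M₂.V + LinearMap.fst K M₁.V M₂.V ∘ₗ s.1 ∘ₗ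
        LinearMap.snd K M₁.V M₂.V).prod (LinearMap.snd K M₁.V M₂.V)) := fun z =>
      ⟨(z.1 - (s.1 z.2).1, z.2), Prod.ext (sub_add_cancel _ _) rfl⟩
    refine Iso.symm ⟨.ofBijective _ ⟨LinearMap.injective_iff_surjective.2 k3, k3⟩,
      fun z => Prod.ext ?_ rfl⟩
    change M₁.φ z.1 + 0 + (s.1 (M₂.φ z.2)).1 = M₁.φ (z.1 + (s.1 z.2).1) + B z.2
    rw [k2, k1, map_add, add_zero, add_assoc]
  rw [ClA_left0, ClA_right0, ClA_right0]
  omega

theorem prim_ext [Finite K] {n : ℕ} {y : HA K} (h : Prim n y) (h0 : ∀ M, Indec M → y.1 M = 0) :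
    y = 0 := by
  classical
  have key : ∀ (d : ℕ) (M : Ob K), homd M M = d → y.1 M = 0 := fun d => by
    induction d using Nat.strong_induction_on with
    | _ d ih =>
    intro M hd
    by_cases h1 : M.dim = 0
    · exact h.2.1 M (h1.trans_lt h.1).ne
    by_contra h2
    refine h2 (h0 M ⟨h1, fun M₁ M₂ e => by_contra fun k => h2 ?_⟩)
    have h3 := h.2.2 M₁ M₂ (fun k' => k (Or.inl k')) fun k' => k (Or.inr k')
    have h4 : ∀ B, y.1 (ext M₁ M₂ B) = if Iso (ext M₁ M₂ B) (ext M₁ M₂ 0) then y.1 M else 0 :=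
      fun B => by
        split_ifs with k'
        · exact y.iso (k'.trans e.symm)
        · exact ih _ ((homd_lt k').trans_eq ((homd_iso e e).symm.trans hd)) _ rfl
    rw [del0, mul_eq_zero, inv_eq_zero, Nat.cast_eq_zero, or_iff_right Nat.card_pos.ne',
      Finset.sum_congr rfl fun B _ => h4 B, ← Finset.sum_filter, Finset.sum_const, nsmul_eq_mul,
      mul_eq_zero, Nat.cast_eq_zero] at h3
    exact h3.resolve_left (Finset.card_ne_zero.2
      ⟨0, Finset.mem_filter.2 ⟨Finset.mem_univ _, Iso.refl _⟩⟩)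
  exact CF.ext fun M => key _ M rfl

/-! ### Task PD ClsB  (includes `uni_inj` above) -/

theorem iso_of_isCompl {M : Ob K} (N N' : M.Inv) (h : IsCompl N.1 N'.1) :
    Iso M (ext (M.sub N) (M.sub N') 0) :=
  Iso.symm ⟨Submodule.prodEquivOfIsCompl _ _ h, fun x =>
    (congrArg (· + M.φ x.2.1) (add_zero _)).trans (M.φ.map_add x.1.1 x.2.1).symm⟩

theorem cp_cyc (u : K[X]) (hu : u.Monic) (h0 : u.eval 0 ≠ 0) : (cyc u hu h0).cp = u :=
  haveI := hu.finite_adjoinRoot
  (LinearMap.charpoly_toMatrix _ (AdjoinRoot.powerBasis hu.ne_zero).basis).symm.trans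
    ((charpoly_leftMulMatrix (AdjoinRoot.powerBasis hu.ne_zero)).trans
      (AdjoinRoot.minpoly_powerBasis_gen_of_monic hu))

theorem ClB_idem {M : Ob K} (h : Indec M) {P : Module.End K M.V} (hP : IsIdempotentElem P)
    (c : ∀ x, P (M.φ x) = M.φ (P x)) : P = 0 ∨ P = 1 := by
  refine (h.2 _ _ (iso_of_isCompl ⟨LinearMap.range P, ?_⟩ ⟨LinearMap.ker P, fun x hx => ?_⟩
    (LinearMap.IsIdempotentElem.isCompl hP))).imp (fun k => ?_) fun k => ?_
  · rintro _ ⟨x, rfl⟩
    exact ⟨_, c x⟩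
  · rw [LinearMap.mem_ker, c, hx, map_zero]
  · exact LinearMap.range_eq_bot.1 (congrArg Subtype.val (dim_sub_eq_zero.1 k))
  · exact LinearMap.ext fun x => LinearMap.ker_eq_bot.1 (congrArg Subtype.val (dim_sub_eq_zero.1 k))
      (LinearMap.congr_fun hP x)

theorem ClB_cyc {M : Ob K} (h : Indec M) : ∃ (f : K[X]) (k : ℕ) (p : K[X] →ₗ[K] M.V),
    Irreducible f ∧ Function.Surjective p ∧ (∀ a, p a = 0 ↔ f ^ k ∣ a) ∧
      ∀ a, p (X * a) = M.φ (p a) := by
  classical
  obtain ⟨ι, _, f, hf, k, ⟨e⟩⟩ := Module.equiv_directSum_of_isTorsion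
    (Module.AEval.isTorsion_of_finiteDimensional K M.V M.φ)
  let o := Module.AEval'.of M.φ
  let q := fun i => DirectSum.component K[X] ι _ i ∘ₗ e.toLinearMap
  let s := fun i => e.symm.toLinearMap ∘ₗ DirectSum.lof K[X] ι _ i
  have qs : ∀ i x, q i (s i x) = x := fun i x =>
    (congrArg _ (e.apply_symm_apply _)).trans (DirectSum.component.lof_self _ i x)
  let P := fun i => o.symm.toLinearMap ∘ₗ (s i ∘ₗ q i).restrictScalars K ∘ₗ o.toLinearMap
  have eP : ∀ i x, P i x = o.symm (s i (q i (o x))) := fun _ _ => rfl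
  obtain ⟨i, hi⟩ : ∃ i, P i ≠ 0 := by
    by_contra! n
    refine h.1 (finrank_zero_iff_forall_zero.2 fun x => o.map_eq_zero_iff.1
      (e.map_eq_zero_iff.1 (DirectSum.ext_component K[X] fun i => ?_)))
    have := congrArg (fun y => q i (o y)) (LinearMap.congr_fun (n i) x)
    simp only [eP, o.apply_symm_apply, qs, LinearMap.zero_apply, map_zero] at this
    exact this
  have h1 := (ClB_idem h (P := P i) (LinearMap.ext fun x => by
    simp only [Module.End.mul_apply, eP, o.apply_symm_apply, qs]) fun x => by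
      rw [eP, eP, ← Module.AEval'.X_smul_of, map_smul, map_smul,
        Module.AEval'.of_symm_X_smul]).resolve_left hi
  refine ⟨f i, k i, o.symm.toLinearMap ∘ₗ (s i ∘ₗ Submodule.mkQ _).restrictScalars K, hf i,
    fun x => ?_, fun a => ?_, fun a => ?_⟩
  · obtain ⟨a, ha⟩ := Submodule.mkQ_surjective _ (q i (o x))
    exact ⟨a, (congrArg (fun y => o.symm (s i y)) ha).trans (LinearMap.congr_fun h1 x)⟩
  · refine o.symm.map_eq_zero_iff.trans (((map_eq_zero_iff (s i)
      (Function.LeftInverse.injective (qs i))).trans (Submodule.Quotient.mk_eq_zero _)).trans ?_)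
    exact Ideal.mem_span_singleton
  · exact (congrArg o.symm (map_smul (s i ∘ₗ Submodule.mkQ _) X a)).trans
      (Module.AEval'.of_symm_X_smul _ _)

theorem indec_iso {M : Ob K} (h : Indec M) : ∃ (f : K[X]) (k : ℕ) (hf : f.Monic) (h0 : f.eval 0 ≠ 0),
    Irreducible f ∧ 0 < k ∧ Iso M (uni f k hf h0) := by
  classical
  obtain ⟨g, k, p, hg, hs, hk, hX⟩ := ClB_cyc h
  have a := associated_normalize g
  have hf := a.irreducible hg
  simp only [(a.pow_pow (n := k)).dvd_iff_dvd_left] at hk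
  have k0 : 0 < k := Nat.pos_of_ne_zero fun e => h.1 (finrank_zero_iff_forall_zero.2
    fun x => by
      obtain ⟨a, rfl⟩ := hs x
      rw [hk, e, pow_zero]
      exact one_dvd a)
  refine ⟨_, k, monic_normalize hg.ne_zero, fun e => ?_, hf, k0, ObA_surj p
    (AdjoinRoot.mkₐ _).toLinearMap hs AdjoinRoot.mk_surjective
    (Submodule.ext fun a => (hk a).trans AdjoinRoot.mk_eq_zero.symm) (X * ·) hX
    fun a => map_mul (AdjoinRoot.mk _) X a⟩
  obtain ⟨b, hb⟩ := (X_dvd_iff.2 ((coeff_zero_eq_eval_zero _).trans e)).trans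
    (dvd_pow_self _ k0.ne')
  have k := (hk b).1 (M.inj (by rw [← hX, map_zero, hk, hb]))
  exact not_isUnit_X (isUnit_of_dvd_one ((mul_dvd_mul_iff_right
    (right_ne_zero_of_mul (hb ▸ pow_ne_zero _ hf.ne_zero))).1 (by rwa [one_mul, ← hb])))

/-! ### Task PD ClsC -/

variable [Finite K]

omit [Finite K] in
theorem ClC_aeval {u : K[X]} {hu : u.Monic} {h0 : u.eval 0 ≠ 0} (N : (cyc u hu h0).Inv) (r : K[X])
    (x : AdjoinRoot u) (hx : x ∈ N.1) :
    @Eq (AdjoinRoot u) (aeval ((cyc u hu h0).sub N).φ r ⟨x, hx⟩).1 (AdjoinRoot.mk u r * x) := by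
  induction r using Polynomial.induction_on generalizing x with
  | C a =>
    rw [aeval_C, AdjoinRoot.mk_C, ← AdjoinRoot.algebraMap_eq, ← Algebra.smul_def]
    rfl
  | add p q hp hq =>
    rw [map_add, map_add, add_mul, ← hp x hx, ← hq x hx]
    rfl
  | monomial n a h =>
    rw [pow_succ, ← mul_assoc, map_mul, map_mul (AdjoinRoot.mk u), aeval_X,
      mul_assoc (AdjoinRoot.mk u _)]
    exact h _ (N.2 x hx)

omit [Finite K] in
theorem ClC_cp {f : K[X]} (k : ℕ) (hf : f.Monic) (h0 : f.eval 0 ≠ 0) :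
    (uni f k hf h0).cp = f ^ k := cp_cyc _ _ _

omit [Finite K] in
theorem ClC_dim {f : K[X]} {k : ℕ} {hf : f.Monic} {h0 : f.eval 0 ≠ 0} {M : Ob K}
    (h : Iso M (uni f k hf h0)) : M.dim = k * f.natDegree := by
  rw [← cp_natDegree, h.cp, ClC_cp, natDegree_pow]

theorem log_uni {f : K[X]} {k : ℕ} (hf : f.Monic) (h0 : f.eval 0 ≠ 0) (hi : Irreducible f)
    (hk : 0 < k) (A : K[X] → ℂ) :
    (EE K * mf A (HH K)).1 (uni f k hf h0) = A (f ^ k) - A (f ^ (k - 1)) := by
  obtain ⟨j, rfl⟩ := Nat.exists_eq_succ_of_ne_zero hk.ne'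
  let S : (uni f (j + 1) hf h0).Inv :=
    ⟨LinearMap.ker (LinearMap.mulLeft K (AdjoinRoot.mk (f ^ (j + 1)) f)), fun x hx =>
      (mul_left_comm (G := AdjoinRoot (f ^ (j + 1))) _ _ x).trans
        ((congrArg (AdjoinRoot.root (f ^ (j + 1)) * ·) hx).trans (mul_zero _))⟩
  have mS : ∀ p, AdjoinRoot.mk (f ^ (j + 1)) p ∈ S.1 ↔ f ^ j ∣ p := fun p => by
    change AdjoinRoot.mk (f ^ (j + 1)) f * _ = 0 ↔ _
    rw [← map_mul, AdjoinRoot.mk_eq_zero, pow_succ', mul_dvd_mul_iff_left hf.ne_zero]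
  have two : ∀ N : (uni f (j + 1) hf h0).Inv, N.1 ≤ S.1 → N.1 = ⊥ ∨ N.1 = S.1 := fun N hN => by
    refine or_iff_not_imp_left.2 fun h => hN.antisymm fun y hy => ?_
    obtain ⟨x, hx, x0⟩ := (Submodule.ne_bot_iff _).1 h
    obtain ⟨p, rfl⟩ := AdjoinRoot.mk_surjective x
    obtain ⟨q, rfl⟩ := AdjoinRoot.mk_surjective y
    obtain ⟨p, rfl⟩ := (mS p).1 (hN hx)
    obtain ⟨q, rfl⟩ := (mS q).1 hy
    obtain ⟨a, b, e⟩ := hi.coprime_iff_not_dvd.2 fun k : f ∣ p => x0
      (AdjoinRoot.mk_eq_zero.2 (by rw [pow_succ]; exact mul_dvd_mul_left _ k))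
    rw [AdjoinRoot.mk_eq_mk.2 (⟨q * a, by linear_combination (-(f ^ j * q)) * e⟩ :
      f ^ (j + 1) ∣ f ^ j * q - q * b * (f ^ j * p)), map_mul, ← ClC_aeval N _ _ hx]
    exact Subtype.property _
  have ne : S ≠ (uni f (j + 1) hf h0).bot := fun e => by
    have m := (mS _).2 dvd_rfl
    rw [e] at m
    have d := AdjoinRoot.mk_eq_zero.1 ((Submodule.mem_bot K).1 m)
    exact absurd ((pow_dvd_pow_iff hf.ne_zero hi.not_isUnit).1 d) (by omega)
  have e1 : (EE K).1 ((uni f (j + 1) hf h0).sub S) = -1 :=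
    EE_simple (mt dim_sub_eq_zero.1 ne) fun N => (two ⟨N.1.map S.1.subtype, by
      rintro _ ⟨x, hx, rfl⟩
      exact ⟨_, N.2 x hx, rfl⟩⟩ (S.1.map_subtype_le N.1)).imp
      (fun e => Subtype.ext (Submodule.map_injective_of_injective S.1.injective_subtype
        (e.trans (Submodule.map_bot _).symm)))
      fun e => Subtype.ext (Submodule.map_injective_of_injective S.1.injective_subtype
        (e.trans S.1.map_subtype_top.symm))
  have e2 : Iso ((uni f (j + 1) hf h0).quo S) (uni f j hf h0) :=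
    ObA_surj (S.1.mkQ ∘ₗ (AdjoinRoot.mkₐ (f ^ (j + 1))).toLinearMap)
      (AdjoinRoot.mkₐ (f ^ j)).toLinearMap (S.1.mkQ_surjective.comp AdjoinRoot.mk_surjective)
      AdjoinRoot.mk_surjective (Submodule.ext fun p =>
        ((Submodule.Quotient.mk_eq_zero _).trans (mS p)).trans AdjoinRoot.mk_eq_zero.symm)
      (X * ·) (fun p => congrArg S.1.mkQ (map_mul (AdjoinRoot.mk _) X p))
      fun p => map_mul (AdjoinRoot.mk _) X p
  rw [mul_val, Finset.sum_eq_add_of_mem _ _ (Finset.mem_univ _) (Finset.mem_univ _) ne.symm, e1,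
    (EE K).iso (iso_zero (dim_sub_eq_zero.2 rfl)), show (EE K).1 (zero K) = 1 from gl_EE.1, mf_val,
    mf_val, (iso_quo_bot _).cp, e2.cp, ClC_cp, ClC_cp]
  · simp [HH, sub_eq_add_neg]
  · rintro N - ⟨h1, h2⟩
    rw [EE_nil f ⟨j + 1, ?_⟩ fun e => ?_, zero_mul]
    · rw [← map_pow]
      exact LinearMap.ext fun x => Subtype.ext ((ClC_aeval N _ x.1 x.2).trans (by
        rw [AdjoinRoot.mk_self, zero_mul]
        rfl))
    · refine (two N fun x hx => ?_).elim (fun k => h1 (Subtype.ext k)) fun k => h2 (Subtype.ext k)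
      exact (ClC_aeval N f x hx).symm.trans (congrArg Subtype.val (LinearMap.congr_fun e _))

theorem pi_uni {f : K[X]} {k : ℕ} (hf : f.Monic) (h0 : f.eval 0 ≠ 0) (hi : Irreducible f)
    (hk : 0 < k) : (pi K (k * f.natDegree)).1 (uni f k hf h0) = f.natDegree := by
  obtain ⟨j, rfl⟩ := Nat.exists_eq_succ_of_ne_zero hk.ne'
  rw [pi, cmp_val, if_pos (ClC_dim (Iso.refl _)), PI, ← mf_deg, log_uni hf h0 hi hk, natDegree_pow,
    natDegree_pow, Nat.succ_sub_one]
  push_cast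
  ring

theorem prim_eq_mf {n : ℕ} {y : HA K} (h : Prim n y) : ∃ A, y = mf A (pi K n) := by
  classical
  refine ⟨fun u => if e : u.Monic ∧ u.eval 0 ≠ 0 then
    y.1 (cyc u e.1 e.2) / (pi K n).1 (cyc u e.1 e.2) else 0,
    sub_eq_zero.1 (prim_ext (h.sub ((prim_pi h.1).mf _)) fun M hM => ?_)⟩
  obtain ⟨f, k, hf, h0, hi, hk, e⟩ := indec_iso hM
  rw [CF.iso _ e, sub_val, mf_val, ClC_cp,
    dif_pos ⟨hf.pow k, by rw [eval_pow]; exact pow_ne_zero _ h0⟩, sub_eq_zero]
  change y.1 (uni f k hf h0) = y.1 (uni f k hf h0) / (pi K n).1 (uni f k hf h0) * _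
  by_cases d : (uni f k hf h0).dim = n
  · rw [div_mul_cancel₀]
    rw [← d, ClC_dim (Iso.refl _), pi_uni hf h0 hi hk]
    exact Nat.cast_ne_zero.2 hi.natDegree_pos.ne'
  · rw [h.2.1 _ d, zero_div, zero_mul]

theorem pi_supp {n : ℕ} {M : Ob K} (h : (pi K n).1 M ≠ 0) : ∃ (f : K[X]) (k : ℕ), f.Monic ∧
    f.eval 0 ≠ 0 ∧ Irreducible f ∧ 0 < k ∧ k * f.natDegree = n ∧ M.cp = f ^ k := by
  classical
  by_contra hne
  rcases n.eq_zero_or_pos with rfl | hn
  · exact h (by rw [pi_zero, zero_val])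
  have e := prim_ext ((prim_pi hn).mf fun u => if ∃ (f : K[X]) (k : ℕ), f.Monic ∧ f.eval 0 ≠ 0 ∧
    Irreducible f ∧ 0 < k ∧ k * f.natDegree = n ∧ u = f ^ k then 0 else 1) fun N hN => by
      obtain ⟨f, k, hf, h0, hi, hk, e⟩ := indec_iso hN
      rw [mf_val]
      by_cases d : N.dim = n
      · rw [if_pos ⟨f, k, hf, h0, hi, hk, (ClC_dim e).symm.trans d, e.cp.trans (ClC_cp _ _ _)⟩,
          zero_mul]
      · rw [(prim_pi hn).2.1 _ d, mul_zero]
  have e1 := congrArg (fun z : HA K => z.1 M) e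
  simp only [mf_val, if_neg hne, one_mul, zero_val] at e1
  exact h e1

theorem log_eq {A : K[X] → ℂ} (h : ∀ u v, u.Monic → v.Monic → A (u * v) = A u + A v) {n : ℕ}
    (hn : 0 < n) : (n : ℂ) • cmp n (EE K * mf A (HH K)) = mf A (pi K n) := by
  refine sub_eq_zero.1 (prim_ext ((((pr_log_add (isAdd_cpf h)).prim hn).smul _).sub
    ((prim_pi hn).mf A)) fun M hM => ?_)
  obtain ⟨f, k, hf, h0, hi, hk, e⟩ := indec_iso hM
  have p : ∀ m : ℕ, A (f ^ m) = m * A f := fun m => by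
    induction m with
    | zero => simpa using h 1 1 monic_one monic_one
    | succ m ih =>
      rw [pow_succ, h _ _ (hf.pow m) hf, ih]
      push_cast
      ring
  rw [CF.iso _ e, sub_val, smul_val, mf_val, cmp_val]
  split_ifs with d
  · obtain ⟨j, rfl⟩ := Nat.exists_eq_succ_of_ne_zero hk.ne'
    rw [← d, ClC_dim (Iso.refl _), pi_uni hf h0 hi hk, ClC_cp]
    erw [log_uni hf h0 hi hk A]
    rw [p, p, Nat.succ_sub_one, smul_eq_mul]
    push_cast
    ring
  · rw [(prim_pi hn).2.1 _ d, smul_zero, mul_zero, sub_zero]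

end PD
end

-- merged part: Pool.Agent.Work.MP_cea1f0_al.D.Cnt
section
/-!
# Matrices with entries zero and one  (task PD Cnt)

`cnt μ ν` is the number of matrices with entries `0, 1`, column sums `μ` and row sums `ν`.  Induction on `r` with
`List.range_succ_eq_map`: `conj l (r + 1) = #(support l) :: conj (l - 1) r`.  For `cnt_tri` prove for arbitrary `l`, `ν`:
if `cnt (conj l r) ν ≠ 0` then `∑ ν = ∑ l`, `∑ ν ^ 2 ≤ ∑ l ^ 2`, and in the case of equality `#{t | j < ν t} = #{t | j < l t}` for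
all `j`.  If `ν = ν' + 1_C` then `∑ ν ^ 2 = ∑ ν' ^ 2 + 2 * ∑ t ∈ C, ν' t + #C`.  Two antitone functions with the same numbers
`#{t | j < ν t}` are equal.
-/

namespace PD

open Finset

variable {N : ℕ}

/-- Remove a column. -/
def rmv (C : Finset (Fin N)) (ν : Fin N → ℕ) : Fin N → ℕ := fun t => if t ∈ C then ν t - 1 else ν t

/-- The number of matrices with entries zero and one and given margins. -/
def cnt : List ℕ → (Fin N → ℕ) → ℕ
  | [], ν => if ν = 0 then 1 else 0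
  | a :: μ, ν => ∑ C ∈ powersetCard a univ with ∀ t ∈ C, 0 < ν t, cnt μ (rmv C ν)

/-- The conjugate partition. -/
def conj (l : Fin N → ℕ) (r : ℕ) : List ℕ := (List.range r).map fun j => #{t | j < l t}

/-! ### Task PD Cnt -/

theorem length_conj (l : Fin N → ℕ) (r : ℕ) : (conj l r).length = r := by
  rw [conj, List.length_map, List.length_range]

theorem Cn_succ (l : Fin N → ℕ) (r : ℕ) :
    conj l (r + 1) = #{t | 0 < l t} :: conj (rmv {t | 0 < l t} l) r := by
  rw [conj, List.range_succ_eq_map, List.map_cons, List.map_map, conj]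
  refine congrArg _ (List.map_congr_left fun j _ => congrArg card (filter_congr fun t _ => ?_))
  simp only [rmv, mem_filter, mem_univ, true_and]
  split_ifs <;> omega

theorem Cn_le {l : Fin N → ℕ} {r : ℕ} (h : ∀ t, l t ≤ r + 1) (t : Fin N) :
    rmv {t | 0 < l t} l t ≤ r := by
  have := h t
  simp only [rmv, mem_filter, mem_univ, true_and]
  split_ifs <;> omega

theorem Cn_rmv {C : Finset (Fin N)} {ν : Fin N → ℕ} (h : ∀ t ∈ C, 0 < ν t) :
    ∑ t, ν t = ∑ t, rmv C ν t + #C ∧ ∑ t, ν t ^ 2 + 2 * ∑ t, (if t ∈ C then 0 else ν t) =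
      ∑ t, rmv C ν t ^ 2 + 2 * ∑ t, rmv C ν t + #C := by
  have e : #C = ∑ t, if t ∈ C then 1 else 0 := by simp
  simp only [e, mul_sum, ← sum_add_distrib]
  refine ⟨sum_congr rfl fun t _ => ?_, sum_congr rfl fun t _ => ?_⟩
  all_goals
    unfold rmv
    split_ifs with k
    · obtain ⟨m, hm⟩ := Nat.exists_eq_add_one_of_ne_zero (h t k).ne'
      rw [hm, Nat.add_sub_cancel]
      try ring
    · rfl

theorem sum_conj {l : Fin N → ℕ} {r : ℕ} (h : ∀ t, l t ≤ r) : (conj l r).sum = ∑ t, l t := by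
  induction r generalizing l with
  | zero => simp [conj, fun t => Nat.le_zero.1 (h t)]
  | succ r ih =>
    rw [Cn_succ, List.sum_cons, ih (Cn_le h), add_comm]
    exact (Cn_rmv fun t ht => (mem_filter.1 ht).2).1.symm

theorem cnt_self {l : Fin N → ℕ} {r : ℕ} (h : ∀ t, l t ≤ r) : cnt (conj l r) l = 1 := by
  induction r generalizing l with
  | zero => exact if_pos (funext fun t => Nat.le_zero.1 (h t))
  | succ r ih =>
    rw [Cn_succ, cnt, sum_eq_single_of_mem _ (mem_filter.2 ⟨mem_powersetCard_univ.2 rfl,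
      fun t ht => (mem_filter.1 ht).2⟩) fun C hC k => (k ?_).elim, ih (Cn_le h)]
    obtain ⟨h1, h2⟩ := mem_filter.1 hC
    exact eq_of_subset_of_card_le (fun t ht => mem_filter.2 ⟨mem_univ _, h2 t ht⟩)
      (mem_powersetCard_univ.1 h1).ge

theorem Cn_tri {l ν : Fin N → ℕ} {r : ℕ} (h : ∀ t, l t ≤ r) (h0 : cnt (conj l r) ν ≠ 0) :
    ∑ t, ν t = ∑ t, l t ∧ ∑ t, ν t ^ 2 ≤ ∑ t, l t ^ 2 ∧
      (∑ t, ν t ^ 2 = ∑ t, l t ^ 2 → ∀ j, #{t | j < ν t} = #{t | j < l t}) := by
  induction r generalizing l ν with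
  | zero =>
    obtain rfl : l = 0 := funext fun t => Nat.le_zero.1 (h t)
    obtain rfl : ν = 0 := by_contra fun e => h0 (if_neg e)
    exact ⟨rfl, le_rfl, fun _ _ => rfl⟩
  | succ r ih =>
    rw [Cn_succ, cnt] at h0
    obtain ⟨C, hC, h1⟩ := exists_ne_zero_of_sum_ne_zero h0
    obtain ⟨h2, h3⟩ := mem_filter.1 hC
    rw [mem_powersetCard_univ] at h2
    obtain ⟨i1, i2, i3⟩ := ih (Cn_le h) h1
    obtain ⟨a1, a2⟩ := Cn_rmv h3
    obtain ⟨b1, b2⟩ := Cn_rmv (C := {t | 0 < l t}) (ν := l) fun t ht => (mem_filter.1 ht).2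
    have b3 : ∑ t, (if t ∈ ({t | 0 < l t} : Finset (Fin N)) then 0 else l t) = 0 :=
      sum_eq_zero fun t _ => by
        simp only [mem_filter, mem_univ, true_and]
        split_ifs <;> omega
    refine ⟨by omega, by omega, fun e j => ?_⟩
    have c1 : ∀ t, t ∉ C → ν t = 0 := fun t ht => by
      have := sum_eq_zero_iff.1 (show ∑ t, (if t ∈ C then 0 else ν t) = 0 by omega) t (mem_univ _)
      rwa [if_neg ht] at this
    rcases j with - | j
    · rw [← h2]
      refine congrArg card (ext fun t => ?_)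
      simp only [mem_filter, mem_univ, true_and]
      exact ⟨fun k => by_contra fun m => k.ne' (c1 t m), h3 t⟩
    · refine Eq.trans (congrArg card (filter_congr fun t _ => ?_)) ((i3 (by omega) j).trans
        (congrArg card (filter_congr fun t _ => ?_)))
      · unfold rmv
        split_ifs with k
        · omega
        · simp [c1 t k]
      · simp only [rmv, mem_filter, mem_univ, true_and]
        split_ifs <;> omega

theorem cnt_tri {l ν : Fin N → ℕ} {r : ℕ} (h : ∀ t, l t ≤ r) (hl : Antitone l) (hν : Antitone ν)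
    (h0 : cnt (conj l r) ν ≠ 0) : l = ν ∨ ∑ t, ν t ^ 2 < ∑ t, l t ^ 2 := by
  obtain ⟨-, h1, h2⟩ := Cn_tri h h0
  refine h1.eq_or_lt.imp_left fun e => funext fun t => eq_of_forall_lt_iff fun j => ?_
  rw [← Tuple.lt_card_gt_iff_apply_gt_of_antitone hl,
    ← Tuple.lt_card_gt_iff_apply_gt_of_antitone hν, h2 e]

theorem Cn_ex (l : List ℕ) (h : l.sum ≤ N) : ∃ ν : Fin N → ℕ,
    ∑ t, ν t = l.sum ∧ ∀ {M : Type 1} [CommMonoid M] (x : ℕ → M), x 0 = 1 →
      (l.map x).prod = ∏ t, x (ν t) := by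
  induction l generalizing N with
  | nil => exact ⟨0, by simp, fun x hx => by simp [hx]⟩
  | cons a l ih =>
    rw [List.sum_cons] at h
    rcases a with - | a
    · obtain ⟨ν, h1, h2⟩ := ih (N := N) (by omega)
      exact ⟨ν, by simpa using h1, fun x hx => by simpa [hx] using h2 x hx⟩
    · obtain ⟨N, rfl⟩ := Nat.exists_eq_add_one_of_ne_zero (n := N) (by omega)
      obtain ⟨ν, h1, h2⟩ := ih (N := N) (by omega)
      exact ⟨Fin.cons (a + 1) ν, by simp [Fin.sum_univ_succ, h1], fun x hx => by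
        simp [Fin.prod_univ_succ, h2 x hx]⟩

theorem exists_sorted (l : List ℕ) (h : l.sum ≤ N) : ∃ ν : Fin N → ℕ, Antitone ν ∧
    ∑ t, ν t = l.sum ∧ ∀ {M : Type 1} [CommMonoid M] (x : ℕ → M), x 0 = 1 →
      (l.map x).prod = ∏ t, x (ν t) := by
  obtain ⟨ν, h1, h2⟩ := Cn_ex l h
  exact ⟨ν ∘ Tuple.sort (OrderDual.toDual ∘ ν), Tuple.monotone_sort (OrderDual.toDual ∘ ν),
    (Equiv.sum_comp _ ν).trans h1, fun x hx =>
      (h2 x hx).trans (Equiv.prod_comp _ fun t => x (ν t)).symm⟩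

end PD
end

-- merged part: Pool.Agent.Work.MP_cea1f0_al.D.Wh
section
/-!
# Whittaker functionals  (tasks PD WhA, PD WhB, PD WhC, PD WhD, PD WhE)

`Un` is the group of the upper unitriangular matrices, `sd` the sum of the entries above the diagonal.
* `card_Un`: `(u - 1) ^ n = 0`, so `u ^ r ^ k = 1` for the characteristic `r` and `r ^ k ≥ n`; `IsPGroup.iff_card`.
* `un_dich`: say that `j < n` is a jump of `N` if some `w ∈ N ⊓ st (j + 1)` has `w j ≠ 0`.  If `j` is a jump and `j + 1 < n` is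
  not, then `e (j + 1) ∉ N ⊔ st (j + 1)`; take a functional `ξ` that vanishes on `N ⊔ st (j + 1)` with `ξ (e (j + 1)) = 1`
  and `u = 1 + t • ξ.smulRight w`.  Otherwise the jumps are the `j` with `n ≤ j + a` for some `a ≤ n`; let `u` fix `e j` for the
  other `j` and send `e j` to a vector `w j ∈ N ⊓ st (j + 1)` with `w j j = 1` for the jumps.  Then `u` maps `nt n a` into `N`, and
  every `x ∈ N ⊓ st k` lies in the image, by induction on `k`.
* `un_block`: block diagonal matrices; `Fin.append`, `Fin.castAdd`, `Fin.natAdd`, or `Matrix.fromBlocks` with `finSumFinEquiv`;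
  the entry that links the two blocks vanishes.
* `om_mul`: `om n (f * g) = (card Un)⁻¹ * ∑ N, T N` with `T N` the sum over the `u ∈ Un` that stabilise `N`.  `T` is constant on
  the orbits of `Un` (conjugate; `sd` is a homomorphism to an abelian group).  In the first case of `un_dich`, the substitution
  `u ↦ u * u₀` multiplies `T N` by `star (ψ c) ≠ 1` (the actions on `N` and on the quotient do not change).  The orbits of the
  `nt n a` are disjoint (dimension); orbit-stabiliser and `un_block`.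
* `Dw_om_hh`: induction on `s` for the product over a finset `s`, `Dw_mul`, `Gl.Dw_cmp`.
* `Wl_prim`: `Dw (om a) (x * y) = x * Dw (om a) y + om d x • Dw (om (a - d)) y` (second term only for `d ≤ a`).  First show
  `Wl μ (x * y) = ∑ i, om d x * Wl (μ with μ i replaced by μ i - d) y` over the positions with `d ≤ μ i`, or prove the bound by
  a double induction: the norm of `Wl μ` on products of `r` such elements is at most `length ^ r`, via the binomial formula.
-/

namespace PD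

open Ob CF Polynomial Module Finset

variable {K : Type} [Field K]

/-- The standard flag. -/
def st (K : Type) [Field K] (n k : ℕ) : Submodule K (Fin n → K) where
  carrier := {x | ∀ i : Fin n, k ≤ i → x i = 0}
  add_mem' hx hy i hi := by rw [Pi.add_apply, hx i hi, hy i hi, add_zero]
  zero_mem' _ _ := rfl
  smul_mem' c x hx i hi := by rw [Pi.smul_apply, hx i hi, smul_zero]

/-- The span of the last `a` basis vectors. -/
def nt (K : Type) [Field K] (n a : ℕ) : Submodule K (Fin n → K) where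
  carrier := {x | ∀ i : Fin n, i + a < n → x i = 0}
  add_mem' hx hy i hi := by rw [Pi.add_apply, hx i hi, hy i hi, add_zero]
  zero_mem' _ _ := rfl
  smul_mem' c x hx i hi := by rw [Pi.smul_apply, hx i hi, smul_zero]

/-- Upper unitriangular. -/
def IsUn {n : ℕ} (u : End K (Fin n → K)) : Prop := ∀ k, ∀ x ∈ st K n (k + 1), u x - x ∈ st K n k

/-- The sum of the entries above the diagonal. -/
noncomputable def sd {n : ℕ} (u : End K (Fin n → K)) : K :=
  ∑ i : Fin n, ∑ j : Fin n, if (j : ℕ) = i + 1 then u (Pi.single j 1) i else 0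

/-! ### Task PD WhA -/

theorem WhA_mono {n j k : ℕ} (h : j ≤ k) {x : Fin n → K} (hx : x ∈ st K n j) : x ∈ st K n k :=
  fun i hi => hx i (h.trans hi)

theorem WhA_zero {n : ℕ} {x : Fin n → K} (hx : x ∈ st K n 0) : x = 0 :=
  funext fun i => hx i (Nat.zero_le _)

theorem WhA_top {n k : ℕ} (h : n ≤ k) (x : Fin n → K) : x ∈ st K n k :=
  fun i hi => absurd (i.2.trans_le h) hi.not_gt

theorem WhA_map {n : ℕ} {u : End K (Fin n → K)} (hu : IsUn u) {k : ℕ} {x : Fin n → K}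
    (hx : x ∈ st K n k) : u x ∈ st K n k := by
  cases k with
  | zero => rw [WhA_zero hx, map_zero]; exact zero_mem _
  | succ k => exact sub_add_cancel (u x) x ▸ add_mem (WhA_mono k.le_succ (hu k x hx)) hx

theorem WhA_comap {n : ℕ} {u : End K (Fin n → K)} (hu : IsUn u) {k : ℕ} {x : Fin n → K}
    (hx : u x ∈ st K n k) : x ∈ st K n k := by
  have h : ∀ j, x ∈ st K n (k + j) → x ∈ st K n k := fun j => by
    induction j with
    | zero => exact id
    | succ j ih =>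
      exact fun h => ih (sub_sub_cancel (u x) x ▸ sub_mem (WhA_mono (k.le_add_right j) hx) (hu _ x h))
  exact h n (WhA_top (n.le_add_left k) x)

theorem WhA_nil {n : ℕ} {u : End K (Fin n → K)} (hu : IsUn u) : (u - 1) ^ n = 0 := by
  have h : ∀ k, ∀ x ∈ st K n k, ((u - 1) ^ k) x = 0 := fun k => by
    induction k with
    | zero => exact fun x hx => WhA_zero hx
    | succ k ih => exact fun x hx => by rw [pow_succ]; exact ih _ (hu k x hx)
  exact LinearMap.ext fun x => h n x (WhA_top le_rfl x)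

theorem IsUn.mul {n : ℕ} {u v : End K (Fin n → K)} (hu : IsUn u) (hv : IsUn v) : IsUn (u * v) := by
  intro k x hx
  exact sub_add_sub_cancel (u (v x)) (v x) x ▸ add_mem (hu k _ (WhA_map hv hx)) (hv k x hx)

theorem IsUn.inv {n : ℕ} {u : Gn K n} (hu : IsUn u.1) : IsUn (u⁻¹).1 := by
  intro k x hx
  have e : u.1 ((u⁻¹).1 x) = x := LinearMap.congr_fun u.mul_inv x
  have h := neg_mem (hu k _ (WhA_comap hu (e.symm ▸ hx)))
  rwa [e, neg_sub] at h

theorem IsUn.isUnit {n : ℕ} {u : End K (Fin n → K)} (hu : IsUn u) : IsUnit u := by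
  simpa using IsNilpotent.isUnit_add_one ⟨n, WhA_nil hu⟩

/-- The group of the upper unitriangular matrices. -/
def Un (K : Type) [Field K] (n : ℕ) : Subgroup (Gn K n) where
  carrier := {u | IsUn u.1}
  mul_mem' := IsUn.mul
  one_mem' k x _ := by simp
  inv_mem' := IsUn.inv

theorem sd_mul {n : ℕ} {u v : End K (Fin n → K)} (hu : IsUn u) (hv : IsUn v) :
    sd (u * v) = sd u + sd v := by
  simp only [sd, ← sum_add_distrib]
  refine sum_congr rfl fun i _ => sum_congr rfl fun j _ => ?_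
  split_ifs with h
  · have h1 := hv j (Pi.single j 1) fun l hl => Pi.single_eq_of_ne (fun e => by omega) _
    have h2 := hu i _ (h ▸ h1) i le_rfl
    have h3 : (Pi.single j 1 : Fin n → K) i = 0 := Pi.single_eq_of_ne (fun e => by omega) _
    simp only [map_sub, Pi.sub_apply, h3] at h2
    rw [End.mul_apply]
    linear_combination h2
  · rw [add_zero]

theorem cp_Un {n : ℕ} {u : Gn K n} (hu : u ∈ Un K n) : (of u).cp = (X - 1) ^ n := by
  have h := LinearMap.charpoly_sub_smul (u.1 - 1) (-1)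
  rw [(show IsNilpotent (u.1 - 1) from ⟨n, WhA_nil hu⟩).charpoly_eq_X_pow_finrank,
    show u.1 - 1 - (-1 : K) • 1 = u.1 from LinearMap.ext fun x => by simp] at h
  exact h.trans (by simp [sub_eq_add_neg])

theorem Un_le_one {n : ℕ} (hn : n ≤ 1) : Un K n = ⊥ := by
  refine (Subgroup.eq_bot_iff_forall _).2 fun u hu => Units.ext (LinearMap.ext fun x => ?_)
  exact sub_eq_zero.1 (WhA_zero (hu 0 x (WhA_top hn x)))

theorem exists_sd {n : ℕ} (hn : 1 < n) (c : K) : ∃ u ∈ Un K n, sd u.1 = c := by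
  obtain ⟨m, rfl⟩ : ∃ m, n = m + 2 := ⟨n - 2, by omega⟩
  let u : End K (Fin (m + 2) → K) := 1 + (LinearMap.proj 1).smulRight (Pi.single 0 c)
  have hu : IsUn u := fun k x hx i hi => by
    cases k with
    | zero => simp [u, hx 1 le_rfl]
    | succ k => simp [u, Pi.single_eq_of_ne (show i ≠ 0 from fun e => by simp [e] at hi)]
  refine ⟨hu.isUnit.unit, hu, ?_⟩
  rw [IsUnit.unit_spec, sd,
    sum_eq_single_of_mem 0 (mem_univ _) fun i _ hi => sum_eq_zero fun j _ => ?_]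
  · exact (sum_eq_single_of_mem 1 (mem_univ _) fun j _ hj => if_neg fun e => hj (Fin.ext e)).trans
      (by simp [u])
  · split_ifs with e
    · simp [u, Pi.single_eq_of_ne hi, Pi.single_eq_of_ne (show i ≠ j from fun l => by omega)]
    · rfl

theorem finrank_nt {n a : ℕ} (h : a ≤ n) : finrank K (nt K n a) = a := by
  obtain ⟨b, rfl⟩ := Nat.exists_eq_add_of_le' h
  let f := LinearMap.funLeft K K (Fin.castAdd a : Fin b → _)
  have e : nt K (b + a) a = LinearMap.ker f := by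
    ext x
    refine ⟨fun k => funext fun i => k _ (Nat.add_lt_add_right i.2 a), fun k i hi => ?_⟩
    exact congrFun k ⟨i, by omega⟩
  have k := f.finrank_range_add_finrank_ker
  rw [LinearMap.range_eq_top.2 (LinearMap.funLeft_surjective_of_injective K K _
    (Fin.castAdd_injective b a)), finrank_top, finrank_fin_fun, finrank_fin_fun, ← e] at k
  omega

variable [Finite K]

theorem card_Un (n : ℕ) {p : ℕ} (hp : (Nat.card K).Coprime p) : (Nat.card (Un K n)).Coprime p := by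
  have := Fintype.ofFinite K
  obtain ⟨r, hr⟩ := CharP.exists K
  have pr := Fact.mk (CharP.char_is_prime K r)
  have h : IsPGroup r (Un K n) := fun u => ⟨n, Subtype.ext (Units.ext ?_)⟩
  · obtain ⟨m, e⟩ := IsPGroup.iff_card.1 h
    rw [e]
    refine .pow_left m (hp.coprime_dvd_left ((CharP.cast_eq_zero_iff K r _).1 ?_))
    rw [Nat.card_eq_fintype_card, Nat.cast_card_eq_zero]
  · obtain ⟨y, e⟩ := (Commute.one_right (u.1.1 - 1)).exists_add_pow_prime_pow_eq pr.out n
    have r0 : (r : End K (Fin n → K)) = 0 := by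
      rw [← map_natCast (algebraMap K _), CharP.cast_eq_zero, map_zero]
    rw [pow_eq_zero_of_le (Nat.lt_pow_self pr.out.one_lt).le (WhA_nil u.2), r0] at e
    simpa using e

open scoped Classical in
/-- The Whittaker functional. -/
noncomputable def om (ψ : AddChar K ℂ) (n : ℕ) : HA K →ₗ[ℂ] ℂ where
  toFun f := (Nat.card (Un K n) : ℂ)⁻¹ * ∑ u : Un K n, cf (Fin n → K) f u.1 * star (ψ (sd u.1.1))
  map_add' f g := by simp only [map_add, Pi.add_apply, add_mul, sum_add_distrib, mul_add]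
  map_smul' c f := by
    simp only [map_smul, Pi.smul_apply, smul_eq_mul, RingHom.id_apply, mul_assoc, ← mul_sum]
    ring

variable {ψ : AddChar K ℂ}

theorem exists_psi (K : Type) [Field K] [Finite K] : ∃ ψ : AddChar K ℂ, ψ ≠ 1 := by
  obtain ⟨ψ, h⟩ := (AddChar.exists_apply_ne_zero (a := (1 : K))).2 one_ne_zero
  exact ⟨ψ, AddChar.ne_one_iff.2 ⟨1, h⟩⟩

omit [Finite K] in
theorem WhA_sd_one (n : ℕ) : sd (1 : End K (Fin n → K)) = 0 := by
  simpa using sd_mul (Un K n).one_mem (Un K n).one_mem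

/-- The character of the unitriangular group. -/
noncomputable def WhA_chi (ψ : AddChar K ℂ) (n : ℕ) : Un K n →* ℂ where
  toFun u := ψ (sd u.1.1)
  map_one' := (congrArg ψ (WhA_sd_one n)).trans ψ.map_zero_eq_one
  map_mul' u v := (congrArg ψ (sd_mul u.2 v.2)).trans (ψ.map_add_eq_mul _ _)

theorem real_om (ψ : AddChar K ℂ) (n : ℕ) {p : ℕ} (hp : (Nat.card K).Coprime p) :
    Real p (Fin n → K) (om ψ n) := by
  exact ⟨Un K n, _, _, (Un K n).subtype, (WhA_chi ψ n).toHomUnits, card_Un n hp, fun _ => rfl⟩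

theorem om_nat (n : ℕ) {f : HA K} (hf : IsCh f) : ∃ k : ℕ, om ψ n f = k := by
  exact (real_om ψ n (Nat.coprime_one_right _)).nat hf

theorem om_hom {n a : ℕ} {f : HA K} (hf : Hom a f) (h : a ≠ n) : om ψ n f = 0 := by
  exact (real_om ψ n (Nat.coprime_one_right _)).hom hf (by rw [finrank_fin_fun]; exact h.symm)

theorem om_cmp (n : ℕ) (f : HA K) : om ψ n (cmp n f) = om ψ n f := by
  simpa only [finrank_fin_fun] using (real_om ψ n (Nat.coprime_one_right _)).cmp f

theorem WhA_le_one {n : ℕ} (hn : n ≤ 1) (f : HA K) : om ψ n f = f.1 (of (1 : Gn K n)) := by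
  classical
  have : Subsingleton (Un K n) := by rw [Un_le_one hn]; infer_instance
  simp only [om, LinearMap.coe_mk, AddHom.coe_mk]
  rw [Fintype.sum_subsingleton _ 1, Nat.card_of_subsingleton (1 : Un K n)]
  simp [WhA_sd_one, cf_apply]

theorem om_zero (f : HA K) : om ψ 0 f = eps f := by
  exact WhA_le_one zero_le_one f

theorem om_mf (n : ℕ) (A : K[X] → ℂ) (f : HA K) : om ψ n (mf A f) = A ((X - 1) ^ n) * om ψ n f := by
  simp only [om, LinearMap.coe_mk, AddHom.coe_mk]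
  rw [mul_left_comm, mul_sum _ _ (A _)]
  refine congrArg _ (sum_congr rfl fun u _ => ?_)
  rw [cf_apply, mf_val, cp_Un u.2, mul_assoc, cf_apply]

theorem om_HH (hψ : ψ ≠ 1) (n : ℕ) : om ψ n (HH K) = if n ≤ 1 then 1 else 0 := by
  classical
  split_ifs with h
  · exact WhA_le_one h _
  obtain ⟨c, hc⟩ := AddChar.ne_one_iff.1 hψ
  obtain ⟨u, hu, rfl⟩ := exists_sd (not_le.1 h) c
  refine mul_eq_zero_of_right _ ((sum_congr rfl fun _ _ => one_mul _).trans ?_)
  rw [← star_sum, star_eq_zero]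
  exact sum_hom_units_eq_zero (WhA_chi ψ n) fun e =>
    hc (show WhA_chi ψ n ⟨u, hu⟩ = 1 from by rw [e, MonoidHom.one_apply])

/-! ### Task PD WhB -/

omit [Finite K] in
theorem WhB_one {n : ℕ} {N : Submodule K (Fin n → K)} {i j : Fin n} (hij : (j : ℕ) = i + 1)
    {w : Fin n → K} (w1 : w ∈ N) (w2 : w ∈ st K n (i + 1)) (w3 : w i = 1)
    (hj : ¬∃ x ∈ N, x ∈ st K n (j + 1) ∧ x j = 1) (c : K) :
    ∃ u ∈ Un K n, (∀ x ∈ N, u.1 x = x) ∧ (∀ x, u.1 x - x ∈ N) ∧ sd u.1 = c := by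
  have h : (Pi.single j 1 : Fin n → K) ∉ N ⊔ st K n j := fun h => by
    obtain ⟨x, hx, y, hy, e⟩ := Submodule.mem_sup.1 h
    refine hj ⟨x, hx, fun l hl => ?_, ?_⟩
    · have := congrFun e l
      rwa [Pi.add_apply, hy l (by omega), add_zero,
        Pi.single_eq_of_ne (by rintro rfl; omega)] at this
    · have := congrFun e j
      rwa [Pi.add_apply, hy j le_rfl, add_zero, Pi.single_eq_same] at this
  obtain ⟨ξ, h1, h2⟩ := Submodule.exists_le_ker_of_notMem h
  have h3 (x) (hx : x ∈ N) : ξ x = 0 := h2 (Submodule.mem_sup_left hx)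
  have h4 (x) (hx : x ∈ st K n j) : ξ x = 0 := h2 (Submodule.mem_sup_right hx)
  obtain ⟨v, hv⟩ : ∃ v : End K (Fin n → K), ∀ x, v x = x + (c / ξ (Pi.single j 1) * ξ x) • w :=
    ⟨1 + ((c / ξ (Pi.single j 1)) • ξ).smulRight w, fun _ => rfl⟩
  have hu : IsUn v := fun k x hx => by
    rw [hv, add_sub_cancel_left]
    by_cases e : k + 1 ≤ j
    · rw [h4 x fun l hl => hx l (e.trans hl), mul_zero, zero_smul]
      exact zero_mem _
    · exact Submodule.smul_mem _ _ fun l hl => w2 l (by omega)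
  refine ⟨hu.isUnit.unit, hu, fun x hx => ?_, fun x => ?_, ?_⟩
  · rw [IsUnit.unit_spec, hv, h3 x hx, mul_zero, zero_smul, add_zero]
  · rw [IsUnit.unit_spec, hv, add_sub_cancel_left]
    exact N.smul_mem _ w1
  · rw [IsUnit.unit_spec, sd, sum_eq_single i, sum_eq_single j, if_pos hij, hv, Pi.add_apply,
      Pi.single_eq_of_ne (by rintro rfl; omega), zero_add, Pi.smul_apply, w3, smul_eq_mul, mul_one,
      div_mul_cancel₀ _ h1]
    · exact fun l _ hl => if_neg fun e => hl (Fin.ext (e.trans hij.symm))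
    · exact fun h => absurd (mem_univ _) h
    · refine fun i' _ hi => sum_eq_zero fun l _ => ?_
      split_ifs with e
      · rw [hv, Pi.add_apply, Pi.single_eq_of_ne (by rintro rfl; omega), zero_add, Pi.smul_apply,
          smul_eq_mul]
        rcases lt_or_gt_of_ne hi with h | h
        · rw [h4 (Pi.single l 1) fun m hm => Pi.single_eq_of_ne (by rintro rfl; omega) _,
            mul_zero, zero_mul]
        · rw [w2 i' h, mul_zero]
      · rfl
    · exact fun h => absurd (mem_univ _) h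

omit [Finite K] in
theorem WhB_two {n a : ℕ} {N : Submodule K (Fin n → K)}
    (h : ∀ j : Fin n, (∃ x ∈ N, x ∈ st K n (j + 1) ∧ x j = 1) ↔ n ≤ j + a) :
    ∃ u ∈ Un K n, N = (nt K n a).map u.1 := by
  have hW (j : Fin n) : ∃ x, (n ≤ j + a → x ∈ N) ∧ x ∈ st K n (j + 1) ∧ x j = 1 := by
    by_cases e : n ≤ j + a
    · exact ((h j).2 e).imp fun x hx => ⟨fun _ => hx.1, hx.2⟩
    · exact ⟨Pi.single j 1, fun e' => absurd e' e,
        fun l hl => Pi.single_eq_of_ne (by rintro rfl; omega) _, Pi.single_eq_same _ _⟩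
  choose W w1 w2 w3 using hW
  have hu : IsUn (Fintype.linearCombination K W) := fun k x hx l hl => by
    rw [Pi.sub_apply, Fintype.linearCombination_apply, Finset.sum_apply, sum_eq_single l,
      Pi.smul_apply, w3, smul_eq_mul, mul_one, sub_self]
    · intro j _ hj
      rw [Pi.smul_apply, smul_eq_mul]
      rcases lt_or_gt_of_ne hj with e | e
      · rw [w2 j l e, mul_zero]
      · rw [hx j (by omega), zero_mul]
    · exact fun h => absurd (mem_univ _) h
  refine ⟨hu.isUnit.unit, hu, ?_⟩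
  rw [IsUnit.unit_spec]
  have key (k : ℕ) : ∀ x ∈ N, x ∈ st K n k →
      x ∈ (nt K n a).map (Fintype.linearCombination K W) := by
    induction k with
    | zero =>
      intro x _ hx
      rw [show x = 0 from funext fun l => hx l (Nat.zero_le _)]
      exact zero_mem _
    | succ k ih =>
      intro x hN hx
      by_cases e : ∃ j : Fin n, (j : ℕ) = k ∧ x j ≠ 0
      · obtain ⟨j, rfl, h0⟩ := e
        have hj := (h j).1 ⟨(x j)⁻¹ • x, N.smul_mem _ hN, Submodule.smul_mem _ _ hx,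
          inv_mul_cancel₀ h0⟩
        rw [← sub_add_cancel x (x j • W j)]
        refine add_mem (ih _ (sub_mem hN (N.smul_mem _ (w1 j hj))) fun l hl => ?_)
          (Submodule.smul_mem _ _ ⟨Pi.single j 1,
            fun l hl => Pi.single_eq_of_ne (by rintro rfl; omega) _, by simp⟩)
        rw [Pi.sub_apply, Pi.smul_apply, smul_eq_mul]
        rcases hl.eq_or_lt with e | e
        · rw [← Fin.ext e, w3, mul_one, sub_self]
        · rw [hx l e, w2 j l e, mul_zero, sub_self]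
      · refine ih x hN fun l hl => ?_
        rcases hl.eq_or_lt with e' | e'
        · exact by_contra fun h0 => e ⟨l, e'.symm, h0⟩
        · exact hx l e'
  refine le_antisymm (fun x hx => key n x hx fun l hl => absurd l.2 (not_lt.2 hl)) ?_
  rintro _ ⟨x, hx, rfl⟩
  rw [Fintype.linearCombination_apply]
  refine sum_mem fun j _ => ?_
  by_cases e : n ≤ j + a
  · exact N.smul_mem _ (w1 j e)
  · rw [hx j (not_le.1 e), zero_smul]
    exact zero_mem _

omit [Finite K] in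
theorem un_dich {n : ℕ} (N : Submodule K (Fin n → K)) :
    (∀ c : K, ∃ u ∈ Un K n, (∀ x ∈ N, u.1 x = x) ∧ (∀ x, u.1 x - x ∈ N) ∧ sd u.1 = c) ∨
      ∃ a ≤ n, ∃ u ∈ Un K n, N = (nt K n a).map u.1 := by
  classical
  by_cases h : ∃ i j : Fin n, (j : ℕ) = i + 1 ∧ (∃ x ∈ N, x ∈ st K n (i + 1) ∧ x i = 1) ∧
      ¬∃ x ∈ N, x ∈ st K n (j + 1) ∧ x j = 1
  · obtain ⟨i, j, hij, ⟨w, w1, w2, w3⟩, hj⟩ := h
    exact .inl (WhB_one hij w1 w2 w3 hj)
  have h0 : ∃ m : ℕ, ∀ j : Fin n, m ≤ j → ∃ x ∈ N, x ∈ st K n (j + 1) ∧ x j = 1 :=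
    ⟨n, fun j hj => absurd j.2 (not_lt.2 hj)⟩
  refine .inr ⟨n - Nat.find h0, Nat.sub_le _ _, WhB_two fun i => ⟨fun hi => ?_, fun hi => ?_⟩⟩
  · have key (d : ℕ) : ∀ j : Fin n, (j : ℕ) = i + d → ∃ x ∈ N, x ∈ st K n (j + 1) ∧ x j = 1 := by
      induction d with
      | zero =>
        intro j hj
        rwa [show j = i from Fin.ext hj]
      | succ d ih =>
        intro j hj
        exact by_contra fun hn => h ⟨⟨i + d, by omega⟩, j, hj, ih _ rfl, hn⟩
    have : Nat.find h0 ≤ i := Nat.find_min' h0 fun j hj => key (j - i) j (by omega)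
    omega
  · refine Nat.find_spec h0 i ?_
    have := i.2
    omega

/-! ### Task PD WhC -/

/-- The inclusion of the first coordinates. -/
def WhC_i1 (K : Type) [Field K] (b a : ℕ) : (Fin b → K) →ₗ[K] (Fin (b + a) → K) where
  toFun x := Fin.append x 0
  map_add' x y := funext fun i => by
    refine Fin.addCases (fun j => ?_) (fun j => ?_) i <;> simp
  map_smul' c x := funext fun i => by
    refine Fin.addCases (fun j => ?_) (fun j => ?_) i <;> simp

/-- The inclusion of the last coordinates. -/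
def WhC_i2 (K : Type) [Field K] (b a : ℕ) : (Fin a → K) →ₗ[K] (Fin (b + a) → K) where
  toFun x := Fin.append 0 x
  map_add' x y := funext fun i => by
    refine Fin.addCases (fun j => ?_) (fun j => ?_) i <;> simp
  map_smul' c x := funext fun i => by
    refine Fin.addCases (fun j => ?_) (fun j => ?_) i <;> simp

/-- The projection to the first coordinates. -/
def WhC_p1 (K : Type) [Field K] (b a : ℕ) : (Fin (b + a) → K) →ₗ[K] (Fin b → K) :=
  LinearMap.funLeft K K (Fin.castAdd a)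

/-- The projection to the last coordinates. -/
def WhC_p2 (K : Type) [Field K] (b a : ℕ) : (Fin (b + a) → K) →ₗ[K] (Fin a → K) :=
  LinearMap.funLeft K K (Fin.natAdd b)

section WhC

omit [Finite K]

variable {b a : ℕ}

theorem WhC_11 (x : Fin b → K) : WhC_p1 K b a (WhC_i1 K b a x) = x :=
  funext fun i => Fin.append_left _ _ i

theorem WhC_21 (x : Fin b → K) : WhC_p2 K b a (WhC_i1 K b a x) = 0 :=
  funext fun i => Fin.append_right _ _ i

theorem WhC_12 (x : Fin a → K) : WhC_p1 K b a (WhC_i2 K b a x) = 0 :=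
  funext fun i => Fin.append_left _ _ i

theorem WhC_22 (x : Fin a → K) : WhC_p2 K b a (WhC_i2 K b a x) = x :=
  funext fun i => Fin.append_right _ _ i

theorem WhC_ext {x y : Fin (b + a) → K} (h1 : WhC_p1 K b a x = WhC_p1 K b a y)
    (h2 : WhC_p2 K b a x = WhC_p2 K b a y) : x = y :=
  funext fun i => Fin.addCases (fun j => congrFun h1 j) (fun j => congrFun h2 j) i

theorem WhC_dec (x : Fin (b + a) → K) :
    WhC_i1 K b a (WhC_p1 K b a x) + WhC_i2 K b a (WhC_p2 K b a x) = x :=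
  WhC_ext (by rw [map_add, WhC_11, WhC_12, add_zero]) (by rw [map_add, WhC_21, WhC_22, zero_add])

theorem WhC_nt {x : Fin (b + a) → K} : x ∈ nt K (b + a) a ↔ WhC_p1 K b a x = 0 :=
  ⟨fun h => funext fun i => h (Fin.castAdd a i) (by have := i.2; simp only [Fin.val_castAdd]; omega),
    fun h i hi => congrFun h ⟨i, by omega⟩⟩

theorem WhC_st {k : ℕ} {x : Fin (b + a) → K} :
    x ∈ st K (b + a) k ↔ WhC_p1 K b a x ∈ st K b k ∧ ∀ i : Fin a, k ≤ b + i → WhC_p2 K b a x i = 0 :=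
  ⟨fun h => ⟨fun i hi => h (Fin.castAdd a i) hi, fun i hi => h (Fin.natAdd b i) hi⟩,
    fun h i => Fin.addCases (motive := fun i => k ≤ i.1 → x i = 0) h.1 h.2 i⟩

theorem WhC_low {u : End K (Fin (b + a) → K)} (hu : IsUn u) (x : Fin b → K) :
    WhC_p2 K b a (u (WhC_i1 K b a x)) = 0 := by
  have h := (WhC_st.1 (hu b (WhC_i1 K b a x) (WhC_st.2 ⟨fun i hi => by omega,
    fun i _ => by rw [WhC_21]; rfl⟩))).2
  rw [map_sub, WhC_21, sub_zero] at h
  exact funext fun i => h i (by omega)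

theorem WhC_un1 {u : End K (Fin (b + a) → K)} (hu : IsUn u) :
    IsUn (WhC_p1 K b a ∘ₗ u ∘ₗ WhC_i1 K b a) := fun k x hx => by
  have h := (WhC_st.1 (hu k (WhC_i1 K b a x) (WhC_st.2 ⟨by rwa [WhC_11],
    fun i _ => by rw [WhC_21]; rfl⟩))).1
  rwa [map_sub, WhC_11] at h

theorem WhC_un2 {u : End K (Fin (b + a) → K)} (hu : IsUn u) :
    IsUn (WhC_p2 K b a ∘ₗ u ∘ₗ WhC_i2 K b a) := fun k x hx => by
  have h := (WhC_st.1 (hu (b + k) (WhC_i2 K b a x) (WhC_st.2 ⟨by rw [WhC_12]; exact zero_mem _,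
    fun i hi => by rw [WhC_22]; exact hx i (by omega)⟩))).2
  rw [map_sub, WhC_22] at h
  exact fun i hi => h i (by omega)

theorem WhC_un {v : End K (Fin a → K)} {w : End K (Fin b → K)} (hv : IsUn v) (hw : IsUn w) :
    IsUn (WhC_i1 K b a ∘ₗ w ∘ₗ WhC_p1 K b a + WhC_i2 K b a ∘ₗ v ∘ₗ WhC_p2 K b a) := fun k x hx => by
  obtain ⟨h1, h2⟩ := WhC_st.1 hx
  refine WhC_st.2 ⟨?_, fun i hi => ?_⟩
  · simpa only [map_sub, map_add, LinearMap.add_apply, LinearMap.comp_apply, WhC_11, WhC_12,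
      add_zero] using hw k _ h1
  · simpa only [map_sub, map_add, LinearMap.add_apply, LinearMap.comp_apply, WhC_21, WhC_22,
      zero_add] using hv (k - b) (WhC_p2 K b a x) (fun j hj => h2 j (by omega)) i (by omega)

theorem WhC_s1 (j : Fin b) :
    (Pi.single (Fin.castAdd a j) 1 : Fin (b + a) → K) = WhC_i1 K b a (Pi.single j 1) := by
  refine WhC_ext ((funext fun i => ?_).trans (WhC_11 _).symm)
    ((funext fun i => ?_).trans (WhC_21 _).symm)
  · simp [WhC_p1, LinearMap.funLeft_apply, Pi.single_apply]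
  · exact Pi.single_eq_of_ne (fun h => by
      have := congrArg Fin.val h; have := j.2; simp at *; omega) _

theorem WhC_s2 (j : Fin a) :
    (Pi.single (Fin.natAdd b j) 1 : Fin (b + a) → K) = WhC_i2 K b a (Pi.single j 1) := by
  refine WhC_ext ((funext fun i => ?_).trans (WhC_12 _).symm)
    ((funext fun i => ?_).trans (WhC_22 _).symm)
  · exact Pi.single_eq_of_ne (fun h => by
      have := congrArg Fin.val h; have := i.2; simp at *; omega) _
  · simp [WhC_p2, LinearMap.funLeft_apply, Pi.single_apply]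

theorem WhC_sd {u : End K (Fin (b + a) → K)} (hu : IsUn u)
    (h : ∀ y, WhC_p1 K b a (u (WhC_i2 K b a y)) = 0) :
    sd u = sd (WhC_p2 K b a ∘ₗ u ∘ₗ WhC_i2 K b a) + sd (WhC_p1 K b a ∘ₗ u ∘ₗ WhC_i1 K b a) := by
  have e1 : ∀ y i, u (WhC_i2 K b a y) (Fin.castAdd a i) = 0 := fun y i => congrFun (h y) i
  have e2 : ∀ x i, u (WhC_i1 K b a x) (Fin.natAdd b i) = 0 := fun x i => congrFun (WhC_low hu x) i
  simp only [sd, Fin.sum_univ_add, WhC_s1, WhC_s2, e1, e2, ite_self, sum_const_zero, add_zero,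
    zero_add, Fin.val_castAdd, Fin.val_natAdd, add_assoc, add_right_inj]
  exact add_comm _ _

end WhC

omit [Finite K] in
theorem un_block (b a : ℕ) : ∃ e : {u : Un K (b + a) // ∀ x ∈ nt K (b + a) a, u.1.1 x ∈ nt K (b + a) a} ≃
    Un K a × Un K b, ∀ u, Iso ((of u.1.1).sub ⟨nt K (b + a) a, u.2⟩) (of (e u).1.1) ∧
      Iso ((of u.1.1).quo ⟨nt K (b + a) a, u.2⟩) (of (e u).2.1) ∧
      sd u.1.1.1 = sd (e u).1.1.1 + sd (e u).2.1.1 := by
  let S := {u : Un K (b + a) // ∀ x ∈ nt K (b + a) a, u.1.1 x ∈ nt K (b + a) a}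
  have h0 : ∀ (u : S) y, WhC_p1 K b a (u.1.1.1 (WhC_i2 K b a y)) = 0 := fun u y =>
    WhC_nt.1 (u.2 _ (WhC_nt.2 (WhC_12 y)))
  let G : S → Un K a × Un K b := fun u =>
    (⟨(WhC_un2 u.1.2).isUnit.unit, WhC_un2 u.1.2⟩, ⟨(WhC_un1 u.1.2).isUnit.unit, WhC_un1 u.1.2⟩)
  have h1 : ∀ (u : S) x, WhC_p1 K b a (u.1.1.1 x) = (G u).2.1.1 (WhC_p1 K b a x) := fun u x => by
    conv_lhs => rw [← WhC_dec x, map_add, map_add, h0, add_zero]
    rfl
  have h2 : ∀ (u : S) x, WhC_p2 K b a (u.1.1.1 x) = (G u).1.1.1 (WhC_p2 K b a x) := fun u x => by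
    conv_lhs => rw [← WhC_dec x, map_add, map_add, WhC_low u.1.2, zero_add]
    rfl
  have hG : Function.Bijective G := by
    refine ⟨fun u u' e => Subtype.ext (Subtype.ext (Units.ext (LinearMap.ext fun x =>
      WhC_ext (by rw [h1, h1, e]) (by rw [h2, h2, e])))), fun ⟨v, w⟩ => ?_⟩
    refine ⟨⟨⟨(WhC_un v.2 w.2).isUnit.unit, WhC_un v.2 w.2⟩, fun x hx => WhC_nt.2 ?_⟩,
      Prod.ext (Subtype.ext (Units.ext (LinearMap.ext fun x => ?_)))
        (Subtype.ext (Units.ext (LinearMap.ext fun x => ?_)))⟩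
    · simp only [IsUnit.unit_spec, map_add, LinearMap.add_apply, LinearMap.comp_apply, WhC_12,
        WhC_nt.1 hx, map_zero, add_zero]
    · simp only [G, IsUnit.unit_spec, map_add, LinearMap.add_apply, LinearMap.comp_apply, WhC_21,
        WhC_22, zero_add]
    · simp only [G, IsUnit.unit_spec, map_add, LinearMap.add_apply, LinearMap.comp_apply, WhC_11,
        WhC_12, add_zero]
  refine ⟨Equiv.ofBijective G hG, fun u => ⟨?_, ?_, WhC_sd u.1.2 (h0 u)⟩⟩
  · refine ObA_inj (nt K (b + a) a).subtype (WhC_i2 K b a) Subtype.val_injective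
      (Function.LeftInverse.injective WhC_22) ((Submodule.range_subtype _).trans ?_) u.1.1.1
      (fun _ => rfl) fun x => WhC_ext ((WhC_12 _).trans (h0 u x).symm) (WhC_22 _)
    ext x
    refine WhC_nt.trans ⟨fun h => ⟨WhC_p2 K b a x, ?_⟩, ?_⟩
    · have k := WhC_dec x
      rwa [h, map_zero, zero_add] at k
    · rintro ⟨y, rfl⟩
      exact WhC_12 y
  · exact ObA_surj (nt K (b + a) a).mkQ (WhC_p1 K b a) (Submodule.mkQ_surjective _)
      (Function.RightInverse.surjective WhC_11)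
      ((Submodule.ker_mkQ _).trans (Submodule.ext fun _ => WhC_nt)) u.1.1.1 (fun _ => rfl) (h1 u)

/-! ### Task PD WhD -/

/-- The term of an element and a subspace. -/
noncomputable def WhD_W {n : ℕ} (f g : HA K) (u : Gn K n) (N : Submodule K (Fin n → K)) : ℂ :=
  star (AdjA_T ⟨fun _ => 1, fun _ _ _ => rfl⟩ f g u N)

omit [Finite K] in
theorem WhD_pos {n : ℕ} (f g : HA K) {u : Gn K n} {N : Submodule K (Fin n → K)}
    (h : ∀ x ∈ N, u.1 x ∈ N) :
    WhD_W f g u N = f.1 ((of u).sub ⟨N, h⟩) * g.1 ((of u).quo ⟨N, h⟩) := by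
  rw [WhD_W, AdjA_T, dif_pos h, one_mul, star_star]

omit [Finite K] in
theorem WhD_neg {n : ℕ} (f g : HA K) {u : Gn K n} {N : Submodule K (Fin n → K)}
    (h : ¬ ∀ x ∈ N, u.1 x ∈ N) : WhD_W f g u N = 0 := by
  rw [WhD_W, AdjA_T, dif_neg h, star_zero]

omit [Finite K] in
theorem WhD_mul {n : ℕ} (f g : HA K) (u : Gn K n) {u₀ : Gn K n} {N : Submodule K (Fin n → K)}
    (h1 : ∀ x ∈ N, u₀.1 x = x) (h2 : ∀ x, u₀.1 x - x ∈ N) :
    WhD_W f g (u * u₀) N = WhD_W f g u N := by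
  have e : ∀ x ∈ N, (u * u₀).1 x = u.1 x := fun x hx => congrArg u.1 (h1 x hx)
  by_cases h : ∀ x ∈ N, u.1 x ∈ N
  · have h' : ∀ x ∈ N, (u * u₀).1 x ∈ N := fun x hx => (e x hx).symm ▸ h x hx
    have k : ∀ x, N.mkQ ((u * u₀).1 x) = N.mkQ (u.1 x) := fun x =>
      (Submodule.Quotient.eq N).2 (by
        have := h _ (h2 x)
        rwa [map_sub] at this)
    rw [WhD_pos f g h, WhD_pos f g h',
      f.iso (AdjA_sub (M := of (u * u₀)) (M₁ := (of u).sub ⟨N, h⟩) ⟨N, h'⟩ N.subtype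
        N.injective_subtype N.range_subtype fun v => (e v.1 v.2).symm),
      g.iso (AdjA_quo (M := of (u * u₀)) (M₂ := (of u).quo ⟨N, h⟩) ⟨N, h'⟩ N.mkQ
        N.mkQ_surjective N.ker_mkQ.symm k)]
  · rw [WhD_neg f g h, WhD_neg f g fun h' => h fun x hx => e x hx ▸ h' x hx]

open scoped Classical in
/-- The sum over the stabiliser of a subspace. -/
noncomputable def WhD_T (ψ : AddChar K ℂ) {n : ℕ} (f g : HA K) (N : Submodule K (Fin n → K)) : ℂ :=
  ∑ u : Un K n, WhD_W f g u.1 N * star (ψ (sd u.1.1))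

theorem WhD_om {n : ℕ} [Fintype (Submodule K (Fin n → K))] (f g : HA K) :
    om ψ n (f * g) =
      (Nat.card (Un K n) : ℂ)⁻¹ * ∑ N : Submodule K (Fin n → K), WhD_T ψ f g N := by
  have e : ∀ u : Gn K n, cf (Fin n → K) (f * g) u = ∑ N, WhD_W f g u N := fun u => by
    have := congrArg star (AdjA_sum ⟨fun _ => 1, fun _ _ _ => rfl⟩ f g u)
    rwa [one_mul, star_star, star_sum] at this
  unfold WhD_T
  rw [sum_comm]
  simp only [← sum_mul, ← e]
  rfl

theorem WhD_conj {n : ℕ} (f g : HA K) (h : Un K n) (N : Submodule K (Fin n → K)) :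
    WhD_T ψ f g (N.map h.1.1) = WhD_T ψ f g N := by
  classical
  refine (Fintype.sum_equiv (MulAut.conj h).toEquiv _ _ fun u => ?_).symm
  have e1 : sd (h * u * h⁻¹).1.1 = sd (h * u).1.1 + sd h⁻¹.1.1 := sd_mul (h * u).2 h⁻¹.2
  have e2 : sd (h * u).1.1 = sd h.1.1 + sd u.1.1 := sd_mul h.2 u.2
  have e3 : sd (h⁻¹ * h * u).1.1 = sd (h⁻¹ * h).1.1 + sd u.1.1 := sd_mul (h⁻¹ * h).2 u.2
  have e4 : sd (h⁻¹ * h).1.1 = sd h⁻¹.1.1 + sd h.1.1 := sd_mul h⁻¹.2 h.2
  rw [e4, inv_mul_cancel, one_mul] at e3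
  have e5 : sd (h * u * h⁻¹).1.1 = sd u.1.1 := by
    rw [e1, e2]
    linear_combination -e3
  change _ = WhD_W f g (h.1 * u.1 * h.1⁻¹) _ * star (ψ (sd (h * u * h⁻¹).1.1))
  rw [e5, WhD_W, WhD_W, AdjA_conj]

theorem WhD_zero (hψ : ψ ≠ 1) {n : ℕ} (f g : HA K) {N : Submodule K (Fin n → K)}
    (h : ∀ c : K, ∃ u ∈ Un K n, (∀ x ∈ N, u.1 x = x) ∧ (∀ x, u.1 x - x ∈ N) ∧ sd u.1 = c) :
    WhD_T ψ f g N = 0 := by
  classical
  obtain ⟨c, hc⟩ := AddChar.ne_one_iff.1 hψ
  obtain ⟨u₀, h0, h1, h2, rfl⟩ := h c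
  have e : WhD_T ψ f g N * star (ψ (sd u₀.1)) = WhD_T ψ f g N := by
    unfold WhD_T
    rw [sum_mul]
    refine Fintype.sum_equiv (Equiv.mulRight (⟨u₀, h0⟩ : Un K n)) _ _ fun u => ?_
    change _ = WhD_W f g (u.1 * u₀) N * star (ψ (sd (u.1.1 * u₀.1)))
    rw [WhD_mul f g u.1 h1 h2, sd_mul u.2 h0, AddChar.map_add_eq_mul, star_mul', mul_assoc]
  by_contra k
  refine hc (star_injective ?_)
  rw [star_one]
  exact mul_left_cancel₀ k (e.trans (mul_one _).symm)

omit [Finite K] in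
theorem WhD_rk {n : ℕ} (u : Gn K n) (N : Submodule K (Fin n → K)) :
    finrank K (N.map u.1) = finrank K N :=
  (Submodule.equivMapOfInjective u.1 (of u).inj N).finrank_eq.symm

open scoped Classical in
theorem WhD_fib {n : ℕ} (N : Submodule K (Fin n → K)) (h₀ : Un K n) :
    (univ.filter fun h : Un K n => N.map h.1.1 = N.map h₀.1.1).card =
      Nat.card {u : Un K n // ∀ x ∈ N, u.1.1 x ∈ N} := by
  rw [← Fintype.card_subtype, ← Nat.card_eq_fintype_card]
  refine Nat.card_congr ((Equiv.mulLeft h₀⁻¹).subtypeEquiv fun h => ⟨fun h3 v hv => ?_, fun h3 => ?_⟩)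
  · obtain ⟨w, hw, h4⟩ : h.1.1 v ∈ N.map h₀.1.1 := h3 ▸ ⟨v, hv, rfl⟩
    change h₀.1⁻¹.1 (h.1.1 v) ∈ N
    rw [← h4, AdjA_inv]
    exact hw
  · refine Submodule.eq_of_le_of_finrank_eq ?_ ((WhD_rk _ _).trans (WhD_rk _ _).symm)
    rintro _ ⟨v, hv, rfl⟩
    exact ⟨_, h3 v hv, AdjA_inv h₀.1⁻¹ _⟩

open scoped Classical in
theorem WhD_key (b a : ℕ) [Fintype (Submodule K (Fin (b + a) → K))] (f g : HA K) :
    (Nat.card (Un K (b + a)) : ℂ)⁻¹ * ∑ N : Submodule K (Fin (b + a) → K),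
      (if ∃ u : Un K (b + a), N = (nt K (b + a) a).map u.1.1 then WhD_T ψ f g N else 0) =
        om ψ a f * om ψ b g := by
  obtain ⟨e, he⟩ := un_block (K := K) b a
  have h1 := AdjA_count (fun h : Un K (b + a) => (nt K (b + a) a).map h.1.1)
    (fun N => if ∃ u : Un K (b + a), N = (nt K (b + a) a).map u.1.1 then WhD_T ψ f g N else 0)
    (Nat.card (Un K a) * Nat.card (Un K b)) fun N hN => by
      obtain ⟨u, rfl⟩ : ∃ u : Un K (b + a), N = (nt K (b + a) a).map u.1.1 := by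
        by_contra k
        exact hN (if_neg k)
      rw [← Nat.card_prod, ← Nat.card_congr e]
      convert WhD_fib (nt K (b + a) a) u
  have h2 : WhD_T ψ f g (nt K (b + a) a) =
      (∑ u : Un K a, cf (Fin a → K) f u.1 * star (ψ (sd u.1.1))) *
        ∑ u : Un K b, cf (Fin b → K) g u.1 * star (ψ (sd u.1.1)) := by
    rw [sum_mul_sum, ← Fintype.sum_prod_type', ← e.sum_comp]
    refine (Fintype.sum_of_injective Subtype.val Subtype.val_injective _ _ (fun u hu => ?_)
      fun u => ?_).symm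
    · rw [WhD_neg f g fun k => hu ⟨⟨u, k⟩, rfl⟩, zero_mul]
    · rw [WhD_pos f g u.2, f.iso (he u).1, g.iso (he u).2.1, (he u).2.2, AddChar.map_add_eq_mul,
        star_mul', cf_apply, cf_apply]
      ring
  rw [sum_congr rfl fun h _ => (if_pos ⟨h, rfl⟩).trans (WhD_conj f g h _), sum_const, card_univ,
    nsmul_eq_mul, ← Nat.card_eq_fintype_card, h2, Nat.cast_mul] at h1
  have k1 : (Nat.card (Un K (b + a)) : ℂ) ≠ 0 := Nat.cast_ne_zero.2 Nat.card_pos.ne'
  have k2 : (Nat.card (Un K a) : ℂ) ≠ 0 := Nat.cast_ne_zero.2 Nat.card_pos.ne'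
  have k3 : (Nat.card (Un K b) : ℂ) ≠ 0 := Nat.cast_ne_zero.2 Nat.card_pos.ne'
  change _ = (Nat.card (Un K a) : ℂ)⁻¹ * _ * ((Nat.card (Un K b) : ℂ)⁻¹ * _)
  rw [inv_mul_eq_iff_eq_mul₀ k1, mul_mul_mul_comm, mul_left_comm, h1, ← mul_inv,
    inv_mul_cancel_left₀ (mul_ne_zero k2 k3)]

theorem om_mul (hψ : ψ ≠ 1) (n : ℕ) (f g : HA K) :
    om ψ n (f * g) = ∑ x ∈ ad n, om ψ x.1 f * om ψ x.2 g := by
  classical
  have _ : Finite (Submodule K (Fin n → K)) :=
    Finite.of_injective (fun N : Submodule K (Fin n → K) => (N : Set (Fin n → K)))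
      SetLike.coe_injective
  have _ := Fintype.ofFinite (Submodule K (Fin n → K))
  have e : ∀ N : Submodule K (Fin n → K), WhD_T ψ f g N = ∑ x ∈ ad n,
      if ∃ u : Un K n, N = (nt K n x.1).map u.1.1 then WhD_T ψ f g N else 0 := by
    intro N
    rcases un_dich N with h | ⟨a, ha, u, hu, h⟩
    · simp only [WhD_zero hψ f g h, ite_self, sum_const_zero]
    · rw [sum_eq_single_of_mem (a, n - a)
        (HasAntidiagonal.mem_antidiagonal.2 (Nat.add_sub_cancel' ha)), if_pos ⟨⟨u, hu⟩, h⟩]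
      intro x hx hx'
      have h1 := HasAntidiagonal.mem_antidiagonal.1 hx
      refine if_neg fun ⟨u', h'⟩ => hx' ?_
      have h2 := congrArg (fun N : Submodule K (Fin n → K) => finrank K N) (h.symm.trans h')
      simp only [WhD_rk] at h2
      rw [finrank_nt ha, finrank_nt (by omega)] at h2
      exact Prod.ext h2.symm (by simp only; omega)
  rw [WhD_om, sum_congr rfl fun N _ => e N, sum_comm, mul_sum]
  refine sum_congr rfl fun x hx => ?_
  obtain rfl : n = x.2 + x.1 := by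
    have := HasAntidiagonal.mem_antidiagonal.1 hx
    omega
  convert WhD_key x.2 x.1 f g

/-! ### Task PD WhE -/

/-- The degenerate Whittaker functionals. -/
noncomputable def Wl (ψ : AddChar K ℂ) : List ℕ → HA K →ₗ[ℂ] ℂ
  | [] => epsl K
  | a :: μ => Wl ψ μ ∘ₗ Dw (om ψ a)

theorem om_mul_hom (hψ : ψ ≠ 1) {a b : ℕ} {f g : HA K} (hf : Hom a f) (hg : Hom b g) :
    om ψ (a + b) (f * g) = om ψ a f * om ψ b g := by
  rw [om_mul hψ, sum_eq_single (a, b)]
  · rintro ⟨i, j⟩ hx hne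
    have e : i + j = a + b := mem_antidiagonal.1 hx
    have hi : a ≠ i := by
      rintro rfl
      exact hne (by rw [Nat.add_left_cancel e])
    rw [om_hom hf hi, zero_mul]
  · exact fun h => (h (mem_antidiagonal.2 rfl)).elim

theorem WhE_pi (hψ : ψ ≠ 1) (n : ℕ) :
    om ψ (n + 1) (pi K (n + 1)) + om ψ n (pi K n) = if n = 0 then 1 else 0 := by
  have h := congrArg (om ψ (n + 1)) (HH_mul_PI (K := K))
  rw [om_mul hψ, ← om_cmp (n + 1) (pm _ _), cmp_dimf, map_smul, om_cmp, Nat.sum_antidiagonal_succ,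
    sum_eq_single (0, n)] at h
  · simp only [om_HH hψ, zero_add, zero_le, le_refl, if_true, one_mul, smul_eq_mul] at h
    rw [pi, pi, om_cmp, om_cmp, h]
    rcases n with _ | n <;> simp
  · rintro ⟨i, j⟩ hx hne
    have e : i + j = n := mem_antidiagonal.1 hx
    have hi : i ≠ 0 := by
      rintro rfl
      exact hne (by rw [← e, zero_add])
    rw [om_HH hψ, if_neg (by omega), zero_mul]
  · exact fun h => absurd (mem_antidiagonal.2 (zero_add n)) h

theorem om_pi (hψ : ψ ≠ 1) {n : ℕ} (hn : 0 < n) : om ψ n (pi K n) = (-1) ^ (n - 1) := by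
  obtain ⟨n, rfl⟩ := Nat.exists_eq_succ_of_ne_zero hn.ne'
  induction n with
  | zero => simpa [pi_zero] using WhE_pi hψ 0
  | succ n ih =>
    have h := WhE_pi hψ (n + 1)
    rw [ih n.succ_pos, if_neg n.succ_ne_zero] at h
    rw [eq_neg_of_add_eq_zero_left h]
    simp [pow_succ]

theorem real_Wl (ψ : AddChar K ℂ) {p : ℕ} (hp : (Nat.card K).Coprime p) (μ : List ℕ) {V : Type}
    [AddCommGroup V] [Module K V] [FiniteDimensional K V] (h : finrank K V = μ.sum) :
    Real p V (Wl ψ μ) := by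
  induction μ generalizing V with
  | nil => exact real_eps p h
  | cons a μ ih =>
    refine (Real.del hp (real_om ψ a hp) (ih (V := Fin μ.sum → K) (finrank_fin_fun K))).equiv ?_
    rw [finrank_prod, finrank_fin_fun, finrank_fin_fun, h, List.sum_cons]

theorem Wl_nat (μ : List ℕ) {f : HA K} (hf : IsCh f) : ∃ k : ℕ, Wl ψ μ f = k :=
  (real_Wl ψ (Nat.coprime_one_right _) μ (V := Fin μ.sum → K) (finrank_fin_fun K)).nat hf

omit [Finite K] in
theorem WhE_eps : eps (1 : HA K) = 1 := by rw [eps, one_val, if_pos dim_zero]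

theorem WhE_one (a : ℕ) : om ψ a (1 : HA K) = if a = 0 then 1 else 0 := by
  split_ifs with h
  · rw [h, om_zero, WhE_eps]
  · exact om_hom hom_one (Ne.symm h)

/-- The generating series of the operators. -/
noncomputable def WhE_P (hψ : ψ ≠ 1) : HA K →* PowerSeries (HA K) where
  toFun f := PowerSeries.mk fun a => Dw (om ψ a) f
  map_one' := PowerSeries.ext fun a => by
    rw [PowerSeries.coeff_mk, Dw_one, WhE_one, PowerSeries.coeff_one]
    split_ifs <;> simp
  map_mul' f g := PowerSeries.ext fun a => by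
    simp only [PowerSeries.coeff_mk, PowerSeries.coeff_mul]
    exact Dw_mul _ (om_mul hψ a) f g

theorem WhE_coeff (hψ : ψ ≠ 1) (a : ℕ) (f : HA K) :
    Dw (om ψ a) f = PowerSeries.coeff a (WhE_P hψ f) :=
  (PowerSeries.coeff_mk a fun a => Dw (om ψ a) f).symm

theorem WhE_hh (hψ : ψ ≠ 1) (m : ℕ) : WhE_P hψ (hh K m) =
    PowerSeries.C (if 0 < m then hh K (m - 1) else 0) * PowerSeries.X + PowerSeries.C (hh K m) := by
  refine PowerSeries.ext fun a => ?_
  have k : ∀ x : ℕ × ℕ, x.1 ≠ a → om ψ a (cmp x.1 (HH K)) • cmp x.2 (HH K) = 0 := fun x hx => by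
    rw [om_hom (hom_cmp _ _) hx, zero_smul]
  have h : Dw (om ψ a) (hh K m) = if a ≤ m then om ψ a (HH K) • hh K (m - a) else 0 := by
    rw [hh, gl_HH.Dw_cmp]
    split_ifs with h
    · rw [sum_eq_single_of_mem (a, m - a) (mem_antidiagonal.2 (Nat.add_sub_cancel' h)), om_cmp, hh]
      rintro ⟨i, j⟩ hx hne
      have e : i + j = m := mem_antidiagonal.1 hx
      refine k _ ?_
      rintro rfl
      exact hne (by rw [← e, Nat.add_sub_cancel_left])
    · refine sum_eq_zero fun x hx => k x ?_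
      have e : x.1 + x.2 = m := mem_antidiagonal.1 hx
      omega
  rw [← WhE_coeff, h, om_HH hψ, map_add, PowerSeries.coeff_C_mul, PowerSeries.coeff_X,
    PowerSeries.coeff_C]
  rcases a with _ | _ | a
  · simp
  · simp [Nat.succ_le_iff]
  · simp

theorem Dw_om_hh (hψ : ψ ≠ 1) {N : ℕ} (a : ℕ) (ν : Fin N → ℕ) :
    Dw (om ψ a) (∏ t, hh K (ν t)) =
      ∑ C ∈ powersetCard a univ with ∀ t ∈ C, 0 < ν t, ∏ t, hh K (rmv C ν t) := by
  rw [WhE_coeff hψ, map_prod]
  simp only [WhE_hh]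
  rw [prod_add, map_sum, sum_filter, powersetCard_eq_filter, sum_filter]
  refine sum_congr rfl fun C _ => ?_
  rw [prod_mul_distrib, prod_const, ← map_prod, ← map_prod, mul_right_comm, ← map_mul,
    PowerSeries.coeff_C_mul, PowerSeries.coeff_X_pow]
  by_cases h : #C = a
  · rw [if_pos h.symm, if_pos h, mul_one]
    split_ifs with h'
    · rw [← prod_mul_prod_compl C, compl_eq_univ_sdiff]
      congr 1
      · exact prod_congr rfl fun t ht => by rw [if_pos (h' t ht), rmv, if_pos ht]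
      · exact prod_congr rfl fun t ht => by rw [rmv, if_neg (mem_sdiff.1 ht).2]
    · push Not at h'
      obtain ⟨t, ht, h0⟩ := h'
      rw [prod_eq_zero ht (if_neg h0.not_gt), zero_mul]
  · rw [if_neg (Ne.symm h), if_neg h, mul_zero]

theorem Wl_hh (hψ : ψ ≠ 1) {N : ℕ} (μ : List ℕ) (ν : Fin N → ℕ) :
    Wl ψ μ (∏ t, hh K (ν t)) = cnt μ ν := by
  induction μ generalizing ν with
  | nil =>
    change eps _ = _
    rw [cnt]
    split_ifs with h
    · simp [h, hh_zero, WhE_eps]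
    · obtain ⟨t, ht⟩ := Function.ne_iff.1 h
      have e : eps (hh K (ν t)) = 0 := hom_cmp _ _ _ (dim_zero.trans_ne (Ne.symm ht))
      rw [← mul_prod_erase _ _ (mem_univ t), eps_mul, e, zero_mul, Nat.cast_zero]
  | cons a μ ih =>
    rw [Wl, LinearMap.comp_apply, Dw_om_hh hψ, map_sum, cnt, Nat.cast_sum]
    exact sum_congr rfl fun C _ => ih _

theorem WhE_choose {R : Type*} [CommRing R] (N a : ℕ) :
    PowerSeries.coeff a ((PowerSeries.X + 1 : PowerSeries R) ^ N) = N.choose a := by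
  induction N generalizing a with
  | zero => rcases a with _ | a <;> simp [PowerSeries.coeff_one]
  | succ N ih =>
    rw [pow_succ, mul_add, mul_one, map_add, ih]
    rcases a with _ | a
    · simp
    · rw [PowerSeries.coeff_succ_mul_X, ih, Nat.choose_succ_succ, Nat.cast_add]

theorem WhE_HH (hψ : ψ ≠ 1) : WhE_P hψ (HH K) = PowerSeries.C (HH K) * (PowerSeries.X + 1) := by
  refine PowerSeries.ext fun a => ?_
  have h : Dw (om ψ a) (HH K) = om ψ a (HH K) • HH K := CF.ext fun M => by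
    have e : dr M (HH K) = HH K := CF.ext fun M₁ => (gl_HH.2 M₁ M).trans (mul_one _)
    rw [Dw_val, e]
    exact (mul_one _).symm
  rw [← WhE_coeff, h, om_HH hψ, PowerSeries.coeff_C_mul, map_add, PowerSeries.coeff_X,
    PowerSeries.coeff_one]
  rcases a with _ | _ | a <;> simp

theorem Wl_HH (hψ : ψ ≠ 1) (μ : List ℕ) (N : ℕ) : ‖Wl ψ μ (HH K ^ N)‖ ≤ (2 ^ N) ^ μ.length := by
  induction μ with
  | nil =>
    have e : eps (HH K ^ N) = 1 := by
      induction N with
      | zero => exact WhE_eps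
      | succ N ih => rw [pow_succ, eps_mul, ih, gl_HH.1, mul_one]
    change ‖eps _‖ ≤ _
    rw [e, norm_one, List.length_nil, pow_zero]
  | cons a μ ih =>
    have e : Dw (om ψ a) (HH K ^ N) = (N.choose a : ℂ) • HH K ^ N := by
      rw [WhE_coeff hψ, map_pow, WhE_HH, mul_pow, ← map_pow, PowerSeries.coeff_C_mul, WhE_choose,
        Nat.cast_smul_eq_nsmul, nsmul_eq_mul, mul_comm]
    rw [Wl, LinearMap.comp_apply, e, map_smul, norm_smul, List.length_cons, pow_succ',
      Complex.norm_natCast]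
    exact mul_le_mul (by exact_mod_cast Nat.choose_le_two_pow N a) ih (norm_nonneg _)
      (by positivity)

theorem WhE_prim (hψ : ψ ≠ 1) {d : ℕ} {x : HA K} (hx : Prim d x) (a : ℕ) (y : HA K) :
    Dw (om ψ a) (x * y) = x * Dw (om ψ a) y +
      if d ≤ a then om ψ d x • Dw (om ψ (a - d)) y else 0 := by
  have h : WhE_P hψ x = PowerSeries.C x +
      PowerSeries.C (om ψ d x • (1 : HA K)) * PowerSeries.X ^ d := by
    refine PowerSeries.ext fun i => ?_
    rw [← WhE_coeff, hx.pr.Dw, WhE_one, map_add, PowerSeries.coeff_C_mul, PowerSeries.coeff_X_pow,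
      PowerSeries.coeff_C, add_comm]
    congr 1
    · split_ifs <;> simp
    · split_ifs with e
      · rw [e, mul_one]
      · rw [om_hom hx.2.1 (Ne.symm e), zero_smul, mul_zero]
  rw [WhE_coeff hψ, map_mul, h, add_mul, map_add, mul_assoc, PowerSeries.coeff_C_mul,
    PowerSeries.coeff_C_mul, PowerSeries.coeff_X_pow_mul', ← WhE_coeff]
  congr 1
  split_ifs
  · rw [← WhE_coeff, smul_mul_assoc, one_mul]
  · exact mul_zero _

theorem WhE_step (hψ : ψ ≠ 1) {W : HA K →ₗ[ℂ] ℂ} {m : ℝ} (hm : 0 ≤ m)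
    (hW : ∀ l : List (HA K), (∀ x ∈ l, ∃ d, Prim d x ∧ ‖om ψ d x‖ ≤ 1) →
      ‖W l.prod‖ ≤ m ^ l.length) (l : List (HA K))
    (hl : ∀ x ∈ l, ∃ d, Prim d x ∧ ‖om ψ d x‖ ≤ 1) (a : ℕ) (l₀ : List (HA K))
    (h₀ : ∀ x ∈ l₀, ∃ d, Prim d x ∧ ‖om ψ d x‖ ≤ 1) :
    ‖W (l₀.prod * Dw (om ψ a) l.prod)‖ ≤ m ^ l₀.length * (m + 1) ^ l.length := by
  induction l generalizing a l₀ with
  | nil =>
    rw [List.prod_nil, Dw_one, WhE_one, List.length_nil, pow_zero, mul_one]
    split_ifs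
    · rw [one_smul, mul_one]
      exact hW l₀ h₀
    · rw [zero_smul, mul_zero, map_zero, norm_zero]
      positivity
  | cons x l ih =>
    obtain ⟨d, hx, hd⟩ := hl x List.mem_cons_self
    have hl' := fun y hy => hl y (List.mem_cons_of_mem x hy)
    have h1 := ih hl' a (x :: l₀) (List.forall_mem_cons.2 ⟨⟨d, hx, hd⟩, h₀⟩)
    have h2 : ‖W (l₀.prod * if d ≤ a then om ψ d x • Dw (om ψ (a - d)) l.prod else 0)‖ ≤
        m ^ l₀.length * (m + 1) ^ l.length := by
      split_ifs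
      · rw [mul_smul_comm, map_smul, norm_smul]
        exact (mul_le_of_le_one_left (norm_nonneg _) hd).trans (ih hl' _ l₀ h₀)
      · rw [mul_zero, map_zero, norm_zero]
        positivity
    rw [List.prod_cons, List.length_cons, mul_comm x, mul_assoc] at h1
    rw [List.prod_cons, WhE_prim hψ hx, mul_add, map_add, List.length_cons]
    refine (norm_add_le _ _).trans ((add_le_add h1 h2).trans (le_of_eq ?_))
    ring

theorem Wl_prim (hψ : ψ ≠ 1) (μ : List ℕ) (l : List (HA K))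
    (hl : ∀ x ∈ l, ∃ d, Prim d x ∧ ‖om ψ d x‖ ≤ 1) : ‖Wl ψ μ l.prod‖ ≤ μ.length ^ l.length := by
  induction μ generalizing l with
  | nil =>
    change ‖eps _‖ ≤ _
    rcases l with _ | ⟨x, l⟩
    · rw [List.prod_nil, WhE_eps, norm_one, List.length_nil (α := HA K), pow_zero]
    · obtain ⟨d, hx, -⟩ := hl x List.mem_cons_self
      rw [List.prod_cons, eps_mul, hx.pr.eps, zero_mul, norm_zero]
      positivity
  | cons a μ ih =>
    have h := WhE_step hψ (Nat.cast_nonneg μ.length) ih l hl a [] (by simp)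
    rw [List.prod_nil, one_mul, List.length_nil, pow_zero, one_mul] at h
    rw [List.length_cons, Nat.cast_succ]
    exact h

end PD
end

-- merged part: Pool.Agent.Work.MP_cea1f0_al.D.Rho
section
/-!
# The primitive virtual characters  (tasks PD RhoA, PD RhoB, PD RhoC)

* `mf_pi_congr`: `mf_congr`, `pi_supp`, `exists_uu`.
* `weights`: `w u = hn n (mf 1_u pi) pi = hn n (mf 1_u pi) (mf 1_u pi)` is positive for `u = uu n α` (`uu_eq`, `pi_uni`, `cp_cyc`);
  `ω α = w (uu n α) / #{β ∈ TT n | uu n β = uu n α}`; `uu_frob`.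
* `isV_rho`: `log_eq`, `log_add`, `isV_PS`.
* `uniform`: `∑ ω α * χ α ^ j = ± hn n (rho j) pi = ± n * hn n (rho j) HH` is an integral multiple of `n` (`PS_uu`, `sum_frob`,
  `hn_prim_HH`), `∑ ω α = n` (`hn_pi_pi`).  If `q ^ n - 1` does not divide `j` the real part is less than `n` and more than `-n`
  unless all `χ α ^ j = -1`, which fails for `α = 1`.  So it is zero.  Apply `fourier` to the indicator function of a point.
* `prim_span`: `prim_eq_mf`, `fourier` for `α ↦ A (uu n α)`, average over `α ↦ α ^ q ^ i`.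
* `cf_ta`: if `g ^ c = 1` then all roots satisfy `α ^ c = 1` (`cp_pow_roots`, or eigenvalues after base change).  Conversely if all
  roots satisfy `α ^ c = 1` then the characteristic polynomial divides `(X ^ c - 1) ^ n`, so `g ^ c - 1` is nilpotent
  (`LinearMap.aeval_self_charpoly`) and `g ^ (c * r ^ k) = 1` for the characteristic `r`.
* `exists_x`: `θ = c.lab n ≡ j * nm q n (n / l)` with `j` from `exists_univ` applied to `c.j * nm q (n / l) c.d` (`nm_trans`, `good_nm`,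
  `modEq_nm`); `x = cmp n (mf A EE)` with `A = (PS j ^ l - PS (j * l)) / l`; `hn_mf`, `hn_prim_EE`, `mf_PS_iter`, `hn_rho`, `count_l`,
  `gr_lab` give `hn n x (rho θ) = ± m * ((l - 1) / l + z)`.
-/

namespace PD

open Ob CF Polynomial Finset

variable {K : Type} [Field K] [Finite K]

/-- The primitive virtual characters. -/
noncomputable def rho (χ : Kb K →*₀ ℂ) (n j : ℕ) : HA K :=
  ((-1) ^ (n - 1) / n : ℂ) • mf (PS χ j) (pi K n)

/-- Truncation to the `p`-regular elements. -/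
noncomputable def ta (K : Type) [Field K] [Finite K] (p : ℕ) : HA K →ₐ[ℂ] HA K :=
  pmA (cpf (regA p)) (isMul_cpf (regA_mul p)) (by
    change regA p (zero K).cp = 1
    rw [(cp_monic _).natDegree_eq_zero.1 ((cp_natDegree _).trans dim_zero), regA_one])

theorem ta_apply (p : ℕ) (f : HA K) : ta K p f = mf (regA p) f := rfl

/-- The primitive virtual characters that belong to characters of `p`-power order. -/
def gS (p : ℕ) (χ : Kb K →*₀ ℂ) (N : ℕ) : Set (HA K) :=
  {y | ∃ n j, 0 < n ∧ n ≤ N ∧ good p (Nat.card K) n j ∧ y = rho χ n j}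

/-- The subalgebra that they generate. -/
noncomputable def VV (p : ℕ) (χ : Kb K →*₀ ℂ) (N : ℕ) : Subalgebra ℂ (HA K) :=
  Algebra.adjoin ℂ (gS p χ N)

variable {χ : Kb K →*₀ ℂ} {n p : ℕ}

/-! ### Task PD RhoA -/

theorem prim_rho (hn : 0 < n) (j : ℕ) : Prim n (rho χ n j) := by
  exact ((prim_pi hn).mf _).smul _

theorem RhA_supp {M : Ob K} (h : (pi K n).1 M ≠ 0) : ∃ α ∈ TT K n, uu n α = M.cp := by
  obtain ⟨f, k, hf, h0, hi, hk, rfl, e⟩ := pi_supp h
  exact e ▸ exists_uu hf h0 hi hk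

theorem mf_pi_congr (hn : 0 < n) {A A' : K[X] → ℂ} (h : ∀ α ∈ TT K n, A (uu n α) = A' (uu n α)) :
    mf A (pi K n) = mf A' (pi K n) := by
  refine mf_congr fun M hM => ?_
  obtain ⟨α, h1, h2⟩ := RhA_supp hM
  rw [← h2, h α h1]

theorem weights (hn : 0 < n) : ∃ ω : Kb K → ℝ, (∀ α ∈ TT K n, 0 < ω α) ∧
    (∀ α i, ω (α ^ Nat.card K ^ i) = ω α) ∧
    ∀ A : K[X] → ℂ, PD.hn n (mf A (pi K n)) (pi K n) = ∑ α ∈ TT K n, ω α * A (uu n α) := by
  classical
  let c : K[X] → ℕ := fun u => #{β ∈ TT K n | uu n β = u}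
  let w : K[X] → ℝ := fun u => (Nat.card (Gn K n) : ℝ)⁻¹ *
    ∑ g : Gn K n, if u = (of g).cp then Complex.normSq ((pi K n).1 (of g)) else 0
  have c0 : ∀ α ∈ TT K n, 0 < c (uu n α) := fun α h => card_pos.2 ⟨α, mem_filter.2 ⟨h, rfl⟩⟩
  refine ⟨fun α => w (uu n α) / c (uu n α), fun α h => div_pos (mul_pos ?_ ?_) ?_,
    fun α i => by simp only [uu_frob], fun A => ?_⟩
  · exact inv_pos.2 (Nat.cast_pos.2 Nat.card_pos)
  · obtain ⟨f, k, hf, h0, hi, hk, e1, e2⟩ := uu_eq hn h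
    obtain ⟨g, hg⟩ := exists_of (uni f k hf h0) (V := Fin n → K)
      ((Module.finrank_fin_fun K).trans ((ClC_dim (Iso.refl _)).trans e1).symm)
    refine sum_pos' (fun g _ => ?_) ⟨g, mem_univ _, ?_⟩
    · split_ifs
      exacts [Complex.normSq_nonneg _, le_rfl]
    · rw [if_pos (by rw [← hg.cp, ClC_cp, e2]), ← (pi K n).iso hg, ← e1, pi_uni hf h0 hi hk]
      exact Complex.normSq_pos.2 (Nat.cast_ne_zero.2 hi.natDegree_pos.ne')
  · exact Nat.cast_pos.2 (c0 α h)
  · simp only [PD.hn, hp, w, cf_apply, mf_val, mul_sum, sum_div, Complex.ofReal_sum, sum_mul]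
    rw [sum_comm]
    refine sum_congr rfl fun g _ => ?_
    by_cases h0 : (pi K n).1 (of g) = 0
    · simp [h0]
    obtain ⟨α, h1, h2⟩ := RhA_supp h0
    have h3 : (c (of g).cp : ℂ) ≠ 0 := Nat.cast_ne_zero.2 (h2 ▸ (c0 α h1).ne')
    rw [sum_congr rfl (g := fun β => if uu n β = (of g).cp then (Nat.card (Gn K n) : ℂ)⁻¹ *
      Complex.normSq ((pi K n).1 (of g)) / c (of g).cp * A (of g).cp else 0) fun β _ => ?_,
      ← sum_filter, sum_const, nsmul_eq_mul, mul_assoc (A _), Complex.star_def, Complex.mul_conj]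
    · change _ = (c (of g).cp : ℂ) * _
      field_simp
    · split_ifs with e
      · rw [e]
        push_cast
        rfl
      · simp

theorem isV_rho (hn : 0 < n) (j : ℕ) : IsV (rho χ n j) := by
  have h : IsV (EE K * mf (PS χ j) (HH K)) := by
    rw [mf, log_add (isAdd_cpf (PS_mul j))]
    exact ((isV_PS χ j).mul isCh_HH.isV).neg
  rw [rho, ← log_eq (PS_mul j) hn, smul_smul, div_mul_cancel₀ _ (Nat.cast_ne_zero.2 hn.ne')]
  exact AdjC_smul (isV_cmp.1 h n) ⟨(-1) ^ (n - 1), by push_cast; rfl⟩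

theorem RhA_sq (m : ℕ) : (-1 : ℂ) ^ m * (-1) ^ m = 1 := by
  rw [← mul_pow, neg_one_mul, neg_neg, one_pow]

theorem uniform (hn : 0 < n) (A : K[X] → ℂ) : PD.hn n (mf A (pi K n)) (pi K n) =
    (n : ℂ) / (Nat.card K ^ n - 1 : ℕ) * ∑ α ∈ TT K n, A (uu n α) := by
  obtain ⟨χ, hχ⟩ := exists_chi K
  obtain ⟨ω, w1, w2, w3⟩ := weights (K := K) hn
  have n0 : (n : ℂ) ≠ 0 := Nat.cast_ne_zero.2 hn.ne'
  have N0 : 0 < Nat.card K ^ n - 1 := Nat.sub_pos_of_lt (Nat.one_lt_pow hn.ne' (one_lt_q K))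
  have s0 : ∑ α ∈ TT K n, (ω α : ℂ) = n := by
    simpa only [mf_one, hn_pi_pi hn, Pi.one_apply, mul_one] using (w3 1).symm
  have s1 : ∀ j, ¬ Nat.card K ^ n - 1 ∣ j → ∑ α ∈ TT K n, (ω α : ℂ) * χ α ^ j = 0 := fun j hj => by
    obtain ⟨k, hk⟩ := (isV_rho (χ := χ) hn j).hn isCh_HH.isV n
    have e1 := hn_prim_HH (prim_rho (χ := χ) hn j)
    have e2 : ∑ α ∈ TT K n, (ω α : ℂ) * PS χ j (uu n α) =
        n * ∑ α ∈ TT K n, (ω α : ℂ) * χ α ^ j := by
      rw [sum_congr rfl fun α h => by rw [PS_uu hn h, mul_sum], sum_comm,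
        sum_congr rfl (g := fun _ => ∑ α ∈ TT K n, (ω α : ℂ) * χ α ^ j) fun i _ => ?_,
        sum_const, card_range, nsmul_eq_mul]
      rw [← sum_frob hn (fun α => (ω α : ℂ) * χ α ^ j) i]
      exact sum_congr rfl fun α _ => by rw [w2, map_pow, ← pow_mul, mul_comm j]
    rw [hk, rho, hn_smul_left, w3, e2, ← mul_assoc, div_mul_cancel₀ _ n0] at e1
    have e3 : ∑ α ∈ TT K n, (ω α : ℂ) * χ α ^ j = n * ((-1) ^ (n - 1) * k : ℤ) := by
      push_cast
      rw [mul_left_comm, e1, ← mul_assoc, RhA_sq, one_mul]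
    generalize (-1) ^ (n - 1) * k = m at e3
    have e4 : ∑ α ∈ TT K n, ω α * (χ α ^ j).re = n * m := by
      simpa only [Complex.re_sum, Complex.re_ofReal_mul, Complex.mul_re, Complex.natCast_re,
        Complex.intCast_re, Complex.natCast_im, zero_mul, sub_zero, Complex.ofReal_re,
        Complex.ofReal_im] using congrArg Complex.re e3
    have e5 : ∑ α ∈ TT K n, ω α = n := by exact_mod_cast s0
    have b : ∀ α ∈ TT K n, ‖χ α ^ j‖ = 1 := fun α h => by rw [norm_pow, norm_chi hn h, one_pow]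
    have b' : ∀ α ∈ TT K n, |(χ α ^ j).re| ≤ 1 := fun α h => b α h ▸ Complex.abs_re_le_norm _
    obtain ⟨β, β1, β2⟩ := exists_chi_ne hχ hn hj
    have l1 : ∑ α ∈ TT K n, ω α * (χ α ^ j).re < ∑ α ∈ TT K n, ω α :=
      sum_lt_sum (fun α h => mul_le_of_le_one_right (w1 α h).le (abs_le.1 (b' α h)).2)
        ⟨β, β1, mul_lt_of_lt_one_right (w1 β β1) ((abs_le.1 (b' β β1)).2.lt_of_ne fun e =>
          β2 (Complex.ext e (Complex.abs_re_eq_norm.1 (by rw [e, b β β1, abs_one]))))⟩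
    have o : (1 : Kb K) ∈ TT K n := (mem_TT hn).2 (one_pow _)
    have l2 : ∑ α ∈ TT K n, -ω α < ∑ α ∈ TT K n, ω α * (χ α ^ j).re :=
      sum_lt_sum (fun α h => by nlinarith [w1 α h, (abs_le.1 (b' α h)).1])
        ⟨1, o, by simpa using w1 1 o⟩
    rw [sum_neg_distrib, e4, e5] at l2
    rw [e4, e5] at l1
    have p : (0 : ℝ) < n := Nat.cast_pos.2 hn
    have m1 : m < 1 := by exact_mod_cast (show (m : ℝ) < 1 by nlinarith)
    have m2 : -1 < m := by exact_mod_cast (show (-1 : ℝ) < m by nlinarith)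
    rw [e3, show m = 0 by omega, Int.cast_zero, mul_zero]
  obtain ⟨c, hc⟩ := fourier hχ hn fun α => A (uu n α)
  have nd : ∀ j ∈ range (Nat.card K ^ n - 1), j ≠ 0 → ¬ Nat.card K ^ n - 1 ∣ j := fun j h1 h2 h3 =>
    h2 (Nat.eq_zero_of_dvd_of_lt h3 (mem_range.1 h1))
  have t1 : ∑ α ∈ TT K n, (ω α : ℂ) * A (uu n α) = c 0 * n := by
    rw [sum_congr rfl fun α h => by rw [hc α h, mul_sum], sum_comm,
      sum_eq_single_of_mem 0 (mem_range.2 N0) fun j h1 h2 => ?_]
    · simp only [pow_zero, mul_one, ← sum_mul, s0]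
      exact mul_comm _ _
    · simp only [mul_left_comm _ (c j), ← mul_sum, s1 j (nd j h1 h2), mul_zero]
  have t2 : ∑ α ∈ TT K n, A (uu n α) = c 0 * (Nat.card K ^ n - 1 : ℕ) := by
    rw [sum_congr rfl hc, sum_comm, sum_eq_single_of_mem 0 (mem_range.2 N0) fun j h1 h2 => ?_]
    · simp only [pow_zero, mul_one, sum_const, card_TT hn, nsmul_eq_mul]
      exact mul_comm _ _
    · have := sum_chi hχ hn j 0
      rw [if_neg (mt Nat.modEq_zero_iff_dvd.1 (nd j h1 h2))] at this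
      simp only [pow_zero, star_one, mul_one] at this
      rw [← mul_sum, this, mul_zero]
  rw [w3, t1, t2, mul_left_comm, div_mul_cancel₀ _ (Nat.cast_ne_zero.2 N0.ne')]

theorem hn_rho (hχ : Function.Injective χ) (hn : 0 < n) (j j' : ℕ) :
    PD.hn n (rho χ n j) (rho χ n j') = gr (Nat.card K) n j j' := by
  have n0 : (n : ℂ) ≠ 0 := Nat.cast_ne_zero.2 hn.ne'
  have N0 : ((Nat.card K ^ n - 1 : ℕ) : ℂ) ≠ 0 :=
    Nat.cast_ne_zero.2 (Nat.sub_pos_of_lt (Nat.one_lt_pow hn.ne' (one_lt_q K))).ne'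
  have e : ∑ α ∈ TT K n, (star (PS χ j') * PS χ j) (uu n α) =
      (n * gr (Nat.card K) n j j' : ℕ) * (Nat.card K ^ n - 1 : ℕ) := by
    rw [← gr_count (one_lt_q K) hn, ← nsmul_eq_mul, ← sum_const, sum_filter,
      sum_congr rfl fun α h => by
        rw [Pi.mul_apply, Pi.star_apply, PS_uu hn h, PS_uu hn h, star_sum, mul_comm, sum_mul_sum,
          ← sum_product'], sum_comm]
    exact sum_congr rfl fun x _ => sum_chi hχ hn _ _
  rw [rho, rho, hn_smul_left, hn_smul_right, ← star_star (PS χ j'), ← hn_mf, mf_mf, uniform hn, e,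
    star_div₀, star_pow, star_neg, star_one, star_natCast]
  push_cast
  rw [← mul_assoc, div_mul_div_comm, RhA_sq]
  field_simp

theorem RhA_congr (hn : 0 < n) {j j' i : ℕ}
    (h : j * Nat.card K ^ i ≡ j' [MOD Nat.card K ^ n - 1]) : rho χ n j = rho χ n j' := by
  rw [rho, rho, mf_pi_congr hn (A' := PS χ j') fun α hα => ?_]
  rw [← uu_frob n α i, PS_uu hn (frob_mem hn hα i), uu_frob, PS_uu hn hα]
  refine sum_congr rfl fun s _ => ?_
  rw [map_pow, ← pow_mul, ← mul_assoc, mul_comm _ j]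
  exact chi_congr hn hα (h.mul_right _)

theorem rho_congr (hn : 0 < n) {j j' : ℕ} (h : gr (Nat.card K) n j j' ≠ 0) :
    rho χ n j = rho χ n j' := by
  obtain ⟨i, hi⟩ := card_pos.1 (Nat.pos_of_ne_zero h)
  exact RhA_congr hn (mem_filter.1 hi).2

theorem rho_mod (hn : 0 < n) (j : ℕ) : rho χ n j = rho χ n (j % (Nat.card K ^ n - 1)) := by
  exact RhA_congr hn (i := 0) (by rw [pow_zero, mul_one]; exact (Nat.mod_modEq _ _).symm)

theorem prim_span (hχ : Function.Injective χ) {y : HA K} (h : Prim n y) :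
    y ∈ Submodule.span ℂ (Set.range (rho χ n)) := by
  obtain ⟨A, rfl⟩ := prim_eq_mf h
  have hn := h.1
  obtain ⟨c, hc⟩ := fourier hχ hn fun α => A (uu n α)
  rw [mf_pi_congr hn (A' := ∑ j ∈ range (Nat.card K ^ n - 1), (c j / n) • PS χ j) fun α hα => ?_,
    mf_sum]
  · refine Submodule.sum_mem _ fun j _ => ?_
    have e : mf ((c j / n) • PS χ j) (pi K n) = (c j * (-1) ^ (n - 1)) • rho χ n j := by
      rw [mf_smul, rho, smul_smul, mul_assoc, ← mul_div_assoc, RhA_sq, mul_one_div]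
    exact e ▸ Submodule.smul_mem _ _ (Submodule.subset_span ⟨j, rfl⟩)
  · refine mul_left_cancel₀ (Nat.cast_ne_zero.2 hn.ne' : (n : ℂ) ≠ 0) ?_
    rw [Finset.sum_apply, mul_sum, sum_congr rfl (g := fun j => ∑ i ∈ range n,
      c j * χ (α ^ Nat.card K ^ i) ^ j) fun j _ => ?_, sum_comm,
      sum_congr rfl fun i _ => (hc _ (frob_mem hn hα i)).symm]
    · simp only [uu_frob, sum_const, card_range, nsmul_eq_mul]
    · rw [Pi.smul_apply, smul_eq_mul, ← mul_assoc, mul_div_cancel₀ _ (Nat.cast_ne_zero.2 hn.ne'),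
        PS_uu hn hα, mul_sum]
      exact sum_congr rfl fun i _ => by rw [map_pow, ← pow_mul, mul_comm j]

theorem rho_zero (hn : 0 < n) : rho χ n 0 = ((-1) ^ (n - 1) : ℂ) • pi K n := by
  have e : mf (PS χ 0) (pi K n) = (n : ℂ) • pi K n := CF.ext fun M => by
    rw [mf_val, smul_val, PS_zero, cp_natDegree, smul_eq_mul]
    by_cases h : M.dim = n
    · rw [h]
    · rw [(prim_pi hn).2.1 M h, mul_zero, mul_zero]
  rw [rho, e, smul_smul, div_mul_cancel₀ _ (Nat.cast_ne_zero.2 hn.ne')]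

theorem om_rho {ψ : AddChar K ℂ} (hψ : ψ ≠ 1) (hn : 0 < n) (j : ℕ) : om ψ n (rho χ n j) = 1 := by
  rw [rho, map_smul, om_mf, PS_unip, om_pi hψ hn, smul_eq_mul, ← mul_assoc,
    div_mul_cancel₀ _ (Nat.cast_ne_zero.2 hn.ne'), RhA_sq]

/-! ### Task PD RhoB -/

omit [Finite K] in
theorem RhB_com {s : Multiset (Kb K)} (h : ∀ α ∈ s, Reg p α) :
    ∃ c : ℕ, c.Coprime p ∧ ∀ α ∈ s, α ^ c = 1 := by
  induction s using Multiset.induction_on with
  | empty => exact ⟨1, Nat.coprime_one_left p, by simp⟩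
  | cons a s ih =>
    obtain ⟨c, h1, h2⟩ := ih fun α k => h α (Multiset.mem_cons_of_mem k)
    obtain ⟨d, h3, h4⟩ := h a (Multiset.mem_cons_self _ _)
    refine ⟨c * d, h1.mul_left h3, fun α k => ?_⟩
    rcases Multiset.mem_cons.1 k with rfl | k
    · rw [mul_comm, pow_mul, h4, one_pow]
    · rw [pow_mul, h2 α k, one_pow]

theorem RhB_reg (hp : (Nat.card K).Coprime p) {V : Type} [AddCommGroup V] [Module K V]
    [FiniteDimensional K V] (g : (Module.End K V)ˣ) :
    (∀ α ∈ g.1.charpoly.aroots (Kb K), Reg p α) ↔ (orderOf g).Coprime p := by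
  refine ⟨fun h => ?_, fun h α k => ⟨_, h, ?_⟩⟩
  · obtain ⟨c, h1, h2⟩ := RhB_com h
    obtain ⟨r, f, hr, hc, hf, e⟩ := GrA_char K
    have := Fact.mk hr
    obtain ⟨m, h3⟩ : ∃ m, g.1.charpoly ∣ (X ^ c - 1) ^ m := by
      refine ⟨Multiset.card (g.1.charpoly.aroots (Kb K)), ?_⟩
      rw [← map_dvd_map' (algebraMap K (Kb K)), (IsAlgClosed.splits _).eq_prod_roots_of_monic
        (g.1.charpoly_monic.map _), Polynomial.map_pow, ← Multiset.prod_replicate,
        ← Multiset.map_const']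
      refine Multiset.prod_dvd_prod_of_dvd _ _ fun α k => dvd_iff_isRoot.2 ?_
      simp [h2 α k]
    have h4 : g ^ (c * r ^ m) = 1 := Units.ext (by
      have h5 := aeval_eq_zero_of_dvd_aeval_eq_zero
        (h3.trans (pow_dvd_pow _ (Nat.lt_pow_self hr.one_lt).le)) g.1.aeval_self_charpoly
      rw [sub_pow_char_pow, one_pow, ← pow_mul, map_sub, map_pow, aeval_X, map_one,
        sub_eq_zero] at h5
      exact h5)
    refine Nat.Coprime.coprime_dvd_left (orderOf_dvd_of_pow_eq_one h4) (h1.mul_left ?_)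
    exact (hp.coprime_dvd_left (e ▸ dvd_pow_self r hf)).pow_left m
  · have h1 : Module.End.HasEigenvalue (g.1.baseChange (Kb K)) α := by
      rw [Module.End.hasEigenvalue_iff_isRoot_charpoly, LinearMap.charpoly_baseChange]
      exact isRoot_of_mem_roots k
    obtain ⟨v, hv⟩ := h1.exists_hasEigenvector
    have h2 := hv.pow_apply (orderOf g)
    rw [← LinearMap.baseChange_pow, ← Units.val_pow_eq_pow_val, pow_orderOf_eq_one, Units.val_one,
      LinearMap.baseChange_one, Module.End.one_apply] at h2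
    exact smul_left_injective _ hv.2 (h2.symm.trans (one_smul _ v).symm)

theorem cf_ta (hp : (Nat.card K).Coprime p) {V : Type} [AddCommGroup V] [Module K V]
    [FiniteDimensional K V] (f : HA K) : cf V (ta K p f) = tau p (cf V f) := by
  classical
  funext g
  change regA p g.1.charpoly * f.1 (of g) = if (orderOf g).Coprime p then f.1 (of g) else 0
  simp only [regA, RhB_reg hp, ite_mul, one_mul, zero_mul]

theorem ta_rho (hn : 0 < n) {j : ℕ} (hj : good p (Nat.card K) n j) :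
    ta K p (rho χ n j) = ta K p (rho χ n 0) := by
  classical
  simp only [rho, map_smul, ta_apply, mf_mf]
  refine congrArg _ (mf_pi_congr hn fun α h => ?_)
  simp only [Pi.mul_apply, regA_uu hn h, PS_uu hn h]
  split_ifs with k
  · simp only [good_reg hn (hj.mul _) h k, zero_mul, pow_zero]
  · rw [zero_mul, zero_mul]

theorem RhB_zero (hχ : Function.Injective χ) (hp : p.Prime) (hn : 0 < n) :
    ∃ (s : Finset ℕ) (c : ℕ → ℂ), (∀ j ∈ s, good p (Nat.card K) n j) ∧
      ta K p (rho χ n 0) = ∑ j ∈ s, c j • rho χ n j := by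
  classical
  obtain ⟨s, c, h1, h2⟩ := reg_fourier hχ hn hp
  refine ⟨s, c, h1, ?_⟩
  simp only [rho, map_smul, ta_apply, mf_mf, smul_comm (c _), ← mf_smul (c _), ← smul_sum, ← mf_sum]
  refine congrArg _ (mf_pi_congr hn fun α h => ?_)
  simp only [Pi.mul_apply, Finset.sum_apply, Pi.smul_apply, PS_uu hn h, smul_eq_mul, mul_sum]
  rw [sum_comm]
  refine sum_congr rfl fun i _ => ?_
  rw [← uu_frob n α i, regA_uu hn (frob_mem hn h i), h2 _ (frob_mem hn h i), zero_mul, pow_zero,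
    mul_one]
  simp only [map_pow, ← pow_mul, mul_comm]

theorem ta_mem (hχ : Function.Injective χ) (hp : p.Prime) {N : ℕ} {f : HA K} (hf : f ∈ VV p χ N) :
    ta K p f ∈ VV p χ N := by
  refine (Algebra.adjoin_le (S := (VV p χ N).comap (ta K p)) ?_) hf
  rintro _ ⟨n, j, h0, h1, h2, rfl⟩
  obtain ⟨s, c, h3, h4⟩ := RhB_zero hχ hp h0
  change ta K p _ ∈ VV p χ N
  rw [ta_rho h0 h2, h4]
  exact sum_mem fun i hi => Subalgebra.smul_mem _
    (Algebra.subset_adjoin (s := gS p χ N) ⟨n, i, h0, h1, h3 i hi, rfl⟩) _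

theorem ta_hh {N : ℕ} {f : HA K} (hf : f ∈ VV p χ N) :
    ∃ g ∈ Algebra.adjoin ℂ (Set.range (hh K)), ta K p f = ta K p g := by
  have h : VV p χ N ≤ ((Algebra.adjoin ℂ (Set.range (hh K))).map (ta K p)).comap (ta K p) := by
    refine Algebra.adjoin_le ?_
    rintro _ ⟨n, j, h0, -, h2, rfl⟩
    refine ⟨_, ?_, (ta_rho h0 h2).symm⟩
    rw [rho_zero h0]
    exact Subalgebra.smul_mem _ (pi_mem n) _
  obtain ⟨g, h1, h2⟩ := h hf
  exact ⟨g, h1, h2.symm⟩

theorem VV_mono {N N' : ℕ} (h : N ≤ N') : VV p χ N ≤ VV p χ N' :=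
  Algebra.adjoin_mono fun _ ⟨n, j, h0, h1, h2⟩ => ⟨n, j, h0, h1.trans h, h2⟩

theorem RhB_pi {N m : ℕ} (h : m ≤ N) : cmp m (PI K) ∈ VV p χ N := by
  change pi K m ∈ _
  rcases Nat.eq_zero_or_pos m with rfl | h0
  · rw [pi_zero]
    exact zero_mem _
  have e := (VV p χ N).smul_mem (Algebra.subset_adjoin ⟨m, 0, h0, h, good_zero, rfl⟩)
    ((-1) ^ (m - 1) : ℂ)
  rwa [rho_zero h0, smul_smul, ← mul_pow, neg_mul_neg, one_mul, one_pow, one_smul] at e

theorem hh_mem (n : ℕ) : hh K n ∈ VV p χ n :=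
  newton_mem HH_mul_PI rfl pr_PI.eps _ fun _ => RhB_pi

theorem EE_mem (n : ℕ) : cmp n (EE K) ∈ VV p χ n :=
  newton_mem EE_mul_PI gl_EE.1 (neg_eq_zero.2 pr_PI.eps) _ fun _ h => by
    rw [map_neg]
    exact neg_mem (RhB_pi h)

theorem cmp_hh_mem {f : HA K} (hf : f ∈ Algebra.adjoin ℂ (Set.range (hh K))) (n : ℕ) :
    cmp n f ∈ VV p χ n := by
  refine (Submodule.span_le (p := (VV p χ n).toSubmodule)).2 ?_
    (cmp_adjoin (d := id) (fun m => hom_cmp m _) hf n)
  rintro _ ⟨l, rfl, rfl⟩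
  refine list_prod_mem (S := VV p χ _) fun y hy => ?_
  obtain ⟨m, hm, rfl⟩ := List.mem_map.1 hy
  exact VV_mono (List.le_sum_of_mem (List.mem_map_of_mem hm)) (hh_mem m)

theorem cmp_HH_pow (N n : ℕ) : cmp n (HH K ^ N) ∈ Algebra.adjoin ℂ (Set.range (hh K)) := by
  induction N generalizing n with
  | zero =>
    rw [pow_zero]
    exact cmp_mem_adjoin (by rintro _ ⟨m, rfl⟩; exact ⟨m, hom_cmp m _⟩) (one_mem _) n
  | succ N ih =>
    rw [pow_succ, cmp_mul]
    exact sum_mem fun x _ => mul_mem (ih _) (Algebra.subset_adjoin ⟨x.2, rfl⟩)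

/-! ### Task PD RhoC -/

theorem mf_PS_rho (hn : 0 < n) (j j' : ℕ) :
    mf (PS χ j) (rho χ n j') = ∑ i ∈ range n, rho χ n (j' + j * Nat.card K ^ i) := by
  simp only [rho]
  rw [map_smul, mf_mf, ← smul_sum, ← mf_sum]
  congr 1
  refine mf_pi_congr hn fun α hα => ?_
  rw [Pi.mul_apply, PS_mul_uu hn hα, Finset.sum_apply]

theorem mf_PS_iter (hn : 0 < n) (j l : ℕ) : mf (PS χ j ^ l) (rho χ n 0) =
    ∑ t : Fin l → Fin n, rho χ n (j * ∑ s, Nat.card K ^ (t s : ℕ)) := by
  induction l with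
  | zero => simp [mf_one]
  | succ l ih =>
    rw [pow_succ', ← mf_mf, ih, map_sum, ← (Fin.consEquiv fun _ => Fin n).sum_comp,
      Fintype.sum_prod_type, sum_comm]
    refine sum_congr rfl fun t _ => ?_
    rw [mf_PS_rho hn, sum_range]
    refine sum_congr rfl fun i _ => ?_
    simp only [Fin.consEquiv_apply, Fin.sum_univ_succ, Fin.cons_zero, Fin.cons_succ]
    rw [mul_add, add_comm]

theorem mf_PS_mem {N j : ℕ} (hj : ∀ m, 0 < m → m ≤ N → good p (Nat.card K) m j) {f : HA K}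
    (hf : f ∈ VV p χ N) : mf (PS χ j) f ∈ VV p χ N := by
  refine (isAdd_cpf (PS_mul j)).pm_mem ?_ hf
  rintro s ⟨m, j', h0, hm, hg, rfl⟩
  change mf (PS χ j) _ ∈ _
  rw [mf_PS_rho h0]
  exact sum_mem fun i _ => Algebra.subset_adjoin ⟨m, _, h0, hm, hg.add ((hj m h0 hm).mul _), rfl⟩

theorem RhC_pow {N j : ℕ} (hj : ∀ m, 0 < m → m ≤ N → good p (Nat.card K) m j) {f : HA K}
    (hf : f ∈ VV p χ N) (l : ℕ) : mf (PS χ j ^ l) f ∈ VV p χ N := by
  induction l with
  | zero => rwa [pow_zero, mf_one]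
  | succ l ih =>
    rw [pow_succ', ← mf_mf]
    exact mf_PS_mem hj ih

theorem RhC_zero (hn : 0 < n) (j : ℕ) : mf (PS χ j) (rho χ n 0) = (n : ℂ) • rho χ n j := by
  rw [mf_PS_rho hn, sum_congr rfl fun i _ => (rho_congr (χ := χ) hn
    ((NuB_ne (one_lt_q K) hn).2 ⟨i, by rw [zero_add]⟩)).symm, sum_const, card_range,
    Nat.cast_smul_eq_nsmul]

theorem RhC_EE {y : HA K} (hy : Prim n y) (A : K[X] → ℂ) :
    (n : ℂ) * PD.hn n (mf A (EE K)) y = -PD.hn n (mf A (pi K n)) y := by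
  have h := congrArg star (hn_prim_EE (hy.mf (star A)))
  rw [star_mul', star_neg, hn_star, hn_star, star_natCast] at h
  rw [hn_mf, hn_mf, h]

theorem exists_x (hχ : Function.Injective χ) (hp : p.Prime) (hn : 0 < n) {c : Lab (Nat.card K)}
    (hc : good p (Nat.card K) c.d c.j) (hd : c.d ∣ n) (h1 : 1 < n / c.d) : ∃ x, IsV x ∧
      x ∈ VV p χ n ∧ ¬ ∃ k : ℤ, PD.hn n x (rho χ n (c.lab n)) = k * (n / c.d : ℕ) := by
  have hq := one_lt_q K
  obtain ⟨l, hl, m, hm⟩ := Nat.exists_prime_and_dvd h1.ne'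
  have hnm : n = l * (c.d * m) := by
    rw [← Nat.mul_div_cancel' hd, hm]; ring
  have he : n / l = c.d * m := by
    rw [hnm, Nat.mul_div_cancel_left _ hl.pos]
  have hen : n / l ∣ n := Nat.div_dvd_of_dvd ⟨_, hnm⟩
  have he0 : 0 < n / l := Nat.pos_of_dvd_of_pos hen hn
  have hde : c.d ∣ n / l := ⟨m, he⟩
  obtain ⟨j, hj, hg⟩ := exists_univ hp hq he0 (Nat.le_of_dvd hn hen) ((good_nm hq hde he0).2 hc)
  have hθ : c.lab n ≡ j * nm (Nat.card K) n (n / l) [MOD Nat.card K ^ n - 1] := by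
    rw [Lab.lab, ← nm_trans hq hde hen hn, ← mul_assoc]
    exact ((modEq_nm hq hen hn).2 hj).symm
  obtain ⟨z, hz⟩ := count_l hq hn hl ⟨_, hnm⟩ hθ
  rw [gr_lab hq hn hd hd, if_pos rfl] at hz
  have hA : (fun u => (PS χ j u ^ l - PS χ (j * l) u) / l) =
      (l : ℂ)⁻¹ • (PS χ j ^ l - PS χ (j * l)) := by
    funext u
    simp [div_eq_inv_mul]
  refine ⟨cmp n (mf (fun u => (PS χ j u ^ l - PS χ (j * l) u) / l) (EE K)),
    isV_cmp.1 (isV_adams χ j hl) n, ?_, ?_⟩
  · rw [mf, cmp_pm]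
    change mf _ _ ∈ _
    rw [hA, mf_smul, mf_sub]
    exact Subalgebra.smul_mem _ (sub_mem (RhC_pow hg (EE_mem n) l)
      (mf_PS_mem (fun m h0 hm => (hg m h0 hm).mul l) (EE_mem n))) _
  · rintro ⟨k, hk⟩
    have h := RhC_EE (prim_rho (χ := χ) hn (c.lab n))
      (fun u => (PS χ j u ^ l - PS χ (j * l) u) / l)
    have hπ : pi K n = ((-1) ^ (n - 1) : ℂ) • rho χ n 0 := by
      rw [rho_zero hn, smul_smul, ← mul_pow, neg_mul_neg, one_mul, one_pow, one_smul]
    rw [hn_cmp_left] at hk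
    rw [hk, hπ, map_smul, hA, mf_smul, mf_sub, mf_PS_iter hn, RhC_zero hn, hn_smul_left,
      hn_smul_left, hn_sub_left, hn_sum_left, hn_smul_left, hn_rho hχ hn,
      sum_congr rfl fun t _ => hn_rho hχ hn _ _, ← Nat.cast_sum, hz] at h
    have hn0 : (n : ℂ) ≠ 0 := Nat.cast_ne_zero.2 hn.ne'
    have hl0 : (l : ℂ) ≠ 0 := Nat.cast_ne_zero.2 hl.pos.ne'
    have hm0 : ((n / c.d : ℕ) : ℂ) ≠ 0 := Nat.cast_ne_zero.2 (by omega)
    generalize (n / c.d : ℕ) = r at h hm0
    push_cast [Nat.cast_sub hl.one_le] at h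
    have h2 : ((l : ℤ) * (z + 1 + (-1) ^ (n - 1) * k) : ℤ) = 1 := by
      have : ((-1 : ℂ) ^ (n - 1)) * (-1) ^ (n - 1) = 1 := by
        rw [← mul_pow, neg_mul_neg, one_mul, one_pow]
      apply Int.cast_injective (α := ℂ)
      push_cast
      apply mul_left_cancel₀ (mul_ne_zero hn0 hm0)
      field_simp at h
      linear_combination ((-1 : ℂ) ^ (n - 1) * n) * h - (n * r * (l - 1 + l * z)) * this
    exact hl.one_lt.ne' (by exact_mod_cast Int.eq_one_of_mul_eq_one_right (by positivity) h2)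

end PD
end

-- merged part: Pool.Agent.Work.MP_cea1f0_al.D.Cusp
section
/-!
# The series of a cuspidal character  (tasks PD CuspA, PD CuspB)

* `Dw_pow`: `del (σ ^ m) = (i1 σ + i2 σ) ^ m`, `Commute.add_pow'`; or induction on `m` for all `w` with `mackey`.
* `exists_gen`: `expand`; `1 = ∑ η, hn S η * om η` is a sum of natural numbers.
* `cusp`: `e m` from `exists_gen` for `σ ^ m` (`om_mul_hom`).  `E = glue (n ↦ if d ∣ n then e (n / d) else 0)` is group like by
  `del0_expand`: if `hn (e m) (χ₁ * χ₂) ≠ 0` then `e m` is a constituent of the character `χ₁ * χ₂`, so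
  `1 ≤ om (χ₁ * χ₂) = om χ₁ * om χ₂`, and `hn (σ ^ m) (χ₁ * χ₂) ≠ 0`, so `χ₁ = e i`, `χ₂ = e j` (`hn_pow_mul`).  The character
  `e i * e j` has `om = 1` and its constituents are constituents of `σ ^ (i + j)` (`hn_mul_pos`), so it contains `e (i + j)` once.
  Let `E * E' = 1` (`isUnit_of_eps`), `y = E' * pm dimf E`, `P m = d⁻¹ • cmp (m * d) y`; `pr_log`, `newton`; the components of `y` in
  degrees that are not multiples of `d` vanish.  The recursion `P m = m • e m - ∑ ...` gives, by strong induction, `IsV (P m)`, the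
  statement on the constituents, and `om (P m) = 1`; only the constituent `e m` contributes to `om (P m)`.
-/

namespace PD

open Ob CF Finset

variable {K : Type} [Field K] [Finite K] {ψ : AddChar K ℂ}

/-! ### Task PD CuspA -/

theorem Dw_pow {σ : HA K} (h : Pr σ) (w : HA K →ₗ[ℂ] ℂ) (m : ℕ) :
    Dw w (σ ^ m) = ∑ x ∈ ad m, ((m.choose x.1 : ℂ) * w (σ ^ x.1)) • σ ^ x.2 := by
  refine CF.ext fun M => ?_
  have e : dr M (σ ^ m) = ∑ x ∈ ad m, ((m.choose x.1 : ℂ) * (σ ^ x.2).1 M) • σ ^ x.1 :=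
    CF.ext fun M₁ => by
      rw [dr_val, ← del_val, map_pow, h, Commute.add_pow' (i1_comm_i2 σ σ), CF.sum_val,
        CF.sum_val, CF.sum_val]
      refine sum_congr rfl fun x _ => ?_
      rw [← Nat.cast_smul_eq_nsmul ℂ, ← map_pow, ← map_pow, smul_val, smul_val, i1_mul_i2, smul_val,
        smul_eq_mul, smul_eq_mul, mul_assoc, mul_comm ((σ ^ x.1).1 M₁)]
  rw [Dw_val, e, map_sum, CF.sum_val]
  simp only [map_smul, smul_val, smul_eq_mul, mul_right_comm]

theorem hn_pow_mul {σ x y : HA K} {d a b m : ℕ} (h : Prim d σ) (hx : Hom a x) (hy : Hom b y)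
    (h0 : hn (a + b) (σ ^ m) (x * y) ≠ 0) : ∃ i j, i + j = m ∧ a = i * d ∧ b = j * d ∧
      hn a (σ ^ i) x ≠ 0 ∧ hn b (σ ^ j) y ≠ 0 := by
  rw [hn_mul hx hy, Dw_pow h.pr, hn_sum_left] at h0
  obtain ⟨z, hz, k⟩ := exists_ne_zero_of_sum_ne_zero h0
  rw [hn_smul_left] at k
  have k1 : hn a (σ ^ z.1) x ≠ 0 := right_ne_zero_of_mul (left_ne_zero_of_mul k)
  have k2 := right_ne_zero_of_mul k
  exact ⟨z.1, z.2, HasAntidiagonal.mem_antidiagonal.1 hz,
    by_contra fun l => k1 (hn_hom_left (h.2.1.pow _) (Ne.symm l) _),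
    by_contra fun l => k2 (hn_hom_left (h.2.1.pow _) (Ne.symm l) _), k1, k2⟩

theorem CuA_one {ι : Type*} {s : Finset ι} {f : ι → ℕ} (h : ∑ i ∈ s, f i = 1) :
    ∃ e ∈ s, f e = 1 ∧ ∀ i ∈ s, f i ≠ 0 → i = e := by
  obtain ⟨e, he, k⟩ := exists_ne_zero_of_sum_ne_zero (h.trans_ne one_ne_zero)
  have := single_le_sum (f := f) (fun _ _ => Nat.zero_le _) he
  refine ⟨e, he, by omega, fun i hi l => by_contra fun ne => ?_⟩
  have := add_le_sum (f := f) (fun _ _ => Nat.zero_le _) hi he ne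
  omega

theorem CuA_nat {α : Type*} {p : α → Prop} {f : α → ℂ} (h : ∀ a, p a → ∃ k : ℕ, f a = k) :
    ∃ k : α → ℕ, ∀ a, p a → f a = k a := by
  choose! k hk using h
  exact ⟨k, hk⟩

theorem exists_gen {S : HA K} {n : ℕ} (hS : IsCh S) (h1 : om ψ n S = 1) : ∃ e, Irr n e ∧
    hn n S e = 1 ∧ om ψ n e = 1 ∧ ∀ η, Irr n η → hn n S η ≠ 0 → om ψ n η ≠ 0 → η = e := by
  obtain ⟨k, hk⟩ := CuA_nat (isCh_iff.1 hS n)
  obtain ⟨l, hl⟩ := CuA_nat fun χ (h : Irr n χ) => om_nat (ψ := ψ) n h.isCh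
  rw [← om_cmp, expand, map_sum, sum_congr rfl (g := fun χ => ((k χ * l χ : ℕ) : ℂ)) fun χ h => by
    rw [map_smul, hk χ (mem_irs.1 h), hl χ (mem_irs.1 h), smul_eq_mul, Nat.cast_mul],
    ← Nat.cast_sum, Nat.cast_eq_one] at h1
  obtain ⟨e, he, h2, h3⟩ := CuA_one h1
  rw [mem_irs] at he
  obtain ⟨h4, h5⟩ := mul_eq_one.1 h2
  refine ⟨e, he, by rw [hk e he, h4, Nat.cast_one], by rw [hl e he, h5, Nat.cast_one],
    fun η hη a b => h3 η (mem_irs.2 hη) (mul_ne_zero ?_ ?_)⟩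
  · rwa [hk η hη, Nat.cast_ne_zero] at a
  · rwa [hl η hη, Nat.cast_ne_zero] at b

theorem hn_mul_ne {a b : ℕ} {x y η : HA K} (hx : Hom a x) (hy : Hom b y)
    (h : hn (a + b) (x * y) η ≠ 0) : ∃ η₁ η₂, Irr a η₁ ∧ Irr b η₂ ∧ hn a x η₁ ≠ 0 ∧ hn b y η₂ ≠ 0 ∧
      hn (a + b) (η₁ * η₂) η ≠ 0 := by
  rw [← hx.cmp_eq, ← hy.cmp_eq, expand, expand, sum_mul_sum, hn_sum_left] at h
  obtain ⟨η₁, h₁, h⟩ := exists_ne_zero_of_sum_ne_zero h
  rw [hn_sum_left] at h
  obtain ⟨η₂, h₂, h⟩ := exists_ne_zero_of_sum_ne_zero h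
  rw [smul_mul_smul_comm, hn_smul_left, mul_ne_zero_iff, mul_ne_zero_iff] at h
  exact ⟨η₁, η₂, mem_irs.1 h₁, mem_irs.1 h₂, h.1.1, h.1.2, h.2⟩

theorem hn_ne_of_irr {n : ℕ} {S S' η : HA K} (hS : IsCh S) (hS' : IsCh S') (hη : Irr n η)
    (h : hn n S η ≠ 0) (h' : hn n S' η ≠ 0) : hn n S S' ≠ 0 := by
  obtain ⟨k, hk⟩ := CuA_nat (isCh_iff.1 hS n)
  obtain ⟨l, hl⟩ := CuA_nat (isCh_iff.1 hS' n)
  rw [parseval, sum_congr rfl (g := fun χ => ((k χ * l χ : ℕ) : ℂ)) fun χ h => by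
    rw [hk χ (mem_irs.1 h), hl χ (mem_irs.1 h), star_natCast, Nat.cast_mul],
    ← Nat.cast_sum, Nat.cast_ne_zero]
  rw [hk η hη, Nat.cast_ne_zero] at h
  rw [hl η hη, Nat.cast_ne_zero] at h'
  exact fun e => mul_ne_zero h h' (sum_eq_zero_iff.1 e η (mem_irs.2 hη))

theorem CuA_perm {ι : Type} [Fintype ι] {m : ι → ℕ} {k : ι → ι → ℤ} (hm : ∀ i, 0 < m i)
    (row : ∀ i, ∑ j, (k i j : ℝ) ^ 2 * m j / m i = 1)
    (col : ∀ j, ∑ i, (k i j : ℝ) ^ 2 * m j / m i = 1) :
    ∃ s : ι ≃ ι, ∀ i, m (s i) = m i ∧ (k i (s i)).natAbs = 1 ∧ ∀ j, j ≠ s i → k i j = 0 := by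
  let D : ι → ι → ℝ := fun i j => (k i j : ℝ) ^ 2 * m j / m i
  have D0 : ∀ i j, 0 ≤ D i j := fun i j => by positivity
  have m0 : ∀ i, (0 : ℝ) < m i := fun i => Nat.cast_pos.2 (hm i)
  have le : ∀ i j, k i j ≠ 0 → (m j : ℝ) ≤ m i := fun i j h => by
    have h1 := (div_le_one (m0 i)).1
      ((single_le_sum (fun j _ => D0 i j) (mem_univ j)).trans_eq (row i))
    have h2 : (1 : ℝ) ≤ (k i j : ℝ) ^ 2 := by
      exact_mod_cast (one_le_sq_iff_one_le_abs _).2 (Int.one_le_abs h)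
    nlinarith [m0 j]
  have nn : ∀ i j, 0 ≤ D i j * (m i - m j) := fun i j => by
    by_cases h : k i j = 0
    · simp [D, h]
    · exact mul_nonneg (D0 i j) (sub_nonneg.2 (le i j h))
  have z : ∑ i, ∑ j, D i j * (m i - m j) = 0 := by
    simp only [mul_sub, sum_sub_distrib]
    rw [sum_comm (f := fun i j => D i j * m j)]
    simp only [← sum_mul, D, row, col, sub_self]
  have eq : ∀ i j, k i j ≠ 0 → m j = m i := fun i j h => by
    have h1 := (sum_eq_zero_iff_of_nonneg fun j _ => nn i j).1 ((sum_eq_zero_iff_of_nonneg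
      fun i _ => sum_nonneg fun j _ => nn i j).1 z i (mem_univ _)) j (mem_univ _)
    have h2 : D i j ≠ 0 :=
      div_ne_zero (mul_ne_zero (pow_ne_zero _ (Int.cast_ne_zero.2 h)) (m0 j).ne') (m0 i).ne'
    exact_mod_cast (sub_eq_zero.1 ((mul_eq_zero.1 h1).resolve_left h2)).symm
  have hD : ∀ i j, D i j = ((k i j).natAbs ^ 2 : ℕ) := fun i j => by
    by_cases h : k i j = 0
    · simp [D, h]
    · simp [D, eq i j h, (m0 i).ne']
  have r : ∀ i, ∑ j, (k i j).natAbs ^ 2 = 1 := fun i => by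
    exact_mod_cast (sum_congr rfl fun j _ => (hD i j).symm).trans (row i)
  have c : ∀ j, ∑ i, (k i j).natAbs ^ 2 = 1 := fun j => by
    exact_mod_cast (sum_congr rfl fun i _ => (hD i j).symm).trans (col j)
  choose s _ h1 h2 using fun i => CuA_one (r i)
  have inj : Function.Injective s := fun i i' e => by
    obtain ⟨a, -, -, h⟩ := CuA_one (c (s i))
    exact (h i (mem_univ _) ((h1 i).trans_ne one_ne_zero)).trans
      (h i' (mem_univ _) (e ▸ (h1 i').trans_ne one_ne_zero)).symm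
  refine ⟨.ofBijective s inj.bijective_of_finite, fun i => ?_⟩
  have h3 : (k i (s i)).natAbs = 1 := (pow_eq_one_iff_left two_ne_zero).1 (h1 i)
  exact ⟨eq i _ (Int.natAbs_ne_zero.1 (h3.trans_ne one_ne_zero)), h3,
    fun j hj => by_contra fun l => hj (h2 i j (mem_univ _) (by simpa using l))⟩

theorem two_bases {ι : Type} [Fintype ι] [DecidableEq ι] {n : ℕ} {r P : ι → HA K} {m : ι → ℕ}
    (hm : ∀ i, 0 < m i) (hh : ∀ i, Hom n (r i))
    (hr : ∀ i j, hn n (r i) (r j) = if i = j then (m i : ℂ) else 0)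
    (hP : ∀ i j, hn n (P i) (P j) = if i = j then (m i : ℂ) else 0)
    (hs : ∀ i, P i ∈ Submodule.span ℂ (Set.range r))
    (hi : ∀ i j, ∃ k : ℤ, hn n (r i) (P j) = k * m j) :
    ∃ s : ι ≃ ι, ∀ i, m (s i) = m i ∧ (r i = P (s i) ∨ r i = -P (s i)) := by
  choose k hk using hi
  choose C hC using fun j => (Submodule.mem_span_range_iff_exists_fun ℂ).1 (hs j)
  have m0 : ∀ i, (m i : ℂ) ≠ 0 := fun i => Nat.cast_ne_zero.2 (hm i).ne'
  have e1 : ∀ i j, C j i = k i j * m j / m i := fun i j => by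
    have := congrArg star (hk i j)
    rw [hn_star, ← hC, hn_sum_left] at this
    simpa [hn_smul_left, hr, eq_div_iff (m0 i)] using this
  have e2 : Matrix.of C * Matrix.of (fun i j => (k i j : ℂ)) = 1 := by
    ext j j'
    have := hP j j'
    rw [← hC j, hn_sum_left] at this
    simp only [hn_smul_left, hk, ← mul_assoc, ← sum_mul] at this
    refine mul_right_cancel₀ (m0 j') (this.trans ?_)
    rw [Matrix.one_apply]
    split_ifs with h
    · rw [h, one_mul]
    · rw [zero_mul]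
  have e3 := mul_eq_one_comm.1 e2
  have e4 : ∀ i, r i = ∑ j, (k i j : ℂ) • P j := fun i => by
    have : ∀ i', ∑ j, (k i j : ℂ) * C j i' = if i = i' then 1 else 0 := congrFun (congrFun e3 i)
    simp only [← hC, smul_sum, smul_smul]
    rw [sum_comm]
    simp [← sum_smul, this]
  refine (CuA_perm (k := k) hm (fun i => Complex.ofReal_injective ?_)
    fun j => Complex.ofReal_injective ?_).imp fun s h i => ⟨(h i).1, ?_⟩
  · have := congrFun (congrFun e3 i) i
    simp only [Matrix.mul_apply, Matrix.of_apply, e1, Matrix.one_apply_eq] at this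
    push_cast
    exact (sum_congr rfl fun j _ => by ring).trans this
  · have := congrFun (congrFun e2 j) j
    simp only [Matrix.mul_apply, Matrix.of_apply, e1, Matrix.one_apply_eq] at this
    push_cast
    exact (sum_congr rfl fun j _ => by ring).trans this
  · rw [e4, sum_eq_single_of_mem (s i) (mem_univ _) fun j _ hj => by simp [(h i).2.2 j hj]]
    rcases Int.natAbs_eq_iff.1 (h i).2.1 with e | e <;> simp [e]

/-! ### Task PD CuspB -/

/-- The properties of the series. -/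
structure Ser (d : ℕ) (σ : HA K) (e P : ℕ → HA K) : Prop where
  e_zero : e 0 = 1
  P_zero : P 0 = 0
  P_one : P 1 = σ
  irr : ∀ m, Irr (m * d) (e m)
  prim : ∀ m, 0 < m → Prim (m * d) (P m)
  newton : ∀ m : ℕ, (m : ℂ) • e m = ∑ x ∈ ad m, e x.1 * P x.2
  one : ∀ m, 0 < m → hn (m * d) (P m) (e m) = 1
  sup : ∀ m η, Irr (m * d) η → hn (m * d) (P m) η ≠ 0 → hn (m * d) (σ ^ m) η ≠ 0

theorem CuB_ad {n : ℕ} {x : ℕ × ℕ} : x ∈ ad n ↔ x.1 + x.2 = n := HasAntidiagonal.mem_antidiagonal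

theorem CuB_self {n : ℕ} {χ : HA K} (h : Irr n χ) : hn n χ χ = 1 := by
  rw [hn_irr h h, if_pos rfl]

theorem CuB_ne {n : ℕ} {χ χ' : HA K} (h : Irr n χ) (h' : Irr n χ') (k : χ ≠ χ') :
    hn n χ χ' = 0 := by
  rw [hn_irr h h', if_neg k]

theorem CuB_gl (hψ : ψ ≠ 1) {d : ℕ} {σ E : HA K} {e : ℕ → HA K} (hp : Prim d σ)
    (hS : ∀ m, IsCh (σ ^ m)) (e1 : ∀ m, Irr (m * d) (e m))
    (e2 : ∀ m, hn (m * d) (σ ^ m) (e m) = 1) (e3 : ∀ m, om ψ (m * d) (e m) = 1)
    (e4 : ∀ m η, Irr (m * d) η → hn (m * d) (σ ^ m) η ≠ 0 → om ψ (m * d) η ≠ 0 → η = e m)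
    (E1 : ∀ m, cmp (m * d) E = e m) (E2 : ∀ n, ¬d ∣ n → cmp n E = 0) : Gl E := by
  have hE : ∀ n z, hn n E z ≠ 0 → ∃ m, n = m * d ∧ hn n (e m) z ≠ 0 := fun n z k => by
    rw [← hn_cmp_left] at k
    obtain ⟨m, rfl⟩ : d ∣ n := by_contra fun k' => k (by rw [E2 n k', PrB_zero_left])
    rw [mul_comm] at k ⊢
    exact ⟨m, rfl, E1 m ▸ k⟩
  have key : ∀ a b χ₁ χ₂, Irr a χ₁ → Irr b χ₂ →
      hn (a + b) E (χ₁ * χ₂) = hn a E χ₁ * hn b E χ₂ := fun a b χ₁ χ₂ h₁ h₂ => by
    by_cases k : ∃ i j, a = i * d ∧ b = j * d ∧ χ₁ = e i ∧ χ₂ = e j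
    · obtain ⟨i, j, rfl, rfl, rfl, rfl⟩ := k
      obtain ⟨η, a1, a2, a3, -⟩ := exists_gen (h₁.isCh.mul h₂.isCh) (n := i * d + j * d) (ψ := ψ)
        (by rw [om_mul_hom hψ h₁.1 h₂.1, e3, e3, mul_one])
      have a4 := hn_mul_pos (hS i) (hS j) h₁ h₂ a1.isCh (e2 i ▸ one_ne_zero) (e2 j ▸ one_ne_zero)
        (a2 ▸ one_ne_zero)
      rw [← pow_add] at a4
      rw [← add_mul] at a1 a2 a3 a4 ⊢
      obtain rfl := e4 _ η a1 a4 (a3 ▸ one_ne_zero)
      rw [← hn_cmp_left, E1, ← hn_star, a2, ← hn_cmp_left _ E, ← hn_cmp_left _ E, E1, E1,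
        CuB_self h₁, CuB_self h₂, star_one, mul_one]
    · have a1 : hn a E χ₁ * hn b E χ₂ = 0 := by
        by_contra k'
        obtain ⟨i, rfl, b1⟩ := hE _ _ (left_ne_zero_of_mul k')
        obtain ⟨j, rfl, b2⟩ := hE _ _ (right_ne_zero_of_mul k')
        exact k ⟨i, j, rfl, rfl, by_contra fun c => b1 (CuB_ne (e1 i) h₁ (Ne.symm c)),
          by_contra fun c => b2 (CuB_ne (e1 j) h₂ (Ne.symm c))⟩
      rw [a1]
      by_contra k'
      obtain ⟨m, b1, b2⟩ := hE _ _ k'
      have b3 : Irr (a + b) (e m) := b1 ▸ e1 m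
      have b4 : hn (a + b) (χ₁ * χ₂) (e m) ≠ 0 := by rwa [← hn_star, star_ne_zero]
      have b5 := h₁.isCh.mul h₂.isCh
      obtain ⟨i, j, -, rfl, rfl, c1, c2⟩ := hn_pow_mul hp h₁.1 h₂.1 (hn_ne_of_irr (hS m) b5 b3
        (by rw [b1, e2]; exact one_ne_zero) b4)
      obtain ⟨c, hc⟩ := om_nat (ψ := ψ) (m * d) (b5.sub b3 b4)
      rw [map_sub, e3, ← b1, om_mul_hom hψ h₁.1 h₂.1, sub_eq_iff_eq_add] at hc
      have c3 := hc.trans_ne (Nat.cast_add_one_ne_zero c)
      exact k ⟨i, j, rfl, rfl, e4 i _ h₁ c1 (left_ne_zero_of_mul c3),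
        e4 j _ h₂ c2 (right_ne_zero_of_mul c3)⟩
  refine ⟨?_, fun M₁ M₂ => ?_⟩
  · have a := e3 0
    rwa [← E1, zero_mul, om_cmp, om_zero] at a
  · rw [del0_expand, AdjC_val E M₁, AdjC_val E M₂, sum_mul_sum]
    refine sum_congr rfl fun χ₁ h₁ => sum_congr rfl fun χ₂ h₂ => ?_
    rw [key _ _ _ _ (mem_irs.1 h₁) (mem_irs.1 h₂)]
    ring

theorem cusp (hψ : ψ ≠ 1) {d : ℕ} {σ : HA K} (h : Irr d σ) (hp : Prim d σ) (h1 : om ψ d σ = 1) :
    ∃ e P, Ser d σ e P := by
  have hd : 0 < d := hp.1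
  have hS : ∀ m, IsCh (σ ^ m) := h.isCh.pow
  have hom : ∀ m, om ψ (m * d) (σ ^ m) = 1 := fun m => by
    induction m with
    | zero => simp [WhE_one]
    | succ m ih => rw [pow_succ, add_mul, one_mul, om_mul_hom hψ (h.1.pow m) h.1, ih, h1, mul_one]
  choose e e1 e2 e3 e4 using fun m => exists_gen (hS m) (hom m)
  have e0 : e 0 = 1 := by
    have a := e3 0
    have b := (e1 0).1
    rw [zero_mul] at a b
    rw [← b.cmp_eq, PrB_cmp0, ← om_zero (ψ := ψ), a, one_smul]
  obtain ⟨E, E1, E2⟩ : ∃ E : HA K, (∀ m, cmp (m * d) E = e m) ∧ ∀ n, ¬d ∣ n → cmp n E = 0 := by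
    have hF : ∀ n, Hom n (if d ∣ n then e (n / d) else 0) := fun n => by
      split_ifs with k
      · have := (e1 (n / d)).1
        rwa [Nat.div_mul_cancel k] at this
      · exact fun _ _ => rfl
    exact ⟨glue _, fun m => by
      rw [cmp_glue hF, if_pos (dvd_mul_left d m), Nat.mul_div_cancel _ hd],
      fun n k => by rw [cmp_glue hF, if_neg k]⟩
  have hE := CuB_gl hψ hp hS e1 e2 e3 e4 E1 E2
  obtain ⟨u, rfl⟩ := isUnit_of_eps hE.1
  have hy : u.1 * (u⁻¹.1 * pm (dimf K) u.1) = pm (dimf K) u.1 := by rw [Units.mul_inv_cancel_left]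
  have hP := pr_log hE isAdd_dimf hy
  generalize u⁻¹.1 * pm (dimf K) u.1 = y at hy hP
  have hd' : (d : ℂ) ≠ 0 := Nat.cast_ne_zero.2 hd.ne'
  obtain ⟨P, eP⟩ : ∃ P : ℕ → HA K, ∀ m, P m = (d : ℂ)⁻¹ • cmp (m * d) y := ⟨_, fun _ => rfl⟩
  have hH : ∀ m, Hom (m * d) (P m) := fun m => eP m ▸ (hom_cmp _ _).smul _
  have P0 : P 0 = 0 := by rw [eP, zero_mul, PrB_cmp0, hP.eps, zero_smul, smul_zero]
  have nw : ∀ m : ℕ, (m : ℂ) • e m = ∑ x ∈ ad m, e x.1 * P x.2 := fun m => by
    have a := newton hy (m * d)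
    rw [E1, ← sum_of_injOn (s := ad m) (f := fun x => e x.1 * cmp (x.2 * d) y)
      (fun x => (x.1 * d, x.2 * d))] at a
    · simp only [eP, mul_smul_comm, ← smul_sum, ← a, smul_smul]
      congr 1
      push_cast
      field_simp
    · intro x _ z _ k
      obtain ⟨k1, k2⟩ := Prod.mk.inj k
      exact Prod.ext (Nat.eq_of_mul_eq_mul_right hd k1) (Nat.eq_of_mul_eq_mul_right hd k2)
    · intro x hx
      exact CuB_ad.2 (by rw [← CuB_ad.1 hx, add_mul])
    · intro x hx k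
      rw [E2 _ fun hi => k ?_, zero_mul]
      obtain ⟨i, hi⟩ := hi
      rw [CuB_ad] at hx
      obtain ⟨j, hj⟩ : d ∣ x.2 := (Nat.dvd_add_right ⟨i, hi⟩).1 (hx ▸ dvd_mul_left d m)
      refine ⟨(i, j), mem_coe.2 (CuB_ad.2 (Nat.eq_of_mul_eq_mul_right hd ?_)),
        Prod.ext (by rw [hi, mul_comm]) (by rw [hj, mul_comm])⟩
      rw [← hx, hi, hj]
      ring
    · intro x _
      rw [E1]
  have rc : ∀ m : ℕ, P (m + 1) = ((m + 1 : ℕ) : ℂ) • e (m + 1) - ∑ x ∈ ad m, e (x.1 + 1) * P x.2 :=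
    fun m => by rw [nw, Finset.Nat.sum_antidiagonal_succ, e0, one_mul, add_sub_cancel_right]
  have sup : ∀ m η, Irr (m * d) η → hn (m * d) (P m) η ≠ 0 → hn (m * d) (σ ^ m) η ≠ 0 := by
    intro m
    induction m using Nat.strong_induction_on with
    | _ m ih =>
    intro η hη h0 h2
    refine h0 ?_
    rcases m with _ | m
    · rw [P0, PrB_zero_left]
    rw [rc, hn_sub_left, hn_smul_left, hn_sum_left, sum_eq_zero fun x hx => ?_,
      CuB_ne (e1 _) hη fun k => ?_, mul_zero, sub_zero]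
    · rw [← k, e2] at h2
      exact one_ne_zero h2
    · rw [CuB_ad] at hx
      by_contra k
      have a : (m + 1) * d = (x.1 + 1) * d + x.2 * d := by rw [← hx]; ring
      have b : σ ^ (m + 1) = σ ^ (x.1 + 1) * σ ^ x.2 := by rw [← hx]; ring
      rw [a] at k h2
      obtain ⟨η₁, η₂, a1, a2, a3, a4, a5⟩ := hn_mul_ne (e1 _).1 (hH _) k
      obtain rfl : e (x.1 + 1) = η₁ := by_contra fun k => a3 (CuB_ne (e1 _) a1 k)
      exact hn_mul_pos (hS _) (hS _) a1 a2 hη.isCh (e2 _ ▸ one_ne_zero)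
        (ih _ (by omega) _ a2 a4) a5 (b ▸ h2)
  have ho : ∀ m : ℕ, (m : ℂ) = ∑ x ∈ ad m, om ψ (x.2 * d) (P x.2) := fun m => by
    have a := congrArg (om ψ (m * d)) (nw m)
    rw [map_smul, e3, smul_eq_mul, mul_one, map_sum] at a
    refine a.trans (sum_congr rfl fun x hx => ?_)
    rw [← CuB_ad.1 hx, add_mul, om_mul_hom hψ (e1 _).1 (hH _), e3, one_mul]
  refine ⟨e, P, e0, P0, ?_, e1, fun m hm => eP m ▸ (hP.prim (Nat.mul_pos hm hd)).smul _, nw,
    fun m hm => ?_, sup⟩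
  · have a : Irr (1 * d) σ := by rwa [one_mul]
    rw [e4 1 σ a (by rw [pow_one, CuB_self a]; exact one_ne_zero)
      (by rw [one_mul, h1]; exact one_ne_zero)]
    simpa [P0] using rc 0
  · obtain ⟨m, rfl⟩ := Nat.exists_eq_succ_of_ne_zero hm.ne'
    have a := ho (m + 1)
    rw [Finset.Nat.sum_antidiagonal_succ] at a
    dsimp only at a
    rw [← ho, Nat.cast_succ, add_comm, add_left_inj, ← om_cmp, expand, map_sum,
      sum_eq_single_of_mem (e (m + 1)) (mem_irs.2 (e1 _)) fun χ hχ k => ?_, map_smul, e3,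
      smul_eq_mul, mul_one] at a
    · exact a.symm
    · rw [map_smul, smul_eq_mul]
      by_contra k'
      rw [mem_irs] at hχ
      exact k (e4 _ χ hχ (sup _ χ hχ (left_ne_zero_of_mul k')) (right_ne_zero_of_mul k'))

theorem Ser.hn_P {d : ℕ} {σ : HA K} {e P : ℕ → HA K} (H : Ser d σ e P) {m : ℕ} (hm : 0 < m)
    {x : HA K} (h : ∀ i, 0 < i → i < m → ∀ y, hn (m * d) x (P i * y) = 0) :
    hn (m * d) x (P m) = m * hn (m * d) x (e m) := by
  have a := congrArg (hn (m * d) x) (H.newton m)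
  rw [hn_smul_right, star_natCast, hn_sum_right, sum_eq_single_of_mem (0, m) (by simp)
    fun z hz k => ?_, H.e_zero, one_mul] at a
  · exact a.symm
  · rw [CuB_ad] at hz
    rcases z.2.eq_zero_or_pos with k0 | k0
    · rw [k0, H.P_zero, mul_zero, PrB_zero_right]
    · rw [mul_comm (e _), h _ k0 (by_contra fun c => k (Prod.ext (by omega) (by omega)))]

theorem Ser.hn_prim {d : ℕ} {σ : HA K} {e P : ℕ → HA K} (H : Ser d σ e P) {m : ℕ} (hm : 0 < m)
    {x : HA K} (h : Prim (m * d) x) : hn (m * d) x (P m) = m * hn (m * d) x (e m) := by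
  refine H.hn_P hm fun i hi him y => ?_
  rw [← hn_cmp_right, cmp_mul, hn_sum_right]
  refine sum_eq_zero fun z hz => ?_
  rw [CuB_ad] at hz
  have a := H.prim i hi
  by_cases k : z.1 = i * d
  · have := Nat.mul_lt_mul_of_pos_right him (Nat.pos_of_mul_pos_left a.1)
    exact h.orth (hom_cmp _ _) (hom_cmp _ _) (k ▸ a.1) (by omega) _
  · rw [a.2.1.cmp_ne k, zero_mul, PrB_zero_right]

end PD
end

-- merged part: Pool.Agent.Work.MP_cea1f0_al.D.Two
section
/-!
# The primitive virtual characters belong to the series of the cuspidal characters  (tasks PD Two, PD MainA, PD MainB)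

* `irr_sg`: `IsV.irr`, `hn_rho`, `c.prim`; `om_rho`, `om_nat` exclude the other sign.
* `sg_orth`: `orth_ideal` with `x = sg χ c'`; `hn_rho`, `gr_lab` in degree `c'.d` (`nm_self`), `hn_hom_left` in other degrees.
* `perm_lab`: `two_bases` on the finite type of the labels with `c.d ∣ n` (`lab_fin`), `r c = rho n (c.lab n)`,
  `P c = P c (n / c.d)`; `gr_lab`, `prim_span`, `exists_lab`, `rho_congr`, `Ser.hn_prim`; for `c ≠ c'` use `parseval`, `Ser.sup`,
  `hn_ne_of_irr`, `sg_orth`.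
* `bad_orth`: strong induction on `m`.  Write `rho n j = rho n (c.lab n) = ± P (s c)` with `c` good.  If the scalar product is not
  zero then `s c = c'` and `n / c.d = m`.  For `m = 1` use `P_one`, `hn_rho`, `good_of_gr`.  For `1 < m` take `x` from `exists_x`;
  `Ser.hn_P` with `orth_ideal` and the induction hypothesis gives `hn x (P c' m) = m * hn x (e c' m)`.
* `rho_sup`: the permutation `s` maps good labels to good labels (`bad_orth`), hence bad labels to bad labels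
  (`Finset.card` or `Set.MapsTo.bijOn` for an injective map of a finite set into itself).
* `VV_sub`: `cmp_adjoin`, induction on the list with `hn_mul_ne`, `rho_sup` (`List.replicate`), `hn_mul_pos`.
* `bad_E`: expand `rho a j`; `sup_orth`, `sg_orth`.
* `E_mem`: `hom_mem_adjoin`, `prim_span`, `cmp_adjoin` show that `η` lies in the algebra generated by the `rho a j`, `a ≤ n`;
  `adjoin_union` gives `v`; `cmp n (η - v)` is orthogonal to all irreducible characters (`bad_E`, `VV_sub`, `hn_irr`).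
* `card_E`: the elements of `Es` are orthonormal and lie in the span of the products of `n` elements of the set formed by `1` and
  the `rho a j`, `0 < a ≤ n`, `j < q ^ a - 1` good (`cmp_adjoin`, `rho_mod`, `card_good`).
* `Wl_E`: `S = η + b` with a character `b` (`IsCh.sub`), `Wl_nat`, `Wl_prim`; the list has at most `n` entries.
-/

namespace PD

open Ob CF Finset

variable {K : Type} [Field K] [Finite K]

/-- The cuspidal characters. -/
noncomputable def sg (χ : Kb K →*₀ ℂ) (c : Lab (Nat.card K)) : HA K := rho χ c.d c.j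

/-- Good labels. -/
def Lab.gd {q : ℕ} (p : ℕ) (c : Lab q) : Prop := good p q c.d c.j

open scoped Classical in
/-- The irreducible characters whose cuspidal support is good. -/
noncomputable def Es (p : ℕ) (χ : Kb K →*₀ ℂ) (n : ℕ) : Finset (HA K) :=
  {η ∈ irs K n | ∃ l : List (Lab (Nat.card K)), (∀ c ∈ l, c.gd p) ∧ (l.map Lab.d).sum = n ∧
    hn n (l.map (sg χ)).prod η ≠ 0}

variable {χ : Kb K →*₀ ℂ} {n p : ℕ}

/-! ### Task PD Two -/

theorem prim_sg (c : Lab (Nat.card K)) : Prim c.d (sg χ c) := prim_rho c.pos _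

theorem Tw_lab {q : ℕ} (c : Lab q) : c.lab c.d = c.j := by rw [Lab.lab, nm_self c.pos, mul_one]

theorem Tw_neg (n : ℕ) (f g : HA K) : hn n f (-g) = -hn n f g := by
  rw [← neg_one_smul ℂ g, hn_smul_right]
  simp

theorem Tw_neg' (n : ℕ) (f g : HA K) : hn n (-f) g = -hn n f g := map_neg (hnl n g) f

theorem irr_sg (hχ : Function.Injective χ) (c : Lab (Nat.card K)) : Irr c.d (sg χ c) := by
  obtain ⟨ψ, hψ⟩ := exists_psi K
  refine ((isV_rho c.pos c.j).irr (prim_sg c).2.1 (by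
    rw [hn_rho hχ c.pos, c.prim, Nat.cast_one])).resolve_right fun h => ?_
  obtain ⟨k, hk⟩ := om_nat (ψ := ψ) c.d h.isCh
  rw [map_neg, om_rho hψ c.pos] at hk
  exact Nat.cast_add_one_ne_zero (R := ℂ) k (by rw [← hk, neg_add_cancel])

theorem sg_orth (hχ : Function.Injective χ) {l : List (Lab (Nat.card K))} {c' : Lab (Nat.card K)}
    (h : c' ∉ l) {m : ℕ} (hm : 0 < m) (n : ℕ) (y : HA K) :
    hn n (l.map (sg χ)).prod (sg χ c' ^ m * y) = 0 := by
  obtain ⟨m, rfl⟩ := Nat.exists_eq_succ_of_ne_zero hm.ne'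
  rw [pow_succ', mul_assoc]
  refine orth_ideal (S := {s | ∃ c ∈ l, sg χ c = s}) (fun _ ⟨c, _, e⟩ => ⟨_, e ▸ prim_sg c⟩)
    (prim_sg c') ?_ (Subalgebra.list_prod_mem _ fun x k => Algebra.subset_adjoin (List.mem_map.1 k))
    n _
  rintro _ ⟨c, hc, rfl⟩
  by_cases e : c.d = c'.d
  · have := gr_lab (one_lt_q K) c'.pos (c := c) (c' := c') (e ▸ dvd_rfl) dvd_rfl
    rw [if_neg fun k : c = c' => h (k ▸ hc), Tw_lab, ← e, Tw_lab, e] at this
    rw [sg, sg, e, hn_rho hχ c'.pos, this, Nat.cast_zero]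
  · exact hn_hom_left (prim_sg c).2.1 e _

theorem exists_ser (hχ : Function.Injective χ) : ∃ e P : Lab (Nat.card K) → ℕ → HA K,
    ∀ c, Ser c.d (sg χ c) (e c) (P c) := by
  obtain ⟨ψ, hψ⟩ := exists_psi K
  choose e P h using fun c => cusp hψ (irr_sg hχ c) (prim_sg c) (om_rho hψ c.pos c.j)
  exact ⟨e, P, h⟩

theorem Tw_sup {d : ℕ} {σ η : HA K} {e P : ℕ → HA K} (H : Ser d σ e P) (h : d ∣ n) (hη : Irr n η)
    (h0 : hn n (P (n / d)) η ≠ 0) : hn n (σ ^ (n / d)) η ≠ 0 := by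
  have := H.sup (n / d) η
  rw [Nat.div_mul_cancel h] at this
  exact this hη h0

theorem Tw_prim {d : ℕ} {σ : HA K} {e P : ℕ → HA K} (H : Ser d σ e P) (h : d ∣ n)
    (h0 : 0 < n / d) : Prim n (P (n / d)) ∧ Irr n (e (n / d)) ∧
      hn n (P (n / d)) (P (n / d)) = (n / d : ℕ) ∧
      ∀ x, Prim n x → hn n x (P (n / d)) = (n / d : ℕ) * hn n x (e (n / d)) := by
  have k1 := H.prim _ h0
  have k2 := H.irr (n / d)
  have k3 := H.hn_prim h0 k1
  have k4 := fun x => H.hn_prim h0 (x := x)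
  rw [H.one _ h0, mul_one] at k3
  rw [Nat.div_mul_cancel h] at k1 k2 k3 k4
  exact ⟨k1, k2, k3, k4⟩

theorem Tw_pos {q : ℕ} {c : Lab q} (hn : 0 < n) (h : c.d ∣ n) : 0 < n / c.d :=
  Nat.div_pos (Nat.le_of_dvd hn h) c.pos

theorem P_orth (hχ : Function.Injective χ) {e P : Lab (Nat.card K) → ℕ → HA K}
    (H : ∀ c, Ser c.d (sg χ c) (e c) (P c)) (hn : 0 < n) {c c' : Lab (Nat.card K)} (h : c.d ∣ n)
    (h' : c'.d ∣ n) (hc : c ≠ c') : PD.hn n (P c (n / c.d)) (P c' (n / c'.d)) = 0 := by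
  rw [parseval]
  refine sum_eq_zero fun η hη => by_contra fun k => ?_
  rw [mem_irs] at hη
  have := sg_orth hχ (l := List.replicate (n / c.d) c) (c' := c')
    (fun e => hc (List.eq_of_mem_replicate e).symm) (Tw_pos hn h') n 1
  rw [List.map_replicate, List.prod_replicate, mul_one] at this
  exact hn_ne_of_irr ((irr_sg hχ c).isCh.pow _) ((irr_sg hχ c').isCh.pow _) hη
    (Tw_sup (H c) h hη (left_ne_zero_of_mul k))
    (Tw_sup (H c') h' hη (star_ne_zero.1 (right_ne_zero_of_mul k))) this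

theorem perm_lab (hχ : Function.Injective χ) {e P : Lab (Nat.card K) → ℕ → HA K}
    (H : ∀ c, Ser c.d (sg χ c) (e c) (P c)) (hn : 0 < n) :
    ∃ s : {c : Lab (Nat.card K) // c.d ∣ n} ≃ {c : Lab (Nat.card K) // c.d ∣ n}, ∀ c,
      (s c).1.d = c.1.d ∧ (rho χ n (c.1.lab n) = P (s c).1 (n / c.1.d) ∨
        rho χ n (c.1.lab n) = -P (s c).1 (n / c.1.d)) := by
  classical
  have : Fintype {c : Lab (Nat.card K) // c.d ∣ n} := (lab_fin _ n hn).fintype
  have T := fun c : {c : Lab (Nat.card K) // c.d ∣ n} => Tw_prim (H c.1) c.2 (Tw_pos hn c.2)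
  obtain ⟨s, hs⟩ := two_bases (ι := {c : Lab (Nat.card K) // c.d ∣ n}) (n := n)
    (r := fun c => rho χ n (c.1.lab n)) (P := fun c => P c.1 (n / c.1.d)) (m := fun c => n / c.1.d)
    (fun c => Tw_pos hn c.2) (fun c => (prim_rho hn _).2.1) (fun c c' => by
      rw [hn_rho hχ hn, gr_lab (one_lt_q K) hn c.2 c'.2]
      simp [Subtype.ext_iff]) (fun c c' => by
      split_ifs with k
      · exact k ▸ (T c).2.2.1
      · exact P_orth hχ H hn c.2 c'.2 fun e => k (Subtype.ext e)) (fun c => by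
      refine Submodule.span_mono ?_ (prim_span hχ (T c).1)
      rintro _ ⟨j, rfl⟩
      obtain ⟨c', k1, k2⟩ := exists_lab (one_lt_q K) hn j
      exact ⟨⟨c', k1⟩, (rho_congr hn k2).symm⟩) fun c c' => by
      obtain ⟨k, hk⟩ := (isV_rho (χ := χ) hn (c.1.lab n)).hn (T c').2.1.isCh.isV n
      exact ⟨k, by rw [(T c').2.2.2 _ (prim_rho hn _), hk, mul_comm]⟩
  refine ⟨s, fun c => ⟨?_, ?_⟩⟩
  · rw [← Nat.div_div_self (s c).2 hn.ne', ← Nat.div_div_self c.2 hn.ne']
    exact congrArg _ (hs c).1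
  · have := (hs c).2
    simp only [(hs c).1] at this
    exact this

theorem Tw_ex (hn : 0 < n) (j : ℕ) : ∃ c : Lab (Nat.card K), c.d ∣ n ∧
    rho χ n j = rho χ n (c.lab n) ∧ (good p (Nat.card K) n j ↔ c.gd p) := by
  obtain ⟨c, k1, k2⟩ := exists_lab (one_lt_q K) hn j
  exact ⟨c, k1, rho_congr hn k2,
    (good_of_gr (one_lt_q K) hn k2).trans (good_nm (one_lt_q K) k1 hn)⟩

theorem bad_orth (hχ : Function.Injective χ) (hp : p.Prime) {e P : Lab (Nat.card K) → ℕ → HA K}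
    (H : ∀ c, Ser c.d (sg χ c) (e c) (P c)) {c' : Lab (Nat.card K)} (hc : ¬ c'.gd p) {m : ℕ}
    (hm : 0 < m) {j : ℕ} (hj : good p (Nat.card K) (m * c'.d) j) :
    hn (m * c'.d) (rho χ (m * c'.d) j) (P c' m) = 0 := by
  induction m using Nat.strong_induction_on generalizing j with | _ m ih => ?_
  by_contra ne
  rcases (Nat.succ_le_of_lt hm).eq_or_lt with rfl | h1
  · rw [(H c').P_one, Nat.succ_eq_add_one, zero_add, one_mul, sg, hn_rho hχ c'.pos,
      Nat.cast_eq_zero] at ne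
    rw [Nat.succ_eq_add_one, zero_add, one_mul] at hj
    exact hc ((good_of_gr (one_lt_q K) c'.pos ne).1 hj)
  have h0 := Nat.mul_pos hm c'.pos
  have e0 : m * c'.d / c'.d = m := Nat.mul_div_cancel _ c'.pos
  obtain ⟨c, k1, k2, k3⟩ := Tw_ex (χ := χ) (p := p) h0 j
  obtain ⟨s, hs⟩ := perm_lab hχ H h0
  obtain ⟨s1, s2⟩ := hs ⟨c, k1⟩
  have s3 : (s ⟨c, k1⟩).1 = c' := by_contra fun k => by
    have := P_orth hχ H h0 (s ⟨c, k1⟩).2 (dvd_mul_left _ _) k
    rw [e0, s1] at this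
    rcases s2 with s2 | s2
    · exact ne (by rw [k2, s2, this])
    · exact ne (by rw [k2, s2, Tw_neg', this, neg_zero])
  rw [s3] at s1 s2
  replace s1 : c.d = c'.d := s1.symm
  obtain ⟨x, x1, x2, x3⟩ := exists_x hχ hp h0 (k3.1 hj) k1 (by rwa [s1, e0])
  obtain ⟨k, hk⟩ := x1.hn ((H c').irr m).isCh.isV (m * c'.d)
  have x4 := (H c').hn_P hm (x := x) fun i i0 i1 y =>
    orth_ideal (S := gS p χ (m * c'.d)) (fun _ ⟨a, _, a0, _, _, e⟩ => ⟨a, e ▸ prim_rho a0 _⟩)
      ((H c').prim i i0) (by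
        rintro _ ⟨a, j', a0, -, a1, rfl⟩
        by_cases e : a = i * c'.d
        · subst e
          exact ih i i1 i0 a1
        · exact hn_hom_left (prim_rho a0 _).2.1 e _) x2 _ y
  simp only [s1, e0] at s2 x3
  rcases s2 with s2 | s2
  · exact x3 ⟨k, by rw [s2, x4, hk, mul_comm]⟩
  · exact x3 ⟨-k, by rw [s2, Tw_neg, x4, hk, Int.cast_neg, neg_mul, mul_comm]⟩

theorem rho_sup (hχ : Function.Injective χ) (hp : p.Prime) (hn : 0 < n) (j : ℕ) :
    ∃ c : Lab (Nat.card K), c.d ∣ n ∧ (good p (Nat.card K) n j ↔ c.gd p) ∧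
      ∀ η, Irr n η → PD.hn n (rho χ n j) η ≠ 0 → PD.hn n (sg χ c ^ (n / c.d)) η ≠ 0 := by
  obtain ⟨e, P, H⟩ := exists_ser hχ
  obtain ⟨c, k1, k2, k3⟩ := Tw_ex (χ := χ) (p := p) hn j
  obtain ⟨s, hs⟩ := perm_lab hχ H hn
  have : Finite {c : Lab (Nat.card K) // c.d ∣ n} := lab_fin _ n hn
  have m : Set.MapsTo s {c | c.1.gd p} {c | c.1.gd p} := fun c hc => by_contra fun k => by
    have a := fun j => bad_orth hχ hp H k (Tw_pos hn (s c).2) (j := j)
    have b := (Tw_prim (H _) (s c).2 (Tw_pos hn (s c).2)).2.2.1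
    rw [Nat.div_mul_cancel (s c).2] at a
    replace a := a _ ((good_nm (one_lt_q K) c.2 hn).2 hc)
    obtain ⟨s1, s2⟩ := hs c
    rw [← s1] at s2
    refine (Tw_pos hn (s c).2).ne' (Nat.cast_eq_zero (R := ℂ).1 (b ▸ ?_))
    rcases s2 with s2 | s2
    · exact s2 ▸ a
    · rwa [← Lab.lab, s2, Tw_neg', neg_eq_zero] at a
  obtain ⟨s1, s2⟩ := hs ⟨c, k1⟩
  refine ⟨_, (s ⟨c, k1⟩).2, k3.trans ⟨fun h => m (x := ⟨c, k1⟩) h, fun h => ?_⟩, fun η hη h =>
    Tw_sup (H _) (s _).2 hη fun k => h ?_⟩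
  · obtain ⟨c', h1, h2⟩ := (((Set.toFinite _).injOn_iff_bijOn_of_mapsTo m).1
      s.injective.injOn).surjOn h
    rw [s.injective h2] at h1
    exact h1
  · rw [s1] at k
    rcases s2 with s2 | s2
    · rwa [k2, s2]
    · rw [k2, s2, Tw_neg', k, neg_zero]

/-! ### Task PD MainA -/

theorem irr_E {η : HA K} (h : η ∈ Es p χ n) : Irr n η := by
  classical
  exact mem_irs.1 (mem_filter.1 h).1

theorem MaA_mem {η : HA K} : η ∈ Es p χ n ↔ Irr n η ∧ ∃ l : List (Lab (Nat.card K)),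
    (∀ c ∈ l, c.gd p) ∧ (l.map Lab.d).sum = n ∧ hn n (l.map (sg χ)).prod η ≠ 0 := by
  classical
  exact mem_filter.trans (and_congr_left' mem_irs)

theorem MaA_hom {ι : Type} {x : ι → HA K} {d : ι → ℕ} (hx : ∀ i, Hom (d i) (x i)) (l : List ι) :
    Hom (l.map d).sum (l.map x).prod := by
  induction l with
  | nil => exact hom_one
  | cons i l ih => exact (hx i).mul ih

theorem MaA_ch (hχ : Function.Injective χ) (l : List (Lab (Nat.card K))) :
    IsCh (l.map (sg χ)).prod := by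
  induction l with
  | nil => exact isCh_one
  | cons i l ih => exact (irr_sg hχ i).isCh.mul ih

theorem MaA_list (hχ : Function.Injective χ) (hp : p.Prime) {ι : Type} {d j : ι → ℕ}
    (hd : ∀ i, 0 < d i) (hj : ∀ i, good p (Nat.card K) (d i) (j i)) (l : List ι) {η : HA K}
    (hη : Irr (l.map d).sum η)
    (h : hn (l.map d).sum (l.map fun i => rho χ (d i) (j i)).prod η ≠ 0) :
    η ∈ Es p χ (l.map d).sum := by
  induction l generalizing η with
  | nil => exact MaA_mem.2 ⟨hη, [], fun _ k => absurd k List.not_mem_nil, rfl, h⟩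
  | cons i l ih =>
    obtain ⟨η₁, η₂, h1, h2, h3, h4, h5⟩ := hn_mul_ne (prim_rho (hd i) (j i)).2.1
      (MaA_hom (fun i => (prim_rho (hd i) (j i)).2.1) l) h
    obtain ⟨c, c1, c2, c3⟩ := rho_sup hχ hp (hd i) (j i)
    obtain ⟨-, l', k1, k2, k3⟩ := MaA_mem.1 (ih h2 h4)
    refine MaA_mem.2 ⟨hη, List.replicate (d i / c.d) c ++ l', fun c' hc => ?_, ?_, ?_⟩
    · rcases List.mem_append.1 hc with hc | hc
      · exact List.eq_of_mem_replicate hc ▸ c2.1 (hj i)
      · exact k1 c' hc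
    · rw [List.map_append, List.sum_append, k2, List.map_replicate, List.sum_replicate, smul_eq_mul,
        Nat.div_mul_cancel c1]
      rfl
    · rw [List.map_append, List.prod_append, List.map_replicate, List.prod_replicate]
      exact hn_mul_pos ((irr_sg hχ c).isCh.pow _) (MaA_ch hχ l') h1 h2 hη.isCh (c3 _ h1 h3) k3 h5

theorem VV_sub (hχ : Function.Injective χ) (hp : p.Prime) {N : ℕ} {f : HA K} (hf : f ∈ VV p χ N)
    {η : HA K} (hη : Irr n η) (h : hn n f η ≠ 0) : η ∈ Es p χ n := by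
  have e : gS p χ N = Set.range fun i : {x : ℕ × ℕ // 0 < x.1 ∧ x.1 ≤ N ∧
      good p (Nat.card K) x.1 x.2} => rho χ i.1.1 i.1.2 := Set.ext fun y =>
    ⟨fun ⟨a, j, h1, h2, h3, h4⟩ => ⟨⟨(a, j), h1, h2, h3⟩, h4.symm⟩,
      fun ⟨i, h4⟩ => ⟨_, _, i.2.1, i.2.2.1, i.2.2.2, h4.symm⟩⟩
  rw [VV, e] at hf
  by_contra k
  refine h ((hn_cmp_left n f η).symm.trans (LinearMap.mem_ker.1 (Submodule.span_le.2
    (?_ : _ ⊆ (LinearMap.ker (hnl n η) : Set (HA K)))
    (cmp_adjoin (fun i => (prim_rho i.2.1 _).2.1) hf n))))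
  rintro _ ⟨l, rfl, rfl⟩
  exact by_contra fun k' => k (MaA_list hχ hp (fun i => i.2.1) (fun i => i.2.2.2) l hη k')

theorem bad_E (hχ : Function.Injective χ) (hp : p.Prime) {a j : ℕ} (ha : 0 < a)
    (hj : ¬ good p (Nat.card K) a j) {η : HA K} (hη : η ∈ Es p χ n) (y : HA K) :
    hn n η (rho χ a j * y) = 0 := by
  obtain ⟨h1, l, k1, -, k3⟩ := MaA_mem.1 hη
  obtain ⟨c, c1, c2, c3⟩ := rho_sup hχ hp ha j
  rw [← (prim_rho ha j).2.1.cmp_eq, expand, sum_mul, hn_sum_right]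
  refine sum_eq_zero fun η' h' => ?_
  rw [smul_mul_assoc, hn_smul_right, mul_eq_zero, star_eq_zero, or_iff_not_imp_left]
  exact fun h2 => sup_orth (MaA_ch hχ l) ((irr_sg hχ c).isCh.pow _) h1 (mem_irs.1 h') k3
    (c3 _ (mem_irs.1 h') h2) (sg_orth hχ (fun hc => hj (c2.2 (k1 c hc)))
      (Nat.div_pos (Nat.le_of_dvd ha c1) c.pos) n) y

theorem MaA_zero (n : ℕ) (f : HA K) : hn n f 0 = 0 := by
  rw [← zero_smul ℂ (0 : HA K), hn_smul_right, star_zero, zero_mul]

theorem MaA_deg {a : ℕ} {t : HA K} (ht : Hom a t) (h : n < a) (f y : HA K) :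
    hn n f (t * y) = 0 := by
  rw [← hn_cmp_right, cmp_mul, sum_eq_zero, MaA_zero]
  intro x hx
  have := HasAntidiagonal.mem_antidiagonal.1 hx
  rw [ht.cmp_ne (by omega), zero_mul]

theorem E_mem (hχ : Function.Injective χ) (hp : p.Prime) {η : HA K} (hη : η ∈ Es p χ n) :
    η ∈ VV p χ n := by
  classical
  have h1 : η ∈ Algebra.adjoin ℂ (gS p χ n ∪
      {y | ∃ a j, 0 < a ∧ (n < a ∨ ¬ good p (Nat.card K) a j) ∧ y = rho χ a j}) := by
    refine Algebra.adjoin_le ?_ (hom_mem_adjoin (irr_E hη).1)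
    rintro y ⟨a, hy⟩
    refine (Subalgebra.mem_toSubmodule _).1 (Submodule.span_le.2 ?_ (prim_span hχ hy))
    rintro _ ⟨j, rfl⟩
    refine Algebra.subset_adjoin (or_iff_not_imp_right.2 fun k => ⟨a, j, hy.1, ?_, ?_, rfl⟩)
    · exact not_lt.1 fun k' => k ⟨a, j, hy.1, Or.inl k', rfl⟩
    · exact not_not.1 fun k' => k ⟨a, j, hy.1, Or.inr k', rfl⟩
  obtain ⟨v, hv, h2⟩ := adjoin_union h1
  have h3 : ∀ η' ∈ Es p χ n, ∀ y, hn n η' ((η - v) * y) = 0 := fun η' h' => by
    refine Submodule.span_induction (p := fun z _ => ∀ y, hn n η' (z * y) = 0) ?_ (fun y => ?_)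
      (fun z z' _ _ k k' y => ?_) (fun r z _ k y => ?_) h2
    · rintro _ ⟨a, j, ha, k | k, rfl⟩ y
      · exact MaA_deg (prim_rho ha j).2.1 k _ _
      · exact bad_E hχ hp ha k h' y
    · rw [zero_mul, MaA_zero]
    · rw [add_mul, hn_add_right, k, k', add_zero]
    · rw [smul_eq_mul, mul_comm r, mul_assoc, k]
  have h4 : cmp n (η - v) = 0 := by
    rw [expand]
    refine sum_eq_zero fun η' h' => smul_eq_zero_of_left ?_ _
    by_cases k : η' ∈ Es p χ n
    · rw [← hn_star, ← mul_one (η - v), h3 η' k, star_zero]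
    · rw [hn_sub_left, hn_irr (irr_E hη) (mem_irs.1 h'), if_neg fun e : η = η' => k (e ▸ hη),
        not_not.1 fun e => k (VV_sub hχ hp hv (mem_irs.1 h') e), sub_zero]
  rw [map_sub, (irr_E hη).1.cmp_eq, sub_eq_zero] at h4
  rw [h4]
  refine cmp_mem_adjoin ?_ hv n
  rintro _ ⟨a, j, ha, -, -, rfl⟩
  exact ⟨a, (prim_rho ha j).2.1⟩

theorem cmp_span (hχ : Function.Injective χ) (hp : p.Prime) {N : ℕ} {f : HA K}
    (hf : f ∈ VV p χ N) (n : ℕ) : cmp n f ∈ Submodule.span ℂ (Es p χ n : Set (HA K)) := by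
  rw [expand]
  refine Submodule.sum_mem _ fun η h => ?_
  by_cases k : hn n f η = 0
  · rw [k, zero_smul]
    exact Submodule.zero_mem _
  · exact Submodule.smul_mem _ _ (Submodule.subset_span (VV_sub hχ hp hf (mem_irs.1 h) k))

theorem MaA_ta (n : ℕ) (f : HA K) : cmp n (ta K p f) = ta K p (cmp n f) := cmp_pm n _ f

theorem ta_E (hχ : Function.Injective χ) (hp : p.Prime) {η : HA K} (hη : η ∈ Es p χ n) :
    ta K p η ∈ Submodule.span ℂ (Es p χ n : Set (HA K)) := by
  have h := cmp_span hχ hp (ta_mem hχ hp (E_mem hχ hp hη)) n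
  rwa [MaA_ta, (irr_E hη).1.cmp_eq] at h

theorem ta_E' (hχ : Function.Injective χ) (hp : p.Prime) {η : HA K} (hη : η ∈ Es p χ n) {N : ℕ}
    (hN : n ≤ N) : ta K p η ∈ Submodule.span ℂ
      {y | ∃ ν : Fin N → ℕ, Antitone ν ∧ ∑ t, ν t = n ∧ y = ta K p (∏ t, hh K (ν t))} := by
  obtain ⟨g, hg, e⟩ := ta_hh (E_mem hχ hp hη)
  rw [← (irr_E hη).1.cmp_eq, ← MaA_ta, e, MaA_ta]
  refine (Submodule.mem_comap (f := (ta K p).toLinearMap)).1 (Submodule.span_le.2 ?_
    (cmp_adjoin (d := id) (fun m => hom_cmp m _) hg n))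
  rintro _ ⟨l, h1, rfl⟩
  rw [List.map_id] at h1
  obtain ⟨ν, k1, k2, k3⟩ := exists_sorted l (h1.trans_le hN)
  exact Submodule.subset_span ⟨ν, k1, k2.trans h1, congrArg (ta K p) (k3 _ hh_zero)⟩

/-! ### Task PD MainB -/

theorem MaB_len {ι : Type*} {d : ι → ℕ} (hd : ∀ i, 0 < d i) (l : List ι) :
    l.length ≤ (l.map d).sum := by
  induction l with
  | nil => exact le_rfl
  | cons i l ih =>
    have := hd i
    simp only [List.length_cons, List.map_cons, List.sum_cons]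
    omega

open scoped Classical Pointwise in
theorem MaB_pow {ι : Type*} {x : ι → HA K} {T : Finset (HA K)} (hx : ∀ i, x i ∈ T) (l : List ι) :
    (l.map x).prod ∈ T ^ l.length := by
  induction l with
  | nil => simp
  | cons i l ih =>
    rw [List.map_cons, List.prod_cons, List.length_cons, pow_succ']
    exact mul_mem_mul (hx i) ih

open scoped Classical Pointwise in
theorem card_E (hχ : Function.Injective χ) (hp : p.Prime) {m : ℕ}
    (h : ∀ a, 0 < a → a ≤ n → ∀ k, p ^ k ∣ Nat.card K ^ a - 1 → p ^ k ≤ m) :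
    #(Es p χ n) ≤ (n * m + 1) ^ n := by
  have hq : 1 < Nat.card K := Finite.one_lt_card
  let T : Finset (HA K) := insert 1 ((Icc 1 n).biUnion fun a =>
    image (rho χ a) {j ∈ range (Nat.card K ^ a - 1) | good p (Nat.card K) a j})
  have hT : #T ≤ n * m + 1 := by
    refine (card_insert_le _ _).trans (Nat.succ_le_succ ?_)
    refine (card_biUnion_le_card_mul _ _ m fun a ha => card_image_le.trans ?_).trans (by simp)
    exact card_good hp hq (mem_Icc.1 ha).1 (h a (mem_Icc.1 ha).1 (mem_Icc.1 ha).2)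
  have li : LinearIndependent ℂ fun η : Es p χ n => (η : HA K) := by
    refine linearIndependent_iff'.2 fun s g e η hη => ?_
    have := congrArg (hnl n η.1) e
    rw [map_sum, map_zero, sum_eq_single_of_mem η hη fun θ _ k => by
      rw [map_smul, hnl_apply, hn_irr (irr_E θ.2) (irr_E η.2), if_neg (Subtype.coe_ne_coe.2 k),
        smul_zero], map_smul, hnl_apply, hn_irr (irr_E η.2) (irr_E η.2), if_pos rfl] at this
    simpa using this
  have sp : ∀ η ∈ Es p χ n, η ∈ Submodule.span ℂ ((T ^ n : Finset (HA K)) : Set (HA K)) := by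
    intro η hη
    have k := cmp_adjoin (ι := {y : ℕ × ℕ // 0 < y.1 ∧ y.1 ≤ n ∧ good p (Nat.card K) y.1 y.2})
      (x := fun y => rho χ y.1.1 y.1.2) (d := fun y => y.1.1)
      (fun y => (prim_rho y.2.1 _).2.1) (f := η)
      (Algebra.adjoin_mono (by
        rintro _ ⟨a, j, h1, h2, h3, rfl⟩
        exact ⟨⟨(a, j), h1, h2, h3⟩, rfl⟩) (E_mem hχ hp hη)) n
    rw [(irr_E hη).1.cmp_eq] at k
    refine Submodule.span_mono ?_ k
    rintro _ ⟨l, hl, rfl⟩
    have h1 := MaB_len (fun y : {y : ℕ × ℕ // 0 < y.1 ∧ y.1 ≤ n ∧ good p (Nat.card K) y.1 y.2} =>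
      y.2.1) l
    rw [hl] at h1
    refine mem_coe.2 (pow_subset_pow_right (mem_insert_self _ _) h1 (MaB_pow (fun y => ?_) l))
    exact mem_insert_of_mem (mem_biUnion.2 ⟨_, mem_Icc.2 ⟨y.2.1, y.2.2.1⟩,
      mem_image.2 ⟨_, mem_filter.2 ⟨mem_range.2 (Nat.mod_lt _ (NuA_pos hq y.2.1)),
        (good_congr (Nat.mod_modEq _ _)).2 y.2.2.2⟩, (rho_mod y.2.1 _).symm⟩⟩)
  have := linearIndependent_le_span_aux' _ li ((T ^ n : Finset (HA K)) : Set (HA K))
    (by rintro _ ⟨η, rfl⟩; exact sp η.1 η.2)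
  rw [Fintype.card_coe] at this
  refine this.trans (le_trans (le_of_eq ?_) (card_pow_le.trans (Nat.pow_le_pow_left hT n)))
  exact Fintype.card_ofFinset (T ^ n) fun _ => Iff.rfl

theorem Wl_E (hχ : Function.Injective χ) {ψ : AddChar K ℂ} (hψ : ψ ≠ 1) {η : HA K}
    (hη : η ∈ Es p χ n) (μ : List ℕ) : ‖Wl ψ μ η‖ ≤ (μ.length + 1) ^ n := by
  classical
  have hi := irr_E hη
  obtain ⟨l, -, hl, h0⟩ := (mem_filter.1 hη).2
  have hS : IsCh (l.map (sg χ)).prod := List.prod_induction _ (fun _ _ => IsCh.mul) isCh_one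
    fun x hx => by
      obtain ⟨c, -, rfl⟩ := List.mem_map.1 hx
      exact (irr_sg hχ c).isCh
  obtain ⟨k, hk⟩ := Wl_nat (ψ := ψ) μ hi.isCh
  obtain ⟨k', hk'⟩ := Wl_nat (ψ := ψ) μ (hS.sub hi h0)
  have b := Wl_prim hψ μ (l.map (sg χ)) fun x hx => by
    obtain ⟨c, -, rfl⟩ := List.mem_map.1 hx
    exact ⟨c.d, prim_sg c, by rw [sg, om_rho hψ c.pos, norm_one]⟩
  rw [map_sub, hk, sub_eq_iff_eq_add] at hk'
  rw [hk', ← Nat.cast_add, Complex.norm_natCast, List.length_map] at b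
  rw [hk, Complex.norm_natCast]
  calc (k : ℝ) ≤ (k' + k : ℕ) := by exact_mod_cast Nat.le_add_left _ _
    _ ≤ (μ.length + 1) ^ l.length := b.trans (by gcongr; linarith)
    _ ≤ _ := pow_le_pow_right₀ (by linarith [Nat.cast_nonneg (α := ℝ) μ.length])
      (hl ▸ MaB_len (fun c => c.pos) l)

theorem dvd_card_GL {V : Type} [AddCommGroup V] [Module K V] [FiniteDimensional K V] {a : ℕ}
    (h0 : 0 < a) (ha : a ≤ Module.finrank K V) : Nat.card K ^ a - 1 ∣ Nat.card (V ≃ₗ[K] V) := by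
  have := Fintype.ofFinite K
  rw [← Nat.card_congr ((Matrix.GeneralLinearGroup.toLin' (Module.finBasis K V)).trans
    (LinearMap.GeneralLinearGroup.generalLinearEquiv K V)).toEquiv, Matrix.card_GL_field,
    Nat.card_eq_fintype_card]
  refine Dvd.dvd.trans ?_ (dvd_prod_of_mem _ (mem_univ ⟨Module.finrank K V - a, by omega⟩))
  refine ⟨Fintype.card K ^ (Module.finrank K V - a), ?_⟩
  rw [Nat.sub_mul, one_mul, ← pow_add, Nat.add_sub_cancel' ha]

end PD
end

-- merged part: Pool.Agent.Work.MP_cea1f0_al.D.Final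
section
/-!
# The characteristic zero data for the general linear groups
-/

namespace PD

open Ob CF Finset Module Pool.Agent.Lib.SymRep Pool.Agent.Puig

variable {K : Type} [Field K] [Finite K]

theorem Final_proj {G : Type} [Group G] [Fintype G] {E : Finset (G → ℂ)} (hE : ∀ χ ∈ E, χ ∈ irr G)
    {f : G → ℂ} (hf : f ∈ Submodule.span ℂ (E : Set (G → ℂ))) : ∑ χ ∈ E, hp f χ • χ = f := by
  classical
  induction hf using Submodule.span_induction with
  | mem x hx =>
    rw [sum_eq_single_of_mem x hx fun y hy h => by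
      rw [hp_irr (hE x hx) (hE y hy), if_neg h.symm, zero_smul], hp_irr (hE x hx) (hE x hx),
      if_pos rfl, one_smul]
  | zero => simp [hp]
  | add x y _ _ h1 h2 => simp only [hp_add_left, add_smul, sum_add_distrib, h1, h2]
  | smul c x _ h1 => simp only [hp_smul_left, mul_smul, ← smul_sum, h1]

theorem Final_cop {p : ℕ} (hp : p.Prime) (h : (p : K) ≠ 0) : (Nat.card K).Coprime p := by
  have := Fintype.ofFinite K
  obtain ⟨r, hr⟩ := CharP.exists K
  obtain ⟨k, hr', hk⟩ := FiniteField.card K r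
  rw [Nat.card_eq_fintype_card, hk]
  refine Nat.Coprime.pow_left _ ((Nat.coprime_primes hr' hp).2 ?_)
  rintro rfl
  exact h (CharP.cast_eq_zero K r)

/-- The class function on the group of the linear automorphisms. -/
noncomputable def cg (V : Type) [AddCommGroup V] [Module K V] [FiniteDimensional K V] :
    HA K →ₗ[ℂ] (V ≃ₗ[K] V) → ℂ :=
  LinearMap.funLeft ℂ ℂ (LinearMap.GeneralLinearGroup.generalLinearEquiv K V).symm ∘ₗ cf V

theorem cg_apply (V : Type) [AddCommGroup V] [Module K V] [FiniteDimensional K V] (f : HA K)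
    (g : V ≃ₗ[K] V) :
    cg V f g = cf V f ((LinearMap.GeneralLinearGroup.generalLinearEquiv K V).symm g) := rfl

theorem glData (p n : ℕ) [Fact p.Prime] : GLData p n := by
  classical
  have hp : p.Prime := Fact.out
  refine ⟨(n + 1) ^ n * (2 ^ n) ^ n, fun m => (n * m + 1) ^ n * ((n + 1) ^ n * (n + 1) ^ n),
    fun O hO K V _ _ _ _ _ _ hK hV => ?_⟩
  have : FiniteDimensional K V := Module.Finite.of_finite
  have hq := Final_cop hp hK
  obtain ⟨χ, hχ⟩ := exists_chi K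
  obtain ⟨ψ, hψ⟩ := exists_psi K
  obtain ⟨E, hE⟩ : ∃ E, E = (Es p χ (finrank K V)).image (cg V) := ⟨_, rfl⟩
  have h1 : ∀ x ∈ E, ∃ η ∈ Es p χ (finrank K V), cg V η = x := fun x hx => by
    rwa [hE, mem_image] at hx
  have h2 : ∀ x ∈ E, x ∈ irr (V ≃ₗ[K] V) := fun x hx => by
    obtain ⟨η, hη, rfl⟩ := h1 x hx
    exact irr_equiv (LinearMap.GeneralLinearGroup.generalLinearEquiv K V).symm (irr_E hη).cf
  have h3 : ∀ f, tau p (cg V f) = cg V (ta K p f) := fun f => funext fun g => by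
    rw [cg_apply, cf_ta hq]
    simp only [tau, MulEquiv.orderOf_eq, cg_apply]
  have h4 : ∀ f ∈ Submodule.span ℂ (Es p χ (finrank K V) : Set (HA K)),
      cg V f ∈ Submodule.span ℂ (E : Set ((V ≃ₗ[K] V) → ℂ)) := fun f hf => by
    rw [hE, coe_image, Submodule.span_image]
    exact Submodule.mem_map_of_mem hf
  obtain ⟨e, he1, he2, he3, he4, he5⟩ := osima hp hO E h2 fun x hx => by
    obtain ⟨η, hη, rfl⟩ := h1 x hx
    rw [h3]
    exact h4 _ (ta_E hχ hp hη)
  have h5 : ∀ (κ : Ty n (finrank K V)) t, (κ.1 t : ℕ) ≤ n := fun κ t => Nat.lt_succ_iff.1 (κ.1 t).2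
  have h6 : ∀ κ : Ty n (finrank K V), Antitone fun t => (κ.1 t : ℕ) := fun κ _ _ h => κ.2.1 h
  have h7 : ∀ κ : Ty n (finrank K V), ∃ ε : (V ≃ₗ[K] V) → ℂ, (∀ g, ε g ∈ O) ∧ cv ε ε = ε ∧
      ∀ f, ∑ g, ε g * cg V f g = Wl ψ (conj (fun t => (κ.1 t : ℕ)) n) f := fun κ => by
    obtain ⟨U, _, _, ι, φ, hU, hw⟩ := real_Wl ψ hq (conj (fun t => (κ.1 t : ℕ)) n) (V := V)
      (by rw [sum_conj (h5 κ), κ.2.2])
    obtain ⟨ε, h8, h9, h10⟩ := exists_eps hp hO
      ((LinearMap.GeneralLinearGroup.generalLinearEquiv K V).toMonoidHom.comp ι) φ hU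
    refine ⟨ε, h8, h9, fun f => ?_⟩
    rw [h10, hw]
    simp [cg_apply]
  choose ε hε1 hε2 hε3 using h7
  have h8 : ∀ g, (pch (flAct n K V) Set.univ g : ℂ) = cg V (HH K ^ n) g := fun g => by
    rw [cg_apply, ← pch_univ, MulEquiv.apply_symm_apply]
  have h9 : ∀ (μ : Ty n (finrank K V)) g,
      (pch (flAct n K V) (flS n K V μ) g : ℂ) = cg V (∏ t, hh K (μ.1 t)) g := fun μ g => by
    rw [cg_apply, ← pch_flS, MulEquiv.apply_symm_apply]
  have h10 : ∀ κ μ : Ty n (finrank K V), pev (flAct n K V) (flS n K V μ) (ε κ) =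
      cnt (conj (fun t => (κ.1 t : ℕ)) n) fun t => (μ.1 t : ℕ) := fun κ μ => by
    simp only [pev, h9, hε3, Wl_hh hψ]
  have h11 : ∀ f : HA K, Cl (cg V f) := fun f g h => by
    simp only [cg_apply, map_mul, map_inv]
    exact cf_cl f _ _
  refine ⟨e, ε, ⟨he1, he2, he3, hε1, hε2, fun _ _ _ => trivial, fun μ g F hF t => ?_,
    fun _ => Set.subset_univ _, ?_, fun μ => ?_, fun κ μ h => ?_, ?_, fun μ => ?_, ?_⟩,
    fun m hm μ ν => ?_⟩
  · rw [flAct_apply, flAct_apply, LinearEquiv.finrank_map_eq, LinearEquiv.finrank_map_eq]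
    exact hF t
  · have e1 : ∀ f : HA K, cg V (cmp (finrank K V) f) = cg V f := fun f => by
      funext g
      simp only [cg_apply, cf_cmp, if_true]
    have e2 := congrFun (Final_proj h2 (h4 _ (cmp_span hχ hp
      (cmp_hh_mem (cmp_HH_pow n (finrank K V)) (finrank K V)) (finrank K V)))) 1
    have e3 := he4 _ (h11 (HH K ^ n)) 1
    rw [e1, e1, e1, Finset.sum_apply] at e2
    simp only [mul_one] at e3
    simp only [pev, h8]
    rw [e3]
    refine e2.trans ?_
    rw [← h8]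
    simp [pch]
  · rw [h10, cnt_self (h5 μ), Nat.cast_one]
  · rw [h10, Nat.cast_ne_zero] at h
    refine (cnt_tri (h5 κ) (h6 κ) (h6 μ) h).imp (fun h' => Subtype.ext (funext fun t => ?_)) id
    exact Fin.ext (congrFun h' t)
  · have e1 : Fintype.card (Ty n (finrank K V)) ≤ (n + 1) ^ n := by
      simpa using Fintype.card_le_of_injective (fun κ : Ty n (finrank K V) => κ.1)
        Subtype.val_injective
    refine (sum_le_card_nsmul _ _ ((2 ^ n : ℝ) ^ n) fun κ _ => ?_).trans ?_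
    · simp only [pev, h8, hε3]
      simpa only [length_conj] using Wl_HH hψ (conj (fun t => (κ.1 t : ℕ)) n) n
    · rw [card_univ, nsmul_eq_mul]
      push_cast
      gcongr
      exact_mod_cast e1
  · refine (sum_le_card_nsmul _ _ (n ^ 2) fun t _ => Nat.pow_le_pow_left (h5 μ t) 2).trans ?_
    rw [card_univ, Fintype.card_fin, smul_eq_mul, ← pow_succ']
  · refine ⟨fun μ => cg V (ta K p (∏ t, hh K (μ.1 t))), fun f hf => ?_⟩
    have e1 : trn p e f = ∑ x ∈ E, PD.hp f x • tau p x := by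
      funext g
      simp only [trn, he4 f hf, Finset.sum_apply, Pi.smul_apply, tau, smul_eq_mul]
      split_ifs <;> simp
    rw [e1]
    refine Submodule.sum_mem _ fun x hx => Submodule.smul_mem _ _ ?_
    obtain ⟨η, hη, rfl⟩ := h1 x hx
    rw [h3]
    refine Submodule.mem_comap.1 (Submodule.span_le.2 ?_ (ta_E' hχ hp hη hV))
    rintro _ ⟨ν, h12, h13, rfl⟩
    have h14 : ∀ t, ν t < n + 1 := fun t => Nat.lt_succ_of_le
      ((single_le_sum (fun _ _ => Nat.zero_le _) (mem_univ t)).trans (h13.le.trans hV))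
    exact Submodule.subset_span ⟨⟨fun t => ⟨ν t, h14 t⟩, fun _ _ h => h12 h, h13⟩, rfl⟩
  · have e1 : #E ≤ (n * m + 1) ^ n := by
      rw [hE]
      refine card_image_le.trans ((card_E hχ hp fun a h0 ha k hk =>
        hm k (hk.trans (dvd_card_GL h0 ha))).trans ?_)
      calc (finrank K V * m + 1) ^ finrank K V ≤ (n * m + 1) ^ finrank K V := by gcongr
        _ ≤ (n * m + 1) ^ n := Nat.pow_le_pow_right (by omega) hV
    have e2 : ((n : ℝ) + 1) ^ finrank K V ≤ (n + 1) ^ n := pow_le_pow_right₀ (by simp) hV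
    have e3 : ∀ κ, ∀ x ∈ E, ‖∑ g, ε κ g * x g‖ ≤ ((n : ℝ) + 1) ^ n := fun κ x hx => by
      obtain ⟨η, hη, rfl⟩ := h1 x hx
      rw [hε3]
      refine le_trans ?_ e2
      simpa only [length_conj] using Wl_E hχ hψ hη (conj (fun t => (κ.1 t : ℕ)) n)
    rw [he5]
    refine (norm_sum_le _ _).trans ((sum_le_card_nsmul _ _ (((n : ℝ) + 1) ^ n * (n + 1) ^ n)
      fun x hx => ?_).trans ?_)
    · rw [norm_mul]
      exact mul_le_mul (e3 ν x hx) (e3 μ x hx) (norm_nonneg _) (by positivity)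
    · rw [nsmul_eq_mul]
      push_cast
      gcongr
      exact_mod_cast e1

end PD
end

-- merged part: Pool.Agent.Work.MP_cea1f0_al.U.Bm
section
/-!
# Values on a section  (task PU Bm)

* `zA_mul`: as `regA_mul`.
* `tz_rho`: as `ta_rho`.  Put `M = m * C (leadingCoeff m)⁻¹`, `c = PS χ j (M ^ (n / M.natDegree)) / n`.  If `α ∈ TT K n` and `zA (uu n α) ≠ 0` then
  `α = ζ * β` (`aroots_uu`), `ζ` and `β` are powers of `α` (Chinese remainder theorem for `p ^ r` and the exponent of `β`), so they lie in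
  `TT K n`; `PS_uu`, `good_reg` give `PS χ j (uu n α) = PS χ j (uu n ζ)`, and `minpoly K ζ = M` (`minpoly.eq_of_irreducible`).
* `tz_E`: as `ta_hh` and `ta_E'`.
* `zA_of`: as in `RhB_reg` take an eigenvector `v` of the base change of `x * y` for `α`.  There are `s`, `t` with `(x * y) ^ s = x` and
  `(x * y) ^ t = y`; `ζ = α ^ s`, `β = α ^ t`; `Module.End.aeval_apply_of_hasEigenvector`.
-/

namespace PD

open Ob CF Polynomial Finset

variable {K : Type} [Field K]

open scoped Classical in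
/-- The indicator function of the polynomials all of whose roots are a root of `m` of `p`-power order
times a `p`-regular element. -/
noncomputable def zA (p r : ℕ) (m u : K[X]) : ℂ :=
  if ∀ α ∈ u.aroots (Kb K), ∃ ζ β : Kb K, α = ζ * β ∧ aeval ζ m = 0 ∧ ζ ^ p ^ r = 1 ∧ Reg p β
    then 1 else 0

/-! ### Task PU Bm -/

theorem zA_mul (p r : ℕ) (m u v : K[X]) (hu : u.Monic) (hv : v.Monic) :
    zA p r m (u * v) = zA p r m u * zA p r m v := by
  classical
  simp only [zA, aroots_mul (hu.mul hv).ne_zero, Multiset.mem_add, or_imp, forall_and,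
    ite_zero_mul_ite_zero, mul_one]

theorem zA_one (p r : ℕ) (m : K[X]) : zA p r m 1 = 1 := by
  simp [zA]

variable [Finite K]

/-- The truncation to the section. -/
noncomputable def tz (p r : ℕ) (m : K[X]) : HA K →ₐ[ℂ] HA K :=
  pmA (cpf (zA p r m)) (isMul_cpf (zA_mul p r m)) (by
    change zA p r m (zero K).cp = 1
    rw [(cp_monic _).natDegree_eq_zero.1 ((cp_natDegree _).trans dim_zero), zA_one])

theorem tz_apply (p r : ℕ) (m : K[X]) (f : HA K) : tz p r m f = mf (zA p r m) f := rfl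

variable {χ : Kb K →*₀ ℂ} {n p r : ℕ} {m : K[X]}

theorem tz_rho (hp : p.Prime) (hm : Irreducible m) (hn : 0 < n) {j : ℕ}
    (hj : good p (Nat.card K) n j) : ∃ c : ℂ, tz p r m (rho χ n j) = c • tz p r m (rho χ n 0) := by
  classical
  refine ⟨PS χ j ((m * C m.leadingCoeff⁻¹) ^ (n / (m * C m.leadingCoeff⁻¹).natDegree)) / n, ?_⟩
  simp only [rho, map_smul, tz_apply, mf_mf]
  refine Eq.trans (congrArg _ ?_) (smul_comm _ _ _)
  rw [← mf_smul]
  refine mf_pi_congr hn fun α h => ?_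
  simp only [Pi.mul_apply, Pi.smul_apply, smul_eq_mul, zA]
  split_ifs with k
  · obtain ⟨ζ, β, e, h1, h2, h3⟩ := k α (by
      rw [aroots_uu hn h]
      exact Multiset.mem_map.2 ⟨0, mem_range.2 hn, by simp⟩)
    have h4 := (mem_TT (K := K) hn).1 h
    have h5 : β ^ (Nat.card K ^ n - 1) = 1 := EiA_reg (k := r) h3 (by
      have := congrArg (· ^ p ^ r) h4
      simp only [e, mul_pow, one_pow] at this
      rwa [pow_right_comm, h2, one_pow, one_mul, ← pow_mul] at this)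
    have h6 : ζ ∈ TT K n := (mem_TT hn).2 (by rwa [e, mul_pow, h5, mul_one] at h4)
    rw [minpoly.eq_of_irreducible hm h1]
    change _ = PS χ j (uu n ζ) / n * _
    rw [PS_uu hn h, PS_uu hn h, PS_uu hn h6, e]
    simp only [map_mul, mul_pow, good_reg hn (hj.mul _) ((mem_TT hn).2 h5) h3, zero_mul, pow_zero,
      mul_one, one_mul, sum_const, card_range, nsmul_eq_mul]
    rw [div_mul_cancel₀ _ (Nat.cast_ne_zero.2 hn.ne')]
  · simp only [zero_mul, mul_zero]

theorem UBm_hh (hp : p.Prime) (hm : Irreducible m) {N : ℕ} {f : HA K} (hf : f ∈ VV p χ N) :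
    ∃ g ∈ Algebra.adjoin ℂ (Set.range (hh K)), tz p r m f = tz p r m g := by
  have h : VV p χ N ≤
      ((Algebra.adjoin ℂ (Set.range (hh K))).map (tz p r m)).comap (tz p r m) := by
    refine Algebra.adjoin_le ?_
    rintro _ ⟨n, j, h0, -, h2, rfl⟩
    obtain ⟨c, hc⟩ := tz_rho (χ := χ) (r := r) hp hm h0 h2
    refine ⟨c • rho χ n 0, ?_, (map_smul (tz p r m) c _).trans hc.symm⟩
    rw [rho_zero h0]
    exact Subalgebra.smul_mem _ (Subalgebra.smul_mem _ (pi_mem n) _) _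
  obtain ⟨g, h1, h2⟩ := h hf
  exact ⟨g, h1, h2.symm⟩

theorem UBm_cmp (n : ℕ) (f : HA K) : cmp n (tz p r m f) = tz p r m (cmp n f) := cmp_pm n _ f

theorem tz_E (hχ : Function.Injective χ) (hp : p.Prime) (hm : Irreducible m) {η : HA K}
    (hη : η ∈ Es p χ n) {N : ℕ} (hN : n ≤ N) : tz p r m η ∈ Submodule.span ℂ
      {y | ∃ ν : Fin N → ℕ, Antitone ν ∧ ∑ t, ν t = n ∧ y = tz p r m (∏ t, hh K (ν t))} := by
  obtain ⟨g, hg, e⟩ := UBm_hh (r := r) hp hm (E_mem hχ hp hη)
  rw [← (irr_E hη).1.cmp_eq, ← UBm_cmp, e, UBm_cmp]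
  refine (Submodule.mem_comap (f := (tz p r m).toLinearMap)).1 (Submodule.span_le.2 ?_
    (cmp_adjoin (d := id) (fun m => hom_cmp m _) hg n))
  rintro _ ⟨l, h1, rfl⟩
  rw [List.map_id] at h1
  obtain ⟨ν, k1, k2, k3⟩ := exists_sorted l (h1.trans_le hN)
  exact Submodule.subset_span ⟨ν, k1, k2.trans h1, congrArg (tz p r m) (k3 _ hh_zero)⟩

omit [Finite K] in
theorem UBm_root {V : Type} [AddCommGroup V] [Module K V] [FiniteDimensional K V]
    {g : Module.End K V} {α : Kb K} (k : α ∈ g.charpoly.aroots (Kb K)) {u : K[X]}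
    (hu : aeval g u = 0) : aeval α u = 0 := by
  have h1 : Module.End.HasEigenvalue (g.baseChange (Kb K)) α := by
    rw [Module.End.hasEigenvalue_iff_isRoot_charpoly, LinearMap.charpoly_baseChange]
    exact isRoot_of_mem_roots k
  obtain ⟨v, hv⟩ := h1.exists_hasEigenvector
  have h2 := Module.End.aeval_apply_of_hasEigenvector (p := u.map (algebraMap K (Kb K))) hv
  have h3 := aeval_algHom_apply (Module.End.baseChangeHom K (Kb K) V) g u
  rw [hu, map_zero] at h3
  rw [aeval_map_algebraMap, eval_map_algebraMap] at h2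
  exact (smul_eq_zero.1 (h2.symm.trans (congrArg (fun f => f v) h3))).resolve_right hv.2

omit [Finite K] in
theorem zA_of (hp : p.Prime) {V : Type} [AddCommGroup V] [Module K V] [FiniteDimensional K V]
    {x y : (Module.End K V)ˣ} (h1 : aeval x.1 m = 0) (h2 : x ^ p ^ r = 1) (h3 : Commute x y)
    (h4 : (orderOf y).Coprime p) : zA p r m (of (x * y)).cp = 1 := by
  have h5 := h4.pow_right r
  obtain ⟨s, s1, s2⟩ := Nat.chineseRemainder h5 0 1
  obtain ⟨t, t1, t2⟩ := Nat.chineseRemainder h5 1 0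
  have h6 : ∀ {a b : ℕ}, a ≡ b [MOD p ^ r] → x ^ a = x ^ b := fun h =>
    pow_eq_pow_iff_modEq.2 (h.of_dvd (orderOf_dvd_of_pow_eq_one h2))
  have e1 : (x * y) ^ s = x := by
    rw [h3.mul_pow, h6 s2, pow_eq_pow_iff_modEq.2 s1, pow_one, pow_zero, mul_one]
  have e2 : (x * y) ^ t = y := by
    rw [h3.mul_pow, h6 t2, pow_eq_pow_iff_modEq.2 t1, pow_one, pow_zero, one_mul]
  refine if_pos fun α k => ?_
  have key : ∀ a b : ℕ, (x * y) ^ a = (x * y) ^ b → α ^ a = α ^ b := fun a b h => by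
    have := UBm_root (g := (x * y).1) k (u := X ^ a - X ^ b) (by
      rw [map_sub, map_pow, map_pow, aeval_X, ← Units.val_pow_eq_pow_val, h,
        Units.val_pow_eq_pow_val, sub_self])
    rwa [map_sub, map_pow, map_pow, aeval_X, sub_eq_zero] at this
  refine ⟨α ^ s, α ^ t, ?_, ?_, ?_, orderOf y, h4, ?_⟩
  · rw [← pow_add, key (s + t) 1 (by rw [pow_add, e1, e2, pow_one]), pow_one]
  · have := UBm_root (g := (x * y).1) k (u := m.comp (X ^ s)) (by
      rw [aeval_comp, map_pow, aeval_X, ← Units.val_pow_eq_pow_val, e1, h1])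
    rwa [aeval_comp, map_pow, aeval_X] at this
  · rw [← pow_mul, key _ 0 (by rw [pow_mul, e1, h2, pow_zero]), pow_zero]
  · rw [← pow_mul, key _ 0 (by rw [pow_mul, e2, pow_orderOf_eq_one, pow_zero]), pow_zero]

end PD
end

-- merged part: Pool.Agent.Work.MP_cea1f0_al.U.Ser
section
/-!
# The operators adjoint to the multiplication by the members of a series  (tasks PU SerA, PU SerB)

* `Ser.del_e`: strong induction.  Apply `del` to `newton`, use `Prim.pr` for the `P j`, the induction hypothesis for the `e i` and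
  `newton` again: `m • del (e m) = ∑ x ∈ ad m, (x.1 + x.2) • (i1 (e x.1) * i2 (e x.2))`.  A way without index manipulations: in power
  series over the ring `CF K (HA K)` (commutative by `CF` over a commutative ring? use `i1_comm_i2`), or glue the `e m` to `E`
  and the `P m` to `y` with `E * y = d⁻¹ • pm dimf E` and compare components.
* `Ser.Dw_e`: `dr M (e m) = ∑ x ∈ ad m, (e x.2).1 M • e x.1` (`del_val`, `i1_mul_i2`), as in `Gl.Dw_cmp`.
* `Ser.adj`: if `z` is homogeneous of degree `b` this is `hn_mul`; in general `hn_cmp_right`, `cmp_mul`, `Hom.cmp_ne`.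
* `Ser.hn_mul_e`: `hn_cmp_left`, `cmp_mul`, `hn_star`, `hn_mul`, `Ser.Dw_e`, `hn_hom_right`.
* `Ser.Ek_prod`: induction on a finset `s` of indices for the product over `s` (`Finset.finsuppAntidiag_insert`), or the ring
  homomorphism `f ↦ PowerSeries.mk fun k => Ek d e k f` and `PowerSeries.coeff_prod`.
* `Ser.exists_fr`: take `m` maximal (`Nat.findGreatest`, `m ≤ n`) such that `hn n (σ ^ m * x) χ ≠ 0` for an irreducible `x`.  If
  `Ek d e k x ≠ 0` then `hn b x (e k * z) ≠ 0` for an irreducible `z` of degree `b - k * d` (`ext_cmp`, `expand`, `Ser.adj`; `MaA_deg`);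
  `hn_mul_ne`, `hn_mul_pos` give `hn n (σ ^ m * (σ ^ k * z)) χ ≠ 0`.
* `fr_sg`: `Pr.Dw`, `hn_hom_left`, `hn_irr`, `sg_orth` for the list `[c']`.
-/

namespace PD

open Ob CF Finset

variable {K : Type} [Field K] [Finite K] {d : ℕ} {σ : HA K} {e P : ℕ → HA K}

/-- The adjoint of the multiplication by `e k`. -/
noncomputable def Ek (d : ℕ) (e : ℕ → HA K) (k : ℕ) : HA K →ₗ[ℂ] HA K := Dw (hnl (k * d) (e k))

/-- Elements that are orthogonal to the ideal generated by the series. -/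
def Fr (d : ℕ) (e : ℕ → HA K) (y : HA K) : Prop := ∀ k, 0 < k → Ek d e k y = 0

/-! ### Task PU SerA -/

theorem Ser.pos (H : Ser d σ e P) : 0 < d := by
  have h := (H.prim 1 one_pos).1
  omega

theorem Ser.e_one (H : Ser d σ e P) : e 1 = σ := by
  have h := H.newton 1
  rw [Finset.Nat.sum_antidiagonal_succ] at h
  simpa [H.e_zero, H.P_zero, H.P_one] using h

theorem USerA_newton {R : Type*} [Ring R] [Algebra ℂ R] {a b p q : ℕ → R}
    (ha : ∀ m : ℕ, (m : ℂ) • a m = ∑ x ∈ ad m, a x.1 * p x.2)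
    (hb : ∀ m : ℕ, (m : ℂ) • b m = ∑ x ∈ ad m, b x.1 * q x.2)
    (hc : ∀ i j, p i * b j = b j * p i) (m : ℕ) :
    (m : ℂ) • ∑ x ∈ ad m, a x.1 * b x.2 =
      ∑ y ∈ ad m, (∑ x ∈ ad y.1, a x.1 * b x.2) * (p y.2 + q y.2) := by
  have h1 : PowerSeries.mk p * PowerSeries.mk b = PowerSeries.mk b * PowerSeries.mk p := by
    ext n
    rw [PowerSeries.coeff_mul, PowerSeries.coeff_mul, ← Finset.Nat.sum_antidiagonal_swap]
    simp [hc]
  have h2 : PowerSeries.mk (fun m : ℕ => (m : ℂ) • a m) = PowerSeries.mk a * PowerSeries.mk p := by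
    ext n
    simp [PowerSeries.coeff_mul, ha]
  have h3 : PowerSeries.mk (fun m : ℕ => (m : ℂ) • b m) = PowerSeries.mk b * PowerSeries.mk q := by
    ext n
    simp [PowerSeries.coeff_mul, hb]
  have h4 : PowerSeries.mk (fun m : ℕ => (m : ℂ) • a m) * PowerSeries.mk b +
      PowerSeries.mk a * PowerSeries.mk (fun m : ℕ => (m : ℂ) • b m) =
      PowerSeries.mk a * PowerSeries.mk b * (PowerSeries.mk p + PowerSeries.mk q) := by
    rw [h2, h3, mul_assoc, h1, mul_add, mul_assoc, mul_assoc]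
  have h5 := congrArg (PowerSeries.coeff m) h4
  simp only [map_add, PowerSeries.coeff_mul, PowerSeries.coeff_mk] at h5
  rw [← h5, ← Finset.sum_add_distrib, Finset.smul_sum]
  refine Finset.sum_congr rfl fun x hx => ?_
  rw [← CuB_ad.1 hx, smul_mul_assoc, mul_smul_comm, ← add_smul, Nat.cast_add]

theorem Ser.del_e (H : Ser d σ e P) (m : ℕ) :
    del (e m) = ∑ x ∈ ad m, i1 (e x.1) * i2 (e x.2) := by
  have hP : ∀ j, del (P j) = i1 (P j) + i2 (P j) := by
    intro j
    rcases Nat.eq_zero_or_pos j with rfl | hj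
    · simp [H.P_zero]
    · exact (H.prim j hj).pr
  induction m using Nat.strong_induction_on with
  | _ m ih =>
    rcases Nat.eq_zero_or_pos m with rfl | hm
    · simp [H.e_zero]
    have hm' : (m : ℂ) ≠ 0 := by exact_mod_cast hm.ne'
    refine smul_right_injective _ hm' ?_
    beta_reduce
    rw [USerA_newton (a := fun i => i1 (e i)) (b := fun i => i2 (e i)) (p := fun i => i1 (P i))
      (q := fun i => i2 (P i)) (fun n => by simp only [← map_smul, H.newton n, map_sum, map_mul])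
      (fun n => by simp only [← map_smul, H.newton n, map_sum, map_mul])
      (fun i j => i1_comm_i2 _ _), ← map_smul, H.newton m, map_sum]
    refine Finset.sum_congr rfl fun x hx => ?_
    rw [map_mul, hP]
    rcases Nat.eq_zero_or_pos x.2 with h0 | h0
    · simp [h0, H.P_zero]
    · rw [ih x.1 (by have := CuB_ad.1 hx; omega)]

theorem Ser.Dw_e (H : Ser d σ e P) (w : HA K →ₗ[ℂ] ℂ) (m : ℕ) :
    Dw w (e m) = ∑ x ∈ ad m, w (e x.1) • e x.2 := by
  refine CF.ext fun M => ?_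
  have k : dr M (e m) = ∑ x ∈ ad m, (e x.2).1 M • e x.1 := CF.ext fun M₁ => by
    rw [dr_val, ← del_val, H.del_e, CF.sum_val, CF.sum_val, CF.sum_val]
    simp only [i1_mul_i2, smul_val, smul_eq_mul, mul_comm]
  rw [Dw_val, k, map_sum, CF.sum_val]
  simp only [map_smul, smul_val, smul_eq_mul, mul_comm]

theorem USerA_cmp {a : ℕ} {x : HA K} (hx : Hom a x) (b : ℕ) (z : HA K) :
    cmp (a + b) (x * z) = x * cmp b z := by
  rw [cmp_mul, Finset.sum_eq_single_of_mem (a, b) (CuB_ad.2 rfl), hx.cmp_eq]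
  intro y hy hne
  rw [hx.cmp_ne, zero_mul]
  intro h
  have := CuB_ad.1 hy
  exact hne (Prod.ext h (by simp only; omega))

theorem Ser.adj (H : Ser d σ e P) (k b : ℕ) (f z : HA K) :
    hn (k * d + b) f (e k * z) = hn b (Ek d e k f) z := by
  rw [← hn_cmp_right, USerA_cmp (H.irr k).1, hn_mul (H.irr k).1 (hom_cmp b z), hn_cmp_right]
  rfl

theorem Ser.hn_mul_e (H : Ser d σ e P) (m : ℕ) (y z : HA K) : hn (m * d) (y * z) (e m) =
    ∑ x ∈ ad m, hn (x.1 * d) y (e x.1) * hn (x.2 * d) z (e x.2) := by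
  have h1 : ∀ i j, hn (i + j) (cmp i y * cmp j z) (e m) =
      ∑ x ∈ ad m, hn i y (e x.1) * hn j z (e x.2) := by
    intro i j
    rw [← hn_star, hn_mul (hom_cmp i y) (hom_cmp j z), H.Dw_e, hn_sum_left, star_sum]
    refine Finset.sum_congr rfl fun x _ => ?_
    rw [hn_smul_left, hnl_apply, star_mul', hn_star, hn_star, hn_cmp_left, hn_cmp_left]
  rw [← hn_cmp_left, cmp_mul, hn_sum_left,
    Finset.sum_congr rfl fun x hx => by rw [← CuB_ad.1 hx, h1], Finset.sum_comm]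
  refine Finset.sum_congr rfl fun x hx => ?_
  rw [Finset.sum_eq_single_of_mem (x.1 * d, x.2 * d)
    (CuB_ad.2 (by rw [← CuB_ad.1 hx, add_mul]))]
  intro u _ hne
  by_cases h2 : x.1 * d = u.1
  · rw [hn_hom_right (H.irr x.2).1 fun h3 => hne (Prod.ext h2.symm h3.symm), mul_zero]
  · rw [hn_hom_right (H.irr x.1).1 h2, zero_mul]

theorem Ser.Ek_mul (H : Ser d σ e P) (k : ℕ) (f g : HA K) :
    Ek d e k (f * g) = ∑ x ∈ ad k, Ek d e x.1 f * Ek d e x.2 g := by
  exact Dw_mul (ad k) (w₁ := fun x => hnl (x.1 * d) (e x.1)) (w₂ := fun x => hnl (x.2 * d) (e x.2))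
    (H.hn_mul_e k) f g

theorem Ser.Ek_zero (H : Ser d σ e P) (f : HA K) : Ek d e 0 f = f := by
  have h : hnl (0 * d) (e 0) = epsl K := by
    refine LinearMap.ext fun g => ?_
    have h1 : eps (1 : HA K) = 1 := by rw [eps, one_val, if_pos dim_zero]
    rw [hnl_apply, zero_mul, hn_zero, H.e_zero, h1, star_one, mul_one]
    rfl
  rw [Ek, h, Dw_eps]

theorem Ser.Ek_e (H : Ser d σ e P) (k a : ℕ) :
    Ek d e k (e a) = if k ≤ a then e (a - k) else 0 := by
  have h1 : ∀ i, i ≠ k → hnl (k * d) (e k) (e i) = 0 := fun i hi =>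
    hn_hom_left (H.irr i).1 (fun h => hi (Nat.eq_of_mul_eq_mul_right H.pos h)) _
  rw [Ek, H.Dw_e]
  split_ifs with h
  · rw [Finset.sum_eq_single_of_mem (k, a - k) (CuB_ad.2 (by simp only; omega)), hnl_apply,
      CuB_self (H.irr k), one_smul]
    intro x hx hne
    have := CuB_ad.1 hx
    rw [h1 _ fun h2 => hne (Prod.ext h2 (by simp only; omega)), zero_smul]
  · refine Finset.sum_eq_zero fun x hx => ?_
    have := CuB_ad.1 hx
    rw [h1 _ (by omega), zero_smul]

/-! ### Task PU SerB -/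

theorem Ser.fr_one (H : Ser d σ e P) : Fr d e 1 := by
  intro k hk
  rw [← H.e_zero, H.Ek_e, if_neg (by omega)]

theorem Ser.fr_mul (H : Ser d σ e P) {x y : HA K} (hx : Fr d e x) (hy : Fr d e y) :
    Fr d e (x * y) := by
  intro k hk
  rw [H.Ek_mul]
  refine sum_eq_zero fun z hz => ?_
  have := CuB_ad.1 hz
  rcases Nat.eq_zero_or_pos z.1 with c | c
  · rw [hy z.2 (by omega), mul_zero]
  · rw [hx z.1 c, zero_mul]

theorem USerB_C (H : Ser d σ e P) {x : HA K} (hx : Fr d e x) :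
    (PowerSeries.mk fun k => Ek d e k x) = PowerSeries.C x := by
  ext1 k
  rw [PowerSeries.coeff_mk, PowerSeries.coeff_C]
  split_ifs with c
  · rw [c, H.Ek_zero]
  · exact hx k (Nat.pos_of_ne_zero c)

/-- The generating series of the adjoint operators. -/
noncomputable def USerB_hom (H : Ser d σ e P) : HA K →* PowerSeries (HA K) where
  toFun f := PowerSeries.mk fun k => Ek d e k f
  map_one' := (USerB_C H H.fr_one).trans (map_one _)
  map_mul' f g := PowerSeries.ext fun k => by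
    simp only [PowerSeries.coeff_mul, PowerSeries.coeff_mk, H.Ek_mul]



theorem Ser.Ek_prod (H : Ser d σ e P) {N : ℕ} (α : Fin N → ℕ) {x : HA K} (hx : Fr d e x) (k : ℕ) :
    Ek d e k ((∏ t, e (α t)) * x) = ∑ A ∈ finsuppAntidiag univ k,
      if ∀ t, A t ≤ α t then (∏ t, e (α t - A t)) * x else 0 := by
  have h1 : ∀ k f, PowerSeries.coeff k (USerB_hom H f) = Ek d e k f := fun k f =>
    PowerSeries.coeff_mk k fun k => Ek d e k f
  have h2 : USerB_hom H x = PowerSeries.C x := USerB_C H hx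
  rw [← h1, map_mul, map_prod, h2, PowerSeries.coeff_mul_C, PowerSeries.coeff_prod, sum_mul]
  refine sum_congr rfl fun A _ => ?_
  simp only [h1, H.Ek_e, Fintype.prod_ite_zero, ite_mul, zero_mul]

theorem Ser.e_sub (H : Ser d σ e P) (k : ℕ) : hn (k * d) (σ ^ k) (e k) ≠ 0 := by
  rcases Nat.eq_zero_or_pos k with rfl | hk
  · rw [pow_zero, ← H.e_zero, CuB_self (H.irr 0)]
    exact one_ne_zero
  · exact H.sup k _ (H.irr k) (by rw [H.one k hk]; exact one_ne_zero)

theorem USerB_symm {n : ℕ} {f g : HA K} (h : hn n f g ≠ 0) : hn n g f ≠ 0 := by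
  rwa [← hn_star, star_ne_zero]



theorem Ser.exists_fr (H : Ser d σ e P) {n : ℕ} {η : HA K} (hη : Irr n η) : ∃ m b x,
    n = m * d + b ∧ Irr b x ∧ Fr d e x ∧ hn n (σ ^ m * x) η ≠ 0 := by
  have hσ : Irr d σ := by simpa only [one_mul, H.e_one] using H.irr 1
  have hc := hσ.isCh.pow
  suffices h : ∀ b m x, n = m * d + b → Irr b x → hn n (σ ^ m * x) η ≠ 0 → ∃ m b x,
      n = m * d + b ∧ Irr b x ∧ Fr d e x ∧ hn n (σ ^ m * x) η ≠ 0 from
    h n 0 η (by omega) hη (by rw [pow_zero, one_mul, CuB_self hη]; exact one_ne_zero)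
  intro b
  induction b using Nat.strong_induction_on with
  | _ b ih =>
    intro m x h1 h2 h3
    by_cases c : Fr d e x
    · exact ⟨m, b, x, h1, h2, c, h3⟩
    obtain ⟨k, hk, a, z, hz, h4⟩ : ∃ k, 0 < k ∧ ∃ a z, Irr a z ∧ hn a (Ek d e k x) z ≠ 0 := by
      by_contra c'
      push Not at c'
      refine c fun k hk => ext_cmp fun a => ?_
      rw [expand, map_zero]
      exact sum_eq_zero fun z hz => by rw [c' k hk a z (mem_irs.1 hz), zero_smul]
    rw [← H.adj] at h4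
    obtain rfl : b = k * d + a := by_contra fun c' => h4 (hn_hom_left h2.1 c' _)
    have h5 := hn_mul_pos (hc k) hz.isCh (H.irr k) hz h2.isCh (H.e_sub k)
      (by rw [CuB_self hz]; exact one_ne_zero) (USerB_symm h4)
    subst h1
    obtain ⟨y, x', y1, y2, y3, y4, y5⟩ := hn_mul_ne (hσ.1.pow m) h2.1 h3
    obtain rfl : x = x' := by_contra fun c' => y4 (CuB_ne h2 y2 c')
    refine ih a (lt_add_of_pos_left _ (Nat.mul_pos hk H.pos)) (m + k) z (by ring) hz ?_
    rw [pow_add, mul_assoc]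
    exact hn_mul_pos (hc m) ((hc k).mul hz.isCh) y1 y2 hη.isCh y3 h5 y5

theorem fr_sg {χ : Kb K →*₀ ℂ} (hχ : Function.Injective χ) {c c' : Lab (Nat.card K)}
    (H : Ser c.d (sg χ c) e P) (h : c' ≠ c) : Fr c.d e (sg χ c') := by
  intro k hk
  have h1 : hn (k * c.d) 1 (e k) = 0 := hn_hom_left hom_one (Nat.mul_pos hk H.pos).ne _
  have h2 : hn (k * c.d) (sg χ c') (e k) = 0 := by
    by_contra a
    have b : c'.d = k * c.d := by_contra fun b => a (hn_hom_left (irr_sg hχ c').1 b _)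
    have b' : sg χ c' = e k := by_contra fun b' => a (CuB_ne (b ▸ irr_sg hχ c') (H.irr k) b')
    have := sg_orth hχ (l := [c']) (c' := c) (by simpa using h.symm) hk (k * c.d) 1
    rw [List.map_singleton, List.prod_singleton, mul_one, b'] at this
    exact USerB_symm (H.e_sub k) this
  rw [Ek, (prim_sg c').pr.Dw, hnl_apply, hnl_apply, h1, h2, zero_smul, zero_smul, add_zero]

end PD
end

-- merged part: Pool.Agent.Work.MP_cea1f0_al.U.Alt
section
/-!
# Alternants  (tasks PU AltA, PU AltB)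

* `alt_XX`: `Matrix.det_apply` for the transposed matrix, `MvPowerSeries.X_pow_eq`, products of monomials.
* `coeff_alt_mul`, `coeff_hh_mul`: `MvPowerSeries.coeff_monomial_mul`, `hh_eq`.
* `coeff_alt_strict`: if `β = l ∘ w` with `β`, `l` strictly monotone then `w` is strictly monotone, so `w = 1`.
* `alt_pieri`: `hh y 1 = ∑ i, y i`; expand the determinants and reindex the inner sum by `w`.
* `coeff_pieri`: induction on `a` for all `l`, together with: if the coefficient is not zero then `l ≤ β` and `∑ β = ∑ l + a`.  The vector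
  `update l i (l i + 1)` is strictly monotone or has two equal entries (`Matrix.det_zero_of_column_eq`).  At most `a + 1` indices
  satisfy `l i < β i`.
* `exists_strict`: among the `γ` with `∑ γ = ∑ α` and non-zero coefficient take one with `∑ γ ^ 2` maximal, and sort it (`Tuple.sort`);
  `β j = γ j + j`.  For `w ≠ 1` the vector `γ j + j - w j` has a larger sum of squares (`Monovary.sum_mul_comp_perm_le_sum_mul`
  over `ℤ`).
-/

namespace PD

open Pool.Agent.Lib.SymRep Finset MvPowerSeries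

variable {N : ℕ}

/-- The variables. -/
noncomputable def XX (N : ℕ) : Fin N → MvPowerSeries (Fin N) ℂ := fun i => X i

/-- Exponent vectors. -/
noncomputable def tf (l : Fin N → ℕ) : Fin N →₀ ℕ := Finsupp.equivFunOnFinite.symm l

theorem tf_apply (l : Fin N → ℕ) (i : Fin N) : tf l i = l i := rfl

theorem tf_coe (l : Fin N →₀ ℕ) : tf l = l := Finsupp.equivFunOnFinite_symm_coe l

/-! ### Task PU AltA -/

theorem UAltA_alt_sum {R : Type*} [CommRing R] (y : Fin N → R) (l : Fin N → ℕ) :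
    alt y l = ∑ w : Equiv.Perm (Fin N), ((Equiv.Perm.sign w : ℤ) : R) * ∏ j, y j ^ l (w j) := by
  rw [alt, ← Matrix.det_transpose, Matrix.det_apply']
  rfl

theorem UAltA_prod_X (a : Fin N → ℕ) :
    ∏ j, XX N j ^ a j = monomial (tf a) (1 : ℂ) := by
  have h : ∀ j, XX N j ^ a j = monomial (Finsupp.single j (a j)) (1 : ℂ) := fun j => X_pow_eq j (a j)
  simp only [h]
  rw [prod_monomial, Finset.prod_const_one]
  congr 2
  ext i
  rw [Finsupp.finsetSum_apply, tf_apply, Finset.sum_eq_single i]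
  · simp
  · intro b _ hb
    simp [hb]
  · simp

theorem UAltA_le (a b : Fin N → ℕ) : tf a ≤ tf b ↔ ∀ j, a j ≤ b j := by
  rw [Finsupp.le_def]
  rfl

theorem UAltA_sub (a b : Fin N → ℕ) : tf a - tf b = tf fun j => a j - b j := by
  ext j
  rw [Finsupp.tsub_apply]
  rfl

theorem UAltA_inj {a b : Fin N → ℕ} : tf a = tf b ↔ a = b := by
  constructor
  · intro h
    funext j
    rw [← tf_apply a j, h, tf_apply]
  · rintro rfl
    rfl

theorem UAltA_hh_one {R : Type*} [CommRing R] (y : Fin N → R) :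
    Pool.Agent.Lib.SymRep.hh y 1 = ∑ i, y i := by
  rw [hh_eq]
  symm
  refine Finset.sum_bij (fun i _ => Finsupp.single i 1) ?_ ?_ ?_ ?_
  · intro i _
    rw [Finset.mem_finsuppAntidiag]
    refine ⟨?_, Finset.subset_univ _⟩
    rw [Finset.sum_eq_single i]
    · simp
    · intro b _ hb
      simp [hb.symm]
    · simp
  · intro i _ j _ h
    exact Finsupp.single_left_injective one_ne_zero h
  · intro A hA
    rw [Finset.mem_finsuppAntidiag] at hA
    obtain ⟨i, hi⟩ : ∃ i, A i ≠ 0 := by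
      by_contra hc
      push Not at hc
      have := hA.1
      simp [hc] at this
    refine ⟨i, Finset.mem_univ _, ?_⟩
    have h1 := hA.1
    rw [← Finset.add_sum_erase _ _ (Finset.mem_univ i)] at h1
    have h2 : A i = 1 := by omega
    have h3 : ∑ x ∈ univ.erase i, A x = 0 := by omega
    ext j
    by_cases hj : i = j
    · subst hj
      simp [h2]
    · rw [Finsupp.single_eq_of_ne' hj]
      exact ((Finset.sum_eq_zero_iff.1 h3) j (Finset.mem_erase.2 ⟨fun e => hj e.symm, Finset.mem_univ _⟩)).symm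
  · intro i _
    rw [Finset.prod_eq_single i]
    · simp
    · intro b _ hb
      simp [hb.symm]
    · simp

theorem alt_XX (l : Fin N → ℕ) : alt (XX N) l =
    ∑ w : Equiv.Perm (Fin N), monomial (tf fun j => l (w j)) ((Equiv.Perm.sign w : ℤ) : ℂ) := by
  rw [UAltA_alt_sum]
  refine Finset.sum_congr rfl fun w _ => ?_
  rw [UAltA_prod_X]
  have h : (((Equiv.Perm.sign w : ℤ) : ℤ) : MvPowerSeries (Fin N) ℂ) =
      monomial 0 ((Equiv.Perm.sign w : ℤ) : ℂ) := by
    rw [monomial_zero_eq_C_apply, map_intCast]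
  rw [h, monomial_mul_monomial, zero_add, mul_one]

theorem coeff_alt_mul (l β : Fin N → ℕ) (F : MvPowerSeries (Fin N) ℂ) :
    coeff (tf β) (alt (XX N) l * F) = ∑ w : Equiv.Perm (Fin N), ((Equiv.Perm.sign w : ℤ) : ℂ) *
      if ∀ j, l (w j) ≤ β j then coeff (tf fun j => β j - l (w j)) F else 0 := by
  rw [alt_XX, Finset.sum_mul, map_sum]
  refine Finset.sum_congr rfl fun w _ => ?_
  rw [coeff_monomial_mul, UAltA_sub]
  simp only [UAltA_le]
  split_ifs <;> simp

theorem coeff_hh_mul (k : ℕ) (α : Fin N → ℕ) (F : MvPowerSeries (Fin N) ℂ) :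
    coeff (tf α) (Pool.Agent.Lib.SymRep.hh (XX N) k * F) = ∑ A ∈ finsuppAntidiag univ k,
      if ∀ t, A t ≤ α t then coeff (tf fun t => α t - A t) F else 0 := by
  rw [hh_eq, Finset.sum_mul, map_sum]
  refine Finset.sum_congr rfl fun A _ => ?_
  rw [UAltA_prod_X, coeff_monomial_mul, UAltA_sub]
  simp only [UAltA_le, one_mul]

theorem coeff_alt_strict {β l : Fin N → ℕ} (hβ : StrictMono β) (hl : StrictMono l) :
    coeff (tf β) (alt (XX N) l) = if β = l then 1 else 0 := by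
  classical
  rw [alt_XX, map_sum, Finset.sum_eq_single 1]
  · rw [coeff_monomial]
    simp only [UAltA_inj]
    have h : (fun j => l ((1 : Equiv.Perm (Fin N)) j)) = l := rfl
    rw [h]
    simp
  · intro w _ hw
    apply coeff_monomial_ne
    intro h
    rw [UAltA_inj] at h
    apply hw
    have hm : StrictMono w := by
      intro i j hij
      have := hβ hij
      rw [h] at this
      exact hl.lt_iff_lt.1 this
    have h2 : (w : Fin N → Fin N) = id := by
      have := Subsingleton.elim (StrictMono.orderIsoOfSurjective w hm w.surjective) (OrderIso.refl _)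
      funext i
      have h3 := congrArg (fun e : Fin N ≃o Fin N => e i) this
      simpa using h3
    ext i
    simp [h2]
  · simp

theorem alt_pieri {R : Type*} [CommRing R] (y : Fin N → R) (l : Fin N → ℕ) :
    alt y l * Pool.Agent.Lib.SymRep.hh y 1 = ∑ i, alt y (Function.update l i (l i + 1)) := by
  rw [UAltA_hh_one]
  simp only [UAltA_alt_sum]
  rw [Finset.sum_comm, Finset.sum_mul]
  refine Finset.sum_congr rfl fun w _ => ?_
  rw [← Finset.mul_sum, mul_assoc]
  congr 1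
  rw [Finset.mul_sum,
    ← Equiv.sum_comp w (fun i => ∏ j, y j ^ Function.update l i (l i + 1) (w j))]
  refine Finset.sum_congr rfl fun i _ => ?_
  rw [← Finset.mul_prod_erase _ _ (Finset.mem_univ i),
    ← Finset.mul_prod_erase _ (fun j => y j ^ Function.update l (w i) (l (w i) + 1) (w j)) (Finset.mem_univ i)]
  have h : ∏ x ∈ univ.erase i, y x ^ Function.update l (w i) (l (w i) + 1) (w x) =
      ∏ x ∈ univ.erase i, y x ^ l (w x) := by
    refine Finset.prod_congr rfl fun x hx => ?_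
    rw [Function.update_of_ne]
    exact fun e => (Finset.mem_erase.1 hx).1 (w.injective e)
  rw [h, Function.update_self]
  ring

/-! ### Task PU AltB -/

theorem UAltB_upd {l : Fin N → ℕ} (hl : StrictMono l) (i : Fin N) :
    StrictMono (Function.update l i (l i + 1)) ∨
      alt (XX N) (Function.update l i (l i + 1)) = 0 := by
  by_cases h : Function.Injective (Function.update l i (l i + 1))
  · refine Or.inl (Monotone.strictMono_of_injective
      (monotone_iff_forall_lt.2 fun j k hjk => ?_) h)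
    have h1 := hl hjk
    rcases eq_or_ne j i with rfl | hj
    · rw [Function.update_self, Function.update_of_ne hjk.ne']
      omega
    · rw [Function.update_of_ne hj]
      rcases eq_or_ne k i with rfl | hk
      · rw [Function.update_self]
        omega
      · rw [Function.update_of_ne hk]
        omega
  · obtain ⟨j, k, h1, h2⟩ := Function.not_injective_iff.1 h
    exact Or.inr (Matrix.det_zero_of_column_eq h2 fun t => by
      rw [Matrix.of_apply, Matrix.of_apply, h1])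

theorem UAltB_main {β : Fin N → ℕ} (hβ : StrictMono β) (a : ℕ) : ∀ l : Fin N → ℕ, StrictMono l →
    ‖coeff (tf β) (alt (XX N) l * Pool.Agent.Lib.SymRep.hh (XX N) 1 ^ a)‖ ≤ a.factorial ∧
      (coeff (tf β) (alt (XX N) l * Pool.Agent.Lib.SymRep.hh (XX N) 1 ^ a) ≠ 0 →
        (∀ i, l i ≤ β i) ∧ ∑ i, β i = ∑ i, l i + a) := by
  classical
  induction a with
  | zero =>
    intro l hl
    rw [pow_zero, mul_one, coeff_alt_strict hβ hl]
    split_ifs with h
    · subst h
      simp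
    · simp
  | succ a ih =>
    intro l hl
    rw [pow_succ', ← mul_assoc, alt_pieri, Finset.sum_mul, map_sum]
    generalize hc : (fun i => coeff (tf β) (alt (XX N) (Function.update l i (l i + 1)) *
      Pool.Agent.Lib.SymRep.hh (XX N) 1 ^ a)) = c
    have h1 : ∀ i, ‖c i‖ ≤ a.factorial ∧
        (c i ≠ 0 → (∀ j, l j ≤ β j) ∧ l i < β i ∧ ∑ i, β i = ∑ i, l i + (a + 1)) := fun i => by
      subst hc
      rcases UAltB_upd hl i with h | h
      · refine ⟨(ih _ h).1, fun k => ?_⟩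
        obtain ⟨k1, k2⟩ := (ih _ h).2 k
        have k3 := k1 i
        rw [Function.update_self] at k3
        refine ⟨fun j => ?_, k3, ?_⟩
        · rcases eq_or_ne j i with rfl | hj
          · omega
          · have k4 := k1 j
            rwa [Function.update_of_ne hj] at k4
        · rw [k2, Finset.sum_update_of_mem (mem_univ i), ← Finset.add_sum_erase _ l (mem_univ i),
            Finset.sdiff_singleton_eq_erase]
          omega
      · simp [h]
    refine ⟨?_, fun k => ?_⟩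
    · rw [← Finset.sum_filter_ne_zero]
      refine (norm_sum_le _ _).trans
        ((Finset.sum_le_card_nsmul _ _ _ fun i _ => (h1 i).1).trans ?_)
      rw [nsmul_eq_mul, Nat.factorial_succ, Nat.cast_mul]
      refine mul_le_mul_of_nonneg_right (Nat.cast_le.2 ?_) (Nat.cast_nonneg _)
      rcases (univ.filter fun i => c i ≠ 0).eq_empty_or_nonempty with h | ⟨i, hi⟩
      · simp [h]
      obtain ⟨k1, -, k3⟩ := (h1 i).2 (Finset.mem_filter.1 hi).2
      have k4 : ∑ j, (l j + if c j ≠ 0 then 1 else 0) ≤ ∑ j, β j :=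
        Finset.sum_le_sum fun j _ => by
          split_ifs with hj
          · exact ((h1 j).2 hj).2.1
          · exact k1 j
      rw [Finset.sum_add_distrib, ← Finset.card_filter] at k4
      omega
    · obtain ⟨i, -, hi⟩ := Finset.exists_ne_zero_of_sum_ne_zero k
      exact ⟨((h1 i).2 hi).1, ((h1 i).2 hi).2.2⟩

theorem coeff_pieri {β l : Fin N → ℕ} (hβ : StrictMono β) (hl : StrictMono l) (a : ℕ) :
    ‖coeff (tf β) (alt (XX N) l * Pool.Agent.Lib.SymRep.hh (XX N) 1 ^ a)‖ ≤ a.factorial := by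
  exact (UAltB_main hβ a l hl).1

theorem UAltB_sq {γ : Fin N → ℕ} (hγ : Monotone γ) {w : Equiv.Perm (Fin N)} (hw : w ≠ 1)
    (h : ∀ j, (w j : ℕ) ≤ γ j + j) : ∑ j, (γ j + j - w j) = ∑ j, γ j ∧
      ∑ j, γ j ^ 2 < ∑ j, (γ j + j - w j) ^ 2 := by
  have h1 : ∀ j, ((γ j + j - w j : ℕ) : ℤ) = γ j + (j : ℕ) - (w j : ℕ) := fun j => by
    rw [Nat.cast_sub (h j), Nat.cast_add]
  have h2 : ∑ j, ((w j : ℕ) : ℤ) = ∑ j : Fin N, ((j : ℕ) : ℤ) :=
    Equiv.sum_comp w fun j => ((j : ℕ) : ℤ)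
  have h3 : ∑ j, (γ j : ℤ) * (w j : ℕ) ≤ ∑ j, (γ j : ℤ) * (j : ℕ) :=
    Monovary.sum_mul_comp_perm_le_sum_mul (f := fun j => (γ j : ℤ))
      (g := fun j : Fin N => ((j : ℕ) : ℤ)) (σ := w)
      (Monotone.monovary (fun _ _ k => Nat.cast_le.2 (hγ k)) fun _ _ k => Nat.cast_le.2 k)
  have h4 : 0 < ∑ j : Fin N, (((j : ℕ) : ℤ) - (w j : ℕ)) ^ 2 := by
    obtain ⟨j, hj⟩ : ∃ j, w j ≠ j := by
      by_contra! k
      exact hw (Equiv.ext k)
    refine Finset.sum_pos' (fun j _ => sq_nonneg _) ⟨j, mem_univ j, pow_two_pos_of_ne_zero ?_⟩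
    have k : (w j : ℕ) ≠ j := fun k => hj (Fin.ext k)
    omega
  constructor
  · refine Nat.cast_injective (R := ℤ) ?_
    simp only [Nat.cast_sum, h1, Finset.sum_sub_distrib, Finset.sum_add_distrib, h2]
    ring
  · refine (Nat.cast_lt (α := ℤ)).1 ?_
    have h5 : ∑ j, ((γ j : ℤ) + (j : ℕ) - (w j : ℕ)) ^ 2 = ∑ j, (γ j : ℤ) ^ 2 +
        2 * (∑ j, (γ j : ℤ) * (j : ℕ) - ∑ j, (γ j : ℤ) * (w j : ℕ)) +
        ∑ j : Fin N, (((j : ℕ) : ℤ) - (w j : ℕ)) ^ 2 := by
      rw [← Finset.sum_sub_distrib, Finset.mul_sum, ← Finset.sum_add_distrib,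
        ← Finset.sum_add_distrib]
      exact Finset.sum_congr rfl fun j _ => by ring
    simp only [Nat.cast_sum, Nat.cast_pow, h1, h5]
    linarith

theorem exists_strict {F : MvPowerSeries (Fin N) ℂ}
    (hs : ∀ (w : Equiv.Perm (Fin N)) (α : Fin N → ℕ),
      coeff (tf fun j => α (w j)) F = coeff (tf α) F)
    {α : Fin N → ℕ} (h : coeff (tf α) F ≠ 0) : ∃ β : Fin N → ℕ, StrictMono β ∧
      ∑ j, β j = ∑ j, α j + ∑ j : Fin N, (j : ℕ) ∧
      coeff (tf β) (alt (XX N) (fun i => i) * F) ≠ 0 := by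
  classical
  obtain ⟨γ0, h1, h2⟩ := Finset.exists_max_image
    ((Finset.Nat.antidiagonalTuple N (∑ j, α j)).filter fun γ => coeff (tf γ) F ≠ 0)
    (fun γ => ∑ j, γ j ^ 2)
    ⟨α, Finset.mem_filter.2 ⟨Finset.Nat.mem_antidiagonalTuple.2 rfl, h⟩⟩
  simp only [Finset.mem_filter, Finset.Nat.mem_antidiagonalTuple] at h1 h2
  obtain ⟨γ, k1, k2, k3, k4⟩ : ∃ γ : Fin N → ℕ, Monotone γ ∧ ∑ j, γ j = ∑ j, α j ∧
      ∑ j, γ j ^ 2 = ∑ j, γ0 j ^ 2 ∧ coeff (tf γ) F ≠ 0 :=
    ⟨fun j => γ0 (Tuple.sort γ0 j), Tuple.monotone_sort γ0, (Equiv.sum_comp _ γ0).trans h1.1,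
      Equiv.sum_comp _ fun j => γ0 j ^ 2, by rw [hs]; exact h1.2⟩
  refine ⟨fun j => γ j + j, fun i j hij => add_lt_add_of_le_of_lt (k1 hij.le) hij,
    by rw [Finset.sum_add_distrib, k2], ?_⟩
  rw [coeff_alt_mul, Finset.sum_eq_single 1 (fun w _ hw => ?_) (by simp)]
  · simpa using k4
  · split_ifs with k5
    · obtain ⟨k6, k7⟩ := UAltB_sq k1 hw k5
      refine mul_eq_zero_of_right _ (by_contra fun k8 => ?_)
      exact absurd (h2 _ ⟨k6.trans k2, k8⟩) (by omega)
    · exact mul_zero _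

end PD
end

-- merged part: Pool.Agent.Work.MP_cea1f0_al.U.JT
section
/-!
# Jacobi-Trudi determinants in the Hall algebra  (tasks PU JTA, PU JTB)

* `SS_eq`: `Matrix.det_apply`, `Finset.prod_ite_zero`.
* `hn_SS`: `SS_eq`, `coeff_alt_mul`; if `w j ≤ β j` for all `j` then `∑ j, (β j - w j) = m` (`Equiv.sum_comp`).
* `Ser.gs_e`: compare the coefficients of `α = tf α` (`coeff_hh_mul`).  If `k * d ≤ (∑ α) * d + b` use `Ser.adj`, `Ser.Ek_prod`; otherwise the
  left side vanishes (`MaA_deg`) and `∑ α < k`, so that no `A` contributes.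
* `Ser.gs_SS`: the pairs `(u, U)` with `∀ z, gs (u * z) = U * gs z` form a subring of the product ring; `RingHom.map_det` for the two
  projections; `jacobi_trudi`.
* `Ser.gs_fr`: for `α ≠ 0` split off a factor `e (α t)` with `0 < α t`; `hn_star`, `Ser.adj`.
* `Ser.irr_eq`: `Ser.exists_fr`; `m ≤ n ≤ N`; `exists_strict` for `gs d e N b x η` and `α t = if t < m then 1 else 0`; `Ser.hn_SS_SS` with
  `a = 0` and `coeff_alt_strict` give norm one; `IsV.irr`, `hn_irr`.
-/

namespace PD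

open Ob CF Finset MvPowerSeries
open Pool.Agent.Lib.SymRep (alt hsub jacobi_trudi)

variable {K : Type} [Field K] [Finite K] {d N : ℕ} {σ : HA K} {e P : ℕ → HA K}

/-- The entries of the determinant. -/
noncomputable def esub (e : ℕ → HA K) (a i : ℕ) : HA K := if i ≤ a then e (a - i) else 0

/-- The determinant. -/
noncomputable def SS (e : ℕ → HA K) (β : Fin N → ℕ) : HA K :=
  (Matrix.of fun (i : Fin N) j => esub e (β j) i).det

/-- The generating series of the scalar products. -/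
noncomputable def gs (d : ℕ) (e : ℕ → HA K) (N b : ℕ) (x z : HA K) : MvPowerSeries (Fin N) ℂ :=
  fun α => hn ((∑ t, α t) * d + b) ((∏ t, e (α t)) * x) z

theorem coeff_gs (b : ℕ) (x z : HA K) (α : Fin N → ℕ) : coeff (tf α) (gs d e N b x z) =
    hn ((∑ t, α t) * d + b) ((∏ t, e (α t)) * x) z := rfl

/-! ### Task PU JTA -/

theorem SS_eq (e : ℕ → HA K) (β : Fin N → ℕ) : SS e β = ∑ w : Equiv.Perm (Fin N),
    ((Equiv.Perm.sign w : ℤ) : ℂ) • if ∀ j, (w j : ℕ) ≤ β j then ∏ j, e (β j - w j) else 0 := by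
  rw [SS, Matrix.det_apply]
  refine Finset.sum_congr rfl fun w _ => ?_
  rw [Units.smul_def, Int.cast_smul_eq_zsmul]
  simp only [Matrix.of_apply, esub]
  rw [Fintype.prod_ite_zero]
  split_ifs <;> rfl

theorem Ser.hom_prod (H : Ser d σ e P) (α : Fin N → ℕ) :
    Hom ((∑ t, α t) * d) (∏ t, e (α t)) := by
  have key : ∀ s : Finset (Fin N), Hom ((∑ t ∈ s, α t) * d) (∏ t ∈ s, e (α t)) := by
    intro s
    induction s using Finset.induction_on with
    | empty =>
      rw [Finset.sum_empty, Finset.prod_empty, zero_mul]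
      exact hom_one
    | insert a s ha ih =>
      rw [Finset.sum_insert ha, Finset.prod_insert ha, add_mul]
      exact (H.irr _).1.mul ih
  exact key univ

theorem UJTA_sub {α A : Fin N → ℕ} (h : ∀ t, A t ≤ α t) :
    ∑ t, (α t - A t) + ∑ t, A t = ∑ t, α t := by
  rw [← Finset.sum_add_distrib]
  exact Finset.sum_congr rfl fun t _ => Nat.sub_add_cancel (h t)

theorem UJTA_perm {β : Fin N → ℕ} {m : ℕ} (hβ : ∑ j, β j = m + ∑ j : Fin N, (j : ℕ))
    {w : Equiv.Perm (Fin N)} (h : ∀ j, (w j : ℕ) ≤ β j) : ∑ j, (β j - w j) = m := by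
  have h1 := UJTA_sub (A := fun j => (w j : ℕ)) h
  have h2 : ∑ j, (w j : ℕ) = ∑ j : Fin N, (j : ℕ) := Equiv.sum_comp w fun j => (j : ℕ)
  omega

theorem Ser.hom_SS (H : Ser d σ e P) {β : Fin N → ℕ} {m : ℕ}
    (hβ : ∑ j, β j = m + ∑ j : Fin N, (j : ℕ)) : Hom (m * d) (SS e β) := by
  rw [SS_eq]
  refine Hom.sum fun w _ => Hom.smul ?_ _
  split_ifs with h
  · rw [← UJTA_perm hβ h]
    exact H.hom_prod fun j => β j - w j
  · exact fun _ _ => rfl

theorem Ser.isV_SS (H : Ser d σ e P) (β : Fin N → ℕ) : IsV (SS e β) := by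
  have h0 : IsV (0 : HA K) := by
    rw [← sub_self (1 : HA K)]
    exact isCh_one.isV.sub isCh_one.isV
  rw [SS_eq]
  refine IsV.sum fun w _ => ?_
  have h1 : IsV (if ∀ j, (w j : ℕ) ≤ β j then ∏ j, e (β j - w j) else 0) := by
    split_ifs
    · exact Finset.prod_induction _ IsV (fun a b ha hb => ha.mul hb) isCh_one.isV
        fun j _ => (H.irr _).isCh.isV
    · exact h0
  rcases Int.units_eq_one_or (Equiv.Perm.sign w) with h | h
  · rw [h, Units.val_one, Int.cast_one, one_smul]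
    exact h1
  · rw [h, Units.val_neg, Units.val_one, Int.cast_neg, Int.cast_one, neg_smul, one_smul]
    exact h1.neg

theorem hn_SS {β : Fin N → ℕ} {m : ℕ} (hβ : ∑ j, β j = m + ∑ j : Fin N, (j : ℕ)) (b : ℕ)
    (x z : HA K) : hn (m * d + b) (SS e β * x) z =
      coeff (tf β) (alt (XX N) (fun i => i) * gs d e N b x z) := by
  rw [SS_eq, coeff_alt_mul, Finset.sum_mul, hn_sum_left]
  refine Finset.sum_congr rfl fun w _ => ?_
  rw [smul_mul_assoc, hn_smul_left]
  refine congrArg _ ?_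
  split_ifs with h
  · rw [coeff_gs, UJTA_perm hβ h]
  · rw [zero_mul, PrB_zero_left]

theorem Ser.gs_e (H : Ser d σ e P) (b : ℕ) {x : HA K} (hx : Fr d e x) (k : ℕ) (z : HA K) :
    gs d e N b x (e k * z) = Pool.Agent.Lib.SymRep.hh (XX N) k * gs d e N b x z := by
  refine MvPowerSeries.ext fun α => ?_
  rw [← tf_coe α, coeff_gs, coeff_hh_mul]
  by_cases hk : k * d ≤ (∑ t, α t) * d + b
  · obtain ⟨c, hc⟩ := Nat.exists_eq_add_of_le hk
    rw [hc, H.adj, H.Ek_prod _ hx, hn_sum_left]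
    refine Finset.sum_congr rfl fun A hA => ?_
    split_ifs with h
    · have h1 := UJTA_sub (A := A) (α := α) h
      rw [(Finset.mem_finsuppAntidiag.1 hA).1] at h1
      have h2 : c = (∑ t, (α t - A t)) * d + b := by
        rw [← h1, add_mul] at hc
        omega
      rw [coeff_gs, h2]
    · exact PrB_zero_left _ _
  · rw [MaA_deg (H.irr k).1 (not_le.1 hk)]
    refine (Finset.sum_eq_zero fun A hA => if_neg fun h => hk ?_).symm
    have h1 := UJTA_sub (A := A) (α := α) h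
    rw [(Finset.mem_finsuppAntidiag.1 hA).1] at h1
    rw [← h1, add_mul]
    omega

/-! ### Task PU JTB -/

theorem Ser.gs_SS (H : Ser d σ e P) (b : ℕ) {x : HA K} (hx : Fr d e x) (β : Fin N → ℕ) (z : HA K) :
    alt (XX N) (fun i => i) * gs d e N b x (SS e β * z) = alt (XX N) β * gs d e N b x z := by
  let g : HA K →+ MvPowerSeries (Fin N) ℂ :=
    AddMonoidHom.mk' (gs d e N b x) fun z z' => funext fun α => hn_add_right _ _ z z'
  let T : Subring (HA K × MvPowerSeries (Fin N) ℂ) :=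
    { carrier := {p | ∀ z, g (p.1 * z) = p.2 * g z}
      mul_mem' := fun h h' z => by rw [Prod.fst_mul, Prod.snd_mul, mul_assoc, h, h', mul_assoc]
      one_mem' := fun z => by simp
      add_mem' := fun h h' z => by rw [Prod.fst_add, Prod.snd_add, add_mul, map_add, h, h', add_mul]
      zero_mem' := fun z => by simp
      neg_mem' := fun h z => by rw [Prod.fst_neg, Prod.snd_neg, neg_mul, map_neg, h, neg_mul] }
  have h : (Matrix.of fun (i : Fin N) j => (esub e (β j) i, hsub (XX N) (β j) i)).det ∈ T := by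
    rw [Matrix.det_apply']
    refine sum_mem fun w _ => mul_mem (intCast_mem _ _) (prod_mem fun j _ z => ?_)
    simp only [Matrix.of_apply, esub, hsub]
    split_ifs
    · exact H.gs_e b hx _ z
    · simp
  have h1 := h z
  rw [← RingHom.coe_fst, ← RingHom.coe_snd, RingHom.map_det, RingHom.map_det] at h1
  rw [← jacobi_trudi _ β, mul_assoc]
  exact congrArg _ h1

theorem Ser.gs_fr (H : Ser d σ e P) (b : ℕ) (x : HA K) {y : HA K} (hy : Fr d e y) :
    gs d e N b x y = C (hn b x y) := by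
  refine MvPowerSeries.ext fun α => ?_
  rw [coeff_C, ← tf_coe α, coeff_gs, tf_coe]
  split_ifs with h
  · simp [h, H.e_zero]
  · obtain ⟨t, ht⟩ := Finsupp.ne_iff.1 h
    rw [← add_sum_erase _ _ (mem_univ t), ← mul_prod_erase _ _ (mem_univ t), add_mul, add_assoc,
      mul_assoc, ← hn_star, H.adj, hy _ (Nat.pos_of_ne_zero ht), PrB_zero_left, star_zero]

theorem Ser.hn_SS_SS (H : Ser d σ e P) (b : ℕ) {x y : HA K} (hx : Fr d e x) (hy : Fr d e y)
    {β : Fin N → ℕ} {m : ℕ} (hβ : ∑ j, β j = m + ∑ j : Fin N, (j : ℕ)) (β' : Fin N → ℕ) (a : ℕ) :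
    hn (m * d + b) (SS e β * x) (SS e β' * (σ ^ a * y)) =
      coeff (tf β) (alt (XX N) β' * Pool.Agent.Lib.SymRep.hh (XX N) 1 ^ a) * hn b x y := by
  have h : gs d e N b x (σ ^ a * y) = Pool.Agent.Lib.SymRep.hh (XX N) 1 ^ a * C (hn b x y) := by
    induction a with
    | zero => rw [pow_zero, pow_zero, one_mul, one_mul, H.gs_fr b x hy]
    | succ a ih =>
      rw [pow_succ', pow_succ', mul_assoc, mul_assoc, ← ih, ← H.gs_e b hx, H.e_one]
  rw [hn_SS hβ, H.gs_SS b hx, h, ← mul_assoc, coeff_mul_C]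

theorem Ser.irr_eq (H : Ser d σ e P) {n : ℕ} {η : HA K} (hη : Irr n η) (hN : n ≤ N) :
    ∃ (m b : ℕ) (x : HA K) (β : Fin N → ℕ), n = m * d + b ∧ Irr b x ∧ Fr d e x ∧ StrictMono β ∧
      ∑ j, β j = m + ∑ j : Fin N, (j : ℕ) ∧ (η = SS e β * x ∨ η = -(SS e β * x)) := by
  obtain ⟨m, b, x, rfl, h1, h2, h3⟩ := H.exists_fr hη
  have hm : m ≤ N := (Nat.le_mul_of_pos_right m H.pos).trans ((Nat.le_add_right _ b).trans hN)
  have hc : #{t : Fin N | (t : ℕ) < m} = m := by rw [Fin.card_filter_val_lt, min_eq_right hm]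
  have hs : ∑ t : Fin N, (if (t : ℕ) < m then 1 else 0) = m := by rw [sum_boole, hc, Nat.cast_id]
  obtain ⟨β, b1, b2, b3⟩ := exists_strict (F := gs d e N b x η) (fun w α => by
      rw [coeff_gs, coeff_gs, Equiv.sum_comp w α, Equiv.prod_comp w fun t => e (α t)])
    (α := fun t => if (t : ℕ) < m then 1 else 0) (by
      simpa only [coeff_gs, hs, apply_ite e, H.e_one, H.e_zero, prod_ite, prod_const, hc, one_pow,
        mul_one] using h3)
  rw [hs] at b2
  rw [← hn_SS b2] at b3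
  have b4 := H.hn_SS_SS b h2 h2 b2 β 0
  rw [pow_zero, pow_zero, one_mul, mul_one, coeff_alt_strict b1 b1, if_pos rfl, CuB_self h1,
    mul_one] at b4
  refine ⟨m, b, x, β, rfl, h1, h2, b1, b2, (((H.isV_SS β).mul h1.isCh.isV).irr
    ((H.hom_SS b2).mul h1.1) b4).imp (fun k => ?_) fun k => ?_⟩
  · exact by_contra fun c => b3 (CuB_ne k hη (Ne.symm c))
  · exact by_contra fun c => b3 (neg_eq_zero.1
      (((hnl _ η).map_neg _).symm.trans (CuB_ne k hη (Ne.symm c))))

end PD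
end

-- merged part: Pool.Agent.Work.MP_cea1f0_al.U.LR
section
/-!
# A bound for the multiplicities of Harish-Chandra induction  (task PU LR)

* `lr_list`: strong induction on the length.  For `L = c :: _` let `a` be the number of occurrences of `c` and `L'` the list of the other
  entries (`List.filter`, `List.Perm.prod_eq`, `List.filter_append_perm`, `List.filter_eq`); `exists_ser`, `Ser.irr_eq` for `η`
  and `η'` with `N = n + n'`, `Ser.hn_SS_SS` with `y = x' * (L'.map (sg χ)).prod` (`Ser.fr_mul`, `fr_sg`), `coeff_pieri`,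
  `Nat.factorial_mul_factorial_dvd_factorial_add`.
* `exists_sup`: strong induction on `n`.  If `η` is primitive use `prim_span`, `rho_sup` (for any prime), `List.replicate`.  Otherwise
  `prim_of_orth`, `hn_mul_ne`, `hn_mul_pos`, `MaA_ch`.
* `lr`: `S = (L.map (sg χ)).prod` from `exists_sup`; `S - η₂` is a character (`IsCh.sub`), `IsCh.hn`, `MaB_len`, `exists_chi`.
* `E_levi`: `exists_sup` for `η₂`; a label that is not good contradicts `bad_E` (`hn_mul_pos`, `List.prod_erase` or `List.perm_cons_erase`).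
-/

namespace PD

open Ob CF Finset

variable {K : Type} [Field K] [Finite K] {χ : Kb K →*₀ ℂ}

/-! ### Task PU LR -/

theorem ULR_fr (hχ : Function.Injective χ) {c : Lab (Nat.card K)} {e P : ℕ → HA K}
    (H : Ser c.d (sg χ c) e P) (L : List (Lab (Nat.card K))) (h : ∀ c' ∈ L, c' ≠ c) :
    Fr c.d e (L.map (sg χ)).prod := by
  induction L with
  | nil => exact H.fr_one
  | cons c' L ih =>
    rw [List.map_cons, List.prod_cons]
    exact H.fr_mul (fr_sg hχ H (h c' List.mem_cons_self))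
      (ih fun x hx => h x (List.mem_cons_of_mem _ hx))

theorem ULR_sgn {n : ℕ} {η η' u u' : HA K} (h : η = u ∨ η = -u) (h' : η' = u' ∨ η' = -u')
    (z : HA K) : ‖hn n η (η' * z)‖ = ‖hn n u (u' * z)‖ := by
  rcases h with rfl | rfl <;> rcases h' with rfl | rfl <;>
    simp only [neg_mul, Tw_neg, Tw_neg', norm_neg]

theorem ULR_ne {n : ℕ} {f g : HA K} (h : hn n f g ≠ 0) : hn n g f ≠ 0 := by
  rwa [← hn_star, star_ne_zero]

theorem lr_list (hχ : Function.Injective χ) (L : List (Lab (Nat.card K))) {n n' : ℕ} {η η' : HA K}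
    (hη : Irr n η) (hη' : Irr n' η') :
    ‖hn n η (η' * (L.map (sg χ)).prod)‖ ≤ L.length.factorial := by
  classical
  induction' hL : L.length using Nat.strong_induction_on with r ih generalizing L n n' η η'
  subst hL
  rcases L with _ | ⟨c, L₀⟩
  · rw [List.map_nil, List.prod_nil, mul_one]
    rcases eq_or_ne n' n with rfl | h
    · rw [hn_irr hη hη']
      split_ifs <;> simp
    · simp [hn_hom_right hη'.1 h]
  have hc : 0 < (c :: L₀).count c := List.count_pos_iff.2 List.mem_cons_self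
  generalize c :: L₀ = L at hc ih
  obtain ⟨e, P, H⟩ := exists_ser hχ
  obtain ⟨m, b, x, β, rfl, x1, x2, β1, β2, h⟩ := (H c).irr_eq hη (Nat.le_add_right n n')
  obtain ⟨m', b', x', β', -, x1', x2', β1', -, h'⟩ := (H c).irr_eq hη' (Nat.le_add_left n' _)
  have k1 := List.prod_map_filter_mul_prod_map_filter_not (· = c) (sg χ) L
  have k2 := List.length_eq_length_filter_add (l := L) fun c' => decide (c' = c)
  rw [List.filter_eq, List.map_replicate, List.prod_replicate] at k1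
  rw [List.filter_eq, List.length_replicate] at k2
  simp only [decide_not] at k1
  have k3 := ULR_fr hχ (H c) (L.filter fun c' => !decide (c' = c)) fun c' hc' => by
    simpa using (List.mem_filter.1 hc').2
  rw [ULR_sgn h h', ← k1, mul_assoc, mul_left_comm x',
    (H c).hn_SS_SS b x2 ((H c).fr_mul x2' k3) β2, norm_mul, k2]
  refine (mul_le_mul (coeff_pieri β1 β1' _) (ih _ (by omega) _ x1 x1' rfl) (norm_nonneg _)
    (Nat.cast_nonneg _)).trans ?_
  exact_mod_cast Nat.le_of_dvd (Nat.factorial_pos _)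
    (Nat.factorial_mul_factorial_dvd_factorial_add _ _)

theorem exists_sup (hχ : Function.Injective χ) {n : ℕ} {η : HA K} (hη : Irr n η) :
    ∃ L : List (Lab (Nat.card K)), (L.map Lab.d).sum = n ∧ hn n (L.map (sg χ)).prod η ≠ 0 := by
  induction n using Nat.strong_induction_on generalizing η with
  | _ n ih =>
  have h1 : hn n η η ≠ 0 := by rw [CuB_self hη]; exact one_ne_zero
  rcases Nat.eq_zero_or_pos n with rfl | h0
  · refine ⟨[], rfl, ?_⟩
    rw [hn_zero] at h1 ⊢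
    rw [List.map_nil, List.prod_nil, WhE_eps, one_mul]
    exact right_ne_zero_of_mul h1
  by_cases hp : Prim n η
  · obtain ⟨j, hj⟩ : ∃ j, hn n (rho χ n j) η ≠ 0 := by
      by_contra k
      refine h1 (LinearMap.mem_ker.1 (Submodule.span_le.2
        (?_ : _ ⊆ (LinearMap.ker (hnl n η) : Set (HA K))) (prim_span hχ hp)))
      rintro _ ⟨j, rfl⟩
      exact by_contra fun k' => k ⟨j, k'⟩
    obtain ⟨c, c1, -, c3⟩ := rho_sup hχ Nat.prime_two h0 j
    refine ⟨List.replicate (n / c.d) c, ?_, ?_⟩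
    · rw [List.map_replicate, List.sum_replicate, smul_eq_mul, Nat.div_mul_cancel c1]
    · rw [List.map_replicate, List.prod_replicate]
      exact c3 η hη hj
  · have k := mt (prim_of_orth h0 hη.1) hp
    push Not at k
    obtain ⟨a, b, x, z, ha, hb, rfl, hx, hz, h⟩ := k
    obtain ⟨η₁, η₂, i1, i2, -, -, i3⟩ := hn_mul_ne hx hz (ULR_ne h)
    obtain ⟨L₁, l1, l2⟩ := ih a (by omega) i1
    obtain ⟨L₂, l3, l4⟩ := ih b (by omega) i2
    refine ⟨L₁ ++ L₂, by rw [List.map_append, List.sum_append, l1, l3], ?_⟩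
    rw [List.map_append, List.prod_append]
    exact hn_mul_pos (MaA_ch hχ L₁) (MaA_ch hχ L₂) i1 i2 hη.isCh l2 l4 i3

theorem lr {a b : ℕ} {η η₁ η₂ : HA K} (hη : Irr (a + b) η) (h₁ : Irr a η₁) (h₂ : Irr b η₂) :
    ‖hn (a + b) η (η₁ * η₂)‖ ≤ b.factorial := by
  obtain ⟨χ, hχ⟩ := exists_chi K
  obtain ⟨L, l1, l2⟩ := exists_sup hχ h₂
  have k0 := lr_list hχ L hη h₁
  obtain ⟨k, hk⟩ := hη.isCh.hn (h₁.isCh.mul h₂.isCh) (a + b)
  obtain ⟨k', hk'⟩ := hη.isCh.hn (h₁.isCh.mul ((MaA_ch hχ L).sub h₂ l2)) (a + b)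
  rw [mul_sub, hn_sub_right, hk, sub_eq_iff_eq_add, ← Nat.cast_add] at hk'
  rw [hk', Complex.norm_natCast, Nat.cast_le] at k0
  rw [hk, Complex.norm_natCast, Nat.cast_le]
  exact (Nat.le_add_left k k').trans
    (k0.trans (Nat.factorial_le (l1 ▸ MaB_len (fun c => c.pos) L)))

theorem E_levi (hχ : Function.Injective χ) {p : ℕ} (hp : p.Prime) {a b : ℕ} {η η₁ η₂ : HA K}
    (hη : η ∈ Es p χ (a + b)) (h₁ : Irr a η₁) (h₂ : Irr b η₂) (h : hn (a + b) η (η₁ * η₂) ≠ 0) :
    η₂ ∈ Es p χ b := by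
  obtain ⟨L, l1, l2⟩ := exists_sup hχ h₂
  refine MaA_mem.2 ⟨h₂, L, fun c hc => by_contra fun k => ?_, l1, l2⟩
  obtain ⟨y, hy⟩ := List.dvd_prod (List.mem_map_of_mem (f := sg χ) hc)
  refine ULR_ne (hn_mul_pos h₁.isCh (MaA_ch hχ L) h₁ h₂ (irr_E hη).isCh
    (by rw [CuB_self h₁]; exact one_ne_zero) l2 (ULR_ne h)) ?_
  rw [hy, mul_left_comm]
  exact bad_E hχ hp c.pos k hη _

end PD
end

-- merged part: Pool.Agent.Work.MP_cea1f0_al.U.Lev
section
/-!
# The element `lev`  (tasks PU LevA, PU LevB)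

* `ysub_equiv`: the element attached to `S` is `ψ (a, b) ↦ ψ (a + S b, b)`.
* `lev_idem`: the image of `emb ψ` normalises `Ysub ψ ⊥` (`emb_norm`).  It is convenient to test the identity against all `F`
  with `sum_lev` (or to write `lev = cv L U` and show `cv U L = cv L U`, `cv U U = U`, `cv L L = L`, `cv_assoc`).
* `avg_cg`: `emb ψ (h, x) * u` is conjugate by `ψ` to `ext (of h) (of x) (h ∘ S)`, and `S ↦ h ∘ S` is a bijection.
* `lev_irr`: `sum_lev`, `avg_cg`, `del0_expand`.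
* `idem_nat`: `Ch.exists_rep`; the matrix `∑ g, a g • ρ g` is idempotent, so its trace is its rank (see `rank_red` in `C0`).
* `sum_irr`: `cg V` is a bijection from `irs K (finrank K V)` to the irreducible characters (`Irr.cf`, `irr_equiv`, `exists_lift`,
  `AdjB_lift`; injective by `exists_of`).
* `sum_le_bitr`: `bitr_eq`, `sum_irr`, `idem_nat`, `k ≤ k * k`.
-/

namespace PD

open Ob CF Finset Module Pool.Agent.Lib.SymRep Pool.Agent.Puig

variable {K A B V : Type} [Field K] [AddCommGroup A] [Module K A] [AddCommGroup B] [Module K B]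
  [AddCommGroup V] [Module K V]

/-! ### Task PU LevA -/

theorem ULevA_mem {ψ : (A × B) ≃ₗ[K] V} {g : V ≃ₗ[K] V} {S : B → A} (h0 : S 0 = 0)
    (h : ∀ a b, g (ψ (a, b)) = ψ (a + S b, b)) : g ∈ Ysub ψ ⊥ :=
  ⟨fun a => by rw [h, h0, add_zero], 1, one_mem _, fun a b => by
    rw [h, ψ.symm_apply_apply]; rfl⟩

theorem ysub_equiv (ψ : (A × B) ≃ₗ[K] V) : ∃ u : (B →ₗ[K] A) ≃ Ysub ψ ⊥,
    ∀ S a b, (u S).1 (ψ (a, b)) = ψ (a + S b, b) := by
  let s : (B →ₗ[K] A) → V ≃ₗ[K] V := fun S => ψ.symm ≪≫ₗ LinearEquiv.prodComm K A B ≪≫ₗ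
    (LinearEquiv.refl K B).skewProd (LinearEquiv.refl K A) S ≪≫ₗ LinearEquiv.prodComm K B A ≪≫ₗ ψ
  have e : ∀ S a b, s S (ψ (a, b)) = ψ (a + S b, b) := fun S a b => by simp [s]
  refine ⟨Equiv.ofBijective (fun S => ⟨s S, ULevA_mem S.map_zero (e S)⟩)
    ⟨fun S S' h => LinearMap.ext fun b => ?_, fun ⟨g, h1, x, hx, h2⟩ => ?_⟩, e⟩
  · have k : s S = s S' := congrArg Subtype.val h
    exact add_left_cancel (congrArg Prod.fst (ψ.injective ((e S 0 b).symm.trans (k ▸ e S' 0 b))))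
  · obtain rfl := Subgroup.mem_bot.1 hx
    refine ⟨LinearMap.fst K A B ∘ₗ ψ.symm.toLinearMap ∘ₗ g.toLinearMap ∘ₗ ψ.toLinearMap ∘ₗ
      LinearMap.inr K A B, Subtype.ext (LinearEquiv.ext fun v => ?_)⟩
    obtain ⟨⟨a, b⟩, rfl⟩ := ψ.surjective v
    have k : g (ψ (0, b)) = ψ ((ψ.symm (g (ψ (0, b)))).1, b) :=
      ψ.symm_apply_eq.1 (Prod.ext rfl (h2 0 b))
    refine (e _ a b).trans ?_
    rw [← Prod.fst_add_snd (a, b), map_add, map_add, h1, k, ← map_add, Prod.mk_add_mk, zero_add]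
    rfl

theorem emb_norm (ψ : (A × B) ≃ₗ[K] V) (x : (A ≃ₗ[K] A) × (B ≃ₗ[K] B)) {u : V ≃ₗ[K] V}
    (hu : u ∈ Ysub ψ ⊥) : emb ψ x * u * (emb ψ x)⁻¹ ∈ Ysub ψ ⊥ := by
  obtain ⟨e, he⟩ := ysub_equiv ψ
  obtain ⟨S, hS⟩ := e.surjective ⟨u, hu⟩
  obtain rfl : (e S).1 = u := congrArg Subtype.val hS
  refine ULevA_mem (S := fun b => x.1 (S (x.2⁻¹ b))) (by simp) fun a b => ?_
  rw [← map_inv, LinearEquiv.mul_apply, LinearEquiv.mul_apply, ← Prod.mk.eta (p := x⁻¹), emb_apply,
    he, ← Prod.mk.eta (p := x), emb_apply, map_add]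
  exact congrArg ψ (Prod.ext (congrArg (· + _) (x.1.apply_symm_apply a)) (x.2.apply_symm_apply b))

theorem ULevA_cv {C : Type} [Group C] [Fintype C] (x y F : C → ℂ) :
    ∑ g, cv x y g * F g = ∑ h, x h * ∑ k, y k * F (h * k) := by
  simp only [cv, sum_mul, mul_sum]
  rw [sum_comm]
  refine sum_congr rfl fun h _ => (Fintype.sum_equiv (Equiv.mulLeft h) _ _ fun k => ?_).symm
  simp [mul_assoc]

variable [Finite A] [Finite B] [Finite V]

theorem sum_lev (ψ : (A × B) ≃ₗ[K] V) (a : (A ≃ₗ[K] A) → ℂ) (a' : (B ≃ₗ[K] B) → ℂ)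
    (F : (V ≃ₗ[K] V) → ℂ) [Fintype (Ysub ψ ⊥)] : ∑ g, lev ψ a a' g * F g = ∑ h, ∑ x, a h * a' x *
      ((Nat.card (Ysub ψ ⊥) : ℂ)⁻¹ * ∑ u : Ysub ψ ⊥, F (emb ψ (h, x) * u)) := by
  classical
  rw [lev, ULevA_cv, ← Fintype.sum_prod_type']
  simp only [sum_mul]
  rw [sum_comm]
  refine sum_congr rfl fun x _ => ?_
  simp only [ite_mul, zero_mul, sum_ite_eq, mem_univ, if_true]
  rw [← sum_filter, ← mul_sum, sum_subtype (p := (· ∈ Ysub ψ ⊥)) _ (by simp)]

theorem card_ysub [Finite K] {p : ℕ} (hp : p.Prime) (hK : (p : K) ≠ 0) (ψ : (A × B) ≃ₗ[K] V) :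
    (Nat.card (Ysub ψ ⊥)).Coprime p := by
  obtain ⟨e, -⟩ := ysub_equiv ψ
  have := Fintype.ofFinite K
  have := Fact.mk hp
  rw [← Nat.card_congr e, Module.natCard_eq_pow_finrank (K := K), Nat.card_eq_fintype_card]
  exact (hp.coprime_iff_not_dvd.2 fun h =>
    not_isUnit_prime_of_dvd_card h hK.isUnit).symm.pow_left _

theorem lev_mem [Finite K] {p : ℕ} (hp : p.Prime) {O : ValuationSubring ℂ}
    (hO : (p : ℂ) ∈ O.nonunits) (hK : (p : K) ≠ 0) (ψ : (A × B) ≃ₗ[K] V) {a : (A ≃ₗ[K] A) → ℂ}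
    {a' : (B ≃ₗ[K] B) → ℂ} (ha : ∀ h, a h ∈ O) (ha' : ∀ x, a' x ∈ O) (g : V ≃ₗ[K] V) :
    lev ψ a a' g ∈ O := by
  refine cv_mem (fun g => sum_mem fun x _ => ?_) (fun g => ?_) g <;> split_ifs
  exacts [mul_mem (ha _) (ha' _), zero_mem _, inv_mem_O hp hO (card_ysub hp hK ψ), zero_mem _]

theorem lev_idem (ψ : (A × B) ≃ₗ[K] V) {a : (A ≃ₗ[K] A) → ℂ} {a' : (B ≃ₗ[K] B) → ℂ}
    (ha : cv a a = a) (ha' : cv a' a' = a') : cv (lev ψ a a') (lev ψ a a') = lev ψ a a' := by
  classical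
  have := Fintype.ofFinite (Ysub ψ ⊥)
  suffices ∀ F : _ → ℂ, ∑ g, cv (lev ψ a a') (lev ψ a a') g * F g = ∑ g, lev ψ a a' g * F g from
    funext fun g => by simpa [Pi.single_apply] using this (Pi.single g 1)
  intro F
  obtain ⟨G, hG⟩ : ∃ G : _ → _ → ℂ, ∀ h x, G h x =
      (Nat.card (Ysub ψ ⊥) : ℂ)⁻¹ * ∑ u : Ysub ψ ⊥, F (emb ψ (h, x) * u) := ⟨_, fun _ _ => rfl⟩
  have k : ∀ h x (u : Ysub ψ ⊥), ∑ k, lev ψ a a' k * F (emb ψ (h, x) * u * k) =
      ∑ h', ∑ x', a h' * a' x' * G (h * h') (x * x') := fun h x u => by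
    rw [sum_lev]
    refine sum_congr rfl fun h' _ => sum_congr rfl fun x' _ => ?_
    rw [hG]
    refine congrArg _ (congrArg _ (Fintype.sum_equiv
      (Equiv.mulLeft ⟨_, emb_norm ψ (h', x')⁻¹ u.2⟩) _ _ fun v => congrArg F ?_))
    simp only [← Prod.mk_mul_mk, map_mul, Equiv.coe_mulLeft, Subgroup.coe_mul, map_inv]
    group
  have c : (Nat.card (Ysub ψ ⊥) : ℂ) ≠ 0 := Nat.cast_ne_zero.2 Nat.card_pos.ne'
  rw [ULevA_cv, sum_lev, sum_lev]
  simp only [← hG]
  simp only [k, sum_const, card_univ, nsmul_eq_mul, ← Nat.card_eq_fintype_card,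
    inv_mul_cancel_left₀ c]
  simp only [mul_assoc, ← mul_sum]
  conv_rhs => rw [← ha, ULevA_cv]
  refine sum_congr rfl fun h _ => congrArg _ ?_
  conv_rhs => enter [2, h']; rw [← ha', ULevA_cv]
  simp only [mul_sum]
  rw [sum_comm]
  exact sum_congr rfl fun _ _ => sum_congr rfl fun _ _ => sum_congr rfl fun _ _ =>
    mul_left_comm _ _ _

/-! ### Task PU LevB -/

theorem idem_nat {G : Type} [Group G] [Fintype G] {a χ : G → ℂ} (ha : cv a a = a) (hχ : χ ∈ Ch G) :
    ∃ k : ℕ, ∑ g, a g * χ g = k := by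
  obtain ⟨d, ρ, e⟩ := Ch.exists_rep hχ
  have hM : (∑ g, a g • ρ g) * (∑ g, a g • ρ g) = ∑ g, a g • ρ g := by
    conv_rhs => rw [← ha]
    simp only [cv, Finset.sum_smul]
    rw [Finset.sum_mul, Finset.sum_comm]
    refine Finset.sum_congr rfl fun h _ => ?_
    rw [Finset.mul_sum]
    refine Fintype.sum_equiv (Equiv.mulLeft h) _ _ fun g => ?_
    simp only [Equiv.coe_mulLeft, inv_mul_cancel_left, map_mul, smul_mul_smul_comm]
  have hp : LinearMap.IsProj (LinearMap.range (Matrix.toLin' (∑ g, a g • ρ g)))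
      (Matrix.toLin' (∑ g, a g • ρ g)) :=
    ⟨fun x => LinearMap.mem_range_self _ x, by
      rintro _ ⟨x, rfl⟩
      rw [← Matrix.toLin'_mul_apply, hM]⟩
  refine ⟨_, Eq.trans ?_ hp.trace⟩
  rw [Matrix.trace_toLin'_eq, Matrix.trace_sum]
  exact Finset.sum_congr rfl fun g _ => by rw [Matrix.trace_smul, e, smul_eq_mul]

variable [Finite K] [FiniteDimensional K A] [FiniteDimensional K B] [FiniteDimensional K V]

theorem avg_cg (ψ : (A × B) ≃ₗ[K] V) (f : HA K) (h : A ≃ₗ[K] A) (x : B ≃ₗ[K] B)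
    [Fintype (Ysub ψ ⊥)] :
    (Nat.card (Ysub ψ ⊥) : ℂ)⁻¹ * ∑ u : Ysub ψ ⊥, cg V f (emb ψ (h, x) * u) =
      del0 f (of ((LinearMap.GeneralLinearGroup.generalLinearEquiv K A).symm h))
        (of ((LinearMap.GeneralLinearGroup.generalLinearEquiv K B).symm x)) := by
  obtain ⟨u, hu⟩ := ysub_equiv ψ
  let e : (B →ₗ[K] A) ≃ (B →ₗ[K] A) := (h.congrRight (M := B)).toEquiv
  rw [del0, ← Nat.card_congr u]
  congr 1
  symm
  refine Fintype.sum_equiv (ι := (of ((LinearMap.GeneralLinearGroup.generalLinearEquiv K B).symm x)).V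
    →ₗ[K] (of ((LinearMap.GeneralLinearGroup.generalLinearEquiv K A).symm h)).V)
    (e.symm.trans u) _ _ fun S => ?_
  refine f.iso ⟨ψ, ?_⟩
  rintro ⟨a, b⟩
  change B →ₗ[K] A at S
  change A at a
  change B at b
  change ψ (h a + S b, x b) = emb ψ (h, x) ((u (e.symm S)).1 (ψ (a, b)))
  rw [hu, emb_apply, map_add]
  congr 3
  exact (h.apply_symm_apply _).symm

theorem lev_irr (ψ : (A × B) ≃ₗ[K] V) (a : (A ≃ₗ[K] A) → ℂ) (a' : (B ≃ₗ[K] B) → ℂ) (f : HA K) :
    ∑ g, lev ψ a a' g * cg V f g = ∑ η₁ ∈ irs K (finrank K A), ∑ η₂ ∈ irs K (finrank K B),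
      hn (finrank K A + finrank K B) f (η₁ * η₂) *
        ((∑ h, a h * cg A η₁ h) * ∑ x, a' x * cg B η₂ x) := by
  have := Fintype.ofFinite (Ysub ψ ⊥)
  rw [sum_lev]
  have e : ∀ (h : A ≃ₗ[K] A) (x : B ≃ₗ[K] B), a h * a' x *
      ((Nat.card (Ysub ψ ⊥) : ℂ)⁻¹ * ∑ u : Ysub ψ ⊥, cg V f (emb ψ (h, x) * u)) =
      ∑ η₁ ∈ irs K (finrank K A), ∑ η₂ ∈ irs K (finrank K B),
        hn (finrank K A + finrank K B) f (η₁ * η₂) * (a h * cg A η₁ h * (a' x * cg B η₂ x)) := by
    intro h x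
    rw [avg_cg, del0_expand, Finset.mul_sum]
    refine Finset.sum_congr rfl fun η₁ _ => ?_
    rw [Finset.mul_sum]
    refine Finset.sum_congr rfl fun η₂ _ => ?_
    change a h * a' x * (hn (finrank K A + finrank K B) f (η₁ * η₂) * (cg A η₁ h * cg B η₂ x)) = _
    ring
  refine (Finset.sum_congr rfl fun h _ => (Finset.sum_congr rfl fun x _ => e h x).trans
    Finset.sum_comm).trans (Finset.sum_comm.trans (Finset.sum_congr rfl fun η₁ _ => ?_))
  refine (Finset.sum_congr rfl fun h _ => Finset.sum_comm).trans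
    (Finset.sum_comm.trans (Finset.sum_congr rfl fun η₂ _ => ?_))
  rw [Finset.sum_mul_sum]
  simp only [Finset.mul_sum]

theorem irr_cg {η : HA K} (h : Irr (finrank K V) η) : cg V η ∈ irr (V ≃ₗ[K] V) :=
  irr_equiv (LinearMap.GeneralLinearGroup.generalLinearEquiv K V).symm h.cf

theorem exists_cg {φ : (V ≃ₗ[K] V) → ℂ} (h : φ ∈ irr (V ≃ₗ[K] V)) :
    ∃ η, Irr (finrank K V) η ∧ cg V η = φ := by
  have h1 := irr_equiv (LinearMap.GeneralLinearGroup.generalLinearEquiv K V) h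
  obtain ⟨f, h2, h3⟩ := exists_lift (irr_cl h1)
  refine ⟨f, ⟨h2, ?_⟩, funext fun g => ?_⟩
  · obtain ⟨e, he⟩ := cf_equiv (K := K) (V := Fin (finrank K V) → K) (W := V) (finrank_fin_fun K)
    rw [he f, h3]
    exact irr_equiv e h1
  · rw [cg_apply, h3]
    exact congrArg φ (MulEquiv.apply_symm_apply _ g)

theorem sum_irr (F : ((V ≃ₗ[K] V) → ℂ) → ℂ) : ∑ φ ∈ (irr_finite (V ≃ₗ[K] V)).toFinset, F φ =
    ∑ η ∈ irs K (finrank K V), F (cg V η) := by
  refine (Finset.sum_bij (fun η _ => cg V η)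
    (fun η h => (Set.Finite.mem_toFinset _).2 (irr_cg (mem_irs.1 h))) (fun η h η' h' e => ?_)
    (fun φ h => ?_) fun _ _ => rfl).symm
  · refine sub_eq_zero.1 (Hom_cf_inj (V := V) (fun M hM => ?_) (funext fun g => ?_))
    · rw [sub_val, (mem_irs.1 h).1 M hM, (mem_irs.1 h').1 M hM, sub_zero]
    · have := congrFun e (LinearMap.GeneralLinearGroup.generalLinearEquiv K V g)
      simp only [cg_apply, MulEquiv.symm_apply_apply] at this
      rw [map_sub, Pi.sub_apply, this, sub_self, Pi.zero_apply]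
  · obtain ⟨η, h1, h2⟩ := exists_cg ((Set.Finite.mem_toFinset _).1 h)
    exact ⟨η, mem_irs.2 h1, h2⟩

theorem sum_le_bitr {a : (V ≃ₗ[K] V) → ℂ} (ha : cv a a = a) :
    ∑ η ∈ irs K (finrank K V), ‖∑ g, a g * cg V η g‖ ≤ ‖bitr a a‖ := by
  have k : ∀ η : HA K, ∃ k : ℕ, η ∈ irs K (finrank K V) → ∑ g, a g * cg V η g = k := fun η => by
    by_cases h : η ∈ irs K (finrank K V)
    · exact (idem_nat ha (AddSubmonoid.subset_closure (irr_cg (mem_irs.1 h)))).imp fun _ e _ => e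
    · exact ⟨0, fun e => (h e).elim⟩
  choose k hk using k
  rw [bitr_eq, sum_irr fun χ => (∑ g, a g * χ g) * ∑ g, a g * χ g,
    Finset.sum_congr (g := fun η => (k η : ℝ)) rfl fun η h => by rw [hk η h, Complex.norm_natCast],
    Finset.sum_congr (g := fun η => ((k η * k η : ℕ) : ℂ)) rfl fun η h => by
      rw [hk η h, ← Nat.cast_mul], ← Nat.cast_sum, ← Nat.cast_sum,
    Complex.norm_natCast, Nat.cast_le]
  exact Finset.sum_le_sum fun η _ => Nat.le_mul_self _

theorem lev_bound (ψ : (A × B) ≃ₗ[K] V) {a : (A ≃ₗ[K] A) → ℂ} {a' : (B ≃ₗ[K] B) → ℂ}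
    (ha : cv a a = a) (ha' : cv a' a' = a') {φ : (V ≃ₗ[K] V) → ℂ} (h : φ ∈ irr (V ≃ₗ[K] V)) :
    ‖∑ g, lev ψ a a' g * φ g‖ ≤ (finrank K B).factorial * ‖bitr a a‖ * ‖bitr a' a'‖ := by
  obtain ⟨η, hη, rfl⟩ := exists_cg h
  rw [← ψ.finrank_eq, finrank_prod] at hη
  rw [lev_irr]
  refine le_trans ?_ (mul_le_mul (mul_le_mul_of_nonneg_left (sum_le_bitr ha) (Nat.cast_nonneg _))
    (sum_le_bitr ha') (Finset.sum_nonneg fun _ _ => norm_nonneg _) (by positivity))
  rw [mul_assoc, Finset.sum_mul_sum, Finset.mul_sum]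
  refine (norm_sum_le _ _).trans (Finset.sum_le_sum fun η₁ h₁ => ?_)
  rw [Finset.mul_sum]
  refine (norm_sum_le _ _).trans (Finset.sum_le_sum fun η₂ h₂ => ?_)
  rw [norm_mul, norm_mul]
  exact mul_le_mul_of_nonneg_right (lr hη (mem_irs.1 h₁) (mem_irs.1 h₂)) (by positivity)

end PD
end
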