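import Pool.Agent.Work.MP_cea1f0_al.D.Osi
import Mathlib

-- merged part: Pool.Agent.Work.MP_cea1f0_al.A2
section
/-! Primitive idempotents of augmentation one: existence, base change, uniqueness. -/

namespace Pool.Agent.Puig

open MonoidAlgebra Module

variable {F F' G : Type} [Field F] [Field F'] [Group G] [Finite G]

omit [Finite G] in
theorem a2_sub (x y : MonoidAlgebra F G) : aug (x - y) = aug x - aug y := by
  simp only [aug_eq, map_sub]

omit [Finite G] in
theorem a2_idem {e : MonoidAlgebra F G} (he : IsIdempotentElem e) : aug e = 0 ∨ aug e = 1 :=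
  IsIdempotentElem.iff_eq_zero_or_one.1 ((aug_mul e e).symm.trans (congrArg aug he))

omit [Finite G] in
theorem a2_diff {i e : MonoidAlgebra F G} (hi : IsIdempotentElem i) (he : IsIdempotentElem e)
    (h1 : i * e = e) (h2 : e * i = e) :
    IsIdempotentElem (i - e) ∧ i * (i - e) = i - e ∧ (i - e) * i = i - e := by
  refine ⟨?_, by rw [mul_sub, hi.eq, h1], by rw [sub_mul, hi.eq, h2]⟩
  rw [IsIdempotentElem, mul_sub, sub_mul, sub_mul, hi.eq, h1, h2, he.eq, sub_self, sub_zero]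

omit [Finite G] in
theorem a2_ne {i : MonoidAlgebra F G} (h : aug i = 1) : i ≠ 0 := fun e => by
  rw [e, aug_eq, map_zero] at h
  exact zero_ne_one h

omit [Finite G] in
theorem a2_not {x : MonoidAlgebra F G} (h : aug x = 1) : ¬ IsNilpotent x := fun k => by
  have := k.map (augH F G)
  rw [← aug_eq, h] at this
  exact not_isNilpotent_one this

/- PLAN: among the fixed idempotents of augmentation `1` (`1` is one) take `i` with `bim i 1`
minimal.  If `e` is a fixed idempotent below `i`, one of `e`, `i - e` has augmentation `1`, call it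
`f`; the range of left multiplication by `f` is contained in that of `i`, so equal, so `f * i = i`. -/
theorem exists_prim (F : Type) [Field F] (D : Subgroup G) :
    ∃ i : MonoidAlgebra F G, Prim D i ∧ aug i = 1 := by
  obtain ⟨i, ⟨h1, h2, h3⟩, hm⟩ := exists_minimalFor_of_wellFoundedLT
    (fun i : MonoidAlgebra F G => IsIdempotentElem i ∧ Fix D i ∧ aug i = 1)
    (fun i => LinearMap.range (LinearMap.mulLeft F i))
    ⟨1, IsIdempotentElem.one, (fixAlg F D).one_mem, aug_one⟩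
  have key : ∀ e, IsIdempotentElem e → Fix D e → aug e = 1 → i * e = e → e * i = i := by
    intro e k1 k2 k3 k4
    obtain ⟨y, hy⟩ := hm (j := e) ⟨k1, k2, k3⟩ (by
      rintro _ ⟨x, rfl⟩
      exact ⟨e * x, by rw [LinearMap.mulLeft_apply, LinearMap.mulLeft_apply, ← mul_assoc, k4]⟩)
      (⟨1, mul_one i⟩ : i ∈ LinearMap.range (LinearMap.mulLeft F i))
    rw [LinearMap.mulLeft_apply] at hy
    rw [← hy, ← mul_assoc, k1.eq]
  refine ⟨i, ⟨h1, a2_ne h3, h2, fun e k1 k2 k3 k4 => ?_⟩, h3⟩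
  rcases a2_idem k1 with k | k
  · obtain ⟨l1, l2, l3⟩ := a2_diff h1 k1 k3 k4
    exact Or.inl (sub_eq_self.1 (l3.symm.trans
      (key _ l1 ((fixAlg F D).sub_mem h2 k2) (by rw [a2_sub, h3, k, sub_zero]) l2)))
  · exact Or.inr (k4.symm.trans (key e k1 k2 k k3))

omit [Finite G] in
theorem aug_map (f : F →+* F') (x : MonoidAlgebra F G) : aug (mapRingHom G f x) = f (aug x) := by
  induction x using MonoidAlgebra.induction_linear with
  | zero => simp [aug_eq]
  | add x y hx hy => simp only [aug_eq, map_add] at *; rw [hx, hy]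
  | single g c => simp [aug_eq, augH]

omit [Finite G] in
theorem Fix.map {D : Subgroup G} {x : MonoidAlgebra F G} (h : Fix D x) (f : F →+* F') :
    Fix D (mapRingHom G f x) := by
  intro u hu
  simpa using congrArg (mapRingHom G f) (h u hu)

/- PLAN: a fixed element is a combination of the indicator functions of the `D`-conjugation orbits
(`fix_iff`); or choose a basis of `F'` over `F` and take coordinates. -/
theorem fix_span (f : F →+* F') {D : Subgroup G} {x : MonoidAlgebra F' G} (hx : Fix D x) :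
    x ∈ Submodule.span F' (mapRingHom G f '' {y | Fix D y}) := by
  classical
  have := Fintype.ofFinite G
  have e : x = ∑ c ∈ Finset.univ.image x.coeff, c • mapRingHom G f
      (.ofCoeff (Finsupp.equivFunOnFinite.symm fun g => if x.coeff g = c then 1 else 0)) := by
    ext g
    simp [apply_ite f]
  rw [e]
  refine Submodule.sum_mem _ fun c _ => Submodule.smul_mem _ _ (Submodule.subset_span ⟨_, ?_, rfl⟩)
  refine fix_iff.2 fun u hu g => ?_
  simp [fix_iff.1 hx u hu g]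

theorem a2_prod {R : Type} [Ring R] (J : Ideal R) (l : List R) (h : ∀ x ∈ l, x ∈ J) :
    l.prod ∈ J ^ l.length := by
  induction l using List.reverseRecOn with
  | nil => simp [Submodule.pow_zero]
  | append_singleton l a ih =>
    rw [List.prod_append, List.prod_singleton, List.length_append, List.length_singleton,
      Submodule.pow_succ]
    exact Submodule.mul_mem_mul (ih fun x hx => h x (by simp [hx])) (h a (by simp))

theorem a2_nil {D : Subgroup G} {i x y : MonoidAlgebra F G} (hi : Prim D i) (h1 : aug i = 1)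
    (hx : Fix D x) (hy : Fix D y) (h2 : i * x * i = x) (h3 : aug x = 0) : IsNilpotent (y * x) := by
  have e : y * x * i = y * x := by rw [← h2, mul_assoc, mul_assoc, hi.1.eq]
  rcases hi.fit (x := i * (y * x)) ((fixAlg F D).mul_mem hi.2.2.1 ((fixAlg F D).mul_mem hy hx))
    (by rw [← mul_assoc i i, hi.1.eq, mul_assoc, e]) with ⟨n, hn⟩ | ⟨z, -, -, k, -⟩
  · refine ⟨n + 1, ?_⟩
    rw [← e, pow_succ, ← mul_assoc, mul_pow_mul, hn, mul_zero, zero_mul]
  · rw [← k, aug_mul, aug_mul, aug_mul, h3] at h1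
    simp at h1

/- PLAN: in the Artinian ring `fixAlg F D` an `x` of the corner with `aug x = 0` lies in the
Jacobson radical: for fixed `a`, `i * a * x` is in the corner with augmentation `0`, so nilpotent
(`Prim.fit`, `aug_mul`), so `a * x` is nilpotent (`x = x * i`), so `1 - a * x` is a unit
(`Ideal.mem_jacobson_iff`, `IsNilpotent.isUnit_one_sub`); `IsArtinianRing.isNilpotent_jacobson_bot`.
Other route: induction on a composition series. -/
theorem Prim.nil_prod {D : Subgroup G} {i : MonoidAlgebra F G} (hi : Prim D i) (h1 : aug i = 1) :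
    ∃ r : ℕ, ∀ l : List (MonoidAlgebra F G), l.length = r →
      (∀ x ∈ l, Fix D x ∧ i * x * i = x ∧ aug x = 0) → l.prod = 0 := by
  have : IsArtinianRing (fixAlg F D) := IsArtinianRing.of_finite F _
  obtain ⟨r, hr⟩ := IsArtinianRing.isNilpotent_jacobson_bot (R := fixAlg F D)
  refine ⟨r, fun l hl h => ?_⟩
  lift l to List (fixAlg F D) using fun x hx => (h x hx).1
  have k := a2_prod (Ideal.jacobson (⊥ : Ideal (fixAlg F D))) l fun x hx => by
    obtain ⟨h2, h3, h4⟩ := h x (List.mem_map_of_mem hx)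
    refine Ideal.mem_jacobson_iff.2 fun y => ?_
    have k1 : IsNilpotent (y * x) :=
      (IsNilpotent.map_iff (f := (fixAlg F D).val) Subtype.val_injective).1
        (a2_nil hi h1 h2 y.2 h3 h4)
    obtain ⟨z, hz⟩ := k1.isUnit_add_one.exists_left_inv
    exact ⟨z, by rw [Ideal.mem_bot, ← hz, mul_add, mul_one, mul_assoc, sub_self]⟩
  rw [List.length_map] at hl
  rw [hl, hr] at k
  have k2 : l.prod = 0 := k
  have k3 := map_list_prod (fixAlg F D).val l
  rw [k2, map_zero] at k3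
  exact k3.symm

omit [Finite G] in
theorem a2_smul (f : F →+* F') (c : F) (x : MonoidAlgebra F G) :
    mapRingHom G f (c • x) = f c • mapRingHom G f x := by
  ext g
  simp

theorem a2_zero {D : Subgroup G} {i : MonoidAlgebra F G} (hi : Prim D i) (h1 : aug i = 1)
    (f : F →+* F') {x : MonoidAlgebra F' G} (hx : Fix D x)
    (h2 : mapRingHom G f i * x * mapRingHom G f i = x) (h3 : aug x = 0) : IsNilpotent x := by
  obtain ⟨r, hr⟩ := hi.nil_prod h1
  let S := mapRingHom G f '' {y | Fix D y ∧ i * y * i = y ∧ aug y = 0}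
  have k1 : ∀ z ∈ Submodule.span F' (mapRingHom G f '' {y | Fix D y}),
      mapRingHom G f i * z * mapRingHom G f i - aug z • mapRingHom G f i ∈ Submodule.span F' S := by
    intro z hz
    induction hz using Submodule.span_induction with
    | mem z hz =>
      obtain ⟨y, hy, rfl⟩ := hz
      refine Submodule.subset_span ⟨i * y * i - aug y • i, ⟨(fixAlg F D).sub_mem
        ((fixAlg F D).mul_mem ((fixAlg F D).mul_mem hi.2.2.1 hy) hi.2.2.1)
        ((fixAlg F D).smul_mem hi.2.2.1 _), ?_, ?_⟩, ?_⟩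
      · simp only [mul_sub, sub_mul, mul_smul_comm, smul_mul_assoc, ← mul_assoc, hi.1.eq]
        rw [mul_assoc _ i i, hi.1.eq]
      · rw [a2_sub, aug_mul, aug_mul, h1, aug_eq (_ • _), map_smul, ← aug_eq, h1]
        simp
      · rw [map_sub, map_mul, map_mul, a2_smul, aug_map]
    | zero => simp [aug_eq]
    | add y z _ _ hy hz =>
      convert add_mem hy hz using 1
      simp only [aug_eq, map_add, mul_add, add_mul, add_smul]
      abel
    | smul c z _ hz =>
      convert Submodule.smul_mem _ c hz using 1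
      simp only [aug_eq, map_smul, mul_smul_comm, smul_mul_assoc, smul_sub, smul_eq_mul, mul_smul]
  have k2 := k1 x (fix_span f hx)
  rw [h2, h3, zero_smul, sub_zero] at k2
  have k3 := Submodule.pow_mem_pow _ k2 r
  rw [Submodule.span_pow] at k3
  refine ⟨r, (Submodule.mem_bot F').1 (Submodule.span_le.2 (fun z hz => ?_) k3)⟩
  obtain ⟨v, rfl⟩ := Set.mem_pow.1 hz
  choose w hw hw' using fun k => (v k).2
  have k4 := congrArg (mapRingHom G f) (hr (List.ofFn w) (by simp) (by simpa using hw))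
  rw [map_list_prod, List.map_ofFn, map_zero] at k4
  rw [SetLike.mem_coe, Submodule.mem_bot, ← k4]
  exact congrArg (fun v => (List.ofFn v).prod) (funext fun k => (hw' k).symm)

/- PLAN: let `i' = map i`.  A fixed `x` in the corner of `i'` with `aug x = 0` lies in the span `N`
of the images of the `y` as in `Prim.nil_prod` (`fix_span`: `x = ∑ c • map (i * y * i)`, subtract
`aug y • i`); `N ^ r = 0` (`Submodule.span_pow`, `Set.mem_pow`, or multilinearity), so `x` is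
nilpotent.  An idempotent `e` below `i'` has `aug e = 0`, then `e = 0`, or `aug e = 1`, then
`i' - e = 0`. -/
theorem Prim.map {D : Subgroup G} {i : MonoidAlgebra F G} (hi : Prim D i) (h1 : aug i = 1)
    (f : F →+* F') : Prim D (mapRingHom G f i) := by
  have h2 : aug (mapRingHom G f i) = 1 := by rw [aug_map, h1, map_one]
  have h3 := hi.1.map (mapRingHom G f)
  refine ⟨h3, a2_ne h2, hi.2.2.1.map f, fun e k1 k2 k3 k4 => ?_⟩
  rcases a2_idem k1 with k | k
  · exact Or.inl (k1.eq_zero_of_isNilpotent (a2_zero hi h1 f k2 (by rw [k3, k4]) k))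
  · obtain ⟨l1, l2, l3⟩ := a2_diff h3 k1 k3 k4
    exact Or.inr (sub_eq_zero.1 (l1.eq_zero_of_isNilpotent (a2_zero hi h1 f
      ((fixAlg F' D).sub_mem (hi.2.2.1.map f) k2) (by rw [l2, l3])
      (by rw [a2_sub, h2, k, sub_self])))).symm

/- PLAN: through `coeff` the families are families of functions `G → F`;
`linearIndependent_algebraMap_comp_iff` with `f.toAlgebra`. -/
theorem linInd_map (f : F →+* F') {α : Type} [Finite α] {v : α → MonoidAlgebra F G}
    (h : LinearIndependent F v) : LinearIndependent F' fun a => mapRingHom G f (v a) := by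
  let := f.toAlgebra
  have k := h.map' ((Finsupp.linearEquivFunOnFinite F F G).toLinearMap ∘ₗ
    (coeffLinearEquiv F).toLinearMap) (by simp)
  refine LinearIndependent.of_comp ((Finsupp.linearEquivFunOnFinite F' F' G).toLinearMap ∘ₗ
    (coeffLinearEquiv F').toLinearMap) ?_
  have k2 := (linearIndependent_algebraMap_comp_iff (S := F')).2 k
  exact (congrArg (fun w : α → G → F' => LinearIndependent F' w) (funext fun a => funext fun g =>
    coeff_mapRingHom f (v a) g)).mpr k2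

theorem bim_le_map (f : F →+* F') (a b : MonoidAlgebra F G) :
    bim a b ≤ bim (mapRingHom G f a) (mapRingHom G f b) := by
  let W := LinearMap.range (LinearMap.mulLeftRight F (a, b))
  have k := linInd_map f ((finBasis F W).linearIndependent.map' W.subtype W.ker_subtype)
  have m : ∀ j, mapRingHom G f ((finBasis F W j : W) : MonoidAlgebra F G) ∈
      LinearMap.range (LinearMap.mulLeftRight F' (mapRingHom G f a, mapRingHom G f b)) := by
    intro j
    obtain ⟨x, hx⟩ := (finBasis F W j).2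
    exact ⟨mapRingHom G f x, by
      rw [← hx, LinearMap.mulLeftRight_apply, LinearMap.mulLeftRight_apply, map_mul, map_mul]⟩
  have k2 := (LinearIndependent.of_comp (v := fun j => (⟨_, m j⟩ : LinearMap.range _))
    (Submodule.subtype _) k).fintype_card_le_finrank
  rwa [Fintype.card_fin] at k2

omit [Finite G] in
theorem a2_iso {P A : Type} [Group P] [Ring A] [Algebra F A] {α : P →* Aˣ}
    {D : Subgroup G} {i j a b : MonoidAlgebra F G} (ha : Fix D a) (hi : Fix D i) (h1 : a * b = i)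
    (h2 : b * a = j) (h3 : a * j = a) (h4 : j * b = b) (h : IsoSrc α D j) : IsoSrc α D i := by
  obtain ⟨φ, Φ, k1, k2, k3⟩ := h
  have hΦ : ∀ x, j * Φ x * j = Φ x := fun x => (k2 ▸ ⟨x, rfl⟩ : Φ x ∈ {x | j * x * j = x})
  have e1 : ∀ z, b * (a * z) = j * z := fun z => by rw [← mul_assoc, h2]
  have e2 : ∀ z, a * (j * z) = a * z := fun z => by rw [← mul_assoc, h3]
  have e3 : ∀ z, j * (b * z) = b * z := fun z => by rw [← mul_assoc, h4]
  have e4 : ∀ z, a * (b * z) = i * z := fun z => by rw [← mul_assoc, h1]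
  have hj : j * j = j := by rw [← e1, h3, h2]
  have e5 : ∀ x z, Φ x * (j * z) = Φ x * z := fun x z => by
    rw [← hΦ x, mul_assoc _ j, ← mul_assoc j j, hj, mul_assoc _ j z]
  refine ⟨φ, ⟨⟨⟨fun x => a * Φ x * b, fun c x => by simp⟩, by simp,
    fun x y => by simp [mul_add, add_mul]⟩, fun x y => ?_⟩, fun x y e => k1 ?_,
    Set.ext fun z => ⟨?_, fun hz => ?_⟩, fun u => ?_⟩
  · simp only [map_mul, mul_assoc, e1, e5]
  · have e' : a * Φ x * b = a * Φ y * b := e
    have := congrArg (fun z => b * z * a) e'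
    simp only [mul_assoc, e1, h2] at this
    rwa [← mul_assoc, ← mul_assoc, hΦ, hΦ] at this
  · rintro ⟨x, rfl⟩
    change i * (a * Φ x * b) * i = a * Φ x * b
    simp only [← h1, mul_assoc, e1, e2, h4]
  · obtain ⟨x, hx⟩ : b * z * a ∈ Set.range Φ := by
      rw [k2]
      change j * (b * z * a) * j = b * z * a
      simp only [mul_assoc, e3, h3]
    refine ⟨x, ?_⟩
    change a * Φ x * b = z
    rw [hx]
    simp only [mul_assoc, e4, h1]
    rw [← mul_assoc]
    exact hz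
  · change a * Φ (α u : A) * b = _
    rw [k3, e2, ← ha _ (φ u).2, mul_assoc, h1, hi _ (φ u).2]

/- PLAN: `i * j * i` is fixed, in the corner of `i`, of augmentation `1`: `Prim.fit` gives an inverse
`y`.  With `a = i * j`, `a' = j * i * y`: `a * a' = i`; `a' * a` is a fixed idempotent below `j`
of augmentation `1`, so equal to `j`.  Compose `Φ` with `x ↦ a * x * a'` (multiplicative on the
corner of `j`). -/
theorem IsoSrc.of_prim {P A : Type} [Group P] [Ring A] [Algebra F A] {α : P →* Aˣ}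
    {D : Subgroup G} {i j : MonoidAlgebra F G} (hi : Prim D i) (hj : Prim D j) (h1 : aug i = 1)
    (h2 : aug j = 1) (h : IsoSrc α D j) : IsoSrc α D i := by
  have fi := hi.2.2.1
  have fj := hj.2.2.1
  have e1 : ∀ z, i * (i * z) = i * z := fun z => by rw [← mul_assoc, hi.1.eq]
  have e2 : ∀ z, j * (j * z) = j * z := fun z => by rw [← mul_assoc, hj.1.eq]
  obtain ⟨y, k1, k2, k3, -⟩ := (hi.fit (x := i * j * i)
    ((fixAlg F D).mul_mem ((fixAlg F D).mul_mem fi fj) fi)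
    (by simp only [mul_assoc, e1, hi.1.eq])).resolve_left
    (a2_not (by rw [aug_mul, aug_mul, h1, h2, one_mul, one_mul]))
  have e3 : i * j * (j * i * y) = i := by simpa only [mul_assoc, e2] using k3
  have e4 : aug y = 1 := by
    have := congrArg aug k3
    rwa [aug_mul, aug_mul, aug_mul, h1, h2, one_mul, one_mul, one_mul] at this
  refine a2_iso ((fixAlg F D).mul_mem fi fj) fi e3 ?_ (by rw [mul_assoc, hj.1.eq])
    (by simp only [mul_assoc, e2]) h
  refine (hj.2.2.2 _ ?_ ((fixAlg F D).mul_mem ((fixAlg F D).mul_mem ((fixAlg F D).mul_mem fj fi) k1)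
    ((fixAlg F D).mul_mem fi fj)) (by simp only [mul_assoc, e2])
    (by simp only [mul_assoc, hj.1.eq])).resolve_left
    (a2_ne (by simp only [aug_mul, h1, h2, e4, mul_one]))
  rw [IsIdempotentElem, mul_assoc, ← mul_assoc (i * j), e3, e1]

end Pool.Agent.Puig
end

-- merged part: Pool.Agent.Work.MP_cea1f0_al.G0
section
/-! Primitive idempotents of a subalgebra of a finite-dimensional algebra. -/

namespace Pool.Agent.Puig

open Module

section
variable {F A : Type} [Field F] [Ring A] [Algebra F A]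

/-- `i` is a primitive idempotent of the subalgebra `B`. -/
def PrimIn (B : Subalgebra F A) (i : A) : Prop :=
  IsIdempotentElem i ∧ i ≠ 0 ∧ i ∈ B ∧
    ∀ e, IsIdempotentElem e → e ∈ B → i * e = e → e * i = e → e = 0 ∨ e = i

theorem g0_l {i x : A} (hi : IsIdempotentElem i) (h : i * x * i = x) : i * x = x := by
  rw [← h, ← mul_assoc, ← mul_assoc, hi.eq]

theorem g0_r {i x : A} (hi : IsIdempotentElem i) (h : i * x * i = x) : x * i = x := by
  rw [← h, mul_assoc, hi.eq]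

theorem g0_zero {i x u : A} (h1 : x * i = x) (h2 : x * u = i) (h : IsNilpotent x) : i = 0 := by
  obtain ⟨n, hn⟩ := h
  have k : ∀ m, x ^ (m + 1) * u ^ (m + 1) = i := fun m => by
    induction m with
    | zero => rwa [zero_add, pow_one, pow_one]
    | succ m ih => rw [pow_succ' x, pow_succ u, mul_assoc, ← mul_assoc (x ^ _), ih, ← mul_assoc,
        h1, h2]
  rw [← k n, pow_succ x, hn, zero_mul, zero_mul]

theorem g0_below {ι : Type} [Fintype ι] {i : ι → A} (h1 : ∀ a, IsIdempotentElem (i a))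
    (h2 : ∀ a b, a ≠ b → i a * i b = 0) (a : ι) :
    i a * ∑ b, i b = i a ∧ (∑ b, i b) * i a = i a := by
  rw [Finset.mul_sum, Finset.sum_mul, Fintype.sum_eq_single a fun b h => h2 a b h.symm,
    Fintype.sum_eq_single a fun b h => h2 b a h]
  exact ⟨h1 a, h1 a⟩

variable [FiniteDimensional F A] {B : Subalgebra F A}

/- PLAN: copy the proof of `Prim.fit` in `B1a.lean`. -/
theorem PrimIn.fit {i x : A} (hi : PrimIn B i) (hx : x ∈ B) (hxi : i * x * i = x) :
    IsNilpotent x ∨ ∃ y, y ∈ B ∧ i * y * i = y ∧ x * y = i ∧ y * x = i := by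
  obtain ⟨n, r, hr⟩ := b1a_fit (F := F) x
  set y := Polynomial.aeval x r with hy
  obtain ⟨h1, -, h3, h4⟩ := hi
  have hix := g0_l h1 hxi
  have hxi' := g0_r h1 hxi
  have cxy : Commute x y := b1a_comm (Commute.refl x) r
  have cix : Commute i x := hix.trans hxi'.symm
  have ciy : Commute i y := b1a_comm cix r
  have hyD : y ∈ B := Algebra.adjoin_le (S := B) (Set.singleton_subset_iff.2 hx)
    (Polynomial.aeval_mem_adjoin_singleton F x)
  have key : x ^ (n + 1) * (x ^ (n + 1) * y ^ (n + 1)) = x ^ (n + 1) :=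
    calc x ^ (n + 1) * (x ^ (n + 1) * y ^ (n + 1)) = x * (x ^ (n + (n + 1)) * y ^ (n + 1)) := by
          rw [pow_add x n (n + 1), pow_succ' x n]
          simp only [mul_assoc]
      _ = x ^ (n + 1) := by rw [b1a_pow hr (n + 1), pow_succ']
  have cpw : x ^ (n + 1) * y ^ (n + 1) = y ^ (n + 1) * x ^ (n + 1) := (cxy.pow_pow _ _).eq
  have he : IsIdempotentElem (x ^ (n + 1) * y ^ (n + 1)) :=
    calc x ^ (n + 1) * y ^ (n + 1) * (x ^ (n + 1) * y ^ (n + 1))
        = y ^ (n + 1) * (x ^ (n + 1) * (x ^ (n + 1) * y ^ (n + 1))) := by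
          rw [← mul_assoc (y ^ (n + 1)), ← cpw]
      _ = x ^ (n + 1) * y ^ (n + 1) := by rw [key, cpw]
  have hie : i * (x ^ (n + 1) * y ^ (n + 1)) = x ^ (n + 1) * y ^ (n + 1) := by
    rw [← mul_assoc, pow_succ' x, ← mul_assoc, hix]
  have cie : Commute i (x ^ (n + 1) * y ^ (n + 1)) := (cix.pow_right _).mul_right (ciy.pow_right _)
  refine (h4 _ he (mul_mem (pow_mem hx _) (pow_mem hyD _)) hie (cie.eq.symm.trans hie)).imp
    (fun h => ⟨n + 1, by rw [← key, h, mul_zero]⟩) fun h => ?_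
  have cz : Commute x (x ^ n * y ^ (n + 1)) :=
    ((Commute.refl x).pow_right _).mul_right (cxy.pow_right _)
  have hz : x * (x ^ n * y ^ (n + 1)) = i := by rw [← mul_assoc, ← pow_succ', h]
  refine ⟨i * (x ^ n * y ^ (n + 1)) * i,
    mul_mem (mul_mem h3 (mul_mem (pow_mem hx _) (pow_mem hyD _))) h3, ?_, ?_, ?_⟩
  · rw [← mul_assoc, ← mul_assoc, h1.eq, mul_assoc _ i i, h1.eq]
  · rw [← mul_assoc, ← mul_assoc, hxi', hz, h1.eq]
  · rw [mul_assoc, hix, mul_assoc, ← cz.eq, hz, h1.eq]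

theorem g0_mul {i x w : A} (hi : PrimIn B i) (hx : x ∈ B) (hxi : i * x * i = x) (hw : w ∈ B)
    (h : IsNilpotent x) : IsNilpotent (x * (w * i)) :=
  (hi.fit (mul_mem hx (mul_mem hw hi.2.2.1)) (by
    rw [← mul_assoc i, g0_l hi.1 hxi, mul_assoc, mul_assoc, hi.1.eq])).resolve_right
    fun ⟨_, _, _, k, _⟩ => hi.2.1 (g0_zero (g0_r hi.1 hxi) ((mul_assoc _ _ _).symm.trans k) h)

/- PLAN: otherwise `(x + y) * w = i`; `x * w` is not invertible in the corner (`x` is nilpotent),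
so nilpotent, so `y * w = i - x * w` is invertible in the corner, but `y` is nilpotent. -/
theorem PrimIn.nil_add {i x y : A} (hi : PrimIn B i) (hx : x ∈ B) (hxi : i * x * i = x)
    (hy : y ∈ B) (hyi : i * y * i = y) (h1 : IsNilpotent x) (h2 : IsNilpotent y) :
    IsNilpotent (x + y) := by
  refine (hi.fit (add_mem hx hy) (by rw [mul_add, add_mul, hxi, hyi])).resolve_right
    fun ⟨w, k1, k2, k3, _⟩ => hi.2.1 ?_
  have k := g0_mul hi hx hxi k1 h1
  rw [g0_r hi.1 k2] at k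
  obtain ⟨z, hz⟩ := k.isUnit_one_sub.exists_right_inv
  refine g0_zero (u := w * z) (g0_r hi.1 hyi) ?_ h2
  rw [← mul_assoc, eq_sub_of_add_eq' ((add_mul x y w).symm.trans k3), ← g0_l hi.1 hxi, mul_assoc i,
    ← mul_one_sub, mul_assoc, hz, mul_one]

theorem PrimIn.nil_sum {ι : Type} {i : A} (hi : PrimIn B i) (s : Finset ι) {x : ι → A}
    (hx : ∀ a ∈ s, x a ∈ B ∧ i * x a * i = x a ∧ IsNilpotent (x a)) :
    IsNilpotent (∑ a ∈ s, x a) :=
  (Finset.sum_induction x (fun z => z ∈ B ∧ i * z * i = z ∧ IsNilpotent z)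
    (fun _ _ ⟨a1, a2, a3⟩ ⟨b1, b2, b3⟩ => ⟨add_mem a1 b1, by rw [mul_add, add_mul, a2, b2],
      hi.nil_add a1 a2 b1 b2 a3 b3⟩)
    ⟨zero_mem _, by rw [mul_zero, zero_mul], IsNilpotent.zero⟩ hx).2.2

/- PLAN: strong induction on the rank of left multiplication by `j`; if `j ≠ 0` is not primitive,
`j = e + (j - e)`; glue the two families (`Fin.append`, or use a `Sum` type and `Fintype.equivFin`). -/
theorem exists_decIn {j : A} (hj : IsIdempotentElem j) (hB : j ∈ B) :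
    ∃ (n : ℕ) (i : Fin n → A), (∀ a, PrimIn B (i a)) ∧ (∀ a b, a ≠ b → i a * i b = 0) ∧
      ∑ a, i a = j := by
  suffices ∃ (ι : Type) (_ : Fintype ι) (i : ι → A), (∀ a, PrimIn B (i a)) ∧
      (∀ a b, a ≠ b → i a * i b = 0) ∧ ∑ a, i a = j by
    obtain ⟨ι, _, i, h1, h2, h3⟩ := this
    exact ⟨_, i ∘ (Fintype.equivFin ι).symm, fun a => h1 _,
      fun a b h => h2 _ _ ((Equiv.injective _).ne h), (Equiv.sum_comp _ i).trans h3⟩
  induction h : LinearMap.range (LinearMap.mulLeft F j) using WellFoundedLT.induction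
    generalizing j with | ind W ih => ?_
  subst h
  by_cases h0 : j = 0
  · exact ⟨Empty, inferInstance, Empty.elim, fun a => a.elim, fun a => a.elim, by simp [h0]⟩
  by_cases h1 : PrimIn B j
  · exact ⟨Unit, inferInstance, fun _ => j, fun _ => h1, fun _ _ h => (h rfl).elim, by simp⟩
  obtain ⟨e, k1, k2, k3, k4, k5⟩ : ∃ e, IsIdempotentElem e ∧ e ∈ B ∧ j * e = e ∧ e * j = e ∧
      ¬ (e = 0 ∨ e = j) := by
    by_contra k
    exact h1 ⟨hj, h0, hB, fun e a b c d => by_contra fun f => k ⟨e, a, b, c, d, f⟩⟩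
  have lt : ∀ f, IsIdempotentElem f → j * f = f → f * j = f → f ≠ j →
      LinearMap.range (LinearMap.mulLeft F f) < LinearMap.range (LinearMap.mulLeft F j) := by
    refine fun f a b c d => lt_of_le_not_ge ?_ fun k => ?_
    · rintro _ ⟨x, rfl⟩
      exact ⟨f * x, (mul_assoc _ _ _).symm.trans (congrArg (· * x) b)⟩
    · obtain ⟨y, hy⟩ := k ⟨1, mul_one j⟩
      rw [LinearMap.mulLeft_apply] at hy
      exact d (by rw [← c, ← hy, ← mul_assoc, a.eq])
  have l1 : e * (j - e) = 0 := by rw [mul_sub, k4, k1.eq, sub_self]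
  have l2 : (j - e) * e = 0 := by rw [sub_mul, k3, k1.eq, sub_self]
  have l3 : j * (j - e) = j - e := by rw [mul_sub, hj.eq, k3]
  have l4 : IsIdempotentElem (j - e) := by rw [IsIdempotentElem, sub_mul, l1, l3, sub_zero]
  obtain ⟨ι, _, i, a1, a2, a3⟩ := ih _ (lt e k1 k3 k4 fun a => k5 (.inr a)) k1 k2 rfl
  obtain ⟨κ, _, i', b1, b2, b3⟩ := ih _ (lt _ l4 l3 (by rw [sub_mul, hj.eq, k4])
    fun a => k5 (.inl (sub_eq_self.1 a))) l4 (sub_mem hB k2) rfl
  have a4 := g0_below (fun a => (a1 a).1) a2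
  have b4 := g0_below (fun a => (b1 a).1) b2
  rw [a3] at a4
  rw [b3] at b4
  refine ⟨ι ⊕ κ, inferInstance, Sum.elim i i', Sum.forall.2 ⟨a1, b1⟩, ?_, by simp [a3, b3]⟩
  rintro (a | a) (b | b) h
  · exact a2 a b fun k => h (congrArg _ k)
  · show i a * i' b = 0
    rw [← (a4 a).1, ← (b4 b).2, mul_assoc, ← mul_assoc e, l1, zero_mul, mul_zero]
  · show i' a * i b = 0
    rw [← (b4 a).1, ← (a4 b).2, mul_assoc, ← mul_assoc _ e, l2, zero_mul, mul_zero]
  · exact b2 a b fun k => h (congrArg _ k)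

/- PLAN: `z = i * x * j * y * i` has an inverse `w` in the corner; `a = i * x * j`,
`a' = j * y * i * w`; `a' * a` is a non-zero idempotent below `j`. -/
theorem PrimIn.eqv {i j x y : A} (hi : PrimIn B i) (hj : PrimIn B j) (hx : x ∈ B) (hy : y ∈ B)
    (h : ¬ IsNilpotent (i * x * j * y * i)) :
    ∃ a ∈ B, ∃ a' ∈ B, a * a' = i ∧ a' * a = j ∧ a * j = a ∧ j * a' = a' := by
  have fi := hi.2.2.1
  have fj := hj.2.2.1
  have e1 : ∀ z, i * (i * z) = i * z := fun z => by rw [← mul_assoc, hi.1.eq]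
  have e2 : ∀ z, j * (j * z) = j * z := fun z => by rw [← mul_assoc, hj.1.eq]
  have m1 := mul_mem (mul_mem fi hx) fj
  obtain ⟨w, k1, -, k3, -⟩ := (hi.fit (mul_mem (mul_mem m1 hy) fi)
    (by simp only [mul_assoc, e1, hi.1.eq])).resolve_left h
  have m2 := mul_mem (mul_mem (mul_mem fj hy) fi) k1
  have e3 : i * x * j * (j * y * i * w) = i := by simpa only [mul_assoc, e2] using k3
  refine ⟨_, m1, _, m2, e3, (hj.2.2.2 _ ?_ (mul_mem m2 m1) (by simp only [mul_assoc, e2])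
    (by simp only [mul_assoc, hj.1.eq])).resolve_left fun k => hi.2.1 ?_,
    by rw [mul_assoc, hj.1.eq], by simp only [mul_assoc, e2]⟩
  · rw [IsIdempotentElem, mul_assoc, ← mul_assoc (i * x * j), e3, mul_assoc i, e1]
  · calc i = i * x * j * (j * y * i * w) * (i * x * j * (j * y * i * w)) := by rw [e3, hi.1.eq]
      _ = 0 := by rw [mul_assoc, ← mul_assoc (j * y * i * w), k, zero_mul, mul_zero]

/- PLAN: `x` is integral; if all `x - c • i` were invertible in the corner, so would be the product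
over the roots `c` of the minimal polynomial; or take an eigenvalue of left multiplication by `x`
on the range of left multiplication by `i`. -/
theorem PrimIn.split [IsAlgClosed F] {i x : A} (hi : PrimIn B i) (hx : x ∈ B)
    (hxi : i * x * i = x) : ∃ c : F, IsNilpotent (x - c • i) := by
  let W := LinearMap.eqLocus (LinearMap.mulLeft F i) LinearMap.id
  have : Nontrivial W := ⟨⟨i, hi.1⟩, 0, fun k => hi.2.1 (congrArg Subtype.val k)⟩
  obtain ⟨c, hc⟩ := Module.End.exists_eigenvalue ((LinearMap.mulLeft F x).restrict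
    (p := W) (q := W) fun v _ => (mul_assoc i x v).symm.trans (congrArg (· * v) (g0_l hi.1 hxi)))
  obtain ⟨v, hv⟩ := hc.exists_hasEigenvector
  have h1 : x * v = c • (v : A) := congrArg Subtype.val hv.apply_eq_smul
  have h2 : i * v = v := v.2
  refine ⟨c, (hi.fit (sub_mem hx (B.smul_mem hi.2.2.1 c)) ?_).resolve_right
    fun ⟨w, _, _, _, k⟩ => hv.2 (Subtype.ext ?_)⟩
  · rw [mul_sub, sub_mul, hxi, mul_smul_comm, smul_mul_assoc, hi.1.eq, hi.1.eq]
  · rw [← h2, ← k, mul_assoc, sub_mul, smul_mul_assoc, h1, h2, sub_self, mul_zero]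
    rfl

/- PLAN: as `Prim.nil_prod` in `A2.lean`: such `x` lie in the Jacobson radical of `B`. -/
theorem PrimIn.nil_prod {i : A} (hi : PrimIn B i) :
    ∃ r : ℕ, ∀ l : List A, l.length = r →
      (∀ x ∈ l, x ∈ B ∧ i * x * i = x ∧ IsNilpotent x) → l.prod = 0 := by
  have : IsArtinianRing B := IsArtinianRing.of_finite F _
  obtain ⟨r, hr⟩ := IsArtinianRing.isNilpotent_jacobson_bot (R := B)
  refine ⟨r, fun l hl h => ?_⟩
  lift l to List B using fun x hx => (h x hx).1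
  have k := a2_prod (Ideal.jacobson (⊥ : Ideal B)) l fun x hx => by
    obtain ⟨h2, h3, h4⟩ := h x (List.mem_map_of_mem hx)
    refine Ideal.mem_jacobson_iff.2 fun y => ?_
    obtain ⟨n, hn⟩ := g0_mul hi h2 h3 y.2 h4
    have k1 : IsNilpotent (y * x) :=
      (IsNilpotent.map_iff (f := B.val) Subtype.val_injective).1 ⟨n + 1, by
        show ((y : A) * x) ^ (n + 1) = 0
        rw [← g0_l hi.1 h3, ← mul_assoc, pow_succ, ← mul_assoc, mul_pow_mul, hn, mul_zero,
          zero_mul]⟩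
    obtain ⟨z, hz⟩ := k1.isUnit_add_one.exists_left_inv
    exact ⟨z, by rw [Ideal.mem_bot, ← hz, mul_add, mul_one, mul_assoc, sub_self]⟩
  rw [List.length_map] at hl
  rw [hl, hr] at k
  have k2 : l.prod = 0 := k
  have k3 := map_list_prod B.val l
  rw [k2, map_zero] at k3
  exact k3.symm

end

section
variable {F G : Type} [Field F] [Group G]

theorem prim_iff {D : Subgroup G} {i : MonoidAlgebra F G} : Prim D i ↔ PrimIn (fixAlg F D) i :=
  Iff.rfl

theorem Prim.isBlock {b : MonoidAlgebra F G} (h : Prim ⊤ b) : IsBlock b := by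
  have hb := fix_top_iff.1 h.2.2.1
  refine ⟨h.1, h.2.1, hb, fun c h1 h2 => h.2.2.2 _ (h1.mul_of_commute (hb c) h.1)
    ((fixAlg F ⊤).mul_mem (fix_top_iff.2 h2) h.2.2.1) ?_ (by rw [mul_assoc, h.1.eq])⟩
  rw [← hb, mul_assoc, h.1.eq]

/-- Equivalent idempotents. -/
def Eqv (i j : MonoidAlgebra F G) : Prop := ∃ a a', a * a' = i ∧ a' * a = j

theorem Eqv.symm {i j : MonoidAlgebra F G} (h : Eqv i j) : Eqv j i :=
  let ⟨a, a', h1, h2⟩ := h; ⟨a', a, h2, h1⟩

theorem g0_rank {i i' j j' : MonoidAlgebra F G} (hi : IsIdempotentElem i) (hj : IsIdempotentElem j)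
    (h1 : Eqv i i') (h2 : Eqv j j') :
    Module.rank F (LinearMap.range (LinearMap.mulLeftRight F (i, j))) ≤
      Module.rank F (LinearMap.range (LinearMap.mulLeftRight F (i', j'))) := by
  obtain ⟨a, a', rfl, rfl⟩ := h1
  obtain ⟨b, b', rfl, rfl⟩ := h2
  refine LinearMap.rank_le_of_injective ((LinearMap.mulLeftRight F (a', b)).restrict ?_)
    ((injective_iff_map_eq_zero _).2 ?_)
  · rintro _ ⟨u, rfl⟩
    exact ⟨a' * u * b, by simp only [LinearMap.mulLeftRight_apply, mul_assoc]⟩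
  · rintro ⟨_, u, rfl⟩ h
    have k : a' * (a * a' * u * (b * b')) * b = 0 := congrArg Subtype.val h
    refine Subtype.ext (show a * a' * u * (b * b') = 0 from ?_)
    calc a * a' * u * (b * b') = a * a' * (a * a') * u * (b * b' * (b * b')) := by
          rw [hi.eq, hj.eq]
      _ = a * (a' * (a * a' * u * (b * b')) * b) * b' := by simp only [mul_assoc]
      _ = 0 := by rw [k, mul_zero, zero_mul]

/- PLAN: `x ↦ a' * x * b` and `y ↦ a * y * b'` are inverse to each other on the two ranges. -/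
theorem bim_eqv {i i' j j' : MonoidAlgebra F G} (hi : IsIdempotentElem i)
    (hi' : IsIdempotentElem i') (hj : IsIdempotentElem j) (hj' : IsIdempotentElem j')
    (h1 : Eqv i i') (h2 : Eqv j j') : bim i j = bim i' j' :=
  congrArg Cardinal.toNat (le_antisymm (g0_rank hi hj h1 h2) (g0_rank hi' hj' h1.symm h2.symm))

variable [Finite G]

theorem bim_pos {i : MonoidAlgebra F G} (hi : IsIdempotentElem i) (h : i ≠ 0) : 0 < bim i i :=
  Nat.pos_of_ne_zero fun e => h ((Submodule.eq_bot_iff _).1 (Submodule.finrank_eq_zero.1 e) i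
    ⟨1, by rw [LinearMap.mulLeftRight_apply, mul_one, hi.eq]⟩)

theorem bim_sum_le {ι : Type} (s : Finset ι) (x : ι → MonoidAlgebra F G) :
    bim (∑ a ∈ s, x a) (∑ a ∈ s, x a) ≤ ∑ a ∈ s, ∑ b ∈ s, bim (x a) (x b) := by
  have k := fun (f : ι → End F (MonoidAlgebra F G)) => Finset.le_sum_of_subadditive
    (fun f : End F (MonoidAlgebra F G) => finrank F (LinearMap.range f)) (by simp)
    (fun f g => (Submodule.finrank_mono (LinearMap.range_add_le f g)).trans
      (Submodule.finrank_add_le_finrank_add_finrank _ _)) s f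
  have e : LinearMap.mulLeftRight F (∑ a ∈ s, x a, ∑ a ∈ s, x a) =
      ∑ a ∈ s, ∑ b ∈ s, LinearMap.mulLeftRight F (x a, x b) := LinearMap.ext fun u => by
    simp only [LinearMap.sum_apply, LinearMap.mulLeftRight_apply, Finset.sum_mul, Finset.mul_sum]
    exact Finset.sum_comm
  rw [bim, e]
  exact (k _).trans (Finset.sum_le_sum fun a _ => k _)

/- PLAN: the map from the range for `(j, j)` to the product of the ranges, `z ↦ x a * z * x b`, is
onto. -/
theorem bim_sum_ge {ι : Type} (s : Finset ι) {x : ι → MonoidAlgebra F G} {j : MonoidAlgebra F G}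
    (h1 : ∀ a ∈ s, IsIdempotentElem (x a)) (h2 : ∀ a ∈ s, ∀ b ∈ s, a ≠ b → x a * x b = 0)
    (h3 : ∀ a ∈ s, j * x a = x a ∧ x a * j = x a) :
    ∑ a ∈ s, ∑ b ∈ s, bim (x a) (x b) ≤ bim j j := by
  have k := LinearMap.finrank_le_finrank_of_surjective
    (f := (LinearMap.pi fun p : s × s => (LinearMap.mulLeftRight F (x p.1, x p.2)).rangeRestrict) ∘ₗ
      (LinearMap.range (LinearMap.mulLeftRight F (j, j))).subtype) fun z => by
    choose u hu using fun p => (z p).2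
    refine ⟨⟨_, ∑ p : s × s, x p.1 * u p * x p.2, rfl⟩, funext fun q => Subtype.ext
      (Eq.trans (show x q.1 * (j * (∑ p : s × s, x p.1 * u p * x p.2) * j) * x q.2 =
        x q.1 * u q * x q.2 from ?_) (hu q))⟩
    rw [← mul_assoc, ← mul_assoc, (h3 _ q.1.2).2, mul_assoc _ j, (h3 _ q.2.2).1, Finset.mul_sum,
      Finset.sum_mul, Fintype.sum_eq_single q fun p hp => ?_]
    · rw [← mul_assoc, ← mul_assoc, (h1 _ q.1.2).eq, mul_assoc _ _ (x q.2), (h1 _ q.2.2).eq]
    · by_cases a : p.1 = q.1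
      · rw [← mul_assoc, mul_assoc _ _ (x q.2), h2 _ p.2.2 _ q.2.2 fun b =>
          hp (Prod.ext a (Subtype.ext b)), mul_zero]
      · rw [← mul_assoc, ← mul_assoc, h2 _ q.1.2 _ p.1.2 fun b => a (Subtype.ext b.symm),
          zero_mul, zero_mul, zero_mul]
  rw [finrank_pi_fintype, Fintype.sum_prod_type] at k
  refine le_of_eq_of_le ?_ k
  rw [← Finset.sum_coe_sort s]
  exact Finset.sum_congr rfl fun a _ => (Finset.sum_coe_sort s fun b => bim (x a) (x b)).symm

/- PLAN: decompose `1` with `exists_decIn` for `fixAlg F ⊤`; some `b * i ≠ 0`. -/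
theorem Prim.exists_block {D : Subgroup G} {i : MonoidAlgebra F G} (h : Prim D i) :
    ∃ b, IsBlock b ∧ b * i = i := by
  obtain ⟨n, b, h1, -, h3⟩ := exists_decIn (B := fixAlg F (⊤ : Subgroup G)) IsIdempotentElem.one
    (one_mem _)
  obtain ⟨a, -, ha⟩ := Finset.exists_ne_zero_of_sum_ne_zero (s := Finset.univ)
    (f := fun a => b a * i) (by rw [← Finset.sum_mul, h3, one_mul]; exact h.2.1)
  have hb := Prim.isBlock (prim_iff.2 (h1 a))
  refine ⟨b a, hb, (h.2.2.2 _ (hb.1.mul_of_commute (hb.2.2.1 i).symm h.1)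
    ((fixAlg F D).mul_mem (fun u _ => hb.2.2.1 _) h.2.2.1) ?_
    (by rw [mul_assoc, h.1.eq])).resolve_left ha⟩
  rw [← mul_assoc, hb.2.2.1, mul_assoc, h.1.eq]

/- PLAN: `x ↦ a * x * a'` as in `IsoSrc.of_prim` in `A2.lean`. -/
omit [Finite G] in
theorem IsoSrc.of_eqv {P A : Type} [Group P] [Ring A] [Algebra F A] {α : P →* Aˣ}
    {D : Subgroup G} {i j a a' : MonoidAlgebra F G} (hi : IsIdempotentElem i)
    (hj : IsIdempotentElem j) (ha : Fix D a) (ha' : Fix D a') (h1 : a * a' = i) (h2 : a' * a = j)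
    (h : IsoSrc α D j) : IsoSrc α D i := by
  have e : ∀ z, j * (j * z) = j * z := fun z => by rw [← mul_assoc, hj.eq]
  refine a2_iso (a := a * j) (b := j * a')
    ((fixAlg F D).mul_mem ha (h2 ▸ (fixAlg F D).mul_mem ha' ha))
    (h1 ▸ (fixAlg F D).mul_mem ha ha') ?_ ?_ (by rw [mul_assoc, hj.eq]) (e _) h
  · rw [mul_assoc, e, ← h2, mul_assoc, ← mul_assoc, h1, hi.eq]
  · rw [mul_assoc, ← mul_assoc a', h2, e, hj.eq]

end

end Pool.Agent.Puig
end

-- merged part: Pool.Agent.Work.MP_cea1f0_al.B1b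
section
/-! Relative traces. -/

namespace Pool.Agent.Puig

open MonoidAlgebra

variable {F G T T' : Type} [Field F] [Group G]

/-- `t` is a transversal of the left cosets of `R` in `D`. -/
def IsTr (R D : Subgroup G) (t : T → G) : Prop :=
  (∀ b, t b ∈ D) ∧ ∀ d ∈ D, ∃! b, (t b)⁻¹ * d ∈ R

theorem exists_isTr [Finite G] {R D : Subgroup G} (h : R ≤ D) :
    ∃ (T : Type) (_ : Fintype T) (t : T → G), IsTr R D t := by
  refine ⟨D ⧸ R.subgroupOf D, Fintype.ofFinite _, fun b => (b.out : D), fun b => b.out.2,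
    fun d hd => ?_⟩
  have key : ∀ b : D ⧸ R.subgroupOf D, ((b.out : D) : G)⁻¹ * d ∈ R ↔ b = (⟨d, hd⟩ : D) := fun b => by
    conv_rhs => rw [← b.out_eq', QuotientGroup.eq, Subgroup.mem_subgroupOf]
    rfl
  exact ⟨_, (key _).2 rfl, fun b hb => (key b).1 hb⟩

theorem b1b_uniq {R D : Subgroup G} {t : T → G} (ht : IsTr R D t) {d : G} (hd : d ∈ D) {b b' : T}
    (h : (t b)⁻¹ * d ∈ R) (h' : (t b')⁻¹ * d ∈ R) : b = b' := (ht.2 d hd).unique h h'

/-- Left multiplication by an element of `D` permutes a transversal. -/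
theorem IsTr.perm {R D : Subgroup G} {t : T → G} (ht : IsTr R D t) (h : R ≤ D) :
    ∃ θ : D →* Equiv.Perm T, ∀ (d : D) b, (t (θ d b))⁻¹ * (d * t b) ∈ R := by
  choose σ hσ using fun (d : D) b => (ht.2 (d * t b) (D.mul_mem d.2 (ht.1 b))).exists
  let _ : MulAction D T :=
    { smul := σ
      one_smul := fun b => b1b_uniq ht (D.mul_mem (1 : D).2 (ht.1 b)) (hσ 1 b) (by simp)
      mul_smul := fun d d' b => b1b_uniq ht (D.mul_mem (d * d').2 (ht.1 b)) (hσ _ b) (by
        have := R.mul_mem (hσ d (σ d' b)) (hσ d' b)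
        show (t (σ d (σ d' b)))⁻¹ * _ ∈ R
        simpa [mul_assoc] using this) }
  exact ⟨MulAction.toPermHom D T, hσ⟩

/-- The relative trace. -/
noncomputable def trc [Fintype T] (t : T → G) (y : MonoidAlgebra F G) : MonoidAlgebra F G :=
  ∑ b, of F G (t b) * y * of F G (t b)⁻¹

theorem coeff_trc [Fintype T] (t : T → G) (y : MonoidAlgebra F G) (g : G) :
    (trc t y).coeff g = ∑ b, y.coeff ((t b)⁻¹ * g * t b) := by
  simp [trc, mul_assoc]

theorem b1b_conj {R : Subgroup G} {y : MonoidAlgebra F G} (hy : Fix R y) {a a' : G}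
    (h : a⁻¹ * a' ∈ R) (g : G) : y.coeff (a⁻¹ * g * a) = y.coeff (a'⁻¹ * g * a') := by
  rw [← fix_iff.1 hy _ h (a'⁻¹ * g * a')]
  congr 1
  group

theorem fix_trc [Fintype T] {R D : Subgroup G} {t : T → G} (ht : IsTr R D t) (h : R ≤ D)
    {y : MonoidAlgebra F G} (hy : Fix R y) : Fix D (trc t y) := by
  obtain ⟨θ, hθ⟩ := ht.perm h
  refine fix_iff.2 fun u hu g => ?_
  rw [coeff_trc, coeff_trc, ← Equiv.sum_comp (θ ⟨u, hu⟩)]
  refine Finset.sum_congr rfl fun b _ => ?_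
  rw [b1b_conj hy (hθ ⟨u, hu⟩ b)]
  congr 1
  group

theorem trc_mul [Fintype T] {R D : Subgroup G} {t : T → G} (ht : IsTr R D t)
    {a b : MonoidAlgebra F G} (ha : Fix D a) (hb : Fix D b) (y : MonoidAlgebra F G) :
    trc t (a * y * b) = a * trc t y * b := by
  rw [trc, trc, Finset.mul_sum, Finset.sum_mul]
  refine Finset.sum_congr rfl fun c _ => ?_
  rw [← mul_assoc, ← mul_assoc, ha _ (ht.1 c), mul_assoc _ b, ← hb _ (D.inv_mem (ht.1 c))]
  simp only [mul_assoc]

/- PLAN: for `c` centralising `D` every term of `coeff_trc` is `y.coeff c`; the number of terms is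
the index, divisible by `p` (or `orb_sum` with the action `IsTr.perm`, no fixed point as `R < D`). -/
theorem Br_trc_zero (p : ℕ) [Fact p.Prime] [CharP F p] [Finite G] [Fintype T] {R D : Subgroup G}
    (hD : IsPGroup p D) (h : R < D) {t : T → G} (ht : IsTr R D t) (y : MonoidAlgebra F G) :
    Br D (trc t y) = 0 := by
  obtain ⟨θ, hθ⟩ := ht.perm h.le
  obtain ⟨d, hd, hn⟩ := SetLike.exists_of_lt h
  ext c
  rw [coeff_Br]
  split_ifs with hc
  · have e : ∀ b, y.coeff ((t b)⁻¹ * c * t b) = y.coeff c := fun b => by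
      rw [mul_assoc, ← hc _ (ht.1 b), inv_mul_cancel_left]
    rw [coeff_trc, Finset.sum_congr rfl fun b _ => e b,
      orb_sum p hD θ _ (fun _ _ => rfl) (fun _ => False) fun b => ⟨False.elim, fun k => hn ?_⟩]
    · simp
    · have := hθ ⟨t b * d * (t b)⁻¹, D.mul_mem (D.mul_mem (ht.1 b) hd) (D.inv_mem (ht.1 b))⟩ b
      rw [k] at this
      simpa [mul_assoc] using this
  · rfl

theorem b1b_cen {R : Subgroup G} {γ : G} (h : γ ∈ Subgroup.normalizer (R : Set G)) (c : G) :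
    γ⁻¹ * c * γ ∈ Subgroup.centralizer (R : Set G) ↔ c ∈ Subgroup.centralizer (R : Set G) := by
  have key : ∀ γ ∈ Subgroup.normalizer (R : Set G), ∀ c ∈ Subgroup.centralizer (R : Set G),
      γ⁻¹ * c * γ ∈ Subgroup.centralizer (R : Set G) := fun γ h c hc r hr => by
    have := hc _ ((Subgroup.mem_normalizer_iff.1 h r).1 hr)
    calc r * (γ⁻¹ * c * γ) = γ⁻¹ * (γ * r * γ⁻¹ * c) * γ := by group
      _ = _ := by rw [this]; group
  refine ⟨fun k => ?_, key γ h c⟩
  simpa [mul_assoc] using key _ (Subgroup.inv_mem _ h) _ k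

/- PLAN: coefficient at `c` centralising `R`: `orb_sum` for `R` acting on `T` through `IsTr.perm`;
`b` is fixed iff `t b` normalises `R` (finite: `Subgroup.mem_normalizer_fintype` or a cardinality
argument); the fixed `b` are in bijection with `T'`, and the term only depends on the coset since
`y` is `R`-fixed.  For `γ` normalising `R`, `γ⁻¹ * c * γ` centralises `R` iff `c` does. -/
theorem Br_trc (p : ℕ) [Fact p.Prime] [CharP F p] [Finite G] [Fintype T] [Fintype T']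
    {R D : Subgroup G} (hD : IsPGroup p D) (h : R ≤ D) {t : T → G} (ht : IsTr R D t) {t' : T' → G}
    (ht' : IsTr R (D ⊓ Subgroup.normalizer (R : Set G)) t') {y : MonoidAlgebra F G} (hy : Fix R y) :
    Br R (trc t y) = trc t' (Br R y) := by
  classical
  obtain ⟨θ, hθ⟩ := ht.perm h
  ext c
  rw [coeff_Br, coeff_trc t', Finset.sum_congr rfl fun b _ => coeff_Br R y _]
  simp only [fun b => b1b_cen (ht'.1 b).2 c]
  split_ifs with hc
  swap
  · simp
  rw [coeff_trc, orb_sum p (hD.to_le h) (θ.comp (Subgroup.inclusion h)) _ (fun r b => ?_)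
    (fun b => t b ∈ Subgroup.normalizer (R : Set G)) fun b => ⟨fun k r => ?_, fun k => ?_⟩]
  · choose φ hφ using fun b => (ht.2 (t' b) (ht'.1 b).1).exists
    refine (Finset.sum_nbij φ (fun b _ => ?_) (fun b _ b' _ e => ?_) (fun b hb => ?_)
      fun b _ => (b1b_conj hy (hφ b) c).symm).symm
    · have := Subgroup.mul_mem _ (ht'.1 b).2 (Subgroup.inv_mem _ (Subgroup.le_normalizer (hφ b)))
      simpa using this
    · have := R.mul_mem (R.inv_mem (hφ b)) (hφ b')
      rw [e] at this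
      exact b1b_uniq ht' (ht'.1 b') (by simpa [mul_assoc] using this) (by simp)
    · obtain ⟨b', hb'⟩ := (ht'.2 (t b) ⟨ht.1 b, by simpa using hb⟩).exists
      exact ⟨b', by simp, b1b_uniq ht (ht'.1 b').1 (hφ b') (by simpa using R.inv_mem hb')⟩
  · refine (b1b_conj hy (hθ (Subgroup.inclusion h r) b) c).trans ?_
    congr 1
    rw [Subgroup.coe_inclusion, mul_inv_rev, ← mul_assoc, mul_assoc _ c, ← hc _ r.2]
    group
  · refine b1b_uniq ht (D.mul_mem (h r.2) (ht.1 b)) (hθ (Subgroup.inclusion h r) b) ?_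
    have := (Subgroup.mem_normalizer_iff''.1 k r).1 r.2
    rwa [mul_assoc] at this
  · refine (Subgroup.inv_mem_iff _).1 (Subgroup.mem_normalizer_fintype fun r hr => ?_)
    have := hθ (Subgroup.inclusion h ⟨r, hr⟩) b
    rw [show θ (Subgroup.inclusion h ⟨r, hr⟩) b = b from k ⟨r, hr⟩] at this
    simpa [mul_assoc] using this

theorem b1b_mul {D : Subgroup G} {x y : MonoidAlgebra F G} (hx : Fix D x) (hy : Fix D y) :
    Fix D (x * y) := (fixAlg F D).mul_mem hx hy

theorem b1b_idem {A : Type} [Ring A] {i : A} (hi : IsIdempotentElem i) (y : A) :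
    i * (i * y * i) * i = i * y * i := by
  rw [← mul_assoc, ← mul_assoc, hi.eq, mul_assoc _ i, hi.eq]

theorem b1b_nil (p : ℕ) [Fact p.Prime] [CharP F p] [Finite G] {D : Subgroup G} (hD : IsPGroup p D)
    {x : MonoidAlgebra F G} (hx : Fix D x) (h : IsNilpotent x) : IsNilpotent (Br D x) := by
  have key : ∀ n, Br D x ^ (n + 1) = Br D (x ^ (n + 1)) := fun n => by
    induction n with
    | zero => rw [zero_add, pow_one, pow_one]
    | succ n ih => rw [pow_succ, ih, pow_succ x (n + 1), Br_mul p hD ((fixAlg F D).pow_mem hx _) hx]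
  obtain ⟨n, hn⟩ := h
  exact ⟨n + 1, by rw [key, pow_succ, hn, zero_mul, ← BrL_apply, map_zero]⟩

/- PLAN: take a transversal `t` of `R` in `D`; `z = trc t (i * y * i) = i * trc t y * i` is
`D`-fixed and in the corner; by `Prim.fit` it is nilpotent, or `z * z' = i`, and then
`Br D i = Br D z * Br D z' = 0` (`Br_mul`, `Br_trc_zero`).  `Br R` is multiplicative on `R`-fixed
elements so `Br R z` is nilpotent; `Br R z = trc t' (Br R (i * y * i))` and
`Br R (i * y * i) = Br R i * y * Br R i` (`y = Br R y` is `R`-fixed by `fix_Br`). -/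
theorem trc_nil (p : ℕ) [Fact p.Prime] [CharP F p] [Finite G] [Fintype T'] {R D : Subgroup G}
    (hD : IsPGroup p D) (h : R < D) {i : MonoidAlgebra F G} (hi : Prim D i) (hB : Br D i ≠ 0)
    {t' : T' → G} (ht' : IsTr R (D ⊓ Subgroup.normalizer (R : Set G)) t') {y : MonoidAlgebra F G}
    (hy : Br R y = y) : IsNilpotent (trc t' (Br R i * y * Br R i)) := by
  obtain ⟨T, _, t, ht⟩ := exists_isTr h.le
  have hR := hD.to_le h.le
  have f1 : Fix R i := hi.2.2.1.mono h.le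
  have f2 : Fix R y := hy ▸ fix_Br R y
  have f3 : Fix R (i * y * i) := b1b_mul (b1b_mul f1 f2) f1
  have f4 := fix_trc ht h.le f3
  rcases hi.fit f4 (by rw [← trc_mul ht hi.2.2.1 hi.2.2.1, b1b_idem hi.1]) with k | ⟨z, k, -, e, -⟩
  · have := b1b_nil p hR (f4.mono h.le) k
    rwa [Br_trc p hD h.le ht ht' f3, Br_mul p hR (b1b_mul f1 f2) f1, Br_mul p hR f1 f2, hy] at this
  · refine absurd ?_ hB
    rw [← e, Br_mul p hD f4 k, Br_trc_zero p hD h ht, zero_mul]

/- PLAN: `x = i * y * i` is `D`-fixed, `Br D x = Br D i * y * Br D i = y`; `Prim.fit`, `Br_mul`;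
take `Br D` of the inverse. -/
theorem Br_fit (p : ℕ) [Fact p.Prime] [CharP F p] [Finite G] {D : Subgroup G} (hD : IsPGroup p D)
    {i y : MonoidAlgebra F G} (hi : Prim D i) (hy : Br D y = y) (hc : Br D i * y * Br D i = y) :
    IsNilpotent y ∨ ∃ z, Br D z = z ∧ z * y = Br D i := by
  have f1 := hi.2.2.1
  have f2 : Fix D y := hy ▸ fix_Br D y
  have f3 : Fix D (i * y * i) := b1b_mul (b1b_mul f1 f2) f1
  have e : Br D (i * y * i) = y := by
    rw [Br_mul p hD (b1b_mul f1 f2) f1, Br_mul p hD f1 f2, hy, hc]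
  rcases hi.fit f3 (b1b_idem hi.1 y) with k | ⟨z, k, -, -, e'⟩
  · exact Or.inl (e ▸ b1b_nil p hD f3 k)
  · refine Or.inr ⟨Br D z, Br_Br le_rfl z, ?_⟩
    rw [← e', Br_mul p hD k f3, e]

end Pool.Agent.Puig
end

-- merged part: Pool.Agent.Work.MP_cea1f0_al.G1
section
/-! Defect groups and relative traces. -/

namespace Pool.Agent.Puig

open MonoidAlgebra

variable {F G T T' : Type} [Field F] [Group G]

theorem trc_indep [Fintype T] [Fintype T'] {R D : Subgroup G} {t : T → G} {t' : T' → G}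
    (ht : IsTr R D t) (ht' : IsTr R D t') {y : MonoidAlgebra F G} (hy : Fix R y) :
    trc t y = trc t' y := by
  choose φ hφ using fun b => (ht'.2 (t b) (ht.1 b)).exists
  ext g
  rw [coeff_trc, coeff_trc]
  refine Fintype.sum_bijective φ ⟨fun b b' e => ?_, fun b' => ?_⟩ _ _
    fun b => (b1b_conj hy (hφ b) g).symm
  · have := R.mul_mem (R.inv_mem (hφ b)) (hφ b')
    rw [e] at this
    exact b1b_uniq ht (ht.1 b') (by simpa [mul_assoc] using this) (by simp)
  · obtain ⟨b, hb⟩ := (ht.2 (t' b') (ht'.1 b')).exists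
    exact ⟨b, b1b_uniq ht' (ht.1 b) (hφ b) (by simpa using R.inv_mem hb)⟩

theorem IsTr.trans {R D E : Subgroup G} (h1 : R ≤ D) (h2 : D ≤ E) {t : T → G} {t' : T' → G}
    (ht : IsTr R D t) (ht' : IsTr D E t') : IsTr R E fun b : T' × T => t' b.1 * t b.2 := by
  refine ⟨fun b => E.mul_mem (ht'.1 _) (h2 (ht.1 _)), fun d hd => ?_⟩
  obtain ⟨b', k1, k2⟩ := ht'.2 d hd
  obtain ⟨b, k3, k4⟩ := ht.2 _ k1
  refine ⟨(b', b), by simpa [mul_assoc] using k3, fun ⟨c', c⟩ k => ?_⟩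
  obtain rfl : c' = b' := k2 c' (by simpa [mul_assoc] using D.mul_mem (ht.1 c) (h1 k))
  rw [k4 c (by simpa [mul_assoc] using k)]

theorem trc_trans [Fintype T] [Fintype T'] (t : T → G) (t' : T' → G) (y : MonoidAlgebra F G) :
    trc (fun b : T' × T => t' b.1 * t b.2) y = trc t' (trc t y) := by
  ext g
  simp only [coeff_trc, Fintype.sum_prod_type, mul_inv_rev, mul_assoc]

theorem IsTr.card [Fintype T] {R D : Subgroup G} (h : R ≤ D) {t : T → G} (ht : IsTr R D t) :
    Fintype.card T = R.relIndex D := by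
  rw [← Nat.card_eq_fintype_card]
  refine Nat.card_eq_of_bijective (fun b => ((⟨t b, ht.1 b⟩ : D) : D ⧸ R.subgroupOf D))
    ⟨fun b b' e => b1b_uniq ht (ht.1 b') (QuotientGroup.eq.1 e :) (by simp), fun c => ?_⟩
  obtain ⟨d, rfl⟩ := QuotientGroup.mk_surjective c
  exact (ht.2 d d.2).exists.imp fun b k => QuotientGroup.eq.2 k

theorem Br_trc' (p : ℕ) [Fact p.Prime] [CharP F p] [Finite G] [Fintype T] [Fintype T']
    {R D : Subgroup G} (hR : IsPGroup p R) (h : R ≤ D) {t : T → G} (ht : IsTr R D t) {t' : T' → G}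
    (ht' : IsTr R (D ⊓ Subgroup.normalizer (R : Set G)) t') {y : MonoidAlgebra F G} (hy : Fix R y) :
    Br R (trc t y) = trc t' (Br R y) := by
  classical
  obtain ⟨θ, hθ⟩ := ht.perm h
  ext c
  rw [coeff_Br, coeff_trc t', Finset.sum_congr rfl fun b _ => coeff_Br R y _]
  simp only [fun b => b1b_cen (ht'.1 b).2 c]
  split_ifs with hc
  swap
  · simp
  rw [coeff_trc, orb_sum p hR (θ.comp (Subgroup.inclusion h)) _ (fun r b => ?_)
    (fun b => t b ∈ Subgroup.normalizer (R : Set G)) fun b => ⟨fun k r => ?_, fun k => ?_⟩]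
  · choose φ hφ using fun b => (ht.2 (t' b) (ht'.1 b).1).exists
    refine (Finset.sum_nbij φ (fun b _ => ?_) (fun b _ b' _ e => ?_) (fun b hb => ?_)
      fun b _ => (b1b_conj hy (hφ b) c).symm).symm
    · have := Subgroup.mul_mem _ (ht'.1 b).2 (Subgroup.inv_mem _ (Subgroup.le_normalizer (hφ b)))
      simpa using this
    · have := R.mul_mem (R.inv_mem (hφ b)) (hφ b')
      rw [e] at this
      exact b1b_uniq ht' (ht'.1 b') (by simpa [mul_assoc] using this) (by simp)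
    · obtain ⟨b', hb'⟩ := (ht'.2 (t b) ⟨ht.1 b, by simpa using hb⟩).exists
      exact ⟨b', by simp, b1b_uniq ht (ht'.1 b').1 (hφ b') (by simpa using R.inv_mem hb')⟩
  · refine (b1b_conj hy (hθ (Subgroup.inclusion h r) b) c).trans ?_
    congr 1
    rw [Subgroup.coe_inclusion, mul_inv_rev, ← mul_assoc, mul_assoc _ c, ← hc _ r.2]
    group
  · refine b1b_uniq ht (D.mul_mem (h r.2) (ht.1 b)) (hθ (Subgroup.inclusion h r) b) ?_
    have := (Subgroup.mem_normalizer_iff''.1 k r).1 r.2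
    rwa [mul_assoc] at this
  · refine (Subgroup.inv_mem_iff _).1 (Subgroup.mem_normalizer_fintype fun r hr => ?_)
    have := hθ (Subgroup.inclusion h ⟨r, hr⟩) b
    rw [show θ (Subgroup.inclusion h ⟨r, hr⟩) b = b from k ⟨r, hr⟩] at this
    simpa [mul_assoc] using this

/-- `x` is a trace from `D` to the whole group. -/
def InTr (D : Subgroup G) (x : MonoidAlgebra F G) : Prop :=
  ∃ (T : Type) (_ : Fintype T) (t : T → G) (y : MonoidAlgebra F G),
    IsTr D ⊤ t ∧ Fix D y ∧ trc t y = x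

variable [Finite G]

theorem InTr.le_conj (p : ℕ) [Fact p.Prime] [CharP F p] {Q D : Subgroup G} (hD : IsPGroup p D)
    {x : MonoidAlgebra F G} (h : InTr Q x) (hB : Br D x ≠ 0) : ∃ g, ∀ u ∈ D, g⁻¹ * u * g ∈ Q := by
  obtain ⟨T, _, t, y, ht, hy, rfl⟩ := h
  obtain ⟨θ, hθ⟩ := ht.perm le_top
  by_contra hn
  refine hB ?_
  ext c
  rw [coeff_Br]
  split_ifs with hc
  swap
  · rfl
  rw [coeff_trc, orb_sum p hD (θ.comp (Subgroup.inclusion le_top)) _ (fun r b => ?_)
    (fun _ => False) fun b => ⟨False.elim, fun k => hn ⟨t b, fun r hr => ?_⟩⟩]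
  · simp
  · refine (b1b_conj hy (hθ (Subgroup.inclusion le_top r) b) c).trans ?_
    congr 1
    rw [Subgroup.coe_inclusion, mul_inv_rev, ← mul_assoc, mul_assoc _ c, ← hc _ r.2]
    group
  · have := hθ (Subgroup.inclusion le_top ⟨r, hr⟩) b
    rw [show θ (Subgroup.inclusion le_top ⟨r, hr⟩) b = b from k ⟨r, hr⟩] at this
    simpa [mul_assoc] using this

theorem InTr.conj {Q D : Subgroup G} {x : MonoidAlgebra F G} (h : InTr Q x) {g : G}
    (hg : ∀ u, u ∈ D ↔ g⁻¹ * u * g ∈ Q) : InTr D x := by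
  obtain ⟨T, _, t, y, ht, hy, rfl⟩ := h
  refine ⟨T, inferInstance, fun b => t b * g⁻¹, trc (fun _ : Unit => g) y,
    ⟨fun _ => trivial, fun d _ => ?_⟩, fix_iff.2 fun u hu c => ?_, ?_⟩
  · simpa [hg, mul_assoc] using ht.2 (d * g) trivial
  · simp only [coeff_trc, ← fix_iff.1 hy _ ((hg u).1 hu) (g⁻¹ * c * g)]
    group
  · ext c
    simp [coeff_trc, mul_assoc]

omit [Finite G] in
theorem Br_conj {Q D : Subgroup G} {x : MonoidAlgebra F G} (hx : Fix ⊤ x) {g : G}
    (hg : ∀ u, u ∈ D ↔ g⁻¹ * u * g ∈ Q) (h : Br Q x ≠ 0) : Br D x ≠ 0 := by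
  intro k
  refine h ?_
  ext c
  have := congrArg (fun z => z.coeff (g * c * g⁻¹)) k
  simp only [coeff_Br, fix_iff.1 hx g trivial] at this
  rw [coeff_Br]
  split_ifs with hc
  · rwa [if_pos (Subgroup.mem_centralizer_iff.2 fun u hu => ?_)] at this
    calc u * (g * c * g⁻¹) = g * (g⁻¹ * u * g * c) * g⁻¹ := by group
      _ = _ := by rw [hc _ ((hg u).1 hu)]; group
  · rfl

open Classical in
theorem g1_orb (Q : Subgroup G) (g : G) (c : F) : ∃ z : MonoidAlgebra F G,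
    (∀ a, z.coeff a = if ∃ q ∈ Q, a = q * g * q⁻¹ then c else 0) ∧
      ∃ (T : Type) (_ : Fintype T) (t : T → G) (y : MonoidAlgebra F G),
        IsTr (Q ⊓ Subgroup.centralizer {g}) Q t ∧ Fix (Q ⊓ Subgroup.centralizer {g}) y ∧
          trc t y = z := by
  obtain ⟨T, _, t, ht⟩ := exists_isTr (inf_le_left : Q ⊓ Subgroup.centralizer {g} ≤ Q)
  refine ⟨_, fun a => ?_, T, inferInstance, t, single g c, ht, fun u hu => ?_, rfl⟩
  · simp only [coeff_trc, coeff_single, Finsupp.single_apply]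
    split_ifs with k
    · obtain ⟨q, hq, rfl⟩ := k
      obtain ⟨b, k1, k2⟩ := ht.2 q hq
      rw [Finset.sum_eq_single b (fun b' _ n => if_neg fun e => n (k2 b'
        ⟨Q.mul_mem (Q.inv_mem (ht.1 b')) hq, Subgroup.mem_centralizer_singleton_iff.2 ?_⟩))
        (by simp), if_pos]
      · calc g = (t b)⁻¹ * q * g * ((t b)⁻¹ * q)⁻¹ := by
              rw [Subgroup.mem_centralizer_singleton_iff.1 k1.2, mul_inv_cancel_right]
          _ = _ := by group
      · conv_rhs => rw [e]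
        group
    · exact Finset.sum_eq_zero fun b _ => if_neg fun e => k ⟨t b, ht.1 b, by rw [e]; group⟩
  · simp [single_mul_single, Subgroup.mem_centralizer_singleton_iff.1 hu.2]

omit [Finite G] in
theorem g1_sum [Fintype T] (t : T → G) {ι : Type} (s : Finset ι) (z : ι → MonoidAlgebra F G) :
    trc t (∑ a ∈ s, z a) = ∑ a ∈ s, trc t (z a) := by
  simp only [trc, Finset.mul_sum, Finset.sum_mul]
  exact Finset.sum_comm

theorem exists_trc_of_Br {Q : Subgroup G} {x : MonoidAlgebra F G} (hx : Fix Q x) (h : Br Q x = 0) :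
    ∃ (ι : Type) (s : Finset ι) (z : ι → MonoidAlgebra F G), x = ∑ a ∈ s, z a ∧ ∀ a ∈ s,
      ∃ (R : Subgroup G) (T : Type) (_ : Fintype T) (t : T → G) (y : MonoidAlgebra F G),
        R < Q ∧ IsTr R Q t ∧ Fix R y ∧ trc t y = z a := by
  classical
  let S : Setoid G := ⟨fun a c => ∃ q ∈ Q, c = q * a * q⁻¹, fun a => ⟨1, Q.one_mem, by simp⟩,
    fun ⟨q, k, e⟩ => ⟨q⁻¹, Q.inv_mem k, by rw [e]; group⟩,
    fun ⟨q, k, e⟩ ⟨q', k', e'⟩ => ⟨q' * q, Q.mul_mem k' k, by rw [e', e]; group⟩⟩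
  have := Fintype.ofFinite (Quotient S)
  choose z h1 h2 using fun g => g1_orb Q g (x.coeff g)
  refine ⟨Quotient S, Finset.univ.filter fun a => x.coeff a.out ≠ 0, fun a => z a.out, ?_,
    fun a ha => ?_⟩
  · ext c
    have e : ∀ a : Quotient S, (∃ q ∈ Q, c = q * a.out * q⁻¹) ↔ a = ⟦c⟧ := fun a =>
      (Quotient.eq_mk_iff_out (s := S)).symm
    obtain ⟨q, hq, k⟩ := (e _).2 rfl
    have k' := fix_iff.1 hx q hq (⟦c⟧ : Quotient S).out
    rw [← k] at k'
    simp only [coeff_sum, Finsupp.finsetSum_apply, h1, e, Finset.sum_ite_eq', Finset.mem_filter,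
      Finset.mem_univ, true_and, ← k']
    split_ifs with k
    exacts [rfl, not_not.1 k]
  · obtain ⟨T, _, t, y, k⟩ := h2 a.out
    refine ⟨_, T, inferInstance, t, y, inf_lt_left.2 fun m => (Finset.mem_filter.1 ha).2 ?_, k⟩
    have := congrArg (fun z => z.coeff a.out) h
    rwa [coeff_Br, if_pos (Subgroup.mem_centralizer_iff.2 fun u hu => (m hu _ rfl).symm)] at this

theorem IsBlock.inTr_of_sum {b : MonoidAlgebra F G} (hb : IsBlock b) {ι : Type} (s : Finset ι)
    {z : ι → MonoidAlgebra F G} {R : ι → Subgroup G} (h : b = ∑ a ∈ s, b * z a)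
    (hz : ∀ a ∈ s, InTr (R a) (z a)) : ∃ a ∈ s, InTr (R a) b := by
  have hp := hb.prim
  have f : ∀ a ∈ s, Fix ⊤ (b * z a) ∧ b * (b * z a) * b = b * z a := fun a ha => by
    obtain ⟨T, _, t, y, ht, hy, e⟩ := hz a ha
    exact ⟨b1b_mul hp.2.2.1 (e ▸ fix_trc ht le_top hy), by
      rw [hb.2.2.1, ← mul_assoc, ← mul_assoc, hb.1.eq, hb.1.eq]⟩
  by_contra hn
  have : IsNilpotent b := h ▸ (prim_iff.1 hp).nil_sum s fun a ha => ⟨(f a ha).1, (f a ha).2, by
    refine (hp.fit (f a ha).1 (f a ha).2).resolve_right fun ⟨w, k, _, e, _⟩ => hn ⟨a, ha, ?_⟩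
    obtain ⟨T, _, t, y, ht, hy, e'⟩ := hz a ha
    exact ⟨T, inferInstance, t, b * y * w, ht, b1b_mul (b1b_mul (hp.2.2.1.mono le_top) hy)
      (k.mono le_top), by rw [trc_mul ht hp.2.2.1 k, e', e]⟩⟩
  exact hb.2.1 (hb.1.eq_zero_of_isNilpotent this)

theorem IsBlock.exists_inTr (p : ℕ) [Fact p.Prime] [CharP F p] {b : MonoidAlgebra F G}
    (hb : IsBlock b) : ∃ Q : Subgroup G, IsPGroup p Q ∧ InTr Q b ∧ Br Q b ≠ 0 := by
  have fb := hb.prim.2.2.1
  obtain ⟨S⟩ : Nonempty (Sylow p G) := inferInstance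
  obtain ⟨Q, ⟨hQ, T, _, t, y, ht, hy, e⟩, hm⟩ := wellFounded_lt.has_min
    {Q : Subgroup G | IsPGroup p Q ∧ InTr Q b} ⟨S, S.2, by
      obtain ⟨T, _, t, ht⟩ := exists_isTr (le_top : (S : Subgroup G) ≤ ⊤)
      have c : (Fintype.card T : F) ≠ 0 := by
        rw [Ne, CharP.cast_eq_zero_iff F p, ht.card le_top, Subgroup.relIndex_top_right]
        exact S.not_dvd_index
      refine ⟨T, inferInstance, t, (Fintype.card T : F)⁻¹ • b, ht,
        (fixAlg F _).smul_mem (fb.mono le_top) _, ?_⟩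
      ext g
      have k : ∀ a : T, b.coeff ((t a)⁻¹ * g * t a) = b.coeff g := fun a => by
        simpa using fix_iff.1 fb (t a)⁻¹ trivial g
      simp [coeff_trc, k, c]⟩
  refine ⟨Q, hQ, ⟨T, inferInstance, t, y, ht, hy, e⟩, fun k => ?_⟩
  obtain ⟨ι, s, z, e1, hz⟩ := exists_trc_of_Br (fb.mono le_top) k
  have : ∀ a ∈ s, ∃ R, R < Q ∧ InTr R (trc t (y * z a)) := fun a ha => by
    obtain ⟨R, T', _, t', y', k1, k2, k3, k4⟩ := hz a ha
    have f1 : Fix Q (1 : MonoidAlgebra F G) := (fixAlg F Q).one_mem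
    exact ⟨R, k1, T × T', inferInstance, _, y * y' * 1, k2.trans k1.le le_top ht,
      b1b_mul (b1b_mul (hy.mono k1.le) k3) (f1.mono k1.le), by
        rw [trc_trans, trc_mul k2 hy f1, k4, mul_one]⟩
  choose! R h1 h2 using this
  obtain ⟨a, ha, k⟩ := hb.inTr_of_sum s (R := R) (z := fun a => trc t (y * z a)) (by
    have := trc_mul ht (fixAlg F ⊤).one_mem fb y
    rw [one_mul, one_mul, e, hb.1.eq] at this
    rw [← Finset.mul_sum, ← g1_sum, ← Finset.mul_sum, ← e1, this, hb.1.eq]) h2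
  exact hm _ ⟨hQ.to_le (h1 a ha).le, k⟩ (h1 a ha)

theorem isDefect_of_inTr (p : ℕ) [Fact p.Prime] [CharP F p] {b : MonoidAlgebra F G}
    {D : Subgroup G} (hD : IsPGroup p D) (h : InTr D b) (hB : Br D b ≠ 0) : IsDefect p b D := by
  refine ⟨hD, hB, fun E hE l k => ?_⟩
  obtain ⟨g, hg⟩ := h.le_conj p hE k
  refine (Subgroup.eq_of_le_of_card_ge l (Nat.card_le_card_of_injective
    (fun u : E => (⟨g⁻¹ * u * g, hg u u.2⟩ : D)) fun u v e => ?_)).symm
  simpa using e

theorem g1_conj (p : ℕ) [Fact p.Prime] [CharP F p] {b : MonoidAlgebra F G} (hb : IsBlock b)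
    {D Q : Subgroup G} (hD : IsDefect p b D) (hQ : IsPGroup p Q) (h : InTr Q b)
    (hB : Br Q b ≠ 0) : ∃ g, ∀ u, u ∈ D ↔ g⁻¹ * u * g ∈ Q := by
  obtain ⟨g, hg⟩ := h.le_conj p hD.1 hD.2.1
  have e : ∀ u, u ∈ Q.comap (MulAut.conj g⁻¹).toMonoidHom ↔ g⁻¹ * u * g ∈ Q := fun u => by simp
  exact ⟨g, hD.2.2 _ (hQ.comap_of_injective _ (MulAut.conj g⁻¹).injective)
    (fun u hu => (e u).2 (hg u hu)) (Br_conj hb.prim.2.2.1 e hB) ▸ e⟩

theorem IsDefect.inTr (p : ℕ) [Fact p.Prime] [CharP F p] {b : MonoidAlgebra F G} (hb : IsBlock b)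
    {D : Subgroup G} (hD : IsDefect p b D) : InTr D b := by
  obtain ⟨Q, hQ, h, hB⟩ := hb.exists_inTr p
  obtain ⟨g, hg⟩ := g1_conj p hb hD hQ h hB
  exact h.conj hg

theorem IsDefect.conj (p : ℕ) [Fact p.Prime] [CharP F p] {b : MonoidAlgebra F G} (hb : IsBlock b)
    {D D' : Subgroup G} (hD : IsDefect p b D) (hD' : IsDefect p b D') :
    ∃ g, ∀ u, u ∈ D ↔ g⁻¹ * u * g ∈ D' := by
  exact g1_conj p hb hD hD'.1 (hD'.inTr p hb) hD'.2.1

end Pool.Agent.Puig
end

-- merged part: Pool.Agent.Work.MP_cea1f0_al.B2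
section
/-! Fixed points of `Γ` on the Brauer quotient of a permutation module. -/

namespace Pool.Agent.Puig

open Module

variable {k G Ω T : Type} [Field k] [Group G] [Finite G] [Finite Ω]

/-- The points fixed by `R`. -/
def fixS (θ : G →* Equiv.Perm Ω) (R : Subgroup G) : Set Ω := {ω | ∀ r ∈ R, θ r ω = ω}

/-- The dimension of `Br R i • k[Ω ^ R]`. -/
noncomputable def FR (θ : G →* Equiv.Perm Ω) (R : Subgroup G) (i : MonoidAlgebra k G) : ℕ :=
  finrank k ((spt k (fixS θ R)).map (act k θ (Br R i)))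

omit [Finite G] [Finite Ω] in
theorem fixS_norm (θ : G →* Equiv.Perm Ω) {R : Subgroup G} {γ : G}
    (hγ : γ ∈ Subgroup.normalizer (R : Set G)) {ω : Ω} (h : ω ∈ fixS θ R) : θ γ ω ∈ fixS θ R := by
  intro r hr
  have h1 : γ⁻¹ * r * γ ∈ R := ((Subgroup.mem_normalizer_iff''.1 hγ) r).1 hr
  have h2 := h _ h1
  have h3 : r * γ = γ * (γ⁻¹ * r * γ) := by group
  rw [← Equiv.Perm.mul_apply, ← map_mul, h3, map_mul, Equiv.Perm.mul_apply, h2]

omit [Finite G] [Finite Ω] in
theorem b2_mul (θ : G →* Equiv.Perm Ω) (a b : G) (ω : Ω) : θ (a * b) ω = θ a (θ b ω) := by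
  rw [map_mul, Equiv.Perm.mul_apply]

omit [Finite G] [Finite Ω] in
theorem b2_inv (θ : G →* Equiv.Perm Ω) (a : G) (ω : Ω) : θ a (θ a⁻¹ ω) = ω := by
  rw [← b2_mul, mul_inv_cancel, map_one, Equiv.Perm.one_apply]

omit [Finite G] [Finite Ω] in
theorem b2_triv (θ : G →* Equiv.Perm Ω) {R : Subgroup G} {v : Ω → k}
    (hv : v ∈ spt k (fixS θ R)) {r : G} (hr : r ∈ R) : pr k θ r v = v := by
  funext ω
  rw [pr_apply]
  by_cases hω : ω ∈ fixS θ R
  · rw [hω _ (R.inv_mem hr)]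
  · have h1 : θ r⁻¹ ω ∉ fixS θ R := by
      intro h2
      have h3 := h2 r hr
      rw [b2_inv] at h3
      exact hω (h3 ▸ h2)
    rw [hv _ hω, hv _ h1]

/- PLAN: on functions supported in `fixS θ R` the group `R` acts trivially; use `IsTr.perm`; the
functions `pr k θ (t b) v` only depend on the coset `t b • R`. -/
theorem pr_norm [Fintype T] (θ : G →* Equiv.Perm Ω) {R Γ : Subgroup G} (h : R ≤ Γ) {t : T → G}
    (ht : IsTr R Γ t) {v : Ω → k} (hv : v ∈ spt k (fixS θ R)) {γ : G} (hγ : γ ∈ Γ) :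
    pr k θ γ (∑ b, pr k θ (t b) v) = ∑ b, pr k θ (t b) v := by
  obtain ⟨σ, hσ⟩ := ht.perm h
  rw [map_sum, ← Equiv.sum_comp (σ ⟨γ, hγ⟩) (fun b => pr k θ (t b) v)]
  refine Finset.sum_congr rfl fun b _ => ?_
  have h1 := hσ ⟨γ, hγ⟩ b
  have h2 : γ * t b = t (σ ⟨γ, hγ⟩ b) * ((t (σ ⟨γ, hγ⟩ b))⁻¹ * (γ * t b)) := by group
  have h3 : pr k θ γ (pr k θ (t b) v) = pr k θ (γ * t b) v := by
    rw [map_mul]; rfl
  rw [h3, h2, map_mul, Module.End.mul_apply, b2_triv θ hv h1]

/- PLAN: `act_apply`, `coeff_Br`.  For `ω` fixed by `R'` apply `orb_sum` to the conjugation action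
of `R'` on `G` and the function `g ↦ (Br R i).coeff g * v (θ g⁻¹ ω)` (invariant by `fix_Br_norm`,
`fix_iff` and `hv`); the fixed points are the centraliser of `R'`, contained in that of `R`, and
it preserves `fixS θ R'` and its complement. -/
open Classical in
theorem act_Br_res (p : ℕ) [Fact p.Prime] [CharP k p] (θ : G →* Equiv.Perm Ω)
    {D R R' : Subgroup G} (hD : IsPGroup p D) (h : R ≤ R')
    (h' : R' ≤ D ⊓ Subgroup.normalizer (R : Set G)) {i : MonoidAlgebra k G} (hi : Fix D i)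
    {v : Ω → k} (hv : ∀ r ∈ R', pr k θ r v = v) (ω : Ω) :
    (if ω ∈ fixS θ R' then act k θ (Br R i) v ω else 0) =
      act k θ (Br R' i) (fun x => if x ∈ fixS θ R' then v x else 0) ω := by
  have := Fintype.ofFinite G
  have hcen : ∀ g ∈ Subgroup.centralizer (R' : Set G), g ∈ Subgroup.normalizer (R' : Set G) :=
    fun g hg => Subgroup.centralizer_le_normalizer _ hg
  by_cases hω : ω ∈ fixS θ R'
  · rw [if_pos hω, act_apply, act_apply]
    have hR' : IsPGroup p R' := hD.to_le (h'.trans inf_le_left)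
    have hfix := fix_iff.1 (fix_Br_norm (R := R) hi)
    rw [orb_sum p hR' ((MulAut.toPerm G).comp (MulAut.conj.comp R'.subtype))
      (fun g => (Br R i).coeff g * v (θ g⁻¹ ω)) ?_
      (fun g => g ∈ Subgroup.centralizer (R' : Set G)) ?_]
    · rw [Finset.sum_filter]
      refine Finset.sum_congr rfl fun g _ => ?_
      by_cases hg : g ∈ Subgroup.centralizer (R' : Set G)
      · have h1 : g ∈ Subgroup.centralizer (R : Set G) := Subgroup.centralizer_le h hg
        have h2 : θ g⁻¹ ω ∈ fixS θ R' := fixS_norm θ (hcen _ (Subgroup.inv_mem _ hg)) hω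
        rw [if_pos hg, coeff_Br, coeff_Br, if_pos hg, if_pos h1, if_pos h2]
      · rw [if_neg hg, coeff_Br, if_neg hg, zero_mul]
    · intro r g
      show (Br R i).coeff (r * g * (r : G)⁻¹) * v (θ ((r : G) * g * (r : G)⁻¹)⁻¹ ω) = _
      rw [hfix r (h' r.2) g]
      congr 1
      have h1 : ((r : G) * g * (r : G)⁻¹)⁻¹ = (r : G)⁻¹⁻¹ * (g⁻¹ * (r : G)⁻¹) := by group
      rw [h1, b2_mul, b2_mul, hω _ (R'.inv_mem r.2)]
      exact congrFun (hv _ (R'.inv_mem r.2)) (θ g⁻¹ ω)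
    · intro g
      rw [Subgroup.mem_centralizer_iff]
      constructor
      · intro hg r
        show (r : G) * g * (r : G)⁻¹ = g
        rw [hg r r.2, mul_inv_cancel_right]
      · intro hg r hr
        have h1 : r * g * r⁻¹ = g := hg ⟨r, hr⟩
        rw [← mul_inv_eq_iff_eq_mul, h1]
  · rw [if_neg hω, act_apply]
    refine (Finset.sum_eq_zero fun g _ => ?_).symm
    by_cases hg : g ∈ Subgroup.centralizer (R' : Set G)
    · have h2 : θ g⁻¹ ω ∉ fixS θ R' := by
        intro h3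
        have h4 := fixS_norm θ (hcen _ hg) h3
        rw [b2_inv] at h4
        exact hω h4
      rw [if_neg h2, mul_zero]
    · rw [coeff_Br, if_neg hg, zero_mul]

omit [Finite G] [Finite Ω] in
theorem b2_rep (θ : G →* Equiv.Perm Ω) (Γ : Subgroup G) :
    ∃ rep : Ω → Ω, (∀ ω, ∃ γ ∈ Γ, θ γ (rep ω) = ω) ∧ ∀ γ ∈ Γ, ∀ ω, rep (θ γ ω) = rep ω := by
  let s : Setoid Ω :=
    { r := fun a b => ∃ γ ∈ Γ, θ γ a = b
      iseqv :=
        { refl := fun a => ⟨1, Γ.one_mem, by rw [map_one, Equiv.Perm.one_apply]⟩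
          symm := fun {a b} ⟨γ, hγ, e⟩ => ⟨γ⁻¹, Γ.inv_mem hγ, by
            rw [← e, ← b2_mul, inv_mul_cancel, map_one, Equiv.Perm.one_apply]⟩
          trans := fun {a b c} ⟨γ, hγ, e⟩ ⟨δ, hδ, e'⟩ => ⟨δ * γ, Γ.mul_mem hδ hγ, by
            rw [b2_mul, e, e']⟩ } }
  refine ⟨fun ω => (Quotient.mk s ω).out, fun ω => Quotient.mk_out (s := s) ω, fun γ hγ ω => ?_⟩
  have h1 : Quotient.mk s ω = Quotient.mk s (θ γ ω) := Quotient.sound ⟨γ, hγ, rfl⟩
  simp only [h1]

/- PLAN: choose one point in every `Γ`-orbit (`MulAction.orbitRel`, `Quotient.out`, or a choice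
function `rep : Ω → Ω` constant on orbits); `u = v` on the chosen points and `0` elsewhere.  If
`v ω ≠ 0` the stabiliser of `ω` in `Γ` contains `R` and is not larger, so it is `R`; the same holds
for `rep ω = θ γ ω`; exactly one `b` has `θ (t b)⁻¹ ω = rep ω`. -/
theorem exists_norm [Fintype T] (θ : G →* Equiv.Perm Ω) {R Γ : Subgroup G} (h : R ≤ Γ) {t : T → G}
    (ht : IsTr R Γ t) {S : Set Ω} (hS : S ⊆ fixS θ R) {v : Ω → k} (hv : v ∈ spt k S)
    (hinv : ∀ γ ∈ Γ, pr k θ γ v = v)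
    (h0 : ∀ R' : Subgroup G, R < R' → R' ≤ Γ → ∀ ω ∈ fixS θ R', v ω = 0) :
    ∃ u ∈ spt k S, ∑ b, pr k θ (t b) u = v := by
  classical
  obtain ⟨rep, hr1, hr2⟩ := b2_rep θ Γ
  have hinv' : ∀ γ ∈ Γ, ∀ ω, v (θ γ ω) = v ω := by
    intro γ hγ ω
    have h1 := congrFun (hinv γ⁻¹ (Γ.inv_mem hγ)) ω
    rwa [pr_apply, inv_inv] at h1
  refine ⟨fun ω => if rep ω = ω then v ω else 0, fun ω hω => ?_, ?_⟩
  · simp only [hv ω hω, ite_self]
  · funext ω
    rw [Finset.sum_apply]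
    simp only [pr_apply]
    have ht1 : ∀ b, (t b)⁻¹ ∈ Γ := fun b => Γ.inv_mem (ht.1 b)
    simp only [hr2 _ (ht1 _), hinv' _ (ht1 _)]
    by_cases hz : v ω = 0
    · simp only [hz, ite_self, Finset.sum_const_zero]
    · obtain ⟨γ, hγ, e⟩ := hr1 ω
      have hz' : v (rep ω) ≠ 0 := by
        rw [← hinv' γ hγ, e]; exact hz
      have hS' : rep ω ∈ fixS θ R := by
        refine hS ?_
        by_contra hn
        exact hz' (hv _ hn)
      let R' : Subgroup G := Γ ⊓ (MulAction.stabilizer (Equiv.Perm Ω) (rep ω)).comap θ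
      have hm : ∀ g, g ∈ R' ↔ g ∈ Γ ∧ θ g (rep ω) = rep ω := fun g => Iff.rfl
      have hle : R ≤ R' := fun r hr => (hm r).2 ⟨h hr, hS' r hr⟩
      have heq : R = R' := by
        by_contra hne
        exact hz' (h0 R' (lt_of_le_of_ne hle hne) inf_le_left _ fun r hr => ((hm r).1 hr).2)
      have key : ∀ b, rep ω = θ (t b)⁻¹ ω ↔ (t b)⁻¹ * γ ∈ R := by
        intro b
        rw [heq, hm, b2_mul, e]
        exact ⟨fun h1 => ⟨Γ.mul_mem (ht1 b) hγ, h1.symm⟩, fun h1 => h1.2.symm⟩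
      obtain ⟨b, hb, hb'⟩ := ht.2 γ hγ
      rw [Finset.sum_eq_single b]
      · rw [if_pos ((key b).2 hb)]
      · intro c _ hc
        rw [if_neg fun h1 => hc (hb' c ((key c).1 h1))]
      · intro h1
        exact absurd (Finset.mem_univ b) h1

theorem card_sub_le (D : Subgroup G) : Nat.card {R : Subgroup G // R ≤ D} ≤ 2 ^ Nat.card D := by
  classical
  have := Fintype.ofFinite D
  have h1 : Nat.card (Set D) = 2 ^ Nat.card D := by
    rw [Nat.card_eq_fintype_card, Nat.card_eq_fintype_card, Fintype.card_set]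
  rw [← h1]
  refine Nat.card_le_card_of_injective (fun R => {d : D | (d : G) ∈ R.1}) ?_
  intro R R' e
  refine Subtype.ext (Subgroup.ext fun g => ?_)
  have e' : ∀ d : D, (d : G) ∈ R.1 ↔ (d : G) ∈ R'.1 := fun d => Set.ext_iff.1 e d
  exact ⟨fun hg => (e' ⟨g, R.2 hg⟩).1 hg, fun hg => (e' ⟨g, R'.2 hg⟩).2 hg⟩

theorem b2_gen {X ι : Type} [AddCommGroup X] [Module k X] [FiniteDimensional k X] [Fintype ι]
    (W K : Submodule k X) (U : ι → Submodule k X) (f : ι → X →ₗ[k] X)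
    (hf : ∀ a, ∀ v ∈ W, f a v ∈ U a) (hK : ∀ v ∈ W, (∀ a, f a v = 0) → v ∈ K) :
    finrank k W ≤ finrank k K + ∑ a, finrank k (U a) := by
  let φ : W →ₗ[k] (∀ a, U a) :=
    LinearMap.pi fun a => ((f a).domRestrict W).codRestrict (U a) (fun v => hf a v v.2)
  have h1 := LinearMap.finrank_range_add_finrank_ker φ
  have h2 : finrank k (LinearMap.range φ) ≤ ∑ a, finrank k (U a) := by
    rw [← Module.finrank_pi_fintype]
    exact Submodule.finrank_le _
  have h3 : finrank k (LinearMap.ker φ) ≤ finrank k K := by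
    rw [← Submodule.finrank_map_subtype_eq]
    refine Submodule.finrank_mono ?_
    rintro _ ⟨v, hv, rfl⟩
    refine hK v v.2 fun a => ?_
    exact congrArg (fun x : ∀ a, U a => ((x a : U a) : X)) (LinearMap.mem_ker.1 hv)
  omega

open Classical in
/-- Restriction of functions to a subset. -/
noncomputable def b2_res (k : Type) [Field k] (S : Set Ω) : (Ω → k) →ₗ[k] (Ω → k) where
  toFun v := fun x => if x ∈ S then v x else 0
  map_add' u v := by
    funext x
    by_cases hx : x ∈ S <;> simp [hx]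
  map_smul' c v := by
    funext x
    by_cases hx : x ∈ S <;> simp [hx]

/- PLAN: `j = Br R i` is idempotent (`Br_mul`) and commutes with `Γ` (`fix_Br_norm`, `act_of`).
Map `W = V ⊓ invariants` linearly to the product over the `R'` with `R < R' ≤ Γ` of
`(spt k (fixS θ R')).map (act k θ (Br R' i))` by restriction (`act_Br_res`, `j v = v`); the kernel
lies in `V.map ν` (`exists_norm`, `v = j v = ν (j u)`).  Rank-nullity, `Module.finrank_pi_fintype`,
`card_sub_le`. -/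
theorem hh_bound (p : ℕ) [Fact p.Prime] [CharP k p] [Fintype T] (θ : G →* Equiv.Perm Ω)
    {D R : Subgroup G} (hD : IsPGroup p D) (h : R ≤ D) {i : MonoidAlgebra k G}
    (hi : IsIdempotentElem i) (hf : Fix D i) {t : T → G}
    (ht : IsTr R (D ⊓ Subgroup.normalizer (R : Set G)) t) {S : Set Ω} (hS : S ⊆ fixS θ R) {c : ℕ}
    (hc : ∀ R' : Subgroup G, R < R' → R' ≤ D → FR θ R' i ≤ c) (W : Submodule k (Ω → k))
    (hW : W ≤ (spt k S).map (act k θ (Br R i)))
    (hinv : ∀ v ∈ W, ∀ γ ∈ D ⊓ Subgroup.normalizer (R : Set G), pr k θ γ v = v)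
    (hV : ∀ v ∈ spt k S, act k θ (Br R i) v ∈ spt k S) :
    finrank k W ≤ finrank k (((spt k S).map (act k θ (Br R i))).map
      (∑ b, pr k θ (t b) : (Ω → k) →ₗ[k] (Ω → k))) + 2 ^ Nat.card D * c := by
  classical
  have hR : IsPGroup p R := hD.to_le h
  have hRΓ : R ≤ D ⊓ Subgroup.normalizer (R : Set G) := le_inf h Subgroup.le_normalizer
  have hj : Br R i * Br R i = Br R i := by
    rw [← Br_mul p hR (hf.mono h) (hf.mono h), hi.eq]
  have hjv : ∀ v ∈ W, act k θ (Br R i) v = v := by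
    intro v hv
    obtain ⟨u, -, rfl⟩ := hW hv
    rw [← Module.End.mul_apply, ← map_mul, hj]
  have hWS : ∀ v ∈ W, v ∈ spt k S := by
    intro v hv
    obtain ⟨u, hu, rfl⟩ := hW hv
    exact hV u hu
  have hcomm : ∀ γ ∈ D ⊓ Subgroup.normalizer (R : Set G), ∀ u,
      act k θ (Br R i) (pr k θ γ u) = pr k θ γ (act k θ (Br R i) u) := by
    intro γ hγ u
    rw [← act_of, ← Module.End.mul_apply, ← Module.End.mul_apply, ← map_mul, ← map_mul,
      fix_Br_norm hf γ hγ]
  let ι : Type := {R' : Subgroup G // R < R' ∧ R' ≤ D ⊓ Subgroup.normalizer (R : Set G)}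
  have := Fintype.ofFinite ι
  have hcard : Fintype.card ι ≤ 2 ^ Nat.card D := by
    rw [← Nat.card_eq_fintype_card]
    refine le_trans ?_ (card_sub_le D)
    refine Nat.card_le_card_of_injective
      (fun a : ι => (⟨a.1, a.2.2.trans inf_le_left⟩ : {R : Subgroup G // R ≤ D})) ?_
    intro a b e
    exact Subtype.ext (congrArg (fun x : {R : Subgroup G // R ≤ D} => x.1) e)
  refine le_trans (b2_gen W _ (fun a : ι => (spt k (fixS θ a.1)).map (act k θ (Br a.1 i)))
    (fun a => b2_res k (fixS θ a.1)) ?_ ?_) (Nat.add_le_add_left ?_ _)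
  · intro a v hv
    refine ⟨b2_res k (fixS θ a.1) v, fun ω hω => if_neg hω, ?_⟩
    funext ω
    have h1 := act_Br_res p θ hD a.2.1.le a.2.2 hf (fun r hr => hinv v hv r (a.2.2 hr)) ω
    rw [hjv v hv] at h1
    exact h1.symm
  · intro v hv h0
    obtain ⟨u, hu, e⟩ := exists_norm θ hRΓ ht hS (hWS v hv) (hinv v hv) (by
      intro R' h1 h2 ω hω
      have h3 : b2_res k (fixS θ R') v ω = v ω := if_pos hω
      rw [← h3]
      exact congrFun (h0 ⟨R', h1, h2⟩) ω)
    refine ⟨act k θ (Br R i) u, ⟨u, hu, rfl⟩, ?_⟩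
    rw [← hjv v hv, ← e, map_sum, LinearMap.sum_apply]
    exact Finset.sum_congr rfl fun b _ => (hcomm _ (ht.1 b) u).symm
  · refine le_trans (Finset.sum_le_card_nsmul _ _ c fun a _ => ?_) ?_
    · exact hc a.1 a.2.1 (a.2.2.trans inf_le_left)
    · rw [smul_eq_mul, Finset.card_univ]
      exact Nat.mul_le_mul_right _ hcard

end Pool.Agent.Puig
end

-- merged part: Pool.Agent.Work.MP_cea1f0_al.W2
section
/-! Central elements of the group algebra of `C(x)` act on the `x`-fixed flags by the augmentation. -/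

namespace Pool.Agent.Puig

open Module Classical

variable {K V : Type} [Field K] [AddCommGroup V] [Module K V] [Finite V]

theorem w2_map {x : V ≃ₗ[K] V} {U : Submodule K V} (h : ∀ v ∈ U, x v ∈ U) :
    U.map (x : V →ₗ[K] V) = U :=
  Submodule.eq_of_le_of_finrank_eq (Submodule.map_le_iff_le_comap.2 h) (x.finrank_map_eq U)

/- PLAN: Maschke: average a projection of `U'` onto `U` over the powers of `x`; or
`LinearMap.exists_isCompl`-type lemma for the semisimple endomorphism `x`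
(`Module.End.isSemisimple_of_squarefree_aeval_eq_zero`, `Module.End.isSemisimple_iff`). -/
theorem exists_inv_compl (p : ℕ) [Fact p.Prime] (hp : (p : K) ≠ 0) {x : V ≃ₗ[K] V} (hx : x ^ p = 1)
    {U U' : Submodule K V} (h : U ≤ U') (hU : U.map (x : V →ₗ[K] V) = U)
    (hU' : U'.map (x : V →ₗ[K] V) = U') :
    ∃ W : Submodule K V, W.map (x : V →ₗ[K] V) = W ∧ U ⊓ W = ⊥ ∧ U ⊔ W = U' := by
  have hs : Module.End.IsSemisimple (x : V →ₗ[K] V) :=
    Module.End.isSemisimple_of_squarefree_aeval_eq_zero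
      (Polynomial.X_pow_sub_one_separable_iff.2 hp).squarefree (by
        rw [map_sub, map_pow, Polynomial.aeval_X, map_one, sub_eq_zero]
        exact (map_pow LinearEquiv.automorphismGroup.toLinearMapMonoidHom x p).symm.trans
          (by rw [hx, map_one]))
  obtain ⟨W, h1, h2⟩ := Module.End.isSemisimple_iff.1 hs U
    (Submodule.map_le_iff_le_comap.1 hU.le)
  refine ⟨W ⊓ U', w2_map fun v hv => ⟨h1 hv.1, hU'.le ⟨v, hv.2, rfl⟩⟩, ?_, ?_⟩
  · rw [← inf_assoc, h2.inf_eq_bot, bot_inf_eq]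
  · rw [← sup_inf_assoc_of_le W h, h2.sup_eq_top, top_inf_eq]

theorem w2_grid {A B : ℕ → Submodule K V} (hA : Monotone A) (hB : Monotone B) (A0 : A 0 = ⊥)
    (B0 : B 0 = ⊥) {C : ℕ → ℕ → Submodule K V}
    (h1 : ∀ a b, (A a ⊓ B (b + 1) ⊔ A (a + 1) ⊓ B b) ⊓ C a b = ⊥)
    (h2 : ∀ a b, (A a ⊓ B (b + 1) ⊔ A (a + 1) ⊓ B b) ⊔ C a b = A (a + 1) ⊓ B (b + 1)) (s t : ℕ) :
    A s ⊓ B t = ⨆ a < s, ⨆ b < t, C a b ∧
      finrank K (A s ⊓ B t : Submodule K V) =
        ∑ a ∈ Finset.range s, ∑ b ∈ Finset.range t, finrank K (C a b) := by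
  refine ⟨le_antisymm ?_ (iSup₂_le fun a ha => iSup₂_le fun b hb =>
    (le_sup_right.trans (h2 a b).le).trans (inf_le_inf (hA ha) (hB hb))), ?_⟩
  · induction s generalizing t with
    | zero => rw [A0, bot_inf_eq]; exact bot_le
    | succ s ih =>
      induction t with
      | zero => rw [B0, inf_bot_eq]; exact bot_le
      | succ t ih' =>
        rw [← h2]
        refine sup_le (sup_le ((ih _).trans ?_) (ih'.trans ?_)) ?_
        · exact biSup_mono fun a ha => Nat.lt_succ_of_lt ha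
        · exact iSup₂_mono fun a _ => biSup_mono fun b hb => Nat.lt_succ_of_lt hb
        · exact le_iSup₂_of_le s s.lt_succ_self (le_iSup₂_of_le t t.lt_succ_self le_rfl)
  · induction s generalizing t with
    | zero => rw [A0, bot_inf_eq, finrank_bot, Finset.sum_range_zero]
    | succ s ih =>
      induction t with
      | zero => rw [B0, inf_bot_eq, finrank_bot]; simp
      | succ t ih' =>
        have k1 := Submodule.finrank_sup_add_finrank_inf_eq
          (A s ⊓ B (t + 1) ⊔ A (s + 1) ⊓ B t) (C s t)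
        have k2 := Submodule.finrank_sup_add_finrank_inf_eq (A s ⊓ B (t + 1)) (A (s + 1) ⊓ B t)
        rw [h1, h2, finrank_bot] at k1
        rw [inf_inf_inf_comm, inf_eq_left.2 (hA s.le_succ), inf_eq_right.2 (hB t.le_succ), ih, ih,
          ih', Finset.sum_range_succ] at k2
        rw [Finset.sum_range_succ, Finset.sum_range_succ]
        omega

/- PLAN: `C (a, b)` is a complement in `L` of `F a.castSucc ⊓ F' b.succ ⊔ F a.succ ⊓ F' b.castSucc` in
`F a.succ ⊓ F' b.succ`.  By induction `F s ⊓ F' t = ⨆ a < s, b < t, C (a, b)` and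
`finrank (F s ⊓ F' t) = ∑ a < s, b < t, finrank (C (a, b))`
(`Submodule.finrank_sup_add_finrank_inf_eq`); a spanning family whose dimensions add up is
independent.  It may be easier to index the flags by `ℕ`. -/
theorem two_flags {n : ℕ} (L : Set (Submodule K V)) (h1 : ∀ U ∈ L, ∀ U' ∈ L, U ⊓ U' ∈ L)
    (h2 : ∀ U ∈ L, ∀ U' ∈ L, U ⊔ U' ∈ L)
    (h3 : ∀ U ∈ L, ∀ U' ∈ L, U ≤ U' → ∃ W ∈ L, U ⊓ W = ⊥ ∧ U ⊔ W = U') (F F' : Fl n K V)
    (hF : ∀ t, F.1 t ∈ L) (hF' : ∀ t, F'.1 t ∈ L) :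
    ∃ C : Fin n × Fin n → Submodule K V, (∀ z, C z ∈ L) ∧ DirectSum.IsInternal C ∧
      (∀ t, F.1 t = ⨆ z ∈ {z : Fin n × Fin n | (z.1 : ℕ) < t}, C z) ∧
      ∀ t, F'.1 t = ⨆ z ∈ {z : Fin n × Fin n | (z.2 : ℕ) < t}, C z := by
  let τ : ℕ → Fin (n + 1) := fun s => ⟨min s n, Nat.lt_succ_of_le (min_le_right _ _)⟩
  have mτ : Monotone τ := fun _ _ h => min_le_min_right n h
  have τ0 : τ 0 = 0 := Fin.ext (Nat.zero_min n)
  have τn : τ n = Fin.last n := Fin.ext (min_self n)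
  have τt : ∀ t : Fin (n + 1), τ t = t := fun t => Fin.ext (min_eq_left t.is_le)
  have mA := F.2.1.comp mτ
  have mB := F'.2.1.comp mτ
  choose C c1 c2 c3 using fun a b : ℕ => h3 _
    (h2 _ (h1 _ (hF (τ a)) _ (hF' (τ (b + 1)))) _ (h1 _ (hF (τ (a + 1))) _ (hF' (τ b)))) _
    (h1 _ (hF (τ (a + 1))) _ (hF' (τ (b + 1))))
    (sup_le (inf_le_inf_right _ (mA a.le_succ)) (inf_le_inf_left _ (mB b.le_succ)))
  have key := w2_grid (A := fun s => F.1 (τ s)) (B := fun s => F'.1 (τ s)) mA mB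
    ((congrArg F.1 τ0).trans F.2.2.1) ((congrArg F'.1 τ0).trans F'.2.2.1) c2 c3
  have sp : ∀ s t (P : Fin n × Fin n → Prop), s ≤ n → t ≤ n → (∀ z, P z ↔ z.1 < s ∧ z.2 < t) →
      F.1 (τ s) ⊓ F'.1 (τ t) = ⨆ z ∈ {z | P z}, C z.1 z.2 := fun s t P hs ht hP => by
    rw [(key s t).1]
    refine le_antisymm (iSup₂_le fun a ha => iSup₂_le fun b hb => le_iSup₂_of_le
      (⟨a, by omega⟩, ⟨b, by omega⟩) ((hP _).2 ⟨ha, hb⟩) le_rfl) (iSup₂_le fun z hz => ?_)
    exact le_iSup₂_of_le z.1 ((hP z).1 hz).1 (le_iSup₂_of_le z.2 ((hP z).1 hz).2 le_rfl)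
  refine ⟨fun z => C z.1 z.2, fun z => c1 _ _, ?_, fun t => ?_, fun t => ?_⟩
  · have k1 := sp n n (fun _ => True) le_rfl le_rfl fun z => by simp
    have e : F.1 (τ n) ⊓ F'.1 (τ n) = ⊤ := by rw [τn, F.2.2.2, F'.2.2.2, top_inf_eq]
    have k2 := (congrArg (fun U : Submodule K V => finrank K U) e).symm.trans (key n n).2
    rw [e] at k1
    have k3 : Function.Surjective (DirectSum.coeLinearMap fun z : Fin n × Fin n => C z.1 z.2) := by
      rw [← LinearMap.range_eq_top, DirectSum.range_coeLinearMap, k1]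
      simp
    refine ⟨(LinearMap.injective_iff_surjective_of_finrank_eq_finrank ?_).2 k3, k3⟩
    rw [finrank_directSum, ← finrank_top K V, k2, Fintype.sum_prod_type, Finset.sum_range]
    exact Finset.sum_congr rfl fun a _ => (Finset.sum_range fun b => finrank K (C a b)).symm
  · rw [← sp t n (fun z => (z.1 : ℕ) < t) t.is_le le_rfl fun z => by simp, τn, τt, F'.2.2.2,
      inf_top_eq]
  · rw [← sp n t (fun z => (z.2 : ℕ) < t) le_rfl t.is_le fun z => by simp, τn, τt, F.2.2.2,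
      top_inf_eq]

omit [Finite V] in
theorem w2_ext {ι : Type} {C : ι → Submodule K V} (hC : DirectSum.IsInternal C)
    {f g : V →ₗ[K] V} (h : ∀ z, ∀ v ∈ C z, f v = g v) : f = g :=
  LinearMap.eqLocus_eq_top.1 (top_le_iff.1 (hC.submodule_iSup_eq_top.ge.trans (iSup_le h)))

omit [Finite V] in
theorem w2_lin {ι : Type} {C : ι → Submodule K V} (hC : DirectSum.IsInternal C)
    (y : ι → V ≃ₗ[K] V) : ∃ u : V →ₗ[K] V, ∀ z, ∀ v ∈ C z, u v = y z v := by
  let e := LinearEquiv.ofBijective (DirectSum.coeLinearMap C) hC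
  refine ⟨DirectSum.toModule K ι V (fun z => (y z : V →ₗ[K] V) ∘ₗ (C z).subtype) ∘ₗ
    (e.symm : V →ₗ[K] _), fun z v hv => ?_⟩
  have k : e.symm v = DirectSum.lof K ι (fun z => C z) z ⟨v, hv⟩ :=
    e.symm_apply_eq.2 (DirectSum.coeLinearMap_lof C z ⟨v, hv⟩).symm
  rw [LinearMap.comp_apply, LinearEquiv.coe_coe, k, DirectSum.toModule_lof]
  rfl

omit [Finite V] in
theorem w2_glue {ι : Type} {C : ι → Submodule K V} (hC : DirectSum.IsInternal C)
    (y : ι → V ≃ₗ[K] V) (h : ∀ z, (C z).map (y z : V →ₗ[K] V) = C z) :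
    ∃ u : V ≃ₗ[K] V, ∀ z, ∀ v ∈ C z, u v = y z v := by
  obtain ⟨u, hu⟩ := w2_lin hC y
  obtain ⟨w, hw⟩ := w2_lin hC fun z => (y z).symm
  refine ⟨LinearEquiv.ofLinearMap u w (w2_ext hC fun z v hv => ?_) (w2_ext hC fun z v hv => ?_), hu⟩
  · obtain ⟨t, ht, rfl⟩ := (h z).ge hv
    rw [LinearMap.comp_apply, hw z _ hv, LinearEquiv.coe_coe, LinearEquiv.symm_apply_apply,
      hu z t ht, LinearMap.id_apply]
  · rw [LinearMap.comp_apply, hu z v hv, hw z (y z v) ((h z).le ⟨v, hv, rfl⟩),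
      LinearEquiv.symm_apply_apply, LinearMap.id_apply]

/- PLAN: with the projections `π z` of the decomposition put `x z = 1 + (x - 1) * π z`; these commute,
have `p`-th power `1`; `Q` is the group they generate (`IsPGroup` since abelian and generated by
elements of order dividing `p`; or the image of `ι → Multiplicative (ZMod p)`).  An element commuting
with `x z` preserves the range `C z` of `x z - 1`. -/
theorem exists_torus (p : ℕ) [Fact p.Prime] {x : V ≃ₗ[K] V} (hx : x ^ p = 1)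
    (h0 : ∀ b, x b = b → b = 0) {ι : Type} [Fintype ι] {C : ι → Submodule K V}
    (hC : DirectSum.IsInternal C) (h : ∀ z, (C z).map (x : V →ₗ[K] V) = C z) :
    ∃ Q : Subgroup (V ≃ₗ[K] V), IsPGroup p Q ∧ (∀ u ∈ Q, Commute u x) ∧
      (∀ u ∈ Q, ∀ z, (C z).map (u : V →ₗ[K] V) = C z) ∧
      ∀ g : V ≃ₗ[K] V, (∀ u ∈ Q, Commute g u) → ∀ z, (C z).map (g : V →ₗ[K] V) = C z := by
  have hp := (Fact.out : p.Prime).pos
  have h1 : ∀ z, ∀ v ∈ C z, x v ∈ C z := fun z v hv => (h z).le ⟨v, hv, rfl⟩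
  have hk : ∀ z (k : ℕ), ∀ v ∈ C z, (x ^ k) v ∈ C z := fun z k => by
    induction k with
    | zero => exact fun v hv => hv
    | succ k ih => exact fun v hv => by rw [pow_succ]; exact ih _ (h1 z v hv)
  have ex : ∀ {u w : V ≃ₗ[K] V}, (∀ z, ∀ v ∈ C z, u v = w v) → u = w := fun e =>
    LinearEquiv.toLinearMap_injective (w2_ext hC e)
  let Q : Subgroup (V ≃ₗ[K] V) :=
    { carrier := {u | ∀ z, ∃ k : ℕ, ∀ v ∈ C z, u v = (x ^ k) v}
      one_mem' := fun _ => ⟨0, fun _ _ => rfl⟩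
      mul_mem' := fun {u w} hu hw z => by
        obtain ⟨k, e⟩ := hu z
        obtain ⟨l, e'⟩ := hw z
        exact ⟨k + l, fun v hv => by
          rw [pow_add, LinearEquiv.mul_apply, LinearEquiv.mul_apply, e' v hv, e _ (hk z l v hv)]⟩
      inv_mem' := fun {u} hu z => by
        obtain ⟨k, e⟩ := hu z
        refine ⟨k * (p - 1), fun v hv => u.symm_apply_eq.2 ?_⟩
        rw [e _ (hk z _ v hv), ← LinearEquiv.mul_apply, ← pow_add, ← mul_one_add,
          show 1 + (p - 1) = p by omega, mul_comm, pow_mul, hx, one_pow]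
        rfl }
  refine ⟨Q, fun u => ⟨1, Subtype.ext (ex fun z v hv => ?_)⟩, fun u hu => ex fun z v hv => ?_,
    fun u hu z => w2_map fun v hv => ?_, fun g hg z => w2_map fun v hv => ?_⟩
  · obtain ⟨k, e⟩ := u.2 z
    have k1 : ∀ m : ℕ, ((u : V ≃ₗ[K] V) ^ m) v = ((x ^ k) ^ m) v := fun m => by
      induction m with
      | zero => rfl
      | succ m ih =>
        rw [pow_succ', pow_succ', LinearEquiv.mul_apply, LinearEquiv.mul_apply, ih, ← pow_mul,
          e _ (hk z _ v hv)]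
    rw [pow_one, Subgroup.coe_pow, k1, ← pow_mul, mul_comm, pow_mul, hx, one_pow]
    rfl
  · obtain ⟨k, e⟩ := hu z
    rw [LinearEquiv.mul_apply, LinearEquiv.mul_apply, e v hv, e _ (h1 z v hv),
      ← LinearEquiv.mul_apply, ← LinearEquiv.mul_apply, ← pow_succ, ← pow_succ']
  · obtain ⟨k, e⟩ := hu z
    exact e v hv ▸ hk z k v hv
  · obtain ⟨u, hu⟩ := w2_glue hC (fun t => if t = z then x else 1) fun t => by
      split_ifs
      exacts [h t, Submodule.map_id _]
    have k1 : u ∈ Q := fun t => ⟨if t = z then 1 else 0, fun w hw => by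
      rw [hu t w hw]
      split_ifs
      exacts [by rw [pow_one], rfl]⟩
    have k2 : ∀ w, u w - w ∈ C z := fun w => by
      refine (hC.submodule_iSup_eq_top.ge.trans (iSup_le fun t w hw => ?_) : ⊤ ≤
        (C z).comap ((u : V →ₗ[K] V) - LinearMap.id)) (Submodule.mem_top (x := w))
      change u w - w ∈ C z
      rw [hu t w hw]
      split_ifs with e
      · exact e ▸ sub_mem (h1 t w hw) hw
      · exact (sub_self w).symm ▸ zero_mem _
    obtain ⟨w, hw⟩ := Finite.injective_iff_surjective.1 (show Function.Injective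
      fun w : C z => (⟨x w - w, sub_mem (h1 z w w.2) w.2⟩ : C z) from fun a b e =>
        Subtype.ext (sub_eq_zero.1 (h0 _ (by
          rw [map_sub]
          exact sub_eq_sub_iff_sub_eq_sub.1 (congrArg Subtype.val e))))) ⟨v, hv⟩
    have k3 : x w - w = v := congrArg Subtype.val hw
    have k4 : g (u w) = u (g w) := congrArg (fun t : V ≃ₗ[K] V => t w) (hg u k1).eq
    rw [hu z w w.2, if_pos rfl] at k4
    rw [← k3, map_sub, k4]
    exact k2 _

/- PLAN: `two_flags`, `exists_torus`; `orb_sum` for `Q` acting on the group by conjugation, applied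
to `g ↦ if θ g F' = F then z g else 0` and to `z`; an element centralising `Q` fixes `F'`. -/
theorem flag_scalar (p : ℕ) [Fact p.Prime] (hp : (p : K) ≠ 0) {k : Type} [Field k] [CharP k p]
    {x : V ≃ₗ[K] V} (hx : x ^ p = 1) (h0 : ∀ b, x b = b → b = 0) {z : (V ≃ₗ[K] V) → k}
    (hz : ∀ u g, Commute u x → z (u * g * u⁻¹) = z g) {n : ℕ} {F F' : Fl n K V}
    (hF : flAct n K V x F = F) (hF' : flAct n K V x F' = F') :
    ∑ g, (if flAct n K V g F' = F then z g else 0) = if F = F' then ∑ g, z g else 0 := by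
  obtain ⟨C, c1, c2, c3, c4⟩ := two_flags {U | U.map (x : V →ₗ[K] V) = U}
    (fun U hU U' hU' => w2_map fun v hv => ⟨hU.le ⟨v, hv.1, rfl⟩, hU'.le ⟨v, hv.2, rfl⟩⟩)
    (fun U hU U' hU' => (Submodule.map_sup _ _ _).trans (congrArg₂ _ hU hU'))
    (fun U hU U' hU' h => exists_inv_compl p hp hx h hU hU') F F'
    (fun t => congrArg (fun E : Fl n K V => E.1 t) hF)
    (fun t => congrArg (fun E : Fl n K V => E.1 t) hF')
  obtain ⟨Q, q1, q2, q3, q4⟩ := exists_torus p hx h0 (cast (congrArg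
    (fun i => @DirectSum.IsInternal _ _ _ i _ _ _ C) (Subsingleton.elim _ _)) c2) c1
  have fx : ∀ g : V ≃ₗ[K] V, (∀ z, (C z).map (g : V →ₗ[K] V) = C z) →
      flAct n K V g F = F ∧ flAct n K V g F' = F' := fun g hg =>
    ⟨Subtype.ext (funext fun t => by simp only [flAct_apply, c3 t, Submodule.map_iSup, hg]),
      Subtype.ext (funext fun t => by simp only [flAct_apply, c4 t, Submodule.map_iSup, hg])⟩
  let θ : Q →* Equiv.Perm (V ≃ₗ[K] V) := (MulAut.toPerm _).comp (MulAut.conj.comp Q.subtype)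
  have hθ : ∀ r g, θ r g = r * g * (r : V ≃ₗ[K] V)⁻¹ := fun _ _ => rfl
  have k1 := orb_sum p q1 θ (fun g => if flAct n K V g F' = F then z g else 0) (fun r g => by
    have e1 := (fx r (q3 r r.2)).1
    have e2 := (fx _ (q3 _ (Q.inv_mem r.2))).2
    rw [hθ, hz _ _ (q2 r r.2), map_mul, map_mul, Equiv.Perm.mul_apply, Equiv.Perm.mul_apply, e2]
    exact if_congr ((congrArg₂ _ rfl e1.symm).to_iff.trans (Equiv.apply_eq_iff_eq _)) rfl rfl)
    _ fun _ => Iff.rfl
  have k2 := orb_sum p q1 θ z (fun r g => hz _ _ (q2 r r.2)) _ fun _ => Iff.rfl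
  rw [k1, k2, Finset.sum_congr rfl (g := fun g => if F = F' then z g else 0) fun g hg => by
    rw [(fx g (q4 g fun u hu => (mul_inv_eq_iff_eq_mul.1
      ((Finset.mem_filter.1 hg).2 ⟨u, hu⟩)).symm)).2]
    exact if_congr eq_comm rfl rfl]
  split_ifs
  exacts [rfl, Finset.sum_const_zero]

end Pool.Agent.Puig
end

-- merged part: Pool.Agent.Work.MP_cea1f0_al.D.Ob
section
/-!
# The Hall algebra of the general linear groups  (tasks PD ObA, PD ObB)

An object is a finite dimensional space with an automorphism.  `CF K A` is the ring of the functions on the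
objects with values in `A` that are invariant under isomorphisms, with the product
`(f * g) M = ∑ N, f N * g (M / N)`, the sum over the invariant subspaces.
* `Iso.inv`: `N ↦ N.map e`; `LinearEquiv.submoduleMap`, `Submodule.Quotient.equiv`.
* `flag_equiv`: both sides parametrise the pairs `N' ≤ N` of invariant subspaces; `Submodule.map N.subtype`,
  `Submodule.comapMkQRelIso`, `Submodule.quotientQuotientEquivQuotient`, `Submodule.comapSubtypeEquivOfLe`.
* `isUnit_of_eps`: define the right inverse by recursion on the dimension (or: `1 - f` raises the filtration by the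
  dimension, so `M ↦ (∑ k ∈ range (dim M + 1), (1 - f) ^ k) M` is a two sided inverse).
-/

namespace PD

open Module

/-- The pairs with given sum. -/
abbrev ad (n : ℕ) : Finset (ℕ × ℕ) := Finset.HasAntidiagonal.antidiagonal n

/-- A finite dimensional vector space with an automorphism. -/
structure Ob (K : Type) [Field K] where
  /-- The space. -/
  V : Type
  [acg : AddCommGroup V]
  [mod : Module K V]
  [fd : FiniteDimensional K V]
  /-- The automorphism. -/
  φ : Module.End K V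
  inj : Function.Injective φ

attribute [instance] Ob.acg Ob.mod Ob.fd

namespace Ob

variable {K : Type} [Field K]

/-- The dimension. -/
noncomputable def dim (M : Ob K) : ℕ := finrank K M.V

/-- Isomorphic objects. -/
def Iso (M N : Ob K) : Prop := ∃ e : M.V ≃ₗ[K] N.V, ∀ x, e (M.φ x) = N.φ (e x)

/-- Invariant subspaces. -/
def Inv (M : Ob K) : Type := {N : Submodule K M.V // ∀ x ∈ N, M.φ x ∈ N}

instance [Finite K] (M : Ob K) : Finite M.V := Module.finite_of_finite K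

noncomputable instance [Finite K] (M : Ob K) : Fintype M.Inv :=
  haveI : Finite (Submodule K M.V) :=
    Finite.of_injective (fun N : Submodule K M.V => (N : Set M.V)) SetLike.coe_injective
  haveI : Finite M.Inv := inferInstanceAs (Finite {N : Submodule K M.V // ∀ x ∈ N, M.φ x ∈ N})
  Fintype.ofFinite _

/-- The subobject. -/
def sub (M : Ob K) (N : M.Inv) : Ob K where
  V := N.1
  φ := M.φ.restrict N.2
  inj := fun _ _ h => Subtype.ext (M.inj (congrArg Subtype.val h))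

/-- The quotient object. -/
def quo (M : Ob K) (N : M.Inv) : Ob K where
  V := M.V ⧸ N.1
  φ := N.1.mapQ N.1 M.φ N.2
  inj := LinearMap.injective_iff_surjective.2 fun x => by
    obtain ⟨y, rfl⟩ := N.1.mkQ_surjective x
    obtain ⟨z, rfl⟩ := LinearMap.injective_iff_surjective.1 M.inj y
    exact ⟨N.1.mkQ z, rfl⟩

/-- The extension of two objects given by a linear map. -/
def ext (M₁ M₂ : Ob K) (B : M₂.V →ₗ[K] M₁.V) : Ob K where
  V := M₁.V × M₂.V
  φ := (M₁.φ ∘ₗ LinearMap.fst K _ _ + B ∘ₗ LinearMap.snd K _ _).prod (M₂.φ ∘ₗ LinearMap.snd K _ _)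
  inj := by
    rw [injective_iff_map_eq_zero]
    rintro ⟨x, y⟩ h
    have h2 : y = 0 := (injective_iff_map_eq_zero _).1 M₂.inj y (congrArg Prod.snd h)
    have h1 : M₁.φ x + B y = 0 := congrArg Prod.fst h
    rw [h2, map_zero, add_zero] at h1
    rw [h2, (injective_iff_map_eq_zero _).1 M₁.inj x h1]
    rfl

/-- The object defined by an element of a general linear group. -/
def of {V : Type} [AddCommGroup V] [Module K V] [FiniteDimensional K V] (g : (Module.End K V)ˣ) :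
    Ob K where
  V := V
  φ := g.1
  inj := (Module.End.isUnit_iff _).1 g.isUnit |>.1

/-- The zero object. -/
def zero (K : Type) [Field K] : Ob K := of (1 : (Module.End K (Fin 0 → K))ˣ)

/-- The zero subspace. -/
def bot (M : Ob K) : M.Inv := ⟨⊥, fun x hx => by rw [(Submodule.mem_bot K).1 hx, map_zero]; rfl⟩

/-- The whole space. -/
def top (M : Ob K) : M.Inv := ⟨⊤, fun _ _ => trivial⟩

theorem ext_apply (M₁ M₂ : Ob K) (B : M₂.V →ₗ[K] M₁.V) (x : M₁.V) (y : M₂.V) :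
    (ext M₁ M₂ B).φ (x, y) = (M₁.φ x + B y, M₂.φ y) := rfl

/-! ### Task PD ObA -/

theorem Iso.refl (M : Ob K) : Iso M M := ⟨.refl K _, fun _ => rfl⟩

theorem Iso.symm {M N : Ob K} (h : Iso M N) : Iso N M := by
  obtain ⟨e, h⟩ := h
  exact ⟨e.symm, fun x => e.injective (by rw [h, e.apply_symm_apply, e.apply_symm_apply])⟩

theorem Iso.trans {M N P : Ob K} (h : Iso M N) (h' : Iso N P) : Iso M P := by
  obtain ⟨e, h⟩ := h
  obtain ⟨e', h'⟩ := h'
  exact ⟨e.trans e', fun x => by rw [e.trans_apply, h, h', e.trans_apply]⟩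

theorem Iso.dim_eq {M N : Ob K} (h : Iso M N) : M.dim = N.dim := h.elim fun e _ => e.finrank_eq

theorem dim_zero : (zero K).dim = 0 := (finrank_fin_fun K : finrank K (Fin 0 → K) = 0)

theorem iso_zero {M : Ob K} (h : M.dim = 0) : Iso M (zero K) :=
  ⟨.ofFinrankEq _ _ (h.trans dim_zero.symm), fun _ => Subsingleton.elim (α := Fin 0 → K) _ _⟩

theorem dim_sub_add (M : Ob K) (N : M.Inv) : (M.sub N).dim + (M.quo N).dim = M.dim :=
  (add_comm _ _).trans N.1.finrank_quotient_add_finrank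

theorem dim_ext (M₁ M₂ : Ob K) (B : M₂.V →ₗ[K] M₁.V) : (ext M₁ M₂ B).dim = M₁.dim + M₂.dim :=
  finrank_prod

theorem dim_sub_eq_zero {M : Ob K} {N : M.Inv} : (M.sub N).dim = 0 ↔ N = M.bot :=
  Submodule.finrank_eq_zero.trans (Subtype.ext_iff (a1 := N) (a2 := M.bot)).symm

theorem dim_quo_eq_zero {M : Ob K} {N : M.Inv} : (M.quo N).dim = 0 ↔ N = M.top :=
  ((finrank_zero_iff (M := (M.quo N).V)).trans Submodule.Quotient.subsingleton_iff).trans
    (Subtype.ext_iff (a1 := N) (a2 := M.top)).symm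

theorem iso_sub_top (M : Ob K) : Iso (M.sub M.top) M := ⟨Submodule.topEquiv, fun _ => rfl⟩

theorem ObA_range {V W : Type} [AddCommGroup V] [Module K V] [AddCommGroup W] [Module K W]
    (f : V →ₗ[K] W) (N : Submodule K V) : LinearMap.range (f ∘ₗ N.subtype) = N.map f := by
  rw [LinearMap.range_comp, Submodule.range_subtype]

theorem ObA_ker {V W : Type} [AddCommGroup V] [Module K V] [AddCommGroup W] [Module K W]
    (f : V →ₗ[K] W) (N : Submodule K W) : LinearMap.ker (N.mkQ ∘ₗ f) = N.comap f := by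
  rw [LinearMap.ker_comp, Submodule.ker_mkQ]

theorem ObA_inj {M N : Ob K} {W : Type} [AddCommGroup W] [Module K W] (i : M.V →ₗ[K] W)
    (j : N.V →ₗ[K] W) (hi : Function.Injective i) (hj : Function.Injective j)
    (h : LinearMap.range i = LinearMap.range j) (ψ : W → W) (ei : ∀ x, i (M.φ x) = ψ (i x))
    (ej : ∀ x, j (N.φ x) = ψ (j x)) : Iso M N := by
  let e := (LinearEquiv.ofInjective i hi).trans
    ((LinearEquiv.ofEq _ _ h).trans (LinearEquiv.ofInjective j hj).symm)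
  have k : ∀ x, j (e x) = i x := fun x => LinearEquiv.ofInjective_symm_apply (h := hj) _ _
  exact ⟨e, fun x => hj (by rw [k, ej, k, ei])⟩

theorem ObA_surj {M N : Ob K} {W : Type} [AddCommGroup W] [Module K W] (p : W →ₗ[K] M.V)
    (q : W →ₗ[K] N.V) (hp : Function.Surjective p) (hq : Function.Surjective q)
    (h : LinearMap.ker p = LinearMap.ker q) (ψ : W → W) (ep : ∀ x, p (ψ x) = M.φ (p x))
    (eq : ∀ x, q (ψ x) = N.φ (q x)) : Iso M N := by
  let e := (p.quotKerEquivOfSurjective hp).symm.trans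
    ((Submodule.quotEquivOfEq _ _ h).trans (q.quotKerEquivOfSurjective hq))
  have k : ∀ x, e (p x) = q x := fun x => by
    simp only [e, LinearEquiv.trans_apply, LinearMap.quotKerEquivOfSurjective_symm_apply]
    rfl
  refine ⟨e, fun x => ?_⟩
  obtain ⟨x, rfl⟩ := hp x
  rw [← ep, k, k, eq]

theorem iso_quo_bot (M : Ob K) : Iso (M.quo M.bot) M :=
  ObA_surj (Submodule.mkQ ⊥) .id (Submodule.mkQ_surjective _) Function.surjective_id
    ((Submodule.ker_mkQ _).trans LinearMap.ker_id.symm) M.φ (fun _ => rfl) fun _ => rfl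

theorem Iso.inv {M M' : Ob K} (h : Iso M M') : ∃ e : M.Inv ≃ M'.Inv,
    ∀ N, Iso (M.sub N) (M'.sub (e N)) ∧ Iso (M.quo N) (M'.quo (e N)) := by
  obtain ⟨e, h⟩ := h
  refine ⟨(Submodule.orderIsoMapComap e).toEquiv.subtypeEquiv fun N => ⟨?_, fun k x hx => ?_⟩,
    fun N => ⟨ObA_inj (e.toLinearMap ∘ₗ N.1.subtype) (N.1.map e.toLinearMap).subtype
      (e.injective.comp N.1.injective_subtype) (Submodule.injective_subtype _)
      ((ObA_range _ _).trans (Submodule.range_subtype _).symm) M'.φ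
      (fun x => h x.1) fun _ => rfl,
    ObA_surj N.1.mkQ ((N.1.map e.toLinearMap).mkQ ∘ₗ e.toLinearMap) N.1.mkQ_surjective
      ((Submodule.mkQ_surjective _).comp e.surjective)
      (N.1.ker_mkQ.trans ((ObA_ker _ _).trans
        (Submodule.comap_map_eq_of_injective e.injective _)).symm) M.φ (fun _ => rfl)
      fun x => congrArg (N.1.map e.toLinearMap).mkQ (h x)⟩⟩
  · rintro k _ ⟨x, hx, rfl⟩
    exact ⟨_, k x hx, h x⟩
  · obtain ⟨y, hy, e'⟩ := k _ ⟨x, hx, rfl⟩
    rwa [← e.injective (Eq.trans e' (h x).symm)]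

theorem flag_equiv (M : Ob K) :
    ∃ e : (Σ N : M.Inv, (M.sub N).Inv) ≃ (Σ N : M.Inv, (M.quo N).Inv), ∀ x,
      Iso ((M.sub x.1).sub x.2) (M.sub (e x).1) ∧
      Iso ((M.sub x.1).quo x.2) ((M.quo (e x).1).sub (e x).2) ∧
      Iso (M.quo x.1) ((M.quo (e x).1).quo (e x).2) := by
  let T := {p : M.Inv × M.Inv // p.1.1 ≤ p.2.1}
  let a : T → Σ N : M.Inv, (M.sub N).Inv := fun t =>
    ⟨t.1.2, t.1.1.1.comap t.1.2.1.subtype, fun x hx => t.1.1.2 x.1 hx⟩
  let b : T → Σ N : M.Inv, (M.quo N).Inv := fun t =>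
    ⟨t.1.1, t.1.2.1.map t.1.1.1.mkQ, by
      rintro _ ⟨x, hx, rfl⟩
      exact ⟨_, t.1.2.2 x hx, rfl⟩⟩
  have ma : ∀ t : T, (t.1.1.1.comap t.1.2.1.subtype).map t.1.2.1.subtype = t.1.1.1 := fun t => by
    rw [Submodule.map_comap_subtype, inf_eq_right.2 t.2]
  have mb : ∀ t : T, (t.1.2.1.map t.1.1.1.mkQ).comap t.1.1.1.mkQ = t.1.2.1 := fun t => by
    rw [Submodule.comap_map_mkQ, sup_eq_right.2 t.2]
  have ha : Function.Bijective a := by
    refine ⟨?_, fun ⟨N, L⟩ => ⟨⟨(⟨L.1.map N.1.subtype, ?_⟩, N), N.1.map_subtype_le L.1⟩,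
      congrArg (Sigma.mk N) (Subtype.ext
        (Submodule.comap_map_eq_of_injective N.1.injective_subtype L.1))⟩⟩
    · rintro ⟨⟨L, N⟩, h⟩ ⟨⟨L', N'⟩, h'⟩ e
      obtain rfl : N = N' := congrArg Sigma.fst e
      have k := congrArg Subtype.val (eq_of_heq (Sigma.mk.inj e).2)
      exact Subtype.ext (Prod.ext (Subtype.ext ((ma ⟨_, h⟩).symm.trans
        ((congrArg (Submodule.map N.1.subtype) k).trans (ma ⟨_, h'⟩)))) rfl)
    · rintro _ ⟨x, hx, rfl⟩
      exact ⟨_, L.2 x hx, rfl⟩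
  have hb : Function.Bijective b := by
    refine ⟨?_, fun ⟨L, Q⟩ => ⟨⟨(L, ⟨Q.1.comap L.1.mkQ, fun x hx => Q.2 _ hx⟩),
      L.1.le_comap_mkQ Q.1⟩, congrArg (Sigma.mk L) (Subtype.ext
        (Submodule.map_comap_eq_of_surjective L.1.mkQ_surjective Q.1))⟩⟩
    rintro ⟨⟨L, N⟩, h⟩ ⟨⟨L', N'⟩, h'⟩ e
    obtain rfl : L = L' := congrArg Sigma.fst e
    have k := congrArg Subtype.val (eq_of_heq (Sigma.mk.inj e).2)
    exact Subtype.ext (Prod.ext rfl (Subtype.ext ((mb ⟨_, h⟩).symm.trans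
      ((congrArg (Submodule.comap L.1.mkQ) k).trans (mb ⟨_, h'⟩)))))
  refine ⟨(Equiv.ofBijective a ha).symm.trans (.ofBijective b hb), fun x => ?_⟩
  obtain ⟨t, rfl⟩ := ha.2 x
  rw [Equiv.trans_apply, Equiv.ofBijective_symm_apply_apply, Equiv.ofBijective_apply]
  refine ⟨ObA_inj (t.1.2.1.subtype ∘ₗ (t.1.1.1.comap t.1.2.1.subtype).subtype) t.1.1.1.subtype
      ((Submodule.injective_subtype _).comp (Submodule.injective_subtype _))
      (Submodule.injective_subtype _)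
      ((ObA_range _ _).trans ((ma t).trans (Submodule.range_subtype _).symm)) M.φ
      (fun _ => rfl) fun _ => rfl,
    ObA_surj (t.1.1.1.comap t.1.2.1.subtype).mkQ ((t.1.1.1.mkQ ∘ₗ t.1.2.1.subtype).codRestrict
      (t.1.2.1.map t.1.1.1.mkQ) fun x => ⟨_, x.2, rfl⟩) (Submodule.mkQ_surjective _) ?_
      ((Submodule.ker_mkQ _).trans ((LinearMap.ker_codRestrict _ _ _).trans (ObA_ker _ _)).symm)
      (M.sub t.1.2).φ (fun _ => rfl) fun _ => rfl,
    ObA_surj t.1.2.1.mkQ ((t.1.2.1.map t.1.1.1.mkQ).mkQ ∘ₗ t.1.1.1.mkQ) (Submodule.mkQ_surjective _)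
      ((Submodule.mkQ_surjective _).comp (Submodule.mkQ_surjective _))
      ((Submodule.ker_mkQ _).trans ((ObA_ker _ _).trans (mb t)).symm) M.φ (fun _ => rfl)
      fun _ => rfl⟩
  rintro ⟨_, x, hx, rfl⟩
  exact ⟨⟨x, hx⟩, rfl⟩

theorem iso_ext (M : Ob K) (N : M.Inv) : ∃ B, Iso M (ext (M.sub N) (M.quo N) B) := by
  obtain ⟨s, hs⟩ := N.1.mkQ.exists_rightInverse_of_surjective N.1.range_mkQ
  have e : ∀ y, N.1.mkQ (s y) = y := LinearMap.congr_fun hs
  have m : ∀ x, x - s (N.1.mkQ x) ∈ N.1 := fun x =>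
    (Submodule.Quotient.mk_eq_zero _).1 ((map_sub N.1.mkQ _ _).trans (by rw [e, sub_self]))
  have q : ∀ y, N.1.mkQ (M.φ (s y)) = (M.quo N).φ y := fun y => congrArg (M.quo N).φ (e y)
  refine ⟨(M.φ ∘ₗ s - s ∘ₗ N.1.mapQ N.1 M.φ N.2).codRestrict N.1 fun y => ?_,
    ObA_inj .id (N.1.subtype.coprod s) Function.injective_id ?_ ?_ M.φ (fun _ => rfl) fun z => ?_⟩
  · exact (congrArg (fun w => M.φ (s y) - s w ∈ N.1) (q y)).mp (m (M.φ (s y)))
  · rw [injective_iff_map_eq_zero]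
    rintro ⟨x, y⟩ h
    replace h : x.1 + s y = 0 := h
    have k : y = 0 := by
      have := congrArg N.1.mkQ h
      rwa [map_add, e, map_zero, show N.1.mkQ x.1 = 0 from (Submodule.Quotient.mk_eq_zero _).2 x.2,
        zero_add] at this
    rw [show s y = 0 from (congrArg s k).trans (map_zero s), add_zero] at h
    exact Prod.ext (Subtype.ext h) k
  · rw [LinearMap.range_id, eq_comm, LinearMap.range_eq_top]
    exact fun x => ⟨(⟨_, m x⟩, N.1.mkQ x), sub_add_cancel _ _⟩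
  · change M.φ z.1.1 + (M.φ (s z.2) - s ((M.quo N).φ z.2)) + s ((M.quo N).φ z.2) = M.φ (z.1.1 + s z.2)
    rw [map_add, add_assoc, sub_add_cancel]

theorem iso_of {V W : Type} [AddCommGroup V] [Module K V] [FiniteDimensional K V] [AddCommGroup W]
    [Module K W] [FiniteDimensional K W] (e : V ≃ₗ[K] W) (g : (Module.End K V)ˣ) :
    Iso (of g) (of (Units.map (e.conjRingEquiv : Module.End K V →* Module.End K W) g)) :=
  ⟨e, fun x => congrArg (fun y => e (g.1 y)) (e.symm_apply_apply x).symm⟩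

theorem iso_of_conj {V : Type} [AddCommGroup V] [Module K V] [FiniteDimensional K V]
    (g h : (Module.End K V)ˣ) : Iso (of (h * g * h⁻¹)) (of g) :=
  ObA_inj .id h.1 Function.injective_id (of h).inj
    (LinearMap.range_id.trans (LinearMap.range_eq_top.2
      ((Module.End.isUnit_iff _).1 h.isUnit).2).symm) (h * g * h⁻¹).1 (fun _ => rfl)
    fun x => LinearMap.congr_fun (congrArg Units.val (inv_mul_cancel_right (h * g) h).symm) x

theorem Iso.isConj {V : Type} [AddCommGroup V] [Module K V] [FiniteDimensional K V]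
    {g g' : (Module.End K V)ˣ} (h : Iso (of g) (of g')) : ∃ x, g' = x * g * x⁻¹ := by
  obtain ⟨e, h⟩ := h
  exact ⟨LinearMap.GeneralLinearGroup.ofLinearEquiv e,
    eq_mul_inv_of_mul_eq (Units.ext (LinearMap.ext fun x => (h x).symm))⟩

theorem exists_of (M : Ob K) {V : Type} [AddCommGroup V] [Module K V] [FiniteDimensional K V]
    (h : finrank K V = M.dim) : ∃ g : (Module.End K V)ˣ, Iso M (of g) :=
  ⟨_, iso_of (.ofFinrankEq _ _ h.symm) ((Module.End.isUnit_iff M.φ).2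
    ⟨M.inj, LinearMap.injective_iff_surjective.1 M.inj⟩).unit⟩

end Ob

open Ob

/-- The Hall algebra with coefficients: invariant functions. -/
structure CF (K : Type) [Field K] (A : Type*) where
  /-- The function. -/
  val : Ob K → A
  inv : ∀ M N, Iso M N → val M = val N

namespace CF

variable {K : Type} [Field K] {A B : Type*} [Ring A] [Algebra ℂ A] [Ring B] [Algebra ℂ B]

omit [Ring A] [Algebra ℂ A] in
theorem iso (f : CF K A) {M N : Ob K} (h : Iso M N) : f.1 M = f.1 N := f.2 M N h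

omit [Ring A] [Algebra ℂ A] in
@[ext] theorem ext {f g : CF K A} (h : ∀ M, f.1 M = g.1 M) : f = g := by
  cases f
  cases g
  congr
  exact funext h

instance : Zero (CF K A) := ⟨⟨0, fun _ _ _ => rfl⟩⟩

instance : Add (CF K A) := ⟨fun f g => ⟨f.1 + g.1, fun _ _ h => by
  rw [Pi.add_apply, Pi.add_apply, f.iso h, g.iso h]⟩⟩

instance : Sub (CF K A) := ⟨fun f g => ⟨f.1 - g.1, fun _ _ h => by
  rw [Pi.sub_apply, Pi.sub_apply, f.iso h, g.iso h]⟩⟩

instance : Neg (CF K A) := ⟨fun f => ⟨-f.1, fun _ _ h => by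
  rw [Pi.neg_apply, Pi.neg_apply, f.iso h]⟩⟩

instance {R : Type*} [SMul R A] : SMul R (CF K A) := ⟨fun c f => ⟨c • f.1, fun _ _ h => by
  rw [Pi.smul_apply, Pi.smul_apply, f.iso h]⟩⟩

instance : AddCommGroup (CF K A) :=
  Function.Injective.addCommGroup (fun f : CF K A => f.1) (fun _ _ h => ext (congrFun h)) rfl
    (fun _ _ => rfl) (fun _ => rfl) (fun _ _ => rfl) (fun _ _ => rfl) (fun _ _ => rfl)

instance : Module ℂ (CF K A) :=
  Function.Injective.module ℂ
    ({ toFun := fun f => f.1, map_zero' := rfl, map_add' := fun _ _ => rfl } : CF K A →+ (Ob K → A))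
    (fun _ _ h => ext (congrFun h)) fun _ _ => rfl

omit [Algebra ℂ A] in
@[simp] theorem add_val (f g : CF K A) (M : Ob K) : (f + g).1 M = f.1 M + g.1 M := rfl

omit [Algebra ℂ A] in
@[simp] theorem sub_val (f g : CF K A) (M : Ob K) : (f - g).1 M = f.1 M - g.1 M := rfl

omit [Algebra ℂ A] in
@[simp] theorem neg_val (f : CF K A) (M : Ob K) : (-f).1 M = -f.1 M := rfl

omit [Algebra ℂ A] in
@[simp] theorem zero_val (M : Ob K) : (0 : CF K A).1 M = 0 := rfl

@[simp] theorem smul_val (c : ℂ) (f : CF K A) (M : Ob K) : (c • f).1 M = c • f.1 M := rfl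

/-- Evaluation. -/
def ev (M : Ob K) : CF K A →ₗ[ℂ] A where
  toFun f := f.1 M
  map_add' _ _ := rfl
  map_smul' _ _ := rfl

theorem sum_val {ι : Type*} (s : Finset ι) (f : ι → CF K A) (M : Ob K) :
    (∑ i ∈ s, f i).1 M = ∑ i ∈ s, (f i).1 M := map_sum (ev M) f s

/-- The function that is `a` on the zero object and vanishes elsewhere. -/
noncomputable def cst0 (a : A) : CF K A :=
  ⟨fun M => if M.dim = 0 then a else 0, fun _ _ h => by simp only [h.dim_eq]⟩

/-- A function given by its components. -/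
noncomputable def glue (f : ℕ → CF K A) : CF K A :=
  ⟨fun M => (f M.dim).1 M, fun _ _ h => by rw [h.dim_eq, (f _).iso h]⟩

/-- The component of degree `n`. -/
noncomputable def cmp (n : ℕ) : CF K A →ₗ[ℂ] CF K A where
  toFun f := ⟨fun M => if M.dim = n then f.1 M else 0, fun _ _ h => by
    simp only [h.dim_eq, f.iso h]⟩
  map_add' f g := ext fun M => by
    simp only [add_val]
    split_ifs <;> simp
  map_smul' c f := ext fun M => by
    simp only [smul_val, RingHom.id_apply]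
    split_ifs <;> simp

/-- Homogeneous of degree `n`. -/
def Hom (n : ℕ) (f : CF K A) : Prop := ∀ M : Ob K, M.dim ≠ n → f.1 M = 0

variable [Finite K]

omit [Algebra ℂ A] in
theorem mul_iso (f g : CF K A) (M M' : Ob K) (h : Iso M M') :
    ∑ N : M.Inv, f.1 (M.sub N) * g.1 (M.quo N) = ∑ N : M'.Inv, f.1 (M'.sub N) * g.1 (M'.quo N) := by
  obtain ⟨e, he⟩ := h.inv
  exact Fintype.sum_equiv e _ _ fun N => by rw [f.iso (he N).1, g.iso (he N).2]

noncomputable instance : Mul (CF K A) :=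
  ⟨fun f g => ⟨fun M => ∑ N : M.Inv, f.1 (M.sub N) * g.1 (M.quo N), mul_iso f g⟩⟩

noncomputable instance : One (CF K A) := ⟨cst0 1⟩

omit [Algebra ℂ A] in
theorem mul_val (f g : CF K A) (M : Ob K) :
    (f * g).1 M = ∑ N : M.Inv, f.1 (M.sub N) * g.1 (M.quo N) := rfl

omit [Algebra ℂ A] [Finite K] in
theorem one_val (M : Ob K) : (1 : CF K A).1 M = if M.dim = 0 then 1 else 0 := rfl

/-! ### Task PD ObB -/

theorem cst0_mul (a : A) (f : CF K A) (M : Ob K) : (cst0 a * f).1 M = a * f.1 M := by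
  rw [mul_val, Finset.sum_eq_single M.bot]
  · rw [f.iso (iso_quo_bot M)]
    simp only [cst0, if_pos (dim_sub_eq_zero.2 (rfl : M.bot = _))]
  · intro N _ hN
    simp only [cst0, if_neg (mt dim_sub_eq_zero.1 hN), zero_mul]
  · intro h
    exact absurd (Finset.mem_univ _) h

theorem mul_cst0 (a : A) (f : CF K A) (M : Ob K) : (f * cst0 a).1 M = f.1 M * a := by
  rw [mul_val, Finset.sum_eq_single M.top]
  · rw [f.iso (iso_sub_top M)]
    simp only [cst0, if_pos (dim_quo_eq_zero.2 (rfl : M.top = _))]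
  · intro N _ hN
    simp only [cst0, if_neg (mt dim_quo_eq_zero.1 hN), mul_zero]
  · intro h
    exact absurd (Finset.mem_univ _) h

theorem mul_assoc' (f g h : CF K A) : f * g * h = f * (g * h) := by
  refine ext fun M => ?_
  obtain ⟨e, he⟩ := flag_equiv M
  simp only [mul_val, Finset.sum_mul, Finset.mul_sum]
  rw [← Fintype.sum_sigma' fun (N : M.Inv) (N' : (M.sub N).Inv) =>
      f.1 ((M.sub N).sub N') * g.1 ((M.sub N).quo N') * h.1 (M.quo N),
    ← Fintype.sum_sigma' fun (N : M.Inv) (N' : (M.quo N).Inv) =>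
      f.1 (M.sub N) * (g.1 ((M.quo N).sub N') * h.1 ((M.quo N).quo N'))]
  refine Fintype.sum_equiv e _ _ fun x => ?_
  rw [f.iso (he x).1, g.iso (he x).2.1, h.iso (he x).2.2, mul_assoc]

noncomputable instance : Ring (CF K A) :=
  { (inferInstance : AddCommGroup (CF K A)), (inferInstance : Mul (CF K A)),
    (inferInstance : One (CF K A)) with
    left_distrib := fun f g h => ext fun M => by
      simp only [mul_val, add_val, mul_add, Finset.sum_add_distrib]
    right_distrib := fun f g h => ext fun M => by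
      simp only [mul_val, add_val, add_mul, Finset.sum_add_distrib]
    zero_mul := fun f => ext fun M => by simp [mul_val]
    mul_zero := fun f => ext fun M => by simp [mul_val]
    mul_assoc := mul_assoc'
    one_mul := fun f => ext fun M => (cst0_mul 1 f M).trans (one_mul _)
    mul_one := fun f => ext fun M => (mul_cst0 1 f M).trans (mul_one _) }

noncomputable instance : Algebra ℂ (CF K A) :=
  Algebra.ofModule
    (fun c f g => ext fun M => by simp only [mul_val, smul_val, smul_mul_assoc, Finset.smul_sum])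
    (fun c f g => ext fun M => by simp only [mul_val, smul_val, mul_smul_comm, Finset.smul_sum])

/-- Change of coefficients. -/
noncomputable def map (φ : A →ₐ[ℂ] B) : CF K A →ₐ[ℂ] CF K B :=
  AlgHom.ofLinearMap
    { toFun := fun f => ⟨fun M => φ (f.1 M), fun _ _ h => by rw [f.iso h]⟩
      map_add' := fun f g => ext fun M => map_add φ _ _
      map_smul' := fun c f => ext fun M => map_smul φ c _ }
    (ext fun M => by
      change φ ((1 : CF K A).1 M) = _
      simp only [one_val]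
      split_ifs <;> simp)
    (fun f g => ext fun M => by
      change φ ((f * g).1 M) = _
      simp only [mul_val, map_sum, map_mul]
      rfl)

theorem map_val (φ : A →ₐ[ℂ] B) (f : CF K A) (M : Ob K) : (map φ f).1 M = φ (f.1 M) := rfl

/-- The constants. -/
noncomputable def cst : A →ₐ[ℂ] CF K A :=
  AlgHom.ofLinearMap
    { toFun := cst0
      map_add' := fun a b => ext fun M => by
        simp only [cst0, add_val]
        split_ifs <;> simp
      map_smul' := fun c a => ext fun M => by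
        simp only [cst0, smul_val, RingHom.id_apply]
        split_ifs <;> simp }
    rfl
    (fun a b => ext fun M => by
      change (cst0 (a * b) : CF K A).1 M = (cst0 a * cst0 b : CF K A).1 M
      rw [cst0_mul]
      simp only [cst0]
      split_ifs <;> simp)

theorem cst_val (a : A) (M : Ob K) : (cst a : CF K A).1 M = if M.dim = 0 then a else 0 := rfl

/-- The value at the zero object. -/
noncomputable def eps (f : CF K A) : A := f.1 (zero K)

theorem eps_mul (f g : CF K A) : eps (f * g) = eps f * eps g := by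
  have h : ∀ N : (zero K).Inv, ((zero K).sub N).dim = 0 ∧ ((zero K).quo N).dim = 0 := fun N => by
    have := dim_sub_add (zero K) N
    rw [dim_zero] at this
    omega
  rw [eps, mul_val, Finset.sum_eq_single (zero K).bot]
  · rw [f.iso (iso_zero (h _).1), g.iso (iso_zero (h _).2), eps, eps]
  · intro N _ hN
    exact absurd (dim_sub_eq_zero.1 (h N).1) hN
  · intro h
    exact absurd (Finset.mem_univ _) h

theorem ObB_pow {g : CF K A} (h : ∀ M : Ob K, M.dim < 1 → g.1 M = 0) (k : ℕ) :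
    ∀ M : Ob K, M.dim < k → (g ^ k).1 M = 0 := by
  induction k with
  | zero => exact fun M hM => absurd hM (Nat.not_lt_zero _)
  | succ k ih =>
    intro M hM
    rw [pow_succ, mul_val]
    refine Finset.sum_eq_zero fun N _ => ?_
    have h1 := dim_sub_add M N
    by_cases h2 : (M.sub N).dim < k
    · rw [ih _ h2, zero_mul]
    · rw [h _ (by omega), mul_zero]

theorem isUnit_of_eps {f : CF K A} (h : eps f = 1) : IsUnit f := by
  have h1 : ∀ M : Ob K, M.dim < 1 → (1 - f).1 M = 0 := fun M hM => by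
    have h0 : M.dim = 0 := by omega
    rw [sub_val, one_val, if_pos h0, f.iso (iso_zero h0), ← h, eps, sub_self]
  let S : ℕ → CF K A := fun n => ∑ k ∈ Finset.range (n + 1), (1 - f) ^ k
  have h2 : ∀ (n : ℕ) (M : Ob K), M.dim ≤ n → (glue S).1 M = (S n).1 M := fun n M hM => by
    change (S M.dim).1 M = _
    simp only [S, sum_val]
    refine Finset.sum_subset (Finset.range_subset_range.2 (by omega)) fun k _ hk => ?_
    exact ObB_pow h1 k M (by simpa using hk)
  have h3 : ∀ M : Ob K, (1 - (1 - f) ^ (M.dim + 1) : CF K A).1 M = (1 : CF K A).1 M := fun M => by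
    rw [sub_val, ObB_pow h1 _ M (by omega), sub_zero]
  refine ⟨⟨f, glue S, ext fun M => ?_, ext fun M => ?_⟩, rfl⟩
  · rw [← h3, ← mul_neg_geom_sum, sub_sub_cancel, mul_val, mul_val]
    refine Finset.sum_congr rfl fun N _ => ?_
    rw [h2 M.dim _ (by have := dim_sub_add M N; omega)]
  · rw [← h3, ← geom_sum_mul_neg, sub_sub_cancel, mul_val, mul_val]
    refine Finset.sum_congr rfl fun N _ => ?_
    rw [h2 M.dim _ (by have := dim_sub_add M N; omega)]

omit [Finite K] in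
theorem cmp_val (n : ℕ) (f : CF K A) (M : Ob K) :
    (cmp n f).1 M = if M.dim = n then f.1 M else 0 := rfl

omit [Finite K] in
theorem hom_cmp (n : ℕ) (f : CF K A) : Hom n (cmp n f) := by
  intro M hM
  rw [cmp_val, if_neg hM]

omit [Finite K] in
theorem Hom.cmp_eq {n : ℕ} {f : CF K A} (h : Hom n f) : cmp n f = f := by
  refine ext fun M => ?_
  rw [cmp_val]
  split_ifs with hM
  · rfl
  · exact (h M hM).symm

omit [Finite K] in
theorem Hom.cmp_ne {n m : ℕ} {f : CF K A} (h : Hom n f) (hm : m ≠ n) : cmp m f = 0 := by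
  refine ext fun M => ?_
  rw [cmp_val, zero_val]
  split_ifs with hM
  · exact h M (hM ▸ hm)
  · rfl

omit [Finite K] in
theorem ext_cmp {f g : CF K A} (h : ∀ n, cmp n f = cmp n g) : f = g := by
  refine ext fun M => ?_
  have h1 := congrArg (fun u : CF K A => u.1 M) (h M.dim)
  simpa only [cmp_val, if_true] using h1

omit [Finite K] in
theorem cmp_glue {f : ℕ → CF K A} (h : ∀ n, Hom n (f n)) (n : ℕ) : cmp n (glue f) = f n := by
  refine ext fun M => ?_
  rw [cmp_val]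
  split_ifs with hM
  · rw [← hM]
    rfl
  · exact (h n M hM).symm

theorem cmp_mul (n : ℕ) (f g : CF K A) :
    cmp n (f * g) = ∑ x ∈ ad n, cmp x.1 f * cmp x.2 g := by
  refine ext fun M => ?_
  simp only [sum_val, cmp_val, mul_val]
  rw [Finset.sum_comm]
  have h : ∀ N : M.Inv, (∑ x ∈ ad n, (if (M.sub N).dim = x.1 then f.1 (M.sub N) else 0) *
      if (M.quo N).dim = x.2 then g.1 (M.quo N) else 0) =
      if M.dim = n then f.1 (M.sub N) * g.1 (M.quo N) else 0 := fun N => by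
    have h1 := dim_sub_add M N
    have h2 : ∀ x : ℕ × ℕ, x ≠ ((M.sub N).dim, (M.quo N).dim) →
        ((if (M.sub N).dim = x.1 then f.1 (M.sub N) else 0) *
          if (M.quo N).dim = x.2 then g.1 (M.quo N) else 0) = 0 := fun x hx => by
      split_ifs with h3 h4
      · exact absurd (Prod.ext h3.symm h4.symm) hx
      · exact mul_zero _
      · exact zero_mul _
      · exact zero_mul _
    by_cases h3 : M.dim = n
    · rw [if_pos h3, Finset.sum_eq_single_of_mem ((M.sub N).dim, (M.quo N).dim)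
        (Finset.HasAntidiagonal.mem_antidiagonal.2 (h1.trans h3)) fun x _ hx => h2 x hx,
        if_pos rfl, if_pos rfl]
    · rw [if_neg h3]
      refine Finset.sum_eq_zero fun x hx => h2 x fun h4 => h3 ?_
      rw [h4] at hx
      exact h1.symm.trans (Finset.HasAntidiagonal.mem_antidiagonal.1 hx)
  simp only [h]
  split_ifs
  · rfl
  · simp

theorem hom_one : Hom 0 (1 : CF K A) := by
  intro M hM
  rw [one_val, if_neg hM]

theorem Hom.mul {a b : ℕ} {f g : CF K A} (hf : Hom a f) (hg : Hom b g) : Hom (a + b) (f * g) := by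
  intro M hM
  rw [mul_val]
  refine Finset.sum_eq_zero fun N _ => ?_
  have h1 := dim_sub_add M N
  by_cases h2 : (M.sub N).dim = a
  · rw [hg _ (by omega), mul_zero]
  · rw [hf _ h2, zero_mul]

theorem Hom.pow {a : ℕ} {f : CF K A} (hf : Hom a f) (m : ℕ) : Hom (m * a) (f ^ m) := by
  induction m with
  | zero => rw [zero_mul, pow_zero]; exact hom_one
  | succ m ih => rw [add_mul, one_mul, pow_succ]; exact ih.mul hf

theorem Hom.eq_cst {f : CF K A} (hf : Hom 0 f) : f = cst (eps f) := by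
  refine ext fun M => ?_
  rw [cst_val]
  split_ifs with hM
  · exact f.iso (iso_zero hM)
  · exact hf M hM

omit [Finite K] in
theorem Hom.add {a : ℕ} {f g : CF K A} (hf : Hom a f) (hg : Hom a g) : Hom a (f + g) := by
  intro M hM
  rw [add_val, hf M hM, hg M hM, add_zero]

omit [Finite K] in
theorem Hom.smul {a : ℕ} {f : CF K A} (hf : Hom a f) (c : ℂ) : Hom a (c • f) := by
  intro M hM
  rw [smul_val, hf M hM, smul_zero]

theorem Hom.sum {a : ℕ} {ι : Type*} {s : Finset ι} {f : ι → CF K A} (hf : ∀ i ∈ s, Hom a (f i)) :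
    Hom a (∑ i ∈ s, f i) := by
  intro M hM
  rw [sum_val]
  exact Finset.sum_eq_zero fun i hi => hf i hi M hM

end CF

end PD
end

-- merged part: Pool.Agent.Work.MP_cea1f0_al.D.Del
section
/-!
# The comultiplication  (tasks PD Mackey, PD DelB)

`del0 f M₁ M₂` is the average of `f` over the extensions `ext M₁ M₂ B`.
* `mackey`: an invariant subspace `N` of `ext M₁ M₂ B` determines the invariant subspaces `N₁ = N.comap inl`,
  `N₂ = N.map snd`.  For `S : M₂.V →ₗ M₁.V` the map `(x, y) ↦ (x + S y, y)` is an isomorphism from `ext M₁ M₂ B` to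
  `ext M₁ M₂ (B + S φ₂ - φ₁ S)`.  Every subspace `N` with the data `(N₁, N₂)` is the image of `N₁.prod N₂` under such a
  map, and the number of `S` that do this is the cardinality of `Z = {S | S N₂ ≤ N₁}`.  So the sum over the pairs
  `(B, N)` with data `(N₁, N₂)` is `card Hom / card Z` times the sum over `B ∈ Z` for `N = N₁.prod N₂`.  For `B ∈ Z`
  the subobject is `ext (sub N₁) (sub N₂) B'` and the quotient is `ext (quo N₁) (quo N₂) B''`, and the linear map
  `B ↦ (B', B'')` is onto (choose complements), so that its fibres have the same size.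
* `pr_log`: apply `del` to `E * y = pm a E`, use `del (pm a E) = i1 (pm a E) * i2 E + i1 E * i2 (pm a E)`, and
  cancel the unit `i1 E * i2 E`; `i1 x` and `i2 y` commute.
-/

namespace PD

open Ob CF

/-- The Hall algebra. -/
abbrev HA (K : Type) [Field K] := CF K ℂ

variable {K : Type} [Field K]

/-- Pointwise multiplication. -/
def pm (a : HA K) : HA K →ₗ[ℂ] HA K where
  toFun f := ⟨fun M => a.1 M * f.1 M, fun _ _ h => by simp only [a.iso h, f.iso h]⟩
  map_add' _ _ := CF.ext fun _ => mul_add _ _ _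
  map_smul' c f := CF.ext fun M => by simp [mul_left_comm]

theorem pm_val (a f : HA K) (M : Ob K) : (pm a f).1 M = a.1 M * f.1 M := rfl

/-- Additive functions. -/
def IsAdd (a : HA K) : Prop := ∀ M₁ M₂ B, a.1 (ext M₁ M₂ B) = a.1 M₁ + a.1 M₂

/-- Multiplicative functions. -/
def IsMul (a : HA K) : Prop := ∀ M₁ M₂ B, a.1 (ext M₁ M₂ B) = a.1 M₁ * a.1 M₂

/-- The dimension. -/
noncomputable def dimf (K : Type) [Field K] : HA K :=
  ⟨fun M => M.dim, fun _ _ h => by simp only [h.dim_eq]⟩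

/-- The value at the zero object as a linear functional. -/
def epsl (K : Type) [Field K] : HA K →ₗ[ℂ] ℂ := CF.ev (zero K)

variable [Finite K]

noncomputable instance (M₁ M₂ : Ob K) : Fintype (M₂.V →ₗ[K] M₁.V) :=
  haveI : Finite (M₂.V →ₗ[K] M₁.V) := Module.finite_of_finite K
  Fintype.ofFinite _

/-- The average over the extensions. -/
noncomputable def del0 (f : HA K) (M₁ M₂ : Ob K) : ℂ :=
  (Nat.card (M₂.V →ₗ[K] M₁.V) : ℂ)⁻¹ * ∑ B, f.1 (ext M₁ M₂ B)

/-! ### Task PD Mackey -/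

theorem Mky_avg {X Y : Type} [AddCommGroup X] [AddCommGroup Y] [Fintype X] [Fintype Y]
    (π : X →+ Y) (hs : Function.Surjective π) (c : Y → ℂ) :
    (Nat.card X : ℂ)⁻¹ * ∑ x, c (π x) = (Nat.card Y : ℂ)⁻¹ * ∑ y, c y := by
  classical
  obtain ⟨k, hk⟩ : ∃ k : ℕ, k = (Finset.univ.filter fun x => π x = 0).card := ⟨_, rfl⟩
  have key : ∀ c : Y → ℂ, ∑ x, c (π x) = k * ∑ y, c y := fun c => by
    rw [← Finset.sum_fiberwise' Finset.univ π c, Finset.mul_sum]
    refine Finset.sum_congr rfl fun y _ => ?_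
    rw [Finset.sum_const, nsmul_eq_mul, hk,
      AddMonoidHom.card_fiber_eq_of_mem_range π (hs y) (hs 0)]
  have h1 := key fun _ => 1
  rw [Finset.sum_const, Finset.sum_const, Finset.card_univ, Finset.card_univ, nsmul_eq_mul,
    nsmul_eq_mul, mul_one, mul_one, ← Nat.card_eq_fintype_card, ← Nat.card_eq_fintype_card] at h1
  have hX : (Nat.card X : ℂ) ≠ 0 := Nat.cast_ne_zero.2 Nat.card_pos.ne'
  rw [key, h1] at *
  have hk0 := left_ne_zero_of_mul hX
  rw [mul_inv, mul_mul_mul_comm, inv_mul_cancel₀ hk0, one_mul]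

section Mky

omit [Finite K]

variable {V₁ V₂ : Type} [AddCommGroup V₁] [Module K V₁] [AddCommGroup V₂] [Module K V₂]

/-- The subspace of a product given by two subspaces and a linear map. -/
def Mky_gr (N₁ : Submodule K V₁) (N₂ : Submodule K V₂) (S : V₂ →ₗ[K] V₁) : Submodule K (V₁ × V₂) :=
  N₂.comap (LinearMap.snd K V₁ V₂) ⊓
    N₁.comap (LinearMap.fst K V₁ V₂ - S ∘ₗ LinearMap.snd K V₁ V₂)

theorem Mky_mem {N₁ : Submodule K V₁} {N₂ : Submodule K V₂} {S : V₂ →ₗ[K] V₁} {x : V₁} {y : V₂} :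
    (x, y) ∈ Mky_gr N₁ N₂ S ↔ y ∈ N₂ ∧ x - S y ∈ N₁ := Iff.rfl

/-- The maps that send one subspace into another. -/
def Mky_Z (N₁ : Submodule K V₁) (N₂ : Submodule K V₂) : AddSubgroup (V₂ →ₗ[K] V₁) where
  carrier := {S | ∀ y ∈ N₂, S y ∈ N₁}
  add_mem' h h' y hy := N₁.add_mem (h y hy) (h' y hy)
  zero_mem' _ _ := N₁.zero_mem
  neg_mem' h y hy := N₁.neg_mem (h y hy)

theorem Mky_comap (N₁ : Submodule K V₁) (N₂ : Submodule K V₂) (S : V₂ →ₗ[K] V₁) :
    (Mky_gr N₁ N₂ S).comap (LinearMap.inl K V₁ V₂) = N₁ := by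
  ext x
  rw [Submodule.mem_comap, LinearMap.inl_apply, Mky_mem, map_zero, sub_zero]
  exact and_iff_right N₂.zero_mem

theorem Mky_map (N₁ : Submodule K V₁) (N₂ : Submodule K V₂) (S : V₂ →ₗ[K] V₁) :
    (Mky_gr N₁ N₂ S).map (LinearMap.snd K V₁ V₂) = N₂ := by
  ext y
  constructor
  · rintro ⟨⟨x, y⟩, h, rfl⟩
    exact h.1
  · exact fun h => ⟨(S y, y), Mky_mem.2 ⟨h, by rw [sub_self]; exact N₁.zero_mem⟩, rfl⟩

theorem Mky_exists (N : Submodule K (V₁ × V₂)) :
    ∃ S, N = Mky_gr (N.comap (LinearMap.inl K V₁ V₂)) (N.map (LinearMap.snd K V₁ V₂)) S := by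
  obtain ⟨σ, hσ⟩ := ((LinearMap.snd K V₁ V₂).restrict (p := N) (q := N.map (LinearMap.snd K V₁ V₂))
    fun z hz => ⟨z, hz, rfl⟩).exists_rightInverse_of_surjective
    (LinearMap.range_eq_top.2 fun ⟨_, z, hz, e⟩ => ⟨⟨z, hz⟩, Subtype.ext e⟩)
  obtain ⟨S, hS⟩ := (LinearMap.fst K V₁ V₂ ∘ₗ N.subtype ∘ₗ σ).exists_extend
  have h : ∀ y ∈ N.map (LinearMap.snd K V₁ V₂), (S y, y) ∈ N := fun y hy => by
    have e : (S y, y) = (σ ⟨y, hy⟩).1 := Prod.ext (LinearMap.congr_fun hS ⟨y, hy⟩)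
      (congrArg Subtype.val (LinearMap.congr_fun hσ ⟨y, hy⟩)).symm
    rw [e]
    exact (σ ⟨y, hy⟩).2
  refine ⟨S, Submodule.ext fun ⟨x, y⟩ => ?_⟩
  have e : (LinearMap.inl K V₁ V₂) (x - S y) = (x, y) - (S y, y) := Prod.ext rfl (sub_self y).symm
  rw [Mky_mem, Submodule.mem_comap, e]
  exact ⟨fun hz => ⟨⟨_, hz, rfl⟩, N.sub_mem hz (h y ⟨_, hz, rfl⟩)⟩,
    fun hz => (N.sub_mem_iff_left (h y hz.1)).1 hz.2⟩

theorem Mky_gr_eq {N₁ : Submodule K V₁} {N₂ : Submodule K V₂} {S S' : V₂ →ₗ[K] V₁} :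
    Mky_gr N₁ N₂ S' = Mky_gr N₁ N₂ S ↔ S - S' ∈ Mky_Z N₁ N₂ := by
  constructor
  · intro h y hy
    have k : (S y, y) ∈ Mky_gr N₁ N₂ S := Mky_mem.2 ⟨hy, by rw [sub_self]; exact N₁.zero_mem⟩
    rw [← h] at k
    exact k.2
  · intro h
    refine Submodule.ext fun ⟨x, y⟩ => ?_
    rw [Mky_mem, Mky_mem]
    refine and_congr_right fun hy => ?_
    have e : x - S' y = x - S y + (S - S') y := by rw [LinearMap.sub_apply, sub_add_sub_cancel]
    rw [e, N₁.add_mem_iff_left (h y hy)]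

theorem Mky_card (N₁ : Submodule K V₁) (N₂ : Submodule K V₂) (S' : V₂ →ₗ[K] V₁) :
    Nat.card {S // Mky_gr N₁ N₂ S' = Mky_gr N₁ N₂ S} = Nat.card (Mky_Z N₁ N₂) :=
  Nat.card_congr ((Equiv.subRight S').subtypeEquiv fun _ => Mky_gr_eq)

open Classical in
/-- The indicator that a subspace has given data. -/
noncomputable def Mky_ind (N : Submodule K (V₁ × V₂)) (N₁ : Submodule K V₁) (N₂ : Submodule K V₂)
    (S : V₂ →ₗ[K] V₁) : ℂ := if N = Mky_gr N₁ N₂ S then 1 else 0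

theorem Mky_ind_sum [Fintype (V₂ →ₗ[K] V₁)] (N : Submodule K (V₁ × V₂)) :
    (Nat.card (Mky_Z (N.comap (LinearMap.inl K V₁ V₂)) (N.map (LinearMap.snd K V₁ V₂))) : ℂ)⁻¹ *
      ∑ S, Mky_ind N (N.comap (LinearMap.inl K V₁ V₂)) (N.map (LinearMap.snd K V₁ V₂)) S = 1 := by
  classical
  obtain ⟨S', hS⟩ := Mky_exists N
  have k := Mky_card (N.comap (LinearMap.inl K V₁ V₂)) (N.map (LinearMap.snd K V₁ V₂)) S'
  rw [← hS, Nat.card_eq_fintype_card, Fintype.card_subtype] at k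
  simp only [Mky_ind]
  rw [Finset.sum_boole]
  refine (inv_mul_eq_one₀ (Nat.cast_ne_zero.2 Nat.card_pos.ne')).2 (congrArg Nat.cast ?_)
  convert k.symm

/-- The maps induced on the subspaces and on the quotients. -/
def Mky_res (N₁ : Submodule K V₁) (N₂ : Submodule K V₂) :
    Mky_Z N₁ N₂ →+ (N₂ →ₗ[K] N₁) × ((V₂ ⧸ N₂) →ₗ[K] (V₁ ⧸ N₁)) :=
  AddMonoidHom.mk' (fun D => (D.1.restrict D.2, N₂.mapQ N₁ D.1 D.2)) fun _ _ =>
    Prod.ext (LinearMap.ext fun _ => rfl) (N₂.linearMap_qext rfl)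

theorem Mky_res_surj (N₁ : Submodule K V₁) (N₂ : Submodule K V₂) :
    Function.Surjective (Mky_res N₁ N₂) := by
  rintro ⟨B, C⟩
  obtain ⟨p, hp⟩ := N₂.subtype.exists_leftInverse_of_injective N₂.ker_subtype
  obtain ⟨σ, hσ⟩ := N₁.mkQ.exists_rightInverse_of_surjective N₁.range_mkQ
  have h : ∀ y : N₂, (N₁.subtype ∘ₗ B ∘ₗ p + σ ∘ₗ C ∘ₗ N₂.mkQ) y = B y := fun y => by
    change (B (p y) : V₁) + σ (C (N₂.mkQ y)) = _
    rw [N₂.mkQ_apply, (Submodule.Quotient.mk_eq_zero N₂).2 y.2, map_zero, map_zero, add_zero]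
    exact congrArg (fun z => (B z : V₁)) (LinearMap.congr_fun hp y)
  refine ⟨⟨N₁.subtype ∘ₗ B ∘ₗ p + σ ∘ₗ C ∘ₗ N₂.mkQ, fun y hy => ?_⟩,
    Prod.ext (LinearMap.ext fun y => Subtype.ext (h y)) (N₂.linearMap_qext (LinearMap.ext fun y => ?_))⟩
  · rw [h ⟨y, hy⟩]
    exact (B _).2
  · change N₁.mkQ ((B (p y) : V₁) + σ (C (N₂.mkQ y))) = C (N₂.mkQ y)
    rw [map_add, N₁.mkQ_apply, (Submodule.Quotient.mk_eq_zero N₁).2 (B _).2, zero_add]
    exact LinearMap.congr_fun hσ _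

theorem Mky_iso_sub {M M' : Ob K} (N : M.Inv) (i : M'.V →ₗ[K] M.V) (hi : Function.Injective i)
    (h1 : ∀ x, i x ∈ N.1) (h2 : ∀ z ∈ N.1, ∃ x, i x = z) (h : ∀ x, i (M'.φ x) = M.φ (i x)) :
    Iso M' (M.sub N) :=
  ⟨LinearEquiv.ofBijective (i.codRestrict N.1 h1) ⟨fun _ _ e => hi (congrArg Subtype.val e),
    fun z => (h2 z.1 z.2).imp fun _ e => Subtype.ext e⟩, fun x => Subtype.ext (h x)⟩

theorem Mky_iso_quo {M M' : Ob K} (N : M.Inv) (p : M.V →ₗ[K] M'.V) (hp : Function.Surjective p)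
    (h1 : ∀ z, p z = 0 ↔ z ∈ N.1) (h : ∀ x, p (M.φ x) = M'.φ (p x)) : Iso (M.quo N) M' := by
  refine ⟨LinearEquiv.ofBijective (N.1.liftQ p fun z hz => (h1 z).2 hz)
    ⟨LinearMap.ker_eq_bot.1 (N.1.ker_liftQ_eq_bot _ _ fun z hz => (h1 z).1 hz),
    fun y => (hp y).elim fun x e => ⟨N.1.mkQ x, e⟩⟩, fun z => ?_⟩
  obtain ⟨x, rfl⟩ := N.1.mkQ_surjective z
  exact h x

variable {M₁ M₂ : Ob K} (N₁ : M₁.Inv) (N₂ : M₂.Inv) (B S : M₂.V →ₗ[K] M₁.V)

theorem Mky_inv (h : B + (M₁.φ ∘ₗ S - S ∘ₗ M₂.φ) ∈ Mky_Z N₁.1 N₂.1) (z : M₁.V × M₂.V)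
    (hz : z ∈ Mky_gr N₁.1 N₂.1 S) : (ext M₁ M₂ B).φ z ∈ Mky_gr N₁.1 N₂.1 S := by
  obtain ⟨x, y⟩ := z
  rw [ext_apply]
  refine Mky_mem.2 ⟨N₂.2 y hz.1, ?_⟩
  have e : M₁.φ x + B y - S (M₂.φ y) = M₁.φ (x - S y) + (B y + (M₁.φ (S y) - S (M₂.φ y))) := by
    rw [map_sub]
    abel
  rw [e]
  exact N₁.1.add_mem (N₁.2 _ hz.2) (h y hz.1)

theorem Mky_of_inv (N : (ext M₁ M₂ B).Inv) (e : N.1 = Mky_gr N₁.1 N₂.1 S) :
    B + (M₁.φ ∘ₗ S - S ∘ₗ M₂.φ) ∈ Mky_Z N₁.1 N₂.1 := fun y hy => by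
  have k := N.2 (S y, y) (e ▸ Mky_mem.2 ⟨hy, by rw [sub_self]; exact N₁.1.zero_mem⟩)
  rw [e] at k
  have e' : B y + (M₁.φ (S y) - S (M₂.φ y)) = M₁.φ (S y) + B y - S (M₂.φ y) := by abel
  change B y + (M₁.φ (S y) - S (M₂.φ y)) ∈ _
  rw [e']
  exact k.2

theorem Mky_sub (h : B + (M₁.φ ∘ₗ S - S ∘ₗ M₂.φ) ∈ Mky_Z N₁.1 N₂.1) :
    Iso (ext (M₁.sub N₁) (M₂.sub N₂) (Mky_res N₁.1 N₂.1 ⟨_, h⟩).1)
      ((ext M₁ M₂ B).sub ⟨Mky_gr N₁.1 N₂.1 S, Mky_inv N₁ N₂ B S h⟩) := by
  refine Mky_iso_sub _ ((N₁.1.subtype ∘ₗ LinearMap.fst K N₁.1 N₂.1 +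
    S ∘ₗ N₂.1.subtype ∘ₗ LinearMap.snd K N₁.1 N₂.1).prod (N₂.1.subtype ∘ₗ LinearMap.snd K N₁.1 N₂.1))
    ?_ ?_ ?_ ?_
  · rintro ⟨x, y⟩ ⟨x', y'⟩ e
    obtain rfl : y = y' := Subtype.ext (congrArg Prod.snd e)
    obtain rfl : x = x' := Subtype.ext (add_right_cancel (congrArg Prod.fst e :
      x.1 + S y.1 = x'.1 + S y.1))
    rfl
  · rintro ⟨x, y⟩
    refine (Mky_mem (x := x.1 + S y.1) (y := y.1)).2 ⟨y.2, ?_⟩
    rw [add_sub_cancel_right]
    exact x.2
  · rintro ⟨x, y⟩ hz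
    exact ⟨(⟨x - S y, hz.2⟩, ⟨y, hz.1⟩), Prod.ext (sub_add_cancel x (S y)) rfl⟩
  · rintro ⟨x, y⟩
    refine Prod.ext ?_ rfl
    change M₁.φ x.1 + (B y.1 + (M₁.φ (S y.1) - S (M₂.φ y.1))) + S (M₂.φ y.1) =
      M₁.φ (x.1 + S y.1) + B y.1
    rw [map_add]
    abel

theorem Mky_quo (h : B + (M₁.φ ∘ₗ S - S ∘ₗ M₂.φ) ∈ Mky_Z N₁.1 N₂.1) :
    Iso ((ext M₁ M₂ B).quo ⟨Mky_gr N₁.1 N₂.1 S, Mky_inv N₁ N₂ B S h⟩)
      (ext (M₁.quo N₁) (M₂.quo N₂) (Mky_res N₁.1 N₂.1 ⟨_, h⟩).2) := by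
  refine Mky_iso_quo _ ((N₁.1.mkQ ∘ₗ (LinearMap.fst K M₁.V M₂.V - S ∘ₗ LinearMap.snd K M₁.V M₂.V)).prod
    (N₂.1.mkQ ∘ₗ LinearMap.snd K M₁.V M₂.V)) ?_ ?_ ?_
  · rintro ⟨a, b⟩
    obtain ⟨x, rfl⟩ := N₁.1.mkQ_surjective a
    obtain ⟨y, rfl⟩ := N₂.1.mkQ_surjective b
    exact ⟨(x + S y, y), Prod.ext (congrArg N₁.1.mkQ (add_sub_cancel_right x (S y))) rfl⟩
  · rintro ⟨x, y⟩
    exact Prod.mk_eq_zero.trans (and_comm.trans (and_congr (Submodule.Quotient.mk_eq_zero N₂.1)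
      (Submodule.Quotient.mk_eq_zero N₁.1)))
  · rintro ⟨x, y⟩
    refine Prod.ext ?_ rfl
    change N₁.1.mkQ (M₁.φ x + B y - S (M₂.φ y)) =
      N₁.1.mkQ (M₁.φ (x - S y)) + N₁.1.mkQ (B y + (M₁.φ (S y) - S (M₂.φ y)))
    rw [← map_add, map_sub M₁.φ]
    refine congrArg _ ?_
    abel

end Mky

open Classical in
/-- The contribution of a map that respects two invariant subspaces. -/
noncomputable def Mky_val (f g : HA K) {M₁ M₂ : Ob K} (N₁ : M₁.Inv) (N₂ : M₂.Inv)
    (C : M₂.V →ₗ[K] M₁.V) : ℂ :=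
  if h : C ∈ Mky_Z N₁.1 N₂.1 then
    f.1 (ext (M₁.sub N₁) (M₂.sub N₂) (Mky_res N₁.1 N₂.1 ⟨C, h⟩).1) *
      g.1 (ext (M₁.quo N₁) (M₂.quo N₂) (Mky_res N₁.1 N₂.1 ⟨C, h⟩).2)
  else 0

theorem Mky_del (f g : HA K) {M₁ M₂ : Ob K} (N₁ : M₁.Inv) (N₂ : M₂.Inv) :
    del0 f (M₁.sub N₁) (M₂.sub N₂) * del0 g (M₁.quo N₁) (M₂.quo N₂) =
      (Nat.card (Mky_Z N₁.1 N₂.1) : ℂ)⁻¹ * ∑ C, Mky_val f g N₁ N₂ C := by
  classical
  have k := Mky_avg (X := Mky_Z N₁.1 N₂.1)
    (Y := ((M₂.sub N₂).V →ₗ[K] (M₁.sub N₁).V) × ((M₂.quo N₂).V →ₗ[K] (M₁.quo N₁).V))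
    (Mky_res N₁.1 N₂.1) (Mky_res_surj N₁.1 N₂.1)
    (fun y => f.1 (ext _ _ y.1) * g.1 (ext _ _ y.2))
  rw [Fintype.sum_prod_type, Nat.card_prod, Nat.cast_mul, mul_inv] at k
  rw [del0, del0, mul_mul_mul_comm, Finset.sum_mul_sum, ← k]
  refine congrArg _ (Fintype.sum_of_injective Subtype.val Subtype.val_injective _ _
    (fun C hC => dif_neg fun h => hC ⟨⟨C, h⟩, rfl⟩) fun D => ?_)
  rw [Mky_val, dif_pos D.2]
  rfl

theorem Mky_ite (f g : HA K) {M₁ M₂ : Ob K} (N₁ : M₁.Inv) (N₂ : M₂.Inv) (B S : M₂.V →ₗ[K] M₁.V) :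
    Mky_val f g N₁ N₂ (B + (M₁.φ ∘ₗ S - S ∘ₗ M₂.φ)) = ∑ N : (ext M₁ M₂ B).Inv,
      Mky_ind N.1 N₁.1 N₂.1 S * (f.1 ((ext M₁ M₂ B).sub N) * g.1 ((ext M₁ M₂ B).quo N)) := by
  symm
  by_cases h : B + (M₁.φ ∘ₗ S - S ∘ₗ M₂.φ) ∈ Mky_Z N₁.1 N₂.1
  · refine (Fintype.sum_eq_single (α := (ext M₁ M₂ B).Inv)
      ⟨Mky_gr N₁.1 N₂.1 S, Mky_inv N₁ N₂ B S h⟩ fun N hN => ?_).trans ?_
    · exact mul_eq_zero_of_left (if_neg fun e => hN (Subtype.ext e)) _
    · rw [Mky_ind, if_pos rfl, one_mul, Mky_val, dif_pos h, f.iso (Mky_sub N₁ N₂ B S h),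
        g.iso (Mky_quo N₁ N₂ B S h)]
  · rw [Mky_val, dif_neg h]
    exact Finset.sum_eq_zero fun N _ =>
      mul_eq_zero_of_left (if_neg fun e => h (Mky_of_inv N₁ N₂ B S N e)) _

theorem Mky_one {M₁ M₂ : Ob K} (B : M₂.V →ₗ[K] M₁.V) (N : (ext M₁ M₂ B).Inv) :
    ∑ p : M₁.Inv × M₂.Inv, (Nat.card (Mky_Z p.1.1 p.2.1) : ℂ)⁻¹ *
      ∑ S, Mky_ind N.1 p.1.1 p.2.1 S = 1 := by
  have h1 : ∀ x ∈ Submodule.comap (LinearMap.inl K M₁.V M₂.V) N.1,
      M₁.φ x ∈ Submodule.comap (LinearMap.inl K M₁.V M₂.V) N.1 := fun x hx => by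
    have k := N.2 (x, 0) hx
    rw [ext_apply, map_zero, map_zero, add_zero] at k
    exact k
  have h2 : ∀ y ∈ Submodule.map (LinearMap.snd K M₁.V M₂.V) N.1,
      M₂.φ y ∈ Submodule.map (LinearMap.snd K M₁.V M₂.V) N.1 := by
    rintro _ ⟨z, hz, rfl⟩
    exact ⟨_, N.2 z hz, rfl⟩
  refine (Fintype.sum_eq_single (α := M₁.Inv × M₂.Inv) (⟨_, h1⟩, ⟨_, h2⟩) fun p hp => ?_).trans
    (Mky_ind_sum N.1)
  refine mul_eq_zero_of_right _ (Finset.sum_eq_zero fun S _ => if_neg fun e => hp ?_)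
  exact Prod.ext (Subtype.ext ((Mky_comap p.1.1 p.2.1 S).symm.trans (congrArg _ e.symm)))
    (Subtype.ext ((Mky_map p.1.1 p.2.1 S).symm.trans (congrArg _ e.symm)))

theorem mackey (f g : HA K) (M₁ M₂ : Ob K) : del0 (f * g) M₁ M₂ = ∑ N₁ : M₁.Inv, ∑ N₂ : M₂.Inv,
    del0 f (M₁.sub N₁) (M₂.sub N₂) * del0 g (M₁.quo N₁) (M₂.quo N₂) := by
  have hH : (Nat.card (M₂.V →ₗ[K] M₁.V) : ℂ) ≠ 0 := Nat.cast_ne_zero.2 Nat.card_pos.ne'
  have h1 : ∀ p : M₁.Inv × M₂.Inv, Nat.card (M₂.V →ₗ[K] M₁.V) * ∑ C, Mky_val f g p.1 p.2 C =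
      ∑ B, ∑ S, Mky_val f g p.1 p.2 (B + (M₁.φ ∘ₗ S - S ∘ₗ M₂.φ)) := fun p => by
    rw [Finset.sum_comm, Nat.card_eq_fintype_card, ← nsmul_eq_mul, ← Finset.card_univ,
      ← Finset.sum_const]
    exact Finset.sum_congr rfl fun S _ =>
      (Equiv.sum_comp (Equiv.addRight (M₁.φ ∘ₗ S - S ∘ₗ M₂.φ)) (Mky_val f g p.1 p.2)).symm
  have h2 : ∀ p : M₁.Inv × M₂.Inv, Nat.card (M₂.V →ₗ[K] M₁.V) *
      (del0 f (M₁.sub p.1) (M₂.sub p.2) * del0 g (M₁.quo p.1) (M₂.quo p.2)) =
      ∑ B, ∑ N : (ext M₁ M₂ B).Inv, ((Nat.card (Mky_Z p.1.1 p.2.1) : ℂ)⁻¹ *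
        ∑ S, Mky_ind N.1 p.1.1 p.2.1 S) *
        (f.1 ((ext M₁ M₂ B).sub N) * g.1 ((ext M₁ M₂ B).quo N)) := fun p => by
    rw [Mky_del, mul_left_comm, h1, Finset.mul_sum]
    refine Finset.sum_congr rfl fun B _ => ?_
    simp only [Mky_ite]
    rw [Finset.sum_comm, Finset.mul_sum]
    refine Finset.sum_congr rfl fun N _ => ?_
    rw [mul_assoc, Finset.sum_mul]
  rw [← Fintype.sum_prod_type', del0, inv_mul_eq_iff_eq_mul₀ hH, Finset.mul_sum]
  simp only [h2]
  rw [Finset.sum_comm]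
  refine Finset.sum_congr rfl fun B _ => ?_
  rw [mul_val, Finset.sum_comm]
  refine Finset.sum_congr rfl fun N _ => ?_
  rw [← Finset.sum_mul, Mky_one, one_mul]

/-! ### Task PD DelB -/

theorem DelB_const {f : HA K} {M₁ M₂ : Ob K} {c : ℂ} (h : ∀ B, f.1 (ext M₁ M₂ B) = c) :
    del0 f M₁ M₂ = c := by
  have h0 : (Fintype.card (M₂.V →ₗ[K] M₁.V) : ℂ) ≠ 0 := Nat.cast_ne_zero.2 Fintype.card_ne_zero
  simp only [del0, h, Finset.sum_const, Finset.card_univ, nsmul_eq_mul, Nat.card_eq_fintype_card]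
  rw [← mul_assoc, inv_mul_cancel₀ h0, one_mul]

theorem del0_iso (f : HA K) {M₁ M₁' M₂ M₂' : Ob K} (h₁ : Iso M₁ M₁') (h₂ : Iso M₂ M₂') :
    del0 f M₁ M₂ = del0 f M₁' M₂' := by
  obtain ⟨e₁, he₁⟩ := h₁
  obtain ⟨e₂, he₂⟩ := h₂
  let e : (M₂.V →ₗ[K] M₁.V) ≃ (M₂'.V →ₗ[K] M₁'.V) := (LinearEquiv.arrowCongr e₂ e₁).toEquiv
  rw [del0, del0, Nat.card_congr e]
  congr 1
  refine Fintype.sum_equiv e _ _ fun B => f.iso ⟨e₁.prodCongr e₂, ?_⟩
  rintro ⟨x, y⟩
  change (e₁ (M₁.φ x + B y), e₂ (M₂.φ y)) =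
    (M₁'.φ (e₁ x) + e₁ (B (e₂.symm (e₂ y))), M₂'.φ (e₂ y))
  rw [map_add, he₁, he₂, e₂.symm_apply_apply]

theorem del0_left (f : HA K) {M₁ : Ob K} (h : M₁.dim = 0) (M₂ : Ob K) :
    del0 f M₁ M₂ = f.1 M₂ := by
  have : Subsingleton M₁.V := Module.finrank_zero_iff.1 h
  have : Unique M₁.V := uniqueOfSubsingleton 0
  refine DelB_const fun B => f.iso ⟨LinearEquiv.uniqueProd, ?_⟩
  rintro ⟨x, y⟩
  rfl

theorem del0_right (f : HA K) (M₁ : Ob K) {M₂ : Ob K} (h : M₂.dim = 0) :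
    del0 f M₁ M₂ = f.1 M₁ := by
  have : Subsingleton M₂.V := Module.finrank_zero_iff.1 h
  have : Unique M₂.V := uniqueOfSubsingleton 0
  refine DelB_const fun B => f.iso ⟨LinearEquiv.prodUnique, ?_⟩
  rintro ⟨x, y⟩
  change M₁.φ x + B y = M₁.φ x
  rw [Subsingleton.elim y 0, map_zero, add_zero]

theorem del0_add (f g : HA K) (M₁ M₂ : Ob K) :
    del0 (f + g) M₁ M₂ = del0 f M₁ M₂ + del0 g M₁ M₂ := by
  simp only [del0, add_val, Finset.sum_add_distrib, mul_add]

theorem del0_smul (c : ℂ) (f : HA K) (M₁ M₂ : Ob K) :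
    del0 (c • f) M₁ M₂ = c * del0 f M₁ M₂ := by
  simp only [del0, smul_val, smul_eq_mul, ← Finset.mul_sum, mul_left_comm c]

theorem del0_one (M₁ M₂ : Ob K) :
    del0 (1 : HA K) M₁ M₂ = (1 : HA K).1 M₁ * (1 : HA K).1 M₂ := by
  refine DelB_const fun B => ?_
  simp only [one_val, dim_ext, Nat.add_eq_zero_iff]
  by_cases h₁ : M₁.dim = 0 <;> by_cases h₂ : M₂.dim = 0 <;> simp [h₁, h₂]

theorem del0_cmp (n : ℕ) (f : HA K) (M₁ M₂ : Ob K) :
    del0 (cmp n f) M₁ M₂ = if M₁.dim + M₂.dim = n then del0 f M₁ M₂ else 0 := by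
  simp only [del0, cmp_val, dim_ext]
  split_ifs <;> simp

theorem del0_pm {a : HA K} {M₁ M₂ : Ob K} {c : ℂ} (h : ∀ B, a.1 (ext M₁ M₂ B) = c) (f : HA K) :
    del0 (pm a f) M₁ M₂ = c * del0 f M₁ M₂ := by
  simp only [del0, pm_val, h, ← Finset.mul_sum, mul_left_comm c]

/-- The comultiplication. -/
noncomputable def del : HA K →ₐ[ℂ] CF K (HA K) :=
  AlgHom.ofLinearMap
    { toFun := fun f => ⟨fun M₁ => ⟨fun M₂ => del0 f M₁ M₂, fun _ _ h => del0_iso f (Iso.refl _) h⟩,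
        fun _ _ h => CF.ext fun _ => del0_iso f h (Iso.refl _)⟩
      map_add' := fun f g => CF.ext fun M₁ => CF.ext fun M₂ => del0_add f g M₁ M₂
      map_smul' := fun c f => CF.ext fun M₁ => CF.ext fun M₂ => del0_smul c f M₁ M₂ }
    (CF.ext fun M₁ => CF.ext fun M₂ => by
      change del0 1 M₁ M₂ = _
      rw [del0_one]
      simp only [one_val]
      split_ifs <;> simp [one_val, *])
    (fun f g => CF.ext fun M₁ => CF.ext fun M₂ => by
      change del0 (f * g) M₁ M₂ = _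
      rw [mackey, mul_val, sum_val]
      rfl)

theorem del_val (f : HA K) (M₁ M₂ : Ob K) : ((del f).1 M₁).1 M₂ = del0 f M₁ M₂ := rfl

/-- The first inclusion into the completed tensor square. -/
noncomputable def i1 : HA K →ₐ[ℂ] CF K (HA K) := CF.map (Algebra.ofId ℂ (HA K))

/-- The second inclusion into the completed tensor square. -/
noncomputable def i2 : HA K →ₐ[ℂ] CF K (HA K) := CF.cst

/-- The comultiplication as a function of the first variable. -/
noncomputable def dr (M₂ : Ob K) : HA K →ₗ[ℂ] HA K where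
  toFun f := ⟨fun M₁ => del0 f M₁ M₂, fun _ _ h => del0_iso f h (Iso.refl _)⟩
  map_add' f g := CF.ext fun M₁ => del0_add f g M₁ M₂
  map_smul' c f := CF.ext fun M₁ => del0_smul c f M₁ M₂

theorem dr_val (M₂ : Ob K) (f : HA K) (M₁ : Ob K) : (dr M₂ f).1 M₁ = del0 f M₁ M₂ := rfl

theorem dr_iso (f : HA K) {M M' : Ob K} (h : Iso M M') : dr M f = dr M' f :=
  CF.ext fun _ => del0_iso f (Iso.refl _) h

/-- A functional applied to the first variable of the comultiplication. -/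
noncomputable def Dw (w : HA K →ₗ[ℂ] ℂ) : HA K →ₗ[ℂ] HA K where
  toFun f := ⟨fun M => w (dr M f), fun _ _ h => by simp only [dr_iso f h]⟩
  map_add' f g := CF.ext fun M => by simp
  map_smul' c f := CF.ext fun M => by simp

theorem Dw_val (w : HA K →ₗ[ℂ] ℂ) (f : HA K) (M : Ob K) : (Dw w f).1 M = w (dr M f) := rfl

/-- Primitive elements. -/
def Pr (y : HA K) : Prop := del y = i1 y + i2 y

/-- Homogeneous primitive elements of positive degree. -/
def Prim (n : ℕ) (y : HA K) : Prop :=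
  0 < n ∧ Hom n y ∧ ∀ M₁ M₂ : Ob K, M₁.dim ≠ 0 → M₂.dim ≠ 0 → del0 y M₁ M₂ = 0

/-- Group like elements. -/
def Gl (E : HA K) : Prop := eps E = 1 ∧ ∀ M₁ M₂, del0 E M₁ M₂ = E.1 M₁ * E.1 M₂

theorem DelB_i1 (f : HA K) (M : Ob K) : (i1 f).1 M = f.1 M • (1 : HA K) :=
  Algebra.algebraMap_eq_smul_one (f.1 M)

theorem DelB_i12 (f g : HA K) (M : Ob K) : (i1 f * i2 g).1 M = f.1 M • g :=
  (mul_cst0 g (i1 f) M).trans (by rw [DelB_i1, smul_mul_assoc, one_mul])

theorem DelB_pr {y : HA K} : Pr y ↔ ∀ M₁ M₂ : Ob K, del0 y M₁ M₂ =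
    (if M₂.dim = 0 then y.1 M₁ else 0) + if M₁.dim = 0 then y.1 M₂ else 0 := by
  have e : ∀ M₁ M₂ : Ob K, ((i1 y + i2 y).1 M₁).1 M₂ =
      (if M₂.dim = 0 then y.1 M₁ else 0) + if M₁.dim = 0 then y.1 M₂ else 0 := by
    intro M₁ M₂
    rw [add_val, add_val, DelB_i1, smul_val, one_val, i2, cst_val]
    congr 1 <;> split_ifs <;> simp
  refine ⟨fun h M₁ M₂ => ?_, fun h => CF.ext fun M₁ => CF.ext fun M₂ => ?_⟩
  · rw [← e, ← del_val, h]
  · rw [e, del_val, h]

theorem i1_mul_i2 (f g : HA K) (M₁ M₂ : Ob K) : ((i1 f * i2 g).1 M₁).1 M₂ = f.1 M₁ * g.1 M₂ := by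
  rw [DelB_i12, smul_val, smul_eq_mul]

theorem i1_comm_i2 (f g : HA K) : i1 f * i2 g = i2 g * i1 f :=
  CF.ext fun M => (DelB_i12 f g M).trans
    ((cst0_mul g (i1 f) M).trans (by rw [DelB_i1, mul_smul_comm, mul_one])).symm

theorem gl_iff {E : HA K} : Gl E ↔ eps E = 1 ∧ del E = i1 E * i2 E := by
  refine and_congr_right fun _ => ⟨fun h => CF.ext fun M₁ => CF.ext fun M₂ => ?_, fun h M₁ M₂ => ?_⟩
  · rw [del_val, h, i1_mul_i2]
  · rw [← del_val, h, i1_mul_i2]

theorem Gl.inv {E E' : HA K} (h : Gl E) (h1 : E * E' = 1) (h2 : E' * E = 1) : Gl E' := by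
  obtain ⟨k1, k2⟩ := gl_iff.1 h
  refine gl_iff.2 ⟨?_, ?_⟩
  · have e := eps_mul E E'
    rw [h1, k1, one_mul] at e
    rw [← e, eps, one_val, if_pos dim_zero]
  · have e : i1 E' * i2 E' * (i1 E * i2 E) = 1 := by
      rw [mul_assoc, ← mul_assoc (i2 E'), ← i1_comm_i2, mul_assoc, ← map_mul, h2, map_one, mul_one,
        ← map_mul, h2, map_one]
    rw [← one_mul (del E'), ← e, ← k2, mul_assoc, ← map_mul, h1, map_one, mul_one]

theorem Prim.pr {n : ℕ} {y : HA K} (h : Prim n y) : Pr y := by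
  have h0 : ∀ M : Ob K, M.dim = 0 → y.1 M = 0 := fun M hM => h.2.1 M (hM.trans_lt h.1).ne
  refine DelB_pr.2 fun M₁ M₂ => ?_
  by_cases h₁ : M₁.dim = 0
  · rw [del0_left y h₁, if_pos h₁, h0 M₁ h₁, ite_self, zero_add]
  · by_cases h₂ : M₂.dim = 0
    · rw [del0_right y M₁ h₂, if_pos h₂, if_neg h₁, add_zero]
    · rw [h.2.2 M₁ M₂ h₁ h₂, if_neg h₁, if_neg h₂, add_zero]

theorem Pr.prim {y : HA K} (h : Pr y) {n : ℕ} (hn : 0 < n) : Prim n (cmp n y) :=
  ⟨hn, hom_cmp n y, fun M₁ M₂ h₁ h₂ => by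
    rw [del0_cmp, DelB_pr.1 h, if_neg h₁, if_neg h₂, add_zero, ite_self]⟩

theorem Pr.eps {y : HA K} (h : Pr y) : eps y = 0 := by
  have e := DelB_pr.1 h (zero K) (zero K)
  rw [del0_left y dim_zero, if_pos dim_zero] at e
  exact left_eq_add.1 e

theorem Pr.comm {x y : HA K} (hx : Pr x) (hy : Pr y) : Pr (x * y - y * x) := by
  unfold Pr at *
  simp only [map_sub, map_mul, hx, hy, mul_add, add_mul, i1_comm_i2]
  abel

theorem Prim.add {n : ℕ} {x y : HA K} (hx : Prim n x) (hy : Prim n y) : Prim n (x + y) :=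
  ⟨hx.1, hx.2.1.add hy.2.1, fun M₁ M₂ h₁ h₂ => by
    rw [del0_add, hx.2.2 M₁ M₂ h₁ h₂, hy.2.2 M₁ M₂ h₁ h₂, add_zero]⟩

theorem Prim.smul {n : ℕ} {x : HA K} (hx : Prim n x) (c : ℂ) : Prim n (c • x) :=
  ⟨hx.1, hx.2.1.smul c, fun M₁ M₂ h₁ h₂ => by rw [del0_smul, hx.2.2 M₁ M₂ h₁ h₂, mul_zero]⟩

theorem Prim.sub {n : ℕ} {x y : HA K} (hx : Prim n x) (hy : Prim n y) : Prim n (x - y) := by
  rw [sub_eq_add_neg, ← neg_one_smul ℂ y]
  exact hx.add (hy.smul _)

theorem Prim.pm {n : ℕ} {y : HA K} (h : Prim n y) {a : HA K}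
    (ha : ∀ M₁ M₂ B, a.1 (ext M₁ M₂ B) = a.1 (ext M₁ M₂ 0)) : Prim n (pm a y) :=
  ⟨h.1, fun M hM => by rw [pm_val, h.2.1 M hM, mul_zero], fun M₁ M₂ h₁ h₂ => by
    rw [del0_pm (ha M₁ M₂), h.2.2 M₁ M₂ h₁ h₂, mul_zero]⟩

omit [Finite K] in
theorem isAdd_dimf : IsAdd (dimf K) := fun M₁ M₂ B => by
  simp only [dimf, dim_ext, Nat.cast_add]

theorem IsAdd.pm_mul {a : HA K} (ha : IsAdd a) (f g : HA K) :
    pm a (f * g) = pm a f * g + f * pm a g := by
  refine CF.ext fun M => ?_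
  simp only [pm_val, add_val, mul_val, Finset.mul_sum, ← Finset.sum_add_distrib]
  refine Finset.sum_congr rfl fun N _ => ?_
  obtain ⟨B, hB⟩ := iso_ext M N
  rw [a.iso hB, ha]
  ring

theorem IsAdd.pm_one {a : HA K} (ha : IsAdd a) : pm a 1 = 0 := by
  have e := ha.pm_mul 1 1
  rw [mul_one, mul_one, one_mul] at e
  exact left_eq_add.1 e

theorem IsMul.pm_mul {a : HA K} (ha : IsMul a) (f g : HA K) : pm a (f * g) = pm a f * pm a g := by
  refine CF.ext fun M => ?_
  simp only [pm_val, mul_val, Finset.mul_sum]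
  refine Finset.sum_congr rfl fun N _ => ?_
  obtain ⟨B, hB⟩ := iso_ext M N
  rw [a.iso hB, ha]
  ring

omit [Finite K] in
theorem Hom_pm {n : ℕ} {f : HA K} (h : Hom n f) (a : HA K) : Hom n (pm a f) := fun M hM => by
  rw [pm_val, h M hM, mul_zero]

omit [Finite K] in
theorem cmp_pm (n : ℕ) (a f : HA K) : cmp n (pm a f) = pm a (cmp n f) :=
  CF.ext fun M => by
    simp only [cmp_val, pm_val]
    split_ifs <;> simp

omit [Finite K] in
theorem cmp_dimf (n : ℕ) (f : HA K) : cmp n (pm (dimf K) f) = (n : ℂ) • cmp n f :=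
  CF.ext fun M => by
    simp only [cmp_val, pm_val, smul_val, dimf, smul_eq_mul]
    split_ifs with h <;> simp [h]

theorem pr_log {E y a : HA K} (hE : Gl E) (ha : IsAdd a) (h : E * y = pm a E) : Pr y := by
  have hu : IsUnit (i1 E * i2 E) :=
    ((isUnit_of_eps hE.1).map (i1 (K := K))).mul ((isUnit_of_eps hE.1).map (i2 (K := K)))
  have e : del (pm a E) = i1 (pm a E) * i2 E + i1 E * i2 (pm a E) :=
    CF.ext fun M₁ => CF.ext fun M₂ => by
      rw [del_val, del0_pm (ha M₁ M₂), hE.2, add_val, add_val, i1_mul_i2, i1_mul_i2, pm_val, pm_val]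
      ring
  rw [← h, map_mul, map_mul, map_mul, (gl_iff.1 hE).2, mul_assoc (i1 E) (i1 y), i1_comm_i2 y E,
    ← mul_assoc, ← mul_assoc, ← mul_add] at e
  exact hu.mul_left_cancel e

theorem Dw_mul {ι : Type*} (s : Finset ι) {w : HA K →ₗ[ℂ] ℂ} {w₁ w₂ : ι → HA K →ₗ[ℂ] ℂ}
    (h : ∀ y z, w (y * z) = ∑ i ∈ s, w₁ i y * w₂ i z) (f g : HA K) :
    Dw w (f * g) = ∑ i ∈ s, Dw (w₁ i) f * Dw (w₂ i) g := by
  refine CF.ext fun M => ?_
  have e : dr M (f * g) = ∑ N : M.Inv, dr (M.sub N) f * dr (M.quo N) g := CF.ext fun M₁ => by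
    rw [dr_val, mackey, Finset.sum_comm, sum_val]
    rfl
  rw [Dw_val, e, map_sum, sum_val]
  simp only [h, mul_val, Dw_val]
  exact Finset.sum_comm

theorem Dw_eps (f : HA K) : Dw (epsl K) f = f :=
  CF.ext fun M => del0_left f dim_zero M

theorem Dw_one (w : HA K →ₗ[ℂ] ℂ) : Dw w 1 = w 1 • (1 : HA K) := by
  refine CF.ext fun M => ?_
  have e : dr M (1 : HA K) = (1 : HA K).1 M • (1 : HA K) := CF.ext fun M₁ => by
    rw [dr_val, del0_one, smul_val, smul_eq_mul, mul_comm]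
  rw [Dw_val, e, map_smul, smul_val, smul_eq_mul, smul_eq_mul, mul_comm]

theorem Pr.Dw {y : HA K} (h : Pr y) (w : HA K →ₗ[ℂ] ℂ) : Dw w y = w y • (1 : HA K) + w 1 • y := by
  refine CF.ext fun M => ?_
  have e : dr M y = (1 : HA K).1 M • y + y.1 M • (1 : HA K) := CF.ext fun M₁ => by
    rw [dr_val, DelB_pr.1 h]
    simp only [add_val, smul_val, one_val, smul_eq_mul]
    split_ifs <;> simp
  rw [Dw_val, e]
  simp only [map_add, map_smul, add_val, smul_val, smul_eq_mul, mul_comm]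

theorem Gl.Dw_cmp {E : HA K} (h : Gl E) (w : HA K →ₗ[ℂ] ℂ) (n : ℕ) :
    Dw w (cmp n E) = ∑ x ∈ ad n, w (cmp x.1 E) • cmp x.2 E := by
  refine CF.ext fun M => ?_
  have e : dr M (cmp n E) = ∑ x ∈ ad n, (cmp x.2 E).1 M • cmp x.1 E := CF.ext fun M₁ => by
    rw [dr_val, del0_cmp, h.2, sum_val]
    simp only [smul_val, cmp_val, smul_eq_mul]
    have k : ∀ x : ℕ × ℕ, x ≠ (M₁.dim, M.dim) →
        (if M.dim = x.2 then E.1 M else 0) * (if M₁.dim = x.1 then E.1 M₁ else 0) = 0 := by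
      intro x hx
      by_cases h₁ : M₁.dim = x.1
      · rw [if_neg (fun h₂ => hx (Prod.ext h₁.symm h₂.symm)), zero_mul]
      · rw [if_neg h₁, mul_zero]
    split_ifs with hn
    · rw [Finset.sum_eq_single_of_mem (M₁.dim, M.dim) (Finset.HasAntidiagonal.mem_antidiagonal.2 hn)
        fun x _ hx => k x hx, if_pos rfl, if_pos rfl, mul_comm]
    · refine (Finset.sum_eq_zero fun x hx => k x ?_).symm
      rintro rfl
      exact hn (Finset.HasAntidiagonal.mem_antidiagonal.1 hx)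
  rw [Dw_val, e, map_sum, sum_val]
  simp only [map_smul, smul_val, smul_eq_mul, mul_comm]

end PD
end

-- merged part: Pool.Agent.Work.MP_cea1f0_al.D.Adj
section
/-!
# Scalar products, characters  (tasks PD Blk, PD Adj, PD AdjB, PD AdjC)

* `Blk`: block triangular matrices.
* `hn_mul`: compute in `V = V₁ × V₂` with `V₁ = Fin a → K`, `V₂ = Fin b → K` (`hp_cf`).  Exchange the sums over
  `g` and over the subspaces `N`; only `N` of dimension `a` contribute.  The group is transitive on these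
  subspaces and the inner sum over the stabiliser of `N` does not depend on `N` (conjugate).  Orbit-stabiliser
  (`MulAction.card_orbit_mul_card_stabilizer_eq_card_group`), and `Blk.emb` is a bijection from
  `Blk (MonoidHom.id _) (MonoidHom.id _)` onto the stabiliser of `N₀ = range inl`; for `g = emb x` the subobject is
  isomorphic to `of x.u₁` and the quotient to `of x.u₂`.
* `hn_mul_nat`: by `hn_mul` the scalar product is the scalar product on the group `Blk id id` of the characters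
  `cf f ∘ emb` and `(cf x ∘ pr₁) * (cf y ∘ pr₂)`.
* `exists_lift`: `M ↦ χ g` for `g` with `Iso M (of g)` (`exists_of`, `Iso.isConj`).
* `sup_orth`: expand the component of `y` in irreducible characters `η'`; write `S = χ + a`, `S' = η + b` with characters
  `a`, `b`; `0 = hn S (S' η')` is a sum of four natural numbers.
-/

namespace PD

open Ob CF Module Pool.Agent.Lib.SymRep

variable {K : Type} [Field K]

section Blk

variable {V₁ V₂ : Type} [AddCommGroup V₁] [Module K V₁] [AddCommGroup V₂] [Module K V₂]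
  {U₁ U₂ : Type} [Group U₁] [Group U₂]

/-- Block triangular matrices with diagonal blocks from two groups. -/
@[ext] structure Blk (ι₁ : U₁ →* (End K V₁)ˣ) (ι₂ : U₂ →* (End K V₂)ˣ) where
  /-- The first block. -/
  u₁ : U₁
  /-- The second block. -/
  u₂ : U₂
  /-- The corner. -/
  B : V₂ →ₗ[K] V₁

variable {ι₁ : U₁ →* (End K V₁)ˣ} {ι₂ : U₂ →* (End K V₂)ˣ}

instance : Mul (Blk ι₁ ι₂) :=
  ⟨fun x y => ⟨x.u₁ * y.u₁, x.u₂ * y.u₂, (ι₁ x.u₁).1 ∘ₗ y.B + x.B ∘ₗ (ι₂ y.u₂).1⟩⟩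

instance : One (Blk ι₁ ι₂) := ⟨⟨1, 1, 0⟩⟩

instance : Inv (Blk ι₁ ι₂) :=
  ⟨fun x => ⟨x.u₁⁻¹, x.u₂⁻¹, -((ι₁ x.u₁⁻¹).1 ∘ₗ x.B ∘ₗ (ι₂ x.u₂⁻¹).1)⟩⟩

/-! ### Task PD Blk -/

theorem Blk.mul_assoc' (x y z : Blk ι₁ ι₂) : x * y * z = x * (y * z) := by
  refine Blk.ext (mul_assoc _ _ _) (mul_assoc _ _ _) (LinearMap.ext fun v => ?_)
  change (ι₁ (x.u₁ * y.u₁)).1 (z.B v) + ((ι₁ x.u₁).1 (y.B ((ι₂ z.u₂).1 v)) +
      x.B ((ι₂ y.u₂).1 ((ι₂ z.u₂).1 v))) =
    (ι₁ x.u₁).1 ((ι₁ y.u₁).1 (z.B v) + y.B ((ι₂ z.u₂).1 v)) + x.B ((ι₂ (y.u₂ * z.u₂)).1 v)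
  simp only [map_mul, Units.val_mul, End.mul_apply, map_add, add_assoc]

theorem Blk.one_mul' (x : Blk ι₁ ι₂) : 1 * x = x := by
  refine Blk.ext (one_mul _) (one_mul _) (LinearMap.ext fun v => ?_)
  change (ι₁ 1).1 (x.B v) + 0 = x.B v
  rw [map_one, Units.val_one, End.one_apply, add_zero]

theorem Blk.inv_mul' (x : Blk ι₁ ι₂) : x⁻¹ * x = 1 := by
  refine Blk.ext (inv_mul_cancel _) (inv_mul_cancel _) (LinearMap.ext fun v => ?_)
  change (ι₁ x.u₁⁻¹).1 (x.B v) + -(ι₁ x.u₁⁻¹).1 (x.B (((ι₂ x.u₂⁻¹).1 * (ι₂ x.u₂).1) v)) = 0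
  rw [← Units.val_mul, ← map_mul, inv_mul_cancel, map_one, Units.val_one, End.one_apply,
    add_neg_cancel]

instance : Group (Blk ι₁ ι₂) := Group.ofLeftAxioms Blk.mul_assoc' Blk.one_mul' Blk.inv_mul'

/-- The underlying triple. -/
def Blk.equiv : Blk ι₁ ι₂ ≃ U₁ × U₂ × (V₂ →ₗ[K] V₁) where
  toFun x := (x.u₁, x.u₂, x.B)
  invFun x := ⟨x.1, x.2.1, x.2.2⟩
  left_inv _ := rfl
  right_inv _ := rfl

/-- The first projection. -/
def Blk.pr₁ : Blk ι₁ ι₂ →* U₁ := MonoidHom.mk' Blk.u₁ fun _ _ => rfl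

/-- The second projection. -/
def Blk.pr₂ : Blk ι₁ ι₂ →* U₂ := MonoidHom.mk' Blk.u₂ fun _ _ => rfl

/-- The endomorphism. -/
def Blk.toEnd (x : Blk ι₁ ι₂) : End K (V₁ × V₂) :=
  ((ι₁ x.u₁).1 ∘ₗ LinearMap.fst K _ _ + x.B ∘ₗ LinearMap.snd K _ _).prod
    ((ι₂ x.u₂).1 ∘ₗ LinearMap.snd K _ _)

theorem Blk.toEnd_one : (1 : Blk ι₁ ι₂).toEnd = 1 := by
  refine LinearMap.ext fun v => ?_
  change ((ι₁ 1).1 v.1 + 0, (ι₂ 1).1 v.2) = v
  simp only [map_one, Units.val_one, End.one_apply, add_zero]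

theorem Blk.toEnd_mul (x y : Blk ι₁ ι₂) : (x * y).toEnd = x.toEnd * y.toEnd := by
  refine LinearMap.ext fun v => ?_
  change ((ι₁ (x.u₁ * y.u₁)).1 v.1 + ((ι₁ x.u₁).1 (y.B v.2) + x.B ((ι₂ y.u₂).1 v.2)),
      (ι₂ (x.u₂ * y.u₂)).1 v.2) =
    ((ι₁ x.u₁).1 ((ι₁ y.u₁).1 v.1 + y.B v.2) + x.B ((ι₂ y.u₂).1 v.2), (ι₂ x.u₂).1 ((ι₂ y.u₂).1 v.2))
  simp only [map_mul, Units.val_mul, End.mul_apply, map_add, add_assoc]

/-- The homomorphism to the general linear group. -/
def Blk.emb : Blk ι₁ ι₂ →* (End K (V₁ × V₂))ˣ :=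
  MonoidHom.toHomUnits ⟨⟨Blk.toEnd, Blk.toEnd_one⟩, Blk.toEnd_mul⟩

theorem Blk.of_emb [FiniteDimensional K V₁] [FiniteDimensional K V₂] (x : Blk ι₁ ι₂) :
    Iso (of (Blk.emb x)) (ext (of (ι₁ x.u₁)) (of (ι₂ x.u₂)) x.B) := Iso.refl _

end Blk

/-- The general linear group. -/
abbrev Gn (K : Type) [Field K] (n : ℕ) : Type := (End K (Fin n → K))ˣ

/-- The class function on a general linear group. -/
def cf (V : Type) [AddCommGroup V] [Module K V] [FiniteDimensional K V] :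
    HA K →ₗ[ℂ] (End K V)ˣ → ℂ where
  toFun f g := f.1 (of g)
  map_add' _ _ := rfl
  map_smul' _ _ := rfl

theorem cf_apply (V : Type) [AddCommGroup V] [Module K V] [FiniteDimensional K V] (f : HA K)
    (g : (End K V)ˣ) : cf V f g = f.1 (of g) := rfl

/-- Characters. -/
def IsCh (f : HA K) : Prop := ∀ n, cf (Fin n → K) f ∈ Ch (Gn K n)

/-- Virtual characters. -/
def IsV (f : HA K) : Prop := ∀ n, cf (Fin n → K) f ∈ virt (Gn K n)

/-- Irreducible characters. -/
def Irr (n : ℕ) (f : HA K) : Prop := Hom n f ∧ cf (Fin n → K) f ∈ irr (Gn K n)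

/-- Functionals that are multiplicities of a linear character of a group of order prime to `p`. -/
def Real (p : ℕ) (V : Type) [AddCommGroup V] [Module K V] [FiniteDimensional K V]
    (w : HA K →ₗ[ℂ] ℂ) : Prop :=
  ∃ (U : Type) (_ : Group U) (_ : Fintype U) (ι : U →* (End K V)ˣ) (ψ : U →* ℂˣ),
    (Nat.card U).Coprime p ∧
      ∀ f, w f = (Nat.card U : ℂ)⁻¹ * ∑ u, cf V f (ι u) * star (ψ u : ℂ)

variable [Finite K]

noncomputable instance instFintypeGL {V : Type} [AddCommGroup V] [Module K V]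
    [FiniteDimensional K V] : Fintype (End K V)ˣ :=
  haveI : Finite (End K V) := Module.finite_of_finite K
  Fintype.ofFinite _

/-- The scalar product in degree `n`. -/
noncomputable def hn (n : ℕ) (f g : HA K) : ℂ := hp (cf (Fin n → K) f) (cf (Fin n → K) g)

theorem hn_add_left (n : ℕ) (f f' g : HA K) : hn n (f + f') g = hn n f g + hn n f' g := by
  rw [hn, map_add, hp_add_left]
  rfl

theorem hn_smul_left (n : ℕ) (c : ℂ) (f g : HA K) : hn n (c • f) g = c * hn n f g := by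
  rw [hn, map_smul, hp_smul_left]
  rfl

/-- The scalar product as a linear functional. -/
noncomputable def hnl (n : ℕ) (g : HA K) : HA K →ₗ[ℂ] ℂ where
  toFun f := hn n f g
  map_add' f f' := hn_add_left n f f' g
  map_smul' c f := hn_smul_left n c f g

theorem hnl_apply (n : ℕ) (g f : HA K) : hnl n g f = hn n f g := rfl

section

variable {V W : Type} [AddCommGroup V] [Module K V] [FiniteDimensional K V] [AddCommGroup W]
  [Module K W] [FiniteDimensional K W]

theorem Real.del {p : ℕ} (hp : (Nat.card K).Coprime p) {w₁ w₂ : HA K →ₗ[ℂ] ℂ} (h₁ : Real p V w₁)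
    (h₂ : Real p W w₂) : Real p (V × W) (w₂ ∘ₗ Dw w₁) := by
  obtain ⟨U₁, _, _, ι₁, ψ₁, c₁, e₁⟩ := h₁
  obtain ⟨U₂, _, _, ι₂, ψ₂, c₂, e₂⟩ := h₂
  have : Finite (W →ₗ[K] V) := Module.finite_of_finite K
  let _ := Fintype.ofFinite (W →ₗ[K] V)
  let _ : Fintype (Blk ι₁ ι₂) := Fintype.ofEquiv _ Blk.equiv.symm
  have hc : Nat.card (Blk ι₁ ι₂) = Nat.card U₁ * (Nat.card U₂ * Nat.card (W →ₗ[K] V)) := by
    rw [Nat.card_congr Blk.equiv, Nat.card_prod, Nat.card_prod]
  refine ⟨Blk ι₁ ι₂, inferInstance, inferInstance, Blk.emb, ψ₁.comp Blk.pr₁ * ψ₂.comp Blk.pr₂,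
    ?_, fun f => ?_⟩
  · rw [hc, Module.natCard_eq_pow_finrank (K := K) (V := W →ₗ[K] V)]
    exact c₁.mul_left (c₂.mul_left (hp.pow_left _))
  · have e₃ (u₁ : U₁) (u₂ : U₂) : cf V (dr (of (ι₂ u₂)) f) (ι₁ u₁) =
        (Nat.card (W →ₗ[K] V) : ℂ)⁻¹ * ∑ B, cf (V × W) f (Blk.emb ⟨u₁, u₂, B⟩) := rfl
    rw [← Blk.equiv.symm.sum_comp, Fintype.sum_prod_type, Finset.sum_comm, hc,
      Fintype.sum_prod_type, LinearMap.comp_apply, e₂, Finset.mul_sum, Finset.mul_sum]
    refine Finset.sum_congr rfl fun u₂ _ => ?_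
    rw [cf_apply, Dw_val, e₁, Finset.sum_comm]
    simp only [e₃, Finset.mul_sum, Finset.sum_mul]
    refine Finset.sum_congr rfl fun u₁ _ => Finset.sum_congr rfl fun B _ => ?_
    change _ = _ * (cf (V × W) f (Blk.emb ⟨u₁, u₂, B⟩) * star ((ψ₁ u₁ : ℂ) * ψ₂ u₂))
    rw [star_mul', Nat.cast_mul, Nat.cast_mul, mul_inv, mul_inv]
    ring

theorem Real.equiv {p : ℕ} {w : HA K →ₗ[ℂ] ℂ} (h : Real p V w) (e : finrank K V = finrank K W) :
    Real p W w := by
  obtain ⟨U, _, _, ι, ψ, c, h⟩ := h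
  refine ⟨U, inferInstance, inferInstance, (Units.map
    ((LinearEquiv.ofFinrankEq V W e).conjRingEquiv : End K V →* End K W)).comp ι, ψ, c,
    fun f => (h f).trans (congrArg _ (Finset.sum_congr rfl fun u _ => ?_))⟩
  exact congrArg (· * _) (f.iso (iso_of _ _))

omit [Finite K] in
theorem real_eps (p : ℕ) (h : finrank K V = 0) : Real p V (epsl K) := by
  refine ⟨Unit, inferInstance, inferInstance, 1, 1, by simp, fun f => ?_⟩
  refine (f.iso (iso_zero (M := of (1 : (End K V)ˣ)) h)).symm.trans ?_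
  simp [cf_apply]

theorem Real.hom {p n : ℕ} {w : HA K →ₗ[ℂ] ℂ} (h : Real p V w) {f : HA K} (hf : Hom n f)
    (hn : finrank K V ≠ n) : w f = 0 := by
  obtain ⟨U, _, _, ι, ψ, -, h⟩ := h
  rw [h, Finset.sum_eq_zero fun u _ => by rw [cf_apply, hf (of (ι u)) hn, zero_mul], mul_zero]

theorem Real.cmp {p : ℕ} {w : HA K →ₗ[ℂ] ℂ} (h : Real p V w) (f : HA K) :
    w (cmp (finrank K V) f) = w f := by
  obtain ⟨U, _, _, ι, ψ, -, h⟩ := h
  rw [h, h]
  exact congrArg _ (Finset.sum_congr rfl fun u _ => congrArg (· * _) (if_pos rfl))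

/-! ### Task PD AdjB -/

omit [Finite K] in
theorem cf_cl (f : HA K) : Cl (cf V f) := fun g h => f.iso (iso_of_conj g h)

omit [Finite K] in
theorem cf_equiv (h : finrank K V = finrank K W) :
    ∃ e : (End K V)ˣ ≃* (End K W)ˣ, ∀ f : HA K, cf V f = fun g => cf W f (e g) := by
  obtain ⟨e⟩ := FiniteDimensional.nonempty_linearEquiv_of_finrank_eq h
  exact ⟨Units.mapEquiv e.conjRingEquiv.toMulEquiv, fun f => funext fun g => f.iso (iso_of e g)⟩

theorem hp_cf {n : ℕ} (h : finrank K V = n) (f g : HA K) : hp (cf V f) (cf V g) = hn n f g := by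
  obtain ⟨e, he⟩ := cf_equiv (K := K) (V := V) (W := Fin n → K) (by rw [h, finrank_fin_fun])
  rw [he f, he g]
  exact hp_equiv e _ _

theorem IsCh.cf {f : HA K} (h : IsCh f) : cf V f ∈ Ch (End K V)ˣ := by
  obtain ⟨e, he⟩ := cf_equiv (K := K) (V := V) (W := Fin (finrank K V) → K)
    (finrank_fin_fun K).symm
  rw [he f]
  exact Ch.comp (h _) e.toMonoidHom

theorem IsV.cf {f : HA K} (h : IsV f) : cf V f ∈ virt (End K V)ˣ := by
  obtain ⟨e, he⟩ := cf_equiv (K := K) (V := V) (W := Fin (finrank K V) → K)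
    (finrank_fin_fun K).symm
  rw [he f]
  exact virt_comp (h _) e.toMonoidHom

theorem Irr.cf {f : HA K} (h : Irr (finrank K V) f) : cf V f ∈ irr (End K V)ˣ := by
  obtain ⟨e, he⟩ := cf_equiv (K := K) (V := V) (W := Fin (finrank K V) → K)
    (finrank_fin_fun K).symm
  rw [he f]
  exact irr_equiv e h.2

omit [Finite K] in
theorem Hom_cf_inj {f : HA K} (h : Hom (finrank K V) f) (h0 : cf V f = 0) : f = 0 := by
  refine CF.ext fun M => ?_
  by_cases hM : finrank K V = M.dim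
  · obtain ⟨g, hg⟩ := exists_of M hM
    rw [f.iso hg]
    exact congrFun h0 g
  · exact h M fun e => hM e.symm

omit [Finite K] in
theorem cf_cmp (n : ℕ) (f : HA K) : cf V (cmp n f) = if finrank K V = n then cf V f else 0 := by
  funext g
  change (if finrank K V = n then f.1 (of g) else 0) = _
  split_ifs <;> rfl

omit [Finite K] in
theorem exists_lift {χ : (End K V)ˣ → ℂ} (h : Cl χ) :
    ∃ f : HA K, Hom (finrank K V) f ∧ cf V f = χ := by
  have key : ∀ g g' : (End K V)ˣ, Iso (of g) (of g') → χ g = χ g' := fun g g' e => by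
    obtain ⟨x, rfl⟩ := e.isConj
    exact (h g x).symm
  refine ⟨⟨fun M => if e : finrank K V = M.dim then χ (exists_of M e).choose else 0,
    fun M N e => ?_⟩, fun M hM => dif_neg fun e => hM e.symm, funext fun g => ?_⟩
  · by_cases k : finrank K V = M.dim
    · have k' := k.trans e.dim_eq
      rw [dif_pos k, dif_pos k']
      exact key _ _ (((exists_of M k).choose_spec.symm.trans e).trans (exists_of N k').choose_spec)
    · rw [dif_neg k, dif_neg fun k' => k (k'.trans e.dim_eq.symm)]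
  · have k : finrank K V = (of g).dim := rfl
    exact (dif_pos k).trans (key _ _ (exists_of (of g) k).choose_spec.symm)

theorem Real.nat {p : ℕ} {w : HA K →ₗ[ℂ] ℂ} (h : Real p V w) {f : HA K} (hf : IsCh f) :
    ∃ k : ℕ, w f = k := by
  obtain ⟨U, _, _, ι, ψ, -, hw⟩ := h
  rw [hw]
  exact hp_ch (Ch.comp hf.cf ι) (lin_mem_ch ψ)

end

theorem hn_star (n : ℕ) (f g : HA K) : star (hn n f g) = hn n g f := hp_star _ _

theorem hn_add_right (n : ℕ) (f g g' : HA K) : hn n f (g + g') = hn n f g + hn n f g' := by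
  rw [← hn_star, hn_add_left, star_add, hn_star, hn_star]

theorem hn_sub_left (n : ℕ) (f f' g : HA K) : hn n (f - f') g = hn n f g - hn n f' g :=
  map_sub (hnl n g) f f'

theorem hn_sub_right (n : ℕ) (f g g' : HA K) : hn n f (g - g') = hn n f g - hn n f g' := by
  rw [← hn_star, hn_sub_left, star_sub, hn_star, hn_star]

theorem hn_smul_right (n : ℕ) (c : ℂ) (f g : HA K) : hn n f (c • g) = star c * hn n f g := by
  rw [← hn_star, hn_smul_left, star_mul', hn_star]

theorem hn_sum_left {ι : Type*} (n : ℕ) (s : Finset ι) (f : ι → HA K) (g : HA K) :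
    hn n (∑ i ∈ s, f i) g = ∑ i ∈ s, hn n (f i) g := map_sum (hnl n g) f s

theorem hn_sum_right {ι : Type*} (n : ℕ) (s : Finset ι) (f : HA K) (g : ι → HA K) :
    hn n f (∑ i ∈ s, g i) = ∑ i ∈ s, hn n f (g i) := by
  rw [← hn_star, hn_sum_left, star_sum]
  exact Finset.sum_congr rfl fun i _ => hn_star _ _ _

theorem hn_cmp_left (n : ℕ) (f g : HA K) : hn n (cmp n f) g = hn n f g := by
  rw [hn, cf_cmp, if_pos (finrank_fin_fun K), hn]

theorem hn_cmp_right (n : ℕ) (f g : HA K) : hn n f (cmp n g) = hn n f g := by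
  rw [hn, cf_cmp, if_pos (finrank_fin_fun K), hn]

theorem hn_hom_left {n a : ℕ} {f : HA K} (h : Hom a f) (ha : a ≠ n) (g : HA K) : hn n f g = 0 := by
  rw [← hn_cmp_left, h.cmp_ne ha.symm]
  exact map_zero (hnl n g)

theorem hn_hom_right {n a : ℕ} {g : HA K} (h : Hom a g) (ha : a ≠ n) (f : HA K) : hn n f g = 0 := by
  rw [← hn_star, hn_hom_left h ha, star_zero]

omit [Finite K] in
theorem AdjB_inj {n : ℕ} {f : HA K} (h : Hom n f) (h0 : cf (Fin n → K) f = 0) : f = 0 :=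
  Hom_cf_inj (by rwa [finrank_fin_fun]) h0

omit [Finite K] in
theorem AdjB_sub {n : ℕ} {f g : HA K} (hf : Hom n f) (hg : Hom n g) : Hom n (f - g) :=
  fun M hM => by rw [sub_val, hf M hM, hg M hM, sub_zero]

omit [Finite K] in
theorem AdjB_eq {n : ℕ} {f g : HA K} (hf : Hom n f) (hg : Hom n g)
    (h : cf (Fin n → K) f = cf (Fin n → K) g) : f = g :=
  sub_eq_zero.1 (AdjB_inj (AdjB_sub hf hg) (by rw [map_sub, h, sub_self]))

omit [Finite K] in
theorem AdjB_zero {n m : ℕ} {f : HA K} (h : Hom n f) (hm : m ≠ n) : cf (Fin m → K) f = 0 :=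
  funext fun g => h (of g) fun e => hm ((finrank_fin_fun K).symm.trans e)

omit [Finite K] in
theorem AdjB_lift {n : ℕ} {χ : Gn K n → ℂ} (h : χ ∈ irr (Gn K n)) :
    ∃ f : HA K, Irr n f ∧ cf (Fin n → K) f = χ := by
  obtain ⟨f, h1, h2⟩ := exists_lift (irr_cl h)
  rw [finrank_fin_fun] at h1
  exact ⟨f, ⟨h1, h2 ▸ h⟩, h2⟩

theorem hn_self_eq_zero {n : ℕ} {f : HA K} (h : Hom n f) (h0 : hn n f f = 0) : f = 0 :=
  AdjB_inj h (hp_self_eq_zero h0)

theorem hn_self_nonneg (n : ℕ) (f : HA K) : ∃ r : ℝ, 0 ≤ r ∧ hn n f f = r := hp_self_nonneg _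

theorem hn_zero (f g : HA K) : hn 0 f g = eps f * star (eps g) := by
  have : Subsingleton (Gn K 0) := ⟨fun _ _ => Units.ext (Subsingleton.elim _ _)⟩
  rw [hn, hp, Nat.card_of_subsingleton (1 : Gn K 0), Fintype.sum_subsingleton _ 1, Nat.cast_one,
    inv_one, one_mul]
  rfl

theorem hn_pm (n : ℕ) {a a' : HA K} (h : ∀ M, a'.1 M = star (a.1 M)) (f g : HA K) :
    hn n (pm a f) g = hn n f (pm a' g) := by
  rw [hn, hn, hp, hp]
  congr 1
  refine Finset.sum_congr rfl fun x _ => ?_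
  simp only [cf_apply, pm_val, h, star_mul', star_star]
  ring

theorem irr_fin (K : Type) [Field K] [Finite K] (n : ℕ) : {f : HA K | Irr n f}.Finite :=
  Set.Finite.of_finite_image (f := cf (Fin n → K))
    ((irr_finite (Gn K n)).subset (by rintro _ ⟨f, hf, rfl⟩; exact hf.2))
    fun _ hf _ hg h => AdjB_eq hf.1 hg.1 h

/-- The irreducible characters of degree `n`. -/
noncomputable def irs (K : Type) [Field K] [Finite K] (n : ℕ) : Finset (HA K) :=
  (irr_fin K n).toFinset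

theorem mem_irs {n : ℕ} {f : HA K} : f ∈ irs K n ↔ Irr n f := (irr_fin K n).mem_toFinset

open scoped Classical in
theorem hn_irr {n : ℕ} {χ χ' : HA K} (h : Irr n χ) (h' : Irr n χ') :
    hn n χ χ' = if χ = χ' then 1 else 0 := by
  rw [hn, hp_irr h.2 h'.2]
  exact if_congr ⟨AdjB_eq h.1 h'.1, fun e => e ▸ rfl⟩ rfl rfl

theorem expand (n : ℕ) (f : HA K) : cmp n f = ∑ χ ∈ irs K n, hn n f χ • χ := by
  classical
  refine sub_eq_zero.1 (AdjB_inj (AdjB_sub (hom_cmp n f)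
    (Hom.sum fun χ hχ => (mem_irs.1 hχ).1.smul _)) (eq_zero_of_hp (cf_cl _) fun χ hχ => ?_))
  obtain ⟨η, hη, rfl⟩ := AdjB_lift hχ
  change hn n _ η = 0
  rw [hn_sub_left, hn_cmp_left, hn_sum_left, Finset.sum_eq_single η, hn_smul_left, hn_irr hη hη,
    if_pos rfl, mul_one, sub_self]
  · intro χ h1 h2
    rw [hn_smul_left, hn_irr (mem_irs.1 h1) hη, if_neg h2, mul_zero]
  · exact fun h => (h (mem_irs.2 hη)).elim

theorem parseval (n : ℕ) (f g : HA K) :
    hn n f g = ∑ χ ∈ irs K n, hn n f χ * star (hn n g χ) := by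
  rw [← hn_cmp_left, expand, hn_sum_left]
  exact Finset.sum_congr rfl fun χ _ => by rw [hn_smul_left, hn_star]

theorem isCh_iff {f : HA K} : IsCh f ↔ ∀ n χ, Irr n χ → ∃ k : ℕ, hn n f χ = k := by
  refine forall_congr' fun n => ⟨fun h χ hχ => (ch_iff.1 h).2 _ hχ.2,
    fun h => ch_iff.2 ⟨cf_cl f, fun χ hχ => ?_⟩⟩
  obtain ⟨η, hη, rfl⟩ := AdjB_lift hχ
  exact h η hη

theorem isV_iff {f : HA K} : IsV f ↔ ∀ n χ, Irr n χ → ∃ k : ℤ, hn n f χ = k := by
  refine forall_congr' fun n => ⟨fun h χ hχ => (virt_iff.1 h).2 _ hχ.2,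
    fun h => virt_iff.2 ⟨cf_cl f, fun χ hχ => ?_⟩⟩
  obtain ⟨η, hη, rfl⟩ := AdjB_lift hχ
  exact h η hη

theorem Irr.isCh {n : ℕ} {f : HA K} (h : Irr n f) : IsCh f := fun m => by
  rcases eq_or_ne m n with rfl | hm
  · exact AddSubmonoid.subset_closure h.2
  · rw [AdjB_zero h.1 hm]
    exact zero_mem _

omit [Finite K] in
theorem IsCh.isV {f : HA K} (h : IsCh f) : IsV f := fun n =>
  virt_sub.2 ⟨_, h n, 0, zero_mem _, (sub_zero _).symm⟩

theorem IsCh.hn {f g : HA K} (hf : IsCh f) (hg : IsCh g) (n : ℕ) : ∃ k : ℕ, hn n f g = k :=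
  hp_ch (hf n) (hg n)

theorem IsV.hn {f g : HA K} (hf : IsV f) (hg : IsV g) (n : ℕ) : ∃ k : ℤ, hn n f g = k :=
  hp_virt (hf n) (hg n)

theorem IsV.irr {n : ℕ} {f : HA K} (hf : IsV f) (h : Hom n f) (h1 : PD.hn n f f = 1) :
    Irr n f ∨ Irr n (-f) :=
  (irr_of_hp (hf n) h1).imp (fun k => ⟨h, k⟩) fun k =>
    ⟨fun M hM => by rw [neg_val, h M hM, neg_zero], by rwa [map_neg]⟩

theorem IsCh.sub {n : ℕ} {f χ : HA K} (hf : IsCh f) (hχ : Irr n χ) (h : PD.hn n f χ ≠ 0) :
    IsCh (f - χ) := fun m => by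
  rw [map_sub]
  rcases eq_or_ne m n with rfl | hm
  · exact sub_mem_ch (hf m) hχ.2 h
  · rw [AdjB_zero hχ.1 hm, sub_zero]
    exact hf m

omit [Finite K] in
theorem IsCh.add {f g : HA K} (hf : IsCh f) (hg : IsCh g) : IsCh (f + g) := fun n => by
  rw [map_add]
  exact add_mem (hf n) (hg n)

omit [Finite K] in
theorem IsV.add {f g : HA K} (hf : IsV f) (hg : IsV g) : IsV (f + g) := fun n => by
  rw [map_add]
  exact add_mem (hf n) (hg n)

omit [Finite K] in
theorem IsV.neg {f : HA K} (hf : IsV f) : IsV (-f) := fun n => by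
  rw [map_neg]
  exact neg_mem (hf n)

omit [Finite K] in
theorem IsV.sub {f g : HA K} (hf : IsV f) (hg : IsV g) : IsV (f - g) := fun n => by
  rw [map_sub]
  exact sub_mem (hf n) (hg n)

theorem IsV.sum {ι : Type*} {s : Finset ι} {f : ι → HA K} (hf : ∀ i ∈ s, IsV (f i)) :
    IsV (∑ i ∈ s, f i) := fun n => by
  rw [map_sum]
  exact sum_mem fun i hi => hf i hi n

omit [Finite K] in
theorem isV_cmp {f : HA K} : IsV f ↔ ∀ n, IsV (cmp n f) := by
  refine ⟨fun h n m => ?_, fun h n => ?_⟩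
  · rw [cf_cmp]
    split_ifs
    exacts [h m, zero_mem _]
  · have := h n n
    rwa [cf_cmp, if_pos (finrank_fin_fun K)] at this

omit [Finite K] in
theorem isCh_cmp {f : HA K} : IsCh f ↔ ∀ n, IsCh (cmp n f) := by
  refine ⟨fun h n m => ?_, fun h n => ?_⟩
  · rw [cf_cmp]
    split_ifs
    exacts [h m, zero_mem _]
  · have := h n n
    rwa [cf_cmp, if_pos (finrank_fin_fun K)] at this

theorem IsV.pm {a f : HA K} (ha : IsV a) (hf : IsV f) : IsV (pm a f) := fun n =>
  virt_mul (ha n) (hf n)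

theorem IsV.int {f : HA K} (hf : IsV f) (M : Ob K) : IsIntegral ℤ (f.1 M) := by
  obtain ⟨g, hg⟩ := exists_of M (V := Fin M.dim → K) (finrank_fin_fun K)
  rw [f.iso hg]
  exact virt_int (hf _) g

theorem isCh_one : IsCh (1 : HA K) := fun n => by
  rcases eq_or_ne n 0 with rfl | hn
  · have : cf (Fin 0 → K) (1 : HA K) = fun _ => 1 := funext fun g => if_pos (finrank_fin_fun K)
    rw [this]
    exact AddSubmonoid.subset_closure one_mem_irr
  · rw [AdjB_zero hom_one hn]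
    exact zero_mem _

/-! ### Task PD Adj -/

omit [Finite K] in
theorem AdjA_sub {M M₁ : Ob K} (N : M.Inv) (i : M₁.V →ₗ[K] M.V) (hi : Function.Injective i)
    (hr : LinearMap.range i = N.1) (hc : ∀ v, i (M₁.φ v) = M.φ (i v)) : Iso M₁ (M.sub N) :=
  ⟨(LinearEquiv.ofInjective i hi).trans (LinearEquiv.ofEq _ _ hr), fun v => Subtype.ext (hc v)⟩

omit [Finite K] in
theorem AdjA_quo {M M₂ : Ob K} (N : M.Inv) (π : M.V →ₗ[K] M₂.V) (hπ : Function.Surjective π)
    (hk : N.1 = LinearMap.ker π) (hc : ∀ v, π (M.φ v) = M₂.φ (π v)) : Iso (M.quo N) M₂ := by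
  refine ⟨(Submodule.quotEquivOfEq _ _ hk).trans (π.quotKerEquivOfSurjective hπ), fun v => ?_⟩
  obtain ⟨v, rfl⟩ := N.1.mkQ_surjective v
  exact hc v

theorem AdjA_count {G X : Type} [Fintype G] [Fintype X] [DecidableEq X] (φ : G → X) (T : X → ℂ)
    (c : ℕ) (h : ∀ N, T N ≠ 0 → (Finset.univ.filter fun g => φ g = N).card = c) :
    ∑ g, T (φ g) = c * ∑ N, T N := by
  rw [← Finset.sum_fiberwise Finset.univ φ, Finset.mul_sum]
  refine Finset.sum_congr rfl fun N _ => ?_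
  rw [Finset.sum_congr rfl fun g hg => congrArg T (Finset.mem_filter.1 hg).2, Finset.sum_const,
    nsmul_eq_mul]
  by_cases h0 : T N = 0
  · rw [h0, mul_zero, mul_zero]
  · rw [h N h0]

section

variable {V : Type} [AddCommGroup V] [Module K V] [FiniteDimensional K V]

open scoped Classical in
/-- The term of an element and a subspace. -/
noncomputable def AdjA_T (f x y : HA K) (g : (End K V)ˣ) (N : Submodule K V) : ℂ :=
  if h : ∀ v ∈ N, g.1 v ∈ N then
    f.1 (of g) * star (x.1 ((of g).sub ⟨N, h⟩) * y.1 ((of g).quo ⟨N, h⟩))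
  else 0

theorem AdjA_sum [Fintype (Submodule K V)] (f x y : HA K) (g : (End K V)ˣ) :
    f.1 (of g) * star ((x * y).1 (of g)) = ∑ N, AdjA_T f x y g N := by
  classical
  rw [mul_val, star_sum, Finset.mul_sum]
  refine Fintype.sum_of_injective (κ := Submodule K V) (fun N : (of g).Inv => N.1)
    Subtype.val_injective _ _ (fun N hN => dif_neg fun h => hN ⟨⟨N, h⟩, rfl⟩) fun N => ?_
  unfold AdjA_T
  split_ifs with h
  · rfl
  · exact absurd N.2 h

omit [Finite K] [FiniteDimensional K V] in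
theorem AdjA_inv (h : (End K V)ˣ) (v : V) : h⁻¹.1 (h.1 v) = v :=
  congrArg (fun φ : End K V => φ v) h.inv_mul

omit [Finite K] in
theorem AdjA_conj (f x y : HA K) (g h : (End K V)ˣ) (N : Submodule K V) :
    AdjA_T f x y (h * g * h⁻¹) (N.map h.1) = AdjA_T f x y g N := by
  have hi : Function.Injective h.1 := (of h).inj
  have hc (v : V) : (h * g * h⁻¹).1 (h.1 v) = h.1 (g.1 v) := by
    change h.1 (g.1 (h⁻¹.1 (h.1 v))) = _
    rw [AdjA_inv]
  by_cases hN : ∀ v ∈ N, g.1 v ∈ N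
  · have hN' : ∀ v ∈ N.map h.1, (h * g * h⁻¹).1 v ∈ N.map h.1 := by
      rintro _ ⟨v, hv, rfl⟩
      exact ⟨_, hN v hv, (hc v).symm⟩
    have hs : Function.Surjective ((N.map h.1).mkQ ∘ₗ h.1) :=
      (N.map h.1).mkQ_surjective.comp (LinearMap.injective_iff_surjective.1 hi)
    have hk : N = LinearMap.ker ((N.map h.1).mkQ ∘ₗ h.1) := by
      rw [LinearMap.ker_comp, Submodule.ker_mkQ, Submodule.comap_map_eq_of_injective hi]
    rw [AdjA_T, AdjA_T, dif_pos hN, dif_pos hN', f.iso (iso_of_conj g h),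
      x.iso (AdjA_sub (M := of (h * g * h⁻¹)) (M₁ := (of g).sub ⟨N, hN⟩) ⟨_, hN'⟩
        (h.1 ∘ₗ N.subtype) (hi.comp N.injective_subtype)
        ((LinearMap.range_comp _ _).trans (congrArg _ N.range_subtype)) fun v => (hc v.1).symm),
      y.iso (AdjA_quo (M := of g) (M₂ := (of (h * g * h⁻¹)).quo ⟨_, hN'⟩) ⟨N, hN⟩
        ((N.map h.1).mkQ ∘ₗ h.1) hs hk fun v => congrArg (N.map h.1).mkQ (hc v).symm)]
  · rw [AdjA_T, AdjA_T, dif_neg hN, dif_neg]
    intro h1
    refine hN fun v hv => ?_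
    obtain ⟨w, hw, h2⟩ := h1 _ ⟨v, hv, rfl⟩
    rw [hc] at h2
    exact hi h2 ▸ hw

omit [Finite K] in
theorem AdjA_trans {N N' : Submodule K V} (h : finrank K N = finrank K N') :
    ∃ g : (End K V)ˣ, N.map g.1 = N' := by
  obtain ⟨e, he⟩ := Submodule.exists_linearEquiv_restrict_eq (LinearEquiv.ofFinrankEq N N' h)
  refine ⟨LinearMap.GeneralLinearGroup.ofLinearEquiv e,
    Submodule.eq_of_le_of_finrank_eq ?_ ((e.finrank_map_eq N).trans h)⟩
  rintro _ ⟨v, hv, rfl⟩
  exact (he ⟨v, hv⟩ ▸ Subtype.prop _ : e v ∈ N')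

end

section

variable {V₁ V₂ : Type} [AddCommGroup V₁] [Module K V₁] [FiniteDimensional K V₁] [AddCommGroup V₂]
  [Module K V₂] [FiniteDimensional K V₂]

omit [Finite K] [FiniteDimensional K V₁] [FiniteDimensional K V₂] in
theorem AdjA_emb (p : Blk (MonoidHom.id (End K V₁)ˣ) (MonoidHom.id (End K V₂)ˣ)) (v : V₁ × V₂) :
    (Blk.emb p).1 v = (p.u₁.1 v.1 + p.B v.2, p.u₂.1 v.2) := rfl

omit [Finite K] [FiniteDimensional K V₁] [FiniteDimensional K V₂] in
theorem AdjA_inj : Function.Injective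
    (Blk.emb : Blk (MonoidHom.id (End K V₁)ˣ) (MonoidHom.id (End K V₂)ˣ) → _) := by
  intro p q h
  have h1 (v : V₁ × V₂) : (p.u₁.1 v.1 + p.B v.2, p.u₂.1 v.2) =
      (q.u₁.1 v.1 + q.B v.2, q.u₂.1 v.2) := by rw [← AdjA_emb, h, AdjA_emb]
  refine Blk.ext (Units.ext (LinearMap.ext fun v => ?_)) (Units.ext (LinearMap.ext fun v => ?_))
    (LinearMap.ext fun v => ?_)
  · simpa using congrArg Prod.fst (h1 (v, 0))
  · exact congrArg Prod.snd (h1 (0, v))
  · simpa using congrArg Prod.fst (h1 (0, v))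

omit [Finite K] [FiniteDimensional K V₁] [FiniteDimensional K V₂] in
theorem AdjA_pres (p : Blk (MonoidHom.id (End K V₁)ˣ) (MonoidHom.id (End K V₂)ˣ)) :
    ∀ v ∈ LinearMap.ker (LinearMap.snd K V₁ V₂),
      (Blk.emb p).1 v ∈ LinearMap.ker (LinearMap.snd K V₁ V₂) := by
  intro v hv
  change p.u₂.1 v.2 = 0
  rw [show v.2 = 0 from hv, map_zero]

omit [Finite K] in
theorem AdjA_range {g : (End K (V₁ × V₂))ˣ} (h : ∀ v ∈ LinearMap.ker (LinearMap.snd K V₁ V₂),
    g.1 v ∈ LinearMap.ker (LinearMap.snd K V₁ V₂)) :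
    ∃ p : Blk (MonoidHom.id (End K V₁)ˣ) (MonoidHom.id (End K V₂)ˣ), Blk.emb p = g := by
  have hi : Function.Injective g.1 := (of g).inj
  have h0 (v : V₁) : (g.1 (v, 0)).2 = 0 := h (v, 0) rfl
  have h1 (v : V₁ × V₂) : g.1 v = g.1 (v.1, 0) + g.1 (0, v.2) := by
    rw [← map_add, Prod.mk_add_mk, add_zero, zero_add]
  have u₁ : IsUnit (LinearMap.fst K V₁ V₂ ∘ₗ g.1 ∘ₗ LinearMap.inl K V₁ V₂) := by
    rw [LinearMap.isUnit_iff_ker_eq_bot, LinearMap.ker_eq_bot']
    intro v hv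
    exact congrArg Prod.fst (hi ((Prod.ext hv (h0 v)).trans (map_zero g.1).symm))
  have u₂ : IsUnit (LinearMap.snd K V₁ V₂ ∘ₗ g.1 ∘ₗ LinearMap.inr K V₁ V₂) := by
    rw [LinearMap.isUnit_iff_range_eq_top, LinearMap.range_eq_top]
    intro w
    obtain ⟨v, hv⟩ := LinearMap.injective_iff_surjective.1 hi (0, w)
    refine ⟨v.2, ?_⟩
    have h2 := congrArg Prod.snd (h1 v)
    rw [hv, Prod.snd_add, h0, zero_add] at h2
    exact h2.symm
  refine ⟨⟨u₁.unit, u₂.unit, LinearMap.fst K V₁ V₂ ∘ₗ g.1 ∘ₗ LinearMap.inr K V₁ V₂⟩,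
    Units.ext (LinearMap.ext fun v => ?_)⟩
  rw [h1 v]
  refine Prod.ext rfl ?_
  rw [Prod.snd_add, h0, zero_add]
  rfl

omit [Finite K] in
theorem AdjA_T_emb (f x y : HA K)
    (p : Blk (MonoidHom.id (End K V₁)ˣ) (MonoidHom.id (End K V₂)ˣ)) :
    AdjA_T f x y (Blk.emb p) (LinearMap.ker (LinearMap.snd K V₁ V₂)) =
      f.1 (of (Blk.emb p)) * star (x.1 (of p.u₁) * y.1 (of p.u₂)) := by
  have hi : Function.Injective (LinearMap.inl K V₁ V₂) := LinearMap.inl_injective
  have hs : Function.Surjective (LinearMap.snd K V₁ V₂) := LinearMap.snd_surjective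
  have hc (v : V₁) : ((p.u₁.1 v, 0) : V₁ × V₂) = (p.u₁.1 v + p.B 0, p.u₂.1 0) := by
    rw [map_zero, map_zero, add_zero]
  rw [AdjA_T, dif_pos (AdjA_pres p),
    x.iso (AdjA_sub (M := of (Blk.emb p)) (M₁ := of p.u₁) ⟨_, AdjA_pres p⟩ (LinearMap.inl K V₁ V₂)
      hi (LinearMap.range_inl K V₁ V₂) hc),
    y.iso (AdjA_quo (M := of (Blk.emb p)) (M₂ := of p.u₂) ⟨_, AdjA_pres p⟩ (LinearMap.snd K V₁ V₂)
      hs rfl fun _ => rfl)]

/-- The scalar product with a product, as an average over the block triangular group. -/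
theorem AdjA_main [Fintype (Blk (MonoidHom.id (End K V₁)ˣ) (MonoidHom.id (End K V₂)ˣ))]
    (f : HA K) {x : HA K} (hx : Hom (finrank K V₁) x) (y : HA K) :
    hp (cf (V₁ × V₂) f) (cf (V₁ × V₂) (x * y)) =
      (Nat.card (Blk (MonoidHom.id (End K V₁)ˣ) (MonoidHom.id (End K V₂)ˣ)) : ℂ)⁻¹ *
        ∑ p : Blk (MonoidHom.id (End K V₁)ˣ) (MonoidHom.id (End K V₂)ˣ),
          f.1 (of (Blk.emb p)) * star (x.1 (of p.u₁) * y.1 (of p.u₂)) := by
  classical
  have _ : Finite (V₁ × V₂) := Module.finite_of_finite K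
  have _ : Finite (Submodule K (V₁ × V₂)) :=
    Finite.of_injective (fun N : Submodule K (V₁ × V₂) => (N : Set (V₁ × V₂))) SetLike.coe_injective
  have _ := Fintype.ofFinite (Submodule K (V₁ × V₂))
  set N₀ := LinearMap.ker (LinearMap.snd K V₁ V₂) with hN₀
  have hd : finrank K N₀ = finrank K V₁ := by
    rw [hN₀, ← LinearMap.range_inl]
    exact LinearMap.finrank_range_of_inj LinearMap.inl_injective
  have hst (p : Blk (MonoidHom.id (End K V₁)ˣ) (MonoidHom.id (End K V₂)ˣ)) :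
      N₀.map (Blk.emb p).1 = N₀ := by
    refine le_antisymm ?_ fun v hv => ⟨_, AdjA_pres p⁻¹ v hv, ?_⟩
    · rintro _ ⟨v, hv, rfl⟩
      exact AdjA_pres p v hv
    · have := AdjA_inv (Blk.emb p)⁻¹ v
      rwa [inv_inv, ← map_inv] at this
  have h1 (g : (End K (V₁ × V₂))ˣ) : ∑ h : (End K (V₁ × V₂))ˣ, AdjA_T f x y g (N₀.map h.1) =
      Nat.card (Blk (MonoidHom.id (End K V₁)ˣ) (MonoidHom.id (End K V₂)ˣ)) *
        ∑ N, AdjA_T f x y g N := by
    refine AdjA_count (fun h : (End K (V₁ × V₂))ˣ => N₀.map h.1) _ _ fun N hN => ?_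
    have h2 : finrank K N = finrank K V₁ := by
      by_contra h3
      refine hN ?_
      unfold AdjA_T
      split_ifs with h4
      · rw [hx ((of g).sub ⟨N, h4⟩) h3, zero_mul, star_zero, mul_zero]
      · rfl
    obtain ⟨h₀, rfl⟩ := AdjA_trans (hd.trans h2.symm)
    rw [Nat.card_eq_fintype_card, ← Finset.card_univ, ← Finset.card_image_of_injective _
      ((mul_right_injective h₀).comp AdjA_inj)]
    congr 1
    ext h
    simp only [Finset.mem_filter, Finset.mem_univ, true_and, Finset.mem_image, Function.comp_apply]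
    constructor
    · intro h3
      obtain ⟨p, hp⟩ := AdjA_range (g := h₀⁻¹ * h) fun v hv => by
        obtain ⟨w, hw, h4⟩ : h.1 v ∈ N₀.map h₀.1 := h3 ▸ ⟨v, hv, rfl⟩
        change h₀⁻¹.1 (h.1 v) ∈ N₀
        rw [← h4, AdjA_inv]
        exact hw
      exact ⟨p, by rw [hp, mul_inv_cancel_left]⟩
    · rintro ⟨p, rfl⟩
      rw [Units.val_mul, Module.End.mul_eq_comp, Submodule.map_comp, hst]
  have h2 (h : (End K (V₁ × V₂))ˣ) : ∑ g, AdjA_T f x y g (N₀.map h.1) =
      ∑ p : Blk (MonoidHom.id (End K V₁)ˣ) (MonoidHom.id (End K V₂)ˣ),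
        f.1 (of (Blk.emb p)) * star (x.1 (of p.u₁) * y.1 (of p.u₂)) := by
    refine Eq.trans ?_ (Fintype.sum_of_injective _ AdjA_inj _ (fun g => AdjA_T f x y g N₀)
      (fun g hg => ?_) fun p => (AdjA_T_emb f x y p).symm).symm
    · exact (Fintype.sum_equiv (MulAut.conj h).toEquiv _ _
        fun g => (AdjA_conj f x y g h N₀).symm).symm
    · rw [AdjA_T, dif_neg fun h3 => hg (AdjA_range h3)]
  have h3 := Finset.sum_comm (s := Finset.univ) (t := Finset.univ)
    (f := fun g h : (End K (V₁ × V₂))ˣ => AdjA_T f x y g (N₀.map h.1))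
  simp only [h1, h2, ← Finset.mul_sum, Finset.sum_const, nsmul_eq_mul, Finset.card_univ,
    ← Nat.card_eq_fintype_card] at h3
  have h4 : (Nat.card (End K (V₁ × V₂))ˣ : ℂ) ≠ 0 := Nat.cast_ne_zero.2 Nat.card_pos.ne'
  have h5 : (Nat.card (Blk (MonoidHom.id (End K V₁)ˣ) (MonoidHom.id (End K V₂)ˣ)) : ℂ) ≠ 0 :=
    Nat.cast_ne_zero.2 Nat.card_pos.ne'
  simp only [hp, cf_apply, AdjA_sum]
  rw [inv_mul_eq_iff_eq_mul₀ h4, mul_left_comm, ← h3, inv_mul_cancel_left₀ h5]

theorem AdjA_hp (f : HA K) {x : HA K} (hx : Hom (finrank K V₁) x) (y : HA K) :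
    hp (cf (V₁ × V₂) f) (cf (V₁ × V₂) (x * y)) =
      hp (fun u₂ : (End K V₂)ˣ => hp (cf V₁ (dr (of u₂) f)) (cf V₁ x)) (cf V₂ y) := by
  have _ : Finite (V₂ →ₗ[K] V₁) := Module.finite_of_finite K
  have _ := Fintype.ofFinite (V₂ →ₗ[K] V₁)
  have _ := Fintype.ofEquiv _
    (Blk.equiv (ι₁ := MonoidHom.id (End K V₁)ˣ) (ι₂ := MonoidHom.id (End K V₂)ˣ)).symm
  have h1 (u₁ : (End K V₁)ˣ) (u₂ : (End K V₂)ˣ) : del0 f (of u₁) (of u₂) =
      (Nat.card (V₂ →ₗ[K] V₁) : ℂ)⁻¹ * ∑ B : V₂ →ₗ[K] V₁, f.1 (ext (of u₁) (of u₂) B) := by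
    unfold del0
    exact congrArg _ (Finset.sum_congr (Finset.ext fun _ =>
      ⟨fun _ => @Finset.mem_univ _ (_) _, fun _ => @Finset.mem_univ _ (_) _⟩) fun _ _ => rfl)
  rw [AdjA_main f hx y, Nat.card_congr Blk.equiv, Fintype.sum_equiv Blk.equiv _
    (fun q => f.1 (ext (of q.1) (of q.2.1) q.2.2) * star (x.1 (of q.1) * y.1 (of q.2.1)))
    fun p => by rw [f.iso (Blk.of_emb p)]; rfl]
  simp only [hp, cf_apply, dr_val, h1, Nat.card_prod, Fintype.sum_prod_type, Finset.mul_sum,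
    Finset.sum_mul, star_mul']
  rw [Finset.sum_comm]
  refine Finset.sum_congr rfl fun _ _ => Finset.sum_congr rfl fun _ _ =>
    Finset.sum_congr rfl fun _ _ => ?_
  push_cast
  ring

end

theorem hn_mul {a b : ℕ} {x y : HA K} (hx : Hom a x) (hy : Hom b y) (f : HA K) :
    hn (a + b) f (x * y) = hn b (Dw (hnl a x) f) y := by
  have _ := hy
  rw [← hp_cf (V := (Fin a → K) × (Fin b → K)) (by simp), AdjA_hp f (by simpa using hx) y]
  rfl

/-! ### Task PD AdjC -/

theorem AdjC_del0 {V W : Type} [AddCommGroup V] [Module K V] [FiniteDimensional K V]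
    [AddCommGroup W] [Module K W] [FiniteDimensional K W] [Fintype (W →ₗ[K] V)] (f : HA K)
    (g₁ : (End K V)ˣ) (g₂ : (End K W)ˣ) : del0 f (of g₁) (of g₂) =
      (Nat.card (W →ₗ[K] V) : ℂ)⁻¹ * ∑ B : W →ₗ[K] V, f.1 (ext (of g₁) (of g₂) B) := by
  unfold del0
  exact congrArg _ (Finset.sum_congr (Finset.ext fun _ =>
    ⟨fun _ => @Finset.mem_univ _ (_) _, fun _ => @Finset.mem_univ _ (_) _⟩) fun _ _ => rfl)

theorem hn_mul_nat {a b : ℕ} {x y f : HA K} (hx : Hom a x) (hy : Hom b y) (hx' : IsCh x)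
    (hy' : IsCh y) (hf : IsCh f) : ∃ k : ℕ, hn (a + b) f (x * y) = k := by
  have : Finite ((Fin b → K) →ₗ[K] (Fin a → K)) := Module.finite_of_finite K
  let _ : Fintype ((Fin b → K) →ₗ[K] (Fin a → K)) := Fintype.ofFinite _
  let P := Blk (MonoidHom.id (Gn K a)) (MonoidHom.id (Gn K b))
  let _ : Fintype P := Fintype.ofEquiv _ Blk.equiv.symm
  obtain ⟨k, hk⟩ := hp_ch (G := P) (Ch.comp (hf.cf (V := (Fin a → K) × (Fin b → K))) Blk.emb)
    (Ch.mul (Ch.comp (hx' a) Blk.pr₁) (Ch.comp (hy' b) Blk.pr₂))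
  refine ⟨k, ?_⟩
  rw [← hk, hn_mul hx hy, hn, hp, hp, ← Equiv.sum_comp Blk.equiv.symm, Fintype.sum_prod_type,
    Nat.card_congr (Blk.equiv (ι₁ := MonoidHom.id (Gn K a)) (ι₂ := MonoidHom.id (Gn K b))),
    Nat.card_prod, Nat.card_prod]
  simp only [cf_apply, Dw_val, hnl_apply, hn, hp, dr_val, AdjC_del0, Fintype.sum_prod_type,
    Finset.mul_sum, Finset.sum_mul, Nat.cast_mul, mul_inv, Pi.mul_apply, star_mul']
  rw [Finset.sum_comm]
  refine Finset.sum_congr rfl fun g₁ _ => Finset.sum_congr rfl fun g₂ _ =>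
    Finset.sum_congr rfl fun B _ => ?_
  rw [f.iso (Blk.of_emb _)]
  change _ = _ * (f.1 (ext (of g₁) (of g₂) B) * (star (x.1 (of g₁)) * star (y.1 (of g₂))))
  ring

theorem IsCh.mul {f g : HA K} (hf : IsCh f) (hg : IsCh g) : IsCh (f * g) := by
  refine isCh_iff.2 fun n χ hχ => ?_
  have : ∀ x ∈ ad n, ∃ k : ℕ, PD.hn n χ (cmp x.1 f * cmp x.2 g) = k := fun x hx => by
    obtain rfl := Finset.HasAntidiagonal.mem_antidiagonal.1 hx
    exact hn_mul_nat (hom_cmp _ _) (hom_cmp _ _) (isCh_cmp.1 hf _) (isCh_cmp.1 hg _) hχ.isCh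
  choose! k hk using this
  refine ⟨∑ x ∈ ad n, k x, ?_⟩
  rw [← hn_star, ← hn_cmp_right, cmp_mul, hn_sum_right, Finset.sum_congr rfl hk, ← Nat.cast_sum,
    star_natCast]

theorem IsCh.pow {f : HA K} (hf : IsCh f) (m : ℕ) : IsCh (f ^ m) := by
  induction m with
  | zero => rw [pow_zero]; exact isCh_one
  | succ m ih => rw [pow_succ]; exact ih.mul hf

theorem AdjC_smul {f : HA K} (hf : IsV f) {c : ℂ} (hc : ∃ k : ℤ, c = k) : IsV (c • f) := by
  obtain ⟨k, rfl⟩ := hc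
  refine isV_iff.2 fun n χ hχ => ?_
  obtain ⟨l, hl⟩ := isV_iff.1 hf n χ hχ
  exact ⟨k * l, by rw [hn_smul_left, hl, Int.cast_mul]⟩

theorem IsV.mul {f g : HA K} (hf : IsV f) (hg : IsV g) : IsV (f * g) := by
  refine isV_cmp.2 fun n => ?_
  rw [cmp_mul]
  refine IsV.sum fun x _ => ?_
  rw [expand, expand, Finset.sum_mul_sum]
  refine IsV.sum fun χ hχ => IsV.sum fun χ' hχ' => ?_
  rw [smul_mul_assoc, mul_smul_comm]
  exact AdjC_smul (AdjC_smul ((mem_irs.1 hχ).isCh.mul (mem_irs.1 hχ').isCh).isV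
    (isV_iff.1 hg _ _ (mem_irs.1 hχ'))) (isV_iff.1 hf _ _ (mem_irs.1 hχ))

theorem IsV.inv {f g : HA K} (hf : IsV f) (h1 : eps f = 1) (h : f * g = 1) : IsV g := by
  have h0 : cmp 0 f = 1 := by
    rw [(hom_cmp 0 f).eq_cst, eps, cmp_val, if_pos dim_zero, ← eps, h1, map_one]
  refine isV_cmp.2 fun n => ?_
  induction n using Nat.strong_induction_on with
  | _ n ih =>
    have e := cmp_mul n f g
    rw [h, ← Finset.add_sum_erase _ _ (Finset.HasAntidiagonal.mem_antidiagonal.2 (zero_add n) : (0, n) ∈ ad n), h0,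
      one_mul] at e
    rw [← sub_eq_iff_eq_add.2 e]
    refine (isV_cmp.1 isCh_one.isV n).sub (IsV.sum fun x hx => (isV_cmp.1 hf _).mul (ih _ ?_))
    obtain ⟨h2, h3⟩ := Finset.mem_erase.1 hx
    have h4 := Finset.HasAntidiagonal.mem_antidiagonal.1 h3
    by_contra c
    exact h2 (Prod.ext (by omega) (by omega))

theorem AdjC_val (f : HA K) (M : Ob K) : f.1 M = ∑ χ ∈ irs K M.dim, hn M.dim f χ * χ.1 M := by
  have := congrArg (fun g : HA K => g.1 M) (expand M.dim f)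
  simpa only [cmp_val, if_true, sum_val, smul_val, smul_eq_mul] using this

theorem del0_expand (f : HA K) (M₁ M₂ : Ob K) : del0 f M₁ M₂ =
    ∑ χ₁ ∈ irs K M₁.dim, ∑ χ₂ ∈ irs K M₂.dim,
      hn (M₁.dim + M₂.dim) f (χ₁ * χ₂) * (χ₁.1 M₁ * χ₂.1 M₂) := by
  rw [← dr_val, AdjC_val]
  refine Finset.sum_congr rfl fun χ₁ h₁ => ?_
  rw [← hnl_apply, ← Dw_val, AdjC_val, Finset.sum_mul]
  refine Finset.sum_congr rfl fun χ₂ h₂ => ?_
  rw [hn_mul (mem_irs.1 h₁).1 (mem_irs.1 h₂).1]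
  ring

theorem hn_mul_pos {a b : ℕ} {S S' χ χ' η : HA K} (hS : IsCh S) (hS' : IsCh S') (hχ : Irr a χ)
    (hχ' : Irr b χ') (hη : IsCh η) (h : hn a S χ ≠ 0) (h' : hn b S' χ' ≠ 0)
    (h'' : hn (a + b) (χ * χ') η ≠ 0) : hn (a + b) (S * S') η ≠ 0 := by
  obtain ⟨k, hk⟩ := (hχ.isCh.mul hχ'.isCh).hn hη (a + b)
  obtain ⟨l, hl⟩ := ((hχ.isCh.mul (hS'.sub hχ' h')).add ((hS.sub hχ h).mul hS')).hn hη (a + b)
  have e : S * S' = χ * χ' + (χ * (S' - χ') + (S - χ) * S') := by noncomm_ring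
  rw [hk, Nat.cast_ne_zero] at h''
  rw [e, hn_add_left, hk, hl, ← Nat.cast_add, Nat.cast_ne_zero]
  omega

theorem sup_orth {n a : ℕ} {S S' χ η : HA K} (hS : IsCh S) (hS' : IsCh S') (hχ : Irr n χ)
    (hη : Irr a η) (h : hn n S χ ≠ 0) (h' : hn a S' η ≠ 0) (h0 : ∀ y, hn n S (S' * y) = 0)
    (y : HA K) : hn n χ (η * y) = 0 := by
  have key : ∀ z, IsCh z → hn n χ (η * z) = 0 := fun z hz => by
    obtain ⟨k, hk⟩ := hχ.isCh.hn (hη.isCh.mul hz) n
    obtain ⟨l, hl⟩ := hχ.isCh.hn ((hS'.sub hη h').mul hz) n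
    obtain ⟨m, hm⟩ := (hS.sub hχ h).hn (hS'.mul hz) n
    have e := h0 z
    rw [← add_sub_cancel χ S, hn_add_left, hm, show S' * z = η * z + (S' - η) * z by noncomm_ring,
      hn_add_right, hk, hl, ← Nat.cast_add, ← Nat.cast_add, Nat.cast_eq_zero] at e
    rw [hk, Nat.cast_eq_zero]
    omega
  rw [← hn_cmp_right, cmp_mul, hn_sum_right]
  refine Finset.sum_eq_zero fun x _ => ?_
  rw [expand x.2, Finset.mul_sum, hn_sum_right]
  refine Finset.sum_eq_zero fun z hz => ?_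
  rw [mul_smul_comm, hn_smul_right]
  by_cases c : x.1 = a
  · rw [c, hη.1.cmp_eq, key z (mem_irs.1 hz).isCh, mul_zero]
  · rw [hη.1.cmp_ne c, zero_mul, ← zero_smul ℂ (0 : HA K), hn_smul_right, star_zero, zero_mul,
      mul_zero]

end PD
end

-- merged part: Pool.Agent.Work.MP_cea1f0_al.D.Prim
section
/-!
# Primitive elements generate, commutativity  (tasks PD PrimA, PD PrimB)

* `Prim.orth`: `hn_mul`, `Pr.Dw`; in the wrong degree both sides vanish.
* `prim_of_orth`: `del0_expand`.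
* `orth_compl`: the map `f ↦ (hn n f χ)_χ` to `EuclideanSpace ℂ (irs K n)` is onto, injective on the homogeneous
  elements (`expand`) and preserves scalar products (`parseval`); `Submodule.orthogonal_eq_bot_iff`.
* `hom_mem_adjoin`: strong induction; a homogeneous element orthogonal to the subalgebra is primitive, hence in the
  subalgebra, hence zero.
* `prim_comm`: the commutator is primitive (`Pr.comm`) and orthogonal to itself (`Prim.orth`).
* `orth_ideal`: `hn_mul`; the derivation `Dw (hnl a x)` kills the generators (`Pr.Dw`).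
-/

namespace PD

open Ob CF

variable {K : Type} [Field K] [Finite K]

/-! ### Task PD PrimA -/

theorem Prim.orth {n a b : ℕ} {y x z : HA K} (hy : Prim n y) (hx : Hom a x) (hz : Hom b z)
    (ha : 0 < a) (hb : 0 < b) (m : ℕ) : hn m y (x * z) = 0 := by
  rcases eq_or_ne (a + b) m with rfl | hm
  · rw [hn_mul hx hz, hy.pr.Dw, hnl_apply, hnl_apply, hn_hom_left hom_one ha.ne, zero_smul,
      add_zero, hn_smul_left, hn_hom_left hom_one hb.ne, mul_zero]
  · exact hn_hom_right (hx.mul hz) hm y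

theorem prim_of_orth {n : ℕ} {y : HA K} (h0 : 0 < n) (hy : Hom n y)
    (h : ∀ a b x z, 0 < a → 0 < b → a + b = n → Hom a x → Hom b z → hn n y (x * z) = 0) :
    Prim n y := by
  refine ⟨h0, hy, fun M₁ M₂ h₁ h₂ => ?_⟩
  rw [del0_expand]
  refine Finset.sum_eq_zero fun χ₁ k₁ => Finset.sum_eq_zero fun χ₂ k₂ => ?_
  rcases eq_or_ne n (M₁.dim + M₂.dim) with e | e
  · rw [← e, h _ _ _ _ (Nat.pos_of_ne_zero h₁) (Nat.pos_of_ne_zero h₂) e.symm (mem_irs.1 k₁).1
      (mem_irs.1 k₂).1, zero_mul]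
  · rw [hn_hom_left hy e, zero_mul]

/-- The multiplicities of the irreducible characters. -/
noncomputable def PrA_T (n : ℕ) : HA K →ₗ[ℂ] EuclideanSpace ℂ (irs K n) where
  toFun f := WithLp.toLp 2 fun χ => hn n f χ
  map_add' f g := by
    ext χ
    exact hn_add_left n f g χ
  map_smul' c f := by
    ext χ
    exact hn_smul_left n c f χ

theorem PrA_T_apply (n : ℕ) (f : HA K) (χ : irs K n) : PrA_T n f χ = hn n f χ := rfl

theorem PrA_surj (n : ℕ) (v : EuclideanSpace ℂ (irs K n)) : ∃ y, Hom n y ∧ PrA_T n y = v := by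
  classical
  refine ⟨∑ χ, v χ • χ.1, Hom.sum fun χ _ => (mem_irs.1 χ.2).1.smul _, ?_⟩
  ext η
  rw [PrA_T_apply, hn_sum_left, Finset.sum_eq_single η, hn_smul_left, hn_irr (mem_irs.1 η.2) (mem_irs.1 η.2),
    if_pos rfl, mul_one]
  · intro χ _ h2
    rw [hn_smul_left, hn_irr (mem_irs.1 χ.2) (mem_irs.1 η.2), if_neg fun e => h2 (Subtype.ext e),
      mul_zero]
  · exact fun h => (h (Finset.mem_univ _)).elim

theorem orth_compl {n : ℕ} (W : Submodule ℂ (HA K)) (hW : ∀ w ∈ W, cmp n w ∈ W)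
    (h : ∀ y, Hom n y → (∀ w ∈ W, hn n y w = 0) → y = 0) {f : HA K} (hf : Hom n f) : f ∈ W := by
  have h1 : (W.map (PrA_T n))ᗮ = ⊥ := by
    refine (Submodule.eq_bot_iff _).2 fun v hv => ?_
    obtain ⟨y, hy, rfl⟩ := PrA_surj n v
    rw [h y hy fun w hw => ?_, map_zero]
    have h2 := hv _ (Submodule.mem_map_of_mem hw)
    rw [PiLp.inner_apply] at h2
    rw [parseval, ← Finset.sum_coe_sort, ← h2]
    rfl
  obtain ⟨w, hw, e⟩ : PrA_T n f ∈ W.map (PrA_T n) := by
    rw [Submodule.orthogonal_eq_bot_iff.1 h1]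
    trivial
  have h3 : cmp n f = cmp n w := by
    rw [expand, expand]
    refine Finset.sum_congr rfl fun χ hχ => ?_
    have h4 : hn n w χ = hn n f χ := congrArg (fun v => v ⟨χ, hχ⟩) e
    rw [h4]
  rw [← hf.cmp_eq, h3]
  exact hW w hw

theorem cmp_adjoin {ι : Type*} {x : ι → HA K} {d : ι → ℕ} (hx : ∀ i, Hom (d i) (x i)) {f : HA K}
    (hf : f ∈ Algebra.adjoin ℂ (Set.range x)) (n : ℕ) :
    cmp n f ∈ Submodule.span ℂ {y | ∃ l : List ι, (l.map d).sum = n ∧ y = (l.map x).prod} := by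
  induction hf using Algebra.adjoin_induction generalizing n with
  | mem y hy =>
    obtain ⟨i, rfl⟩ := hy
    rcases eq_or_ne n (d i) with rfl | e
    · rw [(hx i).cmp_eq]
      exact Submodule.subset_span ⟨[i], by simp, by simp⟩
    · rw [(hx i).cmp_ne e]
      exact zero_mem _
  | algebraMap r =>
    rw [Algebra.algebraMap_eq_smul_one, map_smul]
    refine Submodule.smul_mem _ _ ?_
    rcases eq_or_ne n 0 with rfl | e
    · rw [hom_one.cmp_eq]
      exact Submodule.subset_span ⟨[], rfl, rfl⟩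
    · rw [hom_one.cmp_ne e]
      exact zero_mem _
  | add y z _ _ hy hz =>
    rw [map_add]
    exact add_mem (hy n) (hz n)
  | mul y z _ _ hy hz =>
    rw [cmp_mul]
    refine sum_mem fun p hp => ?_
    have h1 := Submodule.mul_mem_mul (hy p.1) (hz p.2)
    rw [Submodule.span_mul_span] at h1
    refine Submodule.span_mono ?_ h1
    rintro _ ⟨_, ⟨l, k, rfl⟩, _, ⟨l', k', rfl⟩, rfl⟩
    exact ⟨l ++ l', by simp [k, k', Finset.HasAntidiagonal.mem_antidiagonal.1 hp], by simp⟩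

theorem cmp_mem_adjoin {S : Set (HA K)} (hS : ∀ x ∈ S, ∃ d, Hom d x) {f : HA K}
    (hf : f ∈ Algebra.adjoin ℂ S) (n : ℕ) : cmp n f ∈ Algebra.adjoin ℂ S := by
  choose! d hd using hS
  have h1 := cmp_adjoin (x := fun y : S => y.1) (d := fun y => d y.1) (fun y => hd y.1 y.2)
    (by rwa [Subtype.range_coe]) n
  refine (Submodule.span_le (p := (Algebra.adjoin ℂ S).toSubmodule)).2 ?_ h1
  rintro _ ⟨l, -, rfl⟩
  refine list_prod_mem (S := Algebra.adjoin ℂ S) fun y hy => ?_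
  obtain ⟨z, -, rfl⟩ := List.mem_map.1 hy
  exact Algebra.subset_adjoin z.2

theorem hom_mem_adjoin {n : ℕ} {f : HA K} (hf : Hom n f) :
    f ∈ Algebra.adjoin ℂ {y : HA K | ∃ m, Prim m y} := by
  induction n using Nat.strong_induction_on generalizing f with
  | _ n ih =>
    rcases Nat.eq_zero_or_pos n with rfl | h0
    · rw [hf.eq_cst]
      exact ((cst : ℂ →ₐ[ℂ] HA K).commutes (eps f)).symm ▸ algebraMap_mem _ _
    · refine orth_compl (Algebra.adjoin ℂ {y : HA K | ∃ m, Prim m y}).toSubmodule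
        (fun w hw => cmp_mem_adjoin (fun x hx => hx.imp fun _ hm => hm.2.1) hw n) (fun y hy h => ?_) hf
      refine hn_self_eq_zero hy (h y (Algebra.subset_adjoin ⟨n, ?_⟩))
      exact prim_of_orth h0 hy fun a b x z ha hb e hx hz =>
        h _ (Subalgebra.mul_mem _ (ih a (by omega) hx) (ih b (by omega) hz))

theorem prim_comm {a b : ℕ} {x y : HA K} (hx : Prim a x) (hy : Prim b y) : x * y = y * x := by
  have h1 : Hom (a + b) (x * y - y * x) :=
    AdjB_sub (hx.2.1.mul hy.2.1) (add_comm b a ▸ hy.2.1.mul hx.2.1)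
  have h2 := (hx.pr.comm hy.pr).prim (Nat.add_pos_left hx.1 b)
  rw [h1.cmp_eq] at h2
  refine sub_eq_zero.1 (hn_self_eq_zero h1 ?_)
  rw [hn_sub_right, h2.orth hx.2.1 hy.2.1 hx.1 hy.1, h2.orth hy.2.1 hx.2.1 hy.1 hx.1, sub_self]

theorem mul_comm' (f g : HA K) : f * g = g * f := by
  refine ext_cmp fun n => ?_
  rw [cmp_mul, cmp_mul, ← Finset.Nat.sum_antidiagonal_swap]
  refine Finset.sum_congr rfl fun p _ => ?_
  refine Algebra.commute_of_mem_adjoin_of_forall_mem_commute (hom_mem_adjoin (hom_cmp _ g)) ?_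
  rintro y ⟨b, hy⟩
  refine (Algebra.commute_of_mem_adjoin_of_forall_mem_commute (hom_mem_adjoin (hom_cmp _ f)) ?_).symm
  rintro x ⟨a, hx⟩
  exact prim_comm hy hx

noncomputable instance : CommRing (HA K) :=
  { (inferInstance : Ring (HA K)) with mul_comm := mul_comm' }

/-! ### Task PD PrimB -/

theorem PrB_cmp0 (y : HA K) : cmp 0 y = eps y • (1 : HA K) := CF.ext fun M => by
  rw [cmp_val, smul_val, one_val]
  split_ifs with h
  · rw [smul_eq_mul, mul_one, y.iso (iso_zero h)]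
    rfl
  · exact (smul_zero _).symm

theorem PrB_zero_left (n : ℕ) (g : HA K) : hn n 0 g = 0 := map_zero (hnl n g)

theorem PrB_zero_right (n : ℕ) (f : HA K) : hn n f 0 = 0 := by
  rw [← hn_star, PrB_zero_left, star_zero]



theorem Prim.hnl_mul {a : ℕ} {x : HA K} (hx : Prim a x) (y z : HA K) :
    hn a (y * z) x = hn a y x * eps z + eps y * hn a z x := by
  have ha := hx.1
  rw [← hn_cmp_left, cmp_mul, hn_sum_left, Finset.sum_eq_add_of_mem (a, 0) (0, a)
    (Finset.HasAntidiagonal.mem_antidiagonal.2 (add_zero a))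
    (Finset.HasAntidiagonal.mem_antidiagonal.2 (zero_add a))
    (fun e => ha.ne' (congrArg Prod.fst e))]
  · rw [PrB_cmp0, PrB_cmp0, mul_smul_comm, smul_mul_assoc, mul_one, one_mul, hn_smul_left,
      hn_smul_left, hn_cmp_left, hn_cmp_left, mul_comm]
  · rintro ⟨i, j⟩ hij ⟨h1, h2⟩
    have e : i + j = a := Finset.HasAntidiagonal.mem_antidiagonal.1 hij
    have hi : 0 < i := Nat.pos_of_ne_zero fun h0 => h2 (Prod.ext h0 (by simp only; omega))
    have hj : 0 < j := Nat.pos_of_ne_zero fun h0 => h1 (Prod.ext (by simp only; omega) h0)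
    rw [← hn_star, hx.orth (hom_cmp i y) (hom_cmp j z) hi hj, star_zero]

theorem Prim.Dw_mul {a : ℕ} {x : HA K} (hx : Prim a x) (f g : HA K) :
    Dw (hnl a x) (f * g) = Dw (hnl a x) f * g + f * Dw (hnl a x) g := by
  have := PD.Dw_mul (Finset.univ : Finset (Fin 2)) (w := hnl a x) (w₁ := ![hnl a x, epsl K])
    (w₂ := ![epsl K, hnl a x]) (fun y z => by
      rw [Fin.sum_univ_two]
      exact hx.hnl_mul y z) f g
  rw [Fin.sum_univ_two] at this
  simpa only [Matrix.cons_val_zero, Matrix.cons_val_one, Dw_eps] using this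

theorem orth_ideal {S : Set (HA K)} (hS : ∀ s ∈ S, ∃ m, Prim m s) {a : ℕ} {x : HA K}
    (hx : Prim a x) (h : ∀ s ∈ S, hn a s x = 0) {v : HA K} (hv : v ∈ Algebra.adjoin ℂ S) (n : ℕ)
    (y : HA K) : hn n v (x * y) = 0 := by
  have h1 : hnl a x 1 = 0 := hn_hom_left hom_one hx.1.ne x
  have key : Dw (hnl a x) v = 0 := by
    induction hv using Algebra.adjoin_induction with
    | mem s hs =>
      obtain ⟨m, hm⟩ := hS s hs
      rw [hm.pr.Dw, h1, hnl_apply, h s hs, zero_smul, zero_smul, add_zero]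
    | algebraMap r => rw [Algebra.algebraMap_eq_smul_one, map_smul, Dw_one, h1, zero_smul, smul_zero]
    | add f g _ _ hf hg => rw [map_add, hf, hg, add_zero]
    | mul f g _ _ hf hg => rw [hx.Dw_mul, hf, hg, zero_mul, mul_zero, add_zero]
  rw [← hn_cmp_right, cmp_mul, hn_sum_right]
  refine Finset.sum_eq_zero ?_
  rintro ⟨i, j⟩ hij
  have e : i + j = n := Finset.HasAntidiagonal.mem_antidiagonal.1 hij
  by_cases hi : i = a
  · subst hi
    rw [hx.2.1.cmp_eq, ← e, hn_mul hx.2.1 (hom_cmp j y), key, PrB_zero_left]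
  · rw [hx.2.1.cmp_ne hi, zero_mul, PrB_zero_right]

theorem newton {E y : HA K} (h : E * y = pm (dimf K) E) (n : ℕ) :
    (n : ℂ) • cmp n E = ∑ x ∈ ad n, cmp x.1 E * cmp x.2 y := by
  rw [← cmp_dimf, ← h, cmp_mul]

theorem hn_log {E y z : HA K} (h : E * y = pm (dimf K) E) (h1 : eps E = 1) (h0 : eps y = 0) {n : ℕ}
    (hz : Prim n z) : (n : ℂ) * hn n z E = hn n z y := by
  have := hz.hnl_mul E y
  rw [h0, h1, mul_zero, zero_add, one_mul, h, ← hn_cmp_left, cmp_dimf, hn_smul_left,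
    hn_cmp_left] at this
  rw [← hn_star n y z, ← this, star_mul', star_natCast, hn_star]

theorem newton_mem {E y : HA K} (h : E * y = pm (dimf K) E) (h1 : eps E = 1) (h0 : eps y = 0)
    (A : Subalgebra ℂ (HA K)) {n : ℕ} (hy : ∀ m ≤ n, cmp m y ∈ A) : cmp n E ∈ A := by
  induction n using Nat.strong_induction_on with
  | _ n ih =>
    rcases Nat.eq_zero_or_pos n with rfl | hn
    · rw [PrB_cmp0, h1, one_smul]
      exact A.one_mem
    · have key : (n : ℂ) • cmp n E ∈ A := by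
        rw [newton h]
        refine A.sum_mem ?_
        rintro ⟨i, j⟩ hij
        have e : i + j = n := Finset.HasAntidiagonal.mem_antidiagonal.1 hij
        rcases Nat.eq_zero_or_pos j with rfl | hj
        · rw [PrB_cmp0, h0, zero_smul, mul_zero]
          exact A.zero_mem
        · exact A.mul_mem (ih i (by omega) fun m hm => hy m (by omega)) (hy j (by omega))
      have := A.smul_mem key (n : ℂ)⁻¹
      rwa [smul_smul, inv_mul_cancel₀ (Nat.cast_ne_zero.2 hn.ne'), one_smul] at this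

theorem newton_mem' {E y : HA K} (h : E * y = pm (dimf K) E) (h1 : eps E = 1)
    (A : Subalgebra ℂ (HA K)) (hE : ∀ m, cmp m E ∈ A) (n : ℕ) : cmp n y ∈ A := by
  induction n using Nat.strong_induction_on with
  | _ n ih =>
    have e := newton h n
    rw [← Finset.add_sum_erase _ _ (a := (0, n))
      (Finset.HasAntidiagonal.mem_antidiagonal.2 (zero_add n)), PrB_cmp0, h1, one_smul, one_mul,
      ← sub_eq_iff_eq_add] at e
    rw [← e]
    refine A.sub_mem (A.smul_mem (hE n) _) (A.sum_mem ?_)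
    rintro ⟨i, j⟩ hij
    obtain ⟨h2, h3⟩ := Finset.mem_erase.1 hij
    have e' : i + j = n := Finset.HasAntidiagonal.mem_antidiagonal.1 h3
    have hi : i ≠ 0 := fun h0 => h2 (Prod.ext h0 (by simp only; omega))
    exact A.mul_mem (hE i) (ih j (by omega))

theorem adjoin_union {S T : Set (HA K)} {f : HA K} (hf : f ∈ Algebra.adjoin ℂ (S ∪ T)) :
    ∃ v ∈ Algebra.adjoin ℂ S, f - v ∈ Ideal.span T := by
  induction hf using Algebra.adjoin_induction with
  | mem s hs =>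
    rcases hs with hs | hs
    · exact ⟨s, Algebra.subset_adjoin hs, by rw [sub_self]; exact zero_mem _⟩
    · exact ⟨0, zero_mem _, by rw [sub_zero]; exact Ideal.subset_span hs⟩
  | algebraMap r => exact ⟨_, Subalgebra.algebraMap_mem _ r, by rw [sub_self]; exact zero_mem _⟩
  | add f g _ _ hf hg =>
    obtain ⟨v, hv, h1⟩ := hf
    obtain ⟨w, hw, h2⟩ := hg
    exact ⟨v + w, add_mem hv hw, by rw [add_sub_add_comm]; exact add_mem h1 h2⟩
  | mul f g _ _ hf hg =>
    obtain ⟨v, hv, h1⟩ := hf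
    obtain ⟨w, hw, h2⟩ := hg
    refine ⟨v * w, mul_mem hv hw, ?_⟩
    rw [show f * g - v * w = g * (f - v) + v * (g - w) by ring]
    exact add_mem (Ideal.mul_mem_left _ _ h1) (Ideal.mul_mem_left _ _ h2)

theorem IsAdd.pm_mem {a : HA K} (ha : IsAdd a) {S : Set (HA K)}
    (hS : ∀ s ∈ S, pm a s ∈ Algebra.adjoin ℂ S) {f : HA K} (hf : f ∈ Algebra.adjoin ℂ S) :
    pm a f ∈ Algebra.adjoin ℂ S := by
  induction hf using Algebra.adjoin_induction with
  | mem s hs => exact hS s hs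
  | algebraMap r =>
    rw [Algebra.algebraMap_eq_smul_one, map_smul, ha.pm_one, smul_zero]
    exact zero_mem _
  | add f g _ _ hf hg =>
    rw [map_add]
    exact add_mem hf hg
  | mul f g hf' hg' hf hg =>
    rw [ha.pm_mul]
    exact add_mem (mul_mem hf hg') (mul_mem hf' hg)

/-- Multiplication by a multiplicative function as an algebra homomorphism. -/
noncomputable def pmA (a : HA K) (ha : IsMul a) (h1 : eps a = 1) : HA K →ₐ[ℂ] HA K :=
  AlgHom.ofLinearMap (pm a) (CF.ext fun M => by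
    rw [pm_val, one_val]
    split_ifs with h
    · rw [mul_one, a.iso (iso_zero h)]
      exact h1
    · exact mul_zero _) ha.pm_mul

end PD
end
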