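import Pool.Agent.Work.MP_cea1f0_al.D.Prim
import Mathlib
import Pool.Agent.Work.MP_cea1f0_al.D.Osi

-- merged part: Pool.Agent.Work.MP_cea1f0_al.D.Cp
section
/-!
# Characteristic polynomials, the trivial characters, the Moebius function  (tasks PD CpA, PD CpB)

* `cp_ext`: `LinearMap.charpoly_toMatrix` for `Basis.prod`, `Matrix.charpoly_fromBlocks_zero₂₁`.
* `EE_nil`: strong induction on the dimension.  Evaluate `EE * HH = 1` at `M` and at the subobject
  `S = ker (r φ) ≠ 0`.  A proper subobject that is not contained in `S` contributes `0` by induction, the subobjects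
  contained in `S` are the subobjects of `S`.
* `hn_mul_HH`: `hn_star`, `hn_mul`, `Gl.Dw_cmp` or `del0 HH = 1`.
* `hn_pi_HH`: `newton` gives `n = ∑ j ∈ [1, n], hn j (pi j) HH`.
-/

namespace PD

open Ob CF Polynomial

variable {K : Type} [Field K]

/-- The characteristic polynomial. -/
noncomputable def Ob.cp (M : Ob K) : K[X] := M.φ.charpoly

/-! ### Task PD CpA -/

theorem Ob.Iso.cp {M N : Ob K} (h : Iso M N) : M.cp = N.cp := by
  obtain ⟨e, h⟩ := h
  have k : e.conj M.φ = N.φ := LinearMap.ext fun x => by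
    rw [LinearEquiv.conj_apply_apply, h, e.apply_symm_apply]
  rw [Ob.cp, Ob.cp, ← k, LinearEquiv.charpoly_conj]

theorem cp_ext (M₁ M₂ : Ob K) (B : M₂.V →ₗ[K] M₁.V) : (ext M₁ M₂ B).cp = M₁.cp * M₂.cp := by
  let b₁ := Module.finBasis K M₁.V
  let b₂ := Module.finBasis K M₂.V
  have k : LinearMap.toMatrix (b₁.prod b₂) (b₁.prod b₂) (ext M₁ M₂ B).φ =
      Matrix.fromBlocks (LinearMap.toMatrix b₁ b₁ M₁.φ) (LinearMap.toMatrix b₂ b₁ B) 0
        (LinearMap.toMatrix b₂ b₂ M₂.φ) := by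
    ext (i | i) (j | j) <;> simp [LinearMap.toMatrix_apply, Ob.ext]
  refine (LinearMap.charpoly_toMatrix (ext M₁ M₂ B).φ (b₁.prod b₂)).symm.trans
    ((congrArg Matrix.charpoly k).trans ?_)
  rw [Matrix.charpoly_fromBlocks_zero₂₁, LinearMap.charpoly_toMatrix, LinearMap.charpoly_toMatrix]
  rfl

theorem cp_sub_quo (M : Ob K) (N : M.Inv) : (M.sub N).cp * (M.quo N).cp = M.cp := by
  obtain ⟨B, h⟩ := iso_ext M N
  rw [h.cp, cp_ext]

theorem cp_monic (M : Ob K) : M.cp.Monic := by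
  exact M.φ.charpoly_monic

theorem cp_natDegree (M : Ob K) : M.cp.natDegree = M.dim := by
  exact M.φ.charpoly_natDegree

theorem cp_eval_zero (M : Ob K) : M.cp.eval 0 ≠ 0 := by
  intro h
  rw [← coeff_zero_eq_eval_zero, ← constantCoeff_apply, Ob.cp,
    LinearMap.charpoly_constantCoeff_eq_zero_iff] at h
  obtain ⟨x, h0, hx⟩ := h
  exact h0 ((injective_iff_map_eq_zero _).1 M.inj x hx)

/-- A function of the characteristic polynomial. -/
noncomputable def cpf (A : K[X] → ℂ) : HA K := ⟨fun M => A M.cp, fun _ _ h => by simp only [h.cp]⟩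

/-- Multiplication by a function of the characteristic polynomial. -/
noncomputable def mf (A : K[X] → ℂ) : HA K →ₗ[ℂ] HA K := pm (cpf A)

theorem mf_val (A : K[X] → ℂ) (f : HA K) (M : Ob K) : (mf A f).1 M = A M.cp * f.1 M := rfl

theorem isAdd_cpf {A : K[X] → ℂ} (h : ∀ u v, u.Monic → v.Monic → A (u * v) = A u + A v) :
    IsAdd (cpf A) := by
  intro M₁ M₂ B
  exact (congrArg A (cp_ext M₁ M₂ B)).trans (h _ _ (cp_monic _) (cp_monic _))

theorem isMul_cpf {A : K[X] → ℂ} (h : ∀ u v, u.Monic → v.Monic → A (u * v) = A u * A v) :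
    IsMul (cpf A) := by
  intro M₁ M₂ B
  exact (congrArg A (cp_ext M₁ M₂ B)).trans (h _ _ (cp_monic _) (cp_monic _))

theorem mf_mf (A A' : K[X] → ℂ) (f : HA K) : mf A (mf A' f) = mf (A * A') f := by
  exact CF.ext fun M => (mul_assoc _ _ _).symm

theorem mf_add (A A' : K[X] → ℂ) (f : HA K) : mf (A + A') f = mf A f + mf A' f := by
  exact CF.ext fun M => add_mul _ _ _

theorem mf_sub (A A' : K[X] → ℂ) (f : HA K) : mf (A - A') f = mf A f - mf A' f := by
  exact CF.ext fun M => sub_mul _ _ _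

theorem mf_smul (c : ℂ) (A : K[X] → ℂ) (f : HA K) : mf (c • A) f = c • mf A f := by
  exact CF.ext fun M => mul_assoc _ _ _

theorem mf_one (f : HA K) : mf 1 f = f := by
  exact CF.ext fun M => one_mul _

theorem mf_congr {A A' : K[X] → ℂ} {f : HA K} (h : ∀ M, f.1 M ≠ 0 → A M.cp = A' M.cp) :
    mf A f = mf A' f := by
  refine CF.ext fun M => ?_
  rw [mf_val, mf_val]
  by_cases h0 : f.1 M = 0
  · rw [h0, mul_zero, mul_zero]
  · rw [h M h0]

theorem mf_deg (f : HA K) : mf (fun u => u.natDegree) f = pm (dimf K) f := by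
  refine CF.ext fun M => ?_
  rw [mf_val, cp_natDegree]
  rfl

/-- The sum of the trivial characters. -/
def HH (K : Type) [Field K] : HA K := ⟨fun _ => 1, fun _ _ _ => rfl⟩

/-- The trivial character. -/
noncomputable def hh (K : Type) [Field K] (m : ℕ) : HA K := cmp m (HH K)

variable [Finite K]

theorem mf_sum {ι : Type*} (s : Finset ι) (A : ι → K[X] → ℂ) (f : HA K) :
    mf (∑ i ∈ s, A i) f = ∑ i ∈ s, mf (A i) f := by
  refine CF.ext fun M => ?_
  rw [mf_val, sum_val, Finset.sum_apply, Finset.sum_mul]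
  rfl

theorem Prim.mf {n : ℕ} {y : HA K} (h : Prim n y) (A : K[X] → ℂ) : Prim n (mf A y) := by
  exact h.pm fun M₁ M₂ B => congrArg A ((cp_ext M₁ M₂ B).trans (cp_ext M₁ M₂ 0).symm)

theorem hn_mf (n : ℕ) (A : K[X] → ℂ) (f g : HA K) : hn n (mf A f) g = hn n f (mf (star A) g) := by
  exact hn_pm n (a := cpf A) (a' := cpf (star A)) (fun _ => rfl) f g

/-- The Moebius function. -/
noncomputable def EE (K : Type) [Field K] [Finite K] : HA K := Ring.inverse (HH K)

/-- The sum of the basic primitive elements. -/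
noncomputable def PI (K : Type) [Field K] [Finite K] : HA K := EE K * pm (dimf K) (HH K)

/-- The basic primitive element of degree `n`. -/
noncomputable def pi (K : Type) [Field K] [Finite K] (n : ℕ) : HA K := cmp n (PI K)

/-! ### Task PD CpB -/

theorem gl_HH : Gl (HH K) := by
  exact ⟨rfl, fun M₁ M₂ => (DelB_const (c := 1) fun _ => rfl).trans (mul_one 1).symm⟩

theorem HH_mul_EE : HH K * EE K = 1 := by
  exact Ring.mul_inverse_cancel _ (isUnit_of_eps rfl)

theorem gl_EE : Gl (EE K) := by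
  exact gl_HH.inv HH_mul_EE ((mul_comm _ _).trans HH_mul_EE)

theorem HH_mul_PI : HH K * PI K = pm (dimf K) (HH K) := by
  rw [PI, ← mul_assoc, HH_mul_EE, one_mul]

theorem CpB_log {a : HA K} (ha : IsAdd a) : pm a (HH K) * EE K + HH K * pm a (EE K) = 0 := by
  rw [← ha.pm_mul, HH_mul_EE, ha.pm_one]

theorem EE_mul_PI : EE K * (-PI K) = pm (dimf K) (EE K) := by
  rw [PI]
  linear_combination (-EE K) * CpB_log (isAdd_dimf (K := K)) +
    pm (dimf K) (EE K) * HH_mul_EE (K := K)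

theorem pr_PI : Pr (PI K) := by
  exact pr_log gl_HH isAdd_dimf HH_mul_PI

theorem prim_pi {n : ℕ} (h : 0 < n) : Prim n (pi K n) := by
  exact pr_PI.prim h

theorem pi_zero : pi K 0 = 0 := by
  refine CF.ext fun M => ?_
  rw [pi, cmp_val, zero_val]
  split_ifs with h
  · exact ((PI K).iso (iso_zero h)).trans pr_PI.eps
  · rfl

theorem hh_zero : hh K 0 = 1 := by
  exact CF.ext fun _ => rfl

theorem irr_hh (m : ℕ) : Irr m (hh K m) := by
  refine ⟨hom_cmp _ _, ?_⟩
  rw [hh, cf_cmp, if_pos (by simp)]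
  exact one_mem_irr

theorem isCh_HH : IsCh (HH K) := by
  exact isCh_cmp.2 fun n => (irr_hh n).isCh

theorem isV_EE : IsV (EE K) := by
  exact isCh_HH.isV.inv rfl HH_mul_EE

theorem CpB_sum (M : Ob K) : ∑ N : M.Inv, (EE K).1 (M.sub N) = if M.dim = 0 then 1 else 0 := by
  rw [← one_val, ← HH_mul_EE, mul_comm, mul_val]
  exact Finset.sum_congr rfl fun N _ => (mul_one _).symm

open Classical in
theorem CpB_top (M : Ob K) : (EE K).1 M + ∑ N ∈ Finset.univ.erase M.top, (EE K).1 (M.sub N) =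
    if M.dim = 0 then 1 else 0 := by
  rw [← CpB_sum, ← Finset.add_sum_erase _ _ (Finset.mem_univ M.top), (EE K).iso (iso_sub_top M)]

omit [Finite K] in
theorem CpB_lt {M : Ob K} {N : M.Inv} (h : N ≠ M.top) : (M.sub N).dim < M.dim := by
  have h1 := dim_sub_add M N
  have h2 := mt dim_quo_eq_zero.1 h
  omega

theorem CpB_int (M : Ob K) : (EE K).1 M ∈ (⊥ : Subring ℂ) := by
  classical
  induction h : M.dim using Nat.strong_induction_on generalizing M with
  | _ n ih =>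
    rw [eq_sub_of_add_eq (CpB_top M)]
    refine sub_mem ?_ (sum_mem fun N hN =>
      ih _ (h ▸ CpB_lt (Finset.ne_of_mem_erase hN)) _ rfl)
    split_ifs
    · exact one_mem _
    · exact zero_mem _

theorem EE_int (M : Ob K) : ∃ k : ℤ, (EE K).1 M = k := by
  obtain ⟨k, hk⟩ := Subring.mem_bot.1 (CpB_int M)
  exact ⟨k, hk.symm⟩

theorem pi_int (n : ℕ) (M : Ob K) : ∃ k : ℤ, (pi K n).1 M = k := by
  have h : (pi K n).1 M ∈ (⊥ : Subring ℂ) := by
    rw [pi, cmp_val]
    split_ifs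
    · rw [PI, mul_val]
      exact sum_mem fun N _ => mul_mem (CpB_int _) (mul_mem (natCast_mem _ _) (one_mem _))
    · exact zero_mem _
  obtain ⟨k, hk⟩ := Subring.mem_bot.1 h
  exact ⟨k, hk.symm⟩

omit [Finite K] in
theorem CpB_aeval {V W : Type} [AddCommGroup V] [Module K V] [AddCommGroup W] [Module K W]
    {φ : Module.End K V} {ψ : Module.End K W} (i : V →ₗ[K] W) (h : ∀ x, i (φ x) = ψ (i x))
    (r : K[X]) (x : V) : i (aeval φ r x) = aeval ψ r (i x) := by
  induction r using Polynomial.induction_on generalizing x with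
  | C a => simp
  | add p q hp hq => simp only [map_add, LinearMap.add_apply, hp, hq]
  | monomial n a ih =>
    rw [pow_succ, ← mul_assoc, map_mul, map_mul (aeval ψ), aeval_X, aeval_X,
      Module.End.mul_apply, Module.End.mul_apply, ih, h]

theorem EE_nil {M : Ob K} (r : K[X]) (h : IsNilpotent (aeval M.φ r)) (h0 : aeval M.φ r ≠ 0) :
    (EE K).1 M = 0 := by
  classical
  induction hn : M.dim using Nat.strong_induction_on generalizing M with
  | _ n ih =>
    let S : M.Inv := ⟨LinearMap.ker (aeval M.φ r), fun x hx => by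
      rw [LinearMap.mem_ker] at hx ⊢
      rw [← CpB_aeval M.φ (fun _ => rfl) r x, hx, map_zero]⟩
    have hM : M.dim ≠ 0 := fun k => by
      have := Module.finrank_zero_iff.1 k
      exact h0 (Subsingleton.elim _ _)
    have hS : (M.sub S).dim ≠ 0 := fun k => by
      obtain ⟨m, hm⟩ := h
      have k1 : Function.Injective (aeval M.φ r ^ m) := by
        rw [Module.End.coe_pow]
        exact (LinearMap.ker_eq_bot.1 (congrArg Subtype.val (dim_sub_eq_zero.1 k))).iterate m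
      rw [hm] at k1
      exact h0 (LinearMap.ext fun x => k1 rfl)
    let e : (M.sub S).Inv → M.Inv := fun N => ⟨N.1.map S.1.subtype, by
      rintro _ ⟨x, hx, rfl⟩
      exact ⟨_, N.2 x hx, rfl⟩⟩
    have h1 := Fintype.sum_of_injective e
      (fun N N' k => Subtype.ext
        (Submodule.map_injective_of_injective S.1.injective_subtype (congrArg Subtype.val k)))
      (fun N => (EE K).1 ((M.sub S).sub N))
      (fun N => if N ∈ Finset.univ.erase M.top then (EE K).1 (M.sub N) else 0)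
      (fun N hN => by
        split_ifs with k
        swap
        · rfl
        refine ih _ (hn ▸ CpB_lt (Finset.ne_of_mem_erase k)) ?_ (fun k1 => hN ?_) rfl
        · obtain ⟨m, hm⟩ := h
          refine ⟨m, LinearMap.ext fun x => Subtype.ext ?_⟩
          rw [← map_pow] at hm ⊢
          exact (CpB_aeval (φ := (M.sub N).φ) (ψ := M.φ) N.1.subtype (fun _ => rfl) _ x).trans
            (LinearMap.congr_fun hm _)
        · have k2 : N.1 ≤ S.1 := fun x hx =>
            (CpB_aeval (φ := (M.sub N).φ) (ψ := M.φ) N.1.subtype (fun _ => rfl) r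
              ⟨x, hx⟩).symm.trans (by rw [k1]; rfl)
          refine ⟨⟨N.1.comap S.1.subtype, fun x hx => N.2 _ hx⟩, Subtype.ext ?_⟩
          exact (Submodule.map_comap_subtype _ _).trans (inf_eq_right.2 k2))
      (fun N => by
        rw [if_pos]
        · exact (EE K).iso (AdjA_sub (M₁ := (M.sub S).sub N) (e N) (S.1.subtype ∘ₗ N.1.subtype)
            (S.1.injective_subtype.comp N.1.injective_subtype)
            ((LinearMap.range_comp _ _).trans (congrArg _ N.1.range_subtype)) fun _ => rfl)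
        · refine Finset.mem_erase.2 ⟨fun k => h0 (LinearMap.ker_eq_top.1 (top_le_iff.1 ?_)),
            Finset.mem_univ _⟩
          exact (congrArg Subtype.val k).ge.trans (Submodule.map_subtype_le _ _))
    rw [CpB_sum, if_neg hS, Finset.sum_ite_mem, Finset.univ_inter] at h1
    have h2 := CpB_top M
    rwa [← h1, add_zero, if_neg hM] at h2

theorem EE_simple {M : Ob K} (h0 : M.dim ≠ 0) (h : ∀ N : M.Inv, N = M.bot ∨ N = M.top) :
    (EE K).1 M = -1 := by
  classical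
  have h1 := CpB_top M
  have h2 : M.bot ≠ M.top := fun k => by
    have k1 := dim_sub_add M M.bot
    rw [dim_sub_eq_zero.2 rfl, dim_quo_eq_zero.2 k] at k1
    exact h0 k1.symm
  rw [if_neg h0, Finset.sum_eq_single_of_mem M.bot (Finset.mem_erase.2 ⟨h2, Finset.mem_univ _⟩)
    fun N hN k => absurd ((h N).resolve_left k) (Finset.ne_of_mem_erase hN),
    (EE K).iso (iso_zero (dim_sub_eq_zero.2 rfl))] at h1
  exact (eq_neg_of_add_eq_zero_left h1).trans (congrArg _ gl_EE.1)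

theorem hn_mul_HH {a b : ℕ} {x y : HA K} (hx : Hom a x) (hy : Hom b y) :
    hn (a + b) (x * y) (HH K) = hn a x (HH K) * hn b y (HH K) := by
  have h : Dw (hnl a x) (HH K) = hn a (HH K) x • HH K := CF.ext fun M => by
    have k : dr M (HH K) = HH K := CF.ext fun M₁ => DelB_const fun _ => rfl
    rw [Dw_val, k, hnl_apply, smul_val]
    exact (mul_one _).symm
  rw [← hn_star, hn_mul hx hy, h, hn_smul_left, star_mul', hn_star, hn_star]

theorem hn_pi_HH {n : ℕ} (h : 0 < n) : hn n (pi K n) (HH K) = 1 := by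
  have h1 : ∀ m, hn m (cmp m (HH K)) (HH K) = 1 := fun m => by
    rw [← hn_cmp_right]
    exact (hn_irr (irr_hh m) (irr_hh m)).trans (if_pos rfl)
  have h2 : ∀ m : ℕ, (m : ℂ) = ∑ x ∈ ad m, hn x.2 (pi K x.2) (HH K) := fun m => by
    have k := congrArg (fun f => hn m f (HH K)) (newton HH_mul_PI m)
    simp only [hn_smul_left, hn_sum_left, h1, mul_one] at k
    refine k.trans (Finset.sum_congr rfl fun x hx => ?_)
    rw [← Finset.HasAntidiagonal.mem_antidiagonal.1 hx, hn_mul_HH (hom_cmp _ _) (hom_cmp _ _), h1,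
      one_mul, pi]
  obtain ⟨m, rfl⟩ := Nat.exists_eq_add_one_of_ne_zero h.ne'
  have h3 := h2 (m + 1)
  rw [Finset.Nat.sum_antidiagonal_succ, ← h2 m] at h3
  push_cast at h3
  linear_combination -h3

theorem hn_prim_HH {n : ℕ} {y : HA K} (h : Prim n y) :
    (n : ℂ) * hn n y (HH K) = hn n y (pi K n) := by
  rw [hn_log HH_mul_PI rfl pr_PI.eps h, pi, hn_cmp_right]

theorem hn_prim_EE {n : ℕ} {y : HA K} (h : Prim n y) :
    (n : ℂ) * hn n y (EE K) = -hn n y (pi K n) := by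
  rw [hn_log EE_mul_PI gl_EE.1 (neg_eq_zero.2 pr_PI.eps) h, pi, hn_cmp_right, ← neg_one_smul ℂ,
    hn_smul_right, star_neg, star_one, neg_one_mul]

theorem hn_pi_pi {n : ℕ} (h : 0 < n) : hn n (pi K n) (pi K n) = n := by
  rw [← hn_prim_HH (prim_pi h), hn_pi_HH h, mul_one]

theorem log_add {a : HA K} (ha : IsAdd a) : EE K * pm a (HH K) = -(pm a (EE K) * HH K) := by
  linear_combination CpB_log ha

theorem pr_log_add {a : HA K} (ha : IsAdd a) : Pr (EE K * pm a (HH K)) := by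
  exact pr_log gl_HH ha (by rw [← mul_assoc, HH_mul_EE, one_mul])

theorem pi_mem (n : ℕ) : pi K n ∈ Algebra.adjoin ℂ (Set.range (hh K)) := by
  exact newton_mem' HH_mul_PI rfl _
    (fun m => Algebra.subset_adjoin (Set.mem_range_self (f := hh K) m)) n

end PD
end

-- merged part: Pool.Agent.Work.MP_cea1f0_al.D.Num
section
/-!
# The orbits of multiplication by `q` modulo `q ^ n - 1`  (tasks PD NumA, PD NumB, PD NumC)

`q` is invertible modulo `q ^ n - 1` and `q ^ n ≡ 1`.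
* `gr_lab`, `exists_lab`: `nm q n d * (q ^ d - 1) = q ^ n - 1`, so `j * nm q n d * q ^ i ≡ j' * nm q n d` modulo `q ^ n - 1` iff
  `j * q ^ i ≡ j'` modulo `q ^ d - 1`.  For given `j` the set of the `i` with `j * q ^ i ≡ j` is the set of the multiples
  of the least positive such `i`, call it `d`; `d ∣ n`, and `q ^ n - 1 ∣ j * (q ^ d - 1)` gives `nm q n d ∣ j`.  The exact period
  of `c.lab n` is `c.d`, and the period is constant on orbits.
* `count_l`: identify `Fin n` with `ZMod n` and `Fin l` with `ZMod l`; `q ^ t` modulo `q ^ n - 1` only depends on the class of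
  `t`.  The left side counts pairs `(t, i)`; translation by `i` shows that it is `n` times the cardinality of
  `Y = {t | j * ∑ s, q ^ t s ≡ θ}`.  The group `ZMod l × S`, `S = {c | θ * q ^ c ≡ θ}` of order `gr q n θ θ`, acts on `Y` by
  `(r, c) • t = fun s => t (s + r) + c`.  The points with nontrivial stabiliser are the progressions
  `t s = t 0 + s * c` with `l * c = 0`; `c = 0` gives `gr q n (j * l) θ` points and each of the `l - 1` other `c` gives
  `gr q n θ θ` points, because then `∑ s, q ^ t s ≡ q ^ t 0 * nm q n (n / l)`.  On the other points the action is free.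
-/

namespace PD

open Finset

/-- The number of `i < n` with `j * q ^ i ≡ j'`. -/
def gr (q n j j' : ℕ) : ℕ := #{i ∈ range n | j * q ^ i ≡ j' [MOD q ^ n - 1]}

/-- The exponent of the norm map. -/
def nm (q n d : ℕ) : ℕ := ∑ s ∈ range (n / d), q ^ (d * s)

/-- Exponents that define characters of `p`-power order. -/
def good (p q n j : ℕ) : Prop := ∃ k, q ^ n - 1 ∣ j * p ^ k

/-- Labels of the cuspidal characters. -/
structure Lab (q : ℕ) where
  /-- The degree. -/
  d : ℕ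
  /-- The exponent. -/
  j : ℕ
  pos : 0 < d
  lt : j < q ^ d - 1
  prim : gr q d j j = 1
  min : ∀ j' < j, gr q d j j' = 0

/-- The exponent in degree `n`. -/
def Lab.lab {q : ℕ} (c : Lab q) (n : ℕ) : ℕ := c.j * nm q n c.d

variable {p q n d j j' : ℕ}

/-! ### Task PD NumA -/

theorem nm_mul (hq : 1 < q) (hd : d ∣ n) (h0 : 0 < d) : nm q n d * (q ^ d - 1) = q ^ n - 1 := by
  obtain ⟨k, rfl⟩ := hd
  simp only [nm, Nat.mul_div_cancel_left k h0, pow_mul]
  exact geom_sum_mul_of_one_le (Nat.one_le_pow _ _ (by omega)) k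

theorem nm_self (h0 : 0 < d) : nm q d d = 1 := by
  simp [nm, Nat.div_self h0]

theorem NuA_pos (hq : 1 < q) (hn : 0 < n) : 0 < q ^ n - 1 :=
  Nat.sub_pos_of_lt (Nat.one_lt_pow hn.ne' hq)

theorem NuA_nm (hq : 1 < q) (hd : d ∣ n) (hn : 0 < n) : nm q n d ≠ 0 := fun e =>
  (NuA_pos hq hn).ne' (by rw [← nm_mul hq hd (Nat.pos_of_dvd_of_pos hd hn), e, zero_mul])

theorem NuA_cop (hq : 1 < q) (hn : 0 < n) (b : ℕ) : (q ^ n - 1).Coprime (q ^ b) := by
  have h : (q ^ n - 1).Coprime (q ^ n) :=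
    (Nat.coprime_self_sub_left (Nat.one_le_pow _ _ (by omega))).2 (Nat.coprime_one_left _)
  exact (h.coprime_dvd_right (dvd_pow_self q hn.ne')).pow_right b

theorem nm_trans (hq : 1 < q) {e : ℕ} (hd : d ∣ e) (he : e ∣ n) (h0 : 0 < n) :
    nm q e d * nm q n e = nm q n d := by
  have h1 := Nat.pos_of_dvd_of_pos he h0
  have h2 := Nat.pos_of_dvd_of_pos hd h1
  refine Nat.eq_of_mul_eq_mul_right (NuA_pos hq h2) ?_
  rw [mul_right_comm, nm_mul hq hd h2, mul_comm, nm_mul hq he h1, nm_mul hq (hd.trans he) h2]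

theorem gr_congr {k k' : ℕ} (h : j ≡ k [MOD q ^ n - 1]) (h' : j' ≡ k' [MOD q ^ n - 1]) :
    gr q n j j' = gr q n k k' :=
    congrArg card (filter_congr fun _ _ =>
    ⟨fun e => ((h.symm.mul_right _).trans e).trans h', fun e => ((h.mul_right _).trans e).trans h'.symm⟩)

theorem gr_count (hq : 1 < q) (hn : 0 < n) :
    #{x ∈ range n ×ˢ range n | j * q ^ x.1 ≡ j' * q ^ x.2 [MOD q ^ n - 1]} = n * gr q n j j' := by
  have one : q ^ n ≡ 1 [MOD q ^ n - 1] :=
    ((Nat.modEq_iff_dvd' (Nat.one_le_pow _ _ (by omega))).2 dvd_rfl).symm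
  have key : ∀ b, #{a ∈ range n | j * q ^ a ≡ j' * q ^ b [MOD q ^ n - 1]} = gr q n j j' := fun b => by
    have per : Function.Periodic (fun a => j * q ^ a ≡ j' * q ^ b [MOD q ^ n - 1]) n := fun a => by
      have e : j * q ^ (a + n) ≡ j * q ^ a [MOD q ^ n - 1] := by
        simpa only [pow_add, mul_assoc, mul_one] using one.mul_left (j * q ^ a)
      exact propext ⟨e.symm.trans, e.trans⟩
    rw [← Nat.count_eq_card_filter_range, ← Nat.filter_Ico_card_eq_of_periodic b n _ per,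
      card_filter, sum_Ico_eq_sum_range, Nat.add_sub_cancel_left, gr, card_filter]
    refine sum_congr rfl fun i _ => if_congr ?_ rfl rfl
    rw [pow_add, mul_comm (q ^ b), ← mul_assoc]
    exact ⟨Nat.ModEq.cancel_right_of_coprime (NuA_cop hq hn b), fun e => e.mul_right _⟩
  rw [card_filter, sum_product_right]
  simp only [← card_filter, key, sum_const, card_range, smul_eq_mul]

theorem good_zero : good p q n 0 :=
  ⟨0, by simp⟩

theorem good.add (h : good p q n j) (h' : good p q n j') : good p q n (j + j') := by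
  obtain ⟨k, h⟩ := h
  obtain ⟨k', h'⟩ := h'
  refine ⟨k + k', ?_⟩
  rw [add_mul, pow_add, ← mul_assoc, mul_comm (p ^ k), ← mul_assoc j']
  exact dvd_add (h.mul_right _) (h'.mul_right _)

theorem good.mul (h : good p q n j) (k : ℕ) : good p q n (j * k) :=
    h.imp fun _ e => mul_right_comm j _ k ▸ e.mul_right k

theorem good_congr (h : j ≡ j' [MOD q ^ n - 1]) : good p q n j ↔ good p q n j' :=
    exists_congr fun _ => (h.mul_right _).dvd_iff dvd_rfl

theorem good_of_gr (hq : 1 < q) (hn : 0 < n) (h : gr q n j j' ≠ 0) :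
    good p q n j ↔ good p q n j' := by
  obtain ⟨i, hi⟩ := card_ne_zero.1 h
  rw [← good_congr (mem_filter.1 hi).2]
  refine ⟨fun k => k.mul _, fun k => k.imp fun a e => ?_⟩
  rw [mul_right_comm] at e
  exact (NuA_cop hq hn i).dvd_of_dvd_mul_right e

theorem good_nm (hq : 1 < q) (hd : d ∣ n) (hn : 0 < n) :
    good p q n (j * nm q n d) ↔ good p q d j :=
    exists_congr fun k => by
    rw [← nm_mul hq hd (Nat.pos_of_dvd_of_pos hd hn), mul_right_comm, mul_comm (nm q n d),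
      Nat.mul_dvd_mul_iff_right (Nat.pos_of_ne_zero (NuA_nm hq hd hn))]

theorem NuA_dvd (hp : p.Prime) {a u : ℕ} (e : q ^ n - 1 = p ^ a * u) (hu : ¬ p ∣ u)
    (h : good p q n j) : u ∣ j := by
  obtain ⟨k, h⟩ := h
  exact (((hp.coprime_iff_not_dvd.2 hu).symm).pow_right k).dvd_of_dvd_mul_right
    ((Dvd.intro_left _ e.symm).trans h)

open scoped Classical in
theorem card_good (hp : p.Prime) (hq : 1 < q) (hn : 0 < n) {m : ℕ}
    (h : ∀ a, p ^ a ∣ q ^ n - 1 → p ^ a ≤ m) : #{j ∈ range (q ^ n - 1) | good p q n j} ≤ m := by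
  obtain ⟨a, u, hu, e⟩ := Nat.exists_eq_pow_mul_and_not_dvd (NuA_pos hq hn).ne' p hp.ne_one
  refine le_trans ?_ (h a (Dvd.intro _ e.symm))
  refine (card_le_card (t := (range (p ^ a)).image (u * ·)) fun j hj => ?_).trans
    (card_image_le.trans (card_range _).le)
  obtain ⟨h1, h2⟩ := mem_filter.1 hj
  obtain ⟨t, rfl⟩ := NuA_dvd hp e hu h2
  rw [mem_range, e, mul_comm (p ^ a)] at h1
  exact mem_image.2 ⟨t, mem_range.2 (lt_of_mul_lt_mul_left h1 (Nat.zero_le _)), rfl⟩

theorem exists_univ (hp : p.Prime) (hq : 1 < q) (hd : 0 < d) (hdn : d ≤ n) (h : good p q d j) :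
    ∃ j', j' ≡ j [MOD q ^ d - 1] ∧ ∀ m, 0 < m → m ≤ n → good p q m j' := by
  obtain ⟨a, u, hu, e⟩ := Nat.exists_eq_pow_mul_and_not_dvd (NuA_pos hq hd).ne' p hp.ne_one
  obtain ⟨b, w, hw, e'⟩ := Nat.exists_eq_pow_mul_and_not_dvd
    (prod_ne_zero_iff.2 fun m hm => (NuA_pos hq (mem_Icc.1 hm).1).ne' :
      ∏ m ∈ Icc 1 n, (q ^ m - 1) ≠ 0) p hp.ne_one
  have dv : ∀ m, 0 < m → m ≤ n → q ^ m - 1 ∣ p ^ b * w := fun m h1 h2 =>
    e' ▸ dvd_prod_of_mem (fun m => q ^ m - 1) (mem_Icc.2 ⟨h1, h2⟩)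
  have cu := hp.coprime_iff_not_dvd.2 hu
  obtain ⟨x, h1, h2⟩ := Nat.chineseRemainder ((hp.coprime_iff_not_dvd.2 hw).pow_left a) j 0
  have h3 : w ∣ x := (Nat.modEq_zero_iff_dvd).1 h2
  have h4 : u ∣ w := (cu.symm.pow_right b).dvd_of_dvd_mul_left
    ((Dvd.intro_left _ e.symm).trans (dv d hd hdn))
  refine ⟨x, ?_, fun m k1 k2 => ⟨b, (dv m k1 k2).trans (mul_comm x _ ▸ mul_dvd_mul_left _ h3)⟩⟩
  rw [e]
  exact (Nat.modEq_and_modEq_iff_modEq_mul (cu.pow_left a)).1
    ⟨h1, (h4.trans h3).modEq_zero_nat.trans (NuA_dvd hp e hu h).zero_modEq_nat⟩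

theorem modEq_nm (hq : 1 < q) (hd : d ∣ n) (hn : 0 < n) :
    j * nm q n d ≡ j' * nm q n d [MOD q ^ n - 1] ↔ j ≡ j' [MOD q ^ d - 1] := by
  rw [← nm_mul hq hd (Nat.pos_of_dvd_of_pos hd hn), mul_comm (nm q n d)]
  exact Nat.ModEq.mul_right_cancel_iff' (NuA_nm hq hd hn)

/-! ### Task PD NumB -/

theorem Lab.ext' {c c' : Lab q} (h : c.d = c'.d) (h' : c.j = c'.j) : c = c' := by
  cases c; cases c'; cases h; cases h'; rfl

theorem lab_fin (q n : ℕ) (hn : 0 < n) : {c : Lab q | c.d ∣ n}.Finite := by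
  refine Set.Finite.of_injOn (f := fun c : Lab q => (⟨c.d, c.j⟩ : Σ _ : ℕ, ℕ)) (fun c hc => ?_)
    (fun c _ c' _ e => Lab.ext' (congrArg Sigma.fst e) (congrArg (fun x : Σ _ : ℕ, ℕ => x.2) e))
    ((range (n + 1)).sigma fun d => range (q ^ d)).finite_toSet
  have h1 := Nat.le_of_dvd hn hc
  have h2 := c.lt
  simp only [coe_sigma, Set.mem_sigma_iff, coe_range, Set.mem_Iio]
  omega

theorem NuB_one (hq : 1 < q) (n a : ℕ) : q ^ (n * a) ≡ 1 [MOD q ^ n - 1] := by
  have h : q ^ n ≡ 1 [MOD q ^ n - 1] :=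
    ((Nat.modEq_iff_dvd' (Nat.one_le_pow _ _ (by omega))).2 dvd_rfl).symm
  simpa [pow_mul] using h.pow a

theorem NuB_mod (hq : 1 < q) (j n i : ℕ) : j * q ^ (i % n) ≡ j * q ^ i [MOD q ^ n - 1] := by
  conv_rhs => rw [← Nat.mod_add_div i n, pow_add]
  simpa using (((NuB_one hq n (i / n)).mul_left (q ^ (i % n))).mul_left j).symm

theorem NuB_ne (hq : 1 < q) (hn : 0 < n) :
    gr q n j j' ≠ 0 ↔ ∃ i, j * q ^ i ≡ j' [MOD q ^ n - 1] := by
  rw [gr, card_ne_zero, filter_nonempty_iff]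
  exact ⟨fun ⟨i, _, h⟩ => ⟨i, h⟩, fun ⟨i, h⟩ =>
    ⟨i % n, mem_range.2 (Nat.mod_lt _ hn), (NuB_mod hq j n i).trans h⟩⟩

theorem NuB_symm (hq : 1 < q) (hn : 0 < n) {i : ℕ} (h : j * q ^ i ≡ j' [MOD q ^ n - 1]) :
    ∃ i', j' * q ^ i' ≡ j [MOD q ^ n - 1] := by
  refine ⟨(n - 1) * i, (h.symm.mul_right _).trans ?_⟩
  rw [mul_assoc, ← pow_add, ← one_add_mul, show 1 + (n - 1) = n by omega]
  simpa using (NuB_one hq n i).mul_left j

theorem NuB_per {N i k : ℕ} (h : j * q ^ i ≡ j' [MOD N]) (h' : j * q ^ k ≡ j [MOD N]) :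
    j' * q ^ k ≡ j' [MOD N] := by
  refine (h.symm.mul_right _).trans (Nat.ModEq.trans ?_ h)
  rw [mul_right_comm]
  exact h'.mul_right _

theorem NuB_prim (hq : 1 < q) (hd : 0 < d) (h : gr q d j j = 1) {k : ℕ} :
    j * q ^ k ≡ j [MOD q ^ d - 1] ↔ d ∣ k := by
  refine ⟨fun e => Nat.dvd_of_mod_eq_zero ?_, ?_⟩
  · exact card_le_one.1 h.le _ (mem_filter.2 ⟨mem_range.2 (Nat.mod_lt _ hd),
      (NuB_mod hq j d k).trans e⟩) _ (mem_filter.2 ⟨mem_range.2 hd, by simp [Nat.ModEq]⟩)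
  · rintro ⟨a, rfl⟩
    simpa using (NuB_one hq d a).mul_left j

open scoped Classical in
theorem gr_lab (hq : 1 < q) (hn : 0 < n) {c c' : Lab q} (h : c.d ∣ n) (h' : c'.d ∣ n) :
    gr q n (c.lab n) (c'.lab n) = if c = c' then n / c.d else 0 := by
  have key : ∀ {c : Lab q}, c.d ∣ n → ∀ k, c.lab n * q ^ k ≡ c.lab n [MOD q ^ n - 1] ↔ c.d ∣ k :=
    fun {c} h k => by rw [Lab.lab, mul_right_comm, modEq_nm hq h hn, NuB_prim hq c.pos c.prim]
  split_ifs with e
  · subst e
    obtain ⟨m, hm⟩ := h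
    have : {i ∈ range n | c.lab n * q ^ i ≡ c.lab n [MOD q ^ n - 1]} =
        (range m).image (c.d * ·) := by
      ext i
      simp only [mem_filter, mem_range, mem_image, key ⟨m, hm⟩]
      constructor
      · rintro ⟨h1, a, rfl⟩
        exact ⟨a, Nat.lt_of_mul_lt_mul_left (hm ▸ h1), rfl⟩
      · rintro ⟨a, h1, rfl⟩
        exact ⟨hm ▸ Nat.mul_lt_mul_of_pos_left h1 c.pos, a, rfl⟩
    rw [gr, this, card_image_of_injective _ (mul_right_injective₀ c.pos.ne'), card_range, hm,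
      Nat.mul_div_cancel_left _ c.pos]
  · by_contra k
    obtain ⟨i, hi⟩ := (NuB_ne hq hn).1 k
    obtain ⟨i', hi'⟩ := NuB_symm hq hn hi
    have hd : c.d = c'.d := Nat.dvd_antisymm ((key h _).1 (NuB_per hi' ((key h' _).2 dvd_rfl)))
      ((key h' _).1 (NuB_per hi ((key h _).2 dvd_rfl)))
    rw [Lab.lab, Lab.lab, mul_right_comm, ← hd, modEq_nm hq h hn] at hi
    rw [Lab.lab, Lab.lab, mul_right_comm, hd, modEq_nm hq h' hn] at hi'
    exact e (Lab.ext' hd (le_antisymm
      (not_lt.1 fun l => (NuB_ne hq c.pos).2 ⟨i, hi⟩ (c.min _ l))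
      (not_lt.1 fun l => (NuB_ne hq c'.pos).2 ⟨i', hi'⟩ (c'.min _ l))))

theorem NuB_ord {N : ℕ} (hn : 0 < n) (h : j * q ^ n ≡ j [MOD N]) :
    ∃ d, 0 < d ∧ ∀ k, j * q ^ k ≡ j [MOD N] ↔ d ∣ k := by
  have ex : ∃ d, 0 < d ∧ j * q ^ d ≡ j [MOD N] := ⟨n, hn, h⟩
  obtain ⟨h1, h2⟩ := Nat.find_spec ex
  have h3 : ∀ a, j * q ^ (Nat.find ex * a) ≡ j [MOD N] := fun a => by
    induction a with
    | zero => simp [Nat.ModEq]
    | succ a ih =>
      rw [Nat.mul_succ, pow_add, ← mul_assoc]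
      exact (ih.mul_right _).trans h2
  refine ⟨_, h1, fun k => ⟨fun e => Nat.dvd_of_mod_eq_zero ?_, ?_⟩⟩
  · by_contra c
    refine Nat.find_min ex (Nat.mod_lt k h1) ⟨Nat.pos_of_ne_zero c, Nat.ModEq.trans ?_ e⟩
    conv_rhs => rw [← Nat.div_add_mod k (Nat.find ex), pow_add, ← mul_assoc]
    exact ((h3 _).mul_right _).symm
  · rintro ⟨a, rfl⟩
    exact h3 a

theorem exists_lab (hq : 1 < q) (hn : 0 < n) (j : ℕ) :
    ∃ c : Lab q, c.d ∣ n ∧ gr q n j (c.lab n) ≠ 0 := by
  obtain ⟨d, hd, h1⟩ := NuB_ord (N := q ^ n - 1) (j := j) hn (by simpa using (NuB_one hq n 1).mul_left j)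
  have hdn : d ∣ n := (h1 n).1 (by simpa using (NuB_one hq n 1).mul_left j)
  have hM : 0 < q ^ d - 1 := Nat.sub_pos_of_lt (Nat.one_lt_pow hd.ne' hq)
  obtain ⟨a, rfl⟩ : nm q n d ∣ j := by
    have := (Nat.modEq_iff_dvd' (Nat.le_mul_of_pos_right j (Nat.pow_pos (by omega)))).1
      ((h1 d).2 dvd_rfl).symm
    rw [← Nat.mul_sub_one, ← nm_mul hq hdn hd] at this
    exact Nat.dvd_of_mul_dvd_mul_right hM this
  have h2 : ∀ k, a * q ^ k ≡ a [MOD q ^ d - 1] ↔ d ∣ k := fun k => by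
    rw [← h1, mul_comm _ a, mul_right_comm, modEq_nm hq hdn hn]
  have ex : ∃ b, gr q d a b ≠ 0 := ⟨a, (NuB_ne hq hd).2 ⟨0, by simp [Nat.ModEq]⟩⟩
  obtain ⟨i, hi⟩ := (NuB_ne hq hd).1 (Nat.find_spec ex)
  obtain ⟨i', hi'⟩ := NuB_symm hq hd hi
  refine ⟨⟨d, Nat.find ex, hd, ?_, ?_, fun b hb => ?_⟩, hdn, (NuB_ne hq hn).2 ⟨i, ?_⟩⟩
  · exact (Nat.find_min' ex ((NuB_ne hq hd).2 ⟨i, hi.trans (Nat.mod_modEq _ _).symm⟩)).trans_lt
      (Nat.mod_lt _ hM)
  · refine card_eq_one.2 ⟨0, eq_singleton_iff_unique_mem.2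
      ⟨mem_filter.2 ⟨mem_range.2 hd, by simp [Nat.ModEq]⟩, fun k hk => ?_⟩⟩
    exact Nat.eq_zero_of_dvd_of_lt ((h2 k).1 (NuB_per hi' (mem_filter.1 hk).2))
      (mem_range.1 (mem_filter.1 hk).1)
  · by_contra k
    obtain ⟨l, hl⟩ := (NuB_ne hq hd).1 k
    refine Nat.find_min ex hb ((NuB_ne hq hd).2 ⟨i + l, Nat.ModEq.trans ?_ hl⟩)
    rw [pow_add, ← mul_assoc]
    exact hi.mul_right _
  · rw [mul_comm _ a, mul_right_comm]
    exact (modEq_nm hq hdn hn).2 hi

/-! ### Task PD NumC -/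

theorem NuC_free {H X : Type} [AddGroup H] [Fintype H] (F : Finset X) (a : H → X → X)
    (h0 : ∀ x, a 0 x = x) (h1 : ∀ g h x, a (g + h) x = a g (a h x))
    (h2 : ∀ g, ∀ x ∈ F, a g x ∈ F) (h3 : ∀ g, ∀ x ∈ F, a g x = x → g = 0) :
    Fintype.card H ∣ #F := by
  let _ : AddAction H F :=
    { vadd := fun g x => ⟨a g x, h2 g x x.2⟩
      zero_vadd := fun x => Subtype.ext (h0 x)
      add_vadd := fun g h x => Subtype.ext (h1 g h x) }
  have e := Nat.card_congr (AddAction.selfEquivOrbitsQuotientProd (G := H) (X := F) fun b =>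
    eq_bot_iff.2 fun g hg => h3 g b b.2 (congrArg Subtype.val hg))
  rw [Nat.card_prod, Nat.card_eq_fintype_card (α := H), Nat.card_eq_fintype_card,
    Fintype.card_coe] at e
  exact Dvd.intro_left _ e.symm

theorem NuC_abs {G A : Type} [AddCommGroup G] [Fintype G] [DecidableEq G] [CommRing A]
    [DecidableEq A] {l : ℕ} [Fact l.Prime] {u : G → A} (u0 : u 0 = 1)
    (hu : ∀ a b, u (a + b) = u a * u b) (φ : ZMod l →+ G) (hφ : Function.Injective φ)
    (hφ' : ∀ c, l • c = 0 → ∃ e, φ e = c) {J Θ : A} (h : Θ = J * ∑ s, u (φ s)) : ∃ z : ℕ,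
    #{t : ZMod l → G | J * ∑ s, u (t s) = Θ} =
      #{x | J * l * u x = Θ} + (l - 1) * #{x | Θ * u x = Θ} + l * #{x | Θ * u x = Θ} * z := by
  classical
  let S : AddSubgroup G :=
    { carrier := {x | Θ * u x = Θ}
      zero_mem' := by simp [u0]
      add_mem' := fun {a b} (ha : Θ * u a = Θ) (hb : Θ * u b = Θ) => by
        change Θ * u (a + b) = Θ
        rw [hu, ← mul_assoc, ha, hb]
      neg_mem' := fun {a} (ha : Θ * u a = Θ) => by
        change Θ * u (-a) = Θ
        nth_rewrite 1 [← ha]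
        rw [mul_assoc, ← hu, add_neg_cancel, u0, mul_one] }
  obtain ⟨z, hz⟩ := NuC_free (H := ZMod l × S)
    ({t ∈ ({t | J * ∑ s, u (t s) = Θ} : Finset (ZMod l → G)) |
      ¬ ∃ x e, t = fun s => x + φ (s * e)})
    (fun g t s => t (s + g.1) + g.2) (fun t => by simp)
    (fun g h t => funext fun s => by simp [add_assoc, add_comm (h.2 : G)]) (by
      rintro ⟨r, c, hc⟩ t ht
      simp only [mem_filter, mem_univ, true_and] at ht ⊢
      refine ⟨?_, fun ⟨x, e, k⟩ => ht.2 ⟨x - φ (r * e) - c, e, funext fun s => ?_⟩⟩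
      · simp only [hu, ← sum_mul]
        rw [← mul_assoc, show ∑ s, u (t (s + r)) = ∑ s, u (t s) from
          Equiv.sum_comp (Equiv.addRight r) fun s => u (t s), ht.1]
        exact hc
      · have := congrFun k (s - r)
        rw [sub_add_cancel, sub_mul, map_sub] at this
        rw [eq_sub_of_add_eq this]
        abel) (by
      rintro ⟨r, c, hc⟩ t ht k
      have k1 : ∀ s, t (s + r) + c = t s := congrFun k
      by_cases r0 : r = 0
      · have := k1 0
        rw [r0, add_zero, add_eq_left] at this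
        simp [r0, this]
      refine absurd ?_ (mem_filter.1 ht).2
      have k2 : ∀ m : ℕ, t (m * r) = t 0 + m • -c := fun m => by
        induction m with
        | zero => simp
        | succ m ih => rw [Nat.cast_succ, add_one_mul, eq_add_neg_of_add_eq (k1 _), ih, succ_nsmul,
            add_assoc]
      obtain ⟨e, he⟩ := hφ' (-c) (by simpa using k2 l)
      refine ⟨t 0, r⁻¹ * e, funext fun s => ?_⟩
      have := k2 (s * r⁻¹).val
      rwa [← he, ← map_nsmul, nsmul_eq_mul, ZMod.natCast_zmod_val, inv_mul_cancel_right₀ r0,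
        mul_assoc] at this)
  have cS : Fintype.card S = #{x | Θ * u x = Θ} := Fintype.card_of_subtype _ fun x => by
    rw [mem_filter_univ]; rfl
  rw [Fintype.card_prod, ZMod.card, cS] at hz
  refine ⟨z, ?_⟩
  rw [← hz, ← card_filter_add_card_filter_not (fun t => ∃ x e, t = fun s => x + φ (s * e))]
  congr 1
  have e1 : #{p : G × ZMod l | J * ∑ s, u (p.1 + φ (s * p.2)) = Θ} =
      #{t ∈ ({t | J * ∑ s, u (t s) = Θ} : Finset (ZMod l → G)) |
        ∃ x e, t = fun s => x + φ (s * e)} := by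
    refine card_bij (fun p _ s => p.1 + φ (s * p.2)) (fun p hp => ?_) (fun p _ p' _ k => ?_)
      fun t ht => ?_
    · exact mem_filter.2 ⟨mem_filter.2 ⟨mem_univ _, (mem_filter.1 hp).2⟩, _, _, rfl⟩
    · have k0 : p.1 = p'.1 := by simpa using congrFun k 0
      have k1 := congrFun k 1
      rw [k0, add_right_inj, one_mul, one_mul] at k1
      exact Prod.ext k0 (hφ k1)
    · obtain ⟨h1, x, e, rfl⟩ := mem_filter.1 ht
      exact ⟨(x, e), mem_filter.2 ⟨mem_univ _, (mem_filter.1 h1).2⟩, rfl⟩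
  have e2 : ∀ e ∈ (univ : Finset (ZMod l)).erase 0,
      #{x | J * ∑ s, u (x + φ (s * e)) = Θ} = #{x | Θ * u x = Θ} := fun e he => by
    congr 1
    refine filter_congr fun x _ => ?_
    simp only [hu, ← mul_sum]
    rw [show ∑ s, u (φ (s * e)) = ∑ s, u (φ s) from
      Equiv.sum_comp (Equiv.mulRight₀ e (ne_of_mem_erase he)) fun s => u (φ s), mul_comm (u x),
      ← mul_assoc, ← h]
  rw [← e1, card_filter, Fintype.sum_prod_type_right]
  simp only [← card_filter]
  rw [← add_sum_erase _ _ (mem_univ 0), sum_congr rfl e2, sum_const, card_erase_of_mem (mem_univ _),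
    card_univ, ZMod.card, smul_eq_mul]
  simp [mul_assoc]

theorem NuC_val (n : ℕ) [NeZero n] (i : Fin n) : (ZMod.finEquiv n i).val = i := by
  cases n with
  | zero => exact i.elim0
  | succ n => rfl

theorem NuC_sum {A : Type} [AddCommMonoid A] (n : ℕ) [NeZero n] (f : ℕ → A) :
    ∑ s : ZMod n, f s.val = ∑ s ∈ range n, f s := by
  rw [← Fin.sum_univ_eq_sum_range]
  exact (Fintype.sum_equiv (ZMod.finEquiv n).toEquiv _ _ fun i => by simp [NuC_val]).symm

theorem NuC_gr [NeZero n] (a b : ℕ) : gr q n a b =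
    #{c : ZMod n | (a : ZMod (q ^ n - 1)) * (q : ZMod (q ^ n - 1)) ^ c.val = b} := by
  rw [gr, card_filter, card_filter, ← NuC_sum]
  refine sum_congr rfl fun c _ => if_congr ?_ rfl rfl
  rw [← ZMod.natCast_eq_natCast_iff, Nat.cast_mul, Nat.cast_pow]

theorem NuC_zmod (hq : 1 < q) {l θ : ℕ} [Fact l.Prime] [NeZero (l * d)] (d0 : 0 < d)
    (h : θ ≡ j * nm q (l * d) d [MOD q ^ (l * d) - 1]) : ∃ z : ℕ,
    ∑ t : ZMod l → ZMod (l * d), gr q (l * d) (j * ∑ s, q ^ (t s).val) θ = l * d *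
      (gr q (l * d) (j * l) θ + (l - 1) * gr q (l * d) θ θ + l * gr q (l * d) θ θ * z) := by
  have q1 : (q : ZMod (q ^ (l * d) - 1)) ^ (l * d) = 1 := by
    have := ZMod.natCast_self (q ^ (l * d) - 1)
    rwa [Nat.cast_sub (Nat.one_le_pow _ _ (one_pos.trans hq)), Nat.cast_pow, Nat.cast_one,
      sub_eq_zero] at this
  have hu : ∀ a b : ZMod (l * d), (q : ZMod (q ^ (l * d) - 1)) ^ (a + b).val =
      q ^ a.val * q ^ b.val := fun a b => by
    rw [ZMod.val_add, ← pow_eq_pow_mod _ q1, pow_add]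
  let φ : ZMod l →+ ZMod (l * d) := AddMonoidHom.mk' (fun e => ((d * e.val : ℕ) : ZMod (l * d)))
    fun a b => by
      rw [← Nat.cast_add, ZMod.natCast_eq_natCast_iff', ZMod.val_add, ← Nat.mul_mod_mul_left,
        mul_comm d l, Nat.mod_mod, mul_add]
  have v : ∀ e, (φ e).val = d * e.val := fun e => ZMod.val_cast_of_lt (by
    rw [mul_comm l]
    exact Nat.mul_lt_mul_of_pos_left e.val_lt d0)
  obtain ⟨z, hz⟩ := NuC_abs (u := fun c : ZMod (l * d) => (q : ZMod (q ^ (l * d) - 1)) ^ c.val)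
    (by simp) hu φ (fun a b k => ZMod.val_injective _ (Nat.eq_of_mul_eq_mul_left d0 (by
      rw [← v, ← v, k]))) (fun c hc => by
      rw [← ZMod.natCast_zmod_val c, nsmul_eq_mul, ← Nat.cast_mul, ZMod.natCast_eq_zero_iff] at hc
      obtain ⟨k, hk⟩ := Nat.dvd_of_mul_dvd_mul_left (Fact.out : l.Prime).pos hc
      have k1 : k < l := Nat.lt_of_mul_lt_mul_left (a := d) (by rw [← hk, mul_comm d]; exact c.val_lt)
      exact ⟨k, ZMod.val_injective _ (by rw [v, ZMod.val_cast_of_lt k1, hk])⟩)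
    (J := j) (Θ := θ) (by
      simp only [v]
      rw [(ZMod.natCast_eq_natCast_iff _ _ _).2 h, nm, Nat.mul_div_cancel _ d0,
        NuC_sum l fun s => (q : ZMod (q ^ (l * d) - 1)) ^ (d * s)]
      simp)
  refine ⟨z, ?_⟩
  simp only [NuC_gr, Nat.cast_mul, Nat.cast_sum, Nat.cast_pow]
  rw [← hz]
  simp only [card_filter]
  rw [sum_comm, sum_congr rfl fun c _ => ?_, sum_const, card_univ, ZMod.card, smul_eq_mul]
  refine Fintype.sum_equiv (Equiv.addRight fun _ => c) _ _ fun t => if_congr ?_ rfl rfl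
  simp only [Equiv.coe_addRight, Pi.add_apply, hu, ← sum_mul, mul_assoc]

theorem count_l (hq : 1 < q) (hn : 0 < n) {l θ : ℕ} (hl : l.Prime) (hln : l ∣ n)
    (h : θ ≡ j * nm q n (n / l) [MOD q ^ n - 1]) : ∃ z : ℕ,
    ∑ t : Fin l → Fin n, gr q n (j * ∑ s, q ^ (t s : ℕ)) θ =
      n * (gr q n (j * l) θ + (l - 1) * gr q n θ θ + l * gr q n θ θ * z) := by
  obtain ⟨d, rfl⟩ := hln
  have d0 : 0 < d := Nat.pos_of_mul_pos_left hn
  rw [Nat.mul_div_cancel_left d hl.pos] at h
  have := Fact.mk hl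
  have : NeZero (l * d) := ⟨hn.ne'⟩
  obtain ⟨z, hz⟩ := NuC_zmod hq d0 h
  refine ⟨z, Eq.trans ?_ hz⟩
  refine Fintype.sum_equiv (Equiv.arrowCongr (ZMod.finEquiv l).toEquiv
    (ZMod.finEquiv (l * d)).toEquiv) _ _ fun t => ?_
  congr 2
  refine Fintype.sum_equiv (ZMod.finEquiv l).toEquiv _ _ fun s => ?_
  simp [NuC_val]

end PD
end

-- merged part: Pool.Agent.Work.MP_cea1f0_al.D.Eig
section
/-!
# Eigenvalues  (tasks PD EigA, PD EigB)

`χ` is an injective multiplicative map from the algebraic closure of `K` to `ℂ`.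
* `exists_chi`: for every `M` the group `μ M` of the roots of `X ^ (q ^ M ! - 1) - 1` is cyclic of order `q ^ M ! - 1`, these
  groups increase and cover the units.  An injective homomorphism `μ M → ℂˣ` extends to an injective homomorphism on
  `μ (M + 1)`: choose a generator `g` of the large group, of order `N`; `g ^ (N / N₀)` generates the small group and is sent
  to a primitive `N₀`-th root of unity `ζ₀ = ζ ^ (N / N₀ * a)`, `a` coprime to `N₀`; lift `a` to a unit modulo `N`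
  (`ZMod.unitsMap_surjective`).  Glue by recursion.  Alternative: Zorn, or a valuation subring of `ℂ` over the characteristic.
* `PS_uu`: the roots of `minpoly K α` are the `α ^ q ^ i`, `i < e = natDegree`, they are distinct, `α ^ q ^ e = α`, `e ∣ n`
  (`Irreducible.natDegree_dvd_iff_dvd_X_pow_card_pow_sub_X` in `FieldTheory/Finite/Extension.lean`, `FiniteField.orderOf_frobeniusAlgHom`).
* `sum_chi`: `χ` maps `TT n` bijectively onto the complex roots of unity of order `q ^ n - 1`; `star (χ α) = (χ α)⁻¹`.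
* `fourier`: `c j = N⁻¹ ∑ β, F β * star (χ β ^ j)`, geometric sums.
* `reg_fourier`: `q ^ n - 1 = p ^ a * c` with `c` prime to `p`; `Reg p α ↔ α ^ c = 1`; the indicator function is the average of
  the `χ α ^ (c * s)`, `s < p ^ a`.
-/

namespace PD

open Polynomial Finset

/-- The algebraic closure. -/
abbrev Kb (K : Type) [Field K] : Type := AlgebraicClosure K

variable {K : Type} [Field K]

open scoped Classical in
/-- The nonzero elements of the field with `q ^ n` elements. -/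
noncomputable def TT (K : Type) [Field K] (n : ℕ) : Finset (Kb K) :=
  nthRootsFinset (Nat.card K ^ n - 1) (1 : Kb K)

/-- The characteristic polynomial of an element of the field with `q ^ n` elements. -/
noncomputable def uu (n : ℕ) (α : Kb K) : K[X] := minpoly K α ^ (n / (minpoly K α).natDegree)

/-- Power sums of the values of `χ` at the roots. -/
noncomputable def PS (χ : Kb K →*₀ ℂ) (j : ℕ) (u : K[X]) : ℂ :=
  ((u.aroots (Kb K)).map fun α => χ α ^ j).sum

/-- Elements of order prime to `p`. -/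
def Reg (p : ℕ) (α : Kb K) : Prop := ∃ c : ℕ, c.Coprime p ∧ α ^ c = 1

open scoped Classical in
/-- The indicator function of the polynomials whose roots have order prime to `p`. -/
noncomputable def regA (p : ℕ) (u : K[X]) : ℂ := if ∀ α ∈ u.aroots (Kb K), Reg p α then 1 else 0

variable [Finite K] {χ : Kb K →*₀ ℂ} {n : ℕ}

theorem one_lt_q (K : Type) [Field K] [Finite K] : 1 < Nat.card K := Finite.one_lt_card

/-! ### Task PD EigA -/

theorem EiA_fin (a : (Kb K)ˣ) : orderOf a ≠ 0 := by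
  have := IntermediateField.adjoin.finiteDimensional (Algebra.IsIntegral.isIntegral (R := K) (a : Kb K))
  have : Finite (IntermediateField.adjoin K {(a : Kb K)}) := Module.finite_of_finite K
  let b : IntermediateField.adjoin K {(a : Kb K)} :=
    ⟨a, IntermediateField.mem_adjoin_simple_self K _⟩
  have hb : b ≠ 0 := fun h => a.ne_zero (congrArg Subtype.val h)
  obtain ⟨m, hm, h⟩ := (isOfFinOrder_of_finite (Units.mk0 b hb)).exists_pow_eq_one
  refine (isOfFinOrder_iff_pow_eq_one.2 ⟨m, hm, Units.ext ?_⟩).orderOf_pos.ne'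
  simpa [b] using congrArg (fun u : (IntermediateField.adjoin K {(a : Kb K)})ˣ => ((u : _) : Kb K)) h

theorem EiA_emb (t : Finset (Kb K)ˣ) :
    ∃ (H : Subgroup (Kb K)ˣ) (φ : H →* ℂˣ), (∀ a ∈ t, a ∈ H) ∧ Function.Injective φ := by
  have : NeZero (∏ a ∈ t, orderOf a) := ⟨prod_ne_zero_iff.2 fun a _ => EiA_fin a⟩
  let H := rootsOfUnity (∏ a ∈ t, orderOf a) (Kb K)
  have : NeZero (Nat.card H) := ⟨Nat.card_pos.ne'⟩
  let e : H ≃* rootsOfUnity (Nat.card H) ℂ :=
    mulEquivOfCyclicCardEq (HasEnoughRootsOfUnity.natCard_rootsOfUnity ℂ _).symm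
  exact ⟨H, (Subgroup.subtype _).comp e.toMonoidHom, fun a ha =>
    (mem_rootsOfUnity _ _).2 (orderOf_dvd_iff_pow_eq_one.1 (dvd_prod_of_mem _ ha)),
    Subtype.val_injective.comp e.injective⟩

theorem exists_chi (K : Type) [Field K] [Finite K] : ∃ χ : Kb K →*₀ ℂ, Function.Injective χ := by
  classical
  choose H φ h1 h2 using EiA_emb (K := K)
  have : ∀ a : (Kb K)ˣ, NeZero (orderOf a) := fun a => ⟨EiA_fin a⟩
  obtain ⟨c, hc⟩ := Finset.rado_selection (β := fun a : (Kb K)ˣ => rootsOfUnity (orderOf a) ℂ)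
    fun t a => if h : a ∈ H t then ⟨φ t ⟨a, h⟩, (mem_rootsOfUnity _ _).2 (by
      rw [← map_pow, show (⟨a, h⟩ : H t) ^ orderOf a = 1 from Subtype.ext (pow_orderOf_eq_one a),
        map_one])⟩ else 1
  have key : ∀ s : Finset (Kb K)ˣ, ∃ t, ∀ a ∈ s, ∃ h : a ∈ H t, (c a : ℂˣ) = φ t ⟨a, h⟩ := fun s => by
    obtain ⟨t, ht, h⟩ := hc s
    exact ⟨t, fun a ha => ⟨h1 t a (ht ha), by rw [h a ha, dif_pos (h1 t a (ht ha))]⟩⟩
  let f : (Kb K)ˣ →* ℂˣ := MonoidHom.mk' (fun a => c a) fun a b => by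
    obtain ⟨t, h⟩ := key {a, b, a * b}
    obtain ⟨_, ha⟩ := h a (by simp)
    obtain ⟨_, hb⟩ := h b (by simp)
    obtain ⟨_, hab⟩ := h (a * b) (by simp)
    rw [ha, hb, hab, ← map_mul]
    rfl
  have hf : Function.Injective f := fun a b e => by
    obtain ⟨t, h⟩ := key {a, b}
    obtain ⟨_, ha⟩ := h a (by simp)
    obtain ⟨_, hb⟩ := h b (by simp)
    exact congrArg Subtype.val (h2 t (ha.symm.trans (e.trans hb)))
  refine ⟨(MulChar.ofUnitHom f).toMonoidWithZeroHom, fun a b e => ?_⟩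
  rcases eq_or_ne b 0 with rfl | hb
  · rwa [map_zero, map_eq_zero] at e
  have ha : a ≠ 0 := fun h => hb (by rwa [h, map_zero, eq_comm, map_eq_zero] at e)
  lift a to (Kb K)ˣ using ha.isUnit
  lift b to (Kb K)ˣ using hb.isUnit
  exact congrArg Units.val (hf (Units.ext
    ((MulChar.ofUnitHom_coe f a).symm.trans (e.trans (MulChar.ofUnitHom_coe f b)))))

theorem EiA_pos (K : Type) [Field K] [Finite K] (hn : 0 < n) : 0 < Nat.card K ^ n - 1 :=
  Nat.sub_pos_of_lt (Nat.one_lt_pow hn.ne' (one_lt_q K))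

theorem mem_TT (hn : 0 < n) {α : Kb K} : α ∈ TT K n ↔ α ^ (Nat.card K ^ n - 1) = 1 := by
  exact mem_nthRootsFinset (EiA_pos K hn) 1

theorem EiA_prim (K : Type) [Field K] [Finite K] (hn : 0 < n) :
    ∃ ζ : Kb K, IsPrimitiveRoot ζ (Nat.card K ^ n - 1) := by
  have := Fintype.ofFinite K
  have : NeZero ((Nat.card K ^ n - 1 : ℕ) : K) := ⟨by
    rw [Nat.cast_sub (Nat.one_lt_pow hn.ne' (one_lt_q K)).le, Nat.card_eq_fintype_card]
    simp [hn.ne']⟩
  exact HasEnoughRootsOfUnity.exists_primitiveRoot _ _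

theorem card_TT (hn : 0 < n) : #(TT K n) = Nat.card K ^ n - 1 := by
  obtain ⟨ζ, h⟩ := EiA_prim K hn
  exact h.card_nthRootsFinset

theorem EiA_geom {z : ℂ} {N : ℕ} (h : z ^ N = 1) :
    ∑ i ∈ range N, z ^ i = if z = 1 then (N : ℂ) else 0 := by
  split_ifs with h1
  · simp [h1]
  · rw [geom_sum_eq h1, h, sub_self, zero_div]

theorem EiA_one (hn : 0 < n) {α : Kb K} (h : α ∈ TT K n) : χ α ^ (Nat.card K ^ n - 1) = 1 := by
  rw [← map_pow, (mem_TT hn).1 h, map_one]

theorem EiA_sum (hχ : Function.Injective χ) (hn : 0 < n) (m : ℕ) : ∑ α ∈ TT K n, χ α ^ m =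
    if Nat.card K ^ n - 1 ∣ m then ((Nat.card K ^ n - 1 : ℕ) : ℂ) else 0 := by
  obtain ⟨ζ, h⟩ := EiA_prim K hn
  have : NeZero (Nat.card K ^ n - 1) := ⟨(EiA_pos K hn).ne'⟩
  have h' := h.map_of_injective hχ
  rw [← sum_nbij (s := range (Nat.card K ^ n - 1)) (f := fun i => (χ ζ ^ m) ^ i) (fun i => ζ ^ i)
    (fun i _ => (mem_TT hn).2 (by rw [pow_right_comm, h.pow_eq_one, one_pow]))
    (fun i hi j hj e => h.pow_inj (mem_range.1 hi) (mem_range.1 hj) e)
    (fun α hα => by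
      obtain ⟨i, hi, rfl⟩ := h.eq_pow_of_pow_eq_one ((mem_TT hn).1 hα)
      exact ⟨i, mem_coe.2 (mem_range.2 hi), rfl⟩)
    (fun i _ => by rw [map_pow, pow_right_comm]),
    EiA_geom (by rw [pow_right_comm, h'.pow_eq_one, one_pow])]
  simp only [h'.pow_eq_one_iff_dvd]

theorem sum_chi (hχ : Function.Injective χ) (hn : 0 < n) (j j' : ℕ) :
    ∑ α ∈ TT K n, χ α ^ j * star (χ α ^ j') =
      if j ≡ j' [MOD Nat.card K ^ n - 1] then ((Nat.card K ^ n - 1 : ℕ) : ℂ) else 0 := by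
  have hN := EiA_pos K hn
  have e : ∀ α ∈ TT K n, χ α ^ j * star (χ α ^ j') = χ α ^ (j + (Nat.card K ^ n - 1 - 1) * j') := by
    intro α h
    have h1 := EiA_one (χ := χ) hn h
    rw [pow_add, pow_mul, star_pow, Complex.star_def,
      ← Complex.inv_eq_conj (Complex.norm_eq_one_of_pow_eq_one h1 hN.ne')]
    rw [← Nat.sub_add_cancel hN, pow_succ] at h1
    rw [eq_inv_of_mul_eq_one_left h1]
  rw [sum_congr rfl e, EiA_sum hχ hn]
  refine if_congr ?_ rfl rfl
  obtain ⟨N, e⟩ := Nat.exists_eq_add_one_of_ne_zero hN.ne'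
  rw [e, Nat.add_sub_cancel, ← Nat.modEq_zero_iff_dvd, ← Nat.ModEq.add_iff_right (Nat.ModEq.refl j'),
    zero_add, add_assoc, ← add_one_mul, Nat.ModEq, Nat.add_mul_mod_self_left]
  rfl

theorem norm_chi (hn : 0 < n) {α : Kb K} (h : α ∈ TT K n) : ‖χ α‖ = 1 := by
  exact Complex.norm_eq_one_of_pow_eq_one (EiA_one hn h) (EiA_pos K hn).ne'

theorem chi_congr (hn : 0 < n) {α : Kb K} (h : α ∈ TT K n) {j j' : ℕ}
    (hj : j ≡ j' [MOD Nat.card K ^ n - 1]) : χ α ^ j = χ α ^ j' := by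
  exact pow_eq_pow_of_modEq hj (EiA_one hn h)

theorem exists_chi_ne (hχ : Function.Injective χ) (hn : 0 < n) {j : ℕ}
    (hj : ¬ Nat.card K ^ n - 1 ∣ j) : ∃ α ∈ TT K n, χ α ^ j ≠ 1 := by
  obtain ⟨ζ, h⟩ := EiA_prim K hn
  exact ⟨ζ, (mem_TT hn).2 h.pow_eq_one, fun e =>
    hj (((h.map_of_injective hχ).pow_eq_one_iff_dvd j).1 e)⟩

theorem fourier (hχ : Function.Injective χ) (hn : 0 < n) (F : Kb K → ℂ) : ∃ c : ℕ → ℂ,
    ∀ α ∈ TT K n, F α = ∑ j ∈ range (Nat.card K ^ n - 1), c j * χ α ^ j := by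
  classical
  have hN : ((Nat.card K ^ n - 1 : ℕ) : ℂ) ≠ 0 := Nat.cast_ne_zero.2 (EiA_pos K hn).ne'
  refine ⟨fun j => ∑ β ∈ TT K n, F β / (Nat.card K ^ n - 1 : ℕ) * (χ β)⁻¹ ^ j, fun α h => ?_⟩
  have e : ∀ β ∈ TT K n, ∑ j ∈ range (Nat.card K ^ n - 1), ((χ β)⁻¹ * χ α) ^ j =
      if β = α then ((Nat.card K ^ n - 1 : ℕ) : ℂ) else 0 := fun β hβ => by
    rw [EiA_geom (by rw [mul_pow, inv_pow, EiA_one hn h, EiA_one hn hβ, inv_one, one_mul])]
    refine if_congr ?_ rfl rfl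
    rw [inv_mul_eq_one₀ (norm_ne_zero_iff.1 (by rw [norm_chi hn hβ]; exact one_ne_zero)), hχ.eq_iff]
  simp only [sum_mul, mul_assoc, ← mul_pow]
  rw [sum_comm]
  simp only [← mul_sum]
  rw [sum_congr rfl fun β hβ => by rw [e β hβ]]
  simp only [mul_ite, mul_zero, sum_ite_eq', h, if_true, div_mul_cancel₀ _ hN]

omit [Finite K] in
theorem EiA_reg {p j k : ℕ} {α : Kb K} (hα : Reg p α) (h : α ^ (j * p ^ k) = 1) : α ^ j = 1 := by
  obtain ⟨c, hc, h1⟩ := hα
  rw [← orderOf_dvd_iff_pow_eq_one] at h h1 ⊢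
  exact ((hc.coprime_dvd_left h1).pow_right k).dvd_of_dvd_mul_right h

open scoped Classical in
theorem reg_fourier (hχ : Function.Injective χ) (hn : 0 < n) {p : ℕ} (hp : p.Prime) :
    ∃ (s : Finset ℕ) (c : ℕ → ℂ), (∀ j ∈ s, good p (Nat.card K) n j) ∧
      ∀ α ∈ TT K n, (if Reg p α then 1 else 0) = ∑ j ∈ s, c j * χ α ^ j := by
  obtain ⟨a, c, hc, e⟩ := Nat.exists_eq_pow_mul_and_not_dvd (EiA_pos K hn).ne' p hp.ne_one
  have h0 : c ≠ 0 := fun h => hc (h ▸ dvd_zero p)
  refine ⟨(range (p ^ a)).image (c * ·), fun _ => ((p ^ a : ℕ) : ℂ)⁻¹, fun j hj => ?_, fun α h => ?_⟩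
  · obtain ⟨i, -, rfl⟩ := mem_image.1 hj
    exact ⟨a, i, by rw [e]; ring⟩
  have h1 : Reg p α ↔ χ α ^ c = 1 := by
    rw [← map_pow, ← map_one χ, hχ.eq_iff]
    exact ⟨fun hα => EiA_reg (k := a) hα (by rw [mul_comm, ← e, (mem_TT hn).1 h]),
      fun h1 => ⟨c, ((Nat.Prime.coprime_iff_not_dvd hp).2 hc).symm, h1⟩⟩
  rw [sum_image fun i _ j _ => mul_left_cancel₀ h0, ← mul_sum]
  simp only [pow_mul]
  rw [EiA_geom (by rw [← pow_mul, mul_comm, ← e, EiA_one hn h]), h1, mul_ite, mul_zero,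
    inv_mul_cancel₀ (Nat.cast_ne_zero.2 (pow_ne_zero a hp.ne_zero))]

theorem good_reg (hn : 0 < n) {p j : ℕ} (hj : good p (Nat.card K) n j) {α : Kb K} (h : α ∈ TT K n)
    (hα : Reg p α) : χ α ^ j = 1 := by
  obtain ⟨k, m, e⟩ := hj
  rw [← map_pow, EiA_reg (k := k) hα (by rw [e, pow_mul, (mem_TT hn).1 h, one_pow]), map_one]

theorem EiA_mem (hn : 0 < n) {α : Kb K} (h : α ∈ TT K n) (m : ℕ) : α ^ m ∈ TT K n :=
  (mem_TT hn).2 (by rw [pow_right_comm, (mem_TT hn).1 h, one_pow])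

theorem sum_frob (hn : 0 < n) (F : Kb K → ℂ) (i : ℕ) :
    ∑ α ∈ TT K n, F (α ^ Nat.card K ^ i) = ∑ α ∈ TT K n, F α := by
  have hc : (Nat.card K ^ i).Coprime (Nat.card K ^ n - 1) :=
    (((Nat.coprime_self_sub_right (Nat.one_lt_pow hn.ne' (one_lt_q K)).le).2
      (Nat.coprime_one_right _)).coprime_dvd_left (dvd_pow_self _ hn.ne')).pow_left i
  have hi : Set.InjOn (fun α : Kb K => α ^ Nat.card K ^ i) (TT K n) := fun α hα β hβ e => by
    have h1 := (mem_TT hn).1 hβ
    have h0 : β ≠ 0 := fun h => by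
      rw [h, zero_pow (EiA_pos K hn).ne'] at h1
      exact zero_ne_one h1
    refine (div_eq_one_iff_eq h0).1 ((pow_eq_one_iff_of_coprime hc).1 ⟨?_, ?_⟩)
    · rw [div_pow, show α ^ _ = _ from e, div_self (pow_ne_zero _ h0)]
    · rw [div_pow, (mem_TT hn).1 hα, h1, div_one]
  exact sum_nbij _ (fun α h => EiA_mem hn h _) hi
    (surjOn_of_injOn_of_card_le _ (fun α h => EiA_mem hn h _) hi le_rfl) fun _ _ => rfl

theorem frob_mem (hn : 0 < n) {α : Kb K} (h : α ∈ TT K n) (i : ℕ) : α ^ Nat.card K ^ i ∈ TT K n := by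
  exact EiA_mem hn h _

/-! ### Task PD EigB -/

omit [Finite K] in
theorem PS_mul (j : ℕ) (u v : K[X]) (hu : u.Monic) (hv : v.Monic) :
    PS χ j (u * v) = PS χ j u + PS χ j v := by
  rw [PS, aroots_mul (hu.mul hv).ne_zero, Multiset.map_add, Multiset.sum_add]
  rfl

omit [Finite K] in
theorem PS_zero (u : K[X]) : PS χ 0 u = u.natDegree := by
  simp [PS, IsAlgClosed.card_aroots_eq_natDegree]

omit [Finite K] in
theorem PS_unip (j n : ℕ) : PS χ j ((X - 1) ^ n) = n := by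
  rw [PS, aroots_pow, ← C_1, aroots_X_sub_C]
  simp [Multiset.map_nsmul, Multiset.sum_nsmul]

omit [Finite K] in
theorem EiB_int (α : Kb K) : IsIntegral K α := Algebra.IsIntegral.isIntegral α

theorem EiB_dvd (α : Kb K) (m : ℕ) :
    (minpoly K α).natDegree ∣ m ↔ α ^ Nat.card K ^ m = α := by
  rw [(minpoly.irreducible (EiB_int α)).natDegree_dvd_iff_dvd_X_pow_card_pow_sub_X,
    minpoly.dvd_iff]
  simp [sub_eq_zero]

theorem EiB_mem (hn : 0 < n) {α : Kb K} : α ∈ TT K n ↔ α ≠ 0 ∧ α ^ Nat.card K ^ n = α := by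
  have h1 : 1 < Nat.card K ^ n := Nat.one_lt_pow hn.ne' (one_lt_q K)
  obtain ⟨m, hm⟩ : ∃ m, Nat.card K ^ n = m + 1 + 1 := ⟨Nat.card K ^ n - 2, by omega⟩
  rw [mem_TT hn, hm, Nat.add_sub_cancel, pow_succ α (m + 1)]
  refine ⟨fun h => ⟨fun e => by simp [e] at h, by rw [h, one_mul]⟩, fun h => ?_⟩
  exact mul_right_cancel₀ h.1 (h.2.trans (one_mul α).symm)

theorem EiB_chi (α : Kb K) : IsIntegral ℤ (χ α) := by
  by_cases h : α = 0
  · rw [h, map_zero]
    exact isIntegral_zero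
  have h0 := minpoly.natDegree_pos (EiB_int α)
  have h1 := (mem_TT h0).1 ((EiB_mem h0).2 ⟨h, (EiB_dvd α _).1 dvd_rfl⟩)
  refine IsIntegral.of_pow (Nat.sub_pos_of_lt (Nat.one_lt_pow h0.ne' (one_lt_q K))) ?_
  rw [← map_pow, h1, map_one]
  exact isIntegral_one

theorem PS_int (j : ℕ) (u : K[X]) : IsIntegral ℤ (PS χ j u) := by
  refine IsIntegral.multiset_sum fun x hx => ?_
  obtain ⟨α, -, rfl⟩ := Multiset.mem_map.1 hx
  exact (EiB_chi α).pow j

theorem EiB_pow {R ι : Type} [CommRing R] {l : ℕ} (hl : l.Prime) (f : ι → R) (s : Multiset ι) :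
    ∃ r, (s.map f).sum ^ l = (s.map fun i => f i ^ l).sum + l * r := by
  induction s using Multiset.induction_on with
  | empty => exact ⟨0, by simp [hl.ne_zero]⟩
  | cons a s ih =>
    obtain ⟨r, hr⟩ := ih
    obtain ⟨t, ht⟩ := exists_add_pow_prime_eq hl (f a) (s.map f).sum
    refine ⟨r + f a * (s.map f).sum * t, ?_⟩
    rw [Multiset.map_cons, Multiset.map_cons, Multiset.sum_cons, Multiset.sum_cons, ht, hr]
    ring

theorem PS_pow_int (j : ℕ) (u : K[X]) {l : ℕ} (hl : l.Prime) :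
    IsIntegral ℤ ((PS χ j u ^ l - PS χ (j * l) u) / l) := by
  obtain ⟨r, hr⟩ := EiB_pow hl (fun α : Kb K =>
    (⟨χ α ^ j, (EiB_chi α).pow j⟩ : integralClosure ℤ ℂ)) (u.aroots (Kb K))
  have e := congrArg (integralClosure ℤ ℂ).val hr
  simp only [map_pow, map_add, map_mul, map_multiset_sum, Multiset.map_map, Function.comp_def,
    Subalgebra.coe_val, map_natCast, SubmonoidClass.coe_pow, ← pow_mul] at e
  rw [PS, PS, e, add_sub_cancel_left, mul_div_cancel_left₀ _ (Nat.cast_ne_zero.2 hl.ne_zero)]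
  exact r.2

omit [Finite K] in
theorem regA_mul (p : ℕ) (u v : K[X]) (hu : u.Monic) (hv : v.Monic) :
    regA p (u * v) = regA p u * regA p v := by
  classical
  simp only [regA, aroots_mul (hu.mul hv).ne_zero, Multiset.mem_add, or_imp, forall_and,
    ite_zero_mul_ite_zero, mul_one]

omit [Finite K] in
theorem regA_one (p : ℕ) : regA p (1 : K[X]) = 1 := by
  simp [regA]

theorem EiB_frob (i : ℕ) : ∃ f : Kb K →ₐ[K] Kb K, ∀ x, f x = x ^ Nat.card K ^ i := by
  cases nonempty_fintype K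
  induction i with
  | zero => exact ⟨AlgHom.id K _, fun x => by simp⟩
  | succ i ih =>
    obtain ⟨f, hf⟩ := ih
    refine ⟨(FiniteField.frobeniusAlgHom K _).comp f, fun x => ?_⟩
    rw [AlgHom.comp_apply, hf, FiniteField.coe_frobeniusAlgHom, pow_succ, pow_mul,
      Nat.card_eq_fintype_card]

theorem EiB_min (α : Kb K) (i : ℕ) : minpoly K (α ^ Nat.card K ^ i) = minpoly K α := by
  obtain ⟨f, hf⟩ := EiB_frob (K := K) i
  rw [← hf, minpoly.algHom_eq f f.injective]

theorem EiB_roots (α : Kb K) : (minpoly K α).aroots (Kb K) =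
    (Multiset.range (minpoly K α).natDegree).map fun i => α ^ Nat.card K ^ i := by
  have key : ∀ i j, i < j → j < (minpoly K α).natDegree →
      α ^ Nat.card K ^ i ≠ α ^ Nat.card K ^ j := fun i j h1 h2 e => by
    obtain ⟨f, hf⟩ := EiB_frob (K := K) i
    obtain ⟨d, rfl⟩ := Nat.exists_eq_add_of_lt h1
    rw [add_assoc, add_comm, pow_add, pow_mul, ← hf, ← hf] at e
    have := Nat.le_of_dvd d.succ_pos ((EiB_dvd α (d + 1)).2 (f.injective e).symm)
    omega
  refine (Multiset.eq_of_le_of_card_le ((Multiset.le_iff_subset ?_).2 fun x hx => ?_) ?_).symm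
  · refine (Multiset.nodup_range _).map_on fun i hi j hj e => ?_
    rw [Multiset.mem_range] at hi hj
    rcases lt_trichotomy i j with h | h | h
    exacts [absurd e (key i j h hj), h, absurd e.symm (key j i h hi)]
  · obtain ⟨i, -, rfl⟩ := Multiset.mem_map.1 hx
    refine mem_aroots.2 ⟨minpoly.ne_zero (EiB_int α), ?_⟩
    rw [← EiB_min α i]
    exact minpoly.aeval K _
  · rw [IsAlgClosed.card_aroots_eq_natDegree, Multiset.card_map, Multiset.card_range]

theorem aroots_uu (hn : 0 < n) {α : Kb K} (h : α ∈ TT K n) :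
    (uu n α).aroots (Kb K) = (range n).val.map fun i => α ^ Nat.card K ^ i := by
  obtain ⟨k, hk⟩ := (EiB_dvd α n).2 ((EiB_mem hn).1 h).2
  have h0 := minpoly.natDegree_pos (EiB_int α)
  rw [uu, aroots_pow, EiB_roots, range_val]
  generalize hm : (minpoly K α).natDegree = m at hk h0 ⊢
  rw [hk, Nat.mul_div_cancel_left _ h0]
  clear hk h hn
  induction k with
  | zero => simp
  | succ k ih =>
    rw [succ_nsmul, ih, Nat.mul_succ, Multiset.range_add, Multiset.map_add, Multiset.map_map]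
    congr 1
    refine Multiset.map_congr rfl fun i _ => ?_
    rw [Function.comp_apply, pow_add, pow_mul, (EiB_dvd α (m * k)).1 (hm ▸ dvd_mul_right m k)]

theorem PS_uu (hn : 0 < n) {α : Kb K} (h : α ∈ TT K n) (j : ℕ) :
    PS χ j (uu n α) = ∑ i ∈ range n, χ α ^ (j * Nat.card K ^ i) := by
  rw [PS, aroots_uu hn h, Multiset.map_map]
  refine sum_congr rfl fun i _ => ?_
  rw [Function.comp_apply, map_pow, ← pow_mul, mul_comm]

open scoped Classical in
theorem regA_uu (hn : 0 < n) {α : Kb K} (h : α ∈ TT K n) (p : ℕ) :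
    regA p (uu n α) = if Reg p α then 1 else 0 := by
  rw [regA, aroots_uu hn h]
  refine if_congr ⟨fun k => k α (Multiset.mem_map.2 ⟨0, mem_range.2 hn, by simp⟩), ?_⟩ rfl rfl
  rintro ⟨c, h1, h2⟩ x hx
  obtain ⟨i, -, rfl⟩ := Multiset.mem_map.1 hx
  exact ⟨c, h1, by rw [← pow_mul, mul_comm, pow_mul, h2, one_pow]⟩

theorem uu_frob (n : ℕ) (α : Kb K) (i : ℕ) : uu n (α ^ Nat.card K ^ i) = uu n α := by
  rw [uu, uu, EiB_min]

theorem exists_uu {f : K[X]} {k : ℕ} (hf : f.Monic) (h0 : f.eval 0 ≠ 0) (hi : Irreducible f)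
    (hk : 0 < k) : ∃ α ∈ TT K (k * f.natDegree), uu (k * f.natDegree) α = f ^ k := by
  obtain ⟨α, hα⟩ := IsAlgClosed.exists_aeval_eq_zero (Kb K) f (degree_pos_of_irreducible hi).ne'
  obtain rfl := minpoly.eq_of_irreducible_of_monic hi hα hf
  have h1 := minpoly.natDegree_pos (EiB_int α)
  refine ⟨α, (EiB_mem (mul_pos hk h1)).2 ⟨fun e => h0 ?_, (EiB_dvd α _).1 (dvd_mul_left _ _)⟩, ?_⟩
  · rw [e, minpoly.zero, eval_X]
  · rw [uu, Nat.mul_div_cancel _ h1]

theorem uu_eq (hn : 0 < n) {α : Kb K} (h : α ∈ TT K n) : ∃ (f : K[X]) (k : ℕ), f.Monic ∧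
    f.eval 0 ≠ 0 ∧ Irreducible f ∧ 0 < k ∧ k * f.natDegree = n ∧ uu n α = f ^ k := by
  obtain ⟨h1, h2⟩ := (EiB_mem hn).1 h
  have h3 := (EiB_dvd α n).2 h2
  refine ⟨minpoly K α, n / (minpoly K α).natDegree, minpoly.monic (EiB_int α), ?_,
    minpoly.irreducible (EiB_int α),
    Nat.div_pos (Nat.le_of_dvd hn h3) (minpoly.natDegree_pos (EiB_int α)),
    Nat.div_mul_cancel h3, rfl⟩
  rw [← coeff_zero_eq_eval_zero]
  exact minpoly.coeff_zero_ne_zero (EiB_int α) h1

theorem PS_mul_uu (hn : 0 < n) {α : Kb K} (h : α ∈ TT K n) (j j' : ℕ) :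
    PS χ j (uu n α) * PS χ j' (uu n α) =
      ∑ i ∈ range n, PS χ (j' + j * Nat.card K ^ i) (uu n α) := by
  rw [PS_uu hn h j', mul_sum]
  simp only [PS_uu hn h (j' + _)]
  rw [sum_comm]
  refine sum_congr rfl fun k _ => ?_
  rw [← uu_frob n α k, PS_uu hn (frob_mem hn h k), sum_mul]
  refine sum_congr rfl fun i _ => ?_
  rw [map_pow, ← pow_mul, ← pow_add]
  congr 1
  ring

end PD
end

-- merged part: Pool.Agent.Work.MP_cea1f0_al.D.Grn
section
/-!
# Integrality of power sums of eigenvalues  (tasks PD GrnA, PD GrnB, PD GrnC)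

Let `r` be the characteristic of `K`, `q = card K`.
* `ss_of_EE`: write the order of `g` as `c * r ^ k` with `c` prime to `r`; `g ^ c - 1` is nilpotent
  (`sub_pow_char_pow_of_commute`); `EE_nil` with the polynomial `X ^ c - 1`.
* `EE_dvd`: `avg_int` for the virtual character `cf EE`; for `u ≠ 1` the element `s * u` is not `Ss`.
* `lemJ`: sum over each conjugacy class: its cardinality times the order of the centraliser is the order of the group; take a
  Sylow `r`-subgroup `U` of the centraliser; `c` is the part of the group order prime to `r`.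
* `crit`: `virt_iff`.  The number `a = hp (F * cf EE) η` is rational, `q ^ k * a` and `c * a` are integral (`lemJ` for
  `F * star η`), so all three are integers (`IsIntegrallyClosed.isIntegral_iff` over `ℚ`, Bezout).
* `mono_ch`: `G × K'ˣ` acts on the nonzero vectors by `(g, a) • w = a⁻¹ • ρ g w`; `perm_mem_ch`, `part_mem_ch` with `φ⁻¹`.
* `exists_y`: `K' = FiniteField.Extension K r M` with `M = n ! * totient c`, embedded in `Kb K`; `ρ g` is the matrix of `g`
  mapped to `K'` acting on `Fin k → Fin n → K'`; the eigenspace has dimension `k` times the dimension `m a` of the eigenspace on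
  `Fin n → K'`, and for `Ss` elements `m a` is the multiplicity of the root `a` of the characteristic polynomial
  (`Module.End.isSemisimple_of_squarefree_aeval_eq_zero`, `Module.End.IsSemisimple.isFinitelySemisimple`,
  `IsFinitelySemisimple.maxGenEigenspace_eq_eigenspace`, `LinearMap.finrank_maxGenEigenspace_eq`).  All roots lie in the
  image of `K'`: an irreducible factor has degree dividing `M`.
* `ps_rat`: Lagrange interpolation gives a rational polynomial `P` of degree at most `n` with `P (Q ^ m) = m` for `m ≤ n`;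
  `P 1 = 0`, so `m = ∑ k, P.coeff k * (Q ^ (k * m) - 1)`.
* `ps_cong`: `(Q ^ m - 1) / (Q - 1) = ∑ i < m, Q ^ i ≡ m` modulo `Q - 1`.
* `cp_pow_roots`: induction on the dimension over the algebraically closed field with an invariant line (`cp_sub_quo`
  holds over any field), after base change (`LinearMap.charpoly_baseChange` or `Matrix.charpoly_map`).
* `isV_adams`: `crit`; take `c` with `card G * l ∣ q ^ k * c`, and `y₀ = (y ^ l - y (g ^ l)) / l` (`adams`).
-/

namespace PD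

open Ob CF Polynomial Pool.Agent.Lib.SymRep Module

/-- Elements of order prime to `q`. -/
def Ss {G : Type} [Monoid G] (q : ℕ) (g : G) : Prop := ∃ c : ℕ, c.Coprime q ∧ g ^ c = 1

variable {K : Type} [Field K] [Finite K] {χ : Kb K →*₀ ℂ} {n : ℕ}

/-! ### Task PD GrnA -/

theorem GrA_char (K : Type) [Field K] [Finite K] :
    ∃ r f : ℕ, r.Prime ∧ CharP K r ∧ f ≠ 0 ∧ Nat.card K = r ^ f := by
  have := Fintype.ofFinite K
  obtain ⟨r, hc, f, hr, e⟩ := FiniteField.card' K
  exact ⟨r, f, hr, hc, f.ne_zero, Nat.card_eq_fintype_card.trans e⟩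

theorem ss_of_EE {g : Gn K n} (h : cf (Fin n → K) (EE K) g ≠ 0) : Ss (Nat.card K) g := by
  obtain ⟨r, f, hr, hc, hf, e⟩ := GrA_char K
  have := Fact.mk hr
  obtain ⟨k, c, h1, h2⟩ := Nat.exists_eq_pow_mul_and_not_dvd (orderOf_pos g).ne' r hr.ne_one
  refine ⟨c, e ▸ ((hr.coprime_iff_not_dvd.2 h1).symm.pow_right f), Units.ext ?_⟩
  have h3 : IsNilpotent (aeval (of g).φ (X ^ c - 1 : K[X])) := ⟨r ^ k, by
    rw [← map_pow, sub_pow_char_pow, one_pow, ← pow_mul, mul_comm, ← h2, map_sub, map_pow, aeval_X,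
      map_one, sub_eq_zero]
    exact congrArg Units.val (pow_orderOf_eq_one g)⟩
  have h4 := not_not.1 fun h0 => h (EE_nil _ h3 h0)
  rw [map_sub, map_pow, aeval_X, map_one, sub_eq_zero] at h4
  exact h4

theorem EE_dvd {s : Gn K n} (hs : Ss (Nat.card K) s) (U : Subgroup (Gn K n))
    (hU : ∀ u ∈ U, Commute s u) (hq : ∃ k, Nat.card U ∣ Nat.card K ^ k) :
    IsIntegral ℤ (cf (Fin n → K) (EE K) s / Nat.card U) := by
  have := Fintype.ofFinite U
  obtain ⟨c, c1, c2⟩ := hs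
  obtain ⟨k, hk⟩ := hq
  have h := avg_int (isV_EE n) s U.subtype fun u => hU u u.2
  rw [Finset.sum_eq_single 1 (fun u _ hu => not_not.1 fun h0 => hu ?_)
    (fun h0 => absurd (Finset.mem_univ _) h0), map_one, mul_one] at h
  · rwa [div_eq_inv_mul]
  obtain ⟨d, d1, d2⟩ := ss_of_EE h0
  have h1 : u ^ (d * c) = 1 := Subtype.ext (by
    have h2 : (s * u) ^ (d * c) = 1 := by
      rw [pow_mul, show (s * u) ^ d = 1 from d2, one_pow]
    rwa [(hU u u.2).mul_pow, mul_comm d, pow_mul s, c2, one_pow, one_mul, mul_comm c] at h2)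
  exact orderOf_eq_one_iff.1 (Nat.eq_one_of_dvd_coprimes ((d1.mul_left c1).pow_right k)
    (orderOf_dvd_of_pow_eq_one h1) ((orderOf_dvd_natCard u).trans hk))

theorem GrA_class {G : Type} [Group G] [Fintype G] {f : G → ℂ} (hf : Cl f)
    (h : ∀ s, IsIntegral ℤ (f s / Nat.card (Subgroup.centralizer {s}))) :
    IsIntegral ℤ ((Nat.card G : ℂ)⁻¹ * ∑ x, f x) := by
  classical
  rw [← Finset.sum_fiberwise Finset.univ ConjClasses.mk, Finset.mul_sum]
  refine IsIntegral.sum _ fun C _ => ?_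
  obtain ⟨s, rfl⟩ := ConjClasses.mk_surjective C
  have h1 : ∀ x ∈ Finset.univ.filter fun x => ConjClasses.mk x = ConjClasses.mk s, f x = f s :=
    fun x hx => by
      obtain ⟨y, rfl⟩ := isConj_iff.1
        (ConjClasses.mk_eq_mk_iff_isConj.1 (Finset.mem_filter.1 hx).2)
      exact (hf x y).symm
  have h2 : Nat.card (Subgroup.centralizer {s}) *
      (Finset.univ.filter fun x => ConjClasses.mk x = ConjClasses.mk s).card = Nat.card G := by
    have h3 := (MulAction.stabilizer (ConjAct G) s).card_mul_index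
    rw [MulAction.index_stabilizer, ← Subgroup.nat_card_centralizer_nat_card_stabilizer,
      ConjAct.orbit_eq_carrier_conjClasses] at h3
    refine Eq.trans ?_ h3
    rw [← Set.ncard_coe_finset]
    congr 2
    ext x
    simp [ConjClasses.mem_carrier_iff_mk_eq]
  have h4 : ((Finset.univ.filter fun x => ConjClasses.mk x = ConjClasses.mk s).card : ℂ) ≠ 0 :=
    Nat.cast_ne_zero.2 (Finset.card_pos.2 ⟨s, by simp⟩).ne'
  rw [Finset.sum_congr rfl h1, Finset.sum_const, nsmul_eq_mul, ← h2, Nat.cast_mul, mul_inv,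
    mul_assoc, inv_mul_cancel_left₀ h4, ← div_eq_inv_mul]
  exact h s

theorem GrA_cl : Cl (cf (Fin n → K) (EE K)) := fun g x => (EE K).iso (iso_of_conj g x)

theorem lemJ {F : Gn K n → ℂ} (hF : Cl F) (hi : ∀ g, IsIntegral ℤ (F g)) : ∃ c : ℕ,
    c.Coprime (Nat.card K) ∧ IsIntegral ℤ (c * hp (F * cf (Fin n → K) (EE K)) 1) := by
  obtain ⟨r, f, hr, -, hf, e⟩ := GrA_char K
  have := Fact.mk hr
  obtain ⟨k, c, h1, h2⟩ := Nat.exists_eq_pow_mul_and_not_dvd
    (Nat.card_pos (α := Gn K n)).ne' r hr.ne_one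
  refine ⟨c, e ▸ ((hr.coprime_iff_not_dvd.2 h1).symm.pow_right f), ?_⟩
  have h3 := GrA_class (f := fun g => c * (F g * cf (Fin n → K) (EE K) g))
    (fun g x => by simp only [hF g x, GrA_cl g x]) fun s => ?_
  · rw [← Finset.mul_sum, mul_left_comm] at h3
    simpa only [hp, Pi.mul_apply, Pi.one_apply, star_one, mul_one] using h3
  by_cases h0 : cf (Fin n → K) (EE K) s = 0
  · simp only [h0, mul_zero, zero_div]
    exact isIntegral_zero
  obtain ⟨P⟩ : Nonempty (Sylow r (Subgroup.centralizer {s})) := inferInstance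
  obtain ⟨a, ha⟩ := IsPGroup.iff_card.1 P.2
  have h4 : Nat.card (P.1.map (Subgroup.centralizer {s}).subtype) = Nat.card P :=
    Subgroup.card_map_of_injective Subtype.val_injective
  have h5 := EE_dvd (ss_of_EE h0) (P.1.map (Subgroup.centralizer {s}).subtype)
    (by
      rintro _ ⟨u, -, rfl⟩
      exact u.2 s rfl)
    ⟨a, by rw [h4, ha, e, ← pow_mul]; exact pow_dvd_pow r (Nat.le_mul_of_pos_left a hf.bot_lt)⟩
  have h6 := P.1.card_mul_index
  obtain ⟨m, hm⟩ : P.1.index ∣ c :=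
    ((hr.coprime_iff_not_dvd.2 P.not_dvd_index).symm.pow_right k).dvd_of_dvd_mul_left
      (h2 ▸ (Dvd.intro_left _ h6).trans (Subgroup.card_subgroup_dvd_card _))
  have h7 : (P.1.index : ℂ) ≠ 0 := Nat.cast_ne_zero.2 Subgroup.index_ne_zero_of_finite
  have h8 : (Nat.card P : ℂ) ≠ 0 := Nat.cast_ne_zero.2 Nat.card_pos.ne'
  refine (congrArg (IsIntegral ℤ) ?_).mp (((isIntegral_natCast m).mul (hi s)).mul h5)
  rw [h4, ← h6, hm]
  push_cast
  field_simp

theorem crit {F : Gn K n → ℂ} (hF : Cl F) (hi : ∀ g, IsIntegral ℤ (F g))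
    (h1 : ∃ N : ℕ, N ≠ 0 ∧ ∃ y ∈ virt (Gn K n), ∀ g, Ss (Nat.card K) g → N * F g = y g)
    (h2 : ∃ k : ℕ, ∃ y ∈ virt (Gn K n), ∀ g, Ss (Nat.card K) g → ∃ z, IsIntegral ℤ z ∧
      (Nat.card K : ℂ) ^ k * (F g - y g) = Nat.card (Gn K n) * z) :
    F * cf (Fin n → K) (EE K) ∈ virt (Gn K n) := by
  obtain ⟨N, hN, y, hy, h1⟩ := h1
  obtain ⟨k, y', hy', h2⟩ := h2
  have hE : cf (Fin n → K) (EE K) ∈ virt (Gn K n) := isV_EE n
  refine virt_iff.2 ⟨fun g x => by simp only [Pi.mul_apply, hF g x, GrA_cl g x], fun η hη => ?_⟩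
  have hv : η ∈ virt (Gn K n) := Submodule.subset_span hη
  have hs : ∀ g, IsIntegral ℤ (star (η g)) := virt_int (virt_star hv)
  obtain ⟨a, ha⟩ := hp_virt (virt_mul hy hE) hv
  obtain ⟨b, hb⟩ := hp_virt (virt_mul hy' hE) hv
  obtain ⟨c, c1, c2⟩ := lemJ (F := F * star η)
    (fun g x => by simp only [Pi.mul_apply, Pi.star_apply, hF g x, irr_cl hη g x])
    fun g => (hi g).mul (hs g)
  have e0 : hp (F * star η * cf (Fin n → K) (EE K)) 1 = hp (F * cf (Fin n → K) (EE K)) η := by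
    simp only [hp, Pi.mul_apply, Pi.star_apply, Pi.one_apply, star_one, mul_one, mul_right_comm]
  have e1 : N * hp (F * cf (Fin n → K) (EE K)) η = a := by
    rw [← ha, ← hp_smul_left]
    congr 1
    funext g
    by_cases h0 : cf (Fin n → K) (EE K) g = 0
    · simp only [Pi.smul_apply, Pi.mul_apply, h0, mul_zero, smul_zero]
    · rw [Pi.smul_apply, Pi.mul_apply, Pi.mul_apply, ← h1 g (ss_of_EE h0), smul_eq_mul, mul_assoc]
  have h3 : ∀ g, ∃ z, IsIntegral ℤ z ∧ (Nat.card K : ℂ) ^ k * ((F g - y' g) *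
      cf (Fin n → K) (EE K) g) = Nat.card (Gn K n) * z := fun g => by
    by_cases h0 : cf (Fin n → K) (EE K) g = 0
    · exact ⟨0, isIntegral_zero, by simp only [h0, mul_zero]⟩
    · obtain ⟨z, z1, z2⟩ := h2 g (ss_of_EE h0)
      exact ⟨_, z1.mul (virt_int hE g), by rw [← mul_assoc, z2, mul_assoc]⟩
  choose z z1 z2 using h3
  have e2 : (Nat.card K : ℂ) ^ k * hp (F * cf (Fin n → K) (EE K)) η =
      (Nat.card K : ℂ) ^ k * b + ∑ g, z g * star (η g) := by
    have e3 : ∑ g, z g * star (η g) = hp ((Nat.card (Gn K n) : ℂ) • z) η := by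
      rw [hp_smul_left, hp, mul_inv_cancel_left₀ card_ne_zero]
    rw [e3, ← hb, ← hp_smul_left, ← hp_smul_left, ← hp_add_left]
    congr 1
    funext g
    simp only [Pi.add_apply, Pi.smul_apply, Pi.mul_apply, smul_eq_mul, ← z2]
    ring
  have i2 : IsIntegral ℤ ((Nat.card K : ℂ) ^ k * hp (F * cf (Fin n → K) (EE K)) η) :=
    e2 ▸ (((isIntegral_natCast _).pow k).mul (isIntegral_intCast b)).add
      (IsIntegral.sum _ fun g _ => (z1 g).mul (hs g))
  rw [e0] at c2
  generalize hp (F * cf (Fin n → K) (EE K)) η = t at e1 i2 c2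
  obtain ⟨u, v, huv⟩ := Nat.isCoprime_iff_coprime.2 (c1.pow_right k)
  have i3 : IsIntegral ℤ t := by
    have e4 := congrArg (Int.cast : ℤ → ℂ) huv
    push_cast at e4
    have e6 := ((isIntegral_intCast u).mul c2).add ((isIntegral_intCast v).mul i2)
    rwa [← mul_assoc, ← mul_assoc, ← add_mul, e4, one_mul] at e6
  have e5 : t = algebraMap ℚ ℂ (a / N) := by
    rw [eq_ratCast, Rat.cast_div, Rat.cast_intCast, Rat.cast_natCast, ← e1,
      mul_div_cancel_left₀ _ (Nat.cast_ne_zero.2 hN)]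
  rw [e5, isIntegral_algebraMap_iff (algebraMap ℚ ℂ).injective] at i3
  obtain ⟨w, hw⟩ := IsIntegrallyClosed.isIntegral_iff.1 i3
  exact ⟨w, by rw [e5, ← hw]; simp⟩

/-! ### Task PD GrnB -/

theorem GrB_ne {W : Type} [AddCommGroup W] [Finite W] (p : W → Prop) (h : p 0) :
    (Nat.card {x : {w : W // w ≠ 0} // p x.1} : ℂ) = Nat.card {w // p w} - 1 := by
  classical
  rw [eq_sub_iff_add_eq, ← Nat.card_congr (Equiv.optionSubtypeNe (⟨0, h⟩ : {w // p w})),
    Finite.card_option, Nat.cast_add, Nat.cast_one, add_left_inj, Nat.cast_inj]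
  exact Nat.card_congr
    { toFun := fun x => ⟨⟨x.1.1, x.2⟩, fun e => x.1.2 (congrArg Subtype.val e)⟩
      invFun := fun x => ⟨⟨x.1.1, fun e => x.2 (Subtype.ext e)⟩, x.1.2⟩
      left_inv := fun _ => rfl
      right_inv := fun _ => rfl }

theorem GrB_card {K' V : Type} [Field K'] [AddCommGroup V] [Module K' V] [FiniteDimensional K' V]
    (f : End K' V) (a : K') (k : ℕ) :
    Nat.card K' ^ finrank K' (End.eigenspace (f.compLeft (Fin k)) a) =
      Nat.card K' ^ (k * finrank K' (End.eigenspace f a)) := by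
  rw [mul_comm, pow_mul, ← natCard_eq_pow_finrank, ← natCard_eq_pow_finrank]
  have e : End.eigenspace (f.compLeft (Fin k)) a ≃ (Fin k → End.eigenspace f a) :=
    (Equiv.subtypeEquivRight fun w => by
      simp only [End.mem_eigenspace_iff, funext_iff]
      rfl).trans (Equiv.subtypePiEquivPi (p := fun _ v => v ∈ End.eigenspace f a))
  rw [Nat.card_congr e, Nat.card_fun, Nat.card_fin]

theorem GrB_cast {c : ℕ} (hc : c.Coprime (Nat.card K)) : (c : K) ≠ 0 := by
  have := Fintype.ofFinite K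
  have h : IsCoprime (c : K) (Nat.card K : K) := hc.cast
  rw [Nat.card_eq_fintype_card, Nat.cast_card_eq_zero, isCoprime_zero_right] at h
  exact h.ne_zero

theorem GrB_mult {K' V : Type} [Field K'] [Algebra K K'] [AddCommGroup V] [Module K V]
    [FiniteDimensional K V] {g : (End K V)ˣ} (h : Ss (Nat.card K) g) (a : K') :
    finrank K' (End.eigenspace (g.1.baseChange K') a) =
      rootMultiplicity a (g.1.charpoly.map (algebraMap K K')) := by
  obtain ⟨c, hc, e⟩ := h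
  have h0 : (c : K') ≠ 0 := by
    rw [← map_natCast (algebraMap K K')]
    exact (_root_.map_ne_zero _).2 (GrB_cast hc)
  have h1 : End.IsSemisimple (g.1.baseChange K') := by
    refine End.isSemisimple_of_squarefree_aeval_eq_zero
      (X_pow_sub_one_separable_iff.2 h0).squarefree ?_
    rw [map_sub, map_pow, aeval_X, map_one, ← LinearMap.baseChange_pow, ← Units.val_pow_eq_pow_val,
      e, Units.val_one, LinearMap.baseChange_one, sub_self]
  rw [← h1.isFinitelySemisimple.maxGenEigenspace_eq_eigenspace,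
    LinearMap.finrank_maxGenEigenspace_eq, LinearMap.charpoly_baseChange]

theorem mono_ch {G K' W : Type} [Group G] [Fintype G] [Field K'] [Fintype K'] [DecidableEq K']
    [AddCommGroup W] [Module K' W] [FiniteDimensional K' W] (ρ : G →* (End K' W)ˣ) (φ : K'ˣ →* ℂˣ) :
    (fun g => ∑ a : K'ˣ, (φ a : ℂ) *
      (((Nat.card K' : ℂ) ^ finrank K' (End.eigenspace (ρ g).1 a) - 1) / (Nat.card K' - 1))) ∈
      Ch G := by
  have : Finite W := Module.finite_of_finite K'
  let _ : MulAction (G × K'ˣ) {w : W // w ≠ 0} :=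
    { smul := fun x w => ⟨(x.2⁻¹ : K'ˣ).1 • (ρ x.1).1 w.1, smul_ne_zero (Units.ne_zero _) fun e =>
        w.2 (((End.isUnit_iff _).1 (ρ x.1).isUnit).1 (e.trans (map_zero _).symm))⟩
      one_smul := fun w => Subtype.ext (by
        change ((1 : G × K'ˣ).2⁻¹ : K'ˣ).1 • (ρ (1 : G × K'ˣ).1).1 w.1 = w.1
        simp)
      mul_smul := fun x y w => Subtype.ext (by
        change ((x * y).2⁻¹ : K'ˣ).1 • (ρ (x * y).1).1 w.1 =
          (x.2⁻¹ : K'ˣ).1 • (ρ x.1).1 ((y.2⁻¹ : K'ˣ).1 • (ρ y.1).1 w.1)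
        simp [smul_smul, mul_comm]) }
  have h := part_mem_ch (perm_mem_ch (G := G × K'ˣ) (X := {w : W // w ≠ 0}))
    ((Units.map (starRingEnd ℂ : ℂ →* ℂ)).comp φ)
  refine (congrArg (· ∈ Ch G) (funext fun g => ?_)).mp h
  rw [Finset.mul_sum]
  refine Finset.sum_congr rfl fun a _ => ?_
  have e1 : Nat.card {x : {w : W // w ≠ 0} // (g, a) • x = x} =
      Nat.card {x : {w : W // w ≠ 0} // x.1 ∈ End.eigenspace (ρ g).1 a} := by
    refine Nat.card_congr (Equiv.subtypeEquivRight fun x => ?_)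
    rw [Subtype.ext_iff, End.mem_eigenspace_iff]
    exact inv_smul_eq_iff (g := a)
  have e2 : (Nat.card K'ˣ : ℂ) = Nat.card K' - 1 := by
    rw [Nat.card_eq_card_units_add_one K', Nat.cast_add, Nat.cast_one, add_sub_cancel_right]
  have e3 : star (((Units.map (starRingEnd ℂ : ℂ →* ℂ)).comp φ a : ℂˣ) : ℂ) = φ a := star_star _
  rw [e1, GrB_ne (· ∈ End.eigenspace (ρ g).1 a) (zero_mem _), e2, e3,
    natCard_eq_pow_finrank (K := K') (V := End.eigenspace (ρ g).1 a), Nat.cast_pow]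
  ring

open scoped Classical in
theorem exists_y (χ : Kb K →*₀ ℂ) (n : ℕ) {c : ℕ} (hc : c.Coprime (Nat.card K)) : ∃ Q : ℕ, 1 < Q ∧
    c ∣ Q - 1 ∧ ∀ j k : ℕ, ∃ y ∈ Ch (Gn K n), ∀ g, Ss (Nat.card K) g →
      y g = ∑ α ∈ ((of g).cp.aroots (Kb K)).toFinset, χ α ^ j *
        (((Q : ℂ) ^ (k * ((of g).cp.aroots (Kb K)).count α) - 1) / (Q - 1)) := by
  have : NeZero (c : Kb K) := ⟨by
    rw [← map_natCast (algebraMap K (Kb K))]
    exact (_root_.map_ne_zero _).2 (GrB_cast hc)⟩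
  obtain ⟨ζ, hζ⟩ := HasEnoughRootsOfUnity.exists_primitiveRoot (Kb K) c
  let S : Finset (Kb K) :=
    insert ζ (Finset.univ.biUnion fun g : Gn K n => ((of g).cp.aroots (Kb K)).toFinset)
  let K' := IntermediateField.adjoin K (S : Set (Kb K))
  have : FiniteDimensional K K' :=
    IntermediateField.finiteDimensional_adjoin fun x _ => Algebra.IsIntegral.isIntegral x
  have : Finite K' := Module.finite_of_finite K
  have := Fintype.ofFinite K'
  have hS : ∀ x ∈ S, x ∈ K' := fun x hx => IntermediateField.subset_adjoin _ _ hx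
  refine ⟨Nat.card K', Finite.one_lt_card, ?_, fun j k => ?_⟩
  · have h0 : (⟨ζ, hS ζ (Finset.mem_insert_self _ _)⟩ : K') ≠ 0 := fun e =>
      hζ.ne_zero (NeZero.pos_of_neZero_natCast (Kb K)).ne' (congrArg Subtype.val e)
    rw [Nat.card_eq_fintype_card]
    exact hζ.dvd_of_pow_eq_one _ (congrArg Subtype.val (FiniteField.pow_card_sub_one_eq_one _ h0))
  let P : End K' (TensorProduct K K' (Fin n → K)) →*
      End K' (Fin k → TensorProduct K K' (Fin n → K)) :=
    { toFun := fun f => f.compLeft (Fin k)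
      map_one' := rfl
      map_mul' := fun _ _ => rfl }
  refine ⟨_, mono_ch (Units.map (P.comp (End.baseChangeHom K K' (Fin n → K)).toRingHom.toMonoidHom))
    ((powMonoidHom j).comp (Units.map (χ.toMonoidHom.comp K'.val.toRingHom.toMonoidHom))),
    fun g hg => ?_⟩
  let F : Kb K → ℂ := fun α => χ α ^ j *
    (((Nat.card K' : ℂ) ^ (k * ((of g).cp.aroots (Kb K)).count α) - 1) / (Nat.card K' - 1))
  have hi : Function.Injective fun a : K'ˣ => (a.1 : Kb K) := fun a b e =>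
    Units.ext (Subtype.ext e)
  refine Eq.trans (Finset.sum_congr rfl fun a _ => ?_)
    (((Finset.sum_image (f := F) hi.injOn).symm).trans (Finset.sum_subset ?_ ?_).symm)
  · have e := GrB_card (g.1.baseChange K') a.1 k
    rw [GrB_mult hg, eq_rootMultiplicity_map (algebraMap K' (Kb K)).injective, Polynomial.map_map,
      ← IsScalarTower.algebraMap_eq, ← count_roots] at e
    have e' := congrArg (Nat.cast : ℕ → ℂ) e
    rw [Nat.cast_pow, Nat.cast_pow] at e'
    exact congrArg (fun z => χ (a.1 : Kb K) ^ j * ((z - 1) / ((Nat.card K' : ℂ) - 1))) e'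
  · intro α hα
    have h0 : α ≠ 0 := by
      rintro rfl
      have h1 := (mem_aroots.1 (Multiset.mem_toFinset.1 hα)).2
      rw [← map_zero (algebraMap K (Kb K)), aeval_algebraMap_apply_eq_algebraMap_eval] at h1
      exact cp_eval_zero _ ((algebraMap K (Kb K)).injective h1)
    have h2 : α ∈ K' :=
      hS α (Finset.mem_insert_of_mem (Finset.mem_biUnion.2 ⟨g, Finset.mem_univ _, hα⟩))
    exact Finset.mem_image.2 ⟨Units.mk0 ⟨α, h2⟩ fun e => h0 (congrArg Subtype.val e),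
      Finset.mem_univ _, rfl⟩
  · intro α _ hα
    simp only [F, Multiset.count_eq_zero_of_notMem (mt Multiset.mem_toFinset.2 hα), mul_zero,
      pow_zero, sub_self, zero_div]

/-! ### Task PD GrnC -/

omit [Finite K] in
open scoped Classical in
theorem GrC_PS (χ : Kb K →*₀ ℂ) (j : ℕ) (u : K[X]) : PS χ j u =
    ∑ α ∈ (u.aroots (Kb K)).toFinset, χ α ^ j * ((u.aroots (Kb K)).count α : ℂ) := by
  simp only [PS, Finset.sum_multiset_map_count, nsmul_eq_mul, mul_comm]

theorem GrC_lag {Q : ℕ} (hQ : 1 < Q) (n : ℕ) : ∃ r : ℕ → ℚ, ∀ m ≤ n,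
    (m : ℂ) = ∑ k ∈ Finset.range (n + 1), r k * (((Q : ℂ) ^ (k * m) - 1) / (Q - 1)) := by
  have hi : Set.InjOn (fun m : ℕ => (Q : ℚ) ^ m) (Finset.range (n + 1)) :=
    (pow_right_injective₀ (by positivity) (by exact_mod_cast hQ.ne')).injOn
  let P := Lagrange.interpolate (Finset.range (n + 1)) (fun m : ℕ => (Q : ℚ) ^ m) (↑)
  have hd : P.natDegree < n + 1 := Nat.lt_succ_of_le (natDegree_le_of_degree_le
    ((Lagrange.degree_interpolate_le _ hi).trans (by simp)))
  have e : ∀ m ≤ n, (m : ℚ) = ∑ k ∈ Finset.range (n + 1), P.coeff k * (Q : ℚ) ^ (k * m) :=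
    fun m hm => by
      rw [← Lagrange.eval_interpolate_at_node (↑) hi (Finset.mem_range_succ_iff.2 hm),
        eval_eq_sum_range' hd]
      simp only [← pow_mul, mul_comm m]
  have h1 : (Q : ℚ) - 1 ≠ 0 := sub_ne_zero.2 (by exact_mod_cast hQ.ne')
  refine ⟨fun k => P.coeff k * (Q - 1), fun m hm => ?_⟩
  have : (m : ℚ) = ∑ k ∈ Finset.range (n + 1),
      P.coeff k * (Q - 1) * (((Q : ℚ) ^ (k * m) - 1) / (Q - 1)) := by
    have h0 := e 0 n.zero_le
    simp only [mul_assoc, mul_div_cancel₀ _ h1]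
    simp only [mul_sub, Finset.sum_sub_distrib, ← e m hm]
    simpa [eq_sub_iff_add_eq] using h0.symm
  exact_mod_cast congrArg ((↑) : ℚ → ℂ) this

theorem GrC_den {G : Type} [Group G] (s : Finset ℕ) (r : ℕ → ℚ) {y : ℕ → G → ℂ}
    (hy : ∀ k, y k ∈ virt G) : ∃ N : ℕ, N ≠ 0 ∧ (fun g => N * ∑ k ∈ s, r k * y k g) ∈ virt G := by
  refine ⟨∏ k ∈ s, (r k).den, Finset.prod_ne_zero_iff.2 fun k _ => (r k).den_ne_zero, ?_⟩
  have e : ∀ k ∈ s, ∃ z : ℤ, ((∏ k ∈ s, (r k).den : ℕ) : ℂ) * r k = z := fun k hk => by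
    obtain ⟨d, hd⟩ := Finset.dvd_prod_of_mem (fun k => (r k).den) hk
    refine ⟨(r k).num * d, ?_⟩
    rw [hd, Nat.cast_mul, mul_right_comm]
    exact_mod_cast congrArg (fun x : ℚ => (x : ℂ) * d) (Rat.den_mul_eq_num (r k))
  choose! z hz using e
  convert (virt G).sum_mem (t := s) fun k _ => (virt G).smul_mem (z k) (hy k) using 1
  funext g
  rw [Finset.mul_sum, Finset.sum_apply]
  exact Finset.sum_congr rfl fun k hk => by rw [← mul_assoc, hz k hk, Pi.smul_apply, zsmul_eq_mul]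

theorem ps_rat (χ : Kb K →*₀ ℂ) (n j : ℕ) : ∃ N : ℕ, N ≠ 0 ∧ ∃ y ∈ virt (Gn K n),
    ∀ g, Ss (Nat.card K) g → N * PS χ j (of g).cp = y g := by
  classical
  obtain ⟨Q, hQ, -, h⟩ := exists_y χ n (Nat.coprime_one_left _)
  choose y hy e using h j
  obtain ⟨r, hr⟩ := GrC_lag hQ n
  obtain ⟨N, hN, h⟩ := GrC_den (Finset.range (n + 1)) r fun k => ChrB_virt (hy k)
  refine ⟨N, hN, _, h, fun g hg => congrArg _ ?_⟩
  simp only [e _ g hg, Finset.mul_sum]
  rw [GrC_PS, Finset.sum_comm]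
  refine Finset.sum_congr rfl fun α _ => ?_
  rw [hr _ (((Multiset.count_le_card _ _).trans (card_roots' _)).trans
    (natDegree_map_le.trans ((cp_natDegree (of g)).trans (finrank_fin_fun K)).le)), Finset.mul_sum]
  exact Finset.sum_congr rfl fun k _ => mul_left_comm _ _ _

theorem GrC_geo {Q c : ℕ} (hQ : 1 < Q) (h : c ∣ Q - 1) (m : ℕ) :
    ∃ z : ℤ, (m : ℂ) - ((Q : ℂ) ^ m - 1) / (Q - 1) = c * z := by
  have h1 : (c : ℤ) ∣ 1 - Q := dvd_sub_comm.1 (by
    have := Int.natCast_dvd_natCast.2 h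
    rwa [Nat.cast_sub hQ.le] at this)
  obtain ⟨z, hz⟩ : (c : ℤ) ∣ ∑ i ∈ Finset.range m, (1 - (Q : ℤ) ^ i) :=
    Finset.dvd_sum fun i _ => h1.trans (one_sub_dvd_one_sub_pow _ i)
  refine ⟨z, ?_⟩
  rw [← geom_sum_eq (by exact_mod_cast hQ.ne')]
  simpa using congrArg ((↑) : ℤ → ℂ) hz

theorem GrC_int (χ : Kb K →*₀ ℂ) (α : Kb K) : IsIntegral ℤ (χ α) := by
  have := IntermediateField.adjoin.finiteDimensional (Algebra.IsIntegral.isIntegral (R := K) α)
  have : Finite (IntermediateField.adjoin K {α}) := Module.finite_of_finite K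
  have := Fintype.ofFinite (IntermediateField.adjoin K {α})
  rcases eq_or_ne (IntermediateField.AdjoinSimple.gen K α) 0 with h | h
  · rw [show α = 0 from congrArg Subtype.val h, map_zero]
    exact isIntegral_zero
  · have e : α ^ _ = 1 := congrArg Subtype.val (FiniteField.pow_card_sub_one_eq_one _ h)
    refine IsIntegral.of_pow
      (Nat.sub_pos_of_lt (Fintype.one_lt_card (α := IntermediateField.adjoin K {α}))) ?_
    rw [← map_pow, e, map_one]
    exact isIntegral_one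

theorem ps_cong (χ : Kb K →*₀ ℂ) (n j : ℕ) {c : ℕ} (hc : c.Coprime (Nat.card K)) :
    ∃ y ∈ Ch (Gn K n), ∀ g, Ss (Nat.card K) g → ∃ z, IsIntegral ℤ z ∧
      PS χ j (of g).cp - y g = c * z := by
  classical
  obtain ⟨Q, hQ, hd, h⟩ := exists_y χ n hc
  obtain ⟨y, hy, e⟩ := h j 1
  choose z hz using GrC_geo hQ hd
  refine ⟨y, hy, fun g hg => ⟨_, IsIntegral.sum (s := ((of g).cp.aroots (Kb K)).toFinset)
    (fun α => χ α ^ j * z (((of g).cp.aroots (Kb K)).count α))
    fun α _ => ((GrC_int χ α).pow j).mul (isIntegral_algebraMap (R := ℤ)), ?_⟩⟩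
  rw [e g hg, GrC_PS, ← Finset.sum_sub_distrib, Finset.mul_sum]
  exact Finset.sum_congr rfl fun α _ => by rw [← mul_sub, one_mul, hz, mul_left_comm]

theorem GrC_det {L m : Type} [Field L] [IsAlgClosed L] [Fintype m] [DecidableEq m]
    (A : Matrix m m L) (P : L[X]) : (aeval A P).det = (A.charpoly.roots.map P.eval).prod := by
  have hm : ∀ P Q : L[X], (aeval A P).det = (A.charpoly.roots.map P.eval).prod →
      (aeval A Q).det = (A.charpoly.roots.map Q.eval).prod →
      (aeval A (P * Q)).det = (A.charpoly.roots.map (P * Q).eval).prod := fun P Q h1 h2 => by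
    rw [map_mul, Matrix.det_mul, h1, h2, ← Multiset.prod_map_mul]
    simp only [← eval_mul]
  have hc : ∀ a, (aeval A (C a)).det = (A.charpoly.roots.map (C a).eval).prod := fun a => by
    simp [Algebra.algebraMap_eq_smul_one, IsAlgClosed.card_roots_eq_natDegree]
  refine Submonoid.closure_induction ?_ (hc 1) (fun P Q _ _ => hm P Q) (IsAlgClosed.splits P)
  rintro _ (⟨a, rfl⟩ | ⟨a, rfl⟩)
  · exact hc a
  · rw [show X + C a = C (-1) * (C (-a) - X) by simp]
    refine hm _ _ (hc _) ?_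
    rw [map_sub, aeval_C, aeval_X]
    refine ((A.eval_charpoly _).symm.trans ((IsAlgClosed.splits _).eval_eq_prod_roots_of_monic
      A.charpoly_monic _)).trans (congrArg _ (Multiset.map_congr rfl fun x _ => by simp))

theorem GrC_pow {L m : Type} [Field L] [IsAlgClosed L] [Fintype m] [DecidableEq m]
    (A : Matrix m m L) (l : ℕ) : (A ^ l).charpoly.roots = A.charpoly.roots.map (· ^ l) := by
  rw [← roots_multiset_prod_X_sub_C (A.charpoly.roots.map (· ^ l))]
  refine congrArg _ (Polynomial.funext fun x => ?_)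
  have h := GrC_det A (C x - X ^ l)
  rw [map_sub, aeval_C, aeval_X_pow] at h
  rw [Matrix.eval_charpoly, eval_multiset_prod, Multiset.map_map, Multiset.map_map]
  exact h.trans (congrArg _ (Multiset.map_congr rfl fun x _ => by simp))

omit [Finite K] in
theorem cp_pow_roots (g : Gn K n) (l : ℕ) :
    (of (g ^ l)).cp.aroots (Kb K) = ((of g).cp.aroots (Kb K)).map (· ^ l) := by
  have e : ∀ g : Gn K n, (of g).cp.aroots (Kb K) =
      ((algebraMap K (Kb K)).mapMatrix (LinearMap.toMatrixAlgEquiv' g.1)).charpoly.roots := fun g => by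
    rw [RingHom.mapMatrix_apply, Matrix.charpoly_map]
    exact congrArg (aroots · (Kb K)) (LinearMap.charpoly_toMatrix g.1 (Pi.basisFun K _)).symm
  rw [e, e, Units.val_pow_eq_pow_val, map_pow, map_pow, GrC_pow]

theorem GrC_dec (q : ℕ) {N : ℕ} (hN : N ≠ 0) :
    ∃ k c : ℕ, ∃ d : ℤ, c.Coprime q ∧ (q : ℂ) ^ k * c = N * d := by
  induction N using Nat.strong_induction_on with
  | _ N ih =>
  by_cases h : N.Coprime q
  · exact ⟨0, N, 1, h, by simp⟩
  obtain ⟨M, hM⟩ := N.gcd_dvd_left q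
  obtain ⟨b, hb⟩ := N.gcd_dvd_right q
  have h0 : M ≠ 0 := right_ne_zero_of_mul (hM ▸ hN)
  have h1 : 1 < N.gcd q := lt_of_le_of_ne (Nat.gcd_pos_of_pos_left q hN.bot_lt) (Ne.symm h)
  obtain ⟨k, c, d, hc, e⟩ := ih M (hM ▸ lt_mul_left h0.bot_lt h1) h0
  refine ⟨k + 1, c, b * d, hc, ?_⟩
  have e1 := congrArg ((↑) : ℕ → ℂ) hM
  have e2 := congrArg ((↑) : ℕ → ℂ) hb
  push_cast at e1 e2 ⊢
  linear_combination q * e + M * d * e2 - b * d * e1

theorem isV_PS (χ : Kb K →*₀ ℂ) (j : ℕ) : IsV (mf (PS χ j) (EE K)) := by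
  intro n
  obtain ⟨k, c, d, hc, e⟩ := GrC_dec (Nat.card K) (Nat.card_pos (α := Gn K n)).ne'
  obtain ⟨y, hy, h⟩ := ps_cong χ n j hc
  refine crit (cf_cl (cpf (PS χ j))) (fun g => PS_int j _) (ps_rat χ n j)
    ⟨k, y, ChrB_virt hy, fun g hg => ?_⟩
  obtain ⟨z, hz, h⟩ := h g hg
  refine ⟨d * z, (isIntegral_algebraMap (R := ℤ) (x := d)).mul hz, ?_⟩
  exact (congrArg _ h).trans (by rw [← mul_assoc, e, mul_assoc])

theorem isV_adams (χ : Kb K →*₀ ℂ) (j : ℕ) {l : ℕ} (hl : l.Prime) :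
    IsV (mf (fun u => (PS χ j u ^ l - PS χ (j * l) u) / l) (EE K)) := by
  intro n
  have hl0 : (l : ℂ) ≠ 0 := Nat.cast_ne_zero.2 hl.ne_zero
  obtain ⟨k, c, d, hc, e⟩ := GrC_dec (Nat.card K)
    (mul_ne_zero (Nat.card_pos (α := Gn K n)).ne' hl.ne_zero)
  obtain ⟨y, hy, h⟩ := ps_cong χ n j hc
  obtain ⟨N, hN, a, ha, e1⟩ := ps_rat χ n j
  obtain ⟨M, hM, b, hb, e2⟩ := ps_rat χ n (j * l)
  have hp : ∀ i, a ^ (i + 1) ∈ virt (Gn K n) := fun i =>
    i.rec (by simpa using ha) fun i ih => pow_succ a (i + 1) ▸ virt_mul ih ha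
  refine crit (cf_cl (cpf fun u => (PS χ j u ^ l - PS χ (j * l) u) / l))
    (fun g => PS_pow_int j _ hl) ⟨l * (N ^ l * M), by simp [hN, hM, hl.ne_zero], M • a ^ l - N ^ l • b,
      sub_mem (nsmul_mem (Nat.succ_pred hl.ne_zero ▸ hp l.pred) _) (nsmul_mem hb _), fun g hg => ?_⟩
    ⟨k, _, ChrB_virt (adams hl hy), fun g hg => ?_⟩
  · change _ * ((PS χ j (of g).cp ^ l - PS χ (j * l) (of g).cp) / l) = _
    rw [Pi.sub_apply, Pi.smul_apply, Pi.smul_apply, Pi.pow_apply, ← e1 g hg, ← e2 g hg]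
    simp only [nsmul_eq_mul]
    push_cast
    field_simp
    ring
  · obtain ⟨z, hz, h1⟩ := h g hg
    obtain ⟨w, hw, h2⟩ := h (g ^ l) (hg.imp fun c hc => ⟨hc.1, by rw [pow_right_comm, hc.2, one_pow]⟩)
    have h3 : PS χ j (of (g ^ l)).cp = PS χ (j * l) (of g).cp := by
      simp only [PS, cp_pow_roots, Multiset.map_map, Function.comp_def, map_pow, ← pow_mul, mul_comm]
    have h4 := geom_sum₂_mul (PS χ j (of g).cp) (y g) l
    refine ⟨d * ((∑ i ∈ Finset.range l, PS χ j (of g).cp ^ i * y g ^ (l - 1 - i)) * z - w),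
      (isIntegral_algebraMap (R := ℤ) (x := d)).mul (((IsIntegral.sum _ fun i _ =>
        ((PS_int j _).pow _).mul ((virt_int (ChrB_virt hy) g).pow _)).mul hz).sub hw), ?_⟩
    change _ * ((PS χ j (of g).cp ^ l - PS χ (j * l) (of g).cp) / l - _) = _
    rw [← sub_div, sub_sub_sub_comm, ← h4, ← h3, h1, h2, mul_left_comm _ (c : ℂ), ← mul_sub,
      ← mul_div_assoc, ← mul_assoc, e, div_eq_iff hl0]
    push_cast
    ring

end PD
end

-- merged part: Pool.Agent.Work.MP_cea1f0_al.D.Flag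
section
/-!
# Products of trivial characters count flags  (task PD Flag)

`prod_flag`: induction on `N` for all objects, `Fin.prod_univ_succ`, `mul_val`.  A flag of length `N + 1` in `M` is an invariant
subspace `N₁ = F 1` together with a flag of length `N` in the quotient (`Submodule.comapMkQRelIso`, or `map mkQ` and
`comap mkQ`); `finrank (comap mkQ S) = finrank N₁ + finrank S`.
-/

namespace PD

open Ob CF Module Pool.Agent.Puig

variable {K : Type} [Field K]

open scoped Classical in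
/-- The indicator function of a set of dimensions. -/
noncomputable def ind (K : Type) [Field K] (P : ℕ → Prop) : HA K :=
  ⟨fun M => if P M.dim then 1 else 0, fun _ _ h => by simp only [h.dim_eq]⟩

variable [Finite K]

/-! ### Task PD Flag -/

section
variable {V : Type} [AddCommGroup V] [Module K V]

omit [Finite K] in
theorem Fla_rank [FiniteDimensional K V] (L : Submodule K V) (S : Submodule K (V ⧸ L)) :
    finrank K (S.comap L.mkQ) = finrank K L + finrank K S := by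
  have h := LinearMap.finrank_range_add_finrank_ker (L.mkQ ∘ₗ (S.comap L.mkQ).subtype)
  rw [ObA_range, ObA_ker, Submodule.map_comap_eq_of_surjective L.mkQ_surjective,
    (Submodule.comapSubtypeEquivOfLe (L.le_comap_mkQ S)).finrank_eq] at h
  omega

/-- The flag given by a subspace and a flag in the quotient. -/
def Fla_cons {N : ℕ} (L : Submodule K V) (G : Fl N K (V ⧸ L)) : Fl (N + 1) K V :=
  ⟨Fin.cons ⊥ fun t => (G.1 t).comap L.mkQ, Fin.monotone_iff_le_succ.2 fun i =>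
    Fin.cases bot_le (fun j => Submodule.comap_mono (G.2.1 j.castSucc_le_succ)) i, rfl,
    (congrArg (Submodule.comap L.mkQ) G.2.2.2).trans (Submodule.comap_top _)⟩

omit [Finite K] in
theorem Fla_one {N : ℕ} (L : Submodule K V) (G : Fl N K (V ⧸ L)) :
    (Fla_cons L G).1 (Fin.succ 0) = L :=
  (congrArg (Submodule.comap L.mkQ) G.2.2.1).trans L.ker_mkQ

/-- The induced flag in the quotient. -/
def Fla_tail {N : ℕ} (F : Fl (N + 1) K V) : Fl N K (V ⧸ F.1 (Fin.succ 0)) :=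
  ⟨fun t => (F.1 t.succ).map (F.1 (Fin.succ 0)).mkQ,
    fun _ _ h => Submodule.map_mono (F.2.1 (Fin.succ_le_succ_iff.2 h)), Submodule.mkQ_map_self _,
    (congrArg (Submodule.map _) F.2.2.2).trans ((Submodule.map_top _).trans (Submodule.range_mkQ _))⟩

omit [Finite K] in
theorem Fla_cons_tail {N : ℕ} (F : Fl (N + 1) K V) : Fla_cons _ (Fla_tail F) = F :=
  Subtype.ext (funext fun i => Fin.cases F.2.2.1.symm (fun t => (Submodule.comap_map_mkQ _ _).trans
    (sup_eq_right.2 (F.2.1 (Fin.succ_le_succ_iff.2 (Fin.zero_le t))))) i)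

omit [Finite K] in
theorem Fla_P [FiniteDimensional K V] {N : ℕ} (P : Fin (N + 1) → ℕ → Prop) (L : Submodule K V)
    (G : Fl N K (V ⧸ L)) : (∀ t : Fin (N + 1), P t (finrank K ((Fla_cons L G).1 t.succ) -
      finrank K ((Fla_cons L G).1 t.castSucc))) ↔ P 0 (finrank K L) ∧
      ∀ t : Fin N, P t.succ (finrank K (G.1 t.succ) - finrank K (G.1 t.castSucc)) := by
  rw [Fin.forall_fin_succ, Fla_one]
  refine and_congr (iff_of_eq (congrArg (P 0) ?_)) (forall_congr' fun t =>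
    iff_of_eq (congrArg (P t.succ) ?_))
  · exact (congrArg (finrank K L - ·) (finrank_bot K V)).trans (Nat.sub_zero _)
  · exact (congrArg₂ (· - ·) (Fla_rank L (G.1 t.succ)) (Fla_rank L (G.1 t.castSucc))).trans
      (Nat.add_sub_add_left _ _ _)

end

omit [Finite K] in
theorem Fla_inv {N : ℕ} {M : Ob K} (L : M.Inv) (G : Fl N K (M.quo L).V) :
    (∀ t, ∀ x ∈ (Fla_cons L.1 G).1 t, M.φ x ∈ (Fla_cons L.1 G).1 t) ↔
      ∀ t, ∀ x ∈ G.1 t, (M.quo L).φ x ∈ G.1 t := by
  refine ⟨fun h t x hx => ?_, fun h t => Fin.cases M.bot.2 (fun t x hx => h t _ hx) t⟩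
  obtain ⟨y, rfl⟩ := L.1.mkQ_surjective x
  exact h t.succ y hx

theorem Fla_step (N : ℕ) (P : Fin (N + 1) → ℕ → Prop) (M : Ob K) :
    Nat.card {F : Fl (N + 1) K M.V // (∀ t, ∀ x ∈ F.1 t, M.φ x ∈ F.1 t) ∧
      ∀ t : Fin (N + 1), P t (finrank K (F.1 t.succ) - finrank K (F.1 t.castSucc))} =
    ∑ L : M.Inv, Nat.card {G : Fl N K (M.quo L).V // P 0 (M.sub L).dim ∧
      (∀ t, ∀ x ∈ G.1 t, (M.quo L).φ x ∈ G.1 t) ∧
      ∀ t : Fin N, P t.succ (finrank K (G.1 t.succ) - finrank K (G.1 t.castSucc))} := by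
  rw [← Nat.card_sigma]
  refine (Nat.card_eq_of_bijective (fun x => ⟨Fla_cons x.1.1 x.2.1, (Fla_inv _ _).2 x.2.2.2.1,
    (Fla_P P _ _).2 ⟨x.2.2.1, x.2.2.2.2⟩⟩) ⟨?_, ?_⟩).symm
  · rintro ⟨L, G, hG⟩ ⟨L', G', hG'⟩ h
    replace h : Fla_cons L.1 G = Fla_cons L'.1 G' := congrArg Subtype.val h
    obtain rfl : L = L' := Subtype.ext (by rw [← Fla_one L.1 G, h, Fla_one])
    obtain rfl : G = G' := Subtype.ext (funext fun t =>
      Submodule.comap_injective_of_surjective L.1.mkQ_surjective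
        (congrArg (fun F : Fl (N + 1) K M.V => F.1 t.succ) h))
    rfl
  · rintro ⟨F, h1, h2⟩
    have e := Fla_cons_tail F
    have k := (Fla_P P _ (Fla_tail F)).1 (e.symm ▸ h2)
    exact ⟨⟨⟨_, h1 (Fin.succ 0)⟩, Fla_tail F, k.1,
      (Fla_inv (M := M) ⟨_, h1 (Fin.succ 0)⟩ (Fla_tail F)).1 (e.symm ▸ h1), k.2⟩, Subtype.ext e⟩

theorem prod_flag (N : ℕ) (P : Fin N → ℕ → Prop) (M : Ob K) : (∏ t, ind K (P t)).1 M =
    Nat.card {F : Fl N K M.V // (∀ t, ∀ x ∈ F.1 t, M.φ x ∈ F.1 t) ∧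
      ∀ t : Fin N, P t (finrank K (F.1 t.succ) - finrank K (F.1 t.castSucc))} := by
  induction N generalizing M with
  | zero =>
    rw [Fin.prod_univ_zero, one_val]
    split_ifs with h
    · haveI : Subsingleton M.V := finrank_zero_iff.1 h
      rw [eq_comm, Nat.cast_eq_one, Nat.card_eq_one_iff_unique]
      exact ⟨⟨fun F G => Subtype.ext (Subtype.ext (Subsingleton.elim _ _))⟩,
        ⟨⟨⟨fun _ => ⊥, monotone_const, rfl, Subsingleton.elim _ _⟩, fun _ => M.bot.2, fun t => t.elim0⟩⟩⟩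
    · rw [eq_comm, Nat.cast_eq_zero, Nat.card_eq_zero]
      refine Or.inl ⟨fun F => h ?_⟩
      have k : (⊤ : Submodule K M.V) = ⊥ := F.1.2.2.2.symm.trans F.1.2.2.1
      rw [Ob.dim, ← finrank_top, k, finrank_bot]
  | succ N ih =>
    rw [Fin.prod_univ_succ, mul_val, Fla_step, Nat.cast_sum]
    refine Finset.sum_congr rfl fun L _ => ?_
    rw [ih]
    by_cases h : P 0 (M.sub L).dim
    · simp only [ind, h, if_true, true_and, one_mul]
    · simp [ind, h]

variable {V : Type} [AddCommGroup V] [Module K V] [FiniteDimensional K V]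

omit [Finite K] in
theorem Fla_fix {N : ℕ} (g : (End K V)ˣ) (F : Fl N K V) :
    flAct N K V (LinearMap.GeneralLinearGroup.generalLinearEquiv K V g) F = F ↔
      ∀ t, ∀ x ∈ F.1 t, g.1 x ∈ F.1 t := by
  refine ⟨fun h t x hx => ?_, fun h => Subtype.ext (funext fun t => ?_)⟩
  · rw [← h]
    exact ⟨x, hx, rfl⟩
  · exact Submodule.eq_of_le_of_finrank_eq (Submodule.map_le_iff_le_comap.2 (h t))
      (LinearEquiv.finrank_map_eq _ _)

theorem pch_univ (N : ℕ) (g : (End K V)ˣ) :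
    (pch (flAct N K V) Set.univ (LinearMap.GeneralLinearGroup.generalLinearEquiv K V g) : ℂ) =
      cf V (HH K ^ N) g := by
  have h : ind K (fun _ => True) = HH K := CF.ext fun _ => if_pos trivial
  have k := prod_flag N (fun _ _ => True) (of g)
  rw [h, Fin.prod_const] at k
  rw [cf_apply, k, pch]
  exact congrArg _ (Nat.card_congr (Equiv.subtypeEquivRight fun F =>
    ⟨fun a => ⟨(Fla_fix g F).1 a.2, fun _ => trivial⟩, fun a => ⟨trivial, (Fla_fix g F).2 a.1⟩⟩))

theorem pch_flS {N d : ℕ} (l : Ty N d) (g : (End K V)ˣ) :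
    (pch (flAct N K V) (flS N K V l) (LinearMap.GeneralLinearGroup.generalLinearEquiv K V g) : ℂ) =
      cf V (∏ t, hh K (l.1 t)) g := by
  have h : ∀ m, hh K m = ind K (· = m) := fun m => CF.ext fun M => by
    simp only [hh, cmp_val, ind, HH]
    congr
  simp only [h]
  rw [cf_apply, prod_flag N (fun t m => m = l.1 t) (of g), pch]
  refine congrArg _ (Nat.card_congr (Equiv.subtypeEquivRight fun F =>
    and_comm.trans (and_congr (Fla_fix g F) (forall_congr' fun t => ?_))))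
  exact (Nat.sub_eq_iff_eq_add' (Submodule.finrank_mono (F.2.1 t.castSucc_le_succ))).symm

end PD
end
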